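import Mathlib

namespace Pool.Agent.Lib.MP_c2693b_gt.Ar

open MeasureTheory

theorem box_point {ι : Type} [Fintype ι] [DecidableEq ι] (A : (ι → ℝ) →ₗ[ℝ] (ι → ℝ))
    (hA : LinearMap.det A ≠ 0) (r : ι → ℝ) (hr : ∀ i, 0 < r i)
    (h : |LinearMap.det A| < ∏ i, r i) :
    ∃ v : ι → ℤ, v ≠ 0 ∧ ∀ i, |A (fun j => (v j : ℝ)) i| < r i := by
  let b := Pi.basisFun ℝ ι
  let s : Set (ι → ℝ) := A ⁻¹' Set.pi Set.univ fun i => Set.Ioo (-r i) (r i)
  have hc : Countable (Submodule.span ℤ (Set.range b)).toAddSubgroup :=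
    inferInstanceAs (Countable (Submodule.span ℤ (Set.range b)))
  have hd : 0 < |LinearMap.det A| := abs_pos.2 hA
  obtain ⟨x, hx0, hx⟩ := exists_ne_zero_mem_lattice_of_measure_mul_two_pow_lt_measure
    (μ := volume) (s := s) (ZSpan.isAddFundamentalDomain' b volume)
    (fun x hx i hi => by
      have := hx i hi
      simp only [map_neg, Pi.neg_apply, Set.mem_Ioo] at this ⊢
      constructor <;> linarith [this.1, this.2])
    ((convex_pi fun i _ => convex_Ioo _ _).linear_preimage A)
    (by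
      have e1 : (Matrix.of b).det = 1 := by
        have : Matrix.of b = 1 := by
          ext i j; simp [b, Matrix.one_apply, Pi.single_apply, eq_comm]
        rw [this, Matrix.det_one]
      rw [ZSpan.volume_fundamentalDomain, e1, Measure.addHaar_preimage_linearMap _ hA,
        Real.volume_pi_Ioo, ← ENNReal.ofReal_prod_of_nonneg (fun i _ => by linarith [hr i]),
        ← ENNReal.ofReal_mul (abs_nonneg _), abs_one, ENNReal.ofReal_one, one_mul,
        Module.finrank_fintype_fun_eq_card]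
      have e2 : (2 : ENNReal) ^ Fintype.card ι = ENNReal.ofReal (2 ^ Fintype.card ι) := by
        rw [ENNReal.ofReal_pow (by norm_num)]; simp
      have e3 : ∏ i, (r i - -r i) = 2 ^ Fintype.card ι * ∏ i, r i := by
        rw [← Finset.card_univ, ← Finset.prod_const, ← Finset.prod_mul_distrib]
        exact Finset.prod_congr rfl fun i _ => by ring
      have e4 : (2 : ℝ) ^ Fintype.card ι < |(LinearMap.det A)⁻¹| * (2 ^ Fintype.card ι * ∏ i, r i) := by
        rw [abs_inv, mul_left_comm, lt_mul_iff_one_lt_right (by positivity), ← div_eq_inv_mul,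
          one_lt_div hd]
        exact h
      rw [e2, e3]
      exact (ENNReal.ofReal_lt_ofReal_iff (lt_trans (by positivity) e4)).2 e4)
  have hx1 := (b.mem_span_iff_repr_mem ℤ x.1).1 x.2
  choose v hv using hx1
  have e : (fun j => (v j : ℝ)) = x.1 := funext fun j => by simpa [b] using hv j
  refine ⟨v, fun h0 => hx0 (Subtype.ext ?_), fun i => ?_⟩
  · rw [← e, h0]; exact funext fun j => by simp
  · rw [e]; exact abs_lt.2 (hx i (Set.mem_univ i))

/-- short lattice vectors span, uniformly for lattices of bounded covolume without very short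
vectors. -/
theorem mink (ι : Type) [Fintype ι] [DecidableEq ι] (δ c : ℝ) (hc : 0 < c) :
    ∃ C : ℝ, ∀ A : (ι → ℝ) →ₗ[ℝ] (ι → ℝ), LinearMap.det A ≠ 0 → |LinearMap.det A| ≤ δ →
      (∀ v : ι → ℤ, v ≠ 0 → c ≤ ‖A fun j => (v j : ℝ)‖) →
      ∀ f : (ι → ℝ) →ₗ[ℝ] ℝ, f ≠ 0 →
        ∃ v : ι → ℤ, f (A fun j => (v j : ℝ)) ≠ 0 ∧ ‖A fun j => (v j : ℝ)‖ ≤ C := by
  set m := Fintype.card ι with hm
  set e : ℝ := c / (m + 2) with he
  have e0 : 0 < e := by positivity
  set t : ℝ := (|δ| + 1) / e ^ m + 1 with ht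
  have t0 : 0 < (|δ| + 1) / e ^ m := by positivity
  refine ⟨e * t, fun A hA hδ hmin f hf => ?_⟩
  have hx : ∀ x : ι → ℝ, f x = ∑ i, x i * f (Pi.single i 1) := fun x => by
    conv_lhs => rw [pi_eq_sum_univ' x]
    simp [map_sum]
  have hne : ∃ i, f (Pi.single i 1) ≠ 0 := by
    by_contra hn
    push Not at hn
    exact hf (LinearMap.ext fun x => by simp [hx x, hn])
  obtain ⟨i₁, hi₁⟩ := hne
  obtain ⟨i₀, -, hi₀⟩ := Finset.exists_max_image Finset.univ (fun i => |f (Pi.single i 1)|)
    ⟨i₁, Finset.mem_univ _⟩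
  have g0 : 0 < |f (Pi.single i₀ 1)| := (abs_pos.2 hi₁).trans_le (hi₀ i₁ (Finset.mem_univ _))
  obtain ⟨v, v0, hv⟩ := box_point A hA (fun i => e * if i = i₀ then t else 1)
    (fun i => by split_ifs <;> positivity) (by
      rw [Finset.prod_mul_distrib, Finset.prod_const, Finset.card_univ, Finset.prod_ite_eq']
      simp only [Finset.mem_univ, if_true, ← hm]
      have : e ^ m * t = |δ| + 1 + e ^ m := by rw [ht]; field_simp
      have := le_abs_self δ
      have : 0 < e ^ m := by positivity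
      linarith)
  refine ⟨v, fun h0 => ?_, (pi_norm_le_iff_of_nonneg (by positivity)).2 fun i => ?_⟩
  · have h1 := hmin v v0
    generalize (A fun j => (v j : ℝ)) = x at hv h0 h1
    have h2 : ∀ i, i ≠ i₀ → |x i| ≤ e := fun i hi => by simpa [hi] using (hv i).le
    have h3 : |x i₀| * |f (Pi.single i₀ 1)| ≤ m * e * |f (Pi.single i₀ 1)| := by
      rw [hx, ← Finset.add_sum_erase _ _ (Finset.mem_univ i₀)] at h0
      rw [← abs_mul, eq_neg_of_add_eq_zero_left h0, abs_neg]
      refine (Finset.abs_sum_le_sum_abs _ _).trans ?_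
      refine (Finset.sum_le_card_nsmul _ _ (e * |f (Pi.single i₀ 1)|) fun i hi => ?_).trans ?_
      · rw [abs_mul]
        exact mul_le_mul (h2 i (Finset.ne_of_mem_erase hi)) (hi₀ i (Finset.mem_univ _))
          (abs_nonneg _) e0.le
      · rw [nsmul_eq_mul, mul_assoc]
        refine mul_le_mul_of_nonneg_right ?_ (by positivity)
        exact_mod_cast Finset.card_le_univ _
    have h4 : |x i₀| ≤ m * e := le_of_mul_le_mul_right h3 g0
    have h5 : ‖x‖ ≤ (m + 1) * e := (pi_norm_le_iff_of_nonneg (by positivity)).2 fun i => by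
      have : 0 ≤ (m : ℝ) * e := by positivity
      by_cases hi : i = i₀
      · rw [hi, Real.norm_eq_abs]; linarith
      · rw [Real.norm_eq_abs]; linarith [h2 i hi]
    have h6 : (m + 2) * e = c := by rw [he]; field_simp
    linarith
  · refine (hv i).le.trans (mul_le_mul_of_nonneg_left ?_ e0.le)
    split_ifs <;> linarith

end Pool.Agent.Lib.MP_c2693b_gt.Ar
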