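import Pool.Agent.Lib.MP_c2693b_gt.ArLat
import Pool.Agent.Lib.MP_c2693b_gt.ArMink

set_option linter.unusedSectionVars false

namespace Pool.Agent.Lib.MP_c2693b_gt.Ar

open Module Matrix

variable {S : Type} [Fintype S] [DecidableEq S]

variable (S) in
theorem exists_o : ∃ o ∈ HH S, (∀ s, o (.inr s) = 0) ∧ ∀ i, 0 < q o (nu (.inl i)) := by
  have h1 : (1 : ℝ) < Real.sqrt 2 := Real.lt_sqrt_of_sq_lt (by norm_num)
  have h2 : 0 < 6 * Real.sqrt 2 - 6 := by linarith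
  set a : ℝ := (Real.sqrt (6 * Real.sqrt 2 - 6))⁻¹ with ha
  have a0 : 0 < a := inv_pos.2 (Real.sqrt_pos.2 h2)
  have a1 : a * a * (6 * Real.sqrt 2 - 6) = 1 := by
    rw [ha, ← mul_inv, Real.mul_self_sqrt h2.le, inv_mul_cancel₀ h2.ne']
  have hT : TT (Sum.elim (fun _ => -a) (fun _ => 0) : Col S → ℝ) = -(3 * a) := by simp [TT]
  refine ⟨Sum.elim (fun _ => -a) (fun _ => 0), ⟨?_, by rw [hT]; linarith⟩, fun _ => rfl,
    fun i => ?_⟩
  · change qq _ _ _ = _
    rw [qq, hT]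
    simp
    linarith
  · rw [q_inl, hT]
    simp
    nlinarith

theorem exists_refl {y o : Col S → ℝ} (hy : y ∈ HH S) (ho : o ∈ HH S) :
    ∃ s : (Col S → ℝ) →ₗ[ℝ] (Col S → ℝ), (∀ x, s (s x) = x) ∧ (∀ x z, q (s x) (s z) = q x z) ∧
      s y = -o := by
  have h1 := q_le_neg_one hy ho
  have h2 : q (y + o) (y + o) = 2 * (q y o - 1) := by
    simp only [map_add, LinearMap.add_apply, hy.1, ho.1, q_comm o y]; ring
  have h3 : q (y + o) y = q y o - 1 := by
    simp only [map_add, LinearMap.add_apply, hy.1, q_comm o y]; ring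
  have h4 : q y o - 1 ≠ 0 := by linarith
  generalize hn : y + o = n at h2 h3
  generalize q y o - 1 = m at h2 h3 h4
  have e : ∀ x, (LinearMap.id - (m⁻¹ • q n).smulRight n : (Col S → ℝ) →ₗ[ℝ] _) x =
      x - (m⁻¹ * q n x) • n := fun x => rfl
  refine ⟨LinearMap.id - (m⁻¹ • q n).smulRight n, fun x => ?_, fun x z => ?_, ?_⟩
  · rw [e, e, map_sub, map_smul, h2, smul_eq_mul, sub_sub, ← add_smul]
    have : m⁻¹ * q n x + m⁻¹ * (q n x - m⁻¹ * q n x * (2 * m)) = 0 := by field_simp; ring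
    rw [this, zero_smul, sub_zero]
  · rw [e, e]
    simp only [map_sub, map_smul, LinearMap.sub_apply, LinearMap.smul_apply, smul_eq_mul, h2,
      q_comm x n]
    field_simp; ring
  · rw [e, h3, inv_mul_cancel₀ h4, one_smul, ← hn]; abel

/-- the two embeddings together. -/
noncomputable def JJ : (Col S ⊕ Col S → ℝ) →ₗ[ℝ] (Col S ⊕ Col S → ℝ) where
  toFun x := Sum.elim (fun φ => x (.inl φ) + x (.inr φ) * Real.sqrt 2)
    fun φ => x (.inl φ) - x (.inr φ) * Real.sqrt 2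
  map_add' x y := by ext (φ | φ) <;> simp <;> ring
  map_smul' a x := by ext (φ | φ) <;> simp <;> ring

/-- a linear map acting on the first half of the coordinates. -/
def BB (s : (Col S → ℝ) →ₗ[ℝ] (Col S → ℝ)) : (Col S ⊕ Col S → ℝ) →ₗ[ℝ] (Col S ⊕ Col S → ℝ) where
  toFun x := Sum.elim (s fun φ => x (.inl φ)) fun φ => x (.inr φ)
  map_add' x y := by
    have := map_add s (fun φ => x (.inl φ)) fun φ => y (.inl φ)
    ext (φ | φ)
    · exact congrFun this φ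
    · rfl
  map_smul' a x := by
    have := map_smul s a fun φ => x (.inl φ)
    ext (φ | φ)
    · exact congrFun this φ
    · rfl

theorem abs_det_invol {E : Type} [AddCommGroup E] [Module ℝ E] {s : E →ₗ[ℝ] E}
    (h : ∀ x, s (s x) = x) : |LinearMap.det s| = 1 := by
  have h1 : s.comp s = LinearMap.id := LinearMap.ext h
  have h2 := LinearMap.det_comp s s
  rw [h1, LinearMap.det_id] at h2
  have h3 : |LinearMap.det s| * |LinearMap.det s| = 1 := by rw [abs_mul_abs_self, ← h2]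
  nlinarith [abs_nonneg (LinearMap.det s)]

theorem det_JJ : LinearMap.det (JJ (S := S)) ≠ 0 := by
  rw [Ne, LinearMap.det_eq_zero_iff_ker_ne_bot, not_not, LinearMap.ker_eq_bot']
  intro x hx
  have h1 : ∀ φ, x (.inl φ) + x (.inr φ) * Real.sqrt 2 = 0 := fun φ => congrFun hx (.inl φ)
  have h2 : ∀ φ, x (.inl φ) - x (.inr φ) * Real.sqrt 2 = 0 := fun φ => congrFun hx (.inr φ)
  have h3 : 0 < Real.sqrt 2 := by positivity
  ext (φ | φ)
  · change x _ = 0
    linarith [h1 φ, h2 φ]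
  · change x _ = 0
    exact (mul_eq_zero.1 (by linarith [h1 φ, h2 φ] : x (.inr φ) * Real.sqrt 2 = 0)).resolve_right
      h3.ne'

/-- the lattice vector with given integer coordinates. -/
def lat (v : Col S ⊕ Col S → ℤ) : Col S → OO := fun φ => ⟨v (.inl φ), v (.inr φ)⟩

theorem BJ (s : (Col S → ℝ) →ₗ[ℝ] (Col S → ℝ)) (v : Col S ⊕ Col S → ℤ) :
    ((BB s).comp JJ) (fun j => (v j : ℝ)) = Sum.elim (s (e₁ (lat v))) (e₂ (lat v)) := by
  ext (φ | φ)
  · rfl
  · exact (s₂_apply (lat v φ)).symm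

theorem norm_elim_left (a b : Col S → ℝ) : ‖a‖ ≤ ‖(Sum.elim a b : Col S ⊕ Col S → ℝ)‖ :=
  (pi_norm_le_iff_of_nonneg (norm_nonneg _)).2 fun φ =>
    norm_le_pi_norm (Sum.elim a b : Col S ⊕ Col S → ℝ) (.inl φ)

theorem norm_elim_right (a b : Col S → ℝ) : ‖b‖ ≤ ‖(Sum.elim a b : Col S ⊕ Col S → ℝ)‖ :=
  (pi_norm_le_iff_of_nonneg (norm_nonneg _)).2 fun φ =>
    norm_le_pi_norm (Sum.elim a b : Col S ⊕ Col S → ℝ) (.inr φ)

theorem short_basis {o : Col S → ℝ} : ∃ C : ℝ, ∀ y, q y y = -1 →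
    ∀ s : (Col S → ℝ) →ₗ[ℝ] (Col S → ℝ), (∀ x, s (s x) = x) → (∀ x z, q (s x) (s z) = q x z) →
      s y = o → ∃ (b : Basis (Col S) ℝ (Col S → ℝ)) (v : Col S → Col S → OO),
        ∀ i, b i = e₁ (v i) ∧ ‖s (e₁ (v i))‖ ≤ C ∧ ‖e₂ (v i)‖ ≤ C := by
  obtain ⟨K, K0, hK⟩ := exists_qL_le (S := S) (Real.sqrt 2)
  obtain ⟨K', K0', hK'⟩ := exists_qL_le (S := S) (-Real.sqrt 2)
  set P : ℝ := K + 2 * (K * ‖o‖) ^ 2 + K' with hP
  have P0 : 0 < P := by positivity
  obtain ⟨C, hC⟩ := mink (Col S ⊕ Col S) |LinearMap.det (JJ (S := S))| (1 / (P + 1)) (by positivity)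
  refine ⟨C, fun y hy s s1 s2 s3 => ?_⟩
  have d1 : |LinearMap.det ((BB s).comp JJ)| = |LinearMap.det (JJ (S := S))| := by
    rw [LinearMap.det_comp, abs_mul, abs_det_invol (s := BB s) fun x => by
      ext (φ | φ)
      · exact congrFun (s1 fun φ => x (.inl φ)) φ
      · rfl, one_mul]
  have hC' := hC ((BB s).comp JJ) (fun h => det_JJ (S := S) (by
    rw [h, abs_zero] at d1; exact abs_eq_zero.1 d1.symm)) d1.le fun v hv => by
      have v0 : lat v ≠ 0 := fun h => hv (by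
        ext (φ | φ)
        · exact congrArg Zsqrtd.re (congrFun h φ)
        · exact congrArg Zsqrtd.im (congrFun h φ))
      have h1 := two_le_QQ hy v0
      rw [BJ]
      have n1 := norm_elim_left (s (e₁ (lat v))) (e₂ (lat v))
      have n2 := norm_elim_right (s (e₁ (lat v))) (e₂ (lat v))
      generalize ‖(Sum.elim (s (e₁ (lat v))) (e₂ (lat v)) : Col S ⊕ Col S → ℝ)‖ = n at n1 n2
      rw [QQ, ← q_e₁, ← q_e₂, ← s2, ← s2 _ y, s3] at h1
      generalize s (e₁ (lat v)) = a at h1 n1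
      generalize e₂ (lat v) = c at h1 n2
      have n0 : 0 ≤ n := (norm_nonneg _).trans n1
      have k1 : q a a ≤ K * n ^ 2 := ((le_abs_self _).trans (hK a a)).trans (by
        rw [mul_assoc, ← sq]; gcongr)
      have k2 : q₂ c c ≤ K' * n ^ 2 := ((le_abs_self _).trans (hK' c c)).trans (by
        rw [mul_assoc, ← sq]; gcongr)
      have k3 : q a o ^ 2 ≤ (K * n * ‖o‖) ^ 2 := by
        rw [← sq_abs]
        exact pow_le_pow_left₀ (abs_nonneg _) ((hK a o).trans (by gcongr)) 2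
      have k4 : 2 ≤ P * n ^ 2 := by rw [hP]; nlinarith
      rw [div_le_iff₀ (by positivity)]
      by_contra hc
      have k5 : n ≤ 1 := by nlinarith
      nlinarith
  let T : Set (Col S → ℝ) := {x | ∃ v, x = e₁ v ∧ ‖s (e₁ v)‖ ≤ C ∧ ‖e₂ v‖ ≤ C}
  have hT : Submodule.span ℝ T = ⊤ := by
    by_contra hne
    obtain ⟨f, f0, hf⟩ := Submodule.exists_le_ker_of_lt_top _ (lt_top_iff_ne_top.2 hne)
    obtain ⟨v, h1, h2⟩ := hC' (f ∘ₗ s ∘ₗ LinearMap.funLeft ℝ ℝ Sum.inl) fun h =>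
      f0 (LinearMap.ext fun z => by
        have : f (s (s z)) = 0 := LinearMap.congr_fun h (Sum.elim (s z) 0)
        rwa [s1] at this)
    rw [BJ] at h1 h2
    apply h1
    change f (s (s (e₁ (lat v)))) = 0
    rw [s1]
    exact hf (Submodule.subset_span ⟨lat v, rfl, (norm_elim_left _ _).trans h2,
      (norm_elim_right _ _).trans h2⟩)
  obtain ⟨B, B1, B2, B3⟩ := exists_linearIndependent ℝ T
  let b₀ : Basis B ℝ (Col S → ℝ) := Basis.mk B3 (by rw [Subtype.range_coe, B2, hT])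
  let e := b₀.indexEquiv (Pi.basisFun ℝ (Col S))
  have hb : ∀ i, b₀.reindex e i ∈ T := fun i => by
    rw [Basis.reindex_apply, Basis.mk_apply]
    exact B1 (e.symm i).2
  choose v hv using hb
  exact ⟨b₀.reindex e, v, hv⟩

theorem det_e (s : OO →+* ℝ) (v : Col S → Col S → OO) :
    s (Matrix.of v).det = (Matrix.of fun i φ => s (v i φ)).det := RingHom.map_det s _

theorem pair_int {N : ℕ} {b b' : Basis (Col S) ℝ (Col S → ℝ)} {v v' x : Col S → Col S → OO}
    (hb : ∀ i, b i = e₁ (v i)) (hb' : ∀ i, b' i = e₁ (v' i)) (h0 : (Matrix.of v).det ≠ 0) {k : OO}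
    (h : ∀ i, v' i = v i + (N * ((Matrix.of v).det * k)) • x i) (u : Col S → OO) :
    ∃ w, b.equiv b' (Equiv.refl _) (e₁ u) = e₁ (u + (N : OO) • w) := by
  let c := u ᵥ* (Matrix.of v).adjugate
  have h1 : ∑ i, c i • v i = (Matrix.of v).det • u := by
    have := Matrix.vecMul_eq_sum c (Matrix.of v)
    rw [Matrix.vecMul_vecMul, Matrix.adjugate_mul, Matrix.vecMul_smul, Matrix.vecMul_one] at this
    exact this.symm
  have es : ∀ z : Col S → Col S → OO, e₁ (∑ i, c i • z i) = ∑ i, s₁ (c i) • e₁ (z i) := fun z => by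
    funext φ
    simp [e₁, map_sum]
  have h2 : ∑ i, c i • v' i = (Matrix.of v).det • (u + (N : OO) • k • ∑ i, c i • x i) := by
    rw [smul_add, ← h1, smul_smul, smul_smul, Finset.smul_sum, ← Finset.sum_add_distrib]
    refine Finset.sum_congr rfl fun i _ => ?_
    rw [h i, smul_add, smul_smul, smul_smul]
    congr 2
    ring
  have h3 : s₁ (Matrix.of v).det ≠ 0 := fun e => h0 (s₁_inj (e.trans (map_zero _).symm))
  refine ⟨k • ∑ i, c i • x i, smul_right_injective _ h3 ?_⟩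
  change _ • _ = _ • _
  rw [← map_smul, ← e₁_smul, ← e₁_smul, ← h1, ← h2, es, es, map_sum]
  refine Finset.sum_congr rfl fun i _ => ?_
  rw [map_smul, ← hb, ← hb', Basis.equiv_apply]
  rfl

theorem bnd_basis {o : Col S → ℝ} (ho : o ∈ HH S) (b : Basis (Col S) ℝ (Col S → ℝ)) (C : ℝ) :
    ∃ K : ℝ, ∀ z, (∀ i, |q z (b i)| ≤ C) → ‖z‖ ≤ K := by
  let L : (Col S → ℝ) →ₗ[ℝ] (Col S → ℝ) := LinearMap.pi fun i => q.flip (b i)
  obtain ⟨K, -, hK⟩ := L.exists_antilipschitzWith (LinearMap.ker_eq_bot'.2 fun z hz => by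
    have h1 : q z = 0 := b.ext fun i => congrFun hz i
    exact perp_eq_zero (w := o) (by rw [ho.1]; norm_num) (by rw [h1]; rfl) (by rw [h1]; rfl))
  refine ⟨K * |C|, fun z hz => (ZeroHomClass.bound_of_antilipschitz L hK z).trans ?_⟩
  exact mul_le_mul_of_nonneg_left ((pi_norm_le_iff_of_nonneg (abs_nonneg C)).2 fun i =>
    (hz i).trans (le_abs_self C)) K.2

theorem fin_rep {α β : Type} {F : Set α} {D : α → β} (h : (D '' F).Finite) (f : α → ℝ) :
    ∃ C : ℝ, ∀ a ∈ F, ∃ a' ∈ F, D a = D a' ∧ f a' ≤ C := by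
  have hx : ∀ d : D '' F, ∃ a ∈ F, D a = d := fun d => d.2
  choose r r1 r2 using hx
  have := h.to_subtype
  obtain ⟨C, hC⟩ := (Set.finite_range fun d => f (r d)).bddAbove
  exact ⟨C, fun a ha => ⟨r ⟨D a, a, ha, rfl⟩, r1 _, (r2 ⟨D a, a, ha, rfl⟩).symm, hC ⟨_, rfl⟩⟩⟩

theorem cong_of {M : ℕ} {a b : OO} (h1 : (a.re : ZMod M) = b.re) (h2 : (a.im : ZMod M) = b.im) :
    ∃ x : OO, b = a + M * x := by
  obtain ⟨x, hx⟩ := (ZMod.intCast_eq_intCast_iff_dvd_sub _ _ _).1 h1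
  obtain ⟨y, hy⟩ := (ZMod.intCast_eq_intCast_iff_dvd_sub _ _ _).1 h2
  exact ⟨⟨x, y⟩, Zsqrtd.ext (by simp; linarith) (by simp; linarith)⟩

theorem dvd_fact {a : OO} (h0 : a ≠ 0) {B : ℕ} (h : |(a.norm : ℝ)| ≤ B) :
    ∃ k : OO, (B.factorial : OO) = a * k := by
  have h1 : a.norm.natAbs ≤ B := by
    rw [← Int.cast_abs, ← Int.natCast_natAbs] at h
    exact_mod_cast h
  obtain ⟨t, ht⟩ : a.norm ∣ (B.factorial : ℤ) := Int.natAbs_dvd.1
    (Int.natCast_dvd_natCast.2 (Nat.dvd_factorial (Int.natAbs_pos.2 (norm_ne h0)) h1))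
  refine ⟨star a * t, ?_⟩
  rw [← mul_assoc, ← Zsqrtd.norm_eq_mul_conj, ← Int.cast_mul, ← ht, Int.cast_natCast]

theorem Gm.coc_HH {N : ℕ} (hN : 0 < N) :
    ∃ C : ℝ, ∀ y ∈ HH S, ∃ g ∈ Gm S N, ‖g y‖ ≤ C := by
  obtain ⟨o, ho, -⟩ := exists_o S
  obtain ⟨C, hC⟩ := short_basis (o := -o)
  obtain ⟨K, K0, hK⟩ := exists_qL_le (S := S) (Real.sqrt 2)
  obtain ⟨K', K0', hK'⟩ := exists_qL_le (S := S) (-Real.sqrt 2)
  set m := Fintype.card (Col S)
  set B : ℕ := ⌈(m.factorial • C ^ m) * (m.factorial • C ^ m)⌉₊ with hB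
  set P : ℝ := (K + K') * C * C with hP
  let F : Set (Basis (Col S) ℝ (Col S → ℝ) × (Col S → Col S → OO)) :=
    {p | (∀ i, p.1 i = e₁ (p.2 i)) ∧ (Matrix.of p.2).det ≠ 0 ∧
      (∃ k : OO, (B.factorial : OO) = (Matrix.of p.2).det * k) ∧
      ∀ i j, |s₁ (qO (p.2 i) (p.2 j))| ≤ P ∧ |s₂ (qO (p.2 i) (p.2 j))| ≤ P}
  have : NeZero (N * B.factorial) := ⟨(Nat.mul_pos hN (Nat.factorial_pos _)).ne'⟩
  let D : Basis (Col S) ℝ (Col S → ℝ) × (Col S → Col S → OO) →
      (Col S → Col S → OO) × (Col S → Col S → ZMod (N * B.factorial) × ZMod (N * B.factorial)) :=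
    fun p => (fun i j => qO (p.2 i) (p.2 j), fun i j => ((p.2 i j).re, (p.2 i j).im))
  have hfin : (D '' F).Finite :=
    ((Set.Finite.pi' fun _ : Col S => Set.Finite.pi' fun _ : Col S => finO P).prod
      Set.finite_univ).subset (by
        rintro _ ⟨p, hp, rfl⟩
        exact ⟨hp.2.2.2, trivial⟩)
  choose f hf using fun b => bnd_basis ho b (K * ‖o‖ * C)
  obtain ⟨C', hC'⟩ := fin_rep hfin fun p => f p.1
  refine ⟨C', fun y hy => ?_⟩
  obtain ⟨s, s1, s2, s3⟩ := exists_refl hy ho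
  obtain ⟨b, v, hv⟩ := hC y hy.1 s s1 s2 s3
  have C0 : 0 ≤ C := (norm_nonneg _).trans (hv (.inl 0)).2.1
  have d1 : s₁ (Matrix.of v).det = (Pi.basisFun ℝ (Col S)).det b := by
    rw [det_e, Pi.basisFun_det_apply]
    congr 1
    ext i φ
    exact (congrFun (hv i).1 φ).symm
  have d0 : (Matrix.of v).det ≠ 0 := fun e =>
    ((Pi.basisFun ℝ (Col S)).isUnit_det b).ne_zero (by rw [← d1, e, map_zero])
  have d2 : |s₁ (Matrix.of v).det| ≤ m.factorial • C ^ m := by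
    have h1 := (Pi.basisFun ℝ (Col S)).det_comp s b
    have h2 := Matrix.det_le (A := Matrix.of (s ∘ b)) (abv := AbsoluteValue.abs) (x := C)
      fun i j => by
        have := (norm_le_pi_norm _ j).trans (hv i).2.1
        rwa [← (hv i).1] at this
    rw [← Pi.basisFun_det_apply, h1, ← d1, map_mul] at h2
    change |_| * |_| ≤ _ at h2
    rwa [abs_det_invol s1, one_mul] at h2
  have d3 : |s₂ (Matrix.of v).det| ≤ m.factorial • C ^ m := by
    rw [det_e]
    exact Matrix.det_le (abv := AbsoluteValue.abs) fun i j =>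
      (norm_le_pi_norm (e₂ (v i)) j).trans (hv i).2.2
  have hF : (b, v) ∈ F := by
    refine ⟨fun i => (hv i).1, d0, dvd_fact d0 ?_, fun i j => ⟨?_, ?_⟩⟩
    · rw [← s_mul, abs_mul]
      exact (mul_le_mul d2 d3 (abs_nonneg _) ((abs_nonneg _).trans d2)).trans (Nat.le_ceil _)
    · rw [← q_e₁, ← s2]
      refine (hK _ _).trans ?_
      have := (hv i).2.1
      have := (hv j).2.1
      rw [hP]; gcongr; linarith
    · rw [← q_e₂]
      refine (hK' _ _).trans ?_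
      have := (hv i).2.2
      have := (hv j).2.2
      rw [hP]; gcongr; linarith
  obtain ⟨⟨b', v'⟩, ⟨p1, p2, ⟨k', p3⟩, -⟩, e, hle⟩ := hC' _ hF
  obtain ⟨-, -, ⟨k, p4⟩, -⟩ := hF
  dsimp only at p1 p2 p3 p4 hle
  have e1 : ∀ i j, qO (v i) (v j) = qO (v' i) (v' j) := fun i j =>
    congrFun (congrFun (congrArg Prod.fst e) i) j
  have e2 : ∀ i j, (((v i j).re : ZMod (N * B.factorial)), ((v i j).im : ZMod (N * B.factorial))) =
      (((v' i j).re : ZMod _), ((v' i j).im : ZMod _)) := fun i j =>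
    congrFun (congrFun (congrArg Prod.snd e) i) j
  choose x hx using fun i j => cong_of (Prod.mk.inj (e2 i j)).1 (Prod.mk.inj (e2 i j)).2
  choose x' hx' using fun i j => cong_of (Prod.mk.inj (e2 i j)).1.symm (Prod.mk.inj (e2 i j)).2.symm
  have iso : ∀ a c, q (b.equiv b' (Equiv.refl _) a) (b.equiv b' (Equiv.refl _) c) = q a c := by
    have : (q.comp (b.equiv b' (Equiv.refl _)).toLinearMap (b.equiv b' (Equiv.refl _)).toLinearMap) =
        q := LinearMap.BilinForm.ext_basis b fun i j => by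
      simp only [LinearMap.BilinForm.comp_apply, LinearEquiv.coe_coe, Basis.equiv_apply,
        Equiv.refl_apply]
      rw [p1, p1, (hv i).1, (hv j).1, q_e₁, q_e₁, e1]
    exact fun a c => LinearMap.congr_fun₂ this a c
  refine ⟨b.equiv b' (Equiv.refl _), ⟨iso, pair_int (x := x) (k := k) (fun i => (hv i).1) p1 d0
    fun i => funext fun j => ?_, ?_⟩, (hf b' _ fun i => ?_).trans hle⟩
  · rw [hx i j, ← p4]; simp
  · rw [Basis.equiv_symm, Equiv.refl_symm]
    refine pair_int (x := x') (k := k') p1 (fun i => (hv i).1) p2 fun i => funext fun j => ?_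
    rw [hx' i j, ← p3]; simp
  · have h1 : b' i = b.equiv b' (Equiv.refl _) (b i) := by simp
    rw [h1, iso, ← s2, s3, (hv i).1]
    refine (hK _ _).trans ?_
    have := (hv i).2.1
    rw [norm_neg]; gcongr

/-- the congruence subgroup preserving the upper sheet is cocompact. -/
theorem Gm.coc {N : ℕ} (hN : 0 < N) :
    ∃ C : ℝ, ∀ y ∈ HH S, ∃ g ∈ Gm S N, g y ∈ HH S ∧ ‖g y‖ ≤ C := by
  obtain ⟨C, hC⟩ := Gm.coc_HH (S := S) hN
  by_cases h : ∃ g ∈ Gm S N, ∃ y ∈ HH S, -g y ∈ HH S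
  · obtain ⟨g₀, h0, y₀, h1, h2⟩ := h
    let A := LinearMap.toContinuousLinearMap g₀.toLinearMap
    refine ⟨max C (‖A‖ * C), fun y hy => ?_⟩
    obtain ⟨g, hg, h3⟩ := hC y hy
    rcases mem_HH_or (z := g y) (by rw [hg.1, hy.1]) with h4 | h4
    · exact ⟨g, hg, h4, h3.trans (le_max_left _ _)⟩
    · refine ⟨g₀ * g, mul_mem h0 hg, mem_HH_of h2 (by
        rw [(mul_mem h0 hg).1, hy.1]) ?_, le_trans ?_ (le_max_right _ _)⟩
      · have := q_le_neg_one h4 h1
        rw [map_neg, LinearMap.neg_apply] at this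
        rw [map_neg, LinearEquiv.mul_apply, h0.1]
        linarith
      · exact (A.le_opNorm (g y)).trans (mul_le_mul_of_nonneg_left h3 (norm_nonneg _))
  · refine ⟨C, fun y hy => ?_⟩
    obtain ⟨g, hg, h3⟩ := hC y hy
    exact ⟨g, hg, (mem_HH_or (by rw [hg.1, hy.1])).resolve_right fun h4 => h ⟨g, hg, y, hy, h4⟩, h3⟩

end Pool.Agent.Lib.MP_c2693b_gt.Ar
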