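import Mathlib

set_option linter.unusedSectionVars false

namespace Pool.Agent.Lib.MP_c2693b_gt.Ar

/-- the colours. -/
abbrev Col (S : Type) : Type := ZMod 3 ⊕ S

variable {S : Type} [Fintype S] [DecidableEq S]

/-- the sum of the three coordinates of the first kind. -/
def TT {R : Type} [CommRing R] (x : Col S → R) : R := ∑ i : ZMod 3, x (.inl i)

/-- the form with `2` on the diagonal, `-c` between distinct colours of the first kind, else `0`. -/
def qq {R : Type} [CommRing R] (c : R) (x y : Col S → R) : R :=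
  (2 + c) * ∑ i : ZMod 3, x (.inl i) * y (.inl i) - c * (TT x * TT y) +
    2 * ∑ s : S, x (.inr s) * y (.inr s)

/-- the form as a bilinear map. -/
def qL {R : Type} [CommRing R] (c : R) : LinearMap.BilinForm R (Col S → R) :=
  LinearMap.mk₂ R (qq c)
    (fun x x' y => by simp only [qq, TT, Pi.add_apply, add_mul, Finset.sum_add_distrib]; ring)
    (fun a x y => by
      simp only [qq, TT, Pi.smul_apply, smul_eq_mul, mul_assoc, ← Finset.mul_sum]; ring)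
    (fun x y y' => by simp only [qq, TT, Pi.add_apply, mul_add, Finset.sum_add_distrib]; ring)
    (fun a x y => by
      simp only [qq, TT, Pi.smul_apply, smul_eq_mul, mul_left_comm _ a, ← Finset.mul_sum]; ring)

/-- the Lorentz form. -/
noncomputable def q : LinearMap.BilinForm ℝ (Col S → ℝ) := qL (Real.sqrt 2)

/-- the basis vectors. -/
def nu (φ : Col S) : Col S → ℝ := Pi.single φ 1

variable (S) in
/-- the hyperbolic space. -/
def HH : Set (Col S → ℝ) := {y | q y y = -1 ∧ TT y < 0}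

variable (S) in
/-- the triangle. -/
def beta : Set (Col S → ℝ) :=
  {y | y ∈ HH S ∧ (∀ s, y (.inr s) = 0) ∧ ∀ i, 0 ≤ q y (nu (.inl i))}

variable (S) in
/-- coloured positive roots and a group acting freely, properly and cocompactly on the polyhedron
they bound. -/
structure Piece where
  R : Col S → Set (Col S → ℝ)
  G : Subgroup ((Col S → ℝ) ≃ₗ[ℝ] (Col S → ℝ))
  sq : ∀ φ, ∀ ρ ∈ R φ, q ρ ρ = 2
  nu_mem : ∀ φ, nu φ ∈ R φ
  col : ∀ φ ψ, ∀ ρ ∈ R φ, ρ ∈ R ψ → φ = ψ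
  locfin : ∀ C : ℝ, {ρ | (∃ φ, ρ ∈ R φ) ∧ ∃ y ∈ HH S, ‖y‖ ≤ C ∧ |q y ρ| ≤ C}.Finite
  gram : ∀ φ ψ, ∀ ρ ∈ R φ, ∀ ρ' ∈ R ψ, ∀ y ∈ HH S, q y ρ = 0 → q y ρ' = 0 →
    q ρ ρ' = q (nu φ) (nu ψ) ∨ q ρ ρ' = -q (nu φ) (nu ψ)
  uniq : ∀ φ, ∀ ρ ∈ R φ, ∀ ρ' ∈ R φ, ∀ y ∈ HH S, q y ρ = 0 → q y ρ' = 0 → ρ = ρ'
  not3 : ∀ y ∈ HH S, ∃ i : ZMod 3, ∀ ρ ∈ R (.inl i), q y ρ ≠ 0
  onb : ∀ y ∈ beta S, ∀ φ, ∀ ρ ∈ R φ, 0 ≤ q y ρ ∧ (q y ρ = 0 → ρ = nu φ)
  iso : ∀ g ∈ G, ∀ x y, q (g x) (g y) = q x y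
  mapH : ∀ g ∈ G, ∀ y ∈ HH S, g y ∈ HH S
  mapR : ∀ g ∈ G, ∀ φ, ∀ ρ ∈ R φ, g ρ ∈ R φ
  free : ∀ g ∈ G, ∀ y ∈ HH S, g y = y → g = 1
  proper : ∀ C : ℝ, {g | g ∈ G ∧ ∃ y ∈ HH S, ‖y‖ ≤ C ∧ ‖g y‖ ≤ C}.Finite
  cocompact : ∃ C : ℝ, ∀ y ∈ HH S, (∀ φ, ∀ ρ ∈ R φ, 0 ≤ q y ρ) → ∃ g ∈ G, ‖g y‖ ≤ C

theorem qL_apply {R : Type} [CommRing R] (c : R) (x y : Col S → R) : qL c x y = qq c x y := rfl

omit [DecidableEq S] in
theorem qq_comm {R : Type} [CommRing R] (c : R) (x y : Col S → R) : qq c x y = qq c y x := by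
  simp only [qq, mul_comm]

theorem q_comm (x y : Col S → ℝ) : q x y = q y x := qq_comm _ x y

omit [Fintype S] [DecidableEq S] in
theorem TT_add {R : Type} [CommRing R] (x y : Col S → R) : TT (x + y) = TT x + TT y := by
  simp [TT, Finset.sum_add_distrib]

omit [Fintype S] [DecidableEq S] in
theorem TT_smul {R : Type} [CommRing R] (a : R) (x : Col S → R) : TT (a • x) = a * TT x := by
  simp [TT, Finset.mul_sum]

omit [Fintype S] [DecidableEq S] in
theorem TT_neg {R : Type} [CommRing R] (x : Col S → R) : TT (-x) = -TT x := by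
  simp [TT]

theorem qq_inl {R : Type} [CommRing R] (c : R) (x : Col S → R) (i : ZMod 3) :
    qq c x (Pi.single (.inl i) 1) = (2 + c) * x (.inl i) - c * TT x := by
  simp [qq, TT, Pi.single_apply]

theorem qq_inr {R : Type} [CommRing R] (c : R) (x : Col S → R) (s : S) :
    qq c x (Pi.single (.inr s) 1) = 2 * x (.inr s) := by
  simp [qq, TT, Pi.single_apply]

theorem q_inl (x : Col S → ℝ) (i : ZMod 3) :
    q x (nu (.inl i)) = (2 + Real.sqrt 2) * x (.inl i) - Real.sqrt 2 * TT x := qq_inl _ x i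

theorem q_inr (x : Col S → ℝ) (s : S) : q x (nu (.inr s)) = 2 * x (.inr s) := qq_inr _ x s

theorem q_nu_self (φ : Col S) : q (nu φ) (nu φ) = 2 := by
  rcases φ with i | s
  · rw [q_inl]; simp [nu, TT, Pi.single_apply]
  · rw [q_inr]; simp [nu]

theorem q_nu_inl {i j : ZMod 3} (h : i ≠ j) :
    q (nu (.inl i : Col S)) (nu (.inl j)) = -Real.sqrt 2 := by
  rw [q_inl]; simp [nu, TT, Pi.single_apply, h.symm]

theorem q_nu_inr {φ : Col S} {s : S} (h : φ ≠ .inr s) : q (nu φ) (nu (.inr s)) = 0 := by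
  rw [q_inr]; simp [nu, h.symm]

theorem sq_le_qq {c : ℝ} (hc : -(3 / 2) ≤ c) (x : Col S → ℝ) :
    ‖x‖ ^ 2 ≤ 2 * (qq c x x + c * TT x ^ 2) := by
  have h1 : 0 ≤ ∑ i : ZMod 3, x (.inl i) * x (.inl i) := Finset.sum_nonneg fun _ _ => mul_self_nonneg _
  have h2 : 0 ≤ ∑ s : S, x (.inr s) * x (.inr s) := Finset.sum_nonneg fun _ _ => mul_self_nonneg _
  have h3 : ‖x‖ ≤ Real.sqrt (∑ i : ZMod 3, x (.inl i) * x (.inl i) + ∑ s : S, x (.inr s) * x (.inr s)) := by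
    refine (pi_norm_le_iff_of_nonneg (Real.sqrt_nonneg _)).2 fun φ => Real.abs_le_sqrt ?_
    rcases φ with i | s
    · have := Finset.single_le_sum (f := fun i : ZMod 3 => x (.inl i) * x (.inl i))
        (fun _ _ => mul_self_nonneg _) (Finset.mem_univ i)
      nlinarith
    · have := Finset.single_le_sum (f := fun s : S => x (.inr s) * x (.inr s))
        (fun _ _ => mul_self_nonneg _) (Finset.mem_univ s)
      nlinarith
  have h4 := (Real.le_sqrt (norm_nonneg x) (by positivity)).1 h3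
  unfold qq
  nlinarith [mul_nonneg (by linarith : 0 ≤ c + 3 / 2) h1]

theorem sq_le_q (x : Col S → ℝ) : ‖x‖ ^ 2 ≤ 2 * (q x x + Real.sqrt 2 * TT x ^ 2) :=
  sq_le_qq (by have := Real.sqrt_nonneg 2; linarith) x

omit [DecidableEq S] in
theorem abs_TT_le (x : Col S → ℝ) : |TT x| ≤ 3 * ‖x‖ := by
  refine (Finset.abs_sum_le_sum_abs _ _).trans ?_
  refine (Finset.sum_le_sum fun i _ => (norm_le_pi_norm x (.inl i) : |x (.inl i)| ≤ ‖x‖)).trans ?_
  simp

/-- a bound for the form. -/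
theorem exists_qL_le (c : ℝ) : ∃ K : ℝ, 0 < K ∧ ∀ x y : Col S → ℝ, |qL c x y| ≤ K * ‖x‖ * ‖y‖ := by
  let f : (Col S → ℝ) →ₗ[ℝ] (Col S → ℝ) →L[ℝ] ℝ :=
    (LinearMap.toContinuousLinearMap (𝕜 := ℝ) (E := Col S → ℝ) (F' := ℝ)).toLinearMap ∘ₗ qL c
  let F := LinearMap.toContinuousLinearMap f
  refine ⟨‖F‖ + 1, by positivity, fun x y => ?_⟩
  have := F.le_opNorm₂ x y
  have h2 : 0 ≤ ‖x‖ * ‖y‖ := by positivity
  calc |qL c x y| = ‖F x y‖ := rfl
    _ ≤ _ := by nlinarith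

/-- the signature is `(D, 1)`. -/
theorem perp_le {w u : Col S → ℝ} (h : q u w = 0) :
    ‖TT w • u - TT u • w‖ ^ 2 ≤ 2 * (TT w ^ 2 * q u u + TT u ^ 2 * q w w) := by
  have h1 := sq_le_q (TT w • u - TT u • w)
  have h2 : TT (TT w • u - TT u • w) = 0 := by
    rw [sub_eq_add_neg, TT_add, TT_neg, TT_smul, TT_smul]; ring
  rw [h2] at h1
  simp only [map_sub, map_smul, LinearMap.sub_apply, LinearMap.smul_apply, smul_eq_mul, h,
    q_comm w u] at h1
  nlinarith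

theorem TT_ne {w : Col S → ℝ} (hw : q w w < 0) : TT w ≠ 0 := fun h => by
  have := sq_le_q w
  rw [h] at this
  nlinarith [sq_nonneg ‖w‖]

theorem perp_TT {w u : Col S → ℝ} (h : q u w = 0) : TT u ^ 2 * -q w w ≤ TT w ^ 2 * q u u := by
  nlinarith [perp_le h, sq_nonneg ‖TT w • u - TT u • w‖]

theorem perp_nonneg {w u : Col S → ℝ} (hw : q w w < 0) (h : q u w = 0) : 0 ≤ q u u := by
  have h1 := perp_TT h
  have h2 : 0 < TT w ^ 2 := by have := TT_ne hw; positivity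
  by_contra hc
  nlinarith [mul_nonneg (sq_nonneg (TT u)) (neg_nonneg.2 hw.le), mul_pos h2 (neg_pos.2 (not_le.1 hc))]

theorem perp_eq_zero {w u : Col S → ℝ} (hw : q w w < 0) (h : q u w = 0) (h0 : q u u ≤ 0) :
    u = 0 := by
  have h1 := perp_TT h
  have h2 : 0 < TT w ^ 2 := by have := TT_ne hw; positivity
  have h3 : TT u ^ 2 ≤ 0 := by
    by_contra hc
    nlinarith [mul_pos (not_le.1 hc) (neg_pos.2 hw), mul_nonneg h2.le (neg_nonneg.2 h0)]
  have h4 : TT u = 0 := by simpa using le_antisymm h3 (sq_nonneg _)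
  have h5 := sq_le_q u
  rw [h4] at h5
  have h6 : ‖u‖ ^ 2 = 0 := le_antisymm (by linarith) (sq_nonneg _)
  simpa using h6

/-- reverse Cauchy-Schwarz inequality. -/
theorem q_le_neg_one {y z : Col S → ℝ} (hy : y ∈ HH S) (hz : z ∈ HH S) : q y z ≤ -1 := by
  have h1 : q (z + q y z • y) y = 0 := by
    simp only [map_add, map_smul, LinearMap.add_apply, LinearMap.smul_apply, smul_eq_mul, hy.1,
      q_comm z y]; ring
  have h2 : q (z + q y z • y) (z + q y z • y) = q y z ^ 2 - 1 := by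
    simp only [map_add, map_smul, LinearMap.add_apply, LinearMap.smul_apply, smul_eq_mul, hy.1,
      hz.1, q_comm z y]; ring
  have h3 := perp_nonneg (by rw [hy.1]; norm_num) h1
  have h4 := perp_TT h1
  rw [h2, hy.1, TT_add, TT_smul] at h4
  rw [h2] at h3
  by_contra hc
  have h5 : 1 ≤ q y z := by nlinarith
  have h6 := mul_pos (neg_pos.2 hy.2) (neg_pos.2 hz.2)
  nlinarith [sq_nonneg (TT z), sq_nonneg (TT y), mul_pos h6 (by linarith : 0 < q y z)]

/-- the majorant attached to a timelike vector controls the norm. -/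
theorem norm_sq_le {w v : Col S → ℝ} {m : ℝ} (hm : 0 < m) (hw : q w w = -m) :
    ‖v‖ ^ 2 ≤ 2 * q v v + 60 * (‖w‖ ^ 2 / m) * (q v v + 2 * q v w ^ 2 / m) := by
  have h1 : q (v + (q v w / m) • w) w = 0 := by
    simp only [map_add, map_smul, LinearMap.add_apply, LinearMap.smul_apply, smul_eq_mul, hw]
    field_simp; ring
  have h2 : q (v + (q v w / m) • w) (v + (q v w / m) • w) = q v v + q v w ^ 2 / m := by
    simp only [map_add, map_smul, LinearMap.add_apply, LinearMap.smul_apply, smul_eq_mul, hw,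
      q_comm w v]
    field_simp; ring
  have h3 := perp_nonneg (by rw [hw]; linarith) h1
  have h4 := perp_TT h1
  rw [h2, hw, TT_add, TT_smul, neg_neg] at h4
  rw [h2] at h3
  have h5 := sq_le_q v
  have h6 : TT w ^ 2 ≤ 9 * ‖w‖ ^ 2 := by
    have := abs_TT_le w
    nlinarith [sq_abs (TT w), abs_nonneg (TT w)]
  have h7 : TT v ^ 2 ≤ 2 * (TT w ^ 2 / m) * (q v v + 2 * q v w ^ 2 / m) := by
    have e1 : (TT v + q v w / m * TT w) ^ 2 ≤ TT w ^ 2 / m * (q v v + q v w ^ 2 / m) := by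
      rw [div_mul_eq_mul_div (TT w ^ 2), le_div_iff₀ hm]; exact h4
    have e2 : (q v w / m * TT w) ^ 2 = TT w ^ 2 / m * (q v w ^ 2 / m) := by field_simp
    have e3 : 2 * (TT w ^ 2 / m) * (q v v + 2 * q v w ^ 2 / m) =
        2 * (TT w ^ 2 / m * (q v v + q v w ^ 2 / m)) + 2 * (TT w ^ 2 / m * (q v w ^ 2 / m)) := by
      ring
    nlinarith [sq_nonneg (TT v + 2 * (q v w / m * TT w))]
  have h8 : 0 ≤ q v v + 2 * q v w ^ 2 / m := by
    have : 0 ≤ q v w ^ 2 / m := by positivity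
    rw [mul_div_assoc]; linarith
  have h9 : TT w ^ 2 / m ≤ 9 * (‖w‖ ^ 2 / m) := by
    rw [← mul_div_assoc]; exact div_le_div_of_nonneg_right h6 hm.le
  have h10 : Real.sqrt 2 ≤ 3 / 2 := Real.sqrt_le_iff.2 ⟨by norm_num, by norm_num⟩
  have h11 := mul_le_mul_of_nonneg_right h9 h8
  have h12 : 0 ≤ ‖w‖ ^ 2 / m * (q v v + 2 * q v w ^ 2 / m) := by positivity
  nlinarith [mul_le_mul_of_nonneg_right h10 (sq_nonneg (TT v))]

end Pool.Agent.Lib.MP_c2693b_gt.Ar
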