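import Pool.Agent.Lib.MP_c2693b_gt.ArDefs

set_option linter.unusedSectionVars false

namespace Pool.Agent.Lib.MP_c2693b_gt.Ar

/-- the ring of integers. -/
abbrev OO : Type := Zsqrtd 2

/-- the first real embedding. -/
noncomputable def s₁ : OO →+* ℝ :=
  Zsqrtd.lift ⟨Real.sqrt 2, by rw [Real.mul_self_sqrt (by norm_num)]; norm_num⟩

/-- the second real embedding. -/
noncomputable def s₂ : OO →+* ℝ :=
  Zsqrtd.lift ⟨-Real.sqrt 2, by rw [neg_mul_neg, Real.mul_self_sqrt (by norm_num)]; norm_num⟩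

theorem s₁_apply (a : OO) : s₁ a = a.re + a.im * Real.sqrt 2 := rfl

theorem s₂_apply (a : OO) : s₂ a = a.re - a.im * Real.sqrt 2 := by
  change (a.re : ℝ) + a.im * -Real.sqrt 2 = _
  ring

theorem s₁_sqrtd : s₁ Zsqrtd.sqrtd = Real.sqrt 2 := by simp [s₁_apply]

theorem s₂_sqrtd : s₂ Zsqrtd.sqrtd = -Real.sqrt 2 := by simp [s₂_apply]

theorem s_mul (a : OO) : s₁ a * s₂ a = (a.norm : ℝ) := by
  have h : Real.sqrt 2 * Real.sqrt 2 = 2 := Real.mul_self_sqrt (by norm_num)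
  rw [s₁_apply, s₂_apply, Zsqrtd.norm_def]
  push_cast
  linear_combination (-(a.im : ℝ) ^ 2) * h

theorem norm_ne {a : OO} (h : a ≠ 0) : a.norm ≠ 0 := fun e =>
  h ((Zsqrtd.norm_eq_zero (fun n hn => by
    have h1 : n.natAbs * n.natAbs = 2 := by rw [← Int.natAbs_mul, ← hn]; rfl
    have h2 : n.natAbs < 2 := by nlinarith
    generalize n.natAbs = k at h1 h2
    interval_cases k <;> omega) a).1 e)

theorem one_le_s {a : OO} (h : a ≠ 0) : 1 ≤ |s₁ a| * |s₂ a| := by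
  rw [← abs_mul, s_mul]
  exact_mod_cast Int.one_le_abs (norm_ne h)

theorem s₁_inj : Function.Injective s₁ := (injective_iff_map_eq_zero s₁).2 fun a ha => by
  by_contra h
  have := one_le_s h
  rw [ha] at this
  norm_num at this

theorem s₂_inj : Function.Injective s₂ := (injective_iff_map_eq_zero s₂).2 fun a ha => by
  by_contra h
  have := one_le_s h
  rw [ha] at this
  norm_num at this

theorem finO (C : ℝ) : {a : OO | |s₁ a| ≤ C ∧ |s₂ a| ≤ C}.Finite := by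
  have h1 : (1 : ℝ) ≤ Real.sqrt 2 := Real.one_le_sqrt.2 (by norm_num)
  refine Set.Finite.of_finite_image (f := fun a : OO => (a.re, a.im))
    (((Set.finite_Icc (-⌈C⌉) ⌈C⌉).prod (Set.finite_Icc (-⌈C⌉) ⌈C⌉)).subset ?_)
    fun a _ b _ e => Zsqrtd.ext (Prod.mk.inj e).1 (Prod.mk.inj e).2
  rintro _ ⟨a, ⟨h2, h3⟩, rfl⟩
  rw [s₁_apply, abs_le] at h2
  rw [s₂_apply, abs_le] at h3
  have h4 := Int.le_ceil C
  have h5 : |(a.im : ℝ)| ≤ C := by
    have : |(a.im : ℝ) * Real.sqrt 2| ≤ C := abs_le.2 ⟨by linarith, by linarith⟩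
    rw [abs_mul, abs_of_pos (by linarith : 0 < Real.sqrt 2)] at this
    nlinarith [abs_nonneg (a.im : ℝ)]
  rw [abs_le] at h5
  refine ⟨⟨?_, ?_⟩, ?_, ?_⟩ <;> rw [← Int.cast_le (R := ℝ)] <;> push_cast <;> linarith

theorem eq_of_cong {N : ℕ} (hN : 5 ≤ N) {a b c : OO} (e : a = b + N * c) (a1 : |s₁ a| ≤ 2)
    (a2 : |s₂ a| ≤ 2) (b1 : |s₁ b| ≤ 2) (b2 : |s₂ b| ≤ 2) : a = b := by
  by_cases hc : c = 0
  · simpa [hc] using e
  exfalso
  have h := one_le_s hc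
  have hN' : (5 : ℝ) ≤ N := by exact_mod_cast hN
  have k : ∀ s : OO →+* ℝ, |s a| ≤ 2 → |s b| ≤ 2 → |s c| ≤ 4 / 5 := fun s h1 h2 => by
    have : N * |s c| ≤ 4 := by
      have e1 : N * s c = s a - s b := by rw [e]; simp
      rw [← Nat.abs_cast (R := ℝ) N, ← abs_mul, e1]
      exact (abs_sub _ _).trans (by linarith)
    nlinarith [abs_nonneg (s c)]
  nlinarith [k s₁ a1 b1, k s₂ a2 b2, abs_nonneg (s₁ c), abs_nonneg (s₂ c)]

variable {S : Type} [Fintype S] [DecidableEq S]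

/-- the first embedding of the lattice. -/
noncomputable def e₁ (v : Col S → OO) : Col S → ℝ := fun φ => s₁ (v φ)

/-- the second embedding of the lattice. -/
noncomputable def e₂ (v : Col S → OO) : Col S → ℝ := fun φ => s₂ (v φ)

/-- the integral form. -/
def qO : LinearMap.BilinForm OO (Col S → OO) := qL Zsqrtd.sqrtd

/-- the conjugate form. -/
noncomputable def q₂ : LinearMap.BilinForm ℝ (Col S → ℝ) := qL (-Real.sqrt 2)

theorem map_qq (s : OO →+* ℝ) (c : OO) (v w : Col S → OO) :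
    s (qq c v w) = qq (s c) (fun φ => s (v φ)) fun φ => s (w φ) := by
  simp [qq, TT, map_sum, map_ofNat]

theorem q_e₁ (v w : Col S → OO) : q (e₁ v) (e₁ w) = s₁ (qO v w) := by
  rw [qO, qL_apply, map_qq, s₁_sqrtd]; rfl

theorem q_e₂ (v w : Col S → OO) : q₂ (e₂ v) (e₂ w) = s₂ (qO v w) := by
  rw [qO, qL_apply, map_qq, s₂_sqrtd]; rfl

theorem qO_comm (v w : Col S → OO) : qO v w = qO w v := qq_comm _ v w

theorem q₂_comm (v w : Col S → ℝ) : q₂ v w = q₂ w v := qq_comm _ v w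

theorem sq_le_q₂ (x : Col S → ℝ) : ‖x‖ ^ 2 ≤ 2 * q₂ x x := by
  have h10 : Real.sqrt 2 ≤ 3 / 2 := Real.sqrt_le_iff.2 ⟨by norm_num, by norm_num⟩
  have := sq_le_qq (c := -Real.sqrt 2) (by linarith) x
  have h2 := mul_nonneg (Real.sqrt_nonneg 2) (sq_nonneg (TT x))
  change _ ≤ 2 * qq _ x x
  linarith

theorem q₂_nonneg (x : Col S → ℝ) : 0 ≤ q₂ x x := by nlinarith [sq_le_q₂ x, sq_nonneg ‖x‖]

theorem e₁_add (v w : Col S → OO) : e₁ (v + w) = e₁ v + e₁ w := funext fun _ => map_add _ _ _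

theorem e₁_sub (v w : Col S → OO) : e₁ (v - w) = e₁ v - e₁ w := funext fun _ => map_sub _ _ _

theorem e₁_neg (v : Col S → OO) : e₁ (-v) = -e₁ v := funext fun _ => map_neg _ _

theorem e₁_smul (a : OO) (v : Col S → OO) : e₁ (a • v) = s₁ a • e₁ v :=
  funext fun _ => map_mul _ _ _

theorem e₁_inj : Function.Injective (e₁ (S := S)) := fun _ _ h =>
  funext fun φ => s₁_inj (congrFun h φ)

theorem e₁_single (φ : Col S) : e₁ (Pi.single φ 1) = nu φ := by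
  funext ψ
  simp [e₁, nu, Pi.single_apply, apply_ite s₁]

theorem aniso {v : Col S → OO} (h : qO v v = 0) : v = 0 := by
  have h1 := sq_le_q₂ (e₂ v)
  rw [q_e₂, h, map_zero, mul_zero] at h1
  have h2 : e₂ v = 0 := by simpa using le_antisymm h1 (sq_nonneg _)
  exact funext fun φ => s₂_inj ((congrFun h2 φ).trans (map_zero _).symm)

theorem finL (C : ℝ) : {v : Col S → OO | ‖e₁ v‖ ≤ C ∧ ‖e₂ v‖ ≤ C}.Finite :=
  (Set.Finite.pi' fun _ : Col S => finO C).subset fun v hv φ =>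
    ⟨(norm_le_pi_norm (e₁ v) φ).trans hv.1, (norm_le_pi_norm (e₂ v) φ).trans hv.2⟩

theorem fin_root (C : ℝ) :
    {v : Col S → OO | qO v v = 2 ∧ ∃ y, q y y = -1 ∧ ‖y‖ ≤ C ∧ |q y (e₁ v)| ≤ C}.Finite := by
  refine (finL (4 + 60 * C ^ 2 * (2 + 2 * C ^ 2) + 2)).subset ?_
  rintro v ⟨h1, y, h2, h3, h4⟩
  have h5 := norm_sq_le (v := e₁ v) one_pos h2
  have h6 := sq_le_q₂ (e₂ v)
  rw [q_e₁, h1, map_ofNat, q_comm, div_one, div_one] at h5
  rw [q_e₂, h1, map_ofNat] at h6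
  have h7 : ‖y‖ ^ 2 ≤ C ^ 2 := pow_le_pow_left₀ (norm_nonneg _) h3 2
  have h8 : q y (e₁ v) ^ 2 ≤ C ^ 2 := by
    rw [← sq_abs]; exact pow_le_pow_left₀ (abs_nonneg _) h4 2
  have h9 : ‖y‖ ^ 2 * (2 + 2 * q y (e₁ v) ^ 2) ≤ C ^ 2 * (2 + 2 * C ^ 2) :=
    mul_le_mul h7 (by linarith) (by positivity) (by positivity)
  have h10 : 0 ≤ C ^ 2 * (2 + 2 * C ^ 2) := by positivity
  constructor
  · nlinarith [sq_nonneg (‖e₁ v‖ - 1)]
  · nlinarith [sq_nonneg (‖e₂ v‖ - 1)]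

theorem maj_nonneg {y : Col S → ℝ} (hy : q y y = -1) (x : Col S → ℝ) : 0 ≤ q x x + q x y ^ 2 := by
  have h1 : q (x + q x y • y) y = 0 := by
    simp only [map_add, map_smul, LinearMap.add_apply, LinearMap.smul_apply, smul_eq_mul, hy]
    ring
  have h2 := perp_nonneg (by rw [hy]; norm_num) h1
  simp only [map_add, map_smul, LinearMap.add_apply, LinearMap.smul_apply, smul_eq_mul, hy,
    q_comm y x] at h2
  linarith

/-- the positive form attached to `y`. -/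
noncomputable def QQ (y : Col S → ℝ) (v : Col S → OO) : ℝ :=
  s₁ (qO v v) + 2 * q (e₁ v) y ^ 2 + s₂ (qO v v)

theorem two_le_QQ {y : Col S → ℝ} (hy : q y y = -1) {v : Col S → OO} (hv : v ≠ 0) :
    2 ≤ QQ y v := by
  have h1 := one_le_s fun e => hv (aniso e)
  have h2 := maj_nonneg hy (e₁ v)
  have h3 := q₂_nonneg (e₂ v)
  rw [q_e₁] at h2
  rw [q_e₂] at h3
  rw [abs_of_nonneg h3] at h1
  have h4 : |s₁ (qO v v)| ≤ s₁ (qO v v) + 2 * q (e₁ v) y ^ 2 :=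
    abs_le.2 ⟨by linarith, by nlinarith [sq_nonneg (q (e₁ v) y)]⟩
  have h5 : 2 ≤ |s₁ (qO v v)| + s₂ (qO v v) := by
    by_contra hc
    nlinarith [sq_nonneg (|s₁ (qO v v)| - s₂ (qO v v)), abs_nonneg (s₁ (qO v v))]
  unfold QQ
  linarith

theorem QQ_nonneg {y : Col S → ℝ} (hy : q y y = -1) (v : Col S → OO) : 0 ≤ QQ y v := by
  by_cases hv : v = 0
  · have : e₁ (0 : Col S → OO) = 0 := funext fun _ => map_zero _
    simp [QQ, hv, this]
  · linarith [two_le_QQ hy hv]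

theorem QQ_par (y : Col S → ℝ) (v w : Col S → OO) :
    QQ y (v + w) + QQ y (v - w) = 2 * QQ y v + 2 * QQ y w := by
  simp only [QQ, e₁_add, e₁_sub, map_add, map_sub, LinearMap.add_apply, LinearMap.sub_apply]
  ring

theorem QQ_smul (y : Col S → ℝ) (N : ℕ) (v : Col S → OO) :
    QQ y ((N : OO) • v) = N ^ 2 * QQ y v := by
  simp only [QQ, e₁_smul, map_smul, LinearMap.smul_apply, smul_eq_mul, map_mul, map_natCast]
  ring

variable (S) in
/-- the principal congruence subgroup. -/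
def Gm (N : ℕ) : Subgroup ((Col S → ℝ) ≃ₗ[ℝ] (Col S → ℝ)) where
  carrier := {g | (∀ x y, q (g x) (g y) = q x y) ∧
    (∀ v, ∃ w, g (e₁ v) = e₁ (v + (N : OO) • w)) ∧ ∀ v, ∃ w, g.symm (e₁ v) = e₁ (v + (N : OO) • w)}
  one_mem' := ⟨fun _ _ => rfl, fun v => ⟨0, by simp⟩, fun v => ⟨0, by
    rw [smul_zero, add_zero]; rfl⟩⟩
  mul_mem' := by
    rintro g h ⟨g1, g2, g3⟩ ⟨h1, h2, h3⟩
    refine ⟨fun x y => (g1 _ _).trans (h1 x y), fun v => ?_, fun v => ?_⟩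
    · obtain ⟨w, hw⟩ := h2 v
      obtain ⟨w', hw'⟩ := g2 (v + (N : OO) • w)
      exact ⟨w + w', by rw [smul_add, ← add_assoc, ← hw', ← hw]; rfl⟩
    · obtain ⟨w, hw⟩ := g3 v
      obtain ⟨w', hw'⟩ := h3 (v + (N : OO) • w)
      exact ⟨w + w', by rw [smul_add, ← add_assoc, ← hw', ← hw]; rfl⟩
  inv_mem' := by
    rintro g ⟨g1, g2, g3⟩
    exact ⟨fun x y => by
      rw [← g1]
      exact congrArg₂ (fun a b => q a b) (g.apply_symm_apply x) (g.apply_symm_apply y), g3, g2⟩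

theorem Gm.qO_eq {N : ℕ} {g : (Col S → ℝ) ≃ₗ[ℝ] (Col S → ℝ)} (hg : g ∈ Gm S N)
    {v w v' w' : Col S → OO} (h1 : g (e₁ v) = e₁ v') (h2 : g (e₁ w) = e₁ w') :
    qO v' w' = qO v w := s₁_inj (by rw [← q_e₁, ← q_e₁, ← h1, ← h2, hg.1])

theorem ext_nu {g h : (Col S → ℝ) ≃ₗ[ℝ] (Col S → ℝ)} (e : ∀ φ, g (nu φ) = h (nu φ)) : g = h :=
  (Pi.basisFun ℝ (Col S)).ext' fun φ => by simpa [nu] using e φ

theorem Gm.free {N : ℕ} (hN : 5 ≤ N) {g : (Col S → ℝ) ≃ₗ[ℝ] (Col S → ℝ)} (hg : g ∈ Gm S N)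
    {y : Col S → ℝ} (hy : q y y = -1) (e : g y = y) : g = 1 := by
  have hN' : (5 : ℝ) ≤ N := by exact_mod_cast hN
  have key : ∀ n : ℕ, ∀ v, QQ y v < 2 * 2 ^ n → g (e₁ v) = e₁ v := by
    intro n
    induction n with
    | zero =>
      intro v hv
      have : v = 0 := by
        by_contra h
        linarith [two_le_QQ hy h]
      obtain ⟨w, hw⟩ := hg.2.1 v
      have h0 : e₁ (0 : Col S → OO) = 0 := funext fun _ => map_zero _
      rw [this, h0, map_zero]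
    | succ n ih =>
      intro v hv
      obtain ⟨w, hw⟩ := hg.2.1 v
      have h1 : QQ y (v + (N : OO) • w) = QQ y v := by
        unfold QQ
        rw [Gm.qO_eq hg hw hw, ← hw]
        nth_rewrite 1 [← e]
        rw [hg.1]
      have h2 := QQ_par y (v + (N : OO) • w) v
      rw [add_sub_cancel_left, QQ_smul, h1] at h2
      have h3 := QQ_nonneg hy (v + (N : OO) • w + v)
      have h4 := QQ_nonneg hy w
      have h5 : (0 : ℝ) < 2 ^ n := by positivity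
      have h6 := ih w (by
        rw [pow_succ] at hv
        nlinarith [mul_le_mul_of_nonneg_right (by nlinarith : (25 : ℝ) ≤ N ^ 2) h4])
      have h7 := Gm.qO_eq hg hw h6
      rw [map_add, LinearMap.add_apply, add_eq_left, map_smul, LinearMap.smul_apply,
        smul_eq_mul] at h7
      have h8 : s₁ (qO w w) = 0 := by
        have := congrArg s₁ h7
        rw [map_mul, map_natCast, map_zero] at this
        exact (mul_eq_zero.1 this).resolve_left (by linarith)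
      rw [hw, aniso (s₁_inj (h8.trans (map_zero _).symm)), smul_zero, add_zero]
  refine ext_nu fun φ => ?_
  obtain ⟨n, hn⟩ := pow_unbounded_of_one_lt (QQ y (Pi.single φ 1)) (one_lt_two (α := ℝ))
  have := key n (Pi.single φ 1) (by linarith [pow_pos (two_pos (α := ℝ)) n])
  rwa [e₁_single] at this

theorem norm_nu (φ : Col S) : ‖nu φ‖ = 1 := by simp [nu, Pi.norm_single]

theorem Gm.proper (N : ℕ) (C : ℝ) :
    {g | g ∈ Gm S N ∧ ∃ y, q y y = -1 ∧ ‖y‖ ≤ C ∧ ‖g y‖ ≤ C}.Finite := by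
  obtain ⟨K, K0, hK⟩ := exists_qL_le (S := S) (Real.sqrt 2)
  refine Set.Finite.of_finite_image (f := fun g φ => g (nu φ))
    ((Set.Finite.pi' fun _ : Col S => (fin_root (S := S) (C + K * C)).image e₁).subset ?_)
    fun g _ h _ e => ext_nu (congrFun e)
  rintro _ ⟨g, ⟨hg, y, h1, h2, h3⟩, rfl⟩ φ
  obtain ⟨w, hw⟩ := hg.2.1 (Pi.single φ 1)
  have C0 : 0 ≤ C := (norm_nonneg _).trans h2
  have h4 := hK y (nu φ)
  rw [norm_nu, mul_one] at h4
  refine ⟨_, ⟨?_, g y, by rw [hg.1, h1], by nlinarith, ?_⟩, by rw [← hw, e₁_single]⟩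
  · rw [Gm.qO_eq hg hw hw]
    exact s₁_inj (by rw [← q_e₁, e₁_single, q_nu_self, map_ofNat])
  · rw [← hw, hg.1, e₁_single]
    exact h4.trans (by nlinarith)

theorem mem_HH_or {z : Col S → ℝ} (h : q z z = -1) : z ∈ HH S ∨ -z ∈ HH S := by
  rcases lt_or_gt_of_ne (TT_ne (w := z) (by rw [h]; norm_num)) with h1 | h1
  · exact Or.inl ⟨h, h1⟩
  · exact Or.inr ⟨by simpa using h, by rw [TT_neg]; linarith⟩

theorem mem_HH_of {y z : Col S → ℝ} (hy : y ∈ HH S) (h : q z z = -1) (h' : q z y < 0) :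
    z ∈ HH S := (mem_HH_or h).resolve_right fun h1 => by
  have := q_le_neg_one h1 hy
  rw [map_neg, LinearMap.neg_apply] at this
  linarith

theorem map_HH {g : (Col S → ℝ) ≃ₗ[ℝ] (Col S → ℝ)} (hg : ∀ x y, q (g x) (g y) = q x y)
    {y₀ : Col S → ℝ} (h0 : y₀ ∈ HH S) (h1 : g y₀ ∈ HH S) {y : Col S → ℝ} (hy : y ∈ HH S) :
    g y ∈ HH S :=
  mem_HH_of h1 (by rw [hg, hy.1]) (by rw [hg]; linarith [q_le_neg_one hy h0])

end Pool.Agent.Lib.MP_c2693b_gt.Ar
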