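import Pool.Agent.Lib.MP_c2693b_gt.ArCoc

set_option linter.unusedSectionVars false

namespace Pool.Agent.Lib.MP_c2693b_gt.Ar

variable {S : Type} [Fintype S] [DecidableEq S]

/-- the roots congruent to a basis vector. -/
def R0 (N : ℕ) (φ : Col S) : Set (Col S → ℝ) :=
  {ρ | ∃ v w : Col S → OO, ρ = e₁ v ∧ qO v v = 2 ∧ v = Pi.single φ 1 + (N : OO) • w}

/-- the positive roots of a colour. -/
def Rs (N : ℕ) (o : Col S → ℝ) (φ : Col S) : Set (Col S → ℝ) :=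
  {r | (r ∈ R0 N φ ∧ 0 ≤ q o r) ∨ (-r ∈ R0 N φ ∧ 0 < q o r)}

variable {N : ℕ} {o : Col S → ℝ} {φ ψ : Col S}

theorem qO_single (φ : Col S) : qO (Pi.single φ 1) (Pi.single φ 1) = 2 :=
  s₁_inj (by rw [← q_e₁, e₁_single, q_nu_self, map_ofNat])

theorem R0.sq {ρ : Col S → ℝ} (h : ρ ∈ R0 N φ) : q ρ ρ = 2 := by
  obtain ⟨v, w, rfl, h1, -⟩ := h
  rw [q_e₁, h1, map_ofNat]

theorem R0.nu_mem (φ : Col S) : nu φ ∈ R0 N φ :=
  ⟨Pi.single φ 1, 0, (e₁_single φ).symm, qO_single φ, by simp⟩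

theorem abs_s₂_le {v w : Col S → OO} (hv : qO v v = 2) (hw : qO w w = 2) : |s₂ (qO v w)| ≤ 2 := by
  have h1 := q₂_nonneg (e₂ (v + w))
  have h2 := q₂_nonneg (e₂ (v - w))
  rw [q_e₂] at h1 h2
  simp only [map_add, map_sub, LinearMap.add_apply, LinearMap.sub_apply, hv, hw, qO_comm w v,
    map_ofNat] at h1 h2
  exact abs_le.2 ⟨by linarith, by linarith⟩

theorem abs_q_le {y a b : Col S → ℝ} (hy : y ∈ HH S) (ha : q a a = 2) (hb : q b b = 2)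
    (h1 : q y a = 0) (h2 : q y b = 0) : |q a b| ≤ 2 := by
  have h3 := perp_nonneg (w := y) (u := a + b) (by rw [hy.1]; norm_num)
    (by rw [q_comm, map_add, h1, h2, add_zero])
  have h4 := perp_nonneg (w := y) (u := a - b) (by rw [hy.1]; norm_num)
    (by rw [q_comm, map_sub, h1, h2, sub_zero])
  simp only [map_add, map_sub, LinearMap.add_apply, LinearMap.sub_apply, ha, hb, q_comm b a] at h3 h4
  exact abs_le.2 ⟨by linarith, by linarith⟩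

theorem abs_q_nu (φ ψ : Col S) : |q (nu φ) (nu ψ)| ≤ 2 := by
  have h10 : Real.sqrt 2 ≤ 2 := Real.sqrt_le_iff.2 ⟨by norm_num, by norm_num⟩
  by_cases h : φ = ψ
  · rw [h, q_nu_self]; norm_num
  rcases ψ with j | s
  · rcases φ with i | s
    · rw [q_nu_inl fun e => h (by rw [e]), abs_neg, abs_of_nonneg (Real.sqrt_nonneg 2)]
      exact h10
    · rw [q_comm, q_nu_inr (by simp)]; norm_num
  · rw [q_nu_inr h]; norm_num

theorem R0.gram (hN : 5 ≤ N) {ρ ρ' y : Col S → ℝ} (h : ρ ∈ R0 N φ) (h' : ρ' ∈ R0 N ψ)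
    (hy : y ∈ HH S) (h1 : q y ρ = 0) (h2 : q y ρ' = 0) : q ρ ρ' = q (nu φ) (nu ψ) := by
  have h3 := abs_q_le hy (R0.sq h) (R0.sq h') h1 h2
  have h4 := abs_q_nu φ ψ
  obtain ⟨v, w, rfl, v1, v2⟩ := h
  obtain ⟨v', w', rfl, w1, w2⟩ := h'
  rw [← e₁_single, ← e₁_single] at h4 ⊢
  rw [q_e₁] at h3 h4
  rw [q_e₁, q_e₁]
  congr 1
  refine eq_of_cong hN (c := qO w v' + qO (Pi.single φ 1) w') ?_ h3 (abs_s₂_le v1 w1) h4
    (abs_s₂_le (qO_single φ) (qO_single ψ))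
  have e1 : qO v v' = qO (Pi.single φ 1) v' + N * qO w v' := by
    conv_lhs => rw [v2]
    simp only [map_add, map_smul, LinearMap.add_apply, LinearMap.smul_apply, smul_eq_mul]
  have e2 : qO (Pi.single φ 1) v' =
      qO (Pi.single φ 1) (Pi.single ψ 1) + N * qO (Pi.single φ 1) w' := by
    conv_lhs => rw [w2]
    simp only [map_add, map_smul, smul_eq_mul]
  rw [e1, e2]; ring

theorem R0.uniq (hN : 5 ≤ N) {ρ ρ' y : Col S → ℝ} (h : ρ ∈ R0 N φ) (h' : ρ' ∈ R0 N φ)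
    (hy : y ∈ HH S) (h1 : q y ρ = 0) (h2 : q y ρ' = 0) : ρ = ρ' := by
  have h3 := R0.gram hN h h' hy h1 h2
  rw [q_nu_self] at h3
  refine sub_eq_zero.1 (perp_eq_zero (w := y) (by rw [hy.1]; norm_num)
    (by rw [q_comm, map_sub, h1, h2, sub_zero]) ?_)
  simp only [map_sub, LinearMap.sub_apply, (R0.sq h), (R0.sq h'), q_comm ρ' ρ, h3]
  norm_num

theorem R0.col (hN : 5 ≤ N) {ρ : Col S → ℝ} (h : ρ ∈ R0 N φ) (h' : ρ ∈ R0 N ψ) : φ = ψ := by
  obtain ⟨v, w, rfl, -, v2⟩ := h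
  obtain ⟨v', w', e, -, w2⟩ := h'
  obtain rfl := e₁_inj e
  by_contra hc
  have e1 := congrFun (v2.symm.trans w2) φ
  simp only [Pi.add_apply, Pi.single_eq_same, Pi.single_eq_of_ne hc, Pi.smul_apply,
    smul_eq_mul] at e1
  exact one_ne_zero (eq_of_cong hN (a := 1) (b := 0) (c := w' φ - w φ) (by linear_combination e1)
    (by simp) (by simp) (by simp) (by simp))

theorem R0.neg (hN : 5 ≤ N) {ρ : Col S → ℝ} (h : ρ ∈ R0 N φ) (h' : -ρ ∈ R0 N ψ) : False := by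
  obtain ⟨v, w, rfl, -, v2⟩ := h
  obtain ⟨v', w', e, -, w2⟩ := h'
  rw [← e₁_neg] at e
  obtain rfl := e₁_inj e
  have e1 := congrFun w2 φ
  rw [Pi.neg_apply, v2] at e1
  by_cases hc : φ = ψ
  · subst hc
    simp only [Pi.add_apply, Pi.single_eq_same, Pi.smul_apply, smul_eq_mul] at e1
    have := eq_of_cong hN (a := 1) (b := -1) (c := -w' φ - w φ) (by linear_combination -e1)
      (by simp) (by simp) (by simp) (by simp)
    exact absurd this (by decide)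
  · simp only [Pi.add_apply, Pi.single_eq_same, Pi.single_eq_of_ne hc, Pi.smul_apply,
      smul_eq_mul] at e1
    exact one_ne_zero (eq_of_cong hN (a := 1) (b := 0) (c := -w' φ - w φ)
      (by linear_combination -e1) (by simp) (by simp) (by simp) (by simp))

theorem R0.map {g : (Col S → ℝ) ≃ₗ[ℝ] (Col S → ℝ)} (hg : g ∈ Gm S N) {ρ : Col S → ℝ}
    (h : ρ ∈ R0 N φ) : g ρ ∈ R0 N φ := by
  obtain ⟨v, w, rfl, v1, v2⟩ := h
  obtain ⟨x, hx⟩ := hg.2.1 v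
  exact ⟨_, w + x, hx, (Gm.qO_eq hg hx hx).trans v1, by rw [smul_add, ← add_assoc, ← v2]⟩

theorem Rs.nonneg {r : Col S → ℝ} (h : r ∈ Rs N o φ) : 0 ≤ q o r := h.elim And.right fun h => h.2.le

theorem Rs.pm {r : Col S → ℝ} (h : r ∈ Rs N o φ) : r ∈ R0 N φ ∨ -r ∈ R0 N φ :=
  h.imp And.left And.left

theorem Rs.dich (o : Col S → ℝ) {r : Col S → ℝ} (h : r ∈ R0 N φ ∨ -r ∈ R0 N φ) :
    r ∈ Rs N o φ ∨ -r ∈ Rs N o φ := by
  rcases h with h | h
  · rcases le_or_gt 0 (q o r) with h1 | h1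
    · exact Or.inl (Or.inl ⟨h, h1⟩)
    · exact Or.inr (Or.inr ⟨by rwa [neg_neg], by rw [map_neg]; linarith⟩)
  · rcases le_or_gt (q o r) 0 with h1 | h1
    · exact Or.inr (Or.inl ⟨h, by rw [map_neg]; linarith⟩)
    · exact Or.inl (Or.inr ⟨h, h1⟩)

theorem Rs.excl (hN : 5 ≤ N) {r : Col S → ℝ} (h : r ∈ Rs N o φ) (h' : -r ∈ Rs N o φ) : False := by
  have h1 := (Rs.nonneg h)
  have h2 := (Rs.nonneg h')
  rw [map_neg] at h2
  rcases h with h | h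
  · rcases h' with h' | h'
    · exact R0.neg hN h.1 h'.1
    · have := h'.2
      rw [map_neg] at this
      linarith
  · linarith [h.2]

theorem pm_map {g : (Col S → ℝ) ≃ₗ[ℝ] (Col S → ℝ)} (hg : g ∈ Gm S N) {r : Col S → ℝ}
    (h : r ∈ R0 N φ ∨ -r ∈ R0 N φ) : g r ∈ R0 N φ ∨ -g r ∈ R0 N φ :=
  h.imp (R0.map hg) fun h => by rw [← map_neg]; exact R0.map hg h

theorem Rs.unsign {r : Col S → ℝ} (h : r ∈ Rs N o φ) : ∃ ρ ∈ R0 N φ, r = ρ ∨ r = -ρ :=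
  (Rs.pm h).elim (fun h => ⟨r, h, Or.inl rfl⟩) fun h => ⟨-r, h, Or.inr (neg_neg r).symm⟩

theorem Rs.locfin (C : ℝ) :
    {ρ | (∃ φ, ρ ∈ Rs N o φ) ∧ ∃ y ∈ HH S, ‖y‖ ≤ C ∧ |q y ρ| ≤ C}.Finite := by
  refine ((fin_root (S := S) C).image e₁).subset ?_
  rintro r ⟨⟨φ, h⟩, y, hy, h1, h2⟩
  obtain ⟨_, ⟨v, w, rfl, v1, -⟩, rfl | rfl⟩ := (Rs.unsign h)
  · exact ⟨v, ⟨v1, y, hy.1, h1, h2⟩, rfl⟩
  · exact ⟨-v, ⟨by simpa using v1, y, hy.1, h1, by rwa [e₁_neg]⟩, e₁_neg v⟩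

/-- a wall separating two points meets the segment between them. -/
theorem cross {y r : Col S → ℝ} (ho : o ∈ HH S) (hy : y ∈ HH S) (h1 : 0 ≤ q o r)
    (h2 : q y r ≤ 0) : ∃ a b : ℝ, 0 ≤ a ∧ a ≤ 1 ∧ 0 ≤ b ∧ b ≤ 1 ∧ a • o + b • y ∈ HH S ∧
      q (a • o + b • y) r = 0 := by
  rcases h2.eq_or_lt with h2 | h2
  · exact ⟨0, 1, le_rfl, zero_le_one, zero_le_one, le_rfl, by simpa using hy, by simpa using h2⟩
  have h3 := q_le_neg_one ho hy
  set α := -q y r with hα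
  set γ := q o r with hγ
  have a0 : 0 < α := by linarith
  have h4 : α ^ 2 + γ ^ 2 ≤ α ^ 2 + γ ^ 2 - 2 * α * γ * q o y := by
    nlinarith [mul_nonneg a0.le h1]
  set m := Real.sqrt (α ^ 2 + γ ^ 2 - 2 * α * γ * q o y) with hm
  have m1 : α ≤ m := Real.le_sqrt_of_sq_le (by nlinarith)
  have m2 : γ ≤ m := Real.le_sqrt_of_sq_le (by nlinarith)
  have m0 : 0 < m := a0.trans_le m1
  have m3 : m ^ 2 = α ^ 2 + γ ^ 2 - 2 * α * γ * q o y := Real.sq_sqrt (by nlinarith)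
  refine ⟨α / m, γ / m, by positivity, (div_le_one m0).2 m1, by positivity, (div_le_one m0).2 m2,
    ⟨?_, ?_⟩, ?_⟩
  · simp only [map_add, map_smul, LinearMap.add_apply, LinearMap.smul_apply, smul_eq_mul, ho.1,
      hy.1, q_comm y o]
    field_simp
    linear_combination m3
  · rw [TT_add, TT_smul, TT_smul]
    nlinarith [mul_pos (div_pos a0 m0) (neg_pos.2 ho.2),
      mul_nonneg (div_nonneg h1 m0.le) (neg_pos.2 hy.2).le]
  · simp only [map_add, map_smul, LinearMap.add_apply, LinearMap.smul_apply, smul_eq_mul]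
    rw [← hγ, ← neg_neg (q y r), ← hα]
    ring

theorem beta_norm {y : Col S → ℝ} (hy : y ∈ beta S) : ‖y‖ ≤ 5 := by
  have c2 : Real.sqrt 2 * Real.sqrt 2 = 2 := Real.mul_self_sqrt (by norm_num)
  have c1 : (141 / 100 : ℝ) ≤ Real.sqrt 2 := Real.le_sqrt_of_sq_le (by norm_num)
  have c3 : Real.sqrt 2 ≤ 142 / 100 := Real.sqrt_le_iff.2 ⟨by norm_num, by norm_num⟩
  have h0 := hy.2.2 0
  have h1 := hy.2.2 1
  have h2 := hy.2.2 2
  have h3 : qq (Real.sqrt 2) y y = -1 := hy.1.1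
  have h4 := sq_le_q y
  have hT : TT y = y (.inl 0) + y (.inl 1) + y (.inl 2) :=
    Fin.sum_univ_three fun i => y (.inl i)
  have hS : ∑ i : ZMod 3, y (.inl i) * y (.inl i) =
      y (.inl 0) * y (.inl 0) + y (.inl 1) * y (.inl 1) + y (.inl 2) * y (.inl 2) :=
    Fin.sum_univ_three fun i => y (.inl i) * y (.inl i)
  rw [q_inl] at h0 h1 h2
  simp only [qq, hy.2.1, mul_zero, Finset.sum_const_zero, add_zero, hS] at h3
  rw [hy.1.1] at h4
  set c := Real.sqrt 2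
  set T := TT y
  set a := y (.inl 0)
  set b := y (.inl 1)
  set d := y (.inl 2)
  have h5 : (6 * c - 8) * T ^ 2 ≤ 2 + c := by
    have e : (6 * c - 8) * T ^ 2 = 2 + c - 2 * (((2 + c) * a - c * T) * ((2 + c) * b - c * T) +
        ((2 + c) * a - c * T) * ((2 + c) * d - c * T) +
        ((2 + c) * b - c * T) * ((2 + c) * d - c * T)) := by
      rw [hT] at h3 ⊢
      linear_combination (-(2 + c)) * h3 + (2 * (a + b + d) ^ 2) * c2
    nlinarith [mul_nonneg h0 h1, mul_nonneg h0 h2, mul_nonneg h1 h2]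
  have h6 : T ^ 2 ≤ 8 := by nlinarith [sq_nonneg T]
  nlinarith [norm_nonneg y, sq_nonneg T]

theorem beta_nu {y : Col S → ℝ} (hy : y ∈ beta S) (φ : Col S) : 0 ≤ q y (nu φ) := by
  rcases φ with i | s
  · exact hy.2.2 i
  · rw [q_inr, hy.2.1, mul_zero]

variable (S) in
theorem exists_N : ∃ N : ℕ, 5 ≤ N ∧ ∀ y ∈ beta S, ∀ φ, ∀ ρ ∈ R0 N φ, q y ρ = 0 → ρ = nu φ := by
  obtain ⟨B, hB⟩ := (((fin_root (S := S) 5).prod (Set.finite_univ (α := Col S × Col S))).image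
    fun p : (Col S → OO) × Col S × Col S => |s₁ ((p.1 - Pi.single p.2.1 1 : Col S → OO) p.2.2)| *
      |s₂ ((p.1 - Pi.single p.2.1 1 : Col S → OO) p.2.2)|).bddAbove
  refine ⟨⌈B⌉₊ + 5, by omega, ?_⟩
  rintro y hy φ _ ⟨v, w, rfl, v1, v2⟩ h
  rw [← e₁_single]
  congr 1
  have hw : w = 0 := funext fun ψ => by
    by_contra hc
    have h1 := one_le_s hc
    have h2 := hB ⟨(v, φ, ψ), ⟨⟨v1, y, hy.1.1, beta_norm hy, by rw [h]; norm_num⟩, trivial⟩, rfl⟩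
    have h3 : (v - Pi.single φ 1 : Col S → OO) ψ = ((⌈B⌉₊ + 5 : ℕ) : OO) * w ψ := by
      conv_lhs => rw [v2]
      simp
    simp only [h3, map_mul, map_natCast, abs_mul, Nat.abs_cast] at h2
    have h4 := Nat.le_ceil B
    have h5 : (0 : ℝ) ≤ ⌈B⌉₊ := Nat.cast_nonneg _
    push_cast at h2
    nlinarith [mul_le_mul_of_nonneg_left h1 (mul_self_nonneg ((⌈B⌉₊ : ℝ) + 5))]
  rw [v2, hw, smul_zero, add_zero]

/-- the group of the piece. -/
def GG (N : ℕ) (ho : o ∈ HH S) : Subgroup ((Col S → ℝ) ≃ₗ[ℝ] (Col S → ℝ)) where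
  carrier := {g | g ∈ Gm S N ∧ g o ∈ HH S ∧ ∀ φ r, r ∈ Rs N o φ ↔ g r ∈ Rs N o φ}
  one_mem' := ⟨one_mem _, ho, fun _ _ => Iff.rfl⟩
  mul_mem' := fun {g h} hg hh => ⟨mul_mem hg.1 hh.1, map_HH hg.1.1 ho hg.2.1 hh.2.1,
    fun φ r => (hh.2.2 φ r).trans (hg.2.2 φ _)⟩
  inv_mem' := fun {g} hg => ⟨inv_mem hg.1,
    map_HH (inv_mem hg.1 : g⁻¹ ∈ Gm S N).1 hg.2.1 (by
      change g.symm (g o) ∈ _
      rwa [g.symm_apply_apply]) ho,
    fun φ r => by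
      rw [hg.2.2 φ (g⁻¹ r)]
      change _ ↔ g (g.symm r) ∈ _
      rw [g.apply_symm_apply]⟩

theorem GG.coc (hN : 5 ≤ N) (ho : o ∈ HH S) :
    ∃ C : ℝ, ∀ y ∈ HH S, (∀ φ, ∀ ρ ∈ Rs N o φ, 0 ≤ q y ρ) → ∃ g ∈ GG N ho, ‖g y‖ ≤ C := by
  obtain ⟨C, hC⟩ := Gm.coc (S := S) (N := N) (by omega)
  let F : Set ((Col S → ℝ) ≃ₗ[ℝ] (Col S → ℝ)) := {g | g ∈ Gm S N ∧ ∃ y ∈ HH S,
    (∀ φ, ∀ ρ ∈ Rs N o φ, 0 ≤ q y ρ) ∧ g y ∈ HH S ∧ ‖g y‖ ≤ C}
  let D : ((Col S → ℝ) ≃ₗ[ℝ] (Col S → ℝ)) → Set (Col S × (Col S → ℝ)) :=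
    fun g => {p | p.2 ∈ Rs N o p.1 ∧ g⁻¹ p.2 ∉ Rs N o p.1}
  have hfin : (D '' F).Finite := by
    refine ((Set.finite_univ (α := Col S)).prod
      (Rs.locfin (N := N) (o := o) (‖o‖ + C))).finite_subsets.subset ?_
    rintro _ ⟨g, ⟨hg, y, hy, h1, h2, h3⟩, rfl⟩ ⟨φ, r⟩ ⟨h4, h5⟩
    have h6 := h1 φ _ ((Rs.dich o (pm_map (inv_mem hg) (Rs.pm h4))).resolve_left h5)
    have h7 : q (g y) r ≤ 0 := by
      have e : q (g y) r = q y (g⁻¹ r) := by
        rw [← hg.1 y]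
        change _ = q _ (g (g.symm r))
        rw [g.apply_symm_apply]
      rw [map_neg] at h6
      linarith
    obtain ⟨a, b, a0, a1, b0, b1, h8, h9⟩ := cross ho h2 (Rs.nonneg h4) h7
    have C0 : 0 ≤ C := (norm_nonneg _).trans h3
    refine ⟨trivial, ⟨φ, h4⟩, _, h8, ?_, by rw [h9, abs_zero]; positivity⟩
    refine (norm_add_le _ _).trans ?_
    rw [norm_smul, norm_smul, Real.norm_of_nonneg a0, Real.norm_of_nonneg b0]
    nlinarith [norm_nonneg o, norm_nonneg (g y)]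
  have key : ∀ g ∈ F, ∀ g' ∈ F, D g = D g' → ∀ φ r, g⁻¹ r ∈ Rs N o φ → g'⁻¹ r ∈ Rs N o φ := by
    intro g hg g' hg' e φ r h
    have h1 : r ∈ R0 N φ ∨ -r ∈ R0 N φ := by
      have := pm_map hg.1 (Rs.pm h)
      change g (g.symm r) ∈ _ ∨ -g (g.symm r) ∈ _ at this
      rwa [g.apply_symm_apply] at this
    rcases Rs.dich o h1 with h2 | h2
    · by_contra hc
      have h3 : (φ, r) ∈ D g := e ▸ ⟨h2, hc⟩
      exact h3.2 h
    · have h3 : (φ, -r) ∈ D g' := e ▸ ⟨h2, fun h4 => Rs.excl hN h (by rwa [← map_neg])⟩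
      exact (Rs.dich o (pm_map (inv_mem hg'.1) h1)).resolve_right fun h4 =>
        h3.2 (by rwa [map_neg])
  obtain ⟨C', hC'⟩ := fin_rep hfin fun g => ‖LinearMap.toContinuousLinearMap (g⁻¹).toLinearMap‖
  refine ⟨C' * C, fun y hy h => ?_⟩
  obtain ⟨g, hg, h1, h2⟩ := hC y hy
  have hF : g ∈ F := ⟨hg, y, hy, h, h1, h2⟩
  obtain ⟨g', hF', e, hle⟩ := hC' g hF
  refine ⟨g'⁻¹ * g, ⟨mul_mem (inv_mem hF'.1) hg, ?_, fun φ r => ⟨fun h3 => ?_, fun h3 => ?_⟩⟩, ?_⟩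
  · obtain ⟨hg', y', hy', -, h3, -⟩ := hF'
    refine map_HH (inv_mem hg' : g'⁻¹ ∈ Gm S N).1 h3 ?_ (map_HH hg.1 hy h1 ho)
    change g'.symm (g' y') ∈ _
    rwa [g'.symm_apply_apply]
  · refine key g hF g' hF' e φ (g r) ?_
    change g.symm (g r) ∈ _
    rwa [g.symm_apply_apply]
  · have := key g' hF' g hF e.symm φ (g r) h3
    change g.symm (g r) ∈ _ at this
    rwa [g.symm_apply_apply] at this
  · exact ((LinearMap.toContinuousLinearMap (g'⁻¹).toLinearMap).le_opNorm (g y)).trans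
      (mul_le_mul hle h2 (norm_nonneg _) ((norm_nonneg _).trans hle))

/-- the arithmetic piece exists. -/
theorem exists_piece : Nonempty (Piece S) := by
  obtain ⟨o, ho, o1, o2⟩ := exists_o S
  obtain ⟨N, hN, hb⟩ := exists_N S
  have hob : o ∈ beta S := ⟨ho, o1, fun i => (o2 i).le⟩
  have onb : ∀ y ∈ beta S, ∀ φ, ∀ ρ ∈ Rs N o φ, q y ρ = 0 → ρ = nu φ := by
    rintro y hy φ r (h | h) h1
    · exact hb y hy φ r h.1 h1
    · have h2 := hb y hy φ _ h.1 (by rw [map_neg, h1, neg_zero])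
      have h3 := beta_nu hob φ
      rw [← h2, map_neg] at h3
      linarith [h.2]
  refine ⟨{
    R := Rs N o
    G := GG N ho
    sq := fun φ r h => ?_
    nu_mem := fun φ => Or.inl ⟨R0.nu_mem φ, beta_nu hob φ⟩
    col := fun φ ψ r h h' => ?_
    locfin := Rs.locfin
    gram := fun φ ψ r h r' h' y hy h1 h2 => ?_
    uniq := fun φ r h r' h' y hy h1 h2 => ?_
    not3 := fun y hy => ?_
    onb := fun y hy φ r h => ⟨?_, onb y hy φ r h⟩
    iso := fun g hg => hg.1.1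
    mapH := fun g hg y hy => map_HH hg.1.1 ho hg.2.1 hy
    mapR := fun g hg φ r h => (hg.2.2 φ r).1 h
    free := fun g hg y hy e => Gm.free hN hg.1 hy.1 e
    proper := fun C => (Gm.proper N C).subset fun g ⟨hg, y, hy, h⟩ => ⟨hg.1, y, hy.1, h⟩
    cocompact := GG.coc hN ho }⟩
  · obtain ⟨ρ, h1, rfl | rfl⟩ := (Rs.unsign h)
    · exact (R0.sq h1)
    · simpa using (R0.sq h1)
  · rcases (Rs.pm h) with h | h <;> rcases (Rs.pm h') with h' | h'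
    · exact R0.col hN h h'
    · exact (R0.neg hN h h').elim
    · exact (R0.neg hN h' h).elim
    · exact R0.col hN h h'
  · obtain ⟨ρ, a1, rfl | rfl⟩ := (Rs.unsign h) <;> obtain ⟨ρ', a2, rfl | rfl⟩ := (Rs.unsign h')
    · exact Or.inl (R0.gram hN a1 a2 hy h1 h2)
    · exact Or.inr (by rw [map_neg, R0.gram hN a1 a2 hy h1 (by simpa using h2)])
    · exact Or.inr (by rw [map_neg, LinearMap.neg_apply, R0.gram hN a1 a2 hy (by simpa using h1) h2])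
    · exact Or.inl (by simpa using R0.gram hN a1 a2 hy (by simpa using h1) (by simpa using h2))
  · obtain ⟨ρ, a1, rfl | rfl⟩ := (Rs.unsign h) <;> obtain ⟨ρ', a2, rfl | rfl⟩ := (Rs.unsign h')
    · exact R0.uniq hN a1 a2 hy h1 h2
    · obtain rfl := R0.uniq hN a1 a2 hy h1 (by simpa using h2)
      exact (Rs.excl hN h h').elim
    · obtain rfl := R0.uniq hN a1 a2 hy (by simpa using h1) h2
      exact (Rs.excl hN h' h).elim
    · rw [R0.uniq hN a1 a2 hy (by simpa using h1) (by simpa using h2)]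
  · by_contra hc
    push Not at hc
    have hc' : ∀ i : ZMod 3, ∃ ρ ∈ R0 N (.inl i : Col S), q y ρ = 0 := fun i => by
      obtain ⟨r, h, h1⟩ := hc i
      obtain ⟨ρ, a1, rfl | rfl⟩ := (Rs.unsign h)
      · exact ⟨_, a1, h1⟩
      · exact ⟨_, a1, by simpa using h1⟩
    obtain ⟨a, a1, a2⟩ := hc' 0
    obtain ⟨b, b1, b2⟩ := hc' 1
    obtain ⟨d, d1, d2⟩ := hc' 2
    have e1 := (R0.gram hN a1 b1 hy a2 b2).trans (q_nu_inl (by decide))
    have e2 := (R0.gram hN a1 d1 hy a2 d2).trans (q_nu_inl (by decide))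
    have e3 := (R0.gram hN b1 d1 hy b2 d2).trans (q_nu_inl (by decide))
    have h3 := perp_nonneg (w := y) (u := a + b + d) (by rw [hy.1]; norm_num)
      (by rw [q_comm, map_add, map_add, a2, b2, d2]; norm_num)
    simp only [map_add, LinearMap.add_apply, (R0.sq a1), (R0.sq b1), (R0.sq d1), q_comm b a, q_comm d a,
      q_comm d b, e1, e2, e3] at h3
    have h1 : (1 : ℝ) < Real.sqrt 2 := Real.lt_sqrt_of_sq_lt (by norm_num)
    linarith
  · by_contra hc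
    obtain ⟨a, b, a0, -, b0, -, h1, h2⟩ := cross ho hy.1 (Rs.nonneg h) (not_le.1 hc).le
    refine hc ?_
    rw [onb _ ⟨h1, fun s => by simp [o1 s, hy.2.1 s], fun i => ?_⟩ φ r h h2]
    · exact beta_nu hy φ
    · simp only [map_add, map_smul, LinearMap.add_apply, LinearMap.smul_apply, smul_eq_mul]
      exact add_nonneg (mul_nonneg a0 (o2 i).le) (mul_nonneg b0 (hy.2.2 i))

end Pool.Agent.Lib.MP_c2693b_gt.Ar
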