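import Mathlib

/-! Locally CAT(-1) metrics, the boundary at infinity, and sectional curvature. -/

set_option autoImplicit false

open scoped Manifold ContDiff Topology NNReal UpperHalfPlane

namespace Pool.Agent.Lib.MP_c2693b_gt

/-- Euclidean `n`-space. -/
abbrev Euc (n : ℕ) := EuclideanSpace ℝ (Fin n)

section Metric

variable {X : Type} [MetricSpace X]

/-- `γ` restricted to `[0,1]` is a constant speed geodesic segment from `x` to `y`. -/
def IsSeg (γ : ℝ → X) (x y : X) : Prop :=
  γ 0 = x ∧ γ 1 = y ∧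
    ∀ s ∈ Set.Icc (0 : ℝ) 1, ∀ t ∈ Set.Icc (0 : ℝ) 1, dist (γ s) (γ t) = |s - t| * dist x y

/-- Any two points of `U` are joined by a geodesic segment that lies in `U`. -/
def GeodesicIn (U : Set X) : Prop :=
  ∀ x ∈ U, ∀ y ∈ U, ∃ γ : ℝ → X, IsSeg γ x y ∧ ∀ t ∈ Set.Icc (0 : ℝ) 1, γ t ∈ U

/-- `U` is CAT(-1): it is geodesic, and for every geodesic triangle `x y z` in `U`, every
comparison triangle `x' y' z'` in the hyperbolic plane, all points on two sides of the triangle
are at most as far apart as their comparison points. -/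
def IsCATneg (U : Set X) : Prop :=
  GeodesicIn U ∧
    ∀ (x y z : X) (γ δ : ℝ → X), IsSeg γ x y → IsSeg δ x z →
      (∀ t ∈ Set.Icc (0 : ℝ) 1, γ t ∈ U ∧ δ t ∈ U) →
      ∀ (x' y' z' : ℍ) (γ' δ' : ℝ → ℍ), IsSeg γ' x' y' → IsSeg δ' x' z' →
        dist x' y' = dist x y → dist x' z' = dist x z → dist y' z' = dist y z →
        ∀ s ∈ Set.Icc (0 : ℝ) 1, ∀ t ∈ Set.Icc (0 : ℝ) 1, dist (γ s) (δ t) ≤ dist (γ' s) (δ' t)

variable (X)

/-- A geodesic metric in which every point has a CAT(-1) neighbourhood. -/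
def LocallyCATneg : Prop :=
  GeodesicIn (Set.univ : Set X) ∧ ∀ x : X, ∃ U ∈ 𝓝 x, IsCATneg U

/-- Geodesic rays. -/
def Ray : Type := {c : ℝ≥0 → X // Isometry c}

/-- Two rays are equivalent when they stay at bounded distance. -/
def raySetoid : Setoid (Ray X) where
  r c c' := ∃ K : ℝ, ∀ t, dist (c.1 t) (c'.1 t) ≤ K
  iseqv :=
    ⟨fun _ => ⟨0, fun _ => by simp⟩, fun ⟨K, h⟩ => ⟨K, fun t => by rw [dist_comm]; exact h t⟩,
      fun ⟨K, h⟩ ⟨L, h'⟩ => ⟨K + L, fun t =>
        (dist_triangle _ _ _).trans (add_le_add (h t) (h' t))⟩⟩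

variable {X}

/-- The boundary at infinity: classes of rays. The base point `x₀` fixes the topology below. -/
def Bdry (_x₀ : X) : Type := Quotient (raySetoid X)

/-- The cone topology, generated by the sets `U(c, r, ε)` of classes whose ray from `x₀` passes at
time `r` within `ε` of the point `c r` of the ray `c` from `x₀`. -/
instance (x₀ : X) : TopologicalSpace (Bdry x₀) :=
  TopologicalSpace.generateFrom
    {U | ∃ (c : Ray X) (r : ℝ≥0) (ε : ℝ), c.1 0 = x₀ ∧
      U = {ξ | ∃ c' : Ray X, c'.1 0 = x₀ ∧ Quotient.mk (raySetoid X) c' = ξ ∧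
        dist (c'.1 r) (c.1 r) < ε}}

/-- `p : Y → X` is the universal cover with the lifted metric: a covering map from a simply
connected geodesic space that preserves distances near every point. -/
def IsUnivCover {Y : Type} [MetricSpace Y] (p : Y → X) : Prop :=
  IsCoveringMap p ∧ Function.Surjective p ∧ SimplyConnectedSpace Y ∧
    GeodesicIn (Set.univ : Set Y) ∧
    ∀ y : Y, ∃ U ∈ 𝓝 y, ∀ a ∈ U, ∀ b ∈ U, dist (p a) (p b) = dist a b

variable (X)

/-- The boundary at infinity of the universal cover of `X` is the sphere of dimension `n - 1`. -/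
def SphereBdry (n : ℕ) : Prop :=
  ∃ (Y : Type) (_ : MetricSpace Y) (p : Y → X), IsUnivCover p ∧
    ∀ y₀ : Y, Nonempty (Bdry y₀ ≃ₜ Metric.sphere (0 : Euc n) 1)

end Metric

section Riemann

variable {m : ℕ}

/-- Partial derivative in the direction of the `l`-th coordinate. -/
noncomputable def pd (l : Fin m) (F : Euc m → ℝ) (z : Euc m) : ℝ :=
  fderiv ℝ F z (EuclideanSpace.single l 1)

/-- Christoffel symbols `Γⁱ_{jk}` of the metric with coefficients `G`. -/
noncomputable def chr (G : Euc m → Matrix (Fin m) (Fin m) ℝ) (i j k : Fin m) (z : Euc m) : ℝ :=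
  1 / 2 * ∑ l, (G z)⁻¹ i l *
    (pd j (fun w => G w l k) z + pd k (fun w => G w l j) z - pd l (fun w => G w j k) z)

/-- The curvature tensor, `R(∂_k, ∂_l) ∂_j = ∑ᵢ riem G i j k l ∂ᵢ`. -/
noncomputable def riem (G : Euc m → Matrix (Fin m) (Fin m) ℝ) (i j k l : Fin m) (z : Euc m) : ℝ :=
  pd k (chr G i l j) z - pd l (chr G i k j) z +
    ∑ s, (chr G i k s z * chr G s l j z - chr G i l s z * chr G s k j z)

/-- `g(R(u,v)v,u)`, the numerator of the sectional curvature of the plane spanned by `u`, `v`. -/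
noncomputable def secNum (G : Euc m → Matrix (Fin m) (Fin m) ℝ) (z u v : Euc m) : ℝ :=
  ∑ s, ∑ i, ∑ j, ∑ k, ∑ l, G z s i * u s * (riem G i j k l z * u k * v l * v j)

end Riemann

section Chart

variable (E N : Type) [NormedAddCommGroup E] [NormedSpace ℝ E] [TopologicalSpace N]
  [ChartedSpace E N] [IsManifold 𝓘(ℝ, E) ∞ N]

/-- Smooth Riemannian metrics on a manifold modelled on `E`. -/
abbrev RMet := Bundle.ContMDiffRiemannianMetric 𝓘(ℝ, E) ∞ E fun x : N => TangentSpace 𝓘(ℝ, E) x

variable {E N}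

/-- The scalar product `g_x(v, w)` of two tangent vectors at `x`. -/
noncomputable abbrev gip (g : RMet E N) (x : N) (v w : E) : ℝ := g.inner x v w

/-- The differential at `z` of a parametrisation `s : E → N`, applied to `u`. -/
noncomputable abbrev dif (s : E → N) (z u : E) : E := mfderiv 𝓘(ℝ, E) 𝓘(ℝ, E) s z u

end Chart

section Curv

variable {m : ℕ} {N : Type} [TopologicalSpace N] [ChartedSpace (Euc m) N] [IsManifold (𝓡 m) ∞ N]

/-- The coefficients of the Riemannian metric `g` in the chart at `a`. -/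
noncomputable def coef (g : RMet (Euc m) N) (a : N) (z : Euc m) : Matrix (Fin m) (Fin m) ℝ :=
  Matrix.of fun i j => gip g ((chartAt (Euc m) a).symm z)
    (dif (chartAt (Euc m) a).symm z (EuclideanSpace.single i 1))
    (dif (chartAt (Euc m) a).symm z (EuclideanSpace.single j 1))

/-- Non-positive sectional curvature, read in the charts of `N`. -/
def NonposCurv (g : RMet (Euc m) N) : Prop :=
  ∀ a : N, ∀ z ∈ (chartAt (Euc m) a).target, ∀ u v : Euc m, secNum (coef g a) z u v ≤ 0

end Curv

/-- `M` is homeomorphic to a closed smooth manifold with a smooth Riemannian metric of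
non-positive sectional curvature. -/
def HasNPCSmoothing (M : Type) [TopologicalSpace M] : Prop :=
  ∃ (m : ℕ) (N : Type) (_ : TopologicalSpace N) (_ : T2Space N) (_ : CompactSpace N)
    (_ : ChartedSpace (Euc m) N) (_ : IsManifold (𝓡 m) ∞ N) (g : RMet (Euc m) N),
    NonposCurv g ∧ Nonempty (M ≃ₜ N)

end Pool.Agent.Lib.MP_c2693b_gt
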