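import Mathlib

/-! Brown's theorem on inverse limits of near homeomorphisms, for compact subsets of one
metric space and a compatible family of projections. -/

namespace C2693.Br

open Set Metric Filter Topology

variable {Y : Type*} [MetricSpace Y]

/-- Stage data of the recursion. -/
def Stage (S : ℕ → Set Y) (k : ℕ) : Type _ :=
  {q : (S 0 ≃ₜ S k) × ℝ // 0 < q.2 ∧ q.2 ≤ 1 ∧
    ∀ x x', dist (q.1 x) (q.1 x') < 3 * q.2 → dist x x' < 1 / ((k : ℝ) + 1)}

theorem exists_mod (S : ℕ → Set Y) (hS : ∀ k, IsCompact (S k)) (k : ℕ) (G : S 0 ≃ₜ S k)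
    {m : ℝ} (hm : 0 < m) : ∃ m' : ℝ, 0 < m' ∧ m' ≤ m ∧
      ∀ x x', dist (G x) (G x') < 3 * m' → dist x x' < 1 / ((k : ℝ) + 1) := by
  have : CompactSpace (S k) := isCompact_iff_compactSpace.mp (hS k)
  have hu : UniformContinuous G.symm := CompactSpace.uniformContinuous_of_continuous G.symm.continuous
  obtain ⟨δ, hδ, h⟩ := Metric.uniformContinuous_iff.mp hu (1 / ((k : ℝ) + 1)) (by positivity)
  refine ⟨min m (δ / 3), lt_min hm (by positivity), min_le_left _ _, fun x x' hx => ?_⟩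
  have h1 : dist (G x) (G x') < δ := by
    have := min_le_right m (δ / 3)
    linarith
  simpa using h h1

theorem unif_finite (S : ℕ → Set Y) (hS : ∀ k, IsCompact (S k)) (π : ℕ → Y → Y)
    (hc : ∀ i j, i ≤ j → ContinuousOn (π i) (S j)) (k : ℕ) {η : ℝ} (hη : 0 < η) (n : ℕ)
    (hn : n ≤ k + 1) :
    ∃ ε > 0, ∀ i < n, ∀ a ∈ S k, ∀ b ∈ S k, dist a b < ε → dist (π i a) (π i b) < η := by
  induction n with
  | zero => exact ⟨1, one_pos, fun i hi => absurd hi (Nat.not_lt_zero i)⟩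
  | succ n ih =>
    obtain ⟨ε, hε, h⟩ := ih (by omega)
    have hu := (hS k).uniformContinuousOn_of_continuous (hc n k (by omega))
    obtain ⟨δ, hδ, h2⟩ := Metric.uniformContinuousOn_iff.mp hu η hη
    refine ⟨min ε δ, lt_min hε hδ, fun i hi a ha b hb hab => ?_⟩
    rcases Nat.lt_succ_iff_lt_or_eq.mp hi with h1 | rfl
    · exact h i h1 a ha b hb (lt_of_lt_of_le hab (min_le_left _ _))
    · exact h2 a ha b hb (lt_of_lt_of_le hab (min_le_right _ _))

theorem step (S : ℕ → Set Y) (hS : ∀ k, IsCompact (S k)) (π : ℕ → Y → Y)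
    (hc : ∀ i j, i ≤ j → ContinuousOn (π i) (S j))
    (hm : ∀ i j, i ≤ j → MapsTo (π i) (S j) (S i))
    (hcomp : ∀ i j k, i ≤ j → j ≤ k → ∀ y ∈ S k, π i (π j y) = π i y)
    (near : ∀ k, ∀ ε > 0, ∃ g : S (k + 1) ≃ₜ S k, ∀ x, dist (g x : Y) (π k x) < ε)
    (k : ℕ) (a : Stage S k) : ∃ b : Stage S (k + 1), b.1.2 ≤ a.1.2 ∧
      ∀ i ≤ k, ∀ x, dist (π i (a.1.1 x)) (π i (b.1.1 x)) ≤ a.1.2 / 2 / 2 ^ k := by
  obtain ⟨⟨G, m⟩, hm0, hm1, -⟩ := a
  obtain ⟨ε, hε, h⟩ := unif_finite S hS π hc k (η := m / 2 / 2 ^ k) (by positivity) (k + 1) le_rfl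
  obtain ⟨g, hg⟩ := near k ε hε
  obtain ⟨m', h0, h1, h2⟩ := exists_mod S hS (k + 1) (G.trans g.symm) hm0
  refine ⟨⟨(G.trans g.symm, m'), h0, h1.trans hm1, by simpa using h2⟩, h1, fun i hi x => ?_⟩
  have h3 := hg (g.symm (G x))
  rw [g.apply_symm_apply] at h3
  have h4 := h i (by omega) _ (G x).2 _ (hm k (k + 1) (by omega) (g.symm (G x)).2) h3
  rw [hcomp i k (k + 1) hi (by omega) _ (g.symm (G x)).2] at h4
  exact h4.le

theorem brown (S : ℕ → Set Y) (hS : ∀ k, IsCompact (S k)) (π : ℕ → Y → Y)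
    (hc : ∀ i j, i ≤ j → ContinuousOn (π i) (S j))
    (hm : ∀ i j, i ≤ j → MapsTo (π i) (S j) (S i))
    (hid : ∀ i, ∀ y ∈ S i, π i y = y)
    (hcomp : ∀ i j k, i ≤ j → j ≤ k → ∀ y ∈ S k, π i (π j y) = π i y)
    (near : ∀ k, ∀ ε > 0, ∃ g : S (k + 1) ≃ₜ S k, ∀ x, dist (g x : Y) (π k x) < ε) :
    Nonempty (S 0 ≃ₜ {y : ℕ → Y // ∀ k, y k ∈ S k ∧ π k (y (k + 1)) = y k}) := by
  classical
  have : CompactSpace (S 0) := isCompact_iff_compactSpace.mp (hS 0)
  obtain ⟨m0, h00, h01, h02⟩ := exists_mod S hS 0 (Homeomorph.refl _) one_pos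
  choose nx hnx1 hnx2 using step S hS π hc hm hcomp near
  let A : ∀ k, Stage S k := fun k => Nat.rec ⟨(Homeomorph.refl _, m0), h00, h01, h02⟩ nx k
  have hA : ∀ k, A (k + 1) = nx k (A k) := fun k => rfl
  let G : ∀ k, S 0 ≃ₜ S k := fun k => (A k).1.1
  let m : ℕ → ℝ := fun k => (A k).1.2
  have hmanti : Antitone m := antitone_nat_of_succ_le fun k => hnx1 k (A k)
  have hm0 : ∀ k, 0 < m k := fun k => (A k).2.1
  have hm1 : ∀ k, m k ≤ 1 := fun k => (A k).2.2.1
  let v : ℕ → S 0 → ℕ → Y := fun i x n => π i (G (i + n) x)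
  have hvS : ∀ i x n, v i x n ∈ S i := fun i x n => hm i (i + n) (by omega) (G (i + n) x).2
  have hv : ∀ i x n, dist (v i x n) (v i x (n + 1)) ≤ m i / 2 / 2 ^ n := by
    intro i x n
    refine (hnx2 (i + n) (A (i + n)) i (by omega) x).trans ?_
    have h1 : m (i + n) ≤ m i := hmanti (by omega)
    have h2 : (2 : ℝ) ^ n ≤ 2 ^ (i + n) := pow_le_pow_right₀ (by norm_num) (by omega)
    have h3 := hm0 (i + n)
    have h4 := hm0 i
    change m (i + n) / 2 / 2 ^ (i + n) ≤ _
    gcongr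
  have hlim : ∀ i x, ∃ w ∈ S i, Tendsto (v i x) atTop (𝓝 w) := fun i x =>
    cauchySeq_tendsto_of_isComplete (hS i).isComplete (hvS i x)
      (cauchySeq_of_le_geometric_two (hv i x))
  choose F hFS hF using hlim
  have hd : ∀ i x n, dist (v i x n) (F i x) ≤ m i / 2 ^ n := fun i x n =>
    dist_le_of_le_geometric_two_of_tendsto (hv i x) (hF i x) n
  have hpow : Tendsto (fun n : ℕ => (1 : ℝ) / 2 ^ n) atTop (𝓝 0) := by
    have := tendsto_pow_atTop_nhds_zero_of_lt_one (r := (1 / 2 : ℝ)) (by norm_num) (by norm_num)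
    simpa [one_div, inv_pow] using this
  have hd1 : ∀ i x n, dist (v i x n) (F i x) ≤ 1 / 2 ^ n := fun i x n =>
    (hd i x n).trans (by have := hm1 i; gcongr)
  have hFc : ∀ i, Continuous (F i) := by
    intro i
    have hu : TendstoUniformly (fun n x => v i x n) (F i) atTop := by
      rw [Metric.tendstoUniformly_iff]
      intro ε hε
      filter_upwards [hpow.eventually (gt_mem_nhds hε)] with n hn x
      rw [dist_comm]
      exact lt_of_le_of_lt (hd1 i x n) hn
    refine hu.continuous (Frequently.of_forall fun n => ?_)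
    exact (hc i (i + n) (by omega)).comp_continuous
      (continuous_subtype_val.comp (G (i + n)).continuous) fun x => (G (i + n) x).2
  have hthread : ∀ i x, π i (F (i + 1) x) = F i x := by
    intro i x
    have h1 : Tendsto (v (i + 1) x) atTop (𝓝[S (i + 1)] (F (i + 1) x)) :=
      tendsto_nhdsWithin_iff.mpr ⟨hF _ x, Eventually.of_forall (hvS _ x)⟩
    have h2 := (hc i (i + 1) (by omega) _ (hFS (i + 1) x)).tendsto.comp h1
    have h3 := (hF i x).comp (tendsto_add_atTop_nat 1)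
    refine tendsto_nhds_unique h2 (h3.congr fun n => ?_)
    have e : i + (n + 1) = i + 1 + n := by omega
    have key : ∀ j, j = i + 1 + n → π i (G j x) = π i (π (i + 1) (G (i + 1 + n) x)) := by
      rintro j rfl
      exact (hcomp i (i + 1) (i + 1 + n) (by omega) (by omega) _ (G _ x).2).symm
    exact key _ e
  let Φ : S 0 → {y : ℕ → Y // ∀ k, y k ∈ S k ∧ π k (y (k + 1)) = y k} :=
    fun x => ⟨fun i => F i x, fun k => ⟨hFS k x, hthread k x⟩⟩
  have hΦc : Continuous Φ := (continuous_pi hFc).subtype_mk _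
  have hinj : Function.Injective Φ := by
    intro x x' h
    have h1 : ∀ i, F i x = F i x' := fun i => congrFun (congrArg Subtype.val h) i
    have h2 : ∀ i : ℕ, dist x x' < 1 / ((i : ℝ) + 1) := by
      intro i
      refine (A i).2.2.2 x x' ?_
      have e1 : ∀ z, v i z 0 = G i z := fun z => hid i _ (G i z).2
      have a1 := hd i x 0
      have a2 := hd i x' 0
      rw [e1, pow_zero, div_one] at a1 a2
      rw [← h1 i] at a2
      have a3 := dist_triangle_right (G i x : Y) (G i x') (F i x)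
      have a4 := hm0 i
      change dist (G i x : Y) (G i x') < 3 * m i
      linarith
    have h3 : dist x x' ≤ 0 :=
      ge_of_tendsto' tendsto_one_div_add_atTop_nhds_zero_nat fun i => (h2 i).le
    exact dist_le_zero.mp h3
  have hsurj : Function.Surjective Φ := by
    intro y
    have hy : ∀ i n, π i (y.1 (i + n)) = y.1 i := by
      intro i n
      induction n with
      | zero => exact hid i _ (y.2 i).1
      | succ n ih =>
        rw [← ih, ← (y.2 (i + n)).2]
        exact (hcomp i (i + n) (i + n + 1) (by omega) (by omega) _ (y.2 _).1).symm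
    let x : ℕ → S 0 := fun j => (G j).symm ⟨y.1 j, (y.2 j).1⟩
    have hcl : IsClosed (range Φ) := (isCompact_range hΦc).isClosed
    suffices hT : Tendsto (fun j => Φ (x j)) atTop (𝓝 y) from
      hcl.mem_of_tendsto hT (Eventually.of_forall fun j => mem_range_self _)
    rw [tendsto_subtype_rng, tendsto_pi_nhds]
    intro i
    rw [← tendsto_add_atTop_iff_nat i, tendsto_iff_dist_tendsto_zero]
    refine squeeze_zero (fun _ => dist_nonneg) (fun n => ?_) hpow
    have h1 := hd1 i (x (i + n)) n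
    have h2 : v i (x (i + n)) n = y.1 i := by
      change π i (G (i + n) ((G (i + n)).symm _)) = _
      rw [Homeomorph.apply_symm_apply]
      exact hy i n
    rw [h2, dist_comm] at h1
    rw [Nat.add_comm n i]
    exact h1
  exact ⟨Continuous.homeoOfEquivCompactToT2 (f := Equiv.ofBijective Φ ⟨hinj, hsurj⟩) hΦc⟩

end C2693.Br
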