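import Mathlib
import Pool.Agent.Lib.MP_c2693b_gt.Brown

/-! Geodesic projections towards a base point, and the space of rays as an inverse limit of
spheres. -/

namespace C2693.Br

open Set Metric Filter Topology NNReal

variable {Y : Type*} [MetricSpace Y]

/-- Unique points between `x0` and any other point. -/
def UB (x0 : Y) : Prop :=
  ∀ y t, 0 ≤ t → t ≤ dist x0 y → ∃! w, dist x0 w = t ∧ dist w y = dist x0 y - t

open Classical in
/-- The point at distance `t` from `x0` between `x0` and `y`. -/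
noncomputable def pr (x0 : Y) (t : ℝ) (y : Y) : Y :=
  if h : ∃ w, dist x0 w = t ∧ dist w y = dist x0 y - t then h.choose else y

variable {x0 : Y}

theorem pr_spec (h : UB x0) {t : ℝ} {y : Y} (h0 : 0 ≤ t) (h1 : t ≤ dist x0 y) :
    dist x0 (pr x0 t y) = t ∧ dist (pr x0 t y) y = dist x0 y - t := by
  have e := (h y t h0 h1).exists
  unfold pr
  rw [dif_pos e]
  exact e.choose_spec

theorem eq_pr (h : UB x0) {t : ℝ} {y w : Y} (h1 : dist x0 w ≤ t) (h2 : dist w y ≤ dist x0 y - t) :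
    w = pr x0 t y := by
  have h3 := dist_triangle x0 w y
  have h0 : 0 ≤ t := dist_nonneg.trans h1
  have h4 : t ≤ dist x0 y := by have := dist_nonneg (x := w) (y := y); linarith
  exact (h y t h0 h4).unique ⟨by linarith, by linarith⟩ (pr_spec h h0 h4)

theorem pr_self (h : UB x0) {t : ℝ} {y : Y} (hy : dist x0 y = t) : pr x0 t y = y :=
  (eq_pr h hy.le (by simp [hy])).symm

theorem pr_pr (h : UB x0) {s t : ℝ} {y : Y} (h0 : 0 ≤ s) (h1 : s ≤ t) (h2 : t ≤ dist x0 y) :
    pr x0 s (pr x0 t y) = pr x0 s y := by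
  obtain ⟨a1, a2⟩ := pr_spec h (h0.trans h1) h2
  obtain ⟨b1, b2⟩ := pr_spec h (y := pr x0 t y) h0 (by rw [a1]; exact h1)
  refine eq_pr h b1.le ?_
  have := dist_triangle (pr x0 s (pr x0 t y)) (pr x0 t y) y
  linarith

theorem dist_pr (h : UB x0) {s t : ℝ} {y : Y} (h0 : 0 ≤ s) (h1 : s ≤ t) (h2 : t ≤ dist x0 y) :
    dist (pr x0 s y) (pr x0 t y) = t - s := by
  obtain ⟨a1, -⟩ := pr_spec h (h0.trans h1) h2
  obtain ⟨-, b2⟩ := pr_spec h (y := pr x0 t y) h0 (by rw [a1]; exact h1)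
  rw [pr_pr h h0 h1 h2, a1] at b2
  exact b2

theorem dist_pr_abs (h : UB x0) {s t : ℝ} {y : Y} (h0 : 0 ≤ s) (h1 : 0 ≤ t) (h2 : s ≤ dist x0 y)
    (h3 : t ≤ dist x0 y) : dist (pr x0 s y) (pr x0 t y) = |s - t| := by
  rcases le_total s t with hst | hst
  · rw [dist_pr h h0 hst h3, abs_of_nonpos (by linarith)]; ring
  · rw [dist_comm, dist_pr h h1 hst h2, abs_of_nonneg (by linarith)]

theorem continuousOn_pr [ProperSpace Y] (h : UB x0) {t : ℝ} (h0 : 0 ≤ t) :
    ContinuousOn (pr x0 t) {y | t ≤ dist x0 y} := by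
  intro y hy
  have hev : ∀ᶠ z in 𝓝[{y | t ≤ dist x0 y}] y, t ≤ dist x0 z := self_mem_nhdsWithin
  refine (isCompact_closedBall x0 t).tendsto_nhds_of_unique_mapClusterPt ?_ ?_
  · filter_upwards [hev] with z hz
    rw [mem_closedBall, dist_comm]
    exact (pr_spec h h0 hz).1.le
  · intro w hw hcl
    rw [mem_closedBall, dist_comm] at hw
    refine eq_pr h hw ?_
    by_contra hlt
    push Not at hlt
    have hopen : IsOpen {p : Y × Y | dist x0 p.2 - t < dist p.1 p.2} :=
      isOpen_lt (by fun_prop) (by fun_prop)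
    obtain ⟨U, hU, V, hV, hUV⟩ := mem_nhds_prod_iff.mp (hopen.mem_nhds (x := (w, y)) hlt)
    have h1 := (mapClusterPt_iff_frequently.mp hcl) U hU
    have h2 : ∀ᶠ z in 𝓝[{y | t ≤ dist x0 y}] y, z ∈ V := mem_nhdsWithin_of_mem_nhds hV
    obtain ⟨z, hz1, hz2, hz3⟩ := (h1.and_eventually (h2.and hev)).exists
    have h3 : dist x0 z - t < dist (pr x0 t z) z := hUV (mk_mem_prod hz1 hz2)
    rw [(pr_spec h h0 hz3).2] at h3
    exact lt_irrefl _ h3

/-- Almost projections are close to the projection. -/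
theorem pr_approx [ProperSpace Y] (h : UB x0) {r r' : ℝ} (h0 : 0 ≤ r) (h1 : r ≤ r') {ε : ℝ}
    (hε : 0 < ε) : ∃ δ > 0, ∀ y ∈ sphere x0 r', ∀ w ∈ sphere x0 r,
      dist y w ≤ r' - r + δ → dist w (pr x0 r y) < ε := by
  have hsub : ∀ y ∈ sphere x0 r', r ≤ dist x0 y := fun y hy => by
    rw [mem_sphere, dist_comm] at hy; rw [hy]; exact h1
  have hc : ContinuousOn (fun p : Y × Y => dist p.2 (pr x0 r p.1)) (sphere x0 r' ×ˢ sphere x0 r) :=
    continuous_dist.comp_continuousOn (continuousOn_snd.prodMk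
      ((continuousOn_pr h h0).comp continuousOn_fst fun p hp => hsub _ hp.1))
  have hK0 : IsCompact (sphere x0 r' ×ˢ sphere x0 r) :=
    (isCompact_sphere _ _).prod (isCompact_sphere _ _)
  have hK : IsCompact ((sphere x0 r' ×ˢ sphere x0 r) ∩
      (fun p : Y × Y => dist p.2 (pr x0 r p.1)) ⁻¹' Ici ε) :=
    hK0.of_isClosed_subset (hc.preimage_isClosed_of_isClosed hK0.isClosed isClosed_Ici)
      inter_subset_left
  obtain ⟨δ, hδ, hb⟩ := hK.exists_forall_le' (f := fun p : Y × Y => dist p.1 p.2 - (r' - r))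
    (by fun_prop) (a := 0) (by
      rintro ⟨y, w⟩ ⟨⟨hy, hw⟩, hp⟩
      by_contra hle
      push Not at hle
      have hy' : dist x0 y = r' := by rw [dist_comm]; exact hy
      have hw' : dist x0 w = r := by rw [dist_comm]; exact hw
      have e : w = pr x0 r y := eq_pr h hw'.le (by rw [hy', dist_comm]; linarith)
      have h5 : ε ≤ dist w (pr x0 r y) := hp
      rw [← e, dist_self] at h5
      linarith)
  refine ⟨δ / 2, by positivity, fun y hy w hw hd => ?_⟩
  by_contra hle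
  push Not at hle
  have := hb (y, w) ⟨⟨hy, hw⟩, hle⟩
  simp only at this
  linarith

theorem ray_pr (h : UB x0) {γ : ℝ≥0 → Y} (hγ : Isometry γ) (h0 : γ 0 = x0) {s t : ℝ≥0}
    (hst : s ≤ t) : pr x0 s (γ t) = γ s := by
  have e : ∀ u : ℝ≥0, dist x0 (γ u) = u := fun u => by
    rw [← h0, hγ.dist_eq, NNReal.dist_eq]; simp
  refine (eq_pr h (e s).le ?_).symm
  have : (s : ℝ) ≤ t := hst
  rw [e, hγ.dist_eq, NNReal.dist_eq, abs_of_nonpos (by linarith)]
  linarith

/-- If the projections between spheres are near homeomorphisms, a sphere parametrises the rays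
from the base point. -/
theorem sphere_rays [ProperSpace Y] (h : UB x0)
    (shell : ∀ r r' : ℝ, 0 < r → r < r' → ∀ ε > 0, ∃ g : sphere x0 r' ≃ₜ sphere x0 r,
      ∀ z : sphere x0 r', dist (z : Y) (g z) ≤ (1 + ε) * (r' - r))
    {r : ℝ} (hr : 0 < r) :
    ∃ ρ : sphere x0 r → ℝ≥0 → Y, Continuous (Function.uncurry ρ) ∧ Function.Injective ρ ∧
      range ρ = {γ | Isometry γ ∧ γ 0 = x0} := by
  let R : ℕ → ℝ := fun k => ((k : ℝ) + 1) * r
  have hR0 : ∀ k, 0 < R k := fun k => by positivity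
  have hRm : ∀ i j, i ≤ j → R i ≤ R j := fun i j hij => by
    have : (i : ℝ) ≤ j := by exact_mod_cast hij
    simp only [R]; gcongr
  have hmem : ∀ {s : ℝ} {y : Y}, y ∈ sphere x0 s ↔ dist x0 y = s := by
    intro s y; rw [mem_sphere, dist_comm]
  obtain ⟨Φ⟩ := brown (fun k => sphere x0 (R k)) (fun k => isCompact_sphere _ _)
    (fun k => pr x0 (R k))
    (fun i j hij => (continuousOn_pr h (hR0 i).le).mono fun y hy => by
      rw [mem_ofPred_eq, hmem.mp hy]; exact hRm i j hij)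
    (fun i j hij y hy => hmem.mpr (pr_spec h (hR0 i).le (by
      rw [hmem.mp hy]; exact hRm i j hij)).1)
    (fun i y hy => pr_self h (hmem.mp hy))
    (fun i j k hij hjk y hy => pr_pr h (hR0 i).le (hRm i j hij) (by
      rw [hmem.mp hy]; exact hRm j k hjk))
    (fun k ε hε => by
      obtain ⟨δ, hδ, hb⟩ := pr_approx h (hR0 k).le (hRm k (k + 1) (by omega)) hε
      have e : R (k + 1) - R k = r := by simp only [R]; push_cast; ring
      obtain ⟨g, hg⟩ := shell (R k) (R (k + 1)) (hR0 k) (by linarith) (δ / r) (by positivity)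
      refine ⟨g, fun x => hb x x.2 (g x) (g x).2 ((hg x).trans (le_of_eq ?_))⟩
      rw [e]; field_simp)
  have e0 : R 0 = r := by simp [R]
  let Ψ : sphere x0 r → sphere x0 (R 0) := fun z => ⟨z.1, by rw [e0]; exact z.2⟩
  have hΨc : Continuous Ψ := continuous_subtype_val.subtype_mk _
  let N : ℝ≥0 → ℕ := fun t => ⌈(t : ℝ) / r⌉₊
  have hN : ∀ t : ℝ≥0, (t : ℝ) ≤ R (N t) := fun t => by
    have h1 : (t : ℝ) / r ≤ N t := Nat.le_ceil _
    rw [div_le_iff₀ hr] at h1
    simp only [R]; nlinarith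
  have hth : ∀ (y : {y : ℕ → Y // ∀ k, y k ∈ sphere x0 (R k) ∧ pr x0 (R k) (y (k + 1)) = y k})
      (i n : ℕ), pr x0 (R i) (y.1 (i + n)) = y.1 i := by
    intro y i n
    induction n with
    | zero => exact pr_self h (hmem.mp (y.2 i).1)
    | succ n ih =>
      rw [← ih, ← (y.2 (i + n)).2]
      exact (pr_pr h (hR0 i).le (hRm _ _ (by omega)) (by
        rw [hmem.mp (y.2 _).1]; exact hRm _ _ (by omega))).symm
  have hany : ∀ (y : {y : ℕ → Y // ∀ k, y k ∈ sphere x0 (R k) ∧ pr x0 (R k) (y (k + 1)) = y k})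
      (t : ℝ) (i j : ℕ), 0 ≤ t → t ≤ R i → i ≤ j → pr x0 t (y.1 i) = pr x0 t (y.1 j) := by
    intro y t i j h0 h1 hij
    obtain ⟨n, rfl⟩ := Nat.exists_eq_add_of_le hij
    rw [← hth y i n]
    exact pr_pr h h0 h1 (by rw [hmem.mp (y.2 _).1]; exact hRm _ _ hij)
  let ρ : sphere x0 r → ℝ≥0 → Y := fun z t => pr x0 t ((Φ (Ψ z)).1 (N t))
  have hρ : ∀ z (t : ℝ≥0) (j : ℕ), (t : ℝ) ≤ R j → ρ z t = pr x0 t ((Φ (Ψ z)).1 j) := by
    intro z t j hj
    exact (hany _ t _ (max (N t) j) t.2 (hN t) (le_max_left _ _)).trans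
      (hany _ t _ _ t.2 hj (le_max_right _ _)).symm
  have hiso : ∀ z, Isometry (ρ z) := by
    intro z
    refine Isometry.of_dist_eq fun s t => ?_
    have a1 : (s : ℝ) ≤ R (max (N s) (N t)) := (hN s).trans (hRm _ _ (le_max_left _ _))
    have a2 : (t : ℝ) ≤ R (max (N s) (N t)) := (hN t).trans (hRm _ _ (le_max_right _ _))
    rw [hρ z s _ a1, hρ z t _ a2, NNReal.dist_eq]
    exact dist_pr_abs h s.2 t.2 (by rw [hmem.mp ((Φ (Ψ z)).2 _).1]; exact a1)
      (by rw [hmem.mp ((Φ (Ψ z)).2 _).1]; exact a2)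
  have hRk : ∀ z k, ρ z ⟨R k, (hR0 k).le⟩ = (Φ (Ψ z)).1 k := fun z k => by
    rw [hρ z _ k le_rfl]
    exact pr_self h (hmem.mp ((Φ (Ψ z)).2 k).1)
  refine ⟨ρ, ?_, ?_, ?_⟩
  · refine continuous_prod_of_continuous_lipschitzWith' _ 1 (fun z => (hiso z).lipschitz) ?_
    intro t
    exact (continuousOn_pr h t.2).comp_continuous
      ((continuous_apply (N t)).comp (continuous_subtype_val.comp (Φ.continuous.comp hΨc)))
      fun z => by
        rw [mem_ofPred_eq]
        exact (hN t).trans (hmem.mp ((Φ (Ψ z)).2 _).1).ge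
  · intro z z' hz
    have h1 : Φ (Ψ z) = Φ (Ψ z') := Subtype.ext (funext fun k => by rw [← hRk, ← hRk, hz])
    exact Subtype.ext (congrArg Subtype.val (Φ.injective h1) :)
  · ext γ
    constructor
    · rintro ⟨z, rfl⟩
      refine ⟨hiso z, ?_⟩
      have := (pr_spec h (t := ((0 : ℝ≥0) : ℝ)) (y := (Φ (Ψ z)).1 (N 0)) le_rfl dist_nonneg).1
      exact (dist_eq_zero.mp this).symm
    · rintro ⟨hγ, h0⟩
      have e : ∀ u : ℝ≥0, dist x0 (γ u) = u := fun u => by
        rw [← h0, hγ.dist_eq, NNReal.dist_eq]; simp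
      obtain ⟨z, hz⟩ := Φ.surjective ⟨fun k => γ ⟨R k, (hR0 k).le⟩, fun k => ⟨hmem.mpr (e _),
        ray_pr h hγ h0 (s := ⟨R k, (hR0 k).le⟩) (hRm k (k + 1) (by omega))⟩⟩
      refine ⟨⟨z.1, by rw [← e0]; exact z.2⟩, funext fun t => ?_⟩
      change pr x0 t ((Φ z).1 (N t)) = _
      rw [hz]
      exact ray_pr h hγ h0 (hN t)

/-- Convexity of the metric along two geodesics with a common start. -/
def Bus (Y : Type*) [MetricSpace Y] : Prop :=
  ∀ (x y y' w w' : Y) (s : ℝ), 0 ≤ s → s ≤ 1 → dist x w = s * dist x y →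
    dist w y = (1 - s) * dist x y → dist x w' = s * dist x y' → dist w' y' = (1 - s) * dist x y' →
    dist w w' ≤ s * dist y y'

theorem UB_of_bus (hB : Bus Y)
    (hex : ∀ y t, 0 ≤ t → t ≤ dist x0 y → ∃ w, dist x0 w = t ∧ dist w y = dist x0 y - t) :
    UB x0 := by
  intro y t h0 h1
  obtain ⟨w, hw⟩ := hex y t h0 h1
  refine ⟨w, hw, fun w' hw' => ?_⟩
  rcases (dist_nonneg (x := x0) (y := y)).eq_or_lt with e | e
  · have ht : t = 0 := by linarith
    rw [ht] at hw hw'
    rw [← dist_eq_zero.mp hw.1, ← dist_eq_zero.mp hw'.1]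
  · have a1 : t = t / dist x0 y * dist x0 y := by field_simp
    have a2 : dist x0 y - t = (1 - t / dist x0 y) * dist x0 y := by field_simp
    have := hB x0 y y w' w (t / dist x0 y) (by positivity) ((div_le_one e).mpr h1)
      (hw'.1.trans a1) (hw'.2.trans a2) (hw.1.trans a1) (hw.2.trans a2)
    simpa using this

/-- Asymptotic rays with the same start are equal. -/
theorem ray_unique (hB : Bus Y) {γ γ' : ℝ≥0 → Y} (hγ : Isometry γ) (hγ' : Isometry γ')
    (h0 : γ 0 = γ' 0) {C : ℝ} (hC : ∀ t, dist (γ t) (γ' t) ≤ C) : γ = γ' := by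
  funext t
  have key : ∀ n : ℕ, dist (γ t) (γ' t) ≤ t * C * (1 / ((n : ℝ) + 1)) + C * (1 / ((n : ℝ) + 1)) := by
    intro n
    have hn : (0 : ℝ) < (n : ℝ) + 1 := by positivity
    have hs1 : 1 / ((n : ℝ) + 1) ≤ 1 := by rw [div_le_one hn]; linarith [n.cast_nonneg (α := ℝ)]
    have hT : ∀ c : ℝ≥0 → Y, Isometry c →
        dist (c 0) (c t) = 1 / ((n : ℝ) + 1) * dist (c 0) (c ((n + 1) * t)) ∧
        dist (c t) (c ((n + 1) * t)) =
          (1 - 1 / ((n : ℝ) + 1)) * dist (c 0) (c ((n + 1) * t)) := by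
      intro c hc
      have ht : (0 : ℝ) ≤ t := t.2
      simp only [hc.dist_eq, NNReal.dist_eq]
      push_cast
      rw [abs_of_nonpos (by linarith), abs_of_nonpos (by nlinarith),
        abs_of_nonpos (by nlinarith [n.cast_nonneg (α := ℝ)])]
      constructor <;> field_simp <;> ring
    have h1 := hB (γ 0) (γ ((n + 1) * t)) (γ' ((n + 1) * t)) (γ t) (γ' t) (1 / ((n : ℝ) + 1))
      (by positivity) hs1 (hT γ hγ).1 (hT γ hγ).2 (by rw [h0]; exact (hT γ' hγ').1)
      (by rw [h0]; exact (hT γ' hγ').2)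
    have hC0 : 0 ≤ C := dist_nonneg.trans (hC 0)
    have h2 := hC ((n + 1) * t)
    have h3 : 0 ≤ t * C * (1 / ((n : ℝ) + 1)) := by positivity
    have h4 : 1 / ((n : ℝ) + 1) * dist (γ ((n + 1) * t)) (γ' ((n + 1) * t)) ≤
        1 / ((n : ℝ) + 1) * C := by gcongr
    linarith
  have h5 := (tendsto_one_div_add_atTop_nhds_zero_nat.const_mul (t * C)).add
    (tendsto_one_div_add_atTop_nhds_zero_nat.const_mul C)
  have h6 : dist (γ t) (γ' t) ≤ t * C * 0 + C * 0 := ge_of_tendsto' h5 key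
  exact dist_le_zero.mp (by simpa using h6)

/-- Every ray is asymptotic to a ray from the base point. -/
theorem ray_exists [ProperSpace Y] (hB : Bus Y) (h : UB x0) {c : ℝ≥0 → Y} (hc : Isometry c) :
    ∃ γ : ℝ≥0 → Y, Isometry γ ∧ γ 0 = x0 ∧ ∀ t, dist (γ t) (c t) ≤ 2 * dist x0 (c 0) := by
  set D := dist x0 (c 0) with hD
  have hD0 : 0 ≤ D := dist_nonneg
  have hcd : ∀ s t : ℝ≥0, dist (c s) (c t) = |(s : ℝ) - t| := fun s t => by
    rw [hc.dist_eq, NNReal.dist_eq]
  have hL : ∀ n : ℕ, |dist x0 (c n) - n| ≤ D := by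
    intro n
    have h1 := abs_dist_sub_le x0 (c 0) (c n)
    rw [hcd] at h1
    simpa using h1
  have hev : ∀ t : ℝ, ∀ᶠ n : ℕ in atTop, t < dist x0 (c n) := by
    intro t
    filter_upwards [tendsto_natCast_atTop_atTop.eventually_gt_atTop (t + D)] with n hn
    have := (abs_le.mp (hL n)).1
    linarith
  have hclose : ∀ (t : ℝ≥0) (n : ℕ), (t : ℝ) < dist x0 (c n) →
      dist (pr x0 t (c n)) (c t) ≤ 2 * D := by
    intro t n hn
    have ht : (0 : ℝ) ≤ t := t.2
    set L := dist x0 (c n) with hLd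
    have hL0 : 0 < L := lt_of_le_of_lt ht hn
    obtain ⟨a1, a2⟩ := pr_spec h (y := c n) ht hn.le
    have hn0 : (0 : ℝ) ≤ n := n.cast_nonneg
    have hq0 : 0 ≤ (t : ℝ) / L := by positivity
    have hq1 : (t : ℝ) / L ≤ 1 := (div_le_one hL0).mpr hn.le
    let u : ℝ≥0 := ⟨t / L * n, by positivity⟩
    have hu : (u : ℝ) = t / L * n := rfl
    have b := hB (c n) x0 (c 0) (pr x0 t (c n)) (c u) (1 - t / L) (by linarith) (by linarith)
      (by rw [dist_comm, a2, dist_comm (c n), ← hLd]; field_simp)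
      (by rw [dist_comm, a1, dist_comm (c n), ← hLd]; field_simp; ring)
      (by
        rw [hcd, hcd, hu]; push_cast
        rw [abs_of_nonneg (by nlinarith), abs_of_nonneg (by linarith)]; ring)
      (by
        rw [hcd, hcd, hu]; push_cast
        rw [abs_of_nonneg (by nlinarith), abs_of_nonneg (by linarith)]; ring)
    have b2 : dist (c u) (c t) ≤ D := by
      rw [hcd, hu]
      have e : (t : ℝ) / L * n - t = -(t / L * (L - n)) := by field_simp; ring
      rw [e, abs_neg, abs_mul, abs_of_nonneg hq0]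
      have := hL n
      nlinarith [abs_nonneg (L - n)]
    have b3 := dist_triangle (pr x0 t (c n)) (c u) (c t)
    rw [← hD] at b
    nlinarith
  let U : Ultrafilter ℕ := Ultrafilter.of atTop
  have hU : (U : Filter ℕ) ≤ atTop := Ultrafilter.of_le _
  have hlim : ∀ t : ℝ≥0, ∃ w ∈ closedBall (c t) (2 * D),
      Tendsto (fun n : ℕ => pr x0 t (c n)) U (𝓝 w) := by
    intro t
    have := (isCompact_closedBall (c t) (2 * D)).ultrafilter_le_nhds
      (U.map fun n : ℕ => pr x0 t (c n)) (by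
        rw [Ultrafilter.coe_map, le_principal_iff, mem_map]
        filter_upwards [hU (hev t)] with n hn
        exact hclose t n hn)
    simpa [Tendsto] using this
  choose γ hγ1 hγ2 using hlim
  refine ⟨γ, Isometry.of_dist_eq fun s t => ?_, ?_, fun t => hγ1 t⟩
  · refine tendsto_nhds_unique ((hγ2 s).dist (hγ2 t)) (tendsto_const_nhds.congr' ?_)
    filter_upwards [hU (hev s), hU (hev t)] with n h1 h2
    rw [NNReal.dist_eq]
    exact (dist_pr_abs h s.2 t.2 h1.le h2.le).symm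
  · refine tendsto_nhds_unique (hγ2 0) (tendsto_const_nhds.congr fun n => ?_)
    exact dist_eq_zero.mp (pr_spec h (t := ((0 : ℝ≥0) : ℝ)) (y := c n) le_rfl dist_nonneg).1

end C2693.Br
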