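import Mathlib
import Pool.Agent.Lib.MP_c2693b_gt.Defs
import Pool.Agent.Lib.MP_c2693b_gt.Rays

/-! The boundary at infinity of a proper convex space whose sphere projections are near
homeomorphisms is homeomorphic to a metric sphere. -/

namespace C2693.Br

open Set Metric Filter Topology NNReal Pool.Agent.Lib.MP_c2693b_gt

variable {Y : Type} [MetricSpace Y]

theorem UB_of_geodesic (hB : Bus Y) (hg : GeodesicIn (univ : Set Y)) (x0 : Y) : UB x0 := by
  refine UB_of_bus hB fun y t h0 h1 => ?_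
  obtain ⟨γ, ⟨g0, g1, g2⟩, -⟩ := hg x0 trivial y trivial
  rcases (dist_nonneg (x := x0) (y := y)).eq_or_lt with e | e
  · exact ⟨x0, by rw [dist_self]; linarith, by linarith⟩
  · have a0 : 0 ≤ t / dist x0 y := by positivity
    have a1 : t / dist x0 y ≤ 1 := (div_le_one e).mpr h1
    refine ⟨γ (t / dist x0 y), ?_, ?_⟩
    · have := g2 0 ⟨le_rfl, zero_le_one⟩ _ ⟨a0, a1⟩
      rw [g0, abs_of_nonpos (by linarith)] at this
      rw [this]; field_simp; ring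
    · have := g2 _ ⟨a0, a1⟩ 1 ⟨zero_le_one, le_rfl⟩
      rw [g1, abs_of_nonpos (by linarith)] at this
      rw [this]; field_simp; ring

/-- A bicombing with convex distance and uniqueness gives `Bus`. -/
theorem bus_of_geo (geo : Y → Y → ℝ → Y)
    (hconv : ∀ a b c d, ∀ t ∈ Icc (0 : ℝ) 1,
      dist (geo a b t) (geo c d t) ≤ (1 - t) * dist a c + t * dist b d)
    (huniq : ∀ a b w, ∀ t ∈ Icc (0 : ℝ) 1, dist a w = t * dist a b → dist w b = (1 - t) * dist a b →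
      w = geo a b t) : Bus Y := by
  intro x y y' w w' s s0 s1 a1 a2 a3 a4
  rw [huniq x y w s ⟨s0, s1⟩ a1 a2, huniq x y' w' s ⟨s0, s1⟩ a3 a4]
  simpa using hconv x y x y' s ⟨s0, s1⟩

theorem bdry_homeo [ProperSpace Y] (hB : Bus Y) (hg : GeodesicIn (univ : Set Y)) (x0 : Y)
    (shell : ∀ r r' : ℝ, 0 < r → r < r' → ∀ ε > 0, ∃ g : sphere x0 r' ≃ₜ sphere x0 r,
      ∀ z : sphere x0 r', dist (z : Y) (g z) ≤ (1 + ε) * (r' - r))
    {r : ℝ} (hr : 0 < r) : Nonempty (Bdry x0 ≃ₜ sphere x0 r) := by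
  have hU := UB_of_geodesic hB hg x0
  obtain ⟨ρ, hρc, hρi, hρr⟩ := sphere_rays hU shell hr
  have hρ : ∀ z, Isometry (ρ z) ∧ ρ z 0 = x0 := fun z => by
    have : ρ z ∈ range ρ := mem_range_self z
    rwa [hρr] at this
  have huniq : ∀ c c' : Ray Y, c.1 0 = x0 → c'.1 0 = x0 →
      Quotient.mk (raySetoid Y) c = Quotient.mk (raySetoid Y) c' → c = c' := by
    intro c c' h0 h0' h
    obtain ⟨K, hK⟩ := Quotient.exact h
    exact Subtype.ext (ray_unique hB c.2 c'.2 (h0.trans h0'.symm) hK)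
  let F : sphere x0 r → Bdry x0 := fun z => Quotient.mk (raySetoid Y) ⟨ρ z, (hρ z).1⟩
  have hFi : Function.Injective F := fun z z' h =>
    hρi (congrArg Subtype.val (huniq _ _ (hρ z).2 (hρ z').2 h))
  have hFs : Function.Surjective F := by
    intro ξ
    obtain ⟨c, rfl⟩ := Quotient.exists_rep ξ
    obtain ⟨γ, h1, h2, h3⟩ := ray_exists hB hU c.2
    have : γ ∈ range ρ := by rw [hρr]; exact ⟨h1, h2⟩
    obtain ⟨z, rfl⟩ := this
    exact ⟨z, Quotient.sound ⟨_, h3⟩⟩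
  have hpre : ∀ (c : Ray Y) (s : ℝ≥0) (ε : ℝ),
      F ⁻¹' {ξ | ∃ c' : Ray Y, c'.1 0 = x0 ∧ Quotient.mk (raySetoid Y) c' = ξ ∧
        dist (c'.1 s) (c.1 s) < ε} = {z | dist (ρ z s) (c.1 s) < ε} := by
    intro c s ε
    ext z
    constructor
    · rintro ⟨c', h1, h2, h3⟩
      have := huniq c' ⟨ρ z, (hρ z).1⟩ h1 (hρ z).2 h2
      rw [this] at h3
      exact h3
    · intro h
      exact ⟨⟨ρ z, (hρ z).1⟩, (hρ z).2, rfl, h⟩
  have hs : ∀ s : ℝ≥0, Continuous fun z => ρ z s := fun s =>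
    hρc.comp (continuous_id.prodMk continuous_const)
  have hFc : Continuous F := by
    refine continuous_generateFrom_iff.mpr ?_
    rintro _ ⟨c, s, ε, -, rfl⟩
    have h1 : IsOpen {z | dist (ρ z s) (c.1 s) < ε} :=
      isOpen_lt ((hs s).dist continuous_const) continuous_const
    exact (hpre c s ε).symm ▸ h1
  have : T2Space (Bdry x0) := by
    refine ⟨fun ξ η hne => ?_⟩
    obtain ⟨z, rfl⟩ := hFs ξ
    obtain ⟨z', rfl⟩ := hFs η
    have h1 : ρ z ≠ ρ z' := fun h => hne (by rw [hρi h])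
    obtain ⟨s, h2⟩ := Function.ne_iff.mp h1
    have h3 : 0 < dist (ρ z s) (ρ z' s) / 2 := by have := dist_pos.mpr h2; linarith
    refine ⟨{ξ | ∃ c' : Ray Y, c'.1 0 = x0 ∧ Quotient.mk (raySetoid Y) c' = ξ ∧
        dist (c'.1 s) (ρ z s) < dist (ρ z s) (ρ z' s) / 2},
      {ξ | ∃ c' : Ray Y, c'.1 0 = x0 ∧ Quotient.mk (raySetoid Y) c' = ξ ∧
        dist (c'.1 s) (ρ z' s) < dist (ρ z s) (ρ z' s) / 2},
      TopologicalSpace.isOpen_generateFrom_of_mem ⟨⟨ρ z, (hρ z).1⟩, s, _, (hρ z).2, rfl⟩,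
      TopologicalSpace.isOpen_generateFrom_of_mem ⟨⟨ρ z', (hρ z').1⟩, s, _, (hρ z').2, rfl⟩,
      ⟨⟨ρ z, (hρ z).1⟩, (hρ z).2, rfl, by simpa using h3⟩,
      ⟨⟨ρ z', (hρ z').1⟩, (hρ z').2, rfl, by simpa using h3⟩, ?_⟩
    rw [Set.disjoint_left]
    rintro ζ ⟨c, a1, a2, a3⟩ ⟨c', b1, b2, b3⟩
    have := huniq c c' a1 b1 (a2.trans b2.symm)
    subst this
    have := dist_triangle_left (ρ z s) (ρ z' s) (c.1 s)
    linarith
  have : CompactSpace (sphere x0 r) := isCompact_iff_compactSpace.mp (isCompact_sphere _ _)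
  exact ⟨(Continuous.homeoOfEquivCompactToT2 (f := Equiv.ofBijective F ⟨hFi, hFs⟩) hFc).symm⟩

end C2693.Br
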