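import Pool.Agent.Lib.MP_c2693b_gt.CH4

/-! The Cartan-Hadamard theorem for compact spaces with a locally convex metric. -/

open Set Metric Filter Topology

namespace Pool.Agent.Lib.MP_c2693b_gt

namespace CH

variable {X Y : Type} [MetricSpace X] [MetricSpace Y] {r ε : ℝ} {p : Y → X}

lemma seg_concat {c₁ c₂ : ℝ → Y} {a w b : Y} (h₁ : IsSeg c₁ a w) (h₂ : IsSeg c₂ w b) {t : ℝ}
    (t0 : 0 < t) (t1 : t < 1) (ha : dist a w = t * dist a b) (hb : dist w b = (1 - t) * dist a b) :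
    ∃ c : ℝ → Y, IsSeg c a b ∧ c t = w := by
  have t2 : 0 < 1 - t := sub_pos.2 t1
  have m1 : ∀ s ∈ Icc (0 : ℝ) 1, s ≤ t → s / t ∈ Icc (0 : ℝ) 1 := fun s hs h =>
    ⟨div_nonneg hs.1 t0.le, (div_le_one t0).2 h⟩
  have m2 : ∀ s ∈ Icc (0 : ℝ) 1, ¬s ≤ t → (s - t) / (1 - t) ∈ Icc (0 : ℝ) 1 := fun s hs h =>
    ⟨div_nonneg (by linarith [not_le.1 h]) t2.le, (div_le_one t2).2 (by linarith [hs.2])⟩
  have cross : ∀ s ∈ Icc (0 : ℝ) 1, ∀ s' ∈ Icc (0 : ℝ) 1, s ≤ t → ¬s' ≤ t →
      dist (c₁ (s / t)) (c₂ ((s' - t) / (1 - t))) = (s' - s) * dist a b := by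
    intro s hs s' hs' a1 a2
    have b1 := seg_left h₁ (m1 s hs a1)
    have b2 := seg_right h₁ (m1 s hs a1)
    have b3 := seg_left h₂ (m2 s' hs' a2)
    have b4 := seg_right h₂ (m2 s' hs' a2)
    rw [ha, ← mul_assoc] at b1 b2
    rw [hb, ← mul_assoc] at b3 b4
    rw [div_mul_cancel₀ _ t0.ne'] at b1
    rw [sub_mul, div_mul_cancel₀ _ t0.ne'] at b2
    rw [div_mul_cancel₀ _ t2.ne'] at b3
    rw [sub_mul, div_mul_cancel₀ _ t2.ne'] at b4
    linarith [dist_triangle (c₁ (s / t)) w (c₂ ((s' - t) / (1 - t))),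
      dist_triangle4 a (c₁ (s / t)) (c₂ ((s' - t) / (1 - t))) b]
  refine ⟨fun s => if s ≤ t then c₁ (s / t) else c₂ ((s - t) / (1 - t)), ⟨?_, ?_, ?_⟩, ?_⟩
  · simp only [if_pos t0.le, zero_div, h₁.1]
  · simp only [if_neg (not_le.2 t1), div_self t2.ne', h₂.2.1]
  · intro s hs s' hs'
    by_cases a1 : s ≤ t <;> by_cases a2 : s' ≤ t <;> simp only [a1, a2, if_true, if_false]
    · rw [h₁.2.2 _ (m1 s hs a1) _ (m1 s' hs' a2), ha, ← sub_div, abs_div, abs_of_pos t0,
        ← mul_assoc, div_mul_cancel₀ _ t0.ne']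
    · rw [cross s hs s' hs' a1 a2, abs_sub_comm, abs_of_nonneg (by linarith [not_le.1 a2])]
    · rw [dist_comm, cross s' hs' s hs a2 a1, abs_of_nonneg (by linarith [not_le.1 a1])]
    · rw [h₂.2.2 _ (m2 s hs a1) _ (m2 s' hs' a2), hb, ← sub_div, abs_div, abs_of_pos t2,
        ← mul_assoc, div_mul_cancel₀ _ t2.ne', sub_sub_sub_cancel_right]
  · simp only [le_refl, if_true, div_self t0.ne', h₁.2.1]

lemma BallIso.proper [CompactSpace X] (hp : BallIso p ε) {geo : Y → Y → ℝ → Y}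
    (seg : ∀ a b, IsSeg (geo a b) a b) : ProperSpace Y := by
  have e0 := hp.pos
  have small : ∀ a : Y, IsCompact (closedBall a (ε / 4)) := by
    intro a
    have h1 : Isometry fun z : closedBall a (ε / 4) => p z := Isometry.of_dist_eq fun z z' =>
      hp.iso _ _ (by
        linarith [dist_triangle_right (z : Y) z' a, mem_closedBall.1 z.2, mem_closedBall.1 z'.2])
    rw [isCompact_iff_compactSpace, ← isCompact_univ_iff, h1.isEmbedding.isInducing.isCompact_iff]
    convert (isClosed_closedBall (x := p a) (ε := ε / 4)).isCompact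
    ext b
    constructor
    · rintro ⟨z, -, rfl⟩
      have := mem_closedBall.1 z.2
      rwa [mem_closedBall, hp.iso _ _ (by linarith)]
    · intro hb
      rw [mem_closedBall, dist_comm] at hb
      obtain ⟨z, h2, h3⟩ := hp.surj' a b (by linarith)
      exact ⟨⟨z, by rw [mem_closedBall, dist_comm, h2]; exact hb⟩, trivial, h3⟩
  have big : ∀ (y : Y) (n : ℕ), IsCompact (closedBall y (n * (ε / 8))) := by
    intro y n
    induction n with
    | zero => simp
    | succ n ih =>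
      obtain ⟨T, -, hT, hc⟩ := ih.finite_cover_balls (by linarith : 0 < ε / 8)
      refine (hT.isCompact_biUnion fun z _ => small z).of_isClosed_subset isClosed_closedBall ?_
      intro w hw
      rw [mem_closedBall, dist_comm] at hw
      push_cast at hw
      have n0 : 0 ≤ n * (ε / 8) := by positivity
      obtain ⟨u, h1, h2⟩ : ∃ u, dist y u ≤ n * (ε / 8) ∧ dist u w ≤ ε / 8 := by
        by_cases h3 : dist y w ≤ n * (ε / 8)
        · exact ⟨w, h3, by rw [dist_self]; linarith⟩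
        · have h4 : 0 < dist y w := n0.trans_lt (not_le.1 h3)
          have h5 : n * (ε / 8) / dist y w ∈ Icc (0 : ℝ) 1 :=
            ⟨by positivity, (div_le_one h4).2 (not_le.1 h3).le⟩
          refine ⟨_, ?_, by rw [seg_right (seg y w) h5, sub_mul, div_mul_cancel₀ _ h4.ne']; linarith⟩
          rw [seg_left (seg y w) h5, div_mul_cancel₀ _ h4.ne']
      obtain ⟨z, hz, h3⟩ := mem_iUnion₂.1 (hc (by rw [mem_closedBall, dist_comm]; exact h1))
      refine mem_iUnion₂.2 ⟨z, hz, ?_⟩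
      rw [mem_ball] at h3
      rw [mem_closedBall]
      linarith [dist_triangle_left w z u]
  refine ⟨fun y R => ?_⟩
  obtain ⟨n, hn⟩ := exists_nat_ge (R / (ε / 8))
  rw [div_le_iff₀ (by linarith)] at hn
  exact (big y n).of_isClosed_subset isClosed_closedBall (closedBall_subset_closedBall hn)

lemma cover_of [CompactSpace X] [PreconnectedSpace X] [SimplyConnectedSpace Y] (hp : BallIso p ε)
    {geo : Y → Y → ℝ → Y} (seg : ∀ a b, IsSeg (geo a b) a b)
    (cv : ∀ a b c, ∀ t ∈ Icc (0 : ℝ) 1, dist (geo a b t) (geo a c t) ≤ t * dist b c)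
    (loc : ∀ (c : ℝ → Y) (L : ℝ), LocGeo c L →
      dist (c 0) (c 1) = L ∧ ∀ t ∈ Icc (0 : ℝ) 1, c t = geo (c 0) (c 1) t) :
    CHCover p (ε / 2) geo := by
  have e0 := hp.pos
  have cp := hp.covering
  have : LocallyPathConnectedSpace Y := locPath_of_seg one_pos fun a b _ => ⟨_, seg a b⟩
  have iso : ∀ x, ∀ a ∈ ball x (ε / 2), ∀ b ∈ ball x (ε / 2), dist (p a) (p b) = dist a b :=
    fun x a ha b hb => hp.iso _ _ (by
      linarith [dist_triangle_right a b x, mem_ball.1 ha, mem_ball.1 hb])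
  have uniq : ∀ a b w, ∀ t ∈ Icc (0 : ℝ) 1, dist a w = t * dist a b →
      dist w b = (1 - t) * dist a b → w = geo a b t := by
    intro a b w t ht h1 h2
    rcases ht.1.eq_or_lt with rfl | t0
    · rw [zero_mul, dist_eq_zero] at h1
      rw [(seg a b).1, h1]
    rcases ht.2.eq_or_lt with rfl | t1
    · rw [sub_self, zero_mul, dist_eq_zero] at h2
      rw [(seg a b).2.1, h2]
    obtain ⟨c, hc, rfl⟩ := seg_concat (seg a w) (seg w b) t0 t1 h1 h2
    have := (loc c _ (seg_locGeo hc)).2 t ht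
    rwa [hc.1, hc.2.1] at this
  have rev : ∀ a b, ∀ t ∈ Icc (0 : ℝ) 1, geo b a (1 - t) = geo a b t := by
    intro a b t ht
    have ht' : 1 - t ∈ Icc (0 : ℝ) 1 := ⟨by linarith [ht.2], by linarith [ht.1]⟩
    refine uniq a b _ t ht ?_ ?_
    · rw [dist_comm, seg_right (seg b a) ht', dist_comm, sub_sub_cancel]
    · rw [dist_comm, seg_left (seg b a) ht', dist_comm]
  refine
    { pos := half_pos e0
      univ := ⟨cp, hp.surjective, inferInstance, fun a _ b _ => ⟨_, seg a b, fun _ _ => trivial⟩,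
        fun y => ⟨_, ball_mem_nhds y (half_pos e0), iso y⟩⟩
      proper := hp.proper seg
      iso := iso
      onto := fun x b hb => ?_
      seg := seg
      conv := fun a b c d t ht => ?_
      deck := fun a b hab => ?_
      free := fun g hg x hx => ?_
      uniq := uniq
      loc := loc
      lift := fun c L hc hL => (locGeo_iff hp hc).1 hL }
  · rw [mem_ball, dist_comm] at hb
    obtain ⟨z, h1, h2⟩ := hp.surj' x b (by linarith)
    exact ⟨z, by rw [mem_ball, dist_comm, h1]; exact hb, h2⟩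
  · have h1 := cv a b d t ht
    have h2 := cv d a c (1 - t) ⟨by linarith [ht.2], by linarith [ht.1]⟩
    rw [rev a d t ht, rev c d t ht] at h2
    linarith [dist_triangle (geo a b t) (geo a d t) (geo c d t)]
  · obtain ⟨g, ⟨g0, hg⟩, -⟩ :=
      cp.existsUnique_continuousMap_lifts (⟨p, cp.continuous⟩ : C(Y, X)) a b hab.symm
    obtain ⟨g', ⟨g0', hg'⟩, -⟩ :=
      cp.existsUnique_continuousMap_lifts (⟨p, cp.continuous⟩ : C(Y, X)) b a hab
    have pg : ∀ y, p (g y) = p y := congrFun hg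
    have pg' : ∀ y, p (g' y) = p y := congrFun hg'
    have h1 : ∀ y, g' (g y) = y := congrFun (cp.eq_of_comp_eq (g₁ := fun y => g' (g y)) (g₂ := id)
      (by fun_prop) continuous_id (funext fun y => (pg' _).trans (pg y)) a (by rw [g0, g0']; rfl))
    have h2 : ∀ y, g (g' y) = y := congrFun (cp.eq_of_comp_eq (g₁ := fun y => g (g' y)) (g₂ := id)
      (by fun_prop) continuous_id (funext fun y => (pg _).trans (pg' y)) b (by rw [g0', g0]; rfl))
    refine ⟨⟨⟨g, g', h1, h2⟩, Isometry.of_dist_eq fun u v => ?_⟩, funext pg, g0⟩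
    have h3 := (loc (g ∘ geo u v) _ ((locGeo_iff hp (g.continuous.comp_continuousOn
      (seg_cont (seg u v)))).1 (locGeo_congr ((locGeo_iff hp (seg_cont (seg u v))).2
        (seg_locGeo (seg u v))) fun t _ => pg _))).1
    rwa [Function.comp_apply, Function.comp_apply, (seg u v).1, (seg u v).2.1] at h3
  · exact IsometryEquiv.ext (congrFun
      (cp.eq_of_comp_eq (g₁ := g) (g₂ := id) g.continuous continuous_id hg x hx))

/-- A copy of a type, to carry the lifted length metric. -/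
def Yd (Y : Type) : Type := Y

lemma cover_of_pre [CompactSpace X] [PreconnectedSpace X] [hs : SimplyConnectedSpace Y] {δ : ℝ}
    (hp : BallIso p δ) {D : Y → Y → ℝ} {geo : Y → Y → ℝ → Y} (h : Pre p δ D geo) :
    ∃ (Z : Type) (_ : MetricSpace Z) (q : Z → X) (ρ : ℝ) (geo : Z → Z → ℝ → Z),
      CHCover q ρ geo := by
  have top : ∀ s : Set Y, IsOpen s ↔ ∀ x ∈ s, ∃ η > 0, ∀ y, D x y < η → y ∈ s := by
    intro s
    rw [Metric.isOpen_iff]
    refine forall₂_congr fun x _ => ⟨?_, ?_⟩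
    · rintro ⟨η, h1, h2⟩
      exact ⟨η, h1, fun y hy => h2 (by rw [mem_ball, dist_comm]; exact (h.le x y).trans_lt hy)⟩
    · rintro ⟨η, h1, h2⟩
      refine ⟨min η δ, lt_min h1 hp.pos, fun y hy => h2 y ?_⟩
      rw [mem_ball, dist_comm, lt_min_iff] at hy
      rw [h.eq x y hy.2]
      exact hy.1
  have sep : ∀ x y, D x y = 0 → x = y := fun x y h0 => dist_le_zero.1 (h0 ▸ h.le x y)
  have hq1 : ∀ a b, D a b < δ → dist (p a) (p b) = D a b := fun a b hab => by
    have := (h.le a b).trans_lt hab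
    rw [hp.iso a b this, h.eq a b this]
  have hq2 : ∀ a x, dist (p a) x < δ → ∃ b, D a b < δ ∧ p b = x := fun a x hx => by
    obtain ⟨b, h1, h2⟩ := hp.surj a x hx
    exact ⟨b, by rwa [h.eq a b h1], h2⟩
  have sg : ∀ a b s t, 0 ≤ s → s ≤ t → t ≤ 1 → D (geo a b s) (geo a b t) = (t - s) * D a b := by
    intro a b s t h0 h1 h2
    have a1 := h.lip a b 0 s le_rfl h0 (h1.trans h2)
    have a2 := h.lip a b s t h0 h1 h2
    have a3 := h.lip a b t 1 (h0.trans h1) h2 le_rfl
    rw [h.zero] at a1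
    rw [h.one] at a3
    linarith [h.tri a (geo a b s) b, h.tri (geo a b s) (geo a b t) b]
  let τ : TopologicalSpace (Yd Y) := inferInstanceAs (TopologicalSpace Y)
  let m : MetricSpace (Yd Y) := MetricSpace.ofDistTopology D h.self h.comm h.tri top sep
  have hs' : @SimplyConnectedSpace (Yd Y) m.toPseudoMetricSpace.toUniformSpace.toTopologicalSpace :=
    hs
  have hq : BallIso (A := Yd Y) p δ := ⟨hp.pos, hq1, hq2⟩
  refine ⟨Yd Y, m, p, δ / 2, geo, cover_of hq (fun a b => ⟨h.zero a b, h.one a b, ?_⟩) h.conv ?_⟩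
  · intro s hs t ht
    show D _ _ = _ * D a b
    rcases le_total s t with h1 | h1
    · rw [sg a b s t hs.1 h1 ht.2, abs_sub_comm, abs_of_nonneg (sub_nonneg.2 h1)]
    · rw [h.comm, sg a b t s ht.1 h1 hs.2, abs_of_nonneg (sub_nonneg.2 h1)]
  · intro c L hc
    have h1 := locGeo_cont (X := Yd Y) hc
    exact h.loc c L h1 ((locGeo_iff hq h1).2 hc)

end CH

open CH in
/-- The Cartan-Hadamard theorem. -/
theorem cartan_hadamard {X : Type} [MetricSpace X] [CompactSpace X] [ConnectedSpace X] {r : ℝ}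
    (h : LocBus X r) : ∃ (Y : Type) (_ : MetricSpace Y) (p : Y → X) (ρ : ℝ)
      (geo : Y → Y → ℝ → Y), CHCover p ρ geo := by
  obtain ⟨x₀⟩ : Nonempty X := inferInstance
  have hp := p0_iso h x₀
  obtain ⟨D, geo, H⟩ := exists_pre h hp
  exact cover_of_pre (hp.mono (lt_min (half_pos hp.pos) h.1)
    ((min_le_left _ _).trans (half_le_self hp.pos.le))) H

end Pool.Agent.Lib.MP_c2693b_gt
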