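import Pool.Agent.Lib.MP_c2693b_gt.ConeCN

namespace Pool.Agent.Lib.MP_c2693b_gt

open Set Real

/-- The barycentric coefficient on a hyperbolic segment of length `D`. -/
noncomputable def hco (D t : ℝ) : ℝ := if D = 0 then t else sinh (t * D) / sinh D

lemma hco_nonneg {D t : ℝ} (hD : 0 ≤ D) (ht : 0 ≤ t) : 0 ≤ hco D t := by
  unfold hco
  split_ifs
  · exact ht
  · exact div_nonneg (sinh_nonneg_iff.2 (mul_nonneg ht hD)) (sinh_nonneg_iff.2 hD)

lemma sinh_mul_hco (D t : ℝ) : sinh D * hco D t = sinh (t * D) := by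
  unfold hco
  split_ifs with h
  · simp [h]
  · rw [mul_div_cancel₀ _ (sinh_ne_zero.2 h)]

lemma hco_id (D s t : ℝ) :
    hco D (1 - t) * cosh (s * D) + hco D t * cosh ((1 - s) * D) = cosh ((s - t) * D) := by
  by_cases h : D = 0
  · simp [hco, h]
  · refine mul_left_cancel₀ (sinh_ne_zero.2 h) ?_
    rw [mul_add, ← mul_assoc, ← mul_assoc, sinh_mul_hco, sinh_mul_hco]
    simp only [sub_mul, one_mul, sinh_sub, cosh_sub]
    ring

@[simp] lemma hco_zero (D : ℝ) : hco D 0 = 0 := by simp [hco]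

@[simp] lemma hco_one (D : ℝ) : hco D 1 = 1 := by
  unfold hco
  split_ifs with h
  · rfl
  · rw [one_mul, div_self (sinh_ne_zero.2 h)]

lemma hco_add_le {D t : ℝ} (hD : 0 ≤ D) (ht : t ∈ Icc (0 : ℝ) 1) : hco D (1 - t) + hco D t ≤ 1 := by
  have h := hco_id D t t
  rw [sub_self, zero_mul, cosh_zero] at h
  nlinarith [mul_le_mul_of_nonneg_left (one_le_cosh (t * D)) (hco_nonneg hD (sub_nonneg.2 ht.2)),
    mul_le_mul_of_nonneg_left (one_le_cosh ((1 - t) * D)) (hco_nonneg hD ht.1)]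

lemma le_of_cosh_le {a b : ℝ} (hb : 0 ≤ b) (h : cosh a ≤ cosh b) : a ≤ b :=
  (le_abs_self a).trans ((cosh_le_cosh.1 h).trans (abs_of_nonneg hb).le)

lemma cosh_mono {a b : ℝ} (ha : 0 ≤ a) (h : a ≤ b) : cosh a ≤ cosh b :=
  cosh_le_cosh.2 (by rwa [abs_of_nonneg ha, abs_of_nonneg (ha.trans h)])

section St

variable {X : Type*} [MetricSpace X]

/-- `p` satisfies the hyperbolic Stewart inequality at fraction `t` for test points in `S`. -/
def StPt (S : Set X) (a b : X) (t : ℝ) (p : X) : Prop :=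
  ∀ x ∈ S, cosh (dist x p) ≤
    hco (dist a b) (1 - t) * cosh (dist x a) + hco (dist a b) t * cosh (dist x b)

/-- `S` is geodesic and satisfies the hyperbolic Stewart inequality. -/
def St (S : Set X) : Prop := ∀ a ∈ S, ∀ b ∈ S, ∀ t ∈ Icc (0 : ℝ) 1, ∃ p ∈ S, StPt S a b t p

variable {S : Set X} {a b p q : X} {s t : ℝ}

lemma StPt.dist_le (h : StPt S a b t p) (ht : t ∈ Icc (0 : ℝ) 1) (hq : q ∈ S)
    (h1 : dist a q ≤ s * dist a b) (h2 : dist q b ≤ (1 - s) * dist a b) :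
    dist q p ≤ |s - t| * dist a b := by
  refine le_of_cosh_le (by positivity) ((h q hq).trans ?_)
  rw [← abs_of_nonneg (dist_nonneg (x := a) (y := b)), ← abs_mul, cosh_abs,
    abs_of_nonneg dist_nonneg, ← hco_id, dist_comm q a]
  exact add_le_add
    (mul_le_mul_of_nonneg_left (cosh_mono dist_nonneg h1)
      (hco_nonneg dist_nonneg (sub_nonneg.2 ht.2)))
    (mul_le_mul_of_nonneg_left (cosh_mono dist_nonneg h2) (hco_nonneg dist_nonneg ht.1))

lemma StPt.left_le (h : StPt S a b t p) (ha : a ∈ S) (ht : t ∈ Icc (0 : ℝ) 1) :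
    dist a p ≤ t * dist a b := by
  simpa [abs_of_nonneg ht.1] using h.dist_le (s := 0) ht ha (by simp) (by simp)

lemma StPt.right_le (h : StPt S a b t p) (hb : b ∈ S) (ht : t ∈ Icc (0 : ℝ) 1) :
    dist p b ≤ (1 - t) * dist a b := by
  rw [dist_comm]
  simpa [abs_of_nonneg (sub_nonneg.2 ht.2)] using h.dist_le (s := 1) ht hb (by simp) (by simp)

lemma StPt.left (h : StPt S a b t p) (ha : a ∈ S) (hb : b ∈ S) (ht : t ∈ Icc (0 : ℝ) 1) :
    dist a p = t * dist a b := by
  linarith [h.left_le ha ht, h.right_le hb ht, dist_triangle a p b]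

lemma StPt.right (h : StPt S a b t p) (ha : a ∈ S) (hb : b ∈ S) (ht : t ∈ Icc (0 : ℝ) 1) :
    dist p b = (1 - t) * dist a b := by
  linarith [h.left_le ha ht, h.right_le hb ht, dist_triangle a p b]

lemma StPt.unique (h : StPt S a b t p) (ht : t ∈ Icc (0 : ℝ) 1) (hq : q ∈ S)
    (h1 : dist a q ≤ t * dist a b) (h2 : dist q b ≤ (1 - t) * dist a b) : q = p :=
  dist_le_zero.1 (by simpa using h.dist_le ht hq h1 h2)

lemma StPt.dist_eq (h : StPt S a b t p) (h' : StPt S a b s q) (ha : a ∈ S) (hb : b ∈ S)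
    (hq : q ∈ S) (ht : t ∈ Icc (0 : ℝ) 1) (hs : s ∈ Icc (0 : ℝ) 1) :
    dist q p = |s - t| * dist a b := by
  refine le_antisymm (h.dist_le ht hq (h'.left_le ha hs) (h'.right_le hb hs)) ?_
  have := abs_dist_sub_le q p a
  rwa [dist_comm q a, dist_comm p a, h.left ha hb ht, h'.left ha hb hs, ← sub_mul, abs_mul,
    abs_of_nonneg (dist_nonneg (x := a) (y := b))] at this

lemma StPt.le_max (h : StPt S a b t p) (ht : t ∈ Icc (0 : ℝ) 1) {x : X} (hx : x ∈ S) :
    dist x p ≤ max (dist x a) (dist x b) := by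
  refine le_of_cosh_le (le_max_of_le_left dist_nonneg) ((h x hx).trans ?_)
  have h1 := hco_nonneg (dist_nonneg (x := a) (y := b)) (sub_nonneg.2 ht.2)
  have h2 := hco_nonneg (dist_nonneg (x := a) (y := b)) ht.1
  have h3 := hco_add_le (dist_nonneg (x := a) (y := b)) ht
  have h4 := cosh_mono dist_nonneg (le_max_left (dist x a) (dist x b))
  have h5 := cosh_mono dist_nonneg (le_max_right (dist x a) (dist x b))
  nlinarith [mul_le_mul_of_nonneg_left h4 h1, mul_le_mul_of_nonneg_left h5 h2,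
    cosh_pos (max (dist x a) (dist x b))]

lemma St.stPt (h : St S) (ha : a ∈ S) (hb : b ∈ S) (ht : t ∈ Icc (0 : ℝ) 1) (hq : q ∈ S)
    (h1 : dist a q ≤ t * dist a b) (h2 : dist q b ≤ (1 - t) * dist a b) : StPt S a b t q := by
  obtain ⟨p, -, hp⟩ := h a ha b hb t ht
  rwa [hp.unique ht hq h1 h2]

lemma St.inter_ball (h : St S) {x : X} (hx : x ∈ S) (r : ℝ) : St (S ∩ Metric.ball x r) := by
  intro a ha b hb t ht
  obtain ⟨p, hpS, hp⟩ := h a ha.1 b hb.1 t ht
  refine ⟨p, ⟨hpS, ?_⟩, fun y hy => hp y hy.1⟩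
  rw [Metric.mem_ball']
  exact (hp.le_max ht hx).trans_lt (max_lt (Metric.mem_ball'.1 ha.2) (Metric.mem_ball'.1 hb.2))

lemma St.of_isometry {Y : Type*} [MetricSpace Y] {T : Set Y} (h : St T) (j : X → Y)
    (hj : ∀ a ∈ S, ∀ b ∈ S, dist (j a) (j b) = dist a b) (him : j '' S = T) : St S := by
  intro a ha b hb t ht
  obtain ⟨p, hpT, hp⟩ := h _ (him ▸ mem_image_of_mem j ha) _ (him ▸ mem_image_of_mem j hb) t ht
  obtain ⟨q, hq, rfl⟩ : p ∈ j '' S := him ▸ hpT
  refine ⟨q, hq, fun x hx => ?_⟩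
  have := hp (j x) (him ▸ mem_image_of_mem j hx)
  rwa [hj _ hx _ hq, hj _ ha _ hb, hj _ hx _ ha, hj _ hx _ hb] at this

lemma two_cosh_mul_hco (D : ℝ) : 2 * cosh (D / 2) * hco D (1 / 2) = 1 := by
  have := hco_id D (1 / 2) (1 / 2)
  rw [show (1 - 1 / 2 : ℝ) = 1 / 2 by norm_num, sub_self, zero_mul, cosh_zero,
    show 1 / 2 * D = D / 2 by ring] at this
  linarith

/-- Busemann convexity. -/
lemma St.mid_le (h : St S) {x y z m n : X} (hx : x ∈ S) (hy : y ∈ S) (hz : z ∈ S) (hm : m ∈ S)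
    (hn : n ∈ S) (m1 : dist x m = dist x y / 2) (m2 : dist m y = dist x y / 2)
    (n1 : dist x n = dist x z / 2) (n2 : dist n z = dist x z / 2) : dist m n ≤ dist y z / 2 := by
  have hh : (1 / 2 : ℝ) ∈ Icc (0 : ℝ) 1 := ⟨by norm_num, by norm_num⟩
  have a1 := h.stPt hx hy hh hm (by linarith) (by linarith) z hz
  have a2 := h.stPt hx hz hh hn (by linarith) (by linarith) m hm
  rw [show (1 - 1 / 2 : ℝ) = 1 / 2 by norm_num] at a1 a2
  rw [dist_comm z x, dist_comm z y, dist_comm z m] at a1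
  rw [dist_comm m x, m1] at a2
  refine le_of_cosh_le (by positivity) ?_
  have e1 := two_cosh_mul_hco (dist x y)
  have e2 := two_cosh_mul_hco (dist x z)
  have t1 : cosh (dist y z / 2) ≤ cosh (dist x y / 2 + dist x z / 2) :=
    cosh_mono (by positivity) (by linarith [dist_triangle_left y z x])
  have t2 : cosh (dist x y / 2 - dist x z / 2) ≤ cosh (dist y z / 2) := by
    rw [cosh_le_cosh, abs_of_nonneg (by positivity : 0 ≤ dist y z / 2), ← sub_div, abs_div, abs_two,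
      dist_comm x y, dist_comm x z]
    linarith [abs_dist_sub_le y z x]
  have d1 : cosh (dist x z) = 2 * cosh (dist x z / 2) ^ 2 - 1 := by
    have := cosh_two_mul (dist x z / 2)
    rw [show 2 * (dist x z / 2) = dist x z by ring, sinh_sq] at this
    linarith
  have d2 : cosh (dist y z) = 2 * cosh (dist y z / 2) ^ 2 - 1 := by
    have := cosh_two_mul (dist y z / 2)
    rw [show 2 * (dist y z / 2) = dist y z by ring, sinh_sq] at this
    linarith
  rw [cosh_add] at t1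
  rw [cosh_sub] at t2
  have s1 := sinh_sq (dist x y / 2)
  have s2 := sinh_sq (dist x z / 2)
  have p1 := cosh_pos (dist x y / 2)
  have p2 := cosh_pos (dist x z / 2)
  rw [d1, d2] at a1
  generalize cosh (dist x y / 2) = A at *
  generalize cosh (dist x z / 2) = B at *
  generalize cosh (dist y z / 2) = C at *
  generalize sinh (dist x y / 2) = A' at *
  generalize sinh (dist x z / 2) = B' at *
  generalize hco (dist x y) (1 / 2) = u at *
  generalize hco (dist x z) (1 / 2) = v at *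
  have k1 : A ^ 2 + B ^ 2 + C ^ 2 - 1 ≤ 2 * A * B * C := by
    have := mul_nonneg (sub_nonneg.2 t1) (sub_nonneg.2 t2)
    have e : (A' * B') ^ 2 = (A ^ 2 - 1) * (B ^ 2 - 1) := by rw [mul_pow, s1, s2]
    nlinarith
  have k2 : 2 * A * cosh (dist m z) ≤ 2 * B ^ 2 - 1 + (2 * C ^ 2 - 1) := by
    have := mul_le_mul_of_nonneg_left a1 (by positivity : 0 ≤ 2 * A)
    rwa [mul_add, ← mul_assoc, ← mul_assoc, e1, one_mul, one_mul] at this
  have k3 : 2 * B * cosh (dist m n) ≤ A + cosh (dist m z) := by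
    have := mul_le_mul_of_nonneg_left a2 (by positivity : 0 ≤ 2 * B)
    rwa [mul_add, ← mul_assoc, ← mul_assoc, e2, one_mul, one_mul] at this
  refine le_of_mul_le_mul_left ?_ (by positivity : 0 < 4 * A * B)
  nlinarith [mul_le_mul_of_nonneg_left k3 (by positivity : 0 ≤ 2 * A)]

end St

namespace ConeAlg

variable {C : Type*} [ConeAlg C]

/-- The time coordinate on the hyperboloid. -/
noncomputable def tm (a : C) : ℝ := √(1 + ip a a)

/-- Minus the Lorentz product on the hyperboloid. -/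
noncomputable def Lk (a b : C) : ℝ := tm a * tm b - ip a b

lemma tm_sq (a : C) : tm a ^ 2 = 1 + ip a a := sq_sqrt (by linarith [ip_self_nonneg a])

lemma one_le_tm (a : C) : 1 ≤ tm a := one_le_sqrt.2 (by linarith [ip_self_nonneg a])

lemma tm_pos (a : C) : 0 < tm a := one_pos.trans_le (one_le_tm a)

@[simp] lemma tm_o : tm (o : C) = 1 := by simp [tm, ip_o]

lemma Lk_comm (a b : C) : Lk a b = Lk b a := by rw [Lk, Lk, ip_comm, mul_comm]

lemma Lk_self (a : C) : Lk a a = 1 := by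
  rw [Lk, ← sq, tm_sq]
  ring

lemma two_Lk (a b : C) : 2 * (Lk a b - 1) = dist a b ^ 2 - (tm a - tm b) ^ 2 := by
  rw [Lk, dist_sq, sub_sq, tm_sq, tm_sq]
  ring

lemma tm_sub_mul (a b : C) : |tm a - tm b| * (tm a + tm b) ≤ dist a b * (nm a + nm b) := by
  have h1 : (tm a - tm b) * (tm a + tm b) = (nm a - nm b) * (nm a + nm b) := by
    have := tm_sq a
    have := tm_sq b
    have := nm_sq a
    have := nm_sq b
    linarith
  have h2 : 0 ≤ nm a + nm b := add_nonneg (nm_nonneg a) (nm_nonneg b)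
  rw [← abs_of_pos (add_pos (tm_pos a) (tm_pos b)), ← abs_mul, h1, abs_mul, abs_of_nonneg h2]
  exact mul_le_mul_of_nonneg_right (abs_dist_sub_le a b o) h2

lemma nm_mul_le {a : C} {R : ℝ} (h : nm a ≤ R) : √(1 + R ^ 2) * nm a ≤ R * tm a := by
  have h0 := nm_nonneg a
  have hR := h0.trans h
  refine (sq_le_sq₀ (by positivity) (mul_nonneg hR (tm_pos a).le)).1 ?_
  rw [mul_pow, mul_pow, sq_sqrt (by positivity), tm_sq, ← nm_sq]
  nlinarith [pow_le_pow_left₀ h0 h 2]

lemma dist_sq_le_Lk {a b : C} {R : ℝ} (ha : nm a ≤ R) (hb : nm b ≤ R) :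
    dist a b ^ 2 ≤ (1 + R ^ 2) * (2 * (Lk a b - 1)) := by
  have hR := (nm_nonneg a).trans ha
  have h1 : √(1 + R ^ 2) * |tm a - tm b| ≤ R * dist a b := by
    refine le_of_mul_le_mul_right ?_ (add_pos (tm_pos a) (tm_pos b))
    have h2 := mul_le_mul_of_nonneg_left (tm_sub_mul a b) (sqrt_nonneg (1 + R ^ 2))
    have h3 := mul_le_mul_of_nonneg_left (add_le_add (nm_mul_le ha) (nm_mul_le hb))
      (dist_nonneg (x := a) (y := b))
    nlinarith
  have h4 := pow_le_pow_left₀ (by positivity) h1 2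
  rw [mul_pow, mul_pow, sq_sqrt (by positivity), sq_abs] at h4
  rw [two_Lk]
  nlinarith

lemma one_le_Lk (a b : C) : 1 ≤ Lk a b := by
  have h := dist_sq_le_Lk (le_max_left (nm a) (nm b)) (le_max_right _ _)
  have h2 : 0 ≤ (1 + max (nm a) (nm b) ^ 2) * (2 * (Lk a b - 1)) := (sq_nonneg _).trans h
  have := nonneg_of_mul_nonneg_right h2 (by positivity)
  linarith

lemma eq_of_Lk {a b : C} (h : Lk a b = 1) : a = b := by
  have h1 := dist_sq_le_Lk (le_max_left (nm a) (nm b)) (le_max_right _ _)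
  rw [h, sub_self, mul_zero, mul_zero] at h1
  exact dist_eq_zero.1 (pow_eq_zero_iff two_ne_zero |>.1 (le_antisymm h1 (sq_nonneg _)))

lemma tm_comb {a b : C} {l m : ℝ} (hl : 0 ≤ l) (hm : 0 ≤ m)
    (h : l ^ 2 + m ^ 2 + 2 * l * m * Lk a b = 1) :
    tm (ad (sm l a) (sm m b)) = l * tm a + m * tm b := by
  refine (sq_eq_sq₀ (tm_pos _).le (add_nonneg (mul_nonneg hl (tm_pos a).le)
    (mul_nonneg hm (tm_pos b).le))).1 ?_
  rw [tm_sq, add_sq, mul_pow, mul_pow, tm_sq, tm_sq]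
  simp only [ad_sq, ip_sm hl, ip_sm' hl, ip_sm hm, ip_sm' hm]
  rw [Lk] at h
  linarith

/-- The hyperbolic geodesic. -/
noncomputable def hgeo (a b : C) (t : ℝ) : C :=
  ad (sm (hco (arcosh (Lk a b)) (1 - t)) a) (sm (hco (arcosh (Lk a b)) t) b)

lemma tm_hgeo (a b : C) {t : ℝ} (ht : t ∈ Icc (0 : ℝ) 1) : tm (hgeo a b t) =
    hco (arcosh (Lk a b)) (1 - t) * tm a + hco (arcosh (Lk a b)) t * tm b := by
  have hD := arcosh_nonneg (one_le_Lk a b)
  refine tm_comb (hco_nonneg hD (sub_nonneg.2 ht.2)) (hco_nonneg hD ht.1) ?_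
  have h0 := hco_id (arcosh (Lk a b)) 0 t
  have h1 := hco_id (arcosh (Lk a b)) 1 t
  have h2 := hco_id (arcosh (Lk a b)) t t
  simp only [zero_mul, cosh_zero, sub_zero, one_mul, mul_one, sub_self, zero_sub, neg_mul, cosh_neg,
    cosh_arcosh (one_le_Lk a b)] at h0 h1 h2
  rw [← h0, ← h1] at h2
  linarith

lemma Lk_hgeo (x a b : C) {t : ℝ} (ht : t ∈ Icc (0 : ℝ) 1) : Lk x (hgeo a b t) ≤
    hco (arcosh (Lk a b)) (1 - t) * Lk x a + hco (arcosh (Lk a b)) t * Lk x b := by
  have hD := arcosh_nonneg (one_le_Lk a b)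
  have h := ip_ad x (sm (hco (arcosh (Lk a b)) (1 - t)) a) (sm (hco (arcosh (Lk a b)) t) b)
  rw [ip_sm' (hco_nonneg hD (sub_nonneg.2 ht.2)), ip_sm' (hco_nonneg hD ht.1)] at h
  have e := tm_hgeo a b ht
  change ip x (hgeo a b t) ≥ _ at h
  change tm x * tm (hgeo a b t) - ip x (hgeo a b t) ≤
    _ * (tm x * tm a - ip x a) + _ * (tm x * tm b - ip x b)
  rw [e]
  linarith

lemma arcosh_Lk_triangle (a x b : C) :
    arcosh (Lk a b) ≤ arcosh (Lk a x) + arcosh (Lk x b) := by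
  by_contra hlt
  rw [not_le] at hlt
  have hα := arcosh_nonneg (one_le_Lk a x)
  have hβ := arcosh_nonneg (one_le_Lk x b)
  have e1 := cosh_arcosh (one_le_Lk a x)
  have e2 := cosh_arcosh (one_le_Lk x b)
  have key := fun t ht => (one_le_Lk _ _).trans (Lk_hgeo x a b (t := t) ht)
  rw [Lk_comm x a, ← e1, ← e2] at key
  generalize arcosh (Lk a x) = α at *
  generalize arcosh (Lk x b) = β at *
  generalize arcosh (Lk a b) = D at *
  have hD : 0 < D := by linarith
  have h1 := mul_le_mul_of_nonneg_left (key ((D + α - β) / 2 / D)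
    ⟨div_nonneg (by linarith) hD.le, (div_le_one hD).2 (by linarith)⟩) (sinh_pos_iff.2 hD).le
  rw [mul_add, ← mul_assoc, ← mul_assoc, sinh_mul_hco, sinh_mul_hco, sub_mul, one_mul,
    div_mul_cancel₀ _ hD.ne', mul_one] at h1
  generalize hu : (D + α - β) / 2 = u at h1
  have h2 : cosh α < cosh u := cosh_lt_cosh.2 (by
    rw [abs_of_nonneg hα, abs_of_nonneg (by linarith)]
    linarith)
  have h3 : cosh β ≤ cosh (D - u) := cosh_mono hβ (by linarith)
  have h4 := sinh_add (D - u) u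
  rw [sub_add_cancel] at h4
  nlinarith [mul_lt_mul_of_pos_left h2 (sinh_pos_iff.2 (by linarith : 0 < D - u)),
    mul_le_mul_of_nonneg_left h3 (sinh_nonneg_iff.2 (by linarith : 0 ≤ u))]

end ConeAlg

/-- The hyperbolic model over a cone algebra. -/
@[ext] structure Hyp (C : Type*) where
  /-- The space coordinate. -/
  val : C

namespace Hyp

open ConeAlg

variable {C : Type*} [ConeAlg C]

noncomputable instance : MetricSpace (Hyp C) where
  dist a b := arcosh (Lk a.val b.val)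
  dist_self a := by rw [Lk_self, arcosh_zero]
  dist_comm a b := by rw [Lk_comm]
  dist_triangle a x b := arcosh_Lk_triangle _ _ _
  eq_of_dist_eq_zero h := Hyp.ext (eq_of_Lk ((arcosh_eq_zero_iff (one_le_Lk _ _)).1 h))

lemma dist_def (a b : Hyp C) : dist a b = arcosh (Lk a.val b.val) := rfl

lemma cosh_dist (a b : Hyp C) : cosh (dist a b) = Lk a.val b.val := cosh_arcosh (one_le_Lk _ _)

/-- The geodesic of the hyperbolic model. -/
noncomputable def geo (a b : Hyp C) (t : ℝ) : Hyp C := ⟨hgeo a.val b.val t⟩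

@[simp] lemma geo_zero (a b : Hyp C) : geo a b 0 = a := by simp [geo, hgeo]

@[simp] lemma geo_one (a b : Hyp C) : geo a b 1 = b := by simp [geo, hgeo]

lemma stPt_geo (a b : Hyp C) {t : ℝ} (ht : t ∈ Icc (0 : ℝ) 1) : StPt univ a b t (geo a b t) :=
  fun x _ => by
    rw [cosh_dist, cosh_dist, cosh_dist]
    exact Lk_hgeo _ _ _ ht

lemma st_univ : St (univ : Set (Hyp C)) := fun a _ b _ _ ht => ⟨_, trivial, stPt_geo a b ht⟩

lemma st_ball (x : Hyp C) (r : ℝ) : St (Metric.ball x r) := by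
  simpa using st_univ.inter_ball (mem_univ x) r

lemma dist_geo_geo (a b : Hyp C) {s t : ℝ} (hs : s ∈ Icc (0 : ℝ) 1) (ht : t ∈ Icc (0 : ℝ) 1) :
    dist (geo a b s) (geo a b t) = |s - t| * dist a b :=
  (stPt_geo a b ht).dist_eq (stPt_geo a b hs) trivial trivial trivial ht hs

lemma eq_geo {a b q : Hyp C} {t : ℝ} (ht : t ∈ Icc (0 : ℝ) 1) (h1 : dist a q ≤ t * dist a b)
    (h2 : dist q b ≤ (1 - t) * dist a b) : q = geo a b t :=
  (stPt_geo a b ht).unique ht trivial h1 h2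

lemma geo_mem_ball {x a b : Hyp C} {r t : ℝ} (ha : a ∈ Metric.ball x r) (hb : b ∈ Metric.ball x r)
    (ht : t ∈ Icc (0 : ℝ) 1) : geo a b t ∈ Metric.ball x r :=
  Metric.mem_ball'.2 (((stPt_geo a b ht).le_max ht (mem_univ x)).trans_lt
    (max_lt (Metric.mem_ball'.1 ha) (Metric.mem_ball'.1 hb)))

lemma sinh_half_sq (a b : Hyp C) :
    (2 * sinh (dist a b / 2)) ^ 2 = 2 * (Lk a.val b.val - 1) := by
  have := cosh_two_mul (dist a b / 2)
  rw [show 2 * (dist a b / 2) = dist a b by ring, cosh_sq, cosh_dist] at this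
  linarith

lemma dist_le_val (a b : Hyp C) : dist a b ≤ dist a.val b.val := by
  have h1 : 2 * sinh (dist a b / 2) ≤ dist a.val b.val := by
    have := sinh_nonneg_iff.2 (by positivity : 0 ≤ dist a b / 2)
    refine (sq_le_sq₀ (by positivity) dist_nonneg).1 ?_
    rw [sinh_half_sq, two_Lk]
    linarith [sq_nonneg (tm a.val - tm b.val)]
  linarith [self_le_sinh_iff.2 (by positivity : 0 ≤ dist a b / 2)]

lemma dist_val_le {a b : Hyp C} {R : ℝ} (ha : nm a.val ≤ R) (hb : nm b.val ≤ R) :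
    dist a.val b.val ≤ √(1 + R ^ 2) * (2 * sinh (dist a b / 2)) := by
  have := sinh_nonneg_iff.2 (by positivity : 0 ≤ dist a b / 2)
  refine (sq_le_sq₀ dist_nonneg (by positivity)).1 ?_
  rw [mul_pow, sq_sqrt (by positivity), sinh_half_sq]
  exact dist_sq_le_Lk ha hb

lemma cosh_dist_o (a : Hyp C) : cosh (dist a ⟨o⟩) = tm a.val := by
  rw [cosh_dist, Lk, ip_o', tm_o, mul_one, sub_zero]

lemma sinh_dist_o (a : Hyp C) : sinh (dist a ⟨o⟩) = nm a.val := by
  refine (sq_eq_sq₀ (sinh_nonneg_iff.2 dist_nonneg) (nm_nonneg _)).1 ?_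
  rw [sinh_sq, cosh_dist_o, tm_sq, nm_sq]
  ring

lemma continuous_mk : Continuous (Hyp.mk : C → Hyp C) :=
  (LipschitzWith.of_dist_le_mul (K := 1) fun a b => by
    simpa using dist_le_val (⟨a⟩ : Hyp C) ⟨b⟩).continuous

lemma continuous_val : Continuous (Hyp.val : Hyp C → C) := by
  have hn : Continuous fun a : Hyp C => nm a.val := by
    simp only [← sinh_dist_o]
    fun_prop
  refine continuous_iff_continuousAt.2 fun b => tendsto_iff_dist_tendsto_zero.2
    (squeeze_zero (fun _ => dist_nonneg)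
      (fun a => dist_val_le (le_max_left (nm a.val) (nm b.val)) (le_max_right _ _)) ?_)
  have : Continuous fun a : Hyp C =>
      √(1 + max (nm a.val) (nm b.val) ^ 2) * (2 * sinh (dist a b / 2)) := by fun_prop
  simpa using this.tendsto b

/-- The model is homeomorphic to its tangent cone. -/
def homeo : Hyp C ≃ₜ C where
  toFun := Hyp.val
  invFun := Hyp.mk
  left_inv _ := rfl
  right_inv _ := rfl
  continuous_toFun := continuous_val
  continuous_invFun := continuous_mk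

instance [ProperSpace C] : ProperSpace (Hyp C) :=
  properSpace_of_cover (X := C) ⟨o⟩ fun r =>
    ⟨Metric.closedBall o (sinh r), _, isCompact_closedBall _ _, continuous_mk.continuousOn,
      fun a ha => ⟨a.val, (sinh_dist_o a).ge.trans (sinh_le_sinh.2 ha), rfl⟩⟩

/-- Chain lemma on a convex set covered by finitely many closed sets. -/
lemma chain {Y ι : Type*} [PseudoMetricSpace Y] [Finite ι] {U : Set (Hyp C)}
    (hU : ∀ a ∈ U, ∀ b ∈ U, ∀ t ∈ Icc (0 : ℝ) 1, geo a b t ∈ U) (S : ι → Set (Hyp C))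
    (hS : ∀ i, IsClosed (S i)) (hcov : ∀ a ∈ U, ∃ i, a ∈ S i) (f : Hyp C → Y) {K : ℝ} (hK : 0 ≤ K)
    (hf : ∀ i, ∀ x ∈ S i, x ∈ U → ∀ y ∈ S i, y ∈ U → dist (f x) (f y) ≤ K * dist x y)
    {a b : Hyp C} (ha : a ∈ U) (hb : b ∈ U) : dist (f a) (f b) ≤ K * dist a b := by
  let γ : ℝ → U := fun t => ⟨geo a b (projIcc 0 1 zero_le_one t), hU a ha b hb _ (Subtype.prop _)⟩
  have hγ : ∀ t ∈ Icc (0 : ℝ) 1, (γ t : Hyp C) = geo a b t := fun t ht => by
    simp only [γ, projIcc_of_mem _ ht]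
  have := chain_path (fun i => (Subtype.val ⁻¹' S i : Set U))
    (fun i => (hS i).preimage continuous_subtype_val) (fun x => f x.1) (D := dist a b) hK
    (fun i x hx y hy => hf i x hx x.2 y hy y.2) γ
    (fun s hs t ht => by rw [Subtype.dist_eq, hγ s hs, hγ t ht, dist_geo_geo a b hs ht])
    (fun t _ => hcov _ (γ t).2)
  simpa [hγ] using this

end Hyp

end Pool.Agent.Lib.MP_c2693b_gt
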