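import Pool.Agent.Lib.MP_c2693b_gt.Defs
import Pool.Agent.Lib.MP_c2693b_gt.ConeHyp

/-! The hyperbolic Stewart inequality gives the CAT(-1) comparison inequality. -/

set_option autoImplicit false

namespace Pool.Agent.Lib.MP_c2693b_gt

open Set Real
open scoped UpperHalfPlane

namespace Cat

/-- Hyperboloid coordinates of a point of the upper half plane. -/
noncomputable def cT (z : ℍ) : ℝ := (z.re ^ 2 + z.im ^ 2 + 1) / (2 * z.im)
/-- Hyperboloid coordinates of a point of the upper half plane. -/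
noncomputable def cA (z : ℍ) : ℝ := (z.re ^ 2 + z.im ^ 2 - 1) / (2 * z.im)
/-- Hyperboloid coordinates of a point of the upper half plane. -/
noncomputable def cB (z : ℍ) : ℝ := z.re / z.im

theorem cosh_eq (z w : ℍ) : cosh (dist z w) = cT z * cT w - cA z * cA w - cB z * cB w := by
  have hz := z.im_pos.ne'
  have hw := w.im_pos.ne'
  rw [UpperHalfPlane.cosh_dist', cT, cT, cA, cA, cB, cB]
  field_simp
  ring

theorem seg_left {X : Type} [MetricSpace X] {γ : ℝ → X} {x y : X} (h : IsSeg γ x y) {s : ℝ}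
    (hs : s ∈ Icc (0 : ℝ) 1) : dist x (γ s) = s * dist x y := by
  have := h.2.2 0 ⟨le_rfl, zero_le_one⟩ s hs
  rwa [h.1, zero_sub, abs_neg, abs_of_nonneg hs.1] at this

theorem seg_right {X : Type} [MetricSpace X] {γ : ℝ → X} {x y : X} (h : IsSeg γ x y) {s : ℝ}
    (hs : s ∈ Icc (0 : ℝ) 1) : dist (γ s) y = (1 - s) * dist x y := by
  have := h.2.2 s hs 1 ⟨zero_le_one, le_rfl⟩
  rwa [h.2.1, abs_sub_comm, abs_of_nonneg (sub_nonneg.2 hs.2)] at this

/-- Stewart's identity in the hyperbolic plane. -/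
theorem stewart {x y m : ℍ} {s : ℝ} (h1 : dist x m = s * dist x y)
    (h2 : dist m y = (1 - s) * dist x y) (w : ℍ) :
    cosh (dist w m) = hco (dist x y) (1 - s) * cosh (dist w x) +
      hco (dist x y) s * cosh (dist w y) := by
  set D := dist x y with hD
  set α := hco D (1 - s) with hα
  set β := hco D s with hβ
  have i0 : α * cosh (s * D) + β * cosh ((1 - s) * D) = 1 := by
    have := hco_id D s s
    rwa [sub_self, zero_mul, cosh_zero] at this
  have i1 : α + β * cosh D = cosh (s * D) := by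
    have := hco_id D 0 s
    rwa [zero_mul, cosh_zero, mul_one, sub_zero, one_mul, zero_sub, neg_mul, cosh_neg] at this
  have i2 : α * cosh D + β = cosh ((1 - s) * D) := by
    have := hco_id D 1 s
    rwa [one_mul, sub_self, zero_mul, cosh_zero, mul_one] at this
  have xx := cosh_eq x x
  have yy := cosh_eq y y
  have mm := cosh_eq m m
  rw [dist_self, cosh_zero] at xx yy mm
  have xm := cosh_eq x m
  have my := cosh_eq m y
  have xy := cosh_eq x y
  rw [h1] at xm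
  rw [h2] at my
  rw [← hD] at xy
  obtain ⟨v0, e0⟩ : ∃ v, v = cT m - α * cT x - β * cT y := ⟨_, rfl⟩
  obtain ⟨v1, e1⟩ : ∃ v, v = cA m - α * cA x - β * cA y := ⟨_, rfl⟩
  obtain ⟨v2, e2⟩ : ∃ v, v = cB m - α * cB x - β * cB y := ⟨_, rfl⟩
  have p1 : cT m * v0 = cA m * v1 + cB m * v2 := by
    rw [e0, e1, e2]
    linear_combination (-1) * mm + α * xm + β * my - i0
  have p2 : v0 ^ 2 = v1 ^ 2 + v2 ^ 2 := by
    rw [e0, e1, e2]
    linear_combination (-1) * mm - α ^ 2 * xx - β ^ 2 * yy + 2 * α * xm + 2 * β * my -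
      2 * α * β * xy - i0 + α * i1 + β * i2
  have p3 : v0 ^ 2 + (cA m * v2 - cB m * v1) ^ 2 = 0 := by
    linear_combination v0 ^ 2 * mm + (cT m * v0 + (cA m * v1 + cB m * v2)) * p1 -
      (cA m ^ 2 + cB m ^ 2) * p2
  have sq0 : ∀ a b : ℝ, a ^ 2 + b ^ 2 = 0 → a = 0 := fun a b e =>
    pow_eq_zero_iff two_ne_zero |>.1 (le_antisymm (by linarith [sq_nonneg b]) (sq_nonneg a))
  have z0 : v0 = 0 := sq0 _ _ p3
  have z1 : v1 = 0 := sq0 v1 v2 (by rw [← p2, z0]; ring)
  have z2 : v2 = 0 := sq0 v2 v1 (by rw [add_comm, ← p2, z0]; ring)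
  rw [z0] at e0
  rw [z1] at e1
  rw [z2] at e2
  rw [cosh_eq, cosh_eq, cosh_eq]
  linear_combination (-cT w) * e0 + cA w * e1 + cB w * e2

end Cat

open Cat

theorem St.geodesicIn {X : Type} [MetricSpace X] {S : Set X} (h : St S) : GeodesicIn S := by
  intro a ha b hb
  have : Nonempty X := ⟨a⟩
  choose! γ hS hγ using h a ha b hb
  have h0 : (0 : ℝ) ∈ Icc (0 : ℝ) 1 := ⟨le_rfl, zero_le_one⟩
  have h1 : (1 : ℝ) ∈ Icc (0 : ℝ) 1 := ⟨zero_le_one, le_rfl⟩
  refine ⟨γ, ⟨?_, ?_, fun s hs t ht => (hγ t ht).dist_eq (hγ s hs) ha hb (hS s hs) ht hs⟩, hS⟩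
  · have := (hγ 0 h0).left_le ha h0
    rw [zero_mul] at this
    exact (dist_le_zero.1 this).symm
  · have := (hγ 1 h1).right_le hb h1
    rw [sub_self, zero_mul] at this
    exact dist_le_zero.1 this

/-- A set with the hyperbolic Stewart inequality is CAT(-1). -/
theorem St.isCATneg {X : Type} [MetricSpace X] {S : Set X} (h : St S) : IsCATneg S := by
  refine ⟨h.geodesicIn, ?_⟩
  intro x y z γ δ hγ hδ hS x' y' z' γ' δ' hγ' hδ' exy exz eyz s hs t ht
  have h0 : (0 : ℝ) ∈ Icc (0 : ℝ) 1 := ⟨le_rfl, zero_le_one⟩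
  have h1 : (1 : ℝ) ∈ Icc (0 : ℝ) 1 := ⟨zero_le_one, le_rfl⟩
  have hx : x ∈ S := hγ.1 ▸ (hS 0 h0).1
  have hy : y ∈ S := hγ.2.1 ▸ (hS 1 h1).1
  have hz : z ∈ S := hδ.2.1 ▸ (hS 1 h1).2
  have a1 := h.stPt hx hy hs (hS s hs).1 (seg_left hγ hs).le (seg_right hγ hs).le z hz
  have a2 := h.stPt hx hz ht (hS t ht).2 (seg_left hδ ht).le (seg_right hδ ht).le _ (hS s hs).1
  have b1 := stewart (seg_left hγ' hs) (seg_right hγ' hs) z'
  have b2 := stewart (seg_left hδ' ht) (seg_right hδ' ht) (γ' s)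
  rw [dist_comm z' x', dist_comm z' y', exy, exz, eyz] at b1
  rw [dist_comm (γ' s) x', dist_comm (γ' s) z', seg_left hγ' hs, exy, exz] at b2
  rw [dist_comm z x, dist_comm z y] at a1
  rw [dist_comm (γ s) x, dist_comm (γ s) z, seg_left hγ hs] at a2
  refine le_of_cosh_le dist_nonneg (a2.trans ?_)
  rw [b2, b1]
  have := mul_le_mul_of_nonneg_left a1 (hco_nonneg (dist_nonneg (x := x) (y := z)) ht.1)
  linarith

end Pool.Agent.Lib.MP_c2693b_gt
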