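import Mathlib

namespace Pool.Agent.Lib.MP_c2693b_gt

open Set

/-- A continuous function which is midpoint convex at one scale at every point is convex. -/
lemma loc_convex {f : ℝ → ℝ} (hf : ContinuousOn f (Icc 0 1))
    (h : ∀ t ∈ Ioo (0 : ℝ) 1, ∃ e, 0 < e ∧ e ≤ t ∧ e ≤ 1 - t ∧ 2 * f t ≤ f (t - e) + f (t + e))
    {t : ℝ} (ht : t ∈ Icc (0 : ℝ) 1) : f t ≤ (1 - t) * f 0 + t * f 1 := by
  let g : ℝ → ℝ := fun s => f s - ((1 - s) * f 0 + s * f 1)
  have hg : ContinuousOn g (Icc 0 1) := hf.sub (by fun_prop)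
  obtain ⟨m, hm, hmax⟩ := isCompact_Icc.exists_isMaxOn ⟨t, ht⟩ hg
  by_contra hlt
  have hpos : 0 < g m := lt_of_lt_of_le (sub_pos.2 (not_le.1 hlt)) (hmax ht)
  have hK : IsCompact (Icc (0 : ℝ) 1 ∩ g ⁻¹' {g m}) :=
    isCompact_Icc.of_isClosed_subset
      (hg.preimage_isClosed_of_isClosed isClosed_Icc isClosed_singleton) inter_subset_left
  obtain ⟨s, hs, hmin⟩ := hK.exists_isLeast ⟨m, hm, rfl⟩
  have hgs : g s = g m := hs.2
  have h0 : s ≠ 0 := by
    rintro rfl
    simp [g] at hgs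
    simp [g] at hpos
    linarith
  have h1 : s ≠ 1 := by
    rintro rfl
    simp [g] at hgs
    simp [g] at hpos
    linarith
  obtain ⟨e, e0, e1, e2, he⟩ := h s ⟨lt_of_le_of_ne hs.1.1 h0.symm, lt_of_le_of_ne hs.1.2 h1⟩
  have m1 : s - e ∈ Icc (0 : ℝ) 1 := ⟨by linarith, by linarith [hs.1.2]⟩
  have m2 : s + e ∈ Icc (0 : ℝ) 1 := ⟨by linarith [hs.1.1], by linarith⟩
  have a1 : g (s - e) ≤ g m := hmax m1
  have a2 : g (s + e) ≤ g m := hmax m2
  have a3 : 2 * g s ≤ g (s - e) + g (s + e) := by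
    simp only [g]
    linarith
  have a4 : s ≤ s - e := hmin ⟨m1, le_antisymm a1 (by linarith)⟩
  linarith

/-- A map on an interval that is Lipschitz at every point is Lipschitz. -/
lemma dist_le_of_loc {Y : Type*} [PseudoMetricSpace Y] {g : ℝ → Y} {a b K : ℝ} (hab : a ≤ b)
    (h : ∀ t ∈ Icc a b, ∀ᶠ s in nhdsWithin t (Icc a b), dist (g s) (g t) ≤ K * |s - t|) :
    dist (g a) (g b) ≤ K * (b - a) := by
  have hc : ContinuousOn g (Icc a b) := fun t ht => by
    refine tendsto_iff_dist_tendsto_zero.2 (squeeze_zero' (Filter.Eventually.of_forall fun _ =>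
      dist_nonneg) (h t ht) ?_)
    have : Continuous fun s : ℝ => K * |s - t| := by fun_prop
    simpa using (this.tendsto t).mono_left nhdsWithin_le_nhds
  have key : Icc a b ⊆ {t | dist (g a) (g t) ≤ K * (t - a)} := by
    refine IsClosed.Icc_subset_of_forall_mem_nhdsWithin ?_ (by simp) fun t ht => ?_
    · rw [inter_comm]
      have h0 : ContinuousOn (fun t => dist (g a) (g t)) (Icc a b) :=
        continuous_dist.comp_continuousOn (continuousOn_const.prodMk hc)
      exact isClosed_Icc.isClosed_le h0 (by fun_prop)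
    · have h1 : nhdsWithin t (Ioi t) ≤ nhdsWithin t (Icc a b) :=
        nhdsWithin_le_iff.2 (Filter.mem_of_superset (Ioc_mem_nhdsGT ht.2.2)
          fun s hs => ⟨ht.2.1.trans hs.1.le, hs.2⟩)
      filter_upwards [h1 (h t ⟨ht.2.1, ht.2.2.le⟩), self_mem_nhdsWithin] with s hs hts
      have h2 : dist (g a) (g t) ≤ K * (t - a) := ht.1
      have h3 : dist (g s) (g t) ≤ K * |s - t| := hs
      rw [abs_of_pos (sub_pos.2 hts), dist_comm] at h3
      show dist (g a) (g s) ≤ K * (s - a)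
      linarith [dist_triangle (g a) (g t) (g s)]
  exact key (right_mem_Icc.2 hab)

/-- Chain lemma along a path. -/
lemma chain_path {X Y ι : Type*} [PseudoMetricSpace X] [PseudoMetricSpace Y] [Finite ι]
    (S : ι → Set X) (hS : ∀ i, IsClosed (S i)) (f : X → Y) {K D : ℝ} (hK : 0 ≤ K)
    (hf : ∀ i, ∀ x ∈ S i, ∀ y ∈ S i, dist (f x) (f y) ≤ K * dist x y) (γ : ℝ → X)
    (hγ : ∀ s ∈ Icc (0 : ℝ) 1, ∀ t ∈ Icc (0 : ℝ) 1, dist (γ s) (γ t) ≤ |s - t| * D)
    (hcov : ∀ t ∈ Icc (0 : ℝ) 1, ∃ i, γ t ∈ S i) : dist (f (γ 0)) (f (γ 1)) ≤ K * D := by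
  have := dist_le_of_loc (g := fun t => f (γ t)) (K := K * D) zero_le_one fun t ht => by
    have hc : ContinuousWithinAt γ (Icc 0 1) t := by
      refine tendsto_iff_dist_tendsto_zero.2 (squeeze_zero' (Filter.Eventually.of_forall fun _ =>
        dist_nonneg) (eventually_nhdsWithin_of_forall fun s hs => hγ s hs t ht) ?_)
      have : Continuous fun s : ℝ => |s - t| * D := by fun_prop
      simpa using (this.tendsto t).mono_left nhdsWithin_le_nhds
    have h1 : ∀ i, ∀ᶠ s in nhdsWithin t (Icc 0 1), γ s ∈ S i → γ t ∈ S i := fun i => by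
      by_cases hi : γ t ∈ S i
      · exact Filter.Eventually.of_forall fun _ _ => hi
      · filter_upwards [hc ((hS i).isOpen_compl.mem_nhds hi)] with s hs h2
        exact absurd h2 hs
    filter_upwards [Filter.eventually_all.2 h1, self_mem_nhdsWithin] with s hs hs'
    obtain ⟨i, hi⟩ := hcov s hs'
    calc dist (f (γ s)) (f (γ t)) ≤ K * dist (γ s) (γ t) := hf i _ hi _ (hs i hi)
      _ ≤ K * (|s - t| * D) := mul_le_mul_of_nonneg_left (hγ s hs' t ht) hK
      _ = K * D * |s - t| := by ring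
  simpa using this

/-- The triangle inequality follows from the comparison inequality for squares. -/
lemma sqrt_tri {A B D : ℝ} (hA : 0 ≤ A) (hB : 0 ≤ B)
    (h : ∀ t ∈ Icc (0 : ℝ) 1, t * (1 - t) * D ≤ (1 - t) * A + t * B) : √D ≤ √A + √B := by
  have ha := Real.sqrt_nonneg A
  have hb := Real.sqrt_nonneg B
  refine Real.sqrt_le_iff.2 ⟨by positivity, ?_⟩
  rw [← Real.sq_sqrt hA, ← Real.sq_sqrt hB] at h
  generalize √A = a at *
  generalize √B = b at *
  have key : ∀ e : ℝ, 0 < e → D ≤ (a + b + 2 * e) ^ 2 := by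
    intro e he
    have hs : 0 < a + b + 2 * e := by linarith
    have h1 := h ((a + e) / (a + b + 2 * e)) ⟨by positivity, (div_le_one hs).2 (by linarith)⟩
    have e1 : 1 - (a + e) / (a + b + 2 * e) = (b + e) / (a + b + 2 * e) := by
      field_simp
      ring
    rw [e1] at h1
    have h2 : (a + e) * (b + e) * D ≤ (a + b + 2 * e) * ((b + e) * a ^ 2 + (a + e) * b ^ 2) := by
      have := mul_le_mul_of_nonneg_left h1 (sq_nonneg (a + b + 2 * e))
      field_simp at this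
      nlinarith
    have h3 : (b + e) * a ^ 2 + (a + e) * b ^ 2 ≤ (a + e) * (b + e) * (a + b + 2 * e) := by
      have p1 : a ^ 2 ≤ (a + e) ^ 2 := by nlinarith
      have p2 : b ^ 2 ≤ (b + e) ^ 2 := by nlinarith
      nlinarith [mul_le_mul_of_nonneg_left p1 (by linarith : 0 ≤ b + e),
        mul_le_mul_of_nonneg_left p2 (by linarith : 0 ≤ a + e)]
    have h4 : 0 < (a + e) * (b + e) := by positivity
    refine le_of_mul_le_mul_left (h2.trans ?_) h4
    nlinarith [mul_le_mul_of_nonneg_left h3 hs.le]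
  have hc : Continuous fun e : ℝ => (a + b + 2 * e) ^ 2 := by fun_prop
  have := ge_of_tendsto ((hc.tendsto 0).mono_left (nhdsWithin_le_nhds (s := Ioi 0)))
    (eventually_nhdsWithin_of_forall key)
  simpa using this

/-- A metric cone with a superadditive sum. -/
class ConeAlg (C : Type*) extends MetricSpace C where
  /-- The apex. -/
  o : C
  /-- Scaling by nonnegative numbers. -/
  sm : ℝ → C → C
  /-- The sum. -/
  ad : C → C → C
  /-- The kernel. -/
  ip : C → C → ℝ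
  ip_o : ∀ a, ip o a = 0
  ip_sm : ∀ {l : ℝ}, 0 ≤ l → ∀ a b, ip (sm l a) b = l * ip a b
  dist_sq : ∀ a b, dist a b ^ 2 = ip a a + ip b b - 2 * ip a b
  ip_ad : ∀ x a b, ip x a + ip x b ≤ ip x (ad a b)
  ad_sq : ∀ a b, ip (ad a b) (ad a b) = ip a a + ip b b + 2 * ip a b

namespace ConeAlg

variable {C : Type*} [ConeAlg C]

lemma ip_comm (a b : C) : ip a b = ip b a := by
  have h1 := dist_sq a b
  rw [dist_comm, dist_sq] at h1
  linarith

lemma ip_o' (a : C) : ip a o = 0 := by rw [ip_comm, ip_o]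

lemma ip_sm' {l : ℝ} (hl : 0 ≤ l) (a b : C) : ip a (sm l b) = l * ip a b := by
  rw [ip_comm, ip_sm hl, ip_comm]

lemma ip_ad' (x a b : C) : ip a x + ip b x ≤ ip (ad a b) x := by
  rw [ip_comm a, ip_comm b, ip_comm (ad a b)]
  exact ip_ad x a b

/-- The distance to the apex. -/
def nm (a : C) : ℝ := dist a o

lemma nm_nonneg (a : C) : 0 ≤ nm a := dist_nonneg

lemma nm_sq (a : C) : nm a ^ 2 = ip a a := by
  rw [nm, dist_sq, ip_o, ip_o']
  ring

lemma ip_self_nonneg (a : C) : 0 ≤ ip a a := nm_sq a ▸ sq_nonneg _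

lemma nm_eq_zero {a : C} : nm a = 0 ↔ a = o := dist_eq_zero

@[simp] lemma nm_o : nm (o : C) = 0 := dist_self _

lemma continuous_nm : Continuous (nm : C → ℝ) := continuous_id.dist continuous_const

lemma ip_eq (a b : C) : ip a b = (nm a ^ 2 + nm b ^ 2 - dist a b ^ 2) / 2 := by
  rw [nm_sq, nm_sq, dist_sq]
  ring

lemma continuous_ip : Continuous fun p : C × C => ip p.1 p.2 := by
  simp only [ip_eq]
  have := continuous_nm (C := C)
  fun_prop

lemma eq_of_ip {a b : C} (h : ip a a + ip b b ≤ 2 * ip a b) : a = b := by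
  have h1 := dist_sq a b
  exact dist_eq_zero.1 (pow_eq_zero_iff two_ne_zero |>.1 (le_antisymm (by linarith) (sq_nonneg _)))

lemma ext_ip {a b : C} (h : ∀ x, ip a x = ip b x) : a = b :=
  eq_of_ip (by rw [h a, ← h b, ip_comm b a]; linarith)

@[simp] lemma sm_one (a : C) : sm 1 a = a := ext_ip fun x => by rw [ip_sm zero_le_one, one_mul]

@[simp] lemma sm_zero (a : C) : sm 0 a = o := ext_ip fun x => by rw [ip_sm le_rfl, zero_mul, ip_o]

lemma sm_o {l : ℝ} (hl : 0 ≤ l) : sm l (o : C) = o :=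
  ext_ip fun x => by rw [ip_sm hl, ip_o, mul_zero]

lemma sm_sm {l m : ℝ} (hl : 0 ≤ l) (hm : 0 ≤ m) (a : C) : sm l (sm m a) = sm (l * m) a :=
  ext_ip fun x => by rw [ip_sm hl, ip_sm hm, ip_sm (mul_nonneg hl hm), mul_assoc]

lemma dist_sm {l : ℝ} (hl : 0 ≤ l) (a b : C) : dist (sm l a) (sm l b) = l * dist a b := by
  refine (sq_eq_sq₀ dist_nonneg (by positivity)).1 ?_
  simp only [mul_pow, dist_sq, ip_sm hl, ip_sm' hl]
  ring

lemma nm_sm {l : ℝ} (hl : 0 ≤ l) (a : C) : nm (sm l a) = l * nm a := by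
  rw [nm, nm, ← dist_sm hl, sm_o hl]

lemma dist_sm_sm {l m : ℝ} (hl : 0 ≤ l) (hm : 0 ≤ m) (a : C) :
    dist (sm l a) (sm m a) = |l - m| * nm a := by
  refine (sq_eq_sq₀ dist_nonneg (mul_nonneg (abs_nonneg _) (nm_nonneg a))).1 ?_
  simp only [mul_pow, dist_sq, ip_sm hl, ip_sm' hl, ip_sm hm, ip_sm' hm, sq_abs, nm_sq]
  ring

lemma ip_ad_left (a b : C) : ip a (ad a b) = ip a a + ip a b := by
  have h1 := ip_ad' (ad a b) a b
  have h2 := ip_ad a a b
  have h3 := ip_ad b a b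
  rw [ad_sq] at h1
  rw [ip_comm b a] at h3
  linarith

lemma ip_ad_right (a b : C) : ip b (ad a b) = ip a b + ip b b := by
  have h1 := ip_ad' (ad a b) a b
  have h2 := ip_ad a a b
  have h3 := ip_ad b a b
  rw [ad_sq] at h1
  rw [ip_comm b a] at h3
  linarith

lemma ad_comm (a b : C) : ad a b = ad b a := by
  refine eq_of_ip ?_
  have h1 := ip_ad' (ad b a) a b
  rw [ip_ad_right, ip_ad_left] at h1
  rw [ad_sq, ad_sq]
  rw [ip_comm b a] at *
  linarith

@[simp] lemma ad_o (a : C) : ad a o = a := by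
  refine eq_of_ip ?_
  rw [ad_sq, ip_comm (ad a o), ip_ad_left, ip_o, ip_o']
  linarith

@[simp] lemma o_ad (a : C) : ad o a = a := by rw [ad_comm, ad_o]

lemma sm_ad {l : ℝ} (hl : 0 ≤ l) (a b : C) : sm l (ad a b) = ad (sm l a) (sm l b) := by
  refine eq_of_ip ?_
  have h1 := ip_ad (sm l (ad a b)) (sm l a) (sm l b)
  simp only [ip_sm hl, ip_sm' hl, ad_sq] at h1 ⊢
  rw [ip_comm (ad a b) a, ip_comm (ad a b) b, ip_ad_left, ip_ad_right] at h1
  linarith

lemma ad_sm_sm {l m : ℝ} (hl : 0 ≤ l) (hm : 0 ≤ m) (a : C) :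
    ad (sm l a) (sm m a) = sm (l + m) a := by
  refine eq_of_ip ?_
  have h1 := ip_ad' (sm (l + m) a) (sm l a) (sm m a)
  simp only [ip_sm hl, ip_sm' hl, ip_sm hm, ip_sm' hm, ad_sq, ip_sm (add_nonneg hl hm),
    ip_sm' (add_nonneg hl hm)] at h1 ⊢
  linarith

lemma dist_ad_left (a b : C) : dist a (ad a b) = nm b := by
  refine (sq_eq_sq₀ dist_nonneg (nm_nonneg b)).1 ?_
  rw [dist_sq, ad_sq, ip_ad_left, nm_sq]
  ring

lemma abs_ip_le (a b : C) : |ip a b| ≤ nm a * nm b := by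
  have h1 := dist_triangle a o b
  have h2 := abs_dist_sub_le a b o
  rw [dist_comm o b] at h1
  have h3 : dist a b ^ 2 ≤ (nm a + nm b) ^ 2 := pow_le_pow_left₀ dist_nonneg h1 2
  have h4 : (nm a - nm b) ^ 2 ≤ dist a b ^ 2 := by
    rw [← sq_abs]
    exact pow_le_pow_left₀ (abs_nonneg _) h2 2
  rw [ip_eq, abs_le]
  constructor <;> nlinarith

lemma ip_le (a b : C) : ip a b ≤ nm a * nm b := (le_abs_self _).trans (abs_ip_le a b)

lemma bn_le (a b c e : C) : ip a c - ip b c - ip a e + ip b e ≤ dist a b * dist c e := by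
  have key : ∀ l : ℝ, 0 ≤ l →
      2 * l * (ip a c - ip b c - ip a e + ip b e) ≤ dist a b ^ 2 + l ^ 2 * dist c e ^ 2 := by
    intro l hl
    have h0 := sq_nonneg (dist (ad a (sm l e)) (ad b (sm l c)))
    have h1 := ip_ad' (ad b (sm l c)) a (sm l e)
    have h2 := ip_ad a b (sm l c)
    have h3 := ip_ad (sm l e) b (sm l c)
    rw [dist_sq, ad_sq, ad_sq] at h0
    simp only [ip_sm hl, ip_sm' hl] at h0 h1 h2 h3
    rw [dist_sq, dist_sq, ip_comm b e, ip_comm c e]
    linarith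
  have hab := dist_nonneg (x := a) (y := b)
  rcases (dist_nonneg (x := c) (y := e)).eq_or_lt with h | h
  · rw [dist_eq_zero.1 h.symm]
    simp
  · have h1 := key (dist a b / dist c e) (by positivity)
    rcases hab.eq_or_lt with h2 | h2
    · rw [dist_eq_zero.1 h2.symm]
      simp
    · rw [div_pow, div_mul_cancel₀ _ (by positivity), mul_div_assoc', div_mul_eq_mul_div,
        div_le_iff₀ h] at h1
      exact le_of_mul_le_mul_left (by nlinarith) h2

/-- The quadrilateral inequality of Berg and Nikolaev. -/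
lemma bn (a b c e : C) : |ip a c - ip b c - ip a e + ip b e| ≤ dist a b * dist c e := by
  have h1 := bn_le a b c e
  have h2 := bn_le b a c e
  rw [dist_comm b a] at h2
  exact abs_le.2 ⟨by linarith, h1⟩

lemma abs_ip_sub_le (a b c : C) : |ip a c - ip b c| ≤ dist a b * nm c := by
  simpa [ip_o', nm] using bn a b c o

lemma dist_ad_le (a b c : C) : dist (ad a c) (ad b c) ≤ dist a b := by
  refine (sq_le_sq₀ dist_nonneg dist_nonneg).1 ?_
  have h1 := ip_ad' (ad b c) a c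
  have h2 := ip_ad a b c
  rw [ip_ad_right] at h1
  rw [dist_sq, dist_sq, ad_sq, ad_sq]
  linarith

/-- The geodesic. -/
def geo (a b : C) (t : ℝ) : C := ad (sm (1 - t) a) (sm t b)

@[simp] lemma geo_zero (a b : C) : geo a b 0 = a := by simp [geo]

@[simp] lemma geo_one (a b : C) : geo a b 1 = b := by simp [geo]

/-- The comparison inequality. -/
lemma cn (x a b : C) {t : ℝ} (ht : t ∈ Icc (0 : ℝ) 1) : dist x (geo a b t) ^ 2 ≤
    (1 - t) * dist x a ^ 2 + t * dist x b ^ 2 - t * (1 - t) * dist a b ^ 2 := by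
  have h1 : 0 ≤ 1 - t := sub_nonneg.2 ht.2
  have h2 := ip_ad x (sm (1 - t) a) (sm t b)
  simp only [dist_sq, geo, ad_sq, ip_sm h1, ip_sm' h1, ip_sm ht.1, ip_sm' ht.1] at h2 ⊢
  linarith

/-- A cone algebra from a kernel. -/
@[reducible] noncomputable def ofKernel {C : Type*} (o : C) (sm : ℝ → C → C) (ad : C → C → C)
    (ip : C → C → ℝ) (comm : ∀ a b, ip a b = ip b a) (ip_o : ∀ a, ip o a = 0)
    (ip_sm : ∀ {l : ℝ}, 0 ≤ l → ∀ a b, ip (sm l a) b = l * ip a b)
    (c1 : ∀ a b, 2 * ip a b ≤ ip a a + ip b b)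
    (c1' : ∀ a b, ip a a + ip b b ≤ 2 * ip a b → a = b)
    (ip_ad : ∀ x a b, ip x a + ip x b ≤ ip x (ad a b))
    (ad_sq : ∀ a b, ip (ad a b) (ad a b) = ip a a + ip b b + 2 * ip a b) : ConeAlg C where
  dist a b := √(ip a a + ip b b - 2 * ip a b)
  dist_self a := by rw [show ip a a + ip a a - 2 * ip a a = 0 by ring, Real.sqrt_zero]
  dist_comm a b := by rw [comm b a, add_comm]
  dist_triangle a x b := by
    refine sqrt_tri (sub_nonneg.2 (c1 _ _)) (sub_nonneg.2 (c1 _ _)) fun t ht => ?_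
    have h1 : 0 ≤ 1 - t := sub_nonneg.2 ht.2
    have s' : ∀ {l : ℝ}, 0 ≤ l → ∀ a b, ip a (sm l b) = l * ip a b := fun hl a b => by
      rw [comm, ip_sm hl, comm]
    have h2 := ip_ad x (sm (1 - t) a) (sm t b)
    have h3 := c1 x (ad (sm (1 - t) a) (sm t b))
    simp only [ad_sq, ip_sm h1, s' h1, ip_sm ht.1, s' ht.1] at h2 h3
    rw [comm a x]
    linarith
  eq_of_dist_eq_zero h := c1' _ _ (by linarith [Real.sqrt_eq_zero'.1 h])
  o := o
  sm := sm
  ad := ad
  ip := ip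
  ip_o := ip_o
  ip_sm := ip_sm
  dist_sq a b := Real.sq_sqrt (sub_nonneg.2 (c1 a b))
  ip_ad := ip_ad
  ad_sq := ad_sq

end ConeAlg

end Pool.Agent.Lib.MP_c2693b_gt
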