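import Mathlib
import Pool.Agent.Lib.MP_c2693b_gt.Cone
import Pool.Agent.Lib.MP_c2693b_gt.Rays

/-! Comparison of the distance to a base point with a linear height in a hyperbolic cone chart. -/

namespace C2693.Br

open Set Metric Filter Topology Pool.Agent.Lib.MP_c2693b_gt Pool.Agent.Lib.MP_c2693b_gt.ConeAlg

variable {Y C : Type*} [MetricSpace Y] [ConeAlg C]

/-- `j` is a chart of the ball of radius `R` round `y` in the hyperbolic cone over `C`. -/
structure HChart (y : Y) (R : ℝ) (j : Y → C) : Prop where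
  pos : 0 < R
  ctr : j y = o
  cosh_dist : ∀ a ∈ ball y R, ∀ b ∈ ball y R,
    Real.cosh (dist a b) = √(1 + ip (j a) (j a)) * √(1 + ip (j b) (j b)) - ip (j a) (j b)
  onto : ∀ u : C, nm u < Real.sinh R → ∃ a ∈ ball y R, j a = u

theorem cosh_lower (d : ℝ) (hd : 0 ≤ d) : d ^ 2 ≤ 2 * (Real.cosh d - 1) := by
  have h1 := Real.cosh_two_mul (d / 2)
  have h2 := Real.cosh_sq (d / 2)
  have h3 : d / 2 ≤ Real.sinh (d / 2) := Real.self_le_sinh_iff.mpr (by linarith)
  rw [show 2 * (d / 2) = d by ring] at h1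
  nlinarith

theorem cosh_upper (d : ℝ) (hd : 0 ≤ d) (h1 : d ≤ 1) :
    2 * (Real.cosh d - 1) ≤ d ^ 2 * (1 + d ^ 2 / 2) := by
  have h2 := Real.cosh_le_exp_half_sq d
  have h3 : |d ^ 2 / 2| ≤ 1 := by rw [abs_of_nonneg (by positivity)]; nlinarith
  have h4 := (abs_le.mp (Real.abs_exp_sub_one_sub_id_le h3)).2
  nlinarith

theorem abs_sqrt_sub (a b : C) {m : ℝ} (ha : nm a ≤ m) (hb : nm b ≤ m) :
    |√(1 + ip a a) - √(1 + ip b b)| ≤ m * dist a b := by
  have a0 := nm_nonneg a
  have b0 := nm_nonneg b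
  have a1 : 1 ≤ √(1 + ip a a) := Real.one_le_sqrt.mpr (by linarith [ip_self_nonneg a])
  have b1 : 1 ≤ √(1 + ip b b) := Real.one_le_sqrt.mpr (by linarith [ip_self_nonneg b])
  have a2 := Real.sq_sqrt (show 0 ≤ 1 + ip a a by linarith [ip_self_nonneg a])
  have b2 := Real.sq_sqrt (show 0 ≤ 1 + ip b b by linarith [ip_self_nonneg b])
  have h1 : |nm a - nm b| ≤ dist a b := abs_dist_sub_le a b o
  have h2 : |√(1 + ip a a) - √(1 + ip b b)| * (√(1 + ip a a) + √(1 + ip b b)) =
      |nm a - nm b| * (nm a + nm b) := by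
    rw [← abs_of_nonneg (a := √(1 + ip a a) + √(1 + ip b b)) (by linarith),
      ← abs_of_nonneg (a := nm a + nm b) (by linarith), ← abs_mul, ← abs_mul]
    congr 1
    have := nm_sq a
    have := nm_sq b
    nlinarith
  have h3 := abs_nonneg (√(1 + ip a a) - √(1 + ip b b))
  have h4 : |nm a - nm b| * (nm a + nm b) ≤ dist a b * (2 * m) :=
    mul_le_mul h1 (by linarith) (by linarith) dist_nonneg
  nlinarith

variable {y : Y} {R : ℝ} {j : Y → C}

theorem HChart.sq (h : HChart y R j) {a b : Y} (ha : a ∈ ball y R) (hb : b ∈ ball y R) :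
    2 * (Real.cosh (dist a b) - 1) =
      dist (j a) (j b) ^ 2 - (√(1 + ip (j a) (j a)) - √(1 + ip (j b) (j b))) ^ 2 := by
  have a2 := Real.sq_sqrt (show 0 ≤ 1 + ip (j a) (j a) by linarith [ip_self_nonneg (j a)])
  have b2 := Real.sq_sqrt (show 0 ≤ 1 + ip (j b) (j b) by linarith [ip_self_nonneg (j b)])
  rw [h.cosh_dist a ha b hb, dist_sq]
  nlinarith

theorem HChart.dist_le (h : HChart y R j) {a b : Y} (ha : a ∈ ball y R) (hb : b ∈ ball y R) :
    dist a b ≤ dist (j a) (j b) := by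
  have h1 := h.sq ha hb
  have h2 := cosh_lower (dist a b) dist_nonneg
  refine (sq_le_sq₀ dist_nonneg dist_nonneg).1 ?_
  nlinarith [sq_nonneg (√(1 + ip (j a) (j a)) - √(1 + ip (j b) (j b)))]

theorem HChart.cosh_ctr (h : HChart y R j) {a : Y} (ha : a ∈ ball y R) :
    Real.cosh (dist a y) = √(1 + ip (j a) (j a)) := by
  rw [h.cosh_dist a ha y (mem_ball_self h.pos), h.ctr, ip_o, ip_o']
  simp

theorem HChart.nm_eq (h : HChart y R j) {a : Y} (ha : a ∈ ball y R) :
    nm (j a) = Real.sinh (dist a y) := by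
  have a2 := Real.sq_sqrt (show 0 ≤ 1 + ip (j a) (j a) by linarith [ip_self_nonneg (j a)])
  rw [← h.cosh_ctr ha, Real.cosh_sq, ← nm_sq] at a2
  exact (sq_eq_sq₀ (nm_nonneg _) (Real.sinh_nonneg_iff.mpr dist_nonneg)).1 (by linarith)

theorem HChart.nm_le (h : HChart y R j) {a : Y} (ha : a ∈ ball y R) (h1 : dist a y ≤ 1 / 2) :
    nm (j a) ≤ 2 * dist a y := by
  have a2 := Real.sq_sqrt (show 0 ≤ 1 + ip (j a) (j a) by linarith [ip_self_nonneg (j a)])
  rw [← h.cosh_ctr ha, ← nm_sq] at a2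
  have d0 := dist_nonneg (x := a) (y := y)
  have h2 := cosh_upper (dist a y) d0 (by linarith)
  have h3 := Real.one_le_cosh (dist a y)
  refine (sq_le_sq₀ (nm_nonneg _) (by positivity)).1 ?_
  have h4 : dist a y ^ 2 ≤ 1 / 4 := by nlinarith
  have h5 : Real.cosh (dist a y) ≤ 1 + dist a y ^ 2 := by nlinarith [sq_nonneg (dist a y)]
  nlinarith [sq_nonneg (dist a y)]

theorem HChart.le_dist (h : HChart y R j) {η ε : ℝ} (hη : η ≤ R) (h8 : η ≤ 1 / 8) (hε : η ≤ ε)
    {a b : Y} (ha : a ∈ ball y η) (hb : b ∈ ball y η) :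
    dist (j a) (j b) ≤ (1 + ε) * dist a b := by
  have ha' := ball_subset_ball hη ha
  have hb' := ball_subset_ball hη hb
  rw [mem_ball] at ha hb
  have e0 : 0 < η := lt_of_le_of_lt dist_nonneg ha
  have h1 := h.sq ha' hb'
  have d0 := dist_nonneg (x := a) (y := b)
  have d1 : dist a b ≤ 2 * η := by linarith [dist_triangle_right a b y]
  have h2 := cosh_upper (dist a b) d0 (by linarith)
  have h3 := abs_sqrt_sub (j a) (j b) (m := 2 * η)
    ((h.nm_le ha' (by linarith)).trans (by linarith))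
    ((h.nm_le hb' (by linarith)).trans (by linarith))
  have h4 := sq_le_sq' (abs_le.mp h3).1 (abs_le.mp h3).2
  refine (sq_le_sq₀ dist_nonneg (by nlinarith)).1 ?_
  have h5 : dist a b ^ 2 ≤ 4 * η ^ 2 := by nlinarith
  have h6 : dist (j a) (j b) ^ 2 * (1 - 4 * η ^ 2) ≤ dist a b ^ 2 * (1 + 2 * η ^ 2) := by
    nlinarith [sq_nonneg (dist a b)]
  have h7 : 1 + 2 * η ^ 2 ≤ (1 + ε) ^ 2 * (1 - 4 * η ^ 2) := by
    have : (1 + η) ^ 2 ≤ (1 + ε) ^ 2 := by nlinarith
    have h9 : 0 ≤ 1 - 4 * η ^ 2 := by nlinarith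
    have := mul_le_mul_of_nonneg_right this h9
    nlinarith [sq_nonneg η, mul_pos e0 e0]
  have h9 : 0 < 1 - 4 * η ^ 2 := by nlinarith
  refine le_of_mul_le_mul_right (h6.trans ?_) h9
  nlinarith [mul_le_mul_of_nonneg_left h7 (sq_nonneg (dist a b))]

/-- Near a point other than the base point, the distance to the base point is a linear height of
the chart up to a small Lipschitz error. -/
theorem HChart.height (h : HChart y R j) (hB : Bus Y) {x0 : Y} (hU : UB x0) (hy : y ≠ x0) {ε : ℝ}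
    (hε : 0 < ε) : ∃ v : C, nm v = 1 ∧ ∃ η > 0, η ≤ R ∧ ∀ a ∈ ball y η, ∀ b ∈ ball y η,
      (-ip v (j a)) - (-ip v (j b)) - ε * dist a b ≤ dist a x0 - dist b x0 := by
  have hL : 0 < dist x0 y := dist_pos.mpr hy.symm
  set L := dist x0 y with hLd
  obtain ⟨t, t0, t1, t2, t3⟩ : ∃ t : ℝ, 0 < t ∧ t ≤ L ∧ 4 * t ≤ R ∧ t ≤ 1 / 32 :=
    ⟨min L (min (R / 4) (1 / 32)), lt_min hL (lt_min (by linarith [h.pos]) (by norm_num)),
      min_le_left _ _, by
        have := (min_le_right L (min (R / 4) (1 / 32))).trans (min_le_left _ _)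
        linarith,
      (min_le_right _ _).trans (min_le_right _ _)⟩
  have hS : 0 < Real.sinh t := Real.sinh_pos_iff.mpr t0
  set S := Real.sinh t with hSd
  have s0 : 0 ≤ 1 - t / L := by have := (div_le_one hL).mpr t1; linarith
  have s1 : 1 - t / L ≤ 1 := by
    have : 0 ≤ t / L := by positivity
    linarith
  have hQ : ∀ z : Y, dist x0 (pr x0 ((1 - t / L) * dist x0 z) z) = (1 - t / L) * dist x0 z ∧
      dist (pr x0 ((1 - t / L) * dist x0 z) z) z = (1 - (1 - t / L)) * dist x0 z := by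
    intro z
    have d0 := dist_nonneg (x := x0) (y := z)
    obtain ⟨a1, a2⟩ := pr_spec hU (y := z) (t := (1 - t / L) * dist x0 z) (by positivity)
      (by nlinarith)
    exact ⟨a1, by rw [a2]; ring⟩
  set Q : Y → Y := fun z => pr x0 ((1 - t / L) * dist x0 z) z with hQd
  have hQy : dist (Q y) y = t := by
    rw [(hQ y).2, ← hLd]; field_simp; ring
  have hQQ : ∀ z, dist (Q z) (Q y) ≤ dist z y := fun z =>
    (hB x0 z y (Q z) (Q y) _ s0 s1 (hQ z).1 (hQ z).2 (hQ y).1 (hQ y).2).trans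
      (by nlinarith [dist_nonneg (x := z) (y := y)])
  have hq : nm (j (Q y)) = S := by
    rw [h.nm_eq (by rw [mem_ball, hQy]; linarith), hQy]
  have hder := (Real.hasStrictDerivAt_cosh t).hasStrictFDerivAt.isLittleO.def
    (c := ε * S / 2) (by positivity)
  obtain ⟨δ, δ0, hδ⟩ := Metric.eventually_nhds_iff.mp hder
  refine ⟨sm (1 / S) (j (Q y)), by rw [nm_sm (by positivity), hq]; field_simp,
    min t (min (δ / 2) (ε * S / 24)), lt_min t0 (lt_min (by linarith) (by positivity)),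
    by linarith [min_le_left t (min (δ / 2) (ε * S / 24))], fun a ha b hb => ?_⟩
  set η := min t (min (δ / 2) (ε * S / 24)) with hη
  have η1 : η ≤ t := min_le_left _ _
  have η2 : η ≤ δ / 2 := (min_le_right _ _).trans (min_le_left _ _)
  have η3 : η ≤ ε * S / 24 := (min_le_right _ _).trans (min_le_right _ _)
  rw [mem_ball] at ha hb
  have η0 : 0 < η := lt_of_le_of_lt dist_nonneg ha
  have hQa : dist (Q a) (Q y) < η := lt_of_le_of_lt (hQQ a) ha
  have mQa : dist (Q a) y < 4 * t := by linarith [dist_triangle (Q a) (Q y) y]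
  have big : ∀ p q : Y, dist p y < 4 * t → dist q y < 4 * t → dist (j p) (j q) ≤ 2 * dist p q := by
    intro p q hp hq
    have := h.le_dist (η := 4 * t) (ε := 1) t2 (by linarith) (by linarith) hp hq
    linarith
  have near : ∀ z, dist z y < η → |dist z (Q a) - t| < δ := by
    intro z hz
    have c1 := dist_triangle4 z y (Q y) (Q a)
    have c2 := dist_triangle4 y z (Q a) (Q y)
    rw [dist_comm y (Q y), hQy] at c1 c2
    rw [dist_comm (Q y)] at c1
    rw [dist_comm y z] at c2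
    rw [abs_lt]
    constructor <;> linarith
  have h1 := hδ (y := (dist a (Q a), dist b (Q a))) (by
    rw [Prod.dist_eq, max_lt_iff]; exact ⟨near a ha, near b hb⟩)
  simp only [ContinuousLinearMap.toSpanSingleton_apply, smul_eq_mul, Real.norm_eq_abs] at h1
  have h2 : |dist a (Q a) - dist b (Q a)| ≤ dist a b := abs_dist_sub_le _ _ _
  have h3 := (abs_le.mp (h1.trans (mul_le_mul_of_nonneg_left h2 (by positivity)))).2
  have mR : ∀ z, dist z y < 4 * t → z ∈ ball y R := fun z hz => by rw [mem_ball]; linarith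
  have aR := mR a (by linarith)
  have bR := mR b (by linarith)
  rw [h.cosh_dist a aR _ (mR _ mQa), h.cosh_dist b bR _ (mR _ mQa)] at h3
  have D1 := big a b (by linarith) (by linarith)
  have D2 := big (Q a) (Q y) mQa (by linarith)
  have h4 := abs_sqrt_sub (j a) (j b) (m := 2 * η)
    ((h.nm_le aR (by linarith)).trans (by linarith))
    ((h.nm_le bR (by linarith)).trans (by linarith))
  have h5 := bn_le (j a) (j b) (j (Q a)) (j (Q y))
  have d0 := dist_nonneg (x := a) (y := b)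
  have h6 : dist (j a) (j b) * dist (j (Q a)) (j (Q y)) ≤ (2 * dist a b) * (2 * η) :=
    mul_le_mul D1 (by linarith) dist_nonneg (by positivity)
  have q0 : 0 ≤ √(1 + ip (j (Q a)) (j (Q a))) := Real.sqrt_nonneg _
  have q1 : √(1 + ip (j (Q a)) (j (Q a))) ≤ 2 := by
    rw [← h.cosh_ctr (mR _ mQa)]
    have e1 := dist_nonneg (x := Q a) (y := y)
    have := cosh_upper (dist (Q a) y) e1 (by linarith)
    have e2 : dist (Q a) y ^ 2 ≤ 1 := pow_le_one₀ e1 (by linarith)
    have e3 : dist (Q a) y ^ 2 * (1 + dist (Q a) y ^ 2 / 2) ≤ 1 * (1 + 1 / 2) :=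
      mul_le_mul e2 (by linarith) (by positivity) zero_le_one
    linarith
  have h7 : -(2 * η * (2 * dist a b)) ≤ √(1 + ip (j a) (j a)) - √(1 + ip (j b) (j b)) := by
    have := (abs_le.mp h4).1
    have e1 : 2 * η * dist (j a) (j b) ≤ 2 * η * (2 * dist a b) :=
      mul_le_mul_of_nonneg_left D1 (by linarith)
    linarith
  have h8 : -(8 * η * dist a b) ≤
      (√(1 + ip (j a) (j a)) - √(1 + ip (j b) (j b))) * √(1 + ip (j (Q a)) (j (Q a))) := by
    have e1 := mul_le_mul_of_nonneg_right h7 q0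
    have e2 : 2 * η * (2 * dist a b) * √(1 + ip (j (Q a)) (j (Q a))) ≤
        2 * η * (2 * dist a b) * 2 := mul_le_mul_of_nonneg_left q1 (by positivity)
    linarith
  have h9 : dist a (Q a) - dist b (Q a) ≤ dist a x0 - dist b x0 := by
    have c1 := (hQ a).1
    have c2 := (hQ a).2
    have c3 := dist_triangle_right b x0 (Q a)
    rw [dist_comm a (Q a), dist_comm a x0]
    change dist x0 (Q a) = _ at c1
    change dist (Q a) a = _ at c2
    linarith
  refine le_trans ?_ h9
  rw [ip_sm (by positivity), ip_sm (by positivity), ip_comm (j (Q y)), ip_comm (j (Q y))]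
  refine le_of_mul_le_mul_right ?_ hS
  have e3 : η * dist a b ≤ ε * S / 24 * dist a b := mul_le_mul_of_nonneg_right η3 d0
  have e4 : (-(1 / S * ip (j a) (j (Q y))) - -(1 / S * ip (j b) (j (Q y))) - ε * dist a b) * S =
      -ip (j a) (j (Q y)) + ip (j b) (j (Q y)) - ε * S * dist a b := by field_simp; ring
  rw [e4]
  linarith

end C2693.Br
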