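import Mathlib

namespace Pool.Agent.Lib.MP_c2693b_gt

variable {X ι : Type*} [MetricSpace X]

/-- `f` is homogeneous for the family of maps `D i` with weights `w i`. -/
def Hmg (D : ι → X → X) (w : ι → ℝ) (f : X → ℝ) : Prop := ∀ i p, f (D i p) = w i * f p

/-- `f` is `L`-Lipschitz. -/
def Lp (L : ℝ) (f : X → ℝ) : Prop := ∀ p q, f p - f q ≤ L * dist p q

/-- Any two points are joined by a path of points that lie between them. -/
def Btw (X : Type*) [MetricSpace X] : Prop :=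
  ∀ p q : X, ∃ γ : ℝ → X, ContinuousOn γ (Set.Icc 0 1) ∧ γ 0 = p ∧ γ 1 = q ∧
    ∀ t ∈ Set.Icc (0 : ℝ) 1, dist p (γ t) + dist (γ t) q = dist p q

/-- Every point of `W` is on the track of a point of `A`. -/
def Reach (R : X → X → Prop) (W A : Set X) : Prop := ∀ p ∈ W, ∃ a ∈ A, R p a

/-- Local tracks: a symmetric transitive relation whose classes are `κ`-Lipschitz graphs over the
height `b`, Lipschitz transversally, invariant under the maps `D i`. -/
structure Loc (b : X → ℝ) (D : ι → X → X) (κ : ℝ) (O : X → X → Prop) : Prop where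
  symm : ∀ {p q}, O p q → O q p
  trans : ∀ {p q r}, O p q → O q r → O p r
  vert : ∀ {p q}, O p q → dist p q ≤ κ * |b p - b q|
  lip : ∃ K, 0 ≤ K ∧ ∀ p p' q q', O p p' → O q q' → dist p' q' ≤ K * (dist p q + |b p' - b q'|)
  inv : ∀ i {p q}, O p q → O (D i p) (D i q)

/-- Track system on `W` with bottom `B` and top `T`. -/
structure Trk (b : X → ℝ) (D : ι → X → X) (κ : ℝ) (W B T : Set X) (R : X → X → Prop) : Prop
    extends Loc b D κ R where
  refl : ∀ p ∈ W, R p p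
  mem : ∀ {p q}, R p q → p ∈ W
  subB : B ⊆ W
  subT : T ⊆ W
  down : ∀ p ∈ W, ∀ s, s ≤ b p → ∃ q, R p q ∧ (b q = s ∨ (q ∈ B ∧ s ≤ b q))
  up : ∀ p ∈ W, ∀ s, b p ≤ s → ∃ q, R p q ∧ (b q = s ∨ (q ∈ T ∧ b q ≤ s))
  monoB : ∀ {p a}, R p a → a ∈ B → b a ≤ b p
  monoT : ∀ {p a}, R p a → a ∈ T → b p ≤ b a
  lipB : ∃ K, 0 ≤ K ∧ ∀ p a q a', R p a → R q a' → a ∈ B → a' ∈ B → dist a a' ≤ K * dist p q
  lipT : ∃ K, 0 ≤ K ∧ ∀ p a q a', R p a → R q a' → a ∈ T → a' ∈ T → dist a a' ≤ K * dist p q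
  invB : ∀ i, ∀ p ∈ B, D i p ∈ B
  invT : ∀ i, ∀ p ∈ T, D i p ∈ T

/-- There is a track system between the graphs of `f` and `g` whose tracks reach both graphs. -/
def Between (b : X → ℝ) (D : ι → X → X) (κ : ℝ) (f g : X → ℝ) : Prop :=
  ∃ R, Trk b D κ {p | f p ≤ b p ∧ b p ≤ g p} {p | b p = f p} {p | b p = g p} R ∧
    Reach R {p | f p ≤ b p ∧ b p ≤ g p} {p | b p = f p} ∧
    Reach R {p | f p ≤ b p ∧ b p ≤ g p} {p | b p = g p}

/-- A uniformly Lipschitz homogeneous flow of speed at most `κ * n` along which `b` grows at the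
rate `n ^ 2`. -/
structure IsFlow (b : X → ℝ) (D : ι → X → X) (w : ι → ℝ) (n κ : ℝ) (φ : ℝ → X → X) : Prop where
  zero : ∀ p, φ 0 p = p
  add : ∀ s t p, φ (s + t) p = φ s (φ t p)
  level : ∀ t p, b (φ t p) = b p + t * n ^ 2
  speed : ∀ t p, dist (φ t p) p ≤ κ * n * |t|
  lip : ∃ K, 0 ≤ K ∧ ∀ t p q, dist (φ t p) (φ t q) ≤ K * dist p q
  hom : ∀ i t p, φ (w i * t) (D i p) = D i (φ t p)

theorem Lp.abs {L : ℝ} {f : X → ℝ} (h : Lp L f) (p q : X) : |f p - f q| ≤ L * dist p q := by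
  rw [abs_le]; constructor
  · have := h q p; rw [dist_comm] at this; linarith
  · exact h p q

theorem Lp.continuous {L : ℝ} {f : X → ℝ} (h : Lp L f) : Continuous f := by
  have : LipschitzWith (Real.toNNReal L) f := LipschitzWith.of_dist_le' fun p q => by
    rw [Real.dist_eq]; exact h.abs p q
  exact this.continuous

theorem Lp.mono {L L' : ℝ} {f : X → ℝ} (h : Lp L f) (hL : L ≤ L') : Lp L' f := fun p q =>
  (h p q).trans (mul_le_mul_of_nonneg_right hL dist_nonneg)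

theorem Lp.neg {L : ℝ} {f : X → ℝ} (h : Lp L f) : Lp L fun p => -f p := fun p q => by
  have := h q p; rw [dist_comm] at this; linarith

variable {b : X → ℝ} {D : ι → X → X} {κ : ℝ} {W B T : Set X} {R O : X → X → Prop}

theorem Loc.eq_of (h : Loc b D κ O) {p q : X} (hpq : O p q) (hb : b p = b q) : p = q := by
  have := h.vert hpq
  rw [hb, sub_self, abs_zero, mul_zero] at this
  exact dist_le_zero.1 this

theorem Loc.neg (h : Loc b D κ O) : Loc (fun p => -b p) D κ O where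
  symm := h.symm
  trans := h.trans
  vert := fun hpq => by
    have := h.vert hpq
    rwa [neg_sub_neg, abs_sub_comm]
  lip := by
    obtain ⟨K, hK, h1⟩ := h.lip
    refine ⟨K, hK, fun p p' q q' a c => ?_⟩
    have := h1 p p' q q' a c
    rwa [show -b p' - -b q' = -(b p' - b q') by ring, abs_neg]
  inv := h.inv

theorem Trk.neg (h : Trk b D κ W B T R) : Trk (fun p => -b p) D κ W T B R where
  toLoc := h.toLoc.neg
  refl := h.refl
  mem := h.mem
  subB := h.subT
  subT := h.subB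
  down := fun p hp s hs => by
    obtain ⟨q, a, c⟩ := h.up p hp (-s) (by linarith)
    refine ⟨q, a, ?_⟩
    rcases c with c | ⟨c, e⟩
    · left; linarith
    · right; exact ⟨c, by linarith⟩
  up := fun p hp s hs => by
    obtain ⟨q, a, c⟩ := h.down p hp (-s) (by linarith)
    refine ⟨q, a, ?_⟩
    rcases c with c | ⟨c, e⟩
    · left; linarith
    · right; exact ⟨c, by linarith⟩
  monoB := fun a c => neg_le_neg (h.monoT a c)
  monoT := fun a c => neg_le_neg (h.monoB a c)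
  lipB := h.lipT
  lipT := h.lipB
  invB := h.invT
  invT := h.invB

theorem Trk.mem' (h : Trk b D κ W B T R) {p q : X} (a : R p q) : q ∈ W := h.mem (h.symm a)

theorem Trk.uniqT (h : Trk b D κ W B T R) {p a a' : X} (h1 : R p a) (h2 : R p a') (ha : a ∈ T)
    (ha' : a' ∈ T) : a = a' :=
  h.toLoc.eq_of (h.trans (h.symm h1) h2)
    (le_antisymm (h.monoT (h.trans (h.symm h1) h2) ha') (h.monoT (h.trans (h.symm h2) h1) ha))

theorem Trk.uniqB (h : Trk b D κ W B T R) {p a a' : X} (h1 : R p a) (h2 : R p a') (ha : a ∈ B)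
    (ha' : a' ∈ B) : a = a' := h.neg.uniqT h1 h2 ha ha'

/-- Heights between two points of a track are attained on the track. -/
theorem Trk.ivt (h : Trk b D κ W B T R) {p q : X} (hpq : R p q) {s : ℝ} (h1 : b p ≤ s)
    (h2 : s ≤ b q) : ∃ m, R p m ∧ b m = s := by
  obtain ⟨m, a, c | ⟨c, e⟩⟩ := h.up p (h.mem hpq) s h1
  · exact ⟨m, a, c⟩
  · exact ⟨m, a, le_antisymm e (h2.trans (h.monoT (h.trans (h.symm hpq) a) c))⟩

theorem Btw.cross (h : Btw X) {f : X → ℝ} (hf : Continuous f) {p q : X} (hp : f p ≤ 0)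
    (hq : 0 ≤ f q) : ∃ m, f m = 0 ∧ dist p m + dist m q = dist p q := by
  obtain ⟨γ, hc, h0, h1, hb⟩ := h p q
  have := intermediate_value_Icc (zero_le_one' ℝ) (hf.comp_continuousOn hc)
  obtain ⟨t, ht, e⟩ := this (show (0 : ℝ) ∈ Set.Icc ((f ∘ γ) 0) ((f ∘ γ) 1) from
    ⟨by simpa [h0] using hp, by simpa [h1] using hq⟩)
  exact ⟨γ t, e, hb t ht⟩

end Pool.Agent.Lib.MP_c2693b_gt
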