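import Mathlib
import Pool.Agent.Lib.MP_c2693b_gt.ShA
import Pool.Agent.Lib.MP_c2693b_gt.TrDefs

/-! Local tracks for the distance to a base point, from a flow in a hyperbolic cone chart. -/

namespace C2693.Br

open Set Metric Filter Topology Pool.Agent.Lib.MP_c2693b_gt Pool.Agent.Lib.MP_c2693b_gt.ConeAlg

variable {Y C ι : Type*} [MetricSpace Y] [ConeAlg C] {y : Y} {R : ℝ} {j : Y → C}

/-- Local tracks of constant `κ` for the height `b` that are long near `y`. -/
def LocAt (b : Y → ℝ) (κ : ℝ) (y : Y) : Prop :=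
  ∃ η > 0, ∃ ρ > 0, ∃ O : Y → Y → Prop, Loc b (fun e : Empty => e.elim) κ O ∧
    ∀ p ∈ ball y η, ∀ s, |s - b p| ≤ ρ → ∃ q, O p q ∧ b q = s

theorem HChart.locAt (h : HChart y R j) (hB : Bus Y) {x0 : Y} (hU : UB x0) (hy : y ≠ x0)
    {D : ι → C → C} {w : ι → ℝ}
    (hfl : ∀ v : C, nm v = 1 → ∀ κ > 1, ∃ φ, IsFlow (fun z => -ip v z) D w 1 κ φ)
    {κ : ℝ} (hκ : 1 < κ) : LocAt (fun p => dist p x0) κ y := by
  obtain ⟨k, k1, k2, k3⟩ : ∃ k : ℝ, 1 < k ∧ k < κ ∧ k ≤ 2 :=
    ⟨min ((1 + κ) / 2) 2, lt_min (by linarith) (by norm_num),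
      lt_of_le_of_lt (min_le_left _ _) (by linarith), min_le_right _ _⟩
  obtain ⟨ε, ε0, ε1, ε2⟩ : ∃ ε : ℝ, 0 < ε ∧ k * ε ≤ 1 / 2 ∧ k ≤ κ * (1 - k * ε) := by
    have a0 : 0 < (κ - k) / (κ * k) := div_pos (by linarith) (by positivity)
    refine ⟨min (1 / 4) ((κ - k) / (κ * k)), lt_min (by norm_num) a0, ?_, ?_⟩
    · have := min_le_left (1 / 4 : ℝ) ((κ - k) / (κ * k))
      nlinarith
    · have := min_le_right (1 / 4 : ℝ) ((κ - k) / (κ * k))
      rw [le_div_iff₀ (by positivity)] at this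
      nlinarith
  obtain ⟨v, hv, η', η0', ηR, hh⟩ := h.height hB hU hy ε0
  obtain ⟨φ, hφ⟩ := hfl v hv k k1
  obtain ⟨η, η0, η1, η2⟩ : ∃ η : ℝ, 0 < η ∧ η ≤ η' ∧ η ≤ 1 / 8 :=
    ⟨min η' (1 / 8), lt_min η0' (by norm_num), min_le_left _ _, min_le_right _ _⟩
  have sub1 : ball y η ⊆ ball y η' := ball_subset_ball η1
  have sub2 : ball y η ⊆ ball y R := ball_subset_ball (η1.trans ηR)
  have habs : ∀ a ∈ ball y η, ∀ b ∈ ball y η,
      |(-ip v (j a)) - (-ip v (j b))| ≤ |dist a x0 - dist b x0| + ε * dist a b := by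
    intro a ha b hb
    have h1 := hh a (sub1 ha) b (sub1 hb)
    have h2 := hh b (sub1 hb) a (sub1 ha)
    rw [dist_comm b a] at h2
    have h3 := le_abs_self (dist a x0 - dist b x0)
    have h4 := neg_abs_le (dist a x0 - dist b x0)
    rw [abs_le]
    constructor <;> linarith
  have hlev : ∀ t u, -ip v (φ t u) - -ip v u = t := fun t u => by
    have := hφ.level t u
    linarith
  have hsp : ∀ s t u, dist (φ s u) (φ t u) ≤ k * |s - t| := fun s t u => by
    have := hφ.speed (s - t) (φ t u)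
    rwa [← hφ.add, sub_add_cancel, mul_one] at this
  have hsp0 : ∀ t u, dist (φ t u) u ≤ k * |t| := fun t u => by
    have := hφ.speed t u
    rwa [mul_one] at this
  refine ⟨η / 4, by positivity, η / 16, by positivity,
    fun p q => p ∈ ball y η ∧ q ∈ ball y η ∧ ∃ t, j q = φ t (j p), ⟨?_, ?_, ?_, ?_, ?_⟩, ?_⟩
  · rintro p q ⟨hp, hq, t, e⟩
    exact ⟨hq, hp, -t, by rw [e, ← hφ.add, neg_add_cancel, hφ.zero]⟩
  · rintro p q r ⟨hp, -, t, e⟩ ⟨-, hr, s, e'⟩
    exact ⟨hp, hr, s + t, by rw [e', e, hφ.add]⟩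
  · rintro p q ⟨hp, hq, t, e⟩
    have h1 := h.dist_le (sub2 hq) (sub2 hp)
    have h2 := habs q hq p hp
    rw [e] at h1 h2
    rw [hlev] at h2
    have h3 := hsp0 t (j p)
    rw [dist_comm q p] at h1 h2
    rw [abs_sub_comm]
    have h4 : dist p q * (1 - k * ε) ≤ k * |dist q x0 - dist p x0| := by nlinarith
    have h5 : 0 < 1 - k * ε := by linarith
    refine le_of_mul_le_mul_right (h4.trans ?_) h5
    nlinarith [abs_nonneg (dist q x0 - dist p x0)]
  · obtain ⟨K, K0, hK⟩ := hφ.lip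
    refine ⟨4 * K + 8, by positivity, ?_⟩
    rintro p p' q q' ⟨hp, hp', t, e⟩ ⟨hq, hq', s, e'⟩
    have h1 := h.dist_le (sub2 hp') (sub2 hq')
    have h2 := habs p' hp' q' hq'
    have h3 := h.le_dist (ε := 1) (η1.trans ηR) η2 (by linarith) hp hq
    have h4 : |ip v (j p) - ip v (j q)| ≤ dist (j p) (j q) := by
      have := abs_ip_sub_le (j p) (j q) v
      rwa [hv, mul_one, ip_comm (j p), ip_comm (j q)] at this
    rw [e, e'] at h1 h2
    have h5 := dist_triangle (φ t (j p)) (φ t (j q)) (φ s (j q))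
    have h6 := hK t (j p) (j q)
    have h7 := hsp t s (j q)
    have h8 : |t - s| ≤ |-ip v (φ t (j p)) - -ip v (φ s (j q))| + |ip v (j p) - ip v (j q)| := by
      refine le_trans (le_of_eq ?_) (abs_add_le _ _)
      congr 1
      linarith [hlev t (j p), hlev s (j q)]
    have d0 := dist_nonneg (x := p) (y := q)
    have d1 := dist_nonneg (x := p') (y := q')
    have a0 := abs_nonneg (dist p' x0 - dist q' x0)
    have b1 : K * dist (j p) (j q) ≤ K * (2 * dist p q) :=
      mul_le_mul_of_nonneg_left (by linarith) K0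
    have b2 : k * |t - s| ≤ k * (|dist p' x0 - dist q' x0| + ε * dist p' q' + 2 * dist p q) :=
      mul_le_mul_of_nonneg_left (by linarith) (by linarith)
    have b3 : k * ε * dist p' q' ≤ 1 / 2 * dist p' q' := mul_le_mul_of_nonneg_right ε1 d1
    have b4 : k * |dist p' x0 - dist q' x0| ≤ 2 * |dist p' x0 - dist q' x0| :=
      mul_le_mul_of_nonneg_right k3 a0
    have b5 : k * dist p q ≤ 2 * dist p q := mul_le_mul_of_nonneg_right k3 d0
    have b6 : 0 ≤ K * |dist p' x0 - dist q' x0| := by positivity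
    linarith
  · intro e
    exact e.elim
  · intro p hp s hs
    rw [mem_ball] at hp
    have hp' : p ∈ ball y η := by rw [mem_ball]; linarith
    have hex : ∀ t, ∃ q, |t| ≤ η / 8 → q ∈ ball y η ∧ j q = φ t (j p) := by
      intro t
      by_cases ht : |t| ≤ η / 8
      · have h1 := h.nm_le (sub2 hp') (by linarith)
        have h2 : nm (φ t (j p)) ≤ dist (φ t (j p)) (j p) + nm (j p) := dist_triangle _ _ _
        have h3 := hsp0 t (j p)
        have h4 : k * |t| ≤ 2 * (η / 8) := mul_le_mul k3 ht (abs_nonneg _) (by norm_num)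
        have h5 : η ≤ Real.sinh η := Real.self_le_sinh_iff.mpr η0.le
        have h6 : nm (φ t (j p)) < Real.sinh η := by linarith
        obtain ⟨q, hq, e⟩ := h.onto (φ t (j p))
          (lt_of_lt_of_le h6 (Real.sinh_le_sinh.mpr (η1.trans ηR)))
        refine ⟨q, fun _ => ⟨?_, e⟩⟩
        rw [← e, h.nm_eq hq] at h6
        exact Real.sinh_lt_sinh.mp h6
      · exact ⟨p, fun h1 => absurd h1 ht⟩
    choose q hq using hex
    have hI : ∀ t ∈ Icc (-(η / 8)) (η / 8), |t| ≤ η / 8 := fun t ht => abs_le.mpr ht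
    have hc : ContinuousOn q (Icc (-(η / 8)) (η / 8)) := by
      refine (LipschitzOnWith.of_dist_le_mul (K := 2) fun a ha b hb => ?_).continuousOn
      have h1 := h.dist_le (sub2 (hq a (hI a ha)).1) (sub2 (hq b (hI b hb)).1)
      rw [(hq a (hI a ha)).2, (hq b (hI b hb)).2] at h1
      refine h1.trans ((hsp a b _).trans ?_)
      rw [Real.dist_eq]
      exact mul_le_mul_of_nonneg_right k3 (abs_nonneg _)
    have hd : ∀ t, |t| ≤ η / 8 → ε * dist (q t) p ≤ η / 16 := by
      intro t ht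
      have h1 := h.dist_le (sub2 (hq t ht).1) (sub2 hp')
      rw [(hq t ht).2] at h1
      have h2 : ε * dist (q t) p ≤ ε * (k * |t|) :=
        mul_le_mul_of_nonneg_left (h1.trans (hsp0 t _)) ε0.le
      have h3 : k * ε * |t| ≤ 1 / 2 * (η / 8) := mul_le_mul ε1 ht (abs_nonneg _) (by norm_num)
      linarith
    have m1 : |η / 8| ≤ η / 8 := (abs_of_nonneg (by positivity)).le
    have m2 : |-(η / 8)| ≤ η / 8 := by rwa [abs_neg]
    have u1 := hh _ (sub1 (hq _ m1).1) p (sub1 hp')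
    have u2 := hh p (sub1 hp') _ (sub1 (hq _ m2).1)
    rw [(hq _ m1).2, hlev] at u1
    rw [(hq _ m2).2, dist_comm p (q _)] at u2
    have u3 := hlev (-(η / 8)) (j p)
    have u4 := hd _ m1
    have u5 := hd _ m2
    have hs' := abs_le.mp hs
    have hc2 : ContinuousOn (fun t => dist (q t) x0) (Icc (-(η / 8)) (η / 8)) :=
      (continuous_id.dist continuous_const).comp_continuousOn hc
    obtain ⟨t, ht, e⟩ := intermediate_value_Icc (by linarith) hc2
      (show s ∈ Icc (dist (q (-(η / 8))) x0) (dist (q (η / 8)) x0) from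
        ⟨by linarith [hs'.1], by linarith [hs'.2]⟩)
    exact ⟨q t, ⟨hp', (hq t (hI t ht)).1, t, (hq t (hI t ht)).2⟩, e⟩

/-- Small spheres of a chart are unit spheres of the cone. -/
theorem HChart.sphere_homeo [ProperSpace Y] (h : HChart y R j) :
    ∃ r > 0, Nonempty (sphere y r ≃ₜ {u : C // nm u = 1}) := by
  obtain ⟨η, η0, η1, η2⟩ : ∃ η : ℝ, 0 < η ∧ η ≤ R ∧ η ≤ 1 / 8 :=
    ⟨min R (1 / 8), lt_min h.pos (by norm_num), min_le_left _ _, min_le_right _ _⟩
  have hS : 0 < Real.sinh (η / 2) := Real.sinh_pos_iff.mpr (by linarith)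
  have hm : ∀ a : sphere y (η / 2), (a : Y) ∈ ball y η := fun a => by
    rw [mem_ball, mem_sphere.mp a.2]; linarith
  have sub : ball y η ⊆ ball y R := ball_subset_ball η1
  have hn : ∀ a : sphere y (η / 2), nm (j a) = Real.sinh (η / 2) := fun a => by
    rw [h.nm_eq (sub (hm a)), mem_sphere.mp a.2]
  let F : sphere y (η / 2) → {u : C // nm u = 1} := fun a =>
    ⟨sm (1 / Real.sinh (η / 2)) (j a), by rw [nm_sm (by positivity), hn]; field_simp⟩
  have hd : ∀ a b, dist (F a) (F b) = 1 / Real.sinh (η / 2) * dist (j a) (j b) := fun a b =>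
    dist_sm (by positivity) _ _
  have hc : Continuous F := by
    refine (LipschitzWith.of_dist_le' (K := 1 / Real.sinh (η / 2) * 2) fun a b => ?_).continuous
    have := h.le_dist (ε := 1) η1 η2 (by linarith) (hm a) (hm b)
    rw [hd, mul_assoc]
    exact mul_le_mul_of_nonneg_left (by rw [Subtype.dist_eq]; linarith) (by positivity)
  have hi : Function.Injective F := by
    intro a b e
    have h1 := hd a b
    rw [e, dist_self] at h1
    have h2 : dist (j a) (j b) = 0 := (mul_eq_zero.mp h1.symm).resolve_left (by positivity)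
    have h3 := h.dist_le (sub (hm a)) (sub (hm b))
    exact Subtype.ext (dist_le_zero.mp (by linarith))
  have hs : Function.Surjective F := by
    rintro ⟨u, hu⟩
    have h1 : nm (sm (Real.sinh (η / 2)) u) = Real.sinh (η / 2) := by rw [nm_sm hS.le, hu, mul_one]
    obtain ⟨a, ha, e⟩ := h.onto (sm (Real.sinh (η / 2)) u)
      (by rw [h1]; exact Real.sinh_lt_sinh.mpr (by linarith))
    rw [← e, h.nm_eq ha] at h1
    refine ⟨⟨a, mem_sphere.mpr (Real.sinh_injective h1)⟩, Subtype.ext ?_⟩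
    change sm _ (j a) = u
    rw [e, sm_sm (by positivity) hS.le, one_div_mul_cancel hS.ne', sm_one]
  have : CompactSpace (sphere y (η / 2)) := isCompact_iff_compactSpace.mp (isCompact_sphere _ _)
  exact ⟨η / 2, by linarith,
    ⟨Continuous.homeoOfEquivCompactToT2 (f := Equiv.ofBijective F ⟨hi, hs⟩) hc⟩⟩

end C2693.Br
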