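import Pool.Agent.Lib.MP_c2693b_gt.Cone

namespace Pool.Agent.Lib.MP_c2693b_gt

open Set

section CN

variable {X : Type*} [MetricSpace X]

/-- `p` satisfies the comparison inequality at fraction `t` for all test points in `S`. -/
def CNPt (S : Set X) (a b : X) (t : ℝ) (p : X) : Prop :=
  ∀ x ∈ S, dist x p ^ 2 ≤
    (1 - t) * dist x a ^ 2 + t * dist x b ^ 2 - t * (1 - t) * dist a b ^ 2

/-- The space is geodesic and CAT(0). -/
def CN (X : Type*) [MetricSpace X] : Prop :=
  ∀ a b : X, ∀ t ∈ Icc (0 : ℝ) 1, ∃ p, CNPt univ a b t p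

variable {S : Set X} {a b p q : X} {s t : ℝ}

lemma CNPt.symm (h : CNPt S a b t p) : CNPt S b a (1 - t) p := fun x hx => by
  have := h x hx
  rw [dist_comm b a]
  linarith

lemma CNPt.left_le (h : CNPt S a b t p) (ha : a ∈ S) (ht : 0 ≤ t) : dist a p ≤ t * dist a b := by
  refine (sq_le_sq₀ dist_nonneg (by positivity)).1 ?_
  have := h a ha
  rw [dist_self] at this
  linarith

lemma CNPt.right_le (h : CNPt S a b t p) (hb : b ∈ S) (ht : t ≤ 1) :
    dist p b ≤ (1 - t) * dist a b := by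
  rw [dist_comm p b, dist_comm a b]
  exact h.symm.left_le hb (sub_nonneg.2 ht)

lemma CNPt.left (h : CNPt S a b t p) (ha : a ∈ S) (hb : b ∈ S) (ht : t ∈ Icc (0 : ℝ) 1) :
    dist a p = t * dist a b := by
  linarith [h.left_le ha ht.1, h.right_le hb ht.2, dist_triangle a p b]

lemma CNPt.right (h : CNPt S a b t p) (ha : a ∈ S) (hb : b ∈ S) (ht : t ∈ Icc (0 : ℝ) 1) :
    dist p b = (1 - t) * dist a b := by
  linarith [h.left_le ha ht.1, h.right_le hb ht.2, dist_triangle a p b]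

lemma CNPt.unique (h : CNPt S a b t p) (ht : t ∈ Icc (0 : ℝ) 1) (hq : q ∈ S)
    (h1 : dist a q ≤ t * dist a b) (h2 : dist q b ≤ (1 - t) * dist a b) : q = p := by
  have h3 := h q hq
  have h4 := pow_le_pow_left₀ dist_nonneg h1 2
  have h5 := pow_le_pow_left₀ dist_nonneg h2 2
  rw [dist_comm q a] at h3
  have h6 := mul_le_mul_of_nonneg_left h4 (sub_nonneg.2 ht.2)
  have h7 := mul_le_mul_of_nonneg_left h5 ht.1
  exact dist_eq_zero.1 (pow_eq_zero_iff two_ne_zero |>.1
    (le_antisymm (by nlinarith) (sq_nonneg _)))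

lemma CNPt.dist_eq (h : CNPt S a b t p) (h' : CNPt S a b s q) (ha : a ∈ S) (hb : b ∈ S)
    (hq : q ∈ S) (ht : t ∈ Icc (0 : ℝ) 1) (hs : s ∈ Icc (0 : ℝ) 1) :
    dist q p = |s - t| * dist a b := by
  have e1 := h.left ha hb ht
  have e2 := h'.left ha hb hs
  have e3 := h'.right ha hb hs
  refine le_antisymm ((sq_le_sq₀ dist_nonneg (by positivity)).1 ?_) ?_
  · have := h q hq
    rw [dist_comm q a, e2, e3] at this
    rw [mul_pow, sq_abs]
    linarith
  · have := abs_dist_sub_le q p a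
    rw [dist_comm q a, dist_comm p a, e1, e2, ← sub_mul, abs_mul,
      abs_of_nonneg (dist_nonneg (x := a) (y := b))] at this
    exact this

/-- The comparison inequality along a geodesic follows from its local midpoint form. -/
lemma cnPt_of_loc {γ : ℝ → X}
    (hγ : ∀ s ∈ Icc (0 : ℝ) 1, ∀ t ∈ Icc (0 : ℝ) 1, dist (γ s) (γ t) = |s - t| * dist (γ 0) (γ 1))
    (h : ∀ x ∈ S, ∀ t ∈ Ioo (0 : ℝ) 1, ∃ e, 0 < e ∧ e ≤ t ∧ e ≤ 1 - t ∧
      2 * dist x (γ t) ^ 2 + 2 * (e * dist (γ 0) (γ 1)) ^ 2 ≤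
        dist x (γ (t - e)) ^ 2 + dist x (γ (t + e)) ^ 2) (ht : t ∈ Icc (0 : ℝ) 1) :
    CNPt S (γ 0) (γ 1) t (γ t) := by
  intro x hx
  have hc : ContinuousOn γ (Icc 0 1) := fun t ht => by
    refine tendsto_iff_dist_tendsto_zero.2 (squeeze_zero' (Filter.Eventually.of_forall fun _ =>
      dist_nonneg) (eventually_nhdsWithin_of_forall fun s hs => (hγ s hs t ht).le) ?_)
    have : Continuous fun s : ℝ => |s - t| * dist (γ 0) (γ 1) := by fun_prop
    simpa using (this.tendsto t).mono_left nhdsWithin_le_nhds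
  have h0 : ContinuousOn (fun t => dist x (γ t)) (Icc 0 1) :=
    continuous_dist.comp_continuousOn (continuousOn_const.prodMk hc)
  have := loc_convex (f := fun t => dist x (γ t) ^ 2 - (t * dist (γ 0) (γ 1)) ^ 2)
    ((h0.pow 2).sub (by fun_prop)) (fun t ht => by
      obtain ⟨e, e0, e1, e2, he⟩ := h x hx t ht
      exact ⟨e, e0, e1, e2, by linarith⟩) ht
  linarith

end CN

namespace ConeAlg

section

variable {C : Type*} [ConeAlg C]

lemma cnPt_geo (a b : C) {t : ℝ} (ht : t ∈ Icc (0 : ℝ) 1) : CNPt univ a b t (geo a b t) :=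
  fun x _ => cn x a b ht

lemma toCN : CN C := fun a b _ ht => ⟨_, cnPt_geo a b ht⟩

lemma dist_geo_left (a b : C) {t : ℝ} (ht : t ∈ Icc (0 : ℝ) 1) :
    dist a (geo a b t) = t * dist a b := (cnPt_geo a b ht).left trivial trivial ht

lemma dist_geo_right (a b : C) {t : ℝ} (ht : t ∈ Icc (0 : ℝ) 1) :
    dist (geo a b t) b = (1 - t) * dist a b := (cnPt_geo a b ht).right trivial trivial ht

lemma dist_geo_geo (a b : C) {s t : ℝ} (hs : s ∈ Icc (0 : ℝ) 1) (ht : t ∈ Icc (0 : ℝ) 1) :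
    dist (geo a b s) (geo a b t) = |s - t| * dist a b :=
  (cnPt_geo a b ht).dist_eq (cnPt_geo a b hs) trivial trivial trivial ht hs

lemma eq_geo {a b q : C} {t : ℝ} (ht : t ∈ Icc (0 : ℝ) 1) (h1 : dist a q ≤ t * dist a b)
    (h2 : dist q b ≤ (1 - t) * dist a b) : q = geo a b t :=
  (cnPt_geo a b ht).unique ht trivial h1 h2

lemma ad_eq_geo (a b : C) : ad a b = sm 2 (geo a b (1 / 2)) := by
  rw [geo, sm_ad zero_le_two, sm_sm zero_le_two (by norm_num), sm_sm zero_le_two (by norm_num)]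
  norm_num

lemma dist_ad_ad_le (a b c e : C) : dist (ad a b) (ad c e) ≤ dist a c + dist b e := by
  have h1 := dist_ad_le a c b
  have h2 := dist_ad_le b e c
  rw [ad_comm b, ad_comm e] at h2
  linarith [dist_triangle (ad a b) (ad c b) (ad c e)]

lemma nm_ad_le (a b : C) : nm (ad a b) ≤ nm a + nm b := by
  simpa [nm] using dist_ad_ad_le a b o o

lemma dist_geo_le (a b c e : C) {t : ℝ} (ht : t ∈ Icc (0 : ℝ) 1) :
    dist (geo a b t) (geo c e t) ≤ (1 - t) * dist a c + t * dist b e := by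
  rw [← dist_sm ht.1, ← dist_sm (sub_nonneg.2 ht.2)]
  exact dist_ad_ad_le _ _ _ _

lemma continuous_ad : Continuous fun p : C × C => ad p.1 p.2 := by
  refine (LipschitzWith.of_dist_le_mul (K := 2) fun p q => (dist_ad_ad_le _ _ _ _).trans ?_).continuous
  have h1 := le_max_left (dist p.1 q.1) (dist p.2 q.2)
  have h2 := le_max_right (dist p.1 q.1) (dist p.2 q.2)
  rw [Prod.dist_eq]
  push_cast
  linarith

lemma dist_sm_le {l m : ℝ} (hl : 0 ≤ l) (hm : 0 ≤ m) (a b : C) :
    dist (sm l a) (sm m b) ≤ l * dist a b + |l - m| * nm b := by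
  rw [← dist_sm hl, ← dist_sm_sm hl hm]
  exact dist_triangle _ _ _

lemma continuous_sm {P : Type*} [TopologicalSpace P] {l : P → ℝ} {a : P → C} (hl : Continuous l)
    (h0 : ∀ p, 0 ≤ l p) (ha : Continuous a) : Continuous fun p => sm (l p) (a p) := by
  refine continuous_iff_continuousAt.2 fun q => tendsto_iff_dist_tendsto_zero.2
    (squeeze_zero (fun _ => dist_nonneg) (fun p => dist_sm_le (h0 p) (h0 q) _ _) ?_)
  have : Continuous fun p => l p * dist (a p) (a q) + |l p - l q| * nm (a q) := by fun_prop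
  simpa using this.tendsto q

/-- Chain lemma on a convex set covered by finitely many closed sets. -/
lemma chain {Y ι : Type*} [PseudoMetricSpace Y] [Finite ι] {U : Set C}
    (hU : ∀ a ∈ U, ∀ b ∈ U, ∀ t ∈ Icc (0 : ℝ) 1, geo a b t ∈ U) (S : ι → Set C)
    (hS : ∀ i, IsClosed (S i)) (hcov : ∀ a ∈ U, ∃ i, a ∈ S i) (f : C → Y) {K : ℝ} (hK : 0 ≤ K)
    (hf : ∀ i, ∀ x ∈ S i, x ∈ U → ∀ y ∈ S i, y ∈ U → dist (f x) (f y) ≤ K * dist x y)
    {a b : C} (ha : a ∈ U) (hb : b ∈ U) : dist (f a) (f b) ≤ K * dist a b := by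
  let γ : ℝ → U := fun t => ⟨geo a b (projIcc 0 1 zero_le_one t), hU a ha b hb _ (Subtype.prop _)⟩
  have hγ : ∀ t ∈ Icc (0 : ℝ) 1, (γ t : C) = geo a b t := fun t ht => by
    simp only [γ, projIcc_of_mem _ ht]
  have := chain_path (fun i => (Subtype.val ⁻¹' S i : Set U))
    (fun i => (hS i).preimage continuous_subtype_val) (fun x => f x.1) (D := dist a b) hK
    (fun i x hx y hy => hf i x hx x.2 y hy y.2) γ
    (fun s hs t ht => by rw [Subtype.dist_eq, hγ s hs, hγ t ht, dist_geo_geo a b hs ht])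
    (fun t _ => hcov _ (γ t).2)
  simpa [hγ] using this

end

section OfCN

variable {C : Type*} [MetricSpace C] (o : C) (sm : ℝ → C → C)

lemma cn_k_sm (h : CN C) (h0 : ∀ a, sm 0 a = o) (h1 : ∀ a, sm 1 a = a)
    (hss : ∀ {l m : ℝ}, 0 ≤ l → 0 ≤ m → ∀ a, sm l (sm m a) = sm (l * m) a)
    (hd : ∀ {l : ℝ}, 0 ≤ l → ∀ a b, dist (sm l a) (sm l b) = l * dist a b)
    (hr : ∀ {l m : ℝ}, 0 ≤ l → 0 ≤ m → ∀ a, dist (sm l a) (sm m a) = |l - m| * dist a o)
    {l : ℝ} (hl : 0 ≤ l) (a b : C) :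
    dist (sm l a) o ^ 2 + dist b o ^ 2 - dist (sm l a) b ^ 2 =
      l * (dist a o ^ 2 + dist b o ^ 2 - dist a b ^ 2) := by
  have hn : ∀ {l : ℝ}, 0 ≤ l → ∀ a, dist (sm l a) o = l * dist a o := fun hl a => by
    rw [← h0 a, hr hl le_rfl, sub_zero, abs_of_nonneg hl, h0]
  have A : ∀ s ∈ Icc (0 : ℝ) 1, ∀ a x, s * (dist a o ^ 2 + dist x o ^ 2 - dist a x ^ 2) ≤
      dist (sm s a) o ^ 2 + dist x o ^ 2 - dist (sm s a) x ^ 2 := by
    intro s hs a x
    obtain ⟨p, hp⟩ := h o a s hs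
    have e : sm s a = p := hp.unique hs trivial (by rw [dist_comm, hn hs.1, dist_comm]) (by
      have := hr hs.1 zero_le_one a
      rw [h1, abs_sub_comm, abs_of_nonneg (sub_nonneg.2 hs.2), dist_comm a o] at this
      exact this.le)
    have := hp x trivial
    rw [← e, dist_comm x (sm s a), dist_comm x a, dist_comm o a] at this
    rw [hn hs.1]
    linarith
  have B : ∀ s ∈ Icc (0 : ℝ) 1, ∀ a b, dist (sm s a) o ^ 2 + dist b o ^ 2 - dist (sm s a) b ^ 2 =
      s * (dist a o ^ 2 + dist b o ^ 2 - dist a b ^ 2) := by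
    intro s hs a b
    rcases hs.1.eq_or_lt with rfl | h2
    · rw [h0, dist_self, dist_comm o b]
      ring
    refine le_antisymm (le_of_mul_le_mul_left ?_ h2) (A s hs a b)
    have := A s hs b (sm s a)
    rw [hd hs.1, dist_comm b (sm s a), dist_comm b a, hn hs.1, hn hs.1] at this
    rw [hn hs.1]
    linarith
  rcases le_total l 1 with h2 | h2
  · exact B l ⟨hl, h2⟩ a b
  · have l0 : 0 < l := by linarith
    have := B l⁻¹ ⟨by positivity, inv_le_one_of_one_le₀ h2⟩ (sm l a) b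
    rw [hss (by positivity) hl, inv_mul_cancel₀ l0.ne', h1] at this
    rw [this, mul_inv_cancel_left₀ l0.ne']

lemma cn_mid_sq
    (hk : ∀ {l : ℝ}, 0 ≤ l → ∀ a b, dist (sm l a) o ^ 2 + dist b o ^ 2 - dist (sm l a) b ^ 2 =
      l * (dist a o ^ 2 + dist b o ^ 2 - dist a b ^ 2))
    {a b p : C} (hp : CNPt univ a b (1 / 2) p) :
    4 * dist p o ^ 2 = 2 * dist a o ^ 2 + 2 * dist b o ^ 2 - dist a b ^ 2 := by
  have hh : (1 / 2 : ℝ) ∈ Icc (0 : ℝ) 1 := ⟨by norm_num, by norm_num⟩
  have e1 := hp.left trivial trivial hh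
  have e2 := hp.right trivial trivial hh
  have u := hp o trivial
  rw [dist_comm o p, dist_comm o a, dist_comm o b] at u
  refine le_antisymm (by linarith) (not_lt.1 fun hlt => ?_)
  have key : ∀ l : ℝ, 0 ≤ l → l * (2 * dist a o ^ 2 + 2 * dist b o ^ 2 - dist a b ^ 2 -
      4 * dist p o ^ 2) ≤ 2 * dist a o ^ 2 + 2 * dist b o ^ 2 - dist a b ^ 2 - 4 * dist p o ^ 2 := by
    intro l hl
    have h1 := hp (sm l p) trivial
    have h2 := hk hl p p
    have h3 := hk hl p a
    have h4 := hk hl p b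
    rw [dist_comm p a, e1] at h3
    rw [e2] at h4
    rw [dist_self] at h2
    linarith
  have := key 2 zero_le_two
  linarith

/-- A CAT(0) space with dilations is a cone algebra. -/
@[reducible] noncomputable def ofCN (h : CN C) (h0 : ∀ a, sm 0 a = o) (h1 : ∀ a, sm 1 a = a)
    (hss : ∀ {l m : ℝ}, 0 ≤ l → 0 ≤ m → ∀ a, sm l (sm m a) = sm (l * m) a)
    (hd : ∀ {l : ℝ}, 0 ≤ l → ∀ a b, dist (sm l a) (sm l b) = l * dist a b)
    (hr : ∀ {l m : ℝ}, 0 ≤ l → 0 ≤ m → ∀ a, dist (sm l a) (sm m a) = |l - m| * dist a o) :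
    ConeAlg C where
  o := o
  sm := sm
  ad a b := sm 2 (h a b (1 / 2) ⟨by norm_num, by norm_num⟩).choose
  ip a b := (dist a o ^ 2 + dist b o ^ 2 - dist a b ^ 2) / 2
  ip_o a := by rw [dist_self, dist_comm o a]; ring
  ip_sm hl a b := by rw [cn_k_sm o sm h h0 h1 hss hd hr hl, mul_div_assoc]
  dist_sq a b := by simp only [dist_self]; ring
  ip_ad x a b := by
    have hp := (h a b (1 / 2) ⟨by norm_num, by norm_num⟩).choose_spec
    have e1 := cn_mid_sq o sm (cn_k_sm o sm h h0 h1 hss hd hr) hp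
    have e2 := cn_k_sm o sm h h0 h1 hss hd hr zero_le_two
      (h a b (1 / 2) ⟨by norm_num, by norm_num⟩).choose x
    have e3 := hp x trivial
    rw [dist_comm _ x, dist_comm _ x] at e2
    linarith
  ad_sq a b := by
    have hp := (h a b (1 / 2) ⟨by norm_num, by norm_num⟩).choose_spec
    have e1 := cn_mid_sq o sm (cn_k_sm o sm h h0 h1 hss hd hr) hp
    have e2 := hr zero_le_two le_rfl (h a b (1 / 2) ⟨by norm_num, by norm_num⟩).choose
    rw [h0, sub_zero, abs_two] at e2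
    simp only [dist_self, e2]
    linarith

end OfCN

/-- Inner product spaces. -/
noncomputable instance inner (E : Type*) [NormedAddCommGroup E] [InnerProductSpace ℝ E] :
    ConeAlg E where
  o := 0
  sm l a := l • a
  ad a b := a + b
  ip a b := Inner.inner ℝ a b
  ip_o := inner_zero_left
  ip_sm _ a b := real_inner_smul_left a b _
  dist_sq a b := by
    rw [dist_eq_norm, norm_sub_sq_real, real_inner_self_eq_norm_sq, real_inner_self_eq_norm_sq]
    ring
  ip_ad x a b := (inner_add_right x a b).ge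
  ad_sq a b := by
    rw [real_inner_add_add_self]
    ring

section Inner

variable {E : Type*} [NormedAddCommGroup E] [InnerProductSpace ℝ E]

@[simp] lemma inner_o : (o : E) = 0 := rfl
@[simp] lemma inner_sm (l : ℝ) (a : E) : sm l a = l • a := rfl
@[simp] lemma inner_ad (a b : E) : ad a b = a + b := rfl
@[simp] lemma inner_ip (a b : E) : ip a b = Inner.inner ℝ a b := rfl
@[simp] lemma inner_nm (a : E) : nm a = ‖a‖ := dist_zero_right a

end Inner

end ConeAlg

lemma properSpace_of_cover {X Y : Type*} [TopologicalSpace X] [MetricSpace Y] (y : Y)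
    (h : ∀ r : ℝ, ∃ (K : Set X) (f : X → Y), IsCompact K ∧ ContinuousOn f K ∧
      Metric.closedBall y r ⊆ f '' K) : ProperSpace Y := by
  refine ⟨fun z r => ?_⟩
  obtain ⟨K, f, hK, hf, hs⟩ := h (r + dist z y)
  exact (hK.image_of_continuousOn hf).of_isClosed_subset Metric.isClosed_closedBall
    ((Metric.closedBall_subset_closedBall' le_rfl).trans hs)

/-- The product of two cone algebras. -/
@[ext] structure CProd (C D : Type*) where
  /-- First component. -/
  fst : C
  /-- Second component. -/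
  snd : D

namespace CProd

open ConeAlg

variable {C D : Type*} [ConeAlg C] [ConeAlg D]

noncomputable instance : ConeAlg (CProd C D) :=
  ofKernel ⟨o, o⟩ (fun l a => ⟨sm l a.1, sm l a.2⟩) (fun a b => ⟨ad a.1 b.1, ad a.2 b.2⟩)
    (fun a b => ip a.1 b.1 + ip a.2 b.2) (fun a b => by rw [ip_comm a.1, ip_comm a.2])
    (fun a => by simp [ip_o]) (fun hl a b => by simp only [ip_sm hl, mul_add])
    (fun a b => by
      linarith [dist_sq a.1 b.1, dist_sq a.2 b.2, sq_nonneg (dist a.1 b.1),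
        sq_nonneg (dist a.2 b.2)])
    (fun a b h => CProd.ext
      (eq_of_ip (by linarith [dist_sq a.2 b.2, sq_nonneg (dist a.2 b.2)]))
      (eq_of_ip (by linarith [dist_sq a.1 b.1, sq_nonneg (dist a.1 b.1)])))
    (fun x a b => by linarith [ip_ad x.1 a.1 b.1, ip_ad x.2 a.2 b.2])
    (fun a b => by simp only [ad_sq]; ring)

@[simp] lemma o_fst : (o : CProd C D).1 = o := rfl
@[simp] lemma o_snd : (o : CProd C D).2 = o := rfl
@[simp] lemma sm_fst (l : ℝ) (a : CProd C D) : (sm l a).1 = sm l a.1 := rfl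
@[simp] lemma sm_snd (l : ℝ) (a : CProd C D) : (sm l a).2 = sm l a.2 := rfl
@[simp] lemma ad_fst (a b : CProd C D) : (ad a b).1 = ad a.1 b.1 := rfl
@[simp] lemma ad_snd (a b : CProd C D) : (ad a b).2 = ad a.2 b.2 := rfl
lemma ip_def (a b : CProd C D) : ip a b = ip a.1 b.1 + ip a.2 b.2 := rfl

lemma dist_sq' (a b : CProd C D) : dist a b ^ 2 = dist a.1 b.1 ^ 2 + dist a.2 b.2 ^ 2 := by
  simp only [dist_sq, ip_def]
  ring

lemma nm_sq' (a : CProd C D) : nm a ^ 2 = nm a.1 ^ 2 + nm a.2 ^ 2 := dist_sq' a o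

lemma dist_fst_le (a b : CProd C D) : dist a.1 b.1 ≤ dist a b :=
  (sq_le_sq₀ dist_nonneg dist_nonneg).1 (by rw [dist_sq']; nlinarith)

lemma dist_snd_le (a b : CProd C D) : dist a.2 b.2 ≤ dist a b :=
  (sq_le_sq₀ dist_nonneg dist_nonneg).1 (by rw [dist_sq']; nlinarith)

lemma dist_le_add (a b : CProd C D) : dist a b ≤ dist a.1 b.1 + dist a.2 b.2 :=
  (sq_le_sq₀ dist_nonneg (by positivity)).1 (by
    rw [dist_sq']
    nlinarith [mul_nonneg (dist_nonneg (x := a.1) (y := b.1)) (dist_nonneg (x := a.2) (y := b.2))])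

lemma continuous_fst : Continuous (fst : CProd C D → C) :=
  (LipschitzWith.of_dist_le_mul (K := 1) fun a b => by simpa using dist_fst_le a b).continuous

lemma continuous_snd : Continuous (snd : CProd C D → D) :=
  (LipschitzWith.of_dist_le_mul (K := 1) fun a b => by simpa using dist_snd_le a b).continuous

lemma continuous_mk : Continuous fun p : C × D => (⟨p.1, p.2⟩ : CProd C D) := by
  refine (LipschitzWith.of_dist_le_mul (K := 2) fun p q => (dist_le_add _ _).trans ?_).continuous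
  have h1 := le_max_left (dist p.1 q.1) (dist p.2 q.2)
  have h2 := le_max_right (dist p.1 q.1) (dist p.2 q.2)
  rw [Prod.dist_eq]
  push_cast
  linarith

instance [ProperSpace C] [ProperSpace D] : ProperSpace (CProd C D) :=
  properSpace_of_cover (X := C × D) o fun r =>
    ⟨Metric.closedBall o r ×ˢ Metric.closedBall o r, _,
      (isCompact_closedBall _ _).prod (isCompact_closedBall _ _), continuous_mk.continuousOn,
      fun a ha => ⟨(a.1, a.2), ⟨(dist_fst_le a o).trans ha, (dist_snd_le a o).trans ha⟩, rfl⟩⟩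

end CProd

end Pool.Agent.Lib.MP_c2693b_gt
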