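import Pool.Agent.Lib.MP_c2693b_gt.TrDefs
import Pool.Agent.Lib.MP_c2693b_gt.ConeCN

/-! Section 8: flows on products of cone algebras. -/

namespace Pool.Agent.Lib.MP_c2693b_gt

open ConeAlg

/-- The cone algebra `C` carries a flow of slope `κ` in the direction opposite to `v`. -/
def FlowAt {C : Type*} [ConeAlg C] (κ : ℝ) (v : C) : Prop :=
  ∃ φ, IsFlow (fun z : C => -ip v z) (fun l : {l : ℝ // 0 < l} => sm l.1) (fun l => l.1) (nm v) κ φ

variable {C D : Type*} [ConeAlg C] [ConeAlg D] {κ : ℝ}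

theorem FlowAt.mono {κ' : ℝ} {v : C} (h : FlowAt κ v) (hκ : κ ≤ κ') : FlowAt κ' v := by
  obtain ⟨φ, h⟩ := h
  exact ⟨φ, h.zero, h.add, h.level, fun t p => (h.speed t p).trans
    (mul_le_mul_of_nonneg_right (mul_le_mul_of_nonneg_right hκ (nm_nonneg v)) (abs_nonneg t)),
    h.lip, h.hom⟩

theorem flowAt_o (κ : ℝ) : FlowAt κ (o : C) :=
  ⟨fun _ p => p, fun _ => rfl, fun _ _ _ => rfl, fun t p => by simp, fun t p => by simp,
    ⟨1, zero_le_one, fun _ p q => by rw [one_mul]⟩, fun _ _ _ => rfl⟩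

theorem FlowAt.sm {v : C} (h : FlowAt κ v) {l : ℝ} (hl : 0 ≤ l) : FlowAt κ (ConeAlg.sm l v) := by
  obtain ⟨φ, h⟩ := h
  refine ⟨fun t => φ (l * t), fun p => by simp only [mul_zero, h.zero],
    fun s t p => by simp only [mul_add, h.add], fun t p => ?_, fun t p => ?_, ?_,
    fun i t p => ?_⟩
  · have := h.level (l * t) p
    simp only [ip_sm hl, nm_sm hl] at this ⊢
    linear_combination l * this
  · have := h.speed (l * t) p
    rw [abs_mul, abs_of_nonneg hl] at this
    rw [nm_sm hl]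
    linarith
  · obtain ⟨K, hK, h1⟩ := h.lip
    exact ⟨K, hK, fun t p q => h1 _ p q⟩
  · have := h.hom i (l * t) p
    rw [mul_left_comm] at this
    exact this

/-- It is enough to treat unit vectors. -/
theorem flowAt_of_unit (h : ∀ u : C, nm u = 1 → FlowAt κ u) (v : C) : FlowAt κ v := by
  by_cases hv : v = o
  · rw [hv]
    exact flowAt_o κ
  have h0 : 0 < nm v := (nm_nonneg v).lt_of_ne' fun e => hv (nm_eq_zero.1 e)
  have h1 := (h (sm (nm v)⁻¹ v) (by rw [nm_sm (inv_nonneg.2 h0.le), inv_mul_cancel₀ h0.ne'])).sm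
    h0.le
  rwa [sm_sm h0.le (inv_nonneg.2 h0.le), mul_inv_cancel₀ h0.ne', sm_one] at h1

theorem flowAt_of_unit' (h : ∀ u : C, nm u = 1 → ∃ φ, IsFlow (fun z : C => -ip u z)
    (fun l : {l : ℝ // 0 < l} => sm l.1) (fun l => l.1) 1 κ φ) (v : C) : FlowAt κ v :=
  flowAt_of_unit (fun u hu => by rw [FlowAt, hu]; exact h u hu) v

/-- Translations of an inner product space. -/
theorem flowAt_inner {E : Type*} [NormedAddCommGroup E] [InnerProductSpace ℝ E] (hκ : 1 ≤ κ)
    (v : E) : FlowAt κ v := by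
  refine ⟨fun t p => p - t • v, fun p => by simp, fun s t p => by rw [add_smul]; abel,
    fun t p => ?_, fun t p => ?_, ⟨1, zero_le_one, fun t p q => by simp⟩, fun i t p => ?_⟩
  · simp only [inner_ip, inner_nm, inner_sub_right, real_inner_smul_right,
      real_inner_self_eq_norm_sq]
    ring
  · rw [dist_eq_norm, sub_sub_cancel_left, norm_neg, norm_smul, Real.norm_eq_abs, inner_nm]
    nlinarith [mul_nonneg (norm_nonneg v) (abs_nonneg t)]
  · simp only [inner_sm, smul_sub, mul_smul]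

/-- The product step. -/
theorem FlowAt.prod (hκ : 0 ≤ κ) {v : CProd C D} (h1 : FlowAt κ v.1) (h2 : FlowAt κ v.2) :
    FlowAt κ v := by
  obtain ⟨φ, h1⟩ := h1
  obtain ⟨ψ, h2⟩ := h2
  refine ⟨fun t p => ⟨φ t p.1, ψ t p.2⟩, fun p => by simp only [h1.zero, h2.zero],
    fun s t p => by simp only [h1.add, h2.add], fun t p => ?_, fun t p => ?_, ?_,
    fun i t p => CProd.ext (h1.hom i t p.1) (h2.hom i t p.2)⟩
  · have a1 := h1.level t p.1
    have a2 := h2.level t p.2
    simp only [CProd.ip_def, CProd.nm_sq'] at a1 a2 ⊢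
    linarith
  · refine (sq_le_sq₀ dist_nonneg
      (mul_nonneg (mul_nonneg hκ (nm_nonneg v)) (abs_nonneg t))).1 ?_
    have a1 := pow_le_pow_left₀ dist_nonneg (h1.speed t p.1) 2
    have a2 := pow_le_pow_left₀ dist_nonneg (h2.speed t p.2) 2
    simp only [CProd.dist_sq', mul_pow, CProd.nm_sq'] at a1 a2 ⊢
    linarith
  · obtain ⟨K, hK, a1⟩ := h1.lip
    obtain ⟨L, hL, a2⟩ := h2.lip
    refine ⟨K + L, add_nonneg hK hL, fun t p q => (CProd.dist_le_add _ _).trans ?_⟩
    have b1 := (a1 t p.1 q.1).trans (mul_le_mul_of_nonneg_left (CProd.dist_fst_le p q) hK)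
    have b2 := (a2 t p.2 q.2).trans (mul_le_mul_of_nonneg_left (CProd.dist_snd_le p q) hL)
    rw [add_mul]
    exact add_le_add b1 b2

/-- Flows on `C` in all directions give flows on `E × C` in all directions. -/
theorem flowAt_prod_inner {E : Type*} [NormedAddCommGroup E] [InnerProductSpace ℝ E] (hκ : 1 ≤ κ)
    (h : ∀ u : C, FlowAt κ u) (v : CProd E C) : FlowAt κ v :=
  FlowAt.prod (zero_le_one.trans hκ) (flowAt_inner hκ v.1) (h v.2)

end Pool.Agent.Lib.MP_c2693b_gt
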