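import Pool.Agent.Lib.MP_c2693b_gt.TrDefs

namespace Pool.Agent.Lib.MP_c2693b_gt

variable {X ι : Type*} [MetricSpace X] {b : X → ℝ} {D : ι → X → X} {w : ι → ℝ} {κ : ℝ}

/-- A track system on the whole space is a flow. -/
theorem Trk.isFlow {R : X → X → Prop} (hκ : 0 ≤ κ) (hb : Lp 1 b) (hD : Hmg D w b)
    (h : Trk b D κ Set.univ ∅ ∅ R) : ∃ φ, IsFlow b D w 1 κ φ := by
  have _ := hκ
  have ex : ∀ t p, ∃ q, R p q ∧ b q = b p + t := by
    intro t p
    rcases le_total 0 t with l | l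
    · obtain ⟨q, e, c | ⟨c, _⟩⟩ := h.up p trivial (b p + t) (by linarith)
      · exact ⟨q, e, c⟩
      · exact c.elim
    · obtain ⟨q, e, c | ⟨c, _⟩⟩ := h.down p trivial (b p + t) (by linarith)
      · exact ⟨q, e, c⟩
      · exact c.elim
  choose φ h1 h2 using ex
  have uq : ∀ t p q, R p q → b q = b p + t → φ t p = q := fun t p q e c =>
    h.toLoc.eq_of (h.trans (h.symm (h1 t p)) e) (by rw [h2, c])
  refine ⟨φ, fun p => uq _ _ _ (h.refl p trivial) (by simp), fun s t p => ?_, fun t p => ?_,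
    fun t p => ?_, ?_, fun i t p => ?_⟩
  · exact uq _ _ _ (h.trans (h1 t p) (h1 s _)) (by rw [h2, h2]; ring)
  · rw [h2]; ring
  · have := h.vert (h.symm (h1 t p))
    rwa [h2, add_sub_cancel_left, ← mul_one κ] at this
  · obtain ⟨K, k, l⟩ := h.lip
    refine ⟨2 * K, by positivity, fun t p q => ?_⟩
    have := l p _ q _ (h1 t p) (h1 t q)
    rw [h2, h2, add_sub_add_right_eq_sub] at this
    have a := hb.abs p q
    nlinarith [mul_le_mul_of_nonneg_left a k]
  · exact uq _ _ _ (h.inv i (h1 t p)) (by rw [hD, hD, h2]; ring)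

/-- The two ends of a track system are homeomorphic. -/
theorem Between.homeo {f g : X → ℝ} (h : Between b D κ f g) :
    ∃ e : {p // b p = g p} ≃ₜ {p // b p = f p},
      ∀ p, dist p.1 (e p).1 ≤ κ * (b p.1 - b (e p).1) := by
  obtain ⟨R, t, rB, rT⟩ := h
  have e1 : ∀ p : {p // b p = g p}, ∃ a : {p // b p = f p}, R p.1 a.1 := fun p => by
    obtain ⟨a, ha, e⟩ := rB p.1 (t.subT p.2); exact ⟨⟨a, ha⟩, e⟩
  have e2 : ∀ p : {p // b p = f p}, ∃ a : {p // b p = g p}, R p.1 a.1 := fun p => by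
    obtain ⟨a, ha, e⟩ := rT p.1 (t.subB p.2); exact ⟨⟨a, ha⟩, e⟩
  choose u hu using e1
  choose v hv using e2
  obtain ⟨K₁, _, l₁⟩ := t.lipB
  obtain ⟨K₂, _, l₂⟩ := t.lipT
  have c1 : LipschitzWith (Real.toNNReal K₁) u := LipschitzWith.of_dist_le' fun p q =>
    l₁ _ _ _ _ (hu p) (hu q) (u p).2 (u q).2
  have c2 : LipschitzWith (Real.toNNReal K₂) v := LipschitzWith.of_dist_le' fun p q =>
    l₂ _ _ _ _ (hv p) (hv q) (v p).2 (v q).2
  refine ⟨⟨⟨u, v, fun p => Subtype.ext ?_, fun p => Subtype.ext ?_⟩, c1.continuous,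
    c2.continuous⟩, fun p => ?_⟩
  · exact t.uniqT (hv (u p)) (t.symm (hu p)) (v _).2 p.2
  · exact t.uniqB (hu (v p)) (t.symm (hv p)) (u _).2 p.2
  · have := t.vert (hu p)
    rwa [abs_of_nonneg (sub_nonneg.2 (t.monoB (hu p) (u p).2))] at this

end Pool.Agent.Lib.MP_c2693b_gt
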