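import Pool.Agent.Lib.MP_c2693b_gt.TrDefs

namespace Pool.Agent.Lib.MP_c2693b_gt

variable {X ι : Type*} [MetricSpace X] {b : X → ℝ} {D : ι → X → X} {w : ι → ℝ} {κ : ℝ}

theorem Loc.rate {O : X → X → Prop} (hO : Loc b D κ O) {f : X → ℝ} {L : ℝ} (hL : 0 ≤ L)
    (hf : Lp L f) {p q : X} (e : O p q) (h : b p ≤ b q) :
    (1 - κ * L) * (b q - b p) ≤ (b q - f q) - (b p - f p) := by
  have a := hO.vert (hO.symm e)
  rw [abs_of_nonneg (by linarith)] at a
  have c := hf q p
  nlinarith [mul_le_mul_of_nonneg_left a hL]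

/-- The hypotheses of the box lemma. -/
structure BoxH (b : X → ℝ) (D : ι → X → X) (κ L : ℝ) (O : X → X → Prop) (f g : X → ℝ) : Prop where
  loc : Loc b D κ O
  hκ : 0 ≤ κ
  hb : Lp 1 b
  hL : 0 ≤ L
  hLκ : κ * L < 1
  hf : Lp L f
  hg : Lp L g
  hfg : ∀ p, f p ≤ g p
  long : ∀ p, f p ≤ b p → b p ≤ g p → f p < g p →
      ∀ s, |s - b p| ≤ (g p - f p) / (1 - κ * L) → ∃ q, O p q ∧ b q = s

/-- The relation of a box. -/
def BxR (b f g : X → ℝ) (O : X → X → Prop) (p q : X) : Prop :=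
  (f p ≤ b p ∧ b p ≤ g p) ∧ (f q ≤ b q ∧ b q ≤ g q) ∧ (p = q ∨ O p q)

variable {L : ℝ} {O : X → X → Prop} {f g : X → ℝ}

theorem BxR.neg {p q : X} (h : BxR b f g O p q) :
    BxR (fun p => -b p) (fun p => -g p) (fun p => -f p) O p q :=
  ⟨⟨neg_le_neg h.1.2, neg_le_neg h.1.1⟩, ⟨neg_le_neg h.2.1.2, neg_le_neg h.2.1.1⟩, h.2.2⟩

theorem BxR.of_neg {p q : X} (h : BxR (fun p => -b p) (fun p => -g p) (fun p => -f p) O p q) :
    BxR b f g O p q :=
  ⟨⟨neg_le_neg_iff.1 h.1.2, neg_le_neg_iff.1 h.1.1⟩,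
    ⟨neg_le_neg_iff.1 h.2.1.2, neg_le_neg_iff.1 h.2.1.1⟩, h.2.2⟩

namespace BoxH

theorem neg (h : BoxH b D κ L O f g) :
    BoxH (fun p => -b p) D κ L O (fun p => -g p) (fun p => -f p) where
  loc := h.loc.neg
  hκ := h.hκ
  hb := h.hb.neg
  hL := h.hL
  hLκ := h.hLκ
  hf := h.hg.neg
  hg := h.hf.neg
  hfg := fun p => neg_le_neg (h.hfg p)
  long := fun p a c e s hs => by
    obtain ⟨q, u, v⟩ := h.long p (by linarith) (by linarith) (by linarith) (-s) (by
      rw [show -s - b p = -(s - -b p) by ring, abs_neg, show g p - f p = -f p - -g p by ring]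
      exact hs)
    exact ⟨q, u, by linarith⟩

theorem self (h : BoxH b D κ L O f g) {p : X} (h1 : f p ≤ b p) (h2 : b p ≤ g p) (h3 : f p < g p) :
    O p p := by
  have hc : 0 < 1 - κ * L := by linarith [h.hLκ]
  obtain ⟨q, u, v⟩ := h.long p h1 h2 h3 (b p) (by
    rw [sub_self, abs_zero]; exact div_nonneg (by linarith) hc.le)
  exact h.loc.trans u (h.loc.symm u)

theorem len (h : BoxH b D κ L O f g) {p q : X} (e : BxR b f g O p q) :
    (1 - κ * L) * |b p - b q| ≤ g p - f p := by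
  obtain ⟨⟨a1, a2⟩, ⟨c1, c2⟩, rfl | e⟩ := e
  · simp; linarith
  · rcases le_total (b p) (b q) with l | l
    · have := h.loc.rate h.hL h.hg e l
      rw [abs_of_nonpos (by linarith)]; linarith
    · have := h.loc.rate h.hL h.hf (h.loc.symm e) l
      rw [abs_of_nonneg (by linarith)]; linarith

theorem vert (h : BoxH b D κ L O f g) {p q : X} (e : BxR b f g O p q) :
    dist p q ≤ κ * |b p - b q| := by
  obtain ⟨_, _, rfl | e⟩ := e
  · simp
  · exact h.loc.vert e

theorem triv (h : BoxH b D κ L O f g) {p q : X} (e : BxR b f g O p q) (hp : ¬ f p < g p) :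
    p = q := by
  have hc : 0 < 1 - κ * L := by linarith [h.hLκ]
  have a := h.len e
  have c := h.vert e
  have z : |b p - b q| = 0 := by
    refine le_antisymm ?_ (abs_nonneg _)
    by_contra hn
    have := mul_pos hc (not_le.1 hn)
    linarith [not_lt.1 hp]
  rw [z, mul_zero] at c
  exact dist_le_zero.1 c

theorem rel (h : BoxH b D κ L O f g) {p q : X} (e : BxR b f g O p q) (hp : f p < g p) : O p q := by
  obtain ⟨a, _, rfl | e⟩ := e
  · exact h.self a.1 a.2 hp
  · exact e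

theorem far (h : BoxH b D κ L O f g) {p p' q : X} (e : BxR b f g O p p') (hq : ¬ f q < g q) :
    dist p' q ≤ (1 + κ * (2 * L) / (1 - κ * L)) * dist p q := by
  have hc : 0 < 1 - κ * L := by linarith [h.hLκ]
  have a := h.len e
  have c := h.vert e
  have a1 := h.hg p q
  have a2 := h.hf q p
  rw [dist_comm q p] at a2
  have a3 : |b p - b p'| ≤ 2 * L * dist p q / (1 - κ * L) := by
    rw [le_div_iff₀ hc]; nlinarith [not_lt.1 hq]
  have t := dist_triangle_left p' q p
  have := mul_le_mul_of_nonneg_left a3 h.hκ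
  calc dist p' q ≤ κ * (2 * L * dist p q / (1 - κ * L)) + dist p q := by linarith
    _ = _ := by ring

theorem monoT (h : BoxH b D κ L O f g) {p a : X} (e : BxR b f g O p a) (ha : b a = g a) :
    b p ≤ b a := by
  have hc : 0 < 1 - κ * L := by linarith [h.hLκ]
  obtain ⟨⟨_, a2⟩, _, rfl | e⟩ := e
  · exact le_rfl
  · by_contra hn
    have l := not_le.1 hn
    have := h.loc.rate h.hL h.hg (h.loc.symm e) l.le
    nlinarith [mul_pos hc (sub_pos.2 l)]

theorem top (h : BoxH b D κ L O f g) {p : X} (h1 : f p ≤ b p) (h2 : b p ≤ g p) :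
    ∃ a, BxR b f g O p a ∧ b a = g a ∧
      ∀ s, b p ≤ s → s ≤ b a → ∃ q, BxR b f g O p q ∧ b q = s := by
  have hc : 0 < 1 - κ * L := by linarith [h.hLκ]
  by_cases h3 : f p < g p
  swap
  · refine ⟨p, ⟨⟨h1, h2⟩, ⟨h1, h2⟩, Or.inl rfl⟩, by linarith [not_lt.1 h3], fun s a c => ?_⟩
    exact ⟨p, ⟨⟨h1, h2⟩, ⟨h1, h2⟩, Or.inl rfl⟩, le_antisymm a c⟩
  set H := (g p - f p) / (1 - κ * L) with hH
  have H0 : 0 ≤ H := div_nonneg (by linarith) hc.le
  have ex : ∀ s, ∃ q, s ∈ Set.Icc (b p) (b p + H) → O p q ∧ b q = s := by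
    intro s
    by_cases hs : s ∈ Set.Icc (b p) (b p + H)
    · obtain ⟨q, u⟩ := h.long p h1 h2 h3 s (by
        rw [abs_of_nonneg (by linarith [hs.1])]; linarith [hs.2])
      exact ⟨q, fun _ => u⟩
    · exact ⟨p, fun a => absurd a hs⟩
  choose γ hγ using ex
  have cont : ContinuousOn γ (Set.Icc (b p) (b p + H)) := by
    have : LipschitzOnWith (Real.toNNReal κ) γ (Set.Icc (b p) (b p + H)) :=
      LipschitzOnWith.of_dist_le' fun s hs t ht => by
        have := h.loc.vert (h.loc.trans (h.loc.symm (hγ s hs).1) (hγ t ht).1)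
        rwa [(hγ s hs).2, (hγ t ht).2] at this
    exact this.continuousOn
  have l : b p ≤ b p + H := by linarith
  have iv := intermediate_value_Icc l (f := fun s => s - g (γ s))
    (continuousOn_id.sub (h.hg.continuous.comp_continuousOn cont))
  have e0 : γ (b p) = p := (h.loc.eq_of (hγ _ ⟨le_rfl, l⟩).1 (hγ _ ⟨le_rfl, l⟩).2.symm).symm
  have e1 : 0 ≤ b p + H - g (γ (b p + H)) := by
    have u := hγ _ ⟨l, le_rfl⟩
    have := h.loc.rate h.hL h.hg u.1 (by rw [u.2]; exact l)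
    rw [u.2, add_sub_cancel_left, hH, mul_div_cancel₀ _ hc.ne'] at this
    rw [hH]; linarith
  obtain ⟨u, hu, e⟩ := iv (show (0 : ℝ) ∈ Set.Icc _ _ from ⟨by simp only [e0]; linarith, e1⟩)
  simp only at e
  have bu := hγ u hu
  have inW : ∀ s, b p ≤ s → s ≤ u → BxR b f g O p (γ s) ∧ b (γ s) = s := by
    intro s s1 s2
    have v := hγ s ⟨s1, s2.trans hu.2⟩
    refine ⟨⟨⟨h1, h2⟩, ⟨?_, ?_⟩, Or.inr v.1⟩, v.2⟩
    · have := h.loc.rate h.hL h.hf v.1 (by rw [v.2]; exact s1)
      nlinarith [mul_nonneg hc.le (show 0 ≤ b (γ s) - b p by rw [v.2]; linarith)]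
    · have := h.loc.rate h.hL h.hg (h.loc.trans (h.loc.symm v.1) bu.1) (by rw [v.2, bu.2]; exact s2)
      nlinarith [mul_nonneg hc.le (show 0 ≤ b (γ u) - b (γ s) by rw [v.2, bu.2]; linarith), bu.2]
  refine ⟨γ u, (inW u hu.1 le_rfl).1, by linarith [bu.2], fun s s1 s2 => ⟨γ s, inW s s1 ?_⟩⟩
  rwa [bu.2] at s2

theorem up (h : BoxH b D κ L O f g) {p : X} (h1 : f p ≤ b p) (h2 : b p ≤ g p) (s : ℝ)
    (hs : b p ≤ s) : ∃ q, BxR b f g O p q ∧ (b q = s ∨ (b q = g q ∧ b q ≤ s)) := by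
  obtain ⟨a, e, ha, iv⟩ := h.top h1 h2
  rcases le_total s (b a) with l | l
  · obtain ⟨q, u, v⟩ := iv s hs l
    exact ⟨q, u, Or.inl v⟩
  · exact ⟨a, e, Or.inr ⟨ha, l⟩⟩

theorem lipT (h : BoxH b D κ L O f g) : ∃ K, 0 ≤ K ∧ ∀ p a q a', BxR b f g O p a →
    BxR b f g O q a' → b a = g a → b a' = g a' → dist a a' ≤ K * dist p q := by
  have hc : 0 < 1 - κ * L := by linarith [h.hLκ]
  have hκ := h.hκ
  have hL := h.hL
  obtain ⟨K, k, l⟩ := h.loc.lip
  have key : ∀ p a q a', BxR b f g O p a → BxR b f g O q a' → b a = g a → b a' = g a' →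
      f p < g p → f q < g q → b a ≤ b a' →
      b a' - b a ≤ (L * K / (1 - κ * L) + 2) * dist p q := by
    intro p a q a' e e' ha ha' hp hq hle
    have d0 := dist_nonneg (x := p) (y := q)
    have z : 0 ≤ L * K / (1 - κ * L) * dist p q := by positivity
    by_cases hr : |b a - b q| ≤ (g q - f q) / (1 - κ * L)
    · obtain ⟨c, u, v⟩ := h.long q e'.1.1 e'.1.2 hq _ hr
      have a1 := l p a q c (h.rel e hp) u
      rw [v, sub_self, abs_zero, add_zero] at a1
      have a2 := h.hg c a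
      rw [dist_comm] at a2
      have a3 := h.loc.rate h.hL h.hg (h.loc.trans (h.loc.symm u) (h.rel e' hq)) (by rwa [v])
      have a4 : b a' - b a ≤ L * K * dist p q / (1 - κ * L) := by
        rw [le_div_iff₀ hc]
        rw [v] at a3
        nlinarith [mul_le_mul_of_nonneg_left a1 hL]
      calc b a' - b a ≤ L * K / (1 - κ * L) * dist p q := by rw [div_mul_eq_mul_div]; exact a4
        _ ≤ _ := by nlinarith
    · have a1 : |b q - b a'| ≤ (g q - f q) / (1 - κ * L) := by
        rw [le_div_iff₀ hc, mul_comm]; exact h.len e'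
      have a2 := h.monoT e ha
      have a3 := h.hb q p
      rw [dist_comm] at a3
      have a4 := (abs_le.1 a1).1
      rcases lt_abs.1 (not_le.1 hr) with a5 | a5 <;> nlinarith
  refine ⟨K * (1 + (L * K / (1 - κ * L) + 2)) + (1 + κ * (2 * L) / (1 - κ * L)), by positivity, ?_⟩
  intro p a q a' e e' ha ha'
  have d0 := dist_nonneg (x := p) (y := q)
  have z1 : 0 ≤ K * (1 + (L * K / (1 - κ * L) + 2)) * dist p q := by positivity
  have z2 : 0 ≤ (1 + κ * (2 * L) / (1 - κ * L)) * dist p q := by positivity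
  by_cases hq : f q < g q
  · by_cases hp : f p < g p
    · have a1 := l p a q a' (h.rel e hp) (h.rel e' hq)
      have a2 : |b a - b a'| ≤ (L * K / (1 - κ * L) + 2) * dist p q := by
        rcases le_total (b a) (b a') with c | c
        · rw [abs_of_nonpos (by linarith)]; linarith [key p a q a' e e' ha ha' hp hq c]
        · rw [abs_of_nonneg (by linarith), dist_comm]; exact key q a' p a e' e ha' ha hq hp c
      nlinarith [mul_le_mul_of_nonneg_left a2 k]
    · obtain rfl := h.triv e hp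
      have := h.far e' hp
      rw [dist_comm a', dist_comm q] at this
      linarith
  · obtain rfl := h.triv e' hq
    have := h.far e hq
    linarith

theorem lip (h : BoxH b D κ L O f g) : ∃ K, 0 ≤ K ∧ ∀ p p' q q', BxR b f g O p p' →
    BxR b f g O q q' → dist p' q' ≤ K * (dist p q + |b p' - b q'|) := by
  have hc : 0 < 1 - κ * L := by linarith [h.hLκ]
  have hκ := h.hκ
  have hL := h.hL
  obtain ⟨K, k, l⟩ := h.loc.lip
  refine ⟨K + (1 + κ * (2 * L) / (1 - κ * L)), by positivity, fun p p' q q' e e' => ?_⟩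
  have d0 := dist_nonneg (x := p) (y := q)
  have d1 := abs_nonneg (b p' - b q')
  have z1 : 0 ≤ K * (dist p q + |b p' - b q'|) := by positivity
  have z2 : 0 ≤ (1 + κ * (2 * L) / (1 - κ * L)) * dist p q := by positivity
  have z3 : 0 ≤ (1 + κ * (2 * L) / (1 - κ * L)) * |b p' - b q'| := by positivity
  by_cases hq : f q < g q
  · by_cases hp : f p < g p
    · have a1 := l p p' q q' (h.rel e hp) (h.rel e' hq)
      linarith
    · obtain rfl := h.triv e hp
      have := h.far e' hp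
      rw [dist_comm q', dist_comm q] at this
      linarith
  · obtain rfl := h.triv e' hq
    have := h.far e hq
    linarith

end BoxH

theorem Loc.box (hO : Loc b D κ O) (hκ : 0 ≤ κ) (hb : Lp 1 b)
    (hw : ∀ i, 0 < w i) (hD : Hmg D w b) (hL : 0 ≤ L) (hLκ : κ * L < 1)
    (hf : Lp L f) (hg : Lp L g) (hDf : Hmg D w f) (hDg : Hmg D w g) (hfg : ∀ p, f p ≤ g p)
    (long : ∀ p, f p ≤ b p → b p ≤ g p → f p < g p →
      ∀ s, |s - b p| ≤ (g p - f p) / (1 - κ * L) → ∃ q, O p q ∧ b q = s) :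
    Between b D κ f g := by
  have h : BoxH b D κ L O f g := ⟨hO, hκ, hb, hL, hLκ, hf, hg, hfg, long⟩
  have hW : ∀ i p, (f p ≤ b p ∧ b p ≤ g p) → f (D i p) ≤ b (D i p) ∧ b (D i p) ≤ g (D i p) := by
    intro i p hp
    rw [hD, hDf, hDg]
    exact ⟨mul_le_mul_of_nonneg_left hp.1 (hw i).le, mul_le_mul_of_nonneg_left hp.2 (hw i).le⟩
  refine ⟨BxR b f g O, ?_, ?_, ?_⟩
  · exact
      { symm := fun e => ⟨e.2.1, e.1, e.2.2.imp Eq.symm hO.symm⟩
        trans := by
          rintro p q r ⟨a, _, rfl | e⟩ e'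
          · exact e'
          · obtain ⟨_, c, rfl | e'⟩ := e'
            · exact ⟨a, c, Or.inr e⟩
            · exact ⟨a, c, Or.inr (hO.trans e e')⟩
        vert := h.vert
        lip := h.lip
        inv := fun i _ _ e => ⟨hW i _ e.1, hW i _ e.2.1, e.2.2.imp (congrArg _) (hO.inv i)⟩
        refl := fun p hp => ⟨hp, hp, Or.inl rfl⟩
        mem := fun e => e.1
        subB := fun p (hp : b p = f p) => ⟨hp.ge, hp.le.trans (hfg p)⟩
        subT := fun p (hp : b p = g p) => ⟨(hfg p).trans hp.ge, hp.le⟩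
        down := fun p hp s hs => by
          obtain ⟨q, e, c⟩ := h.neg.up (p := p) (neg_le_neg hp.2) (neg_le_neg hp.1) (-s)
            (neg_le_neg hs)
          refine ⟨q, e.of_neg, ?_⟩
          rcases c with c | ⟨c, c'⟩
          · left; linarith
          · right; exact ⟨neg_injective c, by linarith⟩
        up := fun p hp s hs => h.up hp.1 hp.2 s hs
        monoB := fun e ha => neg_le_neg_iff.1 (h.neg.monoT e.neg (congrArg Neg.neg ha))
        monoT := fun e ha => h.monoT e ha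
        lipB := by
          obtain ⟨K, k, l⟩ := h.neg.lipT
          exact ⟨K, k, fun p a q a' e e' ha ha' =>
            l p a q a' e.neg e'.neg (congrArg Neg.neg ha) (congrArg Neg.neg ha')⟩
        lipT := h.lipT
        invB := fun i p (hp : b p = f p) => show b (D i p) = f (D i p) by rw [hD, hDf, hp]
        invT := fun i p (hp : b p = g p) => show b (D i p) = g (D i p) by rw [hD, hDg, hp] }
  · intro p hp
    obtain ⟨a, e, ha, _⟩ := h.neg.top (p := p) (neg_le_neg hp.2) (neg_le_neg hp.1)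
    exact ⟨a, neg_injective ha, e.of_neg⟩
  · intro p hp
    obtain ⟨a, e, ha, _⟩ := h.top hp.1 hp.2
    exact ⟨a, ha, e⟩

end Pool.Agent.Lib.MP_c2693b_gt
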