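import Pool.Agent.Lib.MP_c2693b_gt.TrGlue
import Pool.Agent.Lib.MP_c2693b_gt.TrBox

namespace Pool.Agent.Lib.MP_c2693b_gt

variable {X ι : Type*} [MetricSpace X] {b : X → ℝ} {D : ι → X → X} {w : ι → ℝ} {κ : ℝ}

theorem loc_bot : Loc b D κ fun _ _ => False where
  symm := id
  trans := fun a _ => a
  vert := False.elim
  lip := ⟨0, le_rfl, fun _ _ _ _ a => a.elim⟩
  inv := fun _ _ _ a => a

theorem between_triv (hκ : 0 ≤ κ) (hb : Lp 1 b) (hw : ∀ i, 0 < w i) (hD : Hmg D w b)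
    {f g : X → ℝ} {L : ℝ} (hL : 0 ≤ L) (hLκ : κ * L < 1) (hf : Lp L f) (hg : Lp L g)
    (hDf : Hmg D w f) (hDg : Hmg D w g) (hfg : ∀ p, f p ≤ g p)
    (h : ∀ p, f p ≤ b p → b p ≤ g p → g p ≤ f p) : Between b D κ f g :=
  loc_bot.box hκ hb hw hD hL hLκ hf hg hDf hDg hfg fun p a c e => absurd (h p a c) (not_le.2 e)

theorem between_of_cover (hX : Btw X) (hκ : 0 ≤ κ) (hb : Lp 1 b) (hw : ∀ i, 0 < w i)
    (hD : Hmg D w b) {f g : X → ℝ} {L : ℝ} (hL : 0 ≤ L) (hLκ : κ * L < 1)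
    (hf : Lp L f) (hg : Lp L g) (hDf : Hmg D w f) (hDg : Hmg D w g)
    {J : Type*} [Fintype J] (ψ : J → X → ℝ) (O : J → X → X → Prop) (hO : ∀ j, Loc b D κ (O j))
    (h0 : ∀ j p, 0 ≤ ψ j p) (hψ : ∀ j, ∃ A, Lp A (ψ j)) (hDψ : ∀ j, Hmg D w (ψ j))
    (hle : ∀ p, f p + ∑ j, ψ j p ≤ g p)
    (heq : ∀ p, f p ≤ b p → b p ≤ g p → f p + ∑ j, ψ j p = g p)
    (long : ∀ j, ∃ ρ, 0 < ρ ∧ ∀ p, f p ≤ b p → b p ≤ g p → 0 < ψ j p →
      ∀ s, |s - b p| ≤ ρ * ψ j p → ∃ q, O j p q ∧ b q = s) :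
    Between b D κ f g := by
  classical
  choose A hA using hψ
  choose ρ hρ long using long
  have hA' : ∀ j, Lp |A j| (ψ j) := fun j => (hA j).mono (le_abs_self _)
  obtain ⟨ε, hε, hεκ⟩ : ∃ ε, 0 < ε ∧ κ * (L + ε) < 1 := by
    refine ⟨(1 - κ * L) / (2 * (κ + 1)), div_pos (by linarith) (by linarith), ?_⟩
    have : κ * ((1 - κ * L) / (2 * (κ + 1))) < 1 - κ * L := by
      rw [← mul_div_assoc, div_lt_iff₀ (by linarith)]; nlinarith
    linarith
  have hc : 0 < 1 - κ * (L + ε) := by linarith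
  obtain ⟨N, hN⟩ := exists_nat_gt ((∑ j, |A j|) / ε + ∑ j, 1 / (ρ j * (1 - κ * (L + ε))))
  have s1 : 0 ≤ (∑ j, |A j|) / ε := div_nonneg (Finset.sum_nonneg fun j _ => abs_nonneg _) hε.le
  have s2 : ∀ j, 0 ≤ 1 / (ρ j * (1 - κ * (L + ε))) := fun j => by have := hρ j; positivity
  have s3 := Finset.sum_nonneg fun j (_ : j ∈ Finset.univ) => s2 j
  have N0 : (0 : ℝ) < N := by linarith
  have N1 : (∑ j, |A j|) / N ≤ ε := by
    rw [div_le_iff₀ N0, mul_comm, ← div_le_iff₀ hε]; linarith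
  have N2 : ∀ j, 1 / N / (1 - κ * (L + ε)) ≤ ρ j := by
    intro j
    have := Finset.single_le_sum (fun j _ => s2 j) (Finset.mem_univ j)
    have h : 1 / (ρ j * (1 - κ * (L + ε))) ≤ N := by linarith
    rw [div_le_iff₀ (mul_pos (hρ j) hc)] at h
    rw [div_le_iff₀ hc, div_le_iff₀ N0]; linarith
  have hsum : ∀ p, 0 ≤ ∑ j, ψ j p := fun p => Finset.sum_nonneg fun j _ => h0 j p
  have hfg : ∀ p, f p ≤ g p := fun p => by linarith [hle p, hsum p]
  let F : ℝ → Finset J → X → ℝ := fun θ s p => f p + θ * (g p - f p) + (∑ j ∈ s, ψ j p) / N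
  have FL : ∀ θ s, 0 ≤ θ → θ ≤ 1 → Lp (L + ε) (F θ s) := by
    intro θ s t0 t1 p q
    have a1 := hf p q
    have a2 := hg p q
    have d0 := dist_nonneg (x := p) (y := q)
    have a3 : ∑ j ∈ s, ψ j p - ∑ j ∈ s, ψ j q ≤ (∑ j, |A j|) * dist p q := by
      rw [← Finset.sum_sub_distrib, Finset.sum_mul]
      refine (Finset.sum_le_sum fun j _ => hA' j p q).trans ?_
      exact Finset.sum_le_sum_of_subset_of_nonneg (Finset.subset_univ _)
        fun j _ _ => mul_nonneg (abs_nonneg _) d0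
    have a4 : (∑ j ∈ s, ψ j p) / N - (∑ j ∈ s, ψ j q) / N ≤ ε * dist p q := by
      rw [← sub_div]
      refine (div_le_div_of_nonneg_right a3 N0.le).trans ?_
      rw [mul_div_right_comm]
      exact mul_le_mul_of_nonneg_right N1 d0
    simp only [F]
    nlinarith [mul_le_mul_of_nonneg_left a1 (sub_nonneg.2 t1), mul_le_mul_of_nonneg_left a2 t0]
  have FH : ∀ θ s, Hmg D w (F θ s) := by
    intro θ s i p
    simp only [F, hDf i p, hDg i p, hDψ _ i p, ← Finset.mul_sum]
    ring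
  have Fs : ∀ s : Finset J, ∀ p, 0 ≤ ∑ j ∈ s, ψ j p ∧ ∑ j ∈ s, ψ j p ≤ g p - f p := by
    intro s p
    refine ⟨Finset.sum_nonneg fun j _ => h0 j p, ?_⟩
    have := Finset.sum_le_sum_of_subset_of_nonneg (Finset.subset_univ s) fun j _ _ => h0 j p
    linarith [hle p]
  have iN : (0 : ℝ) < 1 / N := by positivity
  have Flo : ∀ θ s p, 0 ≤ θ → f p ≤ F θ s p := by
    intro θ s p t0
    have := div_nonneg (Fs s p).1 N0.le
    have := mul_nonneg t0 (sub_nonneg.2 (hfg p))
    simp only [F]; linarith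
  have Fup : ∀ θ s p, F θ s p ≤ F (θ + 1 / N) ∅ p := by
    intro θ s p
    have := div_le_div_of_nonneg_right (Fs s p).2 N0.le
    simp only [F, Finset.sum_empty, zero_div]
    have e : (θ + 1 / N) * (g p - f p) = θ * (g p - f p) + (g p - f p) / N := by ring
    linarith
  have Fhi : ∀ θ p, θ ≤ 1 → F θ ∅ p ≤ g p := by
    intro θ p t1
    simp only [F, Finset.sum_empty, zero_div]
    nlinarith [mul_nonneg (sub_nonneg.2 t1) (sub_nonneg.2 (hfg p))]
  have hLε : 0 ≤ L + ε := by linarith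
  have inner : ∀ θ : ℝ, 0 ≤ θ → θ + 1 / N ≤ 1 → ∀ s, Between b D κ (F θ ∅) (F θ s) := by
    intro θ t0 t1 s
    have t2 : θ ≤ 1 := by linarith
    induction s using Finset.induction_on with
    | empty =>
      exact between_triv hκ hb hw hD hLε hεκ (FL _ _ t0 t2) (FL _ _ t0 t2) (FH _ _) (FH _ _)
        (fun _ => le_rfl) fun _ _ _ => le_rfl
    | insert j s hj ih =>
      have e : ∀ p, F θ (insert j s) p - F θ s p = ψ j p / N := by
        intro p; simp only [F, Finset.sum_insert hj]; ring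
      have m : ∀ p, F θ s p ≤ F θ (insert j s) p := fun p => by
        linarith [e p, div_nonneg (h0 j p) N0.le]
      refine ih.trans hX hκ hb (FL _ _ t0 t2).continuous (fun p => ?_) m ?_
      · have := div_nonneg (Fs s p).1 N0.le
        simp only [F, Finset.sum_empty, zero_div]; linarith
      · refine (hO j).box hκ hb hw hD hLε hεκ (FL _ _ t0 t2) (FL _ _ t0 t2) (FH _ _) (FH _ _) m ?_
        intro p a c l u hu
        have pos : 0 < ψ j p := by
          have : 0 < ψ j p / N := by linarith [e p]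
          exact (div_pos_iff_of_pos_right N0).1 this
        refine long j p ((Flo _ _ _ t0).trans a) (c.trans ((Fup _ _ _).trans (Fhi _ _ t1))) pos u
          (hu.trans ?_)
        rw [e p]
        calc ψ j p / N / (1 - κ * (L + ε)) = 1 / N / (1 - κ * (L + ε)) * ψ j p := by ring
          _ ≤ _ := mul_le_mul_of_nonneg_right (N2 j) pos.le
  have layer : ∀ θ : ℝ, 0 ≤ θ → θ + 1 / N ≤ 1 → Between b D κ (F θ ∅) (F (θ + 1 / N) ∅) := by
    intro θ t0 t1
    have t2 : θ ≤ 1 := by linarith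
    refine (inner θ t0 t1 Finset.univ).trans hX hκ hb (FL _ _ t0 t2).continuous (fun p => ?_)
      (Fup _ _) ?_
    · have := div_nonneg (hsum p) N0.le
      simp only [F, Finset.sum_empty, zero_div]; linarith
    · refine between_triv hκ hb hw hD hLε hεκ (FL _ _ t0 t2) (FL _ _ (by linarith) t1) (FH _ _)
        (FH _ _) (Fup _ _) fun p a c => ?_
      have := heq p ((Flo _ _ _ t0).trans a) (c.trans (Fhi _ _ t1))
      simp only [F, Finset.sum_empty, zero_div]
      rw [show ∑ j, ψ j p = g p - f p by linarith]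
      apply le_of_eq; ring
  have outer : ∀ k : ℕ, k ≤ N → Between b D κ (F 0 ∅) (F (k / N) ∅) := by
    intro k
    induction k with
    | zero => intro _; simpa using inner 0 le_rfl (by
        have : (1 : ℝ) ≤ N := by exact_mod_cast Nat.one_le_iff_ne_zero.2 (by rintro rfl; simp at N0)
        rw [zero_add, div_le_one N0]; exact this) ∅
    | succ k ih =>
      intro hk
      have k0 : (0 : ℝ) ≤ k / N := by positivity
      have e : ((k + 1 : ℕ) : ℝ) / N = k / N + 1 / N := by push_cast; ring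
      have k1 : (k : ℝ) / N + 1 / N ≤ 1 := by
        rw [← e, div_le_one N0]; exact_mod_cast hk
      rw [e]
      refine (ih (Nat.le_of_succ_le hk)).trans hX hκ hb (FL _ _ k0 (by linarith)).continuous
        (fun p => ?_) (Fup _ _) (layer _ k0 k1)
      have := Flo (k / N) ∅ p k0
      simpa [F] using this
  have := outer N le_rfl
  have e0 : F 0 ∅ = f := by funext p; simp [F]
  have e1 : F ((N : ℝ) / N) ∅ = g := by funext p; simp [F, div_self N0.ne']
  rwa [e0, e1] at this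

end Pool.Agent.Lib.MP_c2693b_gt
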