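import Mathlib
import Pool.Agent.Lib.MP_c2693b_gt.ShB
import Pool.Agent.Lib.MP_c2693b_gt.Bdry
import Pool.Agent.Lib.MP_c2693b_gt.TrLayer
import Pool.Agent.Lib.MP_c2693b_gt.TrFlow
import Pool.Agent.Lib.MP_c2693b_gt.TfProd

/-! Shells between metric spheres and the boundary sphere. -/

namespace C2693.Br

open Set Metric Filter Topology Pool.Agent.Lib.MP_c2693b_gt Pool.Agent.Lib.MP_c2693b_gt.ConeAlg

theorem lp_div {Y : Type*} [MetricSpace Y] {a u : Y → ℝ} {A B M c : ℝ} (hc : 0 < c)
    (ha : Lp A a) (hu : Lp B u) (hA : 0 ≤ A) (hB : 0 ≤ B) (h0 : ∀ p, 0 ≤ a p) (hM : ∀ p, a p ≤ M)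
    (hcu : ∀ p, c ≤ u p) : Lp (A / c + M * B / c ^ 2) fun p => a p / u p := by
  intro p q
  have up : 0 < u p := hc.trans_le (hcu p)
  have uq : 0 < u q := hc.trans_le (hcu q)
  have d0 := dist_nonneg (x := p) (y := q)
  have M0 : 0 ≤ M := (h0 p).trans (hM p)
  have e : a p / u p - a q / u q = (a p - a q) / u p + a q * (u q - u p) / (u p * u q) := by
    field_simp; ring
  have h1 : (a p - a q) / u p ≤ A * dist p q / c :=
    (div_le_div_of_nonneg_right (ha p q) up.le).trans
      (div_le_div_of_nonneg_left (by positivity) hc (hcu p))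
  have h2 : a q * (u q - u p) ≤ M * (B * dist p q) := by
    have := hu q p
    rw [dist_comm] at this
    exact (mul_le_mul_of_nonneg_left this (h0 q)).trans
      (mul_le_mul_of_nonneg_right (hM q) (by positivity))
  have h3 : a q * (u q - u p) / (u p * u q) ≤ M * (B * dist p q) / c ^ 2 :=
    (div_le_div_of_nonneg_right h2 (by positivity)).trans
      (div_le_div_of_nonneg_left (by positivity) (by positivity) (by
        rw [sq]; exact mul_le_mul (hcu p) (hcu q) hc.le up.le))
  have e2 : (A / c + M * B / c ^ 2) * dist p q = A * dist p q / c + M * (B * dist p q) / c ^ 2 := by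
    ring
  change a p / u p - a q / u q ≤ _
  rw [e, e2]
  linarith

theorem shell_of_loc {Y : Type*} [MetricSpace Y] [ProperSpace Y]
    (hX : Pool.Agent.Lib.MP_c2693b_gt.Btw Y) (x0 : Y) {κ : ℝ}
    (hκ : 0 ≤ κ) (h : ∀ y, y ≠ x0 → LocAt (fun p => dist p x0) κ y) {r r' : ℝ} (hr : 0 < r)
    (hrr : r < r') : ∃ g : sphere x0 r' ≃ₜ sphere x0 r,
      ∀ z : sphere x0 r', dist (z : Y) (g z) ≤ κ * (r' - r) := by
  classical
  let K : Set Y := {p | r ≤ dist p x0 ∧ dist p x0 ≤ r'}
  have hcd : Continuous fun p : Y => dist p x0 := continuous_id.dist continuous_const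
  have hK : IsCompact K := (isCompact_closedBall x0 r').of_isClosed_subset
    (isClosed_Icc.preimage hcd : IsClosed ((fun p : Y => dist p x0) ⁻¹' Icc r r'))
    fun p hp => hp.2
  have h' : ∀ y : K, LocAt (fun p => dist p x0) κ y := fun y => h y (by
    rintro e
    have := y.2.1
    rw [e, dist_self] at this
    linarith)
  choose η η0 ρ ρ0 O hO long using h'
  obtain ⟨t, ht⟩ := hK.elim_finite_subcover (fun y : K => ball (y : Y) (η y))
    (fun _ => isOpen_ball) fun p hp => mem_iUnion.mpr ⟨⟨p, hp⟩, mem_ball_self (η0 _)⟩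
  let a : t → Y → ℝ := fun i p => max (η i.1 - dist p i.1) 0
  have a0 : ∀ i p, 0 ≤ a i p := fun i p => le_max_right _ _
  have a1 : ∀ i p, a i p ≤ η i.1 := fun i p =>
    max_le (by linarith [dist_nonneg (x := p) (y := (i.1 : Y))]) (η0 _).le
  have aL : ∀ i, Lp 1 (a i) := fun i p q => by
    have h1 := abs_max_sub_max_le_abs (η i.1 - dist p i.1) (η i.1 - dist q i.1) 0
    have h2 := abs_dist_sub_le q p (i.1 : Y)
    rw [dist_comm q p] at h2
    rw [show η i.1 - dist p i.1 - (η i.1 - dist q i.1) = dist q i.1 - dist p i.1 by ring] at h1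
    have := le_abs_self (a i p - a i q)
    linarith
  have sL : Lp (Fintype.card t) fun p => ∑ i, a i p := fun p q => by
    change ∑ i, a i p - ∑ i, a i q ≤ _
    rw [← Finset.sum_sub_distrib]
    refine (Finset.sum_le_sum fun i _ => aL i p q).trans (le_of_eq ?_)
    simp
  obtain ⟨c, c0, hc⟩ := hK.exists_forall_le' (f := fun p => ∑ i, a i p) sL.continuous.continuousOn
    (a := 0) (by
      intro p hp
      obtain ⟨y, hy, hp'⟩ := mem_iUnion₂.mp (ht hp)
      refine Finset.sum_pos' (fun i _ => a0 i p) ⟨⟨y, hy⟩, Finset.mem_univ _, ?_⟩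
      exact lt_max_of_lt_left (sub_pos.mpr hp'))
  let u : Y → ℝ := fun p => max (∑ i, a i p) c
  have uL : Lp (Fintype.card t) u := fun p q => by
    have h1 := abs_max_sub_max_le_abs (∑ i, a i p) (∑ i, a i q) c
    exact (le_abs_self _).trans (h1.trans (sL.abs p q))
  have uc : ∀ p, c ≤ u p := fun p => le_max_right _ _
  have u0 : ∀ p, 0 < u p := fun p => c0.trans_le (uc p)
  have d0 : 0 < r' - r := by linarith
  have hsum : ∀ p, ∑ i, (r' - r) * (a i p / u p) = (r' - r) * ((∑ i, a i p) / u p) := fun p => by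
    rw [← Finset.mul_sum, Finset.sum_div]
  have hle1 : ∀ p, (∑ i, a i p) / u p ≤ 1 := fun p => (div_le_one (u0 p)).mpr (le_max_left _ _)
  have key : Between (fun p => dist p x0) (fun e : Empty => e.elim) κ (fun _ => r) fun _ => r' := by
    refine between_of_cover (w := fun e : Empty => e.elim) (L := 0) hX hκ (fun p q => ?_)
      (fun e => e.elim) (fun e => e.elim) le_rfl (by simp) (fun p q => by simp)
      (fun p q => by simp) (fun e => e.elim) (fun e => e.elim)
      (fun (i : t) p => (r' - r) * (a i p / u p)) (fun i => O i.1) (fun i => hO i.1)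
      (fun i p => mul_nonneg d0.le (div_nonneg (a0 i p) (u0 p).le)) (fun i => ?_)
      (fun _ e => e.elim) (fun p => ?_) (fun p h1 h2 => ?_) fun i => ?_
    · have := abs_dist_sub_le p q x0
      have := le_abs_self (dist p x0 - dist q x0)
      linarith
    · refine ⟨(r' - r) * (1 / c + η i.1 * Fintype.card t / c ^ 2), fun p q => ?_⟩
      have := lp_div c0 (aL i) uL zero_le_one (Nat.cast_nonneg _) (a0 i) (a1 i) uc p q
      have := mul_le_mul_of_nonneg_left this d0.le
      linarith
    · rw [hsum]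
      have := mul_le_mul_of_nonneg_left (hle1 p) d0.le
      linarith
    · have h3 : u p = ∑ i, a i p := max_eq_left (hc p ⟨h1, h2⟩)
      rw [hsum, ← h3, div_self (u0 p).ne']
      ring
    · refine ⟨ρ i.1 / (r' - r), div_pos (ρ0 _) d0, fun p _ _ h3 s hs => long i.1 p ?_ s ?_⟩
      · have h4 : 0 < a i p := by
          by_contra h5
          have h6 : a i p = 0 := le_antisymm (not_lt.mp h5) (a0 i p)
          simp [h6] at h3
        rcases lt_max_iff.mp h4 with h5 | h5
        · exact sub_pos.mp h5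
        · exact absurd h5 (lt_irrefl _)
      · refine hs.trans ?_
        have h4 : a i p / u p ≤ 1 := (div_le_one (u0 p)).mpr
          ((Finset.single_le_sum (fun k _ => a0 k p) (Finset.mem_univ i)).trans (le_max_left _ _))
        have e : ρ i.1 / (r' - r) * ((r' - r) * (a i p / u p)) = ρ i.1 * (a i p / u p) := by
          field_simp
        rw [e]
        exact mul_le_of_le_one_right (ρ0 _).le h4
  obtain ⟨e, he⟩ := key.homeo
  refine ⟨e, fun z => (he z).trans (le_of_eq ?_)⟩
  have e1 : dist z.1 x0 = r' := z.2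
  have e2 : dist (e z).1 x0 = r := (e z).2
  rw [e1, e2]

/-- A homogeneous homeomorphism identifies the unit spheres. -/
theorem unit_homeo {C : Type*} [ConeAlg C] {n : ℕ} (e : C ≃ₜ Euc n)
    (he : ∀ l, 0 ≤ l → ∀ a, e (sm l a) = l • e a) :
    Nonempty ({u : C // nm u = 1} ≃ₜ sphere (0 : Euc n) 1) := by
  have eo : e o = 0 := by
    have := he 0 le_rfl o
    rwa [sm_zero, zero_smul] at this
  have h1 : ∀ u : {u : C // nm u = 1}, 0 < ‖e u‖ := fun u => norm_pos_iff.mpr fun h => by
    have h2 : u.1 = o := e.injective (h.trans eo.symm)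
    have := u.2
    rw [h2, nm_o] at this
    exact zero_ne_one this
  have h2 : ∀ x : sphere (0 : Euc n) 1, 0 < nm (e.symm x) := fun x =>
    lt_of_le_of_ne (nm_nonneg _) fun h => by
      have h3 : (x : Euc n) = 0 := by rw [← e.apply_symm_apply x, nm_eq_zero.mp h.symm, eo]
      have := mem_sphere_zero_iff_norm.mp x.2
      rw [h3, norm_zero] at this
      exact zero_ne_one this
  have hs : ∀ l, 0 ≤ l → ∀ x, e.symm (l • x) = sm l (e.symm x) := fun l hl x =>
    e.injective (by rw [he l hl, e.apply_symm_apply, e.apply_symm_apply])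
  let G : sphere (0 : Euc n) 1 → {u : C // nm u = 1} := fun x =>
    ⟨e.symm ((nm (e.symm x))⁻¹ • (x : Euc n)), by
      rw [hs _ (inv_nonneg.mpr (h2 x).le), nm_sm (inv_nonneg.mpr (h2 x).le),
        inv_mul_cancel₀ (h2 x).ne']⟩
  have hc : Continuous G := by
    have c1 : Continuous fun x : sphere (0 : Euc n) 1 => (nm (e.symm x))⁻¹ :=
      (continuous_nm.comp (e.symm.continuous.comp continuous_subtype_val)).inv₀
        fun x => (h2 x).ne'
    have c2 : Continuous fun x : sphere (0 : Euc n) 1 => (nm (e.symm x))⁻¹ • (x : Euc n) :=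
      c1.smul continuous_subtype_val
    exact (e.symm.continuous.comp c2).subtype_mk _
  have hi : Function.Injective G := by
    intro x x' h
    have h3 : (nm (e.symm x))⁻¹ • (x : Euc n) = (nm (e.symm x'))⁻¹ • (x' : Euc n) :=
      e.symm.injective (congrArg Subtype.val h)
    have h4 := congrArg norm h3
    rw [norm_smul, norm_smul, mem_sphere_zero_iff_norm.mp x.2, mem_sphere_zero_iff_norm.mp x'.2,
      Real.norm_of_nonneg (inv_nonneg.mpr (h2 x).le),
      Real.norm_of_nonneg (inv_nonneg.mpr (h2 x').le), mul_one, mul_one] at h4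
    rw [← h4] at h3
    exact Subtype.ext (smul_right_injective _ (inv_ne_zero (h2 x).ne') h3)
  have hsj : Function.Surjective G := by
    intro u
    have a0 := inv_nonneg.mpr (h1 u).le
    refine ⟨⟨‖e u‖⁻¹ • e u, by
      rw [mem_sphere_zero_iff_norm, norm_smul, Real.norm_of_nonneg a0,
        inv_mul_cancel₀ (h1 u).ne']⟩, Subtype.ext ?_⟩
    change e.symm ((nm (e.symm (‖e u‖⁻¹ • e u)))⁻¹ • ‖e u‖⁻¹ • e u) = u
    rw [hs _ a0, e.symm_apply_apply, nm_sm a0, u.2, mul_one, inv_inv, smul_smul,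
      mul_inv_cancel₀ (h1 u).ne', one_smul, e.symm_apply_apply]
  exact ⟨(Continuous.homeoOfEquivCompactToT2 (f := Equiv.ofBijective G ⟨hi, hsj⟩) hc).symm⟩

theorem bdry_sphere {Y : Type} [MetricSpace Y] [ProperSpace Y] (hB : Bus Y)
    (hg : GeodesicIn (univ : Set Y)) {n : ℕ}
    (H : ∀ y : Y, ∃ (C : Type) (_ : ConeAlg C) (R : ℝ) (j : Y → C), HChart y R j ∧
      (∀ κ, 1 < κ → ∀ v : C, FlowAt κ v) ∧
      ∃ e : C ≃ₜ Euc n, ∀ l, 0 ≤ l → ∀ a, e (sm l a) = l • e a) (x0 : Y) :
    Nonempty (Bdry x0 ≃ₜ sphere (0 : Euc n) 1) := by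
  have hU := UB_of_geodesic hB hg x0
  have hX : Pool.Agent.Lib.MP_c2693b_gt.Btw Y := by
    intro p q
    obtain ⟨γ, ⟨g0, g1, g2⟩, -⟩ := hg p trivial q trivial
    refine ⟨γ, ?_, g0, g1, fun t ht => ?_⟩
    · refine (LipschitzOnWith.of_dist_le_mul (K := ⟨dist p q, dist_nonneg⟩)
        fun a ha b hb => le_of_eq ?_).continuousOn
      rw [g2 a ha b hb, Real.dist_eq, mul_comm]
      rfl
    · have h1 := g2 0 ⟨le_rfl, zero_le_one⟩ t ht
      have h2 := g2 t ht 1 ⟨zero_le_one, le_rfl⟩
      rw [g0, abs_of_nonpos (by linarith [ht.1])] at h1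
      rw [g1, abs_of_nonpos (by linarith [ht.2])] at h2
      rw [h1, h2]; ring
  obtain ⟨C, _, R, j, hj, -, e, he⟩ := H x0
  obtain ⟨r, hr, ⟨e1⟩⟩ := hj.sphere_homeo
  obtain ⟨e2⟩ := unit_homeo e he
  obtain ⟨e0⟩ := bdry_homeo hB hg x0 (fun r r' h0 h1 ε hε =>
    shell_of_loc hX x0 (by linarith) (fun y hy => by
      obtain ⟨C, _, R, j, hj, hf, -⟩ := H y
      refine hj.locAt hB hU hy (D := fun l : {l : ℝ // 0 < l} => sm l.1) (w := fun l => l.1)
        (fun v hv κ hκ => ?_) (by linarith)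
      have := hf κ hκ v
      unfold FlowAt at this
      rwa [hv] at this) h0 h1) hr
  exact ⟨e0.trans (e1.trans e2)⟩

end C2693.Br
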