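import Pool.Agent.Lib.MP_c2693b_gt.BrgA
import Pool.Agent.Lib.MP_c2693b_gt.ConeCat
import Pool.Agent.Lib.MP_c2693b_gt.CH
import Pool.Agent.Lib.MP_c2693b_gt.Bdry
import Pool.Agent.Lib.MP_c2693b_gt.ShC

/-! Spaces with hyperbolic cone models are locally CAT(-1); reduction of the boundary. -/

namespace Pool.Agent.Lib.MP_c2693b_gt

open Set Metric ConeAlg C2693.Br

variable {M : Type} [MetricSpace M]

lemma IsSeg.continuousOn {γ : ℝ → M} {x y : M} (h : IsSeg γ x y) : ContinuousOn γ (Icc 0 1) :=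
  (LipschitzOnWith.of_dist_le_mul (K := nndist x y) fun s hs t ht => by
    rw [h.2.2 s hs t ht, mul_comm]
    rfl).continuousOn

lemma connected_of_geodesic [Nonempty M] (hg : GeodesicIn (univ : Set M)) : ConnectedSpace M := by
  obtain ⟨x⟩ := ‹Nonempty M›
  have : PreconnectedSpace M := ⟨isPreconnected_of_forall x fun y _ => by
    obtain ⟨γ, hγ, -⟩ := hg x trivial y trivial
    exact ⟨γ '' Icc 0 1, subset_univ _, ⟨0, left_mem_Icc.2 zero_le_one, hγ.1⟩,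
      ⟨1, right_mem_Icc.2 zero_le_one, hγ.2.1⟩, isPreconnected_Icc.image _ hγ.continuousOn⟩⟩
  exact ⟨⟨x⟩⟩

theorem HMod.locallyCATneg {n : ℕ} (h : HMod M n) (hg : GeodesicIn (univ : Set M)) :
    LocallyCATneg M := by
  refine ⟨hg, fun x => ?_⟩
  obtain ⟨r, r0, hr⟩ := h.st x
  exact ⟨_, ball_mem_nhds x r0, hr.isCATneg⟩

theorem HMod.locBus [CompactSpace M] {n : ℕ} (h : HMod M n) (hg : GeodesicIn (univ : Set M)) :
    ∃ r, LocBus M r := locBus_of_st hg h.st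

/-- The boundary theorem for proper Busemann spaces with charts. -/
def BdryStmt : Prop :=
  ∀ (Y : Type) [MetricSpace Y] [ProperSpace Y], Bus Y → GeodesicIn (univ : Set Y) → ∀ n : ℕ,
    (∀ y : Y, ∃ (C : Type) (_ : ConeAlg C) (R : ℝ) (j : Y → C), HChart y R j ∧
      (∀ κ, 1 < κ → ∀ v : C, FlowAt κ v) ∧
      ∃ e : C ≃ₜ Euc n, ∀ l : ℝ, 0 ≤ l → ∀ a, e (sm l a) = l • e a) →
    ∀ x0 : Y, Nonempty (Bdry x0 ≃ₜ sphere (0 : Euc n) 1)

theorem HMod.sphereBdry_of (hB : BdryStmt) [CompactSpace M] [Nonempty M] {n : ℕ} (h : HMod M n)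
    (hg : GeodesicIn (univ : Set M)) : SphereBdry M n := by
  have := connected_of_geodesic hg
  obtain ⟨r, hr⟩ := h.locBus hg
  obtain ⟨Y, _, p, ρ, geo, hp⟩ := cartan_hadamard hr
  have := hp.proper
  refine ⟨Y, inferInstance, p, hp.univ, hB Y (bus_of_geo geo hp.conv hp.uniq) hp.univ.2.2.2.1 n
    fun y => ?_⟩
  obtain ⟨C, _, r, k, hk, hf⟩ := h (p y)
  obtain ⟨R, j, hj⟩ := hchart_of_model hp.toWCover hk
  exact ⟨C, inferInstance, R, j, hj, hf⟩

theorem HMod.sphereBdry [CompactSpace M] [Nonempty M] {n : ℕ} (h : HMod M n)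
    (hg : GeodesicIn (univ : Set M)) : SphereBdry M n :=
  h.sphereBdry_of (fun _ _ _ hB hg _ H x0 => bdry_sphere hB hg H x0) hg

end Pool.Agent.Lib.MP_c2693b_gt
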