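import Pool.Agent.Lib.MP_c2693b_gt.Ob.Defs

/-! Cartan-Hadamard: the interface. -/

open Set

namespace Pool.Agent.Lib.MP_c2693b_gt

/-- Below the scale `r` points are joined by segments and the metric is Busemann convex. -/
def LocBus (X : Type) [MetricSpace X] (r : ℝ) : Prop :=
  0 < r ∧ (∀ x y : X, dist x y < r → ∃ γ, IsSeg γ x y) ∧
    ∀ x y z m n : X, dist x y < r → dist x z < r → dist x m = dist x y / 2 →
      dist m y = dist x y / 2 → dist x n = dist x z / 2 → dist n z = dist x z / 2 →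
      dist m n ≤ dist y z / 2

/-- `c` restricted to `[0,1]` is a local geodesic of speed `L`. -/
def LocGeo {X : Type} [MetricSpace X] (c : ℝ → X) (L : ℝ) : Prop :=
  ∀ t ∈ Icc (0 : ℝ) 1, ∃ η, 0 < η ∧ ∀ s ∈ Icc (0 : ℝ) 1, ∀ s' ∈ Icc (0 : ℝ) 1,
    |s - t| ≤ η → |s' - t| ≤ η → dist (c s) (c s') = L * |s - s'|

/-- The Cartan-Hadamard cover `p : Y → X`. -/
structure CHCover {Y X : Type} [MetricSpace Y] [MetricSpace X] (p : Y → X) (ρ : ℝ)
    (geo : Y → Y → ℝ → Y) : Prop extends WCover p ρ geo where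
  uniq : ∀ a b w, ∀ t ∈ Icc (0 : ℝ) 1, dist a w = t * dist a b → dist w b = (1 - t) * dist a b →
    w = geo a b t
  loc : ∀ (c : ℝ → Y) (L : ℝ), LocGeo c L →
    dist (c 0) (c 1) = L ∧ ∀ t ∈ Icc (0 : ℝ) 1, c t = geo (c 0) (c 1) t
  lift : ∀ (c : ℝ → Y) (L : ℝ), ContinuousOn c (Icc 0 1) → LocGeo (p ∘ c) L → LocGeo c L

end Pool.Agent.Lib.MP_c2693b_gt
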