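import Pool.Agent.Lib.MP_c2693b_gt.Cm0
import Pool.Agent.Lib.MP_c2693b_gt.CH0
import Pool.Agent.Lib.MP_c2693b_gt.ShA
import Pool.Agent.Lib.MP_c2693b_gt.TfProd
import Pool.Agent.Lib.MP_c2693b_gt.ConeHyp

/-! Spaces with hyperbolic cone models. -/

namespace Pool.Agent.Lib.MP_c2693b_gt

open Set Metric ConeAlg C2693.Br

/-- Every point has a ball that is a ball about the apex in the hyperbolic model over a cone
algebra with flows and with an `n`-dimensional homogeneous chart. -/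
def HMod (M : Type) [MetricSpace M] (n : ℕ) : Prop :=
  ∀ m : M, ∃ (C : Type) (_ : ConeAlg C) (r : ℝ) (k : Hyp C → M), BallModel m ⟨o⟩ r k ∧
    (∀ κ, 1 < κ → ∀ v : C, FlowAt κ v) ∧
    ∃ e : C ≃ₜ Euc n, ∀ l : ℝ, 0 ≤ l → ∀ a, e (sm l a) = l • e a

variable {M : Type} [MetricSpace M]

lemma BallModel.inj {Z : Type} [MetricSpace Z] {m : M} {z0 : Z} {r : ℝ} {k : Z → M}
    (h : BallModel m z0 r k) : InjOn k (ball z0 r) := fun a ha b hb e =>
  dist_eq_zero.1 (by rw [← h.iso a ha b hb, e, dist_self])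

lemma BallModel.dist_base {Z : Type} [MetricSpace Z] {m : M} {z0 : Z} {r : ℝ} {k : Z → M}
    (h : BallModel m z0 r k) {z : Z} (hz : z ∈ ball z0 r) : dist (k z) m = dist z z0 := by
  rw [← h.iso z hz z0 (mem_ball_self h.pos), h.base]

lemma BallModel.st {C : Type} [ConeAlg C] {m : M} {z0 : Hyp C} {r : ℝ} {k : Hyp C → M}
    (h : BallModel m z0 r k) : St (ball m r) := by
  have : Nonempty (Hyp C) := ⟨z0⟩
  have h1 : ∀ a ∈ ball m r, Function.invFunOn k (ball z0 r) a ∈ ball z0 r ∧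
      k (Function.invFunOn k (ball z0 r) a) = a := fun a ha => Function.invFunOn_pos (h.onto ha)
  refine (Hyp.st_ball z0 r).of_isometry (Function.invFunOn k (ball z0 r)) (fun a ha b hb => ?_) ?_
  · rw [← h.iso _ (h1 a ha).1 _ (h1 b hb).1, (h1 a ha).2, (h1 b hb).2]
  · refine Subset.antisymm (image_subset_iff.2 fun a ha => (h1 a ha).1) fun z hz => ?_
    exact ⟨k z, by rwa [mem_ball, h.dist_base hz], h.inj.leftInvOn_invFunOn hz⟩

lemma HMod.st {n : ℕ} (h : HMod M n) (m : M) : ∃ r, 0 < r ∧ St (ball m r) := by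
  obtain ⟨C, _, r, k, hk, -⟩ := h m
  exact ⟨r, hk.pos, hk.st⟩

lemma locBus_of_st [CompactSpace M] (hg : GeodesicIn (univ : Set M))
    (h : ∀ m : M, ∃ r, 0 < r ∧ St (ball m r)) : ∃ r, LocBus M r := by
  choose r r0 hr using h
  obtain ⟨δ, δ0, hδ⟩ := lebesgue_number_lemma_of_metric (isCompact_univ (X := M))
    (c := fun m => ball m (r m)) (fun _ => isOpen_ball)
    fun m _ => mem_iUnion.2 ⟨m, mem_ball_self (r0 m)⟩
  refine ⟨δ, δ0, fun x y _ => (hg x trivial y trivial).imp fun _ h => h.1,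
    fun x y z m n hy hz m1 m2 n1 n2 => ?_⟩
  obtain ⟨c, hc⟩ := hδ x trivial
  refine (hr c).mid_le (hc (mem_ball_self δ0)) (hc (mem_ball'.2 hy)) (hc (mem_ball'.2 hz))
    (hc (mem_ball'.2 ?_)) (hc (mem_ball'.2 ?_)) m1 m2 n1 n2
  · linarith [dist_nonneg (x := x) (y := y)]
  · linarith [dist_nonneg (x := x) (y := z)]

/-- The models lift to a cover that is isometric on balls. -/
lemma hchart_of_model {Y C : Type} [MetricSpace Y] [ConeAlg C] {p : Y → M} {ρ : ℝ}
    {geo : Y → Y → ℝ → Y} (hp : WCover p ρ geo) {y : Y} {r : ℝ} {k : Hyp C → M}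
    (h : BallModel (p y) ⟨o⟩ r k) : ∃ (R : ℝ) (j : Y → C), HChart y R j := by
  have : Nonempty (Hyp C) := ⟨⟨o⟩⟩
  have R0 : 0 < min ρ r := lt_min hp.pos h.pos
  have s1 : ball y (min ρ r) ⊆ ball y ρ := ball_subset_ball (min_le_left _ _)
  have h0 : ∀ a ∈ ball y ρ, dist (p a) (p y) = dist a y := fun a ha =>
    hp.iso y a ha y (mem_ball_self hp.pos)
  have h1 : ∀ a ∈ ball y (min ρ r), Function.invFunOn k (ball ⟨o⟩ r) (p a) ∈ ball ⟨o⟩ r ∧
      k (Function.invFunOn k (ball ⟨o⟩ r) (p a)) = p a := fun a ha =>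
    Function.invFunOn_pos (h.onto (by
      rw [mem_ball, h0 a (s1 ha)]
      exact (mem_ball.1 ha).trans_le (min_le_right _ _)))
  refine ⟨min ρ r, fun a => (Function.invFunOn k (ball ⟨o⟩ r) (p a)).val, R0, ?_,
    fun a ha b hb => ?_, fun u hu => ?_⟩
  · have := h.inj.leftInvOn_invFunOn (mem_ball_self h.pos)
    rw [h.base] at this
    simp only [this]
  · rw [← hp.iso y a (s1 ha) b (s1 hb), ← (h1 a ha).2, ← (h1 b hb).2,
      h.iso _ (h1 a ha).1 _ (h1 b hb).1, Hyp.cosh_dist, (h1 a ha).2, (h1 b hb).2]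
    rfl
  · have d1 : dist (⟨u⟩ : Hyp C) ⟨o⟩ < min ρ r := by
      rw [← Real.sinh_lt_sinh, Hyp.sinh_dist_o]
      exact hu
    have d2 : (⟨u⟩ : Hyp C) ∈ ball ⟨o⟩ r := d1.trans_le (min_le_right _ _)
    obtain ⟨a, ha, e⟩ := hp.onto y (show k ⟨u⟩ ∈ ball (p y) ρ by
      rw [mem_ball, h.dist_base d2]
      exact d1.trans_le (min_le_left _ _))
    refine ⟨a, ?_, ?_⟩
    · rw [mem_ball, ← h0 a ha, e, h.dist_base d2]
      exact d1
    · simp only [e, h.inj.leftInvOn_invFunOn d2]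

/-- Small spheres about the centre of a chart are spheres. -/
lemma small_sphere {Y C : Type} [MetricSpace Y] [ConeAlg C] {y : Y} {R : ℝ} {j : Y → C}
    (h : HChart y R j) {n : ℕ} (e : C ≃ₜ Euc n) (he : ∀ l : ℝ, 0 ≤ l → ∀ a, e (sm l a) = l • e a)
    [ProperSpace Y] : Nonempty (sphere y (R / 2) ≃ₜ sphere (0 : Euc n) 1) := by
  have R0 := h.pos
  have hb : ∀ a : sphere y (R / 2), a.1 ∈ ball y R := fun a => by
    rw [mem_ball, mem_sphere.1 a.2]
    linarith
  have hn : ∀ a : sphere y (R / 2), nm (j a) = Real.sinh (R / 2) := fun a => by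
    rw [h.nm_eq (hb a), mem_sphere.1 a.2]
  have S0 : 0 < Real.sinh (R / 2) := Real.sinh_pos_iff.2 (by linarith)
  have eo : e o = 0 := by
    rw [← sm_zero (o : C), he 0 le_rfl, zero_smul]
  have ne : ∀ a : sphere y (R / 2), 0 < ‖e (j a)‖ := fun a => norm_pos_iff.2 fun k => by
    have := hn a
    rw [e.injective (k.trans eo.symm), nm_o] at this
    exact S0.ne this
  have hd : ∀ a ∈ ball y R, ∀ b ∈ ball y R, dist (⟨j a⟩ : Hyp C) ⟨j b⟩ = dist a b := by
    intro a ha b hb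
    refine Real.cosh_injOn dist_nonneg dist_nonneg ?_
    rw [Hyp.cosh_dist, h.cosh_dist a ha b hb]
    rfl
  have cj : Continuous fun a : sphere y (R / 2) => j a :=
    Hyp.continuous_val.comp (Isometry.of_dist_eq (f := fun a : sphere y (R / 2) => (⟨j a⟩ : Hyp C))
      fun a b => hd _ (hb a) _ (hb b)).continuous
  let f : sphere y (R / 2) → sphere (0 : Euc n) 1 := fun a =>
    ⟨‖e (j a)‖⁻¹ • e (j a), by simp [norm_smul, (ne a).ne']⟩
  have cf : Continuous f := Continuous.subtype_mk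
    (((e.continuous.comp cj).norm.inv₀ fun a => (ne a).ne').smul (e.continuous.comp cj)) _
  have bf : Function.Bijective f := by
    refine ⟨fun a b k => ?_, fun x => ?_⟩
    · have k1 : ‖e (j a)‖⁻¹ • e (j a) = ‖e (j b)‖⁻¹ • e (j b) := congrArg Subtype.val k
      have pa := inv_pos.2 (ne a)
      have pb := inv_pos.2 (ne b)
      rw [← he _ pa.le, ← he _ pb.le] at k1
      have k2 := e.injective k1
      have k3 := congrArg nm k2
      rw [nm_sm pa.le, nm_sm pb.le, hn, hn] at k3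
      rw [← mul_right_cancel₀ S0.ne' k3] at k2
      have k4 := dist_sm pa.le (j a) (j b)
      rw [k2, dist_self, eq_comm, mul_eq_zero, dist_eq_zero] at k4
      refine Subtype.ext (dist_eq_zero.1 ?_)
      rw [← hd _ (hb a) _ (hb b), k4.resolve_left pa.ne', dist_self]
    · have x1 : ‖x.1‖ = 1 := by simpa using x.2
      have u0 : 0 < nm (e.symm x) := lt_of_le_of_ne (nm_nonneg _) fun k => by
        have := congrArg e (nm_eq_zero.1 k.symm)
        rw [e.apply_symm_apply, eo] at this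
        simp [this] at x1
      have l0 : 0 < Real.sinh (R / 2) / nm (e.symm x) := div_pos S0 u0
      have k : nm (sm (Real.sinh (R / 2) / nm (e.symm x)) (e.symm x)) = Real.sinh (R / 2) := by
        rw [nm_sm l0.le, div_mul_cancel₀ _ u0.ne']
      obtain ⟨a, ha, ea⟩ := h.onto (sm (Real.sinh (R / 2) / nm (e.symm x)) (e.symm x))
        (by rw [k, Real.sinh_lt_sinh]; linarith)
      have da : dist a y = R / 2 := Real.sinh_injective (by rw [← h.nm_eq ha, ea, k])
      refine ⟨⟨a, da⟩, Subtype.ext ?_⟩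
      show ‖e (j a)‖⁻¹ • e (j a) = x
      rw [ea, he _ l0.le, e.apply_symm_apply, norm_smul, x1, mul_one, Real.norm_of_nonneg l0.le,
        smul_smul, inv_mul_cancel₀ l0.ne', one_smul]
  exact ⟨cf.homeoOfEquivCompactToT2 (f := Equiv.ofBijective f bf)⟩

end Pool.Agent.Lib.MP_c2693b_gt
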