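import Pool.Agent.Lib.MP_c2693b_gt.Defs

/-! Cartan-Hadamard, part 1: real variable lemmas and ball isometries. -/

open Set Metric Filter Topology

namespace Pool.Agent.Lib.MP_c2693b_gt.CH

lemma cv_le {f : ℝ → ℝ} (hf : ContinuousOn f (Icc 0 1))
    (h : ∀ t ∈ Ioo (0 : ℝ) 1, ∃ η, 0 < η ∧ η ≤ t ∧ η ≤ 1 - t ∧ f t ≤ (f (t - η) + f (t + η)) / 2) :
    ∀ t ∈ Icc (0 : ℝ) 1, f t ≤ (1 - t) * f 0 + t * f 1 := by
  let g : ℝ → ℝ := fun t => f t - ((1 - t) * f 0 + t * f 1)
  have hg : ContinuousOn g (Icc 0 1) := hf.sub (by fun_prop)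
  obtain ⟨t1, ht1, hmax⟩ := isCompact_Icc.exists_isMaxOn (nonempty_Icc.2 zero_le_one) hg
  have hS : IsCompact (Icc (0 : ℝ) 1 ∩ g ⁻¹' {g t1}) :=
    isCompact_Icc.of_isClosed_subset
      (hg.preimage_isClosed_of_isClosed isClosed_Icc isClosed_singleton) inter_subset_left
  obtain ⟨t2, ⟨ht2, he⟩, hgr⟩ := hS.exists_isGreatest ⟨t1, ht1, rfl⟩
  have he' : g t2 = g t1 := he
  have key : g t1 ≤ 0 := by
    by_contra hpos
    have h0 : t2 ≠ 0 := by
      rintro rfl
      apply hpos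
      rw [← he']
      simp [g]
    have h1 : t2 ≠ 1 := by
      rintro rfl
      apply hpos
      rw [← he']
      simp [g]
    obtain ⟨η, a1, a2, a3, a4⟩ := h t2 ⟨lt_of_le_of_ne ht2.1 h0.symm, lt_of_le_of_ne ht2.2 h1⟩
    have m1 : t2 - η ∈ Icc (0 : ℝ) 1 := ⟨by linarith, by linarith [ht2.2]⟩
    have m2 : t2 + η ∈ Icc (0 : ℝ) 1 := ⟨by linarith [ht2.1], by linarith⟩
    have b1 : g (t2 - η) ≤ g t1 := hmax m1
    have b2 : g (t2 + η) ≤ g t1 := hmax m2
    have b3 : g t2 ≤ (g (t2 - η) + g (t2 + η)) / 2 := by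
      simp only [g]
      linarith
    have b4 : g (t2 + η) = g t1 := by linarith
    have := hgr ⟨m2, b4⟩
    linarith
  intro t ht
  have : g t ≤ g t1 := hmax ht
  simp only [g] at this key
  linarith

lemma ll_le {f : ℝ → ℝ} {K a b : ℝ} (hab : a ≤ b)
    (h : ∀ s ∈ Icc a b, ∀ᶠ s' in 𝓝 s, s' ∈ Icc a b → |f s' - f s| ≤ K * |s' - s|) :
    f b ≤ f a + K * (b - a) := by
  have hc : ContinuousOn f (Icc a b) := by
    intro s hs
    rw [ContinuousWithinAt, tendsto_iff_dist_tendsto_zero]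
    have h1 : Tendsto (fun s' => K * |s' - s|) (𝓝[Icc a b] s) (𝓝 0) := by
      have : Continuous fun s' => K * |s' - s| := by fun_prop
      have h2 := (this.tendsto s).mono_left (nhdsWithin_le_nhds (s := Icc a b))
      simpa using h2
    refine squeeze_zero' (Eventually.of_forall fun _ => dist_nonneg) ?_ h1
    exact eventually_nhdsWithin_iff.2 (h s hs)
  have key : Icc a b ⊆ {t | f t ≤ f a + K * (t - a)} := by
    refine IsClosed.Icc_subset_of_forall_mem_nhdsWithin ?_ (by simp) ?_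
    · rw [inter_comm]
      exact isClosed_Icc.isClosed_le hc (by fun_prop)
    · rintro x ⟨hx1, hx2⟩
      have h1 := (h x ⟨hx2.1, hx2.2.le⟩).filter_mono (nhdsWithin_le_nhds (s := Ioi x))
      filter_upwards [h1, Ioo_mem_nhdsGT hx2.2] with y hy1 hy2
      have h3 := hy1 ⟨hx2.1.trans hy2.1.le, hy2.2.le⟩
      rw [abs_of_pos (sub_pos.2 hy2.1)] at h3
      have h4 := le_abs_self (f y - f x)
      have h5 : f x ≤ f a + K * (x - a) := hx1
      show f y ≤ f a + K * (y - a)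
      linarith
  exact key ⟨hab, le_rfl⟩

/-- `p` preserves distances below `ε` and maps `ε`-balls onto `ε`-balls. -/
structure BallIso {A B : Type} [MetricSpace A] [MetricSpace B] (p : A → B) (ε : ℝ) : Prop where
  pos : 0 < ε
  iso : ∀ a a', dist a a' < ε → dist (p a) (p a') = dist a a'
  surj : ∀ a b, dist (p a) b < ε → ∃ a', dist a a' < ε ∧ p a' = b

section

variable {A B : Type} [MetricSpace A] [MetricSpace B] {p : A → B} {ε : ℝ}

lemma BallIso.surj' (h : BallIso p ε) (a : A) (b : B) (hb : dist (p a) b < ε) :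
    ∃ a', dist a a' = dist (p a) b ∧ p a' = b := by
  obtain ⟨a', h1, rfl⟩ := h.surj a b hb
  exact ⟨a', (h.iso a a' h1).symm, rfl⟩

lemma BallIso.inj (h : BallIso p ε) {a a' : A} (h1 : dist a a' < ε) (h2 : p a = p a') : a = a' := by
  rw [← dist_eq_zero, ← h.iso a a' h1, h2, dist_self]

lemma BallIso.continuous (h : BallIso p ε) : Continuous p := by
  rw [Metric.continuous_iff]
  intro a η hη
  refine ⟨min η ε, lt_min hη h.pos, fun a' ha => ?_⟩
  rw [h.iso _ _ (ha.trans_le (min_le_right _ _))]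
  exact ha.trans_le (min_le_left _ _)

lemma BallIso.isOpenMap (h : BallIso p ε) : IsOpenMap p := by
  intro U hU
  rw [Metric.isOpen_iff] at hU ⊢
  rintro _ ⟨a, ha, rfl⟩
  obtain ⟨η, hη, hs⟩ := hU a ha
  refine ⟨min η ε, lt_min hη h.pos, fun b hb => ?_⟩
  rw [mem_ball, dist_comm] at hb
  obtain ⟨a', h1, rfl⟩ := h.surj' a b (hb.trans_le (min_le_right _ _))
  refine ⟨a', hs ?_, rfl⟩
  rw [mem_ball, dist_comm, h1]
  exact hb.trans_le (min_le_left _ _)

lemma BallIso.covering (h : BallIso p ε) : IsCoveringMap p := by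
  intro x
  have hε := h.pos
  have ex : ∀ a, p a ∈ ball x (ε / 4) → ∃ i : p ⁻¹' {x}, a ∈ ball (i : A) (ε / 4) := by
    intro a ha
    rw [mem_ball] at ha
    obtain ⟨a', h1, h2⟩ := h.surj' a x (by linarith)
    exact ⟨⟨a', h2⟩, by rw [mem_ball, h1]; exact ha⟩
  rcases isEmpty_or_nonempty (p ⁻¹' {x}) with hF | hF
  · refine IsEvenlyCovered.of_preimage_eq_empty _ (ball_mem_nhds x (by linarith : 0 < ε / 4)) ?_
    rw [eq_empty_iff_forall_notMem]
    intro a ha
    obtain ⟨i, -⟩ := ex a ha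
    exact hF.elim i
  · have sep : ∀ i j : p ⁻¹' {x}, dist (i : A) j < ε → i = j := fun i j hij =>
      Subtype.ext (h.inj hij (i.2.trans j.2.symm))
    have : DiscreteTopology (p ⁻¹' {x}) := by
      rw [discreteTopology_iff_isOpen_singleton]
      intro i
      rw [Metric.isOpen_iff]
      rintro _ rfl
      exact ⟨ε, hε, fun j hj => sep _ _ hj⟩
    have : Nonempty A := ⟨hF.some.1⟩
    have hsurj : ∀ i : p ⁻¹' {x}, (ball (i : A) (ε / 4)).SurjOn p (ball x (ε / 4)) := by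
      intro i b hb
      rw [mem_ball, dist_comm, ← show p i = x from i.2] at hb
      obtain ⟨a', h1, h2⟩ := h.surj' i b (by linarith)
      exact ⟨a', by rw [mem_ball, dist_comm, h1]; exact hb, h2⟩
    refine IsEvenlyCovered.of_trivialization
      (t := IsOpen.trivializationDiscrete (fun i : p ⁻¹' {x} => ball (i : A) (ε / 4))
        (ball x (ε / 4)) isOpen_ball ?_ ?_ hsurj ?_ ?_) (mem_ball_self (by linarith))
    · intro i W hW
      refine ⟨fun hW' => (hW'.preimage h.continuous).inter isOpen_ball, fun hW' => ?_⟩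
      convert h.isOpenMap _ hW'
      ext b
      constructor
      · intro hb
        obtain ⟨a, h1, rfl⟩ := hsurj i (hW hb)
        exact ⟨a, ⟨hb, h1⟩, rfl⟩
      · rintro ⟨a, ⟨h1, -⟩, rfl⟩
        exact h1
    · intro i a ha a' ha' he
      refine h.inj ?_ he
      rw [mem_ball] at ha ha'
      have := dist_triangle_right a a' i
      linarith
    · intro i j hij
      rw [Function.onFun, Set.disjoint_left]
      intro a h1 h2
      apply hij
      apply sep
      rw [mem_ball] at h1 h2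
      have := dist_triangle_left (i : A) j a
      linarith
    · intro a ha
      exact mem_iUnion.2 (ex a ha)

lemma BallIso.surjective [PreconnectedSpace B] [Nonempty A] (h : BallIso p ε) :
    Function.Surjective p := by
  have h1 : IsClopen (range p) := by
    refine ⟨?_, h.isOpenMap.isOpen_range⟩
    rw [← closure_subset_iff_isClosed]
    intro b hb
    obtain ⟨_, ⟨a, rfl⟩, h2⟩ := Metric.mem_closure_iff.1 hb ε h.pos
    rw [dist_comm] at h2
    obtain ⟨a', -, h3⟩ := h.surj a b h2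
    exact ⟨a', h3⟩
  exact range_eq_univ.1 (h1.eq_univ (range_nonempty p))

lemma seg_cont {γ : ℝ → A} {x y : A} (h : IsSeg γ x y) : ContinuousOn γ (Icc 0 1) := by
  refine LipschitzOnWith.continuousOn (K := nndist x y) ?_
  refine LipschitzOnWith.of_dist_le_mul fun s hs t ht => ?_
  rw [h.2.2 s hs t ht, Real.dist_eq, mul_comm, coe_nndist]

lemma seg_left {γ : ℝ → A} {x y : A} (h : IsSeg γ x y) {t : ℝ} (ht : t ∈ Icc (0 : ℝ) 1) :
    dist x (γ t) = t * dist x y := by
  have := h.2.2 0 ⟨le_rfl, zero_le_one⟩ t ht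
  rwa [h.1, zero_sub, abs_neg, abs_of_nonneg ht.1] at this

lemma seg_right {γ : ℝ → A} {x y : A} (h : IsSeg γ x y) {t : ℝ} (ht : t ∈ Icc (0 : ℝ) 1) :
    dist (γ t) y = (1 - t) * dist x y := by
  have := h.2.2 t ht 1 ⟨zero_le_one, le_rfl⟩
  rwa [h.2.1, abs_sub_comm, abs_of_nonneg (sub_nonneg.2 ht.2)] at this

lemma BallIso.seg_lift (h : BallIso p ε) {a b : A} (hab : dist a b < ε / 2) {γ : ℝ → B}
    (hγ : IsSeg γ (p a) (p b)) : ∃ c : ℝ → A, IsSeg c a b ∧ ∀ t ∈ Icc (0 : ℝ) 1, p (c t) = γ t := by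
  have hε := h.pos
  have hd : dist (p a) (p b) = dist a b := h.iso a b (by linarith)
  have hle : ∀ t ∈ Icc (0 : ℝ) 1, dist (p a) (γ t) ≤ dist a b := by
    intro t ht
    rw [seg_left hγ ht, hd]
    exact mul_le_of_le_one_left dist_nonneg ht.2
  have ex : ∀ t : ℝ, ∃ a' : A, t ∈ Icc (0 : ℝ) 1 → dist a a' = dist (p a) (γ t) ∧ p a' = γ t := by
    intro t
    by_cases ht : t ∈ Icc (0 : ℝ) 1
    · obtain ⟨a', h1⟩ := h.surj' a (γ t) (by linarith [hle t ht])
      exact ⟨a', fun _ => h1⟩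
    · exact ⟨a, fun h => absurd h ht⟩
  choose c hc using ex
  have i0 : (0 : ℝ) ∈ Icc (0 : ℝ) 1 := ⟨le_rfl, zero_le_one⟩
  have i1 : (1 : ℝ) ∈ Icc (0 : ℝ) 1 := ⟨zero_le_one, le_rfl⟩
  refine ⟨c, ⟨?_, ?_, fun s hs t ht => ?_⟩, fun t ht => (hc t ht).2⟩
  · have := (hc 0 i0).1
    rw [hγ.1, dist_self, dist_eq_zero] at this
    exact this.symm
  · refine h.inj ?_ ((hc 1 i1).2.trans hγ.2.1)
    have h1 := dist_triangle_left (c 1) b a
    have h2 := (hc 1 i1).1
    linarith [hle 1 i1]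
  · have h1 := dist_triangle_left (c s) (c t) a
    rw [← h.iso _ _ (by linarith [(hc s hs).1, (hc t ht).1, hle s hs, hle t ht]), (hc s hs).2,
      (hc t ht).2, hγ.2.2 s hs t ht, hd]

lemma locPath_of_seg {r : ℝ} (hr : 0 < r) (h : ∀ x y : A, dist x y < r → ∃ γ, IsSeg γ x y) :
    LocallyPathConnectedSpace A := by
  refine LocallyPathConnectedSpace.of_bases (p := fun _ η => 0 < η ∧ η ≤ r)
    (s := fun x η => ball x η) (fun x => ?_) ?_
  · refine nhds_basis_ball.to_hasBasis (fun η hη => ⟨min η r, ⟨lt_min hη hr, min_le_right _ _⟩,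
      ball_subset_ball (min_le_left _ _)⟩) fun η hη => ⟨η, hη.1, subset_rfl⟩
  · intro x η hη
    refine ⟨x, mem_ball_self hη.1, fun y hy => ?_⟩
    rw [mem_ball, dist_comm] at hy
    obtain ⟨γ, hγ⟩ := h x y (hy.trans_le hη.2)
    refine JoinedIn.ofLine (seg_cont hγ) hγ.1 hγ.2.1 ?_
    rintro _ ⟨t, ht, rfl⟩
    rw [mem_ball, dist_comm, seg_left hγ ht]
    exact (mul_le_of_le_one_left dist_nonneg ht.2).trans_lt hy

end

end Pool.Agent.Lib.MP_c2693b_gt.CH
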