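import Pool.Agent.Lib.MP_c2693b_gt.CH0
import Pool.Agent.Lib.MP_c2693b_gt.CH1

/-! Cartan-Hadamard, part 2: the Alexander-Bishop lemma. -/

open Set Metric Filter Topology

namespace Pool.Agent.Lib.MP_c2693b_gt.CH

variable {X : Type} [MetricSpace X] {r : ℝ}

/-- `m` is a midpoint of `x` and `y`. -/
def Mid (x y m : X) : Prop := dist x m = dist x y / 2 ∧ dist m y = dist x y / 2

lemma exists_mid (h : LocBus X r) {x y : X} (hxy : dist x y < r) : ∃ m, Mid x y m := by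
  obtain ⟨γ, hγ⟩ := h.2.1 x y hxy
  have i : (1 / 2 : ℝ) ∈ Icc (0 : ℝ) 1 := ⟨by norm_num, by norm_num⟩
  exact ⟨γ (1 / 2), by rw [seg_left hγ i]; ring, by rw [seg_right hγ i]; ring⟩

lemma bus4 (h : LocBus X r) {x y x' y' m m' : X} (hm : Mid x y m) (hm' : Mid x' y' m')
    (h1 : dist x y < r) (h2 : dist x' y' < r) (h3 : dist x y' < r) :
    dist m m' ≤ (dist x x' + dist y y') / 2 := by
  obtain ⟨n, hn⟩ := exists_mid h h3
  have a1 := h.2.2 x y y' m n h1 h3 hm.1 hm.2 hn.1 hn.2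
  have a2 := h.2.2 y' x x' n m' (by rwa [dist_comm]) (by rwa [dist_comm])
    (by rw [dist_comm, hn.2, dist_comm]) (by rw [dist_comm, hn.1, dist_comm])
    (by rw [dist_comm, hm'.2, dist_comm]) (by rw [dist_comm, hm'.1, dist_comm])
  linarith [dist_triangle m n m']

lemma unif {c : ℝ → X} {L : ℝ} (h : LocGeo c L) : ∃ η, 0 < η ∧ ∀ s ∈ Icc (0 : ℝ) 1,
    ∀ t ∈ Icc (0 : ℝ) 1, |s - t| ≤ η → dist (c s) (c t) = L * |s - t| := by
  choose! η hη H using h
  obtain ⟨δ, hδ, hb⟩ := lebesgue_number_lemma_of_metric (s := Icc (0 : ℝ) 1) isCompact_Icc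
    (c := fun i : Icc (0 : ℝ) 1 => ball (i : ℝ) (η i)) (fun _ => isOpen_ball)
    fun t ht => mem_iUnion.2 ⟨⟨t, ht⟩, mem_ball_self (hη t ht)⟩
  refine ⟨δ / 2, by linarith, fun s hs t ht hst => ?_⟩
  obtain ⟨i, hi⟩ := hb t ht
  have h1 : s ∈ ball (i : ℝ) (η i) := hi (by rw [mem_ball, Real.dist_eq]; linarith)
  have h2 : t ∈ ball (i : ℝ) (η i) := hi (mem_ball_self hδ)
  rw [mem_ball, Real.dist_eq] at h1 h2
  exact H i i.2 s hs t ht h1.le h2.le

lemma of_unif {c : ℝ → X} {L η : ℝ} (hη : 0 < η) (h : ∀ s ∈ Icc (0 : ℝ) 1,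
    ∀ t ∈ Icc (0 : ℝ) 1, |s - t| ≤ η → dist (c s) (c t) = L * |s - t|) : LocGeo c L := by
  refine fun t _ => ⟨η / 2, by linarith, fun s hs s' hs' h1 h2 => h s hs s' hs' ?_⟩
  have := abs_sub_le s t s'
  rw [abs_sub_comm t s'] at this
  linarith

lemma seg_locGeo {γ : ℝ → X} {x y : X} (h : IsSeg γ x y) : LocGeo γ (dist x y) :=
  of_unif one_pos fun s hs t ht _ => by rw [h.2.2 s hs t ht, mul_comm]

lemma small {a b c d M ρ : ℝ} (ha : 0 < a) (hb : 0 < b) (hc : 0 < c) (hd : 0 < d) (hM : 0 ≤ M)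
    (hρ : 0 < ρ) : ∃ e, 0 < e ∧ e ≤ a ∧ e ≤ b ∧ e ≤ c ∧ e ≤ d ∧ M * e < ρ := by
  have h1 : 0 < ρ / (M + 1) := by positivity
  refine ⟨min (min (min a b) (min c d)) (ρ / (M + 1)), by positivity, by simp, by simp, by simp,
    by simp, ?_⟩
  have h2 : M * (ρ / (M + 1)) < ρ := by
    rw [← mul_div_assoc, div_lt_iff₀ (by positivity)]
    linarith
  exact (mul_le_mul_of_nonneg_left (min_le_right _ _) hM).trans_lt h2

lemma speed_nonneg {c : ℝ → X} {L : ℝ} (h : LocGeo c L) : 0 ≤ L := by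
  obtain ⟨η, hη, H⟩ := unif h
  obtain ⟨e, e0, e1, e2, -⟩ := small hη one_pos one_pos one_pos le_rfl one_pos
  have h1 := H e ⟨e0.le, e2⟩ 0 ⟨le_rfl, zero_le_one⟩ (by rwa [sub_zero, abs_of_pos e0])
  rw [sub_zero, abs_of_pos e0] at h1
  exact nonneg_of_mul_nonneg_left (h1 ▸ dist_nonneg) e0

lemma locGeo_cont {c : ℝ → X} {L : ℝ} (h : LocGeo c L) : ContinuousOn c (Icc 0 1) := by
  obtain ⟨η, hη, H⟩ := unif h
  rw [Metric.continuousOn_iff]
  intro t ht ε hε
  obtain ⟨e, e0, e1, -, -, -, e2⟩ := small hη one_pos one_pos one_pos (speed_nonneg h) hε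
  refine ⟨e, e0, fun s hs hst => ?_⟩
  rw [Real.dist_eq] at hst
  rw [H s hs t ht (by linarith)]
  exact (mul_le_mul_of_nonneg_left hst.le (speed_nonneg h)).trans_lt e2

lemma conv (h : LocBus X r) {c c' : ℝ → X} {L L' : ℝ} (hc : LocGeo c L) (hc' : LocGeo c' L')
    (hd : ∀ t ∈ Icc (0 : ℝ) 1, dist (c t) (c' t) ≤ r / 2) :
    ∀ t ∈ Icc (0 : ℝ) 1, dist (c t) (c' t) ≤ (1 - t) * dist (c 0) (c' 0) + t * dist (c 1) (c' 1) := by
  refine cv_le (f := fun t => dist (c t) (c' t))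
    (continuous_dist.comp_continuousOn ((locGeo_cont hc).prodMk (locGeo_cont hc'))) fun t ht => ?_
  obtain ⟨η, hη, H⟩ := unif hc
  obtain ⟨η', hη', H'⟩ := unif hc'
  have hL := speed_nonneg hc
  have hL' := speed_nonneg hc'
  obtain ⟨e, e0, e1, e2, e3, e4, e5⟩ := small (half_pos hη) (half_pos hη') ht.1 (sub_pos.2 ht.2)
    (add_nonneg hL hL') (by linarith [h.1] : 0 < r / 4)
  have m0 : t ∈ Icc (0 : ℝ) 1 := ⟨ht.1.le, ht.2.le⟩
  have m1 : t - e ∈ Icc (0 : ℝ) 1 := ⟨by linarith, by linarith [ht.2]⟩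
  have m2 : t + e ∈ Icc (0 : ℝ) 1 := ⟨by linarith [ht.1], by linarith⟩
  have a1 : |t - e - t| = e := by rw [sub_sub_cancel_left, abs_neg, abs_of_pos e0]
  have a2 : |t - (t + e)| = e := by rw [sub_add_cancel_left, abs_neg, abs_of_pos e0]
  have a3 : |t - e - (t + e)| = 2 * e := by
    rw [abs_sub_comm, abs_of_pos (by linarith)]
    ring
  have b1 := H _ m1 _ m0 (by linarith)
  have b2 := H _ m0 _ m2 (by linarith)
  have b3 := H _ m1 _ m2 (by linarith)
  have c1 := H' _ m1 _ m0 (by linarith)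
  have c2 := H' _ m0 _ m2 (by linarith)
  have c3 := H' _ m1 _ m2 (by linarith)
  rw [a1] at b1 c1
  rw [a2] at b2 c2
  rw [a3] at b3 c3
  have p1 : 0 ≤ L * e := mul_nonneg hL e0.le
  have p2 : 0 ≤ L' * e := mul_nonneg hL' e0.le
  refine ⟨e, e0, e3, e4, bus4 h ⟨by linarith, by linarith⟩ ⟨by linarith, by linarith⟩
    (by linarith) (by linarith) ?_⟩
  linarith [dist_triangle (c (t - e)) (c (t + e)) (c' (t + e)), hd _ m2]

lemma speed_le (h : LocBus X r) {c c' : ℝ → X} {L L' : ℝ} (hc : LocGeo c L) (hc' : LocGeo c' L')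
    (hd : ∀ t ∈ Icc (0 : ℝ) 1, dist (c t) (c' t) ≤ r / 2) (h0 : c 0 = c' 0) :
    L' ≤ L + dist (c 1) (c' 1) := by
  obtain ⟨η, hη, H⟩ := unif hc
  obtain ⟨η', hη', H'⟩ := unif hc'
  obtain ⟨e, e0, e1, e2, e3, -⟩ := small hη hη' one_pos one_pos le_rfl one_pos
  have i0 : (0 : ℝ) ∈ Icc (0 : ℝ) 1 := ⟨le_rfl, zero_le_one⟩
  have ie : e ∈ Icc (0 : ℝ) 1 := ⟨e0.le, e3⟩
  have a1 : |0 - e| = e := by rw [zero_sub, abs_neg, abs_of_pos e0]
  have b1 := H 0 i0 e ie (by linarith)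
  have b2 := H' 0 i0 e ie (by linarith)
  have b3 := conv h hc hc' hd e ie
  rw [a1] at b1 b2
  rw [h0, dist_self] at b3
  rw [h0] at b1
  have b4 := dist_triangle (c' 0) (c e) (c' e)
  have b5 : L' * e ≤ (L + dist (c 1) (c' 1)) * e := by linarith
  exact le_of_mul_le_mul_right b5 e0

lemma exists_piece {N : ℕ} (hN : 0 < N) {u : ℝ} (h0 : 0 ≤ u) (h1 : u ≤ N) :
    ∃ i : ℕ, i < N ∧ (i : ℝ) ≤ u ∧ u ≤ i + 1 := by
  rcases h1.lt_or_eq with h | h
  · exact ⟨⌊u⌋₊, (Nat.floor_lt h0).2 h, Nat.floor_le h0, (Nat.lt_floor_add_one u).le⟩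
  · obtain ⟨n, rfl⟩ := Nat.exists_eq_add_one.2 hN
    push_cast at h
    exact ⟨n, n.lt_succ_self, by linarith, h.le⟩

lemma interp (h : LocBus X r) {N : ℕ} (hN : 0 < N) (z : ℕ → X) {l : ℝ} (hl : l < r)
    (h1 : ∀ i, i < N → dist (z i) (z (i + 1)) = l)
    (h2 : ∀ i, i + 1 < N → dist (z i) (z (i + 2)) = 2 * l) :
    ∃ e : ℝ → X, e 0 = z 0 ∧ e N = z N ∧
      (∀ i : ℕ, i < N → ∀ u, (i : ℝ) ≤ u → u ≤ i + 1 → dist (z i) (e u) ≤ l) ∧
      ∀ s t : ℝ, 0 ≤ s → s ≤ t → t ≤ N → t ≤ s + 1 → dist (e s) (e t) = l * (t - s) := by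
  have ex : ∀ i : ℕ, ∃ g : ℝ → X, g 0 = z i ∧ (i < N → IsSeg g (z i) (z (i + 1))) := by
    intro i
    by_cases hi : i < N
    · obtain ⟨g, hg⟩ := h.2.1 (z i) (z (i + 1)) (by rwa [h1 i hi])
      exact ⟨g, hg.1, fun _ => hg⟩
    · exact ⟨fun _ => z i, rfl, fun h => absurd h hi⟩
  choose g g0 hg using ex
  have l0 : 0 ≤ l := h1 0 hN ▸ dist_nonneg
  let e : ℝ → X := fun u => g ⌊u⌋₊ (u - ⌊u⌋₊)
  have en : ∀ i : ℕ, e i = z i := fun i => by simp [e, g0]
  have piece : ∀ i : ℕ, i < N → ∀ u, (i : ℝ) ≤ u → u ≤ i + 1 → e u = g i (u - i) := by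
    intro i hi u a1 a2
    rcases a2.lt_or_eq with a3 | a3
    · have : ⌊u⌋₊ = i := (Nat.floor_eq_iff ((Nat.cast_nonneg i).trans a1)).2 ⟨a1, a3⟩
      simp only [e, this]
    · have := en (i + 1)
      push_cast at this
      rw [a3, this, add_sub_cancel_left, (hg i hi).2.1]
  have left : ∀ i : ℕ, i < N → ∀ u, (i : ℝ) ≤ u → u ≤ i + 1 → dist (z i) (e u) = l * (u - i) := by
    intro i hi u a1 a2
    rw [piece i hi u a1 a2, seg_left (hg i hi) ⟨by linarith, by linarith⟩, h1 i hi, mul_comm]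
  have right : ∀ i : ℕ, i < N → ∀ u, (i : ℝ) ≤ u → u ≤ i + 1 →
      dist (e u) (z (i + 1)) = l * (1 - (u - i)) := by
    intro i hi u a1 a2
    rw [piece i hi u a1 a2, seg_right (hg i hi) ⟨by linarith, by linarith⟩, h1 i hi, mul_comm]
  refine ⟨e, by simpa using en 0, en N, fun i hi u a1 a2 => ?_, fun s t a0 a1 a2 a3 => ?_⟩
  · rw [left i hi u a1 a2]
    exact mul_le_of_le_one_right l0 (by linarith)
  · obtain ⟨i, hi, b1, b2⟩ := exists_piece hN a0 (a1.trans a2)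
    by_cases b3 : t ≤ i + 1
    · rw [piece i hi s b1 b2, piece i hi t (b1.trans a1) b3,
        (hg i hi).2.2 _ ⟨by linarith, by linarith⟩ _ ⟨by linarith, by linarith⟩, h1 i hi,
        abs_sub_comm, abs_of_nonneg (by linarith)]
      ring
    · have b4 : (i : ℝ) + 1 < t := not_le.1 b3
      have hi' : i + 1 < N := by exact_mod_cast b4.trans_le a2
      have c1 := left i hi s b1 b2
      have c2 := right i hi s b1 b2
      have c3 := left (i + 1) hi' t (by push_cast; linarith) (by push_cast; linarith)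
      have c4 := right (i + 1) hi' t (by push_cast; linarith) (by push_cast; linarith)
      push_cast at c3 c4
      have c5 := dist_triangle (e s) (z (i + 1)) (e t)
      have c6 := dist_triangle4 (z i) (e s) (e t) (z (i + 2))
      rw [h2 i hi'] at c6
      linarith

lemma exists_chain [CompactSpace X] (h : LocBus X r) {N : ℕ} (hN : 0 < N) (c : ℕ → X) {ε : ℝ}
    (hε : 4 * ε < r) (hc1 : ∀ i, i + 1 < N → dist (c i) (c (i + 2)) ≤ 2 * ε)
    (hc2 : ∀ i, i + 1 < N → Mid (c i) (c (i + 2)) (c (i + 1))) {x y : X}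
    (hx : dist (c 0) x ≤ ε) (hy : dist (c N) y ≤ ε) :
    ∃ z : ℕ → X, z 0 = x ∧ z N = y ∧ (∀ i, i ≤ N → dist (c i) (z i) ≤ ε) ∧
      ∀ i, i + 1 < N → Mid (z i) (z (i + 2)) (z (i + 1)) := by
  classical
  have ε0 : 0 ≤ ε := dist_nonneg.trans hx
  let K : Set (ℕ → X) := {z | z 0 = x ∧ z N = y ∧ ∀ i, i ≤ N → dist (c i) (z i) ≤ ε}
  have hK : IsCompact K := by
    refine IsClosed.isCompact ?_
    simp only [K, Set.ofPred_and, Set.ofPred_forall]
    exact (isClosed_eq (by fun_prop) (by fun_prop)).inter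
      ((isClosed_eq (by fun_prop) (by fun_prop)).inter
        (isClosed_iInter fun i => isClosed_iInter fun _ => isClosed_le (by fun_prop) (by fun_prop)))
  have hne : K.Nonempty := by
    refine ⟨fun i => if i = 0 then x else if i = N then y else c i, by simp, by simp [hN.ne'],
      fun i _ => ?_⟩
    dsimp only
    split_ifs with a1 a2
    · rwa [a1]
    · rwa [a2]
    · rwa [dist_self]
  let E : (ℕ → X) → ℝ := fun z => ∑ j ∈ Finset.range N, dist (z j) (z (j + 1)) ^ 2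
  have hE : Continuous E := by fun_prop
  obtain ⟨z, hz, hmin⟩ := hK.exists_isMinOn hne hE.continuousOn
  refine ⟨z, hz.1, hz.2.1, hz.2.2, fun i hi => ?_⟩
  have a1 := hz.2.2 i (by omega)
  have a2 := hz.2.2 (i + 2) (by omega)
  have a3 := hc1 i hi
  have a4 := dist_triangle4 (z i) (c i) (c (i + 2)) (z (i + 2))
  have a5 := dist_triangle (c i) (c (i + 2)) (z (i + 2))
  rw [dist_comm (z i) (c i)] at a4
  obtain ⟨m, hm⟩ := exists_mid h (x := z i) (y := z (i + 2)) (by linarith)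
  have a6 := bus4 h (hc2 i hi) hm (by linarith) (by linarith) (by linarith)
  have hz' : Function.update z (i + 1) m ∈ K := by
    refine ⟨by rw [Function.update_of_ne (by omega), hz.1],
      by rw [Function.update_of_ne (by omega), hz.2.1], fun j hj => ?_⟩
    by_cases a7 : j = i + 1
    · rw [a7, Function.update_self]
      linarith
    · rw [Function.update_of_ne a7]
      exact hz.2.2 j hj
  have hsub : ({i, i + 1} : Finset ℕ) ⊆ Finset.range N := by
    intro j hj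
    simp only [Finset.mem_insert, Finset.mem_singleton] at hj
    rw [Finset.mem_range]
    omega
  have split : ∀ w : ℕ → X, E w = ∑ j ∈ Finset.range N \ {i, i + 1}, dist (w j) (w (j + 1)) ^ 2 +
      (dist (w i) (w (i + 1)) ^ 2 + dist (w (i + 1)) (w (i + 2)) ^ 2) := by
    intro w
    simp only [E]
    rw [← Finset.sum_sdiff hsub, Finset.sum_pair (by omega)]
  have b1 : E z ≤ E (Function.update z (i + 1) m) := hmin hz'
  rw [split, split] at b1
  have b2 : ∑ j ∈ Finset.range N \ {i, i + 1},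
      dist (Function.update z (i + 1) m j) (Function.update z (i + 1) m (j + 1)) ^ 2 =
      ∑ j ∈ Finset.range N \ {i, i + 1}, dist (z j) (z (j + 1)) ^ 2 := by
    refine Finset.sum_congr rfl fun j hj => ?_
    simp only [Finset.mem_sdiff, Finset.mem_insert, Finset.mem_singleton] at hj
    rw [Function.update_of_ne (by omega), Function.update_of_ne (by omega)]
  rw [b2, Function.update_self, Function.update_of_ne (by omega), Function.update_of_ne (by omega),
    hm.1, hm.2] at b1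
  have b3 := dist_triangle (z i) (z (i + 1)) (z (i + 2))
  have b4 := dist_nonneg (x := z i) (y := z (i + 2))
  unfold Mid
  generalize dist (z i) (z (i + 1)) = a at *
  generalize dist (z (i + 1)) (z (i + 2)) = b at *
  generalize dist (z i) (z (i + 2)) = d at *
  have b5 : (a - d / 2) ^ 2 + (b - d / 2) ^ 2 ≤ 0 := by nlinarith [mul_le_mul_of_nonneg_left b3 b4]
  constructor
  · nlinarith [sq_nonneg (a - d / 2), sq_nonneg (b - d / 2)]
  · nlinarith [sq_nonneg (a - d / 2), sq_nonneg (b - d / 2)]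

lemma exists_close [CompactSpace X] (h : LocBus X r) {c : ℝ → X} {L : ℝ} (hc : LocGeo c L)
    {x y : X} (hx : dist (c 0) x ≤ r / 16) (hy : dist (c 1) y ≤ r / 16) :
    ∃ c' L', LocGeo c' L' ∧ c' 0 = x ∧ c' 1 = y ∧
      ∀ t ∈ Icc (0 : ℝ) 1, dist (c t) (c' t) ≤ r / 2 := by
  obtain ⟨η, hη, H⟩ := unif hc
  have hL := speed_nonneg hc
  have r0 := h.1
  obtain ⟨e, e0, e1, -, -, -, e2⟩ := small (half_pos hη) one_pos one_pos one_pos hL
    (by linarith : 0 < r / 16)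
  obtain ⟨n, hn⟩ := exists_nat_one_div_lt e0
  set N : ℕ := n + 1 with hNdef
  have hN : 0 < N := n.succ_pos
  have hN' : (0 : ℝ) < N := by exact_mod_cast hN
  have q1 : 1 / (N : ℝ) ≤ e := by rw [hNdef]; push_cast; exact hn.le
  have q2 : L * (1 / N) ≤ r / 16 := (mul_le_mul_of_nonneg_left q1 hL).trans e2.le
  have mem : ∀ i : ℕ, i ≤ N → (i : ℝ) / N ∈ Icc (0 : ℝ) 1 := fun i hi =>
    ⟨by positivity, (div_le_one hN').2 (by exact_mod_cast hi)⟩
  have d1 : ∀ i : ℕ, i < N → dist (c (i / N)) (c ((i + 1 : ℕ) / N)) = L * (1 / N) := by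
    intro i hi
    have : |(i : ℝ) / N - (i + 1 : ℕ) / N| = 1 / N := by
      rw [abs_sub_comm, ← sub_div, abs_of_nonneg (by push_cast; simp)]
      push_cast
      simp
    rw [H _ (mem i hi.le) _ (mem _ hi) (by linarith), this]
  have d2 : ∀ i : ℕ, i + 1 < N → dist (c (i / N)) (c ((i + 2 : ℕ) / N)) = 2 * (L * (1 / N)) := by
    intro i hi
    have : |(i : ℝ) / N - (i + 2 : ℕ) / N| = 2 * (1 / N) := by
      rw [abs_sub_comm, ← sub_div, abs_of_nonneg (by push_cast; simp; positivity)]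
      push_cast
      ring
    rw [H _ (mem i (by omega)) _ (mem _ hi) (by linarith), this]
    ring
  obtain ⟨z, z0, zN, zc, zm⟩ := exists_chain h hN (fun i => c (i / N)) (ε := r / 16) (by linarith)
    (fun i hi => by rw [d2 i hi]; linarith)
    (fun i hi => ⟨by rw [d2 i hi, d1 i (by omega)]; ring, by rw [d2 i hi, d1 (i + 1) hi]; ring⟩)
    (x := x) (y := y) (by simpa using hx) (by simpa [div_self hN'.ne'] using hy)
  have s1 : ∀ i, i < N → dist (z i) (z (i + 1)) = dist (z 0) (z 1) := by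
    intro i
    induction i with
    | zero => exact fun _ => rfl
    | succ i ih => exact fun hi => by rw [← ih (by omega), (zm i hi).1, (zm i hi).2]
  have s2 : ∀ i, i + 1 < N → dist (z i) (z (i + 2)) = 2 * dist (z 0) (z 1) := fun i hi => by
    rw [← s1 i (by omega), (zm i hi).1]
    ring
  have s3 : dist (z 0) (z 1) ≤ 3 * (r / 16) := by
    have a1 := zc 0 hN.le
    have a2 := zc 1 hN
    have a3 := d1 0 hN
    have a4 := dist_triangle4 (z 0) (c ((0 : ℕ) / N)) (c ((0 + 1 : ℕ) / N)) (z 1)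
    rw [dist_comm] at a1
    simp only [zero_add] at a3 a4
    linarith
  obtain ⟨f, f0, fN, f1, f2⟩ := interp h hN z (by linarith) s1 s2
  refine ⟨fun t => f (N * t), dist (z 0) (z 1) * N, of_unif (η := 1 / N) (by positivity) ?_,
    by simpa [z0] using f0, by simpa [zN] using fN, fun t ht => ?_⟩
  · have aux : ∀ s ∈ Icc (0 : ℝ) 1, ∀ t ∈ Icc (0 : ℝ) 1, s ≤ t → t - s ≤ 1 / N →
        dist (f (N * s)) (f (N * t)) = dist (z 0) (z 1) * N * (t - s) := by
      intro s hs t ht a1 a2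
      rw [le_div_iff₀ hN'] at a2
      rw [f2 _ _ (mul_nonneg hN'.le hs.1) (mul_le_mul_of_nonneg_left a1 hN'.le)
        (mul_le_of_le_one_right hN'.le ht.2) (by linarith)]
      ring
    intro s hs t ht hst
    rcases le_total s t with a | a
    · rw [abs_sub_comm, abs_of_nonneg (sub_nonneg.2 a)] at hst ⊢
      exact aux s hs t ht a hst
    · rw [abs_of_nonneg (sub_nonneg.2 a)] at hst ⊢
      rw [dist_comm]
      exact aux t ht s hs a hst
  · obtain ⟨i, hi, b1, b2⟩ := exists_piece hN (mul_nonneg hN'.le ht.1)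
      (mul_le_of_le_one_right hN'.le ht.2)
    have a1 := f1 i hi _ b1 b2
    have a2 := zc i hi.le
    have a3 : |t - i / N| ≤ 1 / N := by
      rw [abs_of_nonneg (by rw [sub_nonneg, div_le_iff₀ hN']; linarith), sub_le_iff_le_add,
        ← add_div, le_div_iff₀ hN']
      linarith
    have a4 := H t ht _ (mem i hi.le) (by linarith)
    have a5 := mul_le_mul_of_nonneg_left a3 hL
    have a6 := dist_triangle4 (c t) (c (i / N)) (z i) (f (N * t))
    dsimp only at a2 ⊢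
    linarith

end Pool.Agent.Lib.MP_c2693b_gt.CH
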