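import Pool.Agent.Lib.MP_c2693b_gt.CH2

/-! Cartan-Hadamard, part 3: the space of local geodesics. -/

open Set Metric Filter Topology

namespace Pool.Agent.Lib.MP_c2693b_gt.CH

variable {X : Type} [MetricSpace X] {r : ℝ}

lemma i0 : (0 : ℝ) ∈ Icc (0 : ℝ) 1 := ⟨le_rfl, zero_le_one⟩
lemma i1 : (1 : ℝ) ∈ Icc (0 : ℝ) 1 := ⟨zero_le_one, le_rfl⟩

lemma locGeo_congr {c c' : ℝ → X} {L : ℝ} (h : LocGeo c L) (e : ∀ t ∈ Icc (0 : ℝ) 1, c' t = c t) :
    LocGeo c' L := fun t ht => by
  obtain ⟨η, hη, H⟩ := h t ht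
  exact ⟨η, hη, fun s hs s' hs' a b => by rw [e s hs, e s' hs', H s hs s' hs' a b]⟩

lemma locGeo_ev {c : ℝ → X} {L : ℝ} (h : LocGeo c L) {s : ℝ} (hs : s ∈ Icc (0 : ℝ) 1) :
    ∀ᶠ s' in 𝓝 s, s' ∈ Icc (0 : ℝ) 1 → dist (c s') (c s) = L * |s' - s| := by
  obtain ⟨η, hη, H⟩ := h s hs
  filter_upwards [ball_mem_nhds s hη] with s' h1 h2
  rw [mem_ball, Real.dist_eq] at h1
  exact H s' h2 s hs h1.le (by simpa using hη.le)

lemma locGeo_le {c : ℝ → X} {L : ℝ} (h : LocGeo c L) {t : ℝ} (ht : t ∈ Icc (0 : ℝ) 1) :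
    dist (c 0) (c t) ≤ L * t := by
  have := ll_le (f := fun s => dist (c 0) (c s)) (K := L) ht.1 fun s hs => by
    filter_upwards [locGeo_ev h ⟨hs.1, hs.2.trans ht.2⟩] with s' h1 h2
    rw [← h1 ⟨h2.1, h2.2.trans ht.2⟩, dist_comm (c 0), dist_comm (c 0)]
    exact abs_dist_sub_le _ _ _
  simpa using this

lemma locGeo_iff {Y : Type} [MetricSpace Y] {p : Y → X} {ε : ℝ} (hp : BallIso p ε) {c : ℝ → Y}
    (hc : ContinuousOn c (Icc 0 1)) {L : ℝ} : LocGeo (p ∘ c) L ↔ LocGeo c L := by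
  refine forall₂_congr fun t ht => ?_
  obtain ⟨δ, hδ, H⟩ := Metric.continuousOn_iff.1 hc t ht (ε / 2) (half_pos hp.pos)
  have key : ∀ s ∈ Icc (0 : ℝ) 1, ∀ s' ∈ Icc (0 : ℝ) 1, |s - t| ≤ δ / 2 → |s' - t| ≤ δ / 2 →
      dist ((p ∘ c) s) ((p ∘ c) s') = dist (c s) (c s') := by
    intro s hs s' hs' a b
    have a1 := H s hs (by rw [Real.dist_eq]; linarith)
    have a2 := H s' hs' (by rw [Real.dist_eq]; linarith)
    exact hp.iso _ _ (by linarith [dist_triangle_right (c s) (c s') (c t)])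
  constructor
  · rintro ⟨η, hη, H'⟩
    refine ⟨min η (δ / 2), by positivity, fun s hs s' hs' a b => ?_⟩
    rw [le_min_iff] at a b
    rw [← key s hs s' hs' a.2 b.2, H' s hs s' hs' a.1 b.1]
  · rintro ⟨η, hη, H'⟩
    refine ⟨min η (δ / 2), by positivity, fun s hs s' hs' a b => ?_⟩
    rw [le_min_iff] at a b
    rw [key s hs s' hs' a.2 b.2, H' s hs s' hs' a.1 b.1]

/-- A path, extended to the line. -/
noncomputable def ext (c : C(unitInterval, X)) (t : ℝ) : X := c (projIcc 0 1 zero_le_one t)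

lemma ext_coe (c : C(unitInterval, X)) (t : unitInterval) : ext c t = c t := by
  rw [ext, projIcc_val]

lemma ext_mem (c : C(unitInterval, X)) {t : ℝ} (ht : t ∈ Icc (0 : ℝ) 1) : ext c t = c ⟨t, ht⟩ :=
  ext_coe c ⟨t, ht⟩

lemma ext_cont {Z : Type*} [TopologicalSpace Z] {c : Z → C(unitInterval, X)} {t : Z → ℝ}
    (hc : Continuous c) (ht : Continuous t) : Continuous fun z => ext (c z) (t z) :=
  hc.eval (continuous_projIcc.comp ht)

variable (X) in
/-- The space of local geodesics. -/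
abbrev G : Type := {c : C(unitInterval, X) // ∃ L, LocGeo (ext c) L}

/-- The local geodesic given by a function on the line. -/
def mkG (c : ℝ → X) {L : ℝ} (h : LocGeo c L) : G X :=
  ⟨⟨fun t => c t, (locGeo_cont h).comp_continuous continuous_subtype_val fun t => t.2⟩, L,
    locGeo_congr h fun _ ht => ext_mem _ ht⟩

lemma ext_mkG (c : ℝ → X) {L : ℝ} (h : LocGeo c L) {t : ℝ} (ht : t ∈ Icc (0 : ℝ) 1) :
    ext (mkG c h).1 t = c t := ext_mem _ ht

lemma G_ext {c c' : G X} (h : ∀ t ∈ Icc (0 : ℝ) 1, ext c.1 t = ext c'.1 t) : c = c' :=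
  Subtype.ext (ContinuousMap.ext fun t => by rw [← ext_coe, ← ext_coe, h t t.2])

/-- The length of a local geodesic. -/
noncomputable def len (c : G X) : ℝ := c.2.choose

lemma len_spec (c : G X) : LocGeo (ext c.1) (len c) := c.2.choose_spec

lemma len_eq (h : LocBus X r) {c : G X} {L : ℝ} (hc : LocGeo (ext c.1) L) : len c = L := by
  have hd : ∀ t ∈ Icc (0 : ℝ) 1, dist (ext c.1 t) (ext c.1 t) ≤ r / 2 := fun t _ => by
    rw [dist_self]
    linarith [h.1]
  have a := speed_le h hc (len_spec c) hd rfl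
  have b := speed_le h (len_spec c) hc hd rfl
  rw [dist_self] at a b
  linarith

/-- The end points. -/
noncomputable def ev (c : G X) : X × X := (ext c.1 0, ext c.1 1)

lemma ext_le (c c' : G X) (t : ℝ) : dist (ext c.1 t) (ext c'.1 t) ≤ dist c c' :=
  ContinuousMap.dist_apply_le_dist _

lemma dist_of_close (h : LocBus X r) {c c' : G X}
    (hd : ∀ t ∈ Icc (0 : ℝ) 1, dist (ext c.1 t) (ext c'.1 t) ≤ r / 2) :
    dist (ev c) (ev c') = dist c c' := by
  refine le_antisymm (max_le (ext_le _ _ _) (ext_le _ _ _)) ?_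
  refine (ContinuousMap.dist_le dist_nonneg).2 fun t => ?_
  rw [← ext_coe, ← ext_coe]
  have a := conv h (len_spec c) (len_spec c') hd t t.2
  have b1 : dist (ext c.1 0) (ext c'.1 0) ≤ dist (ev c) (ev c') := le_max_left _ _
  have b2 : dist (ext c.1 1) (ext c'.1 1) ≤ dist (ev c) (ev c') := le_max_right _ _
  nlinarith [mul_le_mul_of_nonneg_left b1 (sub_nonneg.2 t.2.2), mul_le_mul_of_nonneg_left b2 t.2.1]

lemma ev_iso [CompactSpace X] (h : LocBus X r) : BallIso (ev (X := X)) (r / 16) where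
  pos := by linarith [h.1]
  iso c c' hc := dist_of_close h fun t _ => by linarith [ext_le c c' t, h.1]
  surj c b hb := by
    obtain ⟨f, L, h1, h2, h3, h4⟩ := exists_close h (len_spec c) (x := b.1) (y := b.2)
      ((le_max_left _ _).trans hb.le) ((le_max_right _ _).trans hb.le)
    have e : ev (mkG f h1) = b := Prod.ext ((ext_mkG f h1 i0).trans h2) ((ext_mkG f h1 i1).trans h3)
    refine ⟨mkG f h1, ?_, e⟩
    rwa [← dist_of_close h fun t ht => by rw [ext_mkG f h1 ht]; exact h4 t ht, e]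

lemma locGeo_const (x : X) : LocGeo (fun _ => x) 0 :=
  of_unif one_pos fun _ _ _ _ _ => by simp

/-- Constant paths. -/
def cst (x : X) : G X := mkG (fun _ => x) (locGeo_const x)

lemma ext_cst (x : X) (t : ℝ) : ext (cst x).1 t = x := rfl

lemma cst_cont : Continuous (cst (X := X)) :=
  Continuous.subtype_mk (ContinuousMap.continuous_const') _

lemma locGeo_scale {c : ℝ → X} {L : ℝ} (h : LocGeo c L) (s : unitInterval) :
    LocGeo (fun t => c (s * t)) (L * s) := by
  obtain ⟨η, hη, H⟩ := unif h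
  refine of_unif hη fun t ht t' ht' a => ?_
  have e : |s * t - s * t'| = s * |t - t'| := by rw [← mul_sub, abs_mul, abs_of_nonneg s.2.1]
  rw [H _ (unitInterval.mul_mem s.2 ht) _ (unitInterval.mul_mem s.2 ht')
    (by rw [e]; exact (mul_le_of_le_one_left (abs_nonneg _) s.2.2).trans a), e, mul_assoc]

/-- The initial part of a local geodesic. -/
noncomputable def scale (s : unitInterval) (c : G X) : G X :=
  mkG (fun t => ext c.1 (s * t)) (locGeo_scale (len_spec c) s)

lemma ext_scale (s : unitInterval) (c : G X) {t : ℝ} (ht : t ∈ Icc (0 : ℝ) 1) :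
    ext (scale s c).1 t = ext c.1 (s * t) := ext_mkG _ _ ht

lemma scale_cont : Continuous fun q : unitInterval × G X => scale q.1 q.2 := by
  refine Continuous.subtype_mk (ContinuousMap.continuous_of_continuous_uncurry _ ?_) _
  exact ext_cont (c := fun z : (unitInterval × G X) × unitInterval => z.1.2.1)
    (t := fun z => (z.1.1 : ℝ) * z.2) (by fun_prop) (by fun_prop)

lemma scale_zero (c : G X) : scale 0 c = cst (ext c.1 0) :=
  G_ext fun t ht => by rw [ext_scale _ _ ht, ext_cst]; simp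

lemma scale_one (c : G X) : scale 1 c = c :=
  G_ext fun t ht => by rw [ext_scale _ _ ht]; simp

/-- Local geodesics with a given starting point. -/
abbrev Y0 (x₀ : X) : Type := {c : G X // ext c.1 0 = x₀}

/-- The end point. -/
noncomputable def p0 (x₀ : X) (c : Y0 x₀) : X := ext c.1.1 1

lemma p0_iso [CompactSpace X] (h : LocBus X r) (x₀ : X) : BallIso (p0 x₀) (r / 16) where
  pos := by linarith [h.1]
  iso c c' hc := by
    have := (ev_iso h).iso c.1 c'.1 hc
    rw [Prod.dist_eq, ev, ev, c.2, c'.2, dist_self, max_eq_right dist_nonneg] at this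
    exact this
  surj c b hb := by
    obtain ⟨c', h1, h2⟩ := (ev_iso h).surj c.1 (x₀, b) (by
      rw [Prod.dist_eq, ev, c.2, dist_self, max_eq_right dist_nonneg]
      exact hb)
    exact ⟨⟨c', congrArg Prod.fst h2⟩, h1, congrArg Prod.snd h2⟩

instance (x₀ : X) : ContractibleSpace (Y0 x₀) := by
  rw [contractible_iff_id_nullhomotopic]
  refine ⟨⟨cst x₀, rfl⟩, ContinuousMap.Homotopic.symm ⟨⟨⟨fun q => ⟨scale q.1 q.2.1, ?_⟩, ?_⟩,
    fun c => Subtype.ext ?_, fun c => Subtype.ext (scale_one c.1)⟩⟩⟩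
  · rw [ext_scale _ _ i0, mul_zero, q.2.2]
  · exact Continuous.subtype_mk (scale_cont.comp (continuous_fst.prodMk
      (continuous_subtype_val.comp continuous_snd))) _
  · exact (scale_zero c.1).trans (congrArg cst c.2)

end Pool.Agent.Lib.MP_c2693b_gt.CH
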