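import Pool.Agent.Lib.MP_c2693b_gt.CH3

/-! Cartan-Hadamard, part 4: the lifted length metric on a contractible cover. -/

open Set Metric Filter Topology

namespace Pool.Agent.Lib.MP_c2693b_gt.CH

variable {X Y : Type} [MetricSpace X] [MetricSpace Y] {r ε : ℝ} {p : Y → X}

lemma BallIso.mono (h : BallIso p ε) {δ : ℝ} (h0 : 0 < δ) (h1 : δ ≤ ε) : BallIso p δ where
  pos := h0
  iso a a' ha := h.iso a a' (ha.trans_le h1)
  surj a b hb := by
    obtain ⟨a', h2, h3⟩ := h.surj' a b (hb.trans_le h1)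
    exact ⟨a', h2 ▸ hb, h3⟩

lemma BallIso.seg (hp : BallIso p ε) (h : LocBus X r) (a b : Y) (hab : dist a b < min (ε / 2) r) :
    ∃ c, IsSeg c a b := by
  rw [lt_min_iff] at hab
  obtain ⟨γ, hγ⟩ := h.2.1 (p a) (p b) (by rw [hp.iso a b (by linarith [hp.pos])]; exact hab.2)
  obtain ⟨c, hc, -⟩ := hp.seg_lift hab.1 hγ
  exact ⟨c, hc⟩

/-- The lifted length function and the lifted geodesics. -/
structure Pre (p : Y → X) (δ : ℝ) (D : Y → Y → ℝ) (geo : Y → Y → ℝ → Y) : Prop where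
  self : ∀ a, D a a = 0
  comm : ∀ a b, D a b = D b a
  tri : ∀ a b c, D a c ≤ D a b + D b c
  le : ∀ a b, dist a b ≤ D a b
  eq : ∀ a b, dist a b < δ → D a b = dist a b
  zero : ∀ a b, geo a b 0 = a
  one : ∀ a b, geo a b 1 = b
  lip : ∀ a b s t, 0 ≤ s → s ≤ t → t ≤ 1 → D (geo a b s) (geo a b t) ≤ D a b * (t - s)
  conv : ∀ a b c, ∀ t ∈ Icc (0 : ℝ) 1, D (geo a b t) (geo a c t) ≤ t * D b c
  loc : ∀ (c : ℝ → Y) (L : ℝ), ContinuousOn c (Icc 0 1) → LocGeo (p ∘ c) L →
    D (c 0) (c 1) = L ∧ ∀ t ∈ Icc (0 : ℝ) 1, c t = geo (c 0) (c 1) t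

lemma exists_pre [CompactSpace X] [ContractibleSpace Y] (h : LocBus X r) (hp : BallIso p ε) :
    ∃ D geo, Pre p (min (ε / 2) r) D geo := by
  have r0 := h.1
  have : LocallyPathConnectedSpace Y := locPath_of_seg (lt_min (half_pos hp.pos) r0) (hp.seg h)
  obtain ⟨y0⟩ : Nonempty Y := inferInstance
  have cv := (ev_iso h).covering
  have cp := hp.covering
  have pc := hp.continuous
  obtain ⟨Γ, ⟨Γ0, hΓ⟩, -⟩ := cv.existsUnique_continuousMap_lifts
    (⟨Prod.map p p, pc.prodMap pc⟩ : C(Y × Y, X × X)) (y0, y0) (cst (p y0)) rfl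
  have e0 : ∀ a b, ext (Γ (a, b)).1 0 = p a := fun a b => congrArg Prod.fst (congrFun hΓ (a, b))
  have e1 : ∀ a b, ext (Γ (a, b)).1 1 = p b := fun a b => congrArg Prod.snd (congrFun hΓ (a, b))
  have diag : ∀ a, Γ (a, a) = cst (p a) := congrFun (cv.eq_of_comp_eq
    (g₁ := fun a => Γ (a, a)) (g₂ := fun a => cst (p a)) (by fun_prop) (cst_cont.comp pc)
    (funext fun a => Prod.ext (e0 a a) (e1 a a)) y0 Γ0)
  obtain ⟨Φ, ⟨Φ0, hΦ⟩, -⟩ := cp.existsUnique_continuousMap_lifts
    (⟨fun q => ext (Γ (q.1, q.2.1)).1 q.2.2, ext_cont (by fun_prop) (by fun_prop)⟩ :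
      C(Y × Y × ℝ, X)) (y0, y0, 0) y0 (e0 y0 y0).symm
  let geo : Y → Y → ℝ → Y := fun a b t => Φ (a, b, t)
  let D : Y → Y → ℝ := fun a b => len (Γ (a, b))
  have pg : ∀ a b t, p (geo a b t) = ext (Γ (a, b)).1 t := fun a b t => congrFun hΦ (a, b, t)
  have gc : ∀ a b, Continuous (geo a b) := fun a b => by fun_prop
  have g0 : ∀ a b, geo a b 0 = a := fun a b => congrFun (cp.eq_of_comp_eq
    (g₁ := fun q : Y × Y => geo q.1 q.2 0) (g₂ := fun q => q.1) (by fun_prop) (by fun_prop)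
    (funext fun q => (pg _ _ _).trans (e0 _ _)) (y0, y0) Φ0) (a, b)
  have g00 : geo y0 y0 1 = y0 := (cp.const_of_comp (gc y0 y0)
    (fun s t => by rw [pg, pg, diag, ext_cst, ext_cst]) 1 0).trans Φ0
  have g1 : ∀ a b, geo a b 1 = b := fun a b => congrFun (cp.eq_of_comp_eq
    (g₁ := fun q : Y × Y => geo q.1 q.2 1) (g₂ := fun q => q.2) (by fun_prop) (by fun_prop)
    (funext fun q => (pg _ _ _).trans (e1 _ _)) (y0, y0) g00) (a, b)
  have lg : ∀ a b, LocGeo (p ∘ geo a b) (D a b) := fun a b =>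
    locGeo_congr (len_spec _) fun t _ => pg a b t
  have close : ∀ (y : Y) (σ : ℝ → Y) (a b : ℝ), ContinuousOn σ (Icc a b) → ∀ s ∈ Icc a b,
      ∀ᶠ s' in 𝓝 s, s' ∈ Icc a b →
        ∀ t ∈ Icc (0 : ℝ) 1, dist (ext (Γ (y, σ s')).1 t) (ext (Γ (y, σ s)).1 t) ≤ r / 2 := by
    intro y σ a b hσ s hs
    have c1 : ContinuousOn (fun s => Γ (y, σ s)) (Icc a b) :=
      Γ.continuous.comp_continuousOn (continuousOn_const.prodMk hσ)
    have c2 := eventually_nhdsWithin_iff.1 (Metric.tendsto_nhds.1 (c1 s hs) (r / 2) (half_pos r0))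
    filter_upwards [c2] with s' h1 h2 t _
    exact (ext_le _ _ t).trans (h1 h2).le
  have LIP : ∀ (y : Y) (σ : ℝ → Y) (a b K : ℝ), a ≤ b → ContinuousOn σ (Icc a b) →
      (∀ s ∈ Icc a b, ∀ᶠ s' in 𝓝 s, s' ∈ Icc a b → dist (p (σ s')) (p (σ s)) ≤ K * |s' - s|) →
      D y (σ b) ≤ D y (σ a) + K * (b - a) ∧ D y (σ a) ≤ D y (σ b) + K * (b - a) := by
    intro y σ a b K hab hσ H
    have key : ∀ s ∈ Icc a b, ∀ᶠ s' in 𝓝 s, s' ∈ Icc a b →
        |D y (σ s') - D y (σ s)| ≤ K * |s' - s| := by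
      intro s hs
      filter_upwards [H s hs, close y σ a b hσ s hs] with s' h1 h2 h3
      have a1 := speed_le h (len_spec _) (len_spec _) (h2 h3) (by rw [e0, e0])
      have a2 := speed_le h (len_spec (Γ (y, σ s))) (len_spec (Γ (y, σ s')))
        (fun t ht => by rw [dist_comm]; exact h2 h3 t ht) (by rw [e0, e0])
      rw [e1, e1] at a1 a2
      rw [dist_comm] at a2
      exact abs_le.2 ⟨by linarith [h1 h3], by linarith [h1 h3]⟩
    refine ⟨ll_le (f := fun s => D y (σ s)) hab key, ?_⟩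
    have := ll_le (f := fun s => -D y (σ s)) (K := K) hab fun s hs => by
      filter_upwards [key s hs] with s' h1 h2
      rw [neg_sub_neg, abs_sub_comm]
      exact h1 h2
    linarith
  have T : ∀ y a b s t, 0 ≤ s → s ≤ t → t ≤ 1 →
      D y (geo a b t) ≤ D y (geo a b s) + D a b * (t - s) ∧
        D y (geo a b s) ≤ D y (geo a b t) + D a b * (t - s) := by
    intro y a b s t h0 h1 h2
    refine LIP y (geo a b) s t _ h1 (gc a b).continuousOn fun u hu => ?_
    filter_upwards [locGeo_ev (lg a b) ⟨h0.trans hu.1, hu.2.trans h2⟩] with u' h3 h4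
    exact (h3 ⟨h0.trans h4.1, h4.2.trans h2⟩).le
  have self : ∀ a, D a a = 0 := fun a => by
    show len (Γ (a, a)) = 0
    rw [diag]
    exact len_eq h (locGeo_const _)
  have comm : ∀ a b, D b a ≤ D a b := fun a b => by
    have := (T b a b 0 1 le_rfl zero_le_one le_rfl).2
    rw [g0, g1, self] at this
    linarith
  have le : ∀ a b, dist a b ≤ D a b := fun a b => by
    have := locGeo_le ((locGeo_iff hp (gc a b).continuousOn).1 (lg a b)) i1
    rwa [g0, g1, mul_one] at this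
  refine ⟨D, geo, self, fun a b => le_antisymm (comm b a) (comm a b), fun a b c => ?_, le,
    fun a b hab => le_antisymm ?_ (le a b), g0, g1, fun a b s t h0 h1 h2 => ?_,
    fun a b c t ht => ?_, fun c L hc hL => ?_⟩
  · have := (T a b c 0 1 le_rfl zero_le_one le_rfl).1
    rw [g0, g1] at this
    linarith
  · obtain ⟨c, hc⟩ := hp.seg h a b hab
    have := (LIP a c 0 1 (dist a b) zero_le_one (seg_cont hc) fun s hs => by
      filter_upwards [locGeo_ev ((locGeo_iff hp (seg_cont hc)).2 (seg_locGeo hc)) hs] with s' h1 h2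
      exact (h1 h2).le).1
    rw [hc.1, hc.2.1, self] at this
    linarith
  · have := (T (geo a b s) a b s t h0 h1 h2).1
    rwa [self, zero_add] at this
  · have := (LIP (geo a b t) (fun s => geo a (geo b c s) t) 0 1 (t * D b c) zero_le_one
      (Continuous.continuousOn (by fun_prop)) fun s hs => by
      filter_upwards [locGeo_ev (lg b c) hs, close a (geo b c) 0 1 (gc b c).continuousOn s hs]
        with s' h1 h2 h3
      have a1 := conv h (len_spec _) (len_spec _) (h2 h3) t ht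
      rw [e0, e0, e1, e1, dist_self, mul_zero, zero_add] at a1
      rw [pg, pg, mul_assoc, ← h1 h3]
      exact a1).1
    rw [g0, g1, self] at this
    linarith
  · have c1 : Continuous fun s : unitInterval => c s :=
      hc.comp_continuous continuous_subtype_val fun t => t.2
    have key := congrFun (cv.eq_of_comp_eq (g₁ := fun s : unitInterval => scale s (mkG _ hL))
      (g₂ := fun s => Γ (c 0, c s)) (scale_cont.comp (continuous_id.prodMk continuous_const))
      (Γ.continuous.comp (continuous_const.prodMk c1)) (funext fun s => Prod.ext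
        (by
          show ext (scale s _).1 0 = ext (Γ (c 0, c s)).1 0
          rw [e0, ext_scale _ _ i0, mul_zero, ext_mkG _ _ i0]
          rfl)
        (by
          show ext (scale s _).1 1 = ext (Γ (c 0, c s)).1 1
          rw [e1, ext_scale _ _ i1, mul_one, ext_mkG _ _ s.2]
          rfl)) 0
      (by
        show scale 0 _ = Γ (c 0, c 0)
        rw [scale_zero, diag, ext_mkG _ _ i0]
        rfl)) 1
    have key' : mkG _ hL = Γ (c 0, c 1) := (scale_one _).symm.trans key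
    refine ⟨?_, cp.eqOn_of_comp_eqOn isPreconnected_Icc hc (gc _ _).continuousOn
      (fun t ht => ?_) i0 (g0 _ _).symm⟩
    · show len (Γ (c 0, c 1)) = L
      rw [← key']
      exact len_eq h (locGeo_congr hL fun t ht => ext_mkG _ _ ht)
    · show p (c t) = p (geo (c 0) (c 1) t)
      rw [pg, ← key', ext_mkG _ _ ht]
      rfl

end Pool.Agent.Lib.MP_c2693b_gt.CH
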