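import Pool.Agent.Lib.MP_c2693b_gt.Defs
import Pool.Agent.Lib.MP_c2693b_gt.Cone

/-! The metric generated by steps, and its local models. -/

set_option autoImplicit false

open Set Metric Topology Filter
open scoped ENNReal

namespace Pool.Agent.Lib.MP_c2693b_gt

/-- `k` maps the ball of radius `r` about `z0` isometrically onto the ball about `m`. -/
structure BallModel {M Z : Type} [MetricSpace M] [MetricSpace Z] (m : M) (z0 : Z) (r : ℝ)
    (k : Z → M) : Prop where
  pos : 0 < r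
  base : k z0 = m
  iso : ∀ z ∈ ball z0 r, ∀ z' ∈ ball z0 r, dist (k z) (k z') = dist z z'
  onto : ball m r ⊆ k '' ball z0 r

/-- In a compact space approximate betweenness points give segments. -/
theorem seg_of_between {M : Type} [MetricSpace M] [CompactSpace M]
    (h : ∀ a b : M, ∀ t s : ℝ, 0 < t → 0 < s → dist a b < t + s →
      ∃ m, dist a m ≤ t ∧ dist m b ≤ s) (a b : M) : ∃ γ, IsSeg γ a b := by
  have h1 : ∀ a b : M, ∀ t s : ℝ, 0 ≤ t → 0 ≤ s → dist a b ≤ t + s →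
      ∃ m, dist a m ≤ t ∧ dist m b ≤ s := by
    intro a b t s ht hs hts
    have hc : Continuous fun m : M => max (dist a m - t) (dist m b - s) := by fun_prop
    obtain ⟨m, -, hm⟩ := isCompact_univ.exists_isMinOn ⟨a, mem_univ a⟩ hc.continuousOn
    have : max (dist a m - t) (dist m b - s) ≤ 0 := by
      refine le_of_forall_pos_le_add fun e he => ?_
      obtain ⟨m', e1, e2⟩ := h a b (t + e) (s + e) (by linarith) (by linarith) (by linarith)
      exact (hm (mem_univ m')).trans (max_le (by linarith) (by linarith))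
    exact ⟨m, by linarith [le_max_left (dist a m - t) (dist m b - s)],
      by linarith [le_max_right (dist a m - t) (dist m b - s)]⟩
  set D := dist a b with hD
  have hD0 : 0 ≤ D := dist_nonneg
  have h2 : ∀ e : ℝ, 0 ≤ e → ∀ x : M, ∃ y, dist x y ≤ e ∧ dist y b ≤ max (dist x b - e) 0 :=
    fun e he x => h1 x b e _ he (le_max_right _ _) (by linarith [le_max_left (dist x b - e) 0])
  have h3 : ∀ n : ℕ, ∃ c : ℝ → M, c 0 = a ∧ c 1 = b ∧ ∀ s ∈ Icc (0 : ℝ) 1, ∀ t ∈ Icc (0 : ℝ) 1,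
      s ≤ t → dist (c s) (c t) ≤ (t - s + 1 / (n + 1 : ℝ)) * D := by
    intro n
    have hn : (0 : ℝ) < n + 1 := by positivity
    choose F hF1 hF2 using h2 (D / (n + 1)) (by positivity)
    have g1 : ∀ k j : ℕ, dist (F^[k] a) (F^[k + j] a) ≤ j * (D / (n + 1)) := by
      intro k j
      induction j with
      | zero => simp
      | succ j ih =>
        rw [← add_assoc, Function.iterate_succ_apply']
        have := hF1 (F^[k + j] a)
        have := dist_triangle (F^[k] a) (F^[k + j] a) (F (F^[k + j] a))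
        push_cast
        linarith
    have g2 : ∀ k : ℕ, dist (F^[k] a) b ≤ max (D - k * (D / (n + 1))) 0 := by
      intro k
      induction k with
      | zero => simp [hD]
      | succ k ih =>
        rw [Function.iterate_succ_apply']
        refine (hF2 _).trans (max_le ?_ (le_max_right _ _))
        have h0 : 0 ≤ D / (n + 1) := by positivity
        rcases le_max_iff.1 ih with ih | ih
        · refine le_max_of_le_left ?_
          push_cast
          linarith
        · exact le_max_of_le_right (by linarith)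
    refine ⟨fun t => F^[⌊t * (n + 1)⌋₊] a, by simp, ?_, fun s hs t ht hst => ?_⟩
    · have := g2 (n + 1)
      rw [Nat.cast_add, Nat.cast_one, mul_div_cancel₀ _ hn.ne', sub_self, max_self] at this
      have e : ⌊(1 : ℝ) * (n + 1)⌋₊ = n + 1 := by
        rw [one_mul, ← Nat.cast_add_one, Nat.floor_natCast]
      simp only [e]
      exact dist_le_zero.1 this
    · obtain ⟨j, hj⟩ := Nat.exists_eq_add_of_le
        (Nat.floor_le_floor (mul_le_mul_of_nonneg_right hst hn.le))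
      simp only [hj]
      refine (g1 _ _).trans ?_
      have e1 := Nat.floor_le (mul_nonneg ht.1 hn.le)
      have e2 := Nat.lt_floor_add_one (s * (n + 1))
      rw [hj, Nat.cast_add] at e1
      have e3 : (j : ℝ) ≤ (t - s) * (n + 1) + 1 := by linarith
      calc (j : ℝ) * (D / (n + 1)) ≤ ((t - s) * (n + 1) + 1) * (D / (n + 1)) :=
            mul_le_mul_of_nonneg_right e3 (by positivity)
        _ = _ := by field_simp
  choose c c0 c1 hc using h3
  let 𝒰 : Ultrafilter ℕ := Ultrafilter.of atTop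
  have hU : (𝒰 : Filter ℕ) ≤ atTop := Ultrafilter.of_le _
  have h4 : ∀ t : ℝ, ∃ y, Tendsto (fun n => c n t) 𝒰 (𝓝 y) := fun t => by
    obtain ⟨y, -, hy⟩ := isCompact_univ.ultrafilter_le_nhds (𝒰.map fun n => c n t) (by simp)
    exact ⟨y, hy⟩
  choose γ hγ using h4
  have g0 : γ 0 = a := tendsto_nhds_unique (hγ 0) (by simp [c0])
  have g1 : γ 1 = b := tendsto_nhds_unique (hγ 1) (by simp [c1])
  have g2 : ∀ s ∈ Icc (0 : ℝ) 1, ∀ t ∈ Icc (0 : ℝ) 1, s ≤ t → dist (γ s) (γ t) ≤ (t - s) * D := by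
    intro s hs t ht hst
    have l1 : Tendsto (fun n : ℕ => (t - s + 1 / (n + 1 : ℝ)) * D) 𝒰 (𝓝 ((t - s + 0) * D)) :=
      ((tendsto_const_nhds.add tendsto_one_div_add_atTop_nhds_zero_nat).mul_const D).mono_left hU
    rw [add_zero] at l1
    exact le_of_tendsto_of_tendsto' ((hγ s).dist (hγ t)) l1 fun n => hc n s hs t ht hst
  have g3 : ∀ s ∈ Icc (0 : ℝ) 1, ∀ t ∈ Icc (0 : ℝ) 1, s ≤ t → dist (γ s) (γ t) = (t - s) * D := by
    intro s hs t ht hst
    have a1 := g2 0 (by simp) s hs hs.1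
    have a2 := g2 t ht 1 (by simp) ht.2
    have a3 := dist_triangle4 (γ 0) (γ s) (γ t) (γ 1)
    rw [g0] at a1 a3
    rw [g1] at a2 a3
    exact le_antisymm (g2 s hs t ht hst) (by linarith)
  refine ⟨γ, g0, g1, fun s hs t ht => ?_⟩
  rcases le_total s t with h | h
  · rw [g3 s hs t ht h, abs_sub_comm, abs_of_nonneg (sub_nonneg.2 h)]
  · rw [dist_comm, g3 t ht s hs h, abs_of_nonneg (sub_nonneg.2 h)]

/-- A set `X` over a metric space `H`, with steps and an orbit relation. -/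
structure Steps (X H : Type) [MetricSpace H] where
  p : X → H
  St : X → X → Prop
  E : X → X → Prop
  refl : ∀ x, St x x
  symm : ∀ {x y}, St x y → St y x
  eqv : Equivalence E
  lift : ∀ {x x1 y}, E x x1 → St x y → ∃ y1, E y y1 ∧ St x1 y1 ∧ dist (p x1) (p y1) = dist (p x) (p y)

namespace Steps

variable {X H : Type} [MetricSpace H] (A : Steps X H)

/-- The star of `x0` over the ball of radius `r`. -/
def U (x0 : X) (r : ℝ) : Set X := {x | A.St x0 x ∧ dist (A.p x0) (A.p x) < r}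

/-- A local model at `x0`. -/
structure Model (x0 : X) {Z : Type} [MetricSpace Z] (r : ℝ) (φ : X → Z) (ψ : Z → X) : Prop where
  pos : 0 < r
  clos : ∀ x ∈ A.U x0 (3 * r), ∀ y, A.St x y → dist (A.p x0) (A.p y) < 3 * r → A.St x0 y
  iso : ∀ x ∈ A.U x0 (3 * r), ∀ y ∈ A.U x0 (3 * r), A.St x y →
    dist (φ x) (φ y) = dist (A.p x) (A.p y)
  mem : ∀ z ∈ ball (φ x0) (3 * r), ψ z ∈ A.U x0 (3 * r)
  right : ∀ z ∈ ball (φ x0) (3 * r), φ (ψ z) = z
  left : ∀ x ∈ A.U x0 (3 * r), ψ (φ x) = x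
  sep : ∀ x ∈ A.U x0 (3 * r), ∀ y ∈ A.U x0 (3 * r), A.E x y → x = y
  cell : ∀ z ∈ ball (φ x0) (3 * r), ∀ᶠ z' in 𝓝 z, A.St (ψ z) (ψ z')
  geo : GeodesicIn (ball (φ x0) (3 * r))

/-- Test functions. -/
def T : Set (X → ℝ) := {f | (∀ x y, A.E x y → f x = f y) ∧
  ∀ x, ∃ ε, 0 < ε ∧ ∀ y, A.St x y → dist (A.p x) (A.p y) < ε → dist (f x) (f y) ≤ dist (A.p x) (A.p y)}

/-- The extended distance. -/
noncomputable def eD (x y : X) : ℝ≥0∞ := ⨆ f : A.T, edist (f.1 x) (f.1 y)

lemma eD_self (x : X) : A.eD x x = 0 := by simp [eD]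

lemma eD_comm (x y : X) : A.eD x y = A.eD y x := by simp only [eD, edist_comm]

lemma eD_tri (x y z : X) : A.eD x z ≤ A.eD x y + A.eD y z :=
  iSup_le fun f => (edist_triangle _ (f.1 y) _).trans
    (add_le_add (le_iSup (fun f : A.T => edist (f.1 x) (f.1 y)) f)
      (le_iSup (fun f : A.T => edist (f.1 y) (f.1 z)) f))

variable {A}

lemma le_eD {f : X → ℝ} (hf : f ∈ A.T) (x y : X) : edist (f x) (f y) ≤ A.eD x y :=
  le_iSup (fun f : A.T => edist (f.1 x) (f.1 y)) ⟨f, hf⟩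

lemma eD_of_E {x y : X} (h : A.E x y) : A.eD x y = 0 := by
  simp only [eD, ENNReal.iSup_eq_zero, edist_eq_zero]
  exact fun f => f.2.1 x y h

lemma eD_congr {x y y' : X} (h : A.E y y') : A.eD x y = A.eD x y' := by
  have h1 := A.eD_tri x y y'
  have h2 := A.eD_tri x y' y
  rw [eD_of_E h, add_zero] at h1
  rw [eD_of_E (A.eqv.symm h), add_zero] at h2
  exact le_antisymm h2 h1

lemma U_mono {x0 : X} {r s : ℝ} (h : r ≤ s) : A.U x0 r ⊆ A.U x0 s :=
  fun _ hx => ⟨hx.1, hx.2.trans_le h⟩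

lemma self_mem_U (x0 : X) {r : ℝ} (h : 0 < r) : x0 ∈ A.U x0 r := ⟨A.refl _, by simpa⟩

namespace Model

variable {x0 : X} {Z : Type} [MetricSpace Z] {r : ℝ} {φ : X → Z} {ψ : Z → X}

lemma rad (h : A.Model x0 r φ ψ) {x : X} (hx : x ∈ A.U x0 (3 * r)) :
    dist (φ x0) (φ x) = dist (A.p x0) (A.p x) :=
  h.iso _ (self_mem_U _ (by linarith [h.pos])) _ hx hx.1

lemma mem_ball (h : A.Model x0 r φ ψ) {x : X} (hx : x ∈ A.U x0 (3 * r)) :
    φ x ∈ ball (φ x0) (3 * r) := by
  rw [mem_ball', h.rad hx]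
  exact hx.2

lemma upper (h : A.Model x0 r φ ψ) {x y : X} (hx : x ∈ A.U x0 (3 * r)) (hy : y ∈ A.U x0 (3 * r)) :
    A.eD x y ≤ edist (φ x) (φ y) := by
  refine iSup_le fun f => ?_
  obtain ⟨γ, ⟨g0, g1, hγ⟩, hb⟩ := h.geo _ (h.mem_ball hx) _ (h.mem_ball hy)
  have := dist_le_of_loc (g := fun t => f.1 (ψ (γ t))) (K := dist (φ x) (φ y)) zero_le_one
    fun t ht => by
      have hc : ContinuousWithinAt γ (Icc 0 1) t := by
        refine tendsto_iff_dist_tendsto_zero.2 (squeeze_zero' (Eventually.of_forall fun _ =>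
          dist_nonneg) (eventually_nhdsWithin_of_forall fun s hs => (hγ s hs t ht).le) ?_)
        have : Continuous fun s : ℝ => |s - t| * dist (φ x) (φ y) := by fun_prop
        simpa using (this.tendsto t).mono_left nhdsWithin_le_nhds
      obtain ⟨ε, hε, he⟩ := f.2.2 (ψ (γ t))
      filter_upwards [hc (h.cell _ (hb t ht)), hc (ball_mem_nhds _ hε), self_mem_nhdsWithin]
        with s h1 h2 hs
      have e := h.iso _ (h.mem _ (hb t ht)) _ (h.mem _ (hb s hs)) h1
      rw [h.right _ (hb t ht), h.right _ (hb s hs)] at e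
      have := he _ h1 (by rw [← e]; exact mem_ball'.1 h2)
      rw [← e, dist_comm (γ t), hγ s hs t ht, dist_comm] at this
      linarith
  simp only [g0, g1, h.left _ hx, h.left _ hy, sub_zero, mul_one] at this
  rw [edist_dist, edist_dist]
  exact ENNReal.ofReal_le_ofReal this

open Classical in
/-- The cut off distance function to a point of the model is a test function. -/
lemma exists_test (h : A.Model x0 r φ ψ) {z : Z} {c : ℝ} (hc : c + dist (φ x0) z ≤ 3 * r) :
    ∃ f ∈ A.T, (∀ x ∈ A.U x0 (3 * r), f x = max (c - dist z (φ x)) 0) ∧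
      ∀ x, f x ≠ 0 → ∃ x1 ∈ A.U x0 (3 * r), A.E x x1 := by
  let f : X → ℝ := fun x =>
    if hx : ∃ x1 ∈ A.U x0 (3 * r), A.E x x1 then max (c - dist z (φ hx.choose)) 0 else 0
  have f1 : ∀ x, ∀ x1 ∈ A.U x0 (3 * r), A.E x x1 → f x = max (c - dist z (φ x1)) 0 := by
    intro x x1 h1 h2
    have hx : ∃ x1 ∈ A.U x0 (3 * r), A.E x x1 := ⟨x1, h1, h2⟩
    simp only [f, dif_pos hx]
    rw [h.sep _ hx.choose_spec.1 _ h1 (A.eqv.trans (A.eqv.symm hx.choose_spec.2) h2)]
  have f2 : ∀ x, f x ≠ 0 → ∃ x1 ∈ A.U x0 (3 * r), A.E x x1 := fun x hx => by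
    by_contra hn
    exact hx (dif_neg hn)
  refine ⟨f, ⟨fun x y hxy => ?_, fun x => ?_⟩, fun x hx => f1 x x hx (A.eqv.refl x), f2⟩
  · by_cases hx : ∃ x1 ∈ A.U x0 (3 * r), A.E x x1
    · obtain ⟨x1, h1, h2⟩ := hx
      rw [f1 x x1 h1 h2, f1 y x1 h1 (A.eqv.trans (A.eqv.symm hxy) h2)]
    · have hy : ¬ ∃ x1 ∈ A.U x0 (3 * r), A.E y x1 :=
        fun ⟨x1, h1, h2⟩ => hx ⟨x1, h1, A.eqv.trans hxy h2⟩
      simp only [f, dif_neg hx, dif_neg hy]
  · by_cases hx : ∃ x1 ∈ A.U x0 (3 * r), A.E x x1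
    · obtain ⟨x1, h1, h2⟩ := hx
      refine ⟨3 * r - dist (A.p x0) (A.p x1), sub_pos.2 h1.2, fun y hy hlt => ?_⟩
      obtain ⟨y1, e1, e2, e3⟩ := A.lift h2 hy
      have d1 : dist (A.p x0) (A.p y1) < 3 * r := by
        linarith [dist_triangle (A.p x0) (A.p x1) (A.p y1)]
      have hy1 : y1 ∈ A.U x0 (3 * r) := ⟨h.clos _ h1 _ e2 d1, d1⟩
      rw [f1 x x1 h1 h2, f1 y y1 hy1 e1, ← e3, ← h.iso _ h1 _ hy1 e2, Real.dist_eq]
      refine (abs_max_sub_max_le_abs _ _ _).trans ?_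
      rw [sub_sub_sub_cancel_left, abs_sub_comm, dist_comm z, dist_comm z]
      exact abs_dist_sub_le _ _ _
    · refine ⟨1, one_pos, fun y hy _ => ?_⟩
      have fx : f x = 0 := dif_neg hx
      by_cases fy : f y = 0
      · rw [fx, fy, dist_self]
        exact dist_nonneg
      obtain ⟨y1, h1, h2⟩ := f2 y fy
      obtain ⟨x1, e1, e2, e3⟩ := A.lift h2 (A.symm hy)
      have d1 : 3 * r ≤ dist (A.p x0) (A.p x1) := not_lt.1 fun d1 =>
        hx ⟨x1, ⟨h.clos _ h1 _ e2 d1, d1⟩, e1⟩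
      rw [fx, f1 y y1 h1 h2, dist_comm, Real.dist_eq, sub_zero, abs_of_nonneg (le_max_right _ _),
        dist_comm (A.p x), ← e3]
      refine max_le ?_ dist_nonneg
      linarith [dist_triangle (A.p x0) (A.p y1) (A.p x1), h.rad h1,
        dist_triangle (φ x0) z (φ y1)]

lemma eD_eq (h : A.Model x0 r φ ψ) {x y : X} (hx : x ∈ A.U x0 r) (hy : y ∈ A.U x0 r) :
    A.eD x y = edist (φ x) (φ y) := by
  have hr := h.pos
  have hx' := U_mono (by linarith : r ≤ 3 * r) hx
  have hy' := U_mono (by linarith : r ≤ 3 * r) hy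
  refine le_antisymm (h.upper hx' hy') ?_
  have d1 := h.rad hx'
  have d2 := h.rad hy'
  obtain ⟨f, hf, f1, -⟩ := h.exists_test (z := φ x) (c := 2 * r) (by linarith [hx.2])
  refine le_trans ?_ (le_eD hf x y)
  have d3 := dist_triangle_left (φ x) (φ y) (φ x0)
  rw [f1 x hx', f1 y hy', edist_dist, edist_dist, dist_self, max_eq_left (by linarith),
    max_eq_left (by linarith [hx.2, hy.2]), Real.dist_eq]
  exact ENNReal.ofReal_le_ofReal ((le_of_eq (by ring)).trans (le_abs_self _))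

lemma near (h : A.Model x0 r φ ψ) {x : X} {s : ℝ} (hs : s ≤ r)
    (hx : A.eD x0 x < ENNReal.ofReal s) : ∃ x1 ∈ A.U x0 s, A.E x x1 := by
  have hr := h.pos
  have hs0 : 0 < s := ENNReal.ofReal_pos.1 (lt_of_le_of_lt (zero_le) hx)
  obtain ⟨f, hf, f1, f2⟩ := h.exists_test (z := φ x0) (c := s) (by rw [dist_self]; linarith)
  have h1 := (le_eD hf x0 x).trans_lt hx
  rw [f1 x0 (self_mem_U _ (by linarith)), dist_self, sub_zero, max_eq_left hs0.le, edist_dist,
    ENNReal.ofReal_lt_ofReal_iff hs0, Real.dist_eq] at h1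
  have h2 : 0 < f x := by linarith [le_abs_self (s - f x)]
  obtain ⟨x1, e1, e2⟩ := f2 x h2.ne'
  rw [hf.1 x x1 e2, f1 x1 e1, h.rad e1] at h2
  exact ⟨x1, ⟨e1.1, by linarith [(lt_max_iff.1 h2).resolve_right (lt_irrefl _)]⟩, e2⟩

lemma eD_step (h : A.Model x0 r φ ψ) {x : X} (hx : x ∈ A.U x0 r) :
    A.eD x0 x = ENNReal.ofReal (dist (A.p x0) (A.p x)) := by
  rw [h.eD_eq (self_mem_U _ h.pos) hx, edist_dist, h.rad (U_mono (by linarith [h.pos]) hx)]

lemma E_of_eD (h : A.Model x0 r φ ψ) {x : X} (hx : A.eD x0 x = 0) : A.E x0 x := by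
  have hr := h.pos
  obtain ⟨x1, e1, e2⟩ := h.near le_rfl (hx ▸ ENNReal.ofReal_pos.2 hr)
  rw [eD_congr e2, h.eD_eq (self_mem_U _ hr) e1, edist_eq_zero] at hx
  have := h.left _ (U_mono (by linarith : r ≤ 3 * r) e1)
  rw [← hx, h.left _ (self_mem_U _ (by linarith))] at this
  exact this ▸ A.eqv.symm e2

end Model

variable (A)

/-- Every point has a local model. -/
def HasModels : Prop :=
  ∀ x0, ∃ (Z : Type) (_ : MetricSpace Z) (r : ℝ) (φ : X → Z) (ψ : Z → X), A.Model x0 r φ ψ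

/-- The points at finite distance from `b`. -/
def O (b : X) : Set X := {x | A.eD b x ≠ ⊤}

/-- The points at finite distance from `b` with the pseudo metric. -/
def Pre (b : X) : Type := A.O b

variable {A}

lemma eD_ne_top {b x y : X} (hx : x ∈ A.O b) (hy : y ∈ A.O b) : A.eD x y ≠ ⊤ :=
  ne_top_of_le_ne_top (ENNReal.add_ne_top.2 ⟨A.eD_comm b x ▸ hx, hy⟩) (A.eD_tri x b y)

lemma mem_O {b x y : X} (hx : x ∈ A.O b) (h : A.eD x y ≠ ⊤) : y ∈ A.O b :=
  ne_top_of_le_ne_top (ENNReal.add_ne_top.2 ⟨hx, h⟩) (A.eD_tri b x y)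

lemma self_mem_O (b : X) : b ∈ A.O b := by simp [O, eD_self]

lemma mem_O_of_E {b x y : X} (hx : x ∈ A.O b) (h : A.E x y) : y ∈ A.O b :=
  mem_O hx (by simp [eD_of_E h])

noncomputable instance (b : X) : PseudoMetricSpace (A.Pre b) where
  dist x y := (A.eD x.1 y.1).toReal
  dist_self x := by simp [eD_self]
  dist_comm x y := by rw [eD_comm]
  dist_triangle x y z := by
    rw [← ENNReal.toReal_add (eD_ne_top x.2 y.2) (eD_ne_top y.2 z.2)]
    exact ENNReal.toReal_mono (ENNReal.add_ne_top.2 ⟨eD_ne_top x.2 y.2, eD_ne_top y.2 z.2⟩)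
      (A.eD_tri _ _ _)

variable (A) in
/-- The metric space generated by the steps: the component of `b`. -/
def M (b : X) : Type := SeparationQuotient (A.Pre b)

noncomputable instance (b : X) : MetricSpace (A.M b) :=
  inferInstanceAs (MetricSpace (SeparationQuotient (A.Pre b)))

open Classical in
variable (A) in
/-- The projection, extended by the base point. -/
noncomputable def π (b : X) (x : X) : A.M b :=
  SeparationQuotient.mk (X := A.Pre b) (if h : x ∈ A.O b then ⟨x, h⟩ else ⟨b, self_mem_O b⟩)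

variable {b : X}

lemma dist_π {x y : X} (hx : x ∈ A.O b) (hy : y ∈ A.O b) :
    dist (A.π b x) (A.π b y) = (A.eD x y).toReal := by
  simp only [π, dif_pos hx, dif_pos hy]
  rfl

lemma π_surj (m : A.M b) : ∃ x ∈ A.O b, A.π b x = m := by
  obtain ⟨x, rfl⟩ := SeparationQuotient.surjective_mk (X := A.Pre b) m
  exact ⟨x.1, x.2, by simp only [π, dif_pos x.2]; rfl⟩

instance : Nonempty (A.M b) := ⟨A.π b b⟩

lemma π_eq_of_E {x y : X} (hx : x ∈ A.O b) (h : A.E x y) : A.π b x = A.π b y :=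
  dist_eq_zero.1 (by rw [dist_π hx (mem_O_of_E hx h), eD_of_E h]; rfl)

lemma π_eq_iff (hA : A.HasModels) {x y : X} (hx : x ∈ A.O b) (hy : y ∈ A.O b) :
    A.π b x = A.π b y ↔ A.E x y := by
  refine ⟨fun h => ?_, π_eq_of_E hx⟩
  obtain ⟨Z, _, r, φ, ψ, hm⟩ := hA x
  have := dist_π hx hy
  rw [h, dist_self, eq_comm, ENNReal.toReal_eq_zero_iff] at this
  exact hm.E_of_eD (this.resolve_right (eD_ne_top hx hy))

namespace Model

variable {x0 : X} {Z : Type} [MetricSpace Z] {r : ℝ} {φ : X → Z} {ψ : Z → X}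

lemma mem_O (h : A.Model x0 r φ ψ) (h0 : x0 ∈ A.O b) {x : X} (hx : x ∈ A.U x0 r) : x ∈ A.O b :=
  Steps.mem_O h0 (by rw [h.eD_step hx]; exact ENNReal.ofReal_ne_top)

lemma dist_π (h : A.Model x0 r φ ψ) (h0 : x0 ∈ A.O b) {x y : X} (hx : x ∈ A.U x0 r)
    (hy : y ∈ A.U x0 r) : dist (A.π b x) (A.π b y) = dist (φ x) (φ y) := by
  rw [Steps.dist_π (h.mem_O h0 hx) (h.mem_O h0 hy), h.eD_eq hx hy, edist_dist,
    ENNReal.toReal_ofReal dist_nonneg]

lemma mem' (h : A.Model x0 r φ ψ) {z : Z} (hz : z ∈ ball (φ x0) r) : ψ z ∈ A.U x0 r := by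
  have hz' : z ∈ ball (φ x0) (3 * r) := ball_subset_ball (by linarith [h.pos]) hz
  refine ⟨(h.mem z hz').1, ?_⟩
  rw [← h.rad (h.mem z hz'), h.right z hz']
  exact mem_ball'.1 hz

/-- Small balls of the metric are balls of the model. -/
theorem ballModel (h : A.Model x0 r φ ψ) (h0 : x0 ∈ A.O b) :
    BallModel (A.π b x0) (φ x0) r fun z => A.π b (ψ z) where
  pos := h.pos
  base := by rw [h.left _ (self_mem_U _ (by linarith [h.pos]))]
  iso z hz z' hz' := by
    have s : ball (φ x0) r ⊆ ball (φ x0) (3 * r) := ball_subset_ball (by linarith [h.pos])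
    rw [h.dist_π h0 (h.mem' hz) (h.mem' hz'), h.right _ (s hz), h.right _ (s hz')]
  onto m hm := by
    obtain ⟨x, hx, rfl⟩ := π_surj m
    rw [mem_ball', Steps.dist_π h0 hx] at hm
    obtain ⟨x1, e1, e2⟩ := h.near le_rfl
      ((ENNReal.lt_ofReal_iff_toReal_lt (eD_ne_top h0 hx)).2 hm)
    have e3 := U_mono (by linarith [h.pos] : r ≤ 3 * r) e1
    refine ⟨φ x1, ?_, ?_⟩
    · rw [mem_ball', h.rad e3]
      exact e1.2
    · simp only [h.left _ e3]
      exact (π_eq_of_E hx e2).symm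

end Model

theorem between (hA : A.HasModels) (a c : A.M b) (t s : ℝ) (ht : 0 < t) (hs : 0 < s)
    (h : dist a c < t + s) : ∃ m, dist a m ≤ t ∧ dist m c ≤ s := by
  classical
  by_contra hn
  have hn' : ∀ m, t < dist a m ∨ s < dist m c := fun m => by
    by_contra h1
    rw [not_or, not_lt, not_lt] at h1
    exact hn ⟨m, h1⟩
  have h1 : t < dist a c := (hn' c).resolve_right (by rw [dist_self]; exact hs.not_gt)
  have h2 : s < dist a c := (hn' a).resolve_left (by rw [dist_self]; exact ht.not_gt)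
  let F : A.M b → ℝ := fun m => min (dist a m) t - min (dist m c) s
  have hF : ∀ m, ∃ ε, 0 < ε ∧ ∀ m', dist m m' < ε → dist (F m) (F m') ≤ dist m m' := by
    intro m
    rcases hn' m with k | k
    · refine ⟨dist a m - t, sub_pos.2 k, fun m' hm => ?_⟩
      have : t ≤ dist a m' := by linarith [dist_triangle_right a m m']
      simp only [F, min_eq_right k.le, min_eq_right this, dist_sub_left, Real.dist_eq]
      refine (abs_min_sub_min_le_max _ _ _ _).trans (max_le (abs_dist_sub_le _ _ _) ?_)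
      simp
    · refine ⟨dist m c - s, sub_pos.2 k, fun m' hm => ?_⟩
      have : s ≤ dist m' c := by linarith [dist_triangle m m' c]
      simp only [F, min_eq_right k.le, min_eq_right this, dist_sub_right, Real.dist_eq]
      refine (abs_min_sub_min_le_max _ _ _ _).trans (max_le ?_ ?_)
      · rw [dist_comm a, dist_comm a]
        exact abs_dist_sub_le _ _ _
      · simp
  have hf : (fun w => if w ∈ A.O b then F (A.π b w) else 0) ∈ A.T := by
    refine ⟨fun w w' hw => ?_, fun w => ?_⟩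
    · by_cases k : w ∈ A.O b
      · simp only [if_pos k, if_pos (mem_O_of_E k hw), π_eq_of_E k hw]
      · simp only [if_neg k, if_neg fun k' => k (mem_O_of_E k' (A.eqv.symm hw))]
    · obtain ⟨Z, _, r, φ, ψ, hm⟩ := hA w
      obtain ⟨ε, hε, he⟩ := hF (A.π b w)
      refine ⟨min r ε, lt_min hm.pos hε, fun w' h3 h4 => ?_⟩
      have h5 : w' ∈ A.U w r := ⟨h3, h4.trans_le (min_le_left _ _)⟩
      by_cases k : w ∈ A.O b
      · have k' := hm.mem_O k h5
        have e : dist (A.π b w) (A.π b w') = dist (A.p w) (A.p w') := by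
          rw [dist_π k k', hm.eD_step h5, ENNReal.toReal_ofReal dist_nonneg]
        simp only [if_pos k, if_pos k']
        exact e ▸ he _ (e ▸ h4.trans_le (min_le_right _ _))
      · have k' : w' ∉ A.O b := fun k' =>
          k (mem_O k' (by rw [eD_comm, hm.eD_step h5]; exact ENNReal.ofReal_ne_top))
        simp only [if_neg k, if_neg k', dist_self, dist_nonneg]
  obtain ⟨x, hx, rfl⟩ := π_surj a
  obtain ⟨y, hy, rfl⟩ := π_surj c
  have h3 := ENNReal.toReal_mono (eD_ne_top hx hy) (le_eD hf y x |>.trans_eq (A.eD_comm _ _))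
  simp only [if_pos hx, if_pos hy, ← dist_π hx hy, edist_dist, ENNReal.toReal_ofReal (abs_nonneg _),
    F, dist_self, min_eq_right h1.le, min_eq_right h2.le, min_eq_left ht.le, min_eq_left hs.le,
    Real.dist_eq] at h3
  linarith [le_abs_self (t - 0 - (0 - s))]

theorem geodesic (hA : A.HasModels) [CompactSpace (A.M b)] : GeodesicIn (univ : Set (A.M b)) :=
  fun x _ y _ => (seg_of_between (between hA) x y).imp fun _ h => ⟨h, fun _ _ => mem_univ _⟩

/-- The topology of `X` is compatible with the steps. -/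
structure Top [TopologicalSpace X] (A : Steps X H) : Prop where
  cont : Continuous A.p
  star : ∀ x0, ∀ᶠ x in 𝓝 x0, A.St x0 x
  small : ∀ x0, ∀ W ∈ 𝓝 x0, ∃ ε, 0 < ε ∧ A.U x0 ε ⊆ W

section Top

variable [TopologicalSpace X]

lemma Top.U_mem (hT : A.Top) (x0 : X) {ε : ℝ} (hε : 0 < ε) : A.U x0 ε ∈ 𝓝 x0 := by
  filter_upwards [hT.star x0, hT.cont.tendsto x0 (ball_mem_nhds _ hε)] with x h1 h2
  exact ⟨h1, mem_ball'.1 h2⟩

theorem isClopen_O (hA : A.HasModels) (hT : A.Top) (b : X) : IsClopen (A.O b) := by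
  refine ⟨isOpen_compl_iff.1 (isOpen_iff_mem_nhds.2 fun x hx => ?_),
    isOpen_iff_mem_nhds.2 fun x hx => ?_⟩
  · obtain ⟨Z, _, r, φ, ψ, hm⟩ := hA x
    filter_upwards [hT.U_mem x hm.pos] with y hy k
    exact hx (mem_O k (by rw [eD_comm, hm.eD_step hy]; exact ENNReal.ofReal_ne_top))
  · obtain ⟨Z, _, r, φ, ψ, hm⟩ := hA x
    filter_upwards [hT.U_mem x hm.pos] with y hy
    exact hm.mem_O hx hy

theorem continuousAt_π (hA : A.HasModels) (hT : A.Top) {x : X} (hx : x ∈ A.O b) :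
    ContinuousAt (A.π b) x := by
  obtain ⟨Z, _, r, φ, ψ, hm⟩ := hA x
  refine Metric.tendsto_nhds.2 fun ε hε => ?_
  filter_upwards [hT.U_mem x hm.pos, hT.U_mem x hε] with y hy hy'
  rw [dist_comm, dist_π hx (hm.mem_O hx hy), hm.eD_step hy, ENNReal.toReal_ofReal dist_nonneg]
  exact hy'.2

theorem image_mem_nhds (hA : A.HasModels) (hT : A.Top) {x : X} (hx : x ∈ A.O b) {W : Set X}
    (hW : W ∈ 𝓝 x) : A.π b '' W ∈ 𝓝 (A.π b x) := by
  obtain ⟨Z, _, r, φ, ψ, hm⟩ := hA x
  obtain ⟨ε, hε, he⟩ := hT.small x W hW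
  filter_upwards [ball_mem_nhds _ (lt_min hm.pos hε)] with m hm'
  obtain ⟨y, hy, rfl⟩ := π_surj m
  rw [mem_ball', dist_π hx hy] at hm'
  obtain ⟨y1, e1, e2⟩ := hm.near (min_le_left _ _)
    ((ENNReal.lt_ofReal_iff_toReal_lt (eD_ne_top hx hy)).2 hm')
  exact ⟨y1, he (U_mono (min_le_right _ _) e1), (π_eq_of_E hy e2).symm⟩

theorem continuous_π (hA : A.HasModels) (hT : A.Top) (b : X) :
    Continuous fun x : A.O b => A.π b x :=
  continuous_iff_continuousAt.2 fun x =>
    (continuousAt_π hA hT x.2).comp continuous_subtype_val.continuousAt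

theorem isOpenMap_π (hA : A.HasModels) (hT : A.Top) (b : X) :
    IsOpenMap fun x : A.O b => A.π b x := by
  refine isOpenMap_iff_nhds_le.2 fun x W hW => ?_
  obtain ⟨V, hV, hVW⟩ := (mem_nhds_subtype _ _ _).1 hW
  filter_upwards [image_mem_nhds hA hT x.2
    (inter_mem hV ((isClopen_O hA hT b).isOpen.mem_nhds x.2))] with m hm
  obtain ⟨y, hy, rfl⟩ := hm
  exact hVW (a := ⟨y, hy.2⟩) hy.1

omit [TopologicalSpace X] in
theorem surjective_π (b : X) : Function.Surjective fun x : A.O b => A.π b x := fun m => by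
  obtain ⟨x, hx, e⟩ := π_surj m
  exact ⟨⟨x, hx⟩, e⟩

theorem compactSpace (hA : A.HasModels) (hT : A.Top) {K : Set X} (hK : IsCompact K)
    (hc : ∀ x, ∃ y ∈ K, A.E x y) (b : X) : CompactSpace (A.M b) := by
  refine ⟨?_⟩
  have h1 : IsCompact (A.π b '' (K ∩ A.O b)) :=
    (hK.inter_right (isClopen_O hA hT b).isClosed).image_of_continuousOn
      fun x hx => (continuousAt_π hA hT hx.2).continuousWithinAt
  convert h1
  refine (eq_univ_of_forall fun m => ?_).symm
  obtain ⟨x, hx, rfl⟩ := π_surj m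
  obtain ⟨y, hy, e⟩ := hc x
  exact ⟨y, ⟨hy, mem_O_of_E hx e⟩, (π_eq_of_E hx e).symm⟩

end Top

end Steps

end Pool.Agent.Lib.MP_c2693b_gt
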