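import Mathlib

/-! Section 2: the triangulated sphere `T`; definitions. -/

namespace Pool.Agent.Lib.MP_c2693b_gt.Tri

open scoped BigOperators ContDiff

/-- The cone over the clique complex of `T`: nonnegative functions whose support is a clique. -/
def cone {W : Type} (T : SimpleGraph W) : Set (W → ℝ) :=
  {z | (∀ w, 0 ≤ z w) ∧ ∀ w w', w ≠ w' → z w ≠ 0 → z w' ≠ 0 → T.Adj w w'}

/-- The cone over the link of `s0`. -/
def lkCone {W : Type} (T : SimpleGraph W) (s0 : Finset W) : Set (W → ℝ) :=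
  {z | z ∈ cone T ∧ ∀ w, z w ≠ 0 → ∀ s ∈ s0, T.Adj s w}

/-- A piecewise linear chart of `C`: `z ↦ ∑ z w • a w` is a bijection of `C` onto `F` with
Lipschitz inverse `q`. -/
structure PL {W : Type} [Fintype W] (C : Set (W → ℝ)) (F : Type) [NormedAddCommGroup F]
    [NormedSpace ℝ F] where
  a : W → F
  q : F → W → ℝ
  mem : ∀ x, q x ∈ C
  right : ∀ x, ∑ w, q x w • a w = x
  left : ∀ z ∈ C, q (∑ w, z w • a w) = z
  lip : ∃ L, LipschitzWith L q

/-- A smooth chart of the cone of `T`. -/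
structure SM {W : Type} (T : SimpleGraph W) (E : Type) [NormedAddCommGroup E]
    [NormedSpace ℝ E] where
  h : E → W → ℝ
  smooth : ∀ w, ContDiff ℝ ∞ fun x => h x w
  mem : ∀ x, h x ∈ cone T
  inj : Function.Injective h
  surj : ∀ z ∈ cone T, ∃ x, h x = z
  proper : ∀ R : ℝ, ∃ R' : ℝ, ∀ x, (∀ w, h x w ≤ R) → ‖x‖ ≤ R'
  onto : ∀ (x : E) (c : W → ℝ), ∃ ξ : E, ∀ w, h x w ≠ 0 → fderiv ℝ (fun y => h y w) x ξ = c w

/-- The output of section 2 for a finite graph `K` on `V`. -/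
structure Sphere {V : Type} [Fintype V] (K : SimpleGraph V) (S : Type) [Fintype S] where
  T : SimpleGraph (V ⊕ S)
  t1 : ∀ x y, T.Adj (.inl x) (.inl y) ↔ K.Adj x y
  t2 : ∀ s x y, x ≠ y → T.Adj (.inr s) (.inl x) → T.Adj (.inr s) (.inl y) → K.Adj x y
  t3 : ∀ s t, T.Adj (.inr s) (.inr t) →
    (∀ x, T.Adj (.inr s) (.inl x) → T.Adj (.inr t) (.inl x)) ∨
    (∀ x, T.Adj (.inr t) (.inl x) → T.Adj (.inr s) (.inl x))
  pl : PL (cone T) (V → ℝ)
  sm : SM T (V → ℝ)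

end Pool.Agent.Lib.MP_c2693b_gt.Tri
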