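import Pool.Agent.Lib.MP_c2693b_gt.ArDefs
import Pool.Agent.Lib.MP_c2693b_gt.TriDefs

/-! Section 4: the functions `t_φ`, the polyhedron and the set `Mh`. -/

set_option linter.unusedSectionVars false

open scoped BigOperators ContDiff Topology Classical
open Set Filter

namespace Pool.Agent.Lib.MP_c2693b_gt.Sm

open Ar Tri

/-- the cut off function. -/
noncomputable def chi (t : ℝ) : ℝ := t + (1 - t) * Real.smoothTransition (2 * t - 1)

theorem chi_smooth : ContDiff ℝ ∞ chi :=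
  contDiff_id.add ((contDiff_const.sub contDiff_id).mul
    (Real.smoothTransition.contDiff.comp ((contDiff_const.mul contDiff_id).sub contDiff_const)))

theorem chi_of_le {t : ℝ} (h : t ≤ 1 / 2) : chi t = t := by
  rw [chi, Real.smoothTransition.zero_of_nonpos (by linarith)]; ring

theorem chi_of_ge {t : ℝ} (h : 1 ≤ t) : chi t = 1 := by
  rw [chi, Real.smoothTransition.one_of_one_le (by linarith)]; ring

theorem chi_pos {t : ℝ} (h : 0 < t) : 0 < chi t := by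
  rcases le_total t 1 with h1 | h1
  · have := mul_nonneg (sub_nonneg.2 h1) (Real.smoothTransition.nonneg (2 * t - 1))
    rw [chi]; linarith
  · rw [chi_of_ge h1]; norm_num

theorem chi_le_one (t : ℝ) : chi t ≤ 1 := by
  rcases le_total t 1 with h1 | h1
  · have := mul_le_mul_of_nonneg_left (Real.smoothTransition.le_one (2 * t - 1)) (sub_nonneg.2 h1)
    rw [chi]; linarith
  · rw [chi_of_ge h1]

theorem chi_zero : chi 0 = 0 := chi_of_le (by norm_num)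

theorem chi_nonneg_iff {t : ℝ} : 0 ≤ chi t ↔ 0 ≤ t := by
  refine ⟨fun h => ?_, fun h => ?_⟩
  · by_contra hc
    rw [chi_of_le (by linarith)] at h
    exact hc h
  · rcases h.eq_or_lt with rfl | h
    · rw [chi_zero]
    · exact (chi_pos h).le

theorem chi_eq_zero {t : ℝ} : chi t = 0 ↔ t = 0 := by
  refine ⟨fun h => ?_, fun h => by rw [h, chi_zero]⟩
  rcases lt_or_ge 0 t with h1 | h1
  · exact absurd h (chi_pos h1).ne'
  · rwa [chi_of_le (by linarith)] at h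

variable {S : Type} [Fintype S] [DecidableEq S] (P : Piece S)

/-- the polyhedron. -/
def Yt : Set (Col S → ℝ) := {y | y ∈ HH S ∧ ∀ φ, ∀ ρ ∈ P.R φ, 0 ≤ q y ρ}

/-- the colour `φ` belongs to `A(y)`: a root of this colour vanishes at `y`. -/
def Van (y : Col S → ℝ) (φ : Col S) : Prop := ∃ ρ ∈ P.R φ, q y ρ = 0

/-- the function `t_φ`. -/
noncomputable def tt (φ : Col S) (y : Col S → ℝ) : ℝ := ∏ᶠ ρ ∈ P.R φ, chi (q y ρ)

/-- the set `Mh`. -/
def Mh {W : Type} [Fintype W] (T : SimpleGraph W) (col : W → Col S) :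
    Set ((W → ℝ) × (Col S → ℝ)) :=
  {p | p.1 ∈ cone T ∧ p.2 ∈ Yt P ∧ ∀ φ, ∑ w with col w = φ, p.1 w = tt P φ p.2}

variable {P}

theorem cont_q (ρ : Col S → ℝ) : ContDiff ℝ ∞ fun y : Col S → ℝ => q y ρ :=
  (LinearMap.toContinuousLinearMap (q.flip ρ)).contDiff

theorem cont_qq : ContDiff ℝ ∞ fun y : Col S → ℝ => q y y := by
  simp only [q, qL_apply, qq, TT]; fun_prop

theorem cont_TT : ContDiff ℝ ∞ fun y : Col S → ℝ => TT y := by
  simp only [TT]; fun_prop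

theorem Yt_map {g} (hg : g ∈ P.G) {y} (hy : y ∈ Yt P) : g y ∈ Yt P := by
  refine ⟨P.mapH g hg y hy.1, fun φ ρ hρ => ?_⟩
  have h1 := hy.2 φ _ (P.mapR _ (P.G.inv_mem hg) φ ρ hρ)
  rw [← P.iso g hg] at h1
  simpa using h1

theorem beta_sub : beta S ⊆ Yt P := fun y hy => ⟨hy.1, fun φ ρ hρ => (P.onb y hy φ ρ hρ).1⟩

theorem Van_map {g} (hg : g ∈ P.G) {y φ} : Van P (g y) φ ↔ Van P y φ := by
  refine ⟨fun ⟨ρ, h, h0⟩ => ⟨_, P.mapR _ (P.G.inv_mem hg) φ ρ h, ?_⟩,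
    fun ⟨ρ, h, h0⟩ => ⟨_, P.mapR _ hg φ ρ h, by rw [P.iso g hg, h0]⟩⟩
  rw [← P.iso g hg]; simpa using h0

theorem tt_map {g} (hg : g ∈ P.G) (φ y) : tt P φ (g y) = tt P φ y := by
  unfold tt
  refine (finprod_mem_eq_of_bijOn (f := fun ρ => chi (q y ρ)) (g := fun ρ => chi (q (g y) ρ))
    g ⟨fun ρ h => P.mapR g hg φ ρ h, g.injective.injOn, fun ρ h => ?_⟩
    fun ρ _ => by rw [P.iso g hg]).symm
  exact ⟨_, P.mapR _ (P.G.inv_mem hg) φ ρ h, by simp⟩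

/-- near a point of the polyhedron all but finitely many roots are at least `1`. -/
theorem near {y0} (h0 : y0 ∈ Yt P) : ∃ F : Finset (Col S → ℝ),
    ∀ᶠ y in 𝓝 y0, ∀ φ, ∀ ρ ∈ P.R φ, ρ ∉ F → 1 ≤ q y ρ := by
  obtain ⟨K, hK, hq⟩ := exists_qL_le (S := S) (Real.sqrt 2)
  have hf := P.locfin (max 2 ‖y0‖)
  set C : ℝ := 2 + 11 * ‖y0‖ with hC
  have hC0 : 0 < C := by positivity
  refine ⟨hf.toFinset, ?_⟩
  filter_upwards [Metric.ball_mem_nhds y0 (show 0 < 1 / (4 * K * C) by positivity)] with y hy φ ρ hρ hn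
  have h1 := h0.2 φ ρ hρ
  have h2 : 2 < q y0 ρ := by
    by_contra hc
    refine hn (hf.mem_toFinset.2 ⟨⟨φ, hρ⟩, y0, h0.1, le_max_right _ _, ?_⟩)
    rw [abs_of_nonneg h1]; exact (not_lt.1 hc).trans (le_max_left _ _)
  have h3 := norm_sq_le (w := y0) (v := ρ) one_pos (by rw [h0.1.1])
  rw [P.sq φ ρ hρ, q_comm ρ y0] at h3
  have h4 : ‖ρ‖ ≤ C * (1 + q y0 ρ) := by
    refine abs_le_of_sq_le_sq' ?_ (by positivity) |>.2
    have hn0 := norm_nonneg y0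
    have e1 : 0 ≤ ‖y0‖ ^ 2 * q y0 ρ := by positivity
    have e2 : 0 ≤ ‖y0‖ * q y0 ρ := by positivity
    have e3 : 0 ≤ ‖y0‖ * q y0 ρ ^ 2 := by positivity
    have e4 : 0 ≤ ‖y0‖ ^ 2 * q y0 ρ ^ 2 := by positivity
    rw [hC]; simp only [div_one] at h3; nlinarith
  have h5 : |q (y - y0) ρ| ≤ K * ‖y - y0‖ * ‖ρ‖ := hq _ _
  have h6 : ‖y - y0‖ ≤ 1 / (4 * K * C) := by rw [← dist_eq_norm]; exact le_of_lt hy
  have h7 : K * ‖y - y0‖ * ‖ρ‖ ≤ K * (1 / (4 * K * C)) * (C * (1 + q y0 ρ)) := by gcongr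
  have h8 : K * (1 / (4 * K * C)) * (C * (1 + q y0 ρ)) = (1 + q y0 ρ) / 4 := by field_simp
  rw [map_sub, LinearMap.sub_apply] at h5
  have := (abs_le.1 (h5.trans (h7.trans h8.le))).1
  linarith

theorem tt_eq {F : Finset (Col S → ℝ)} {y} (h : ∀ φ, ∀ ρ ∈ P.R φ, ρ ∉ F → 1 ≤ q y ρ) (φ) :
    tt P φ y = ∏ ρ ∈ F with ρ ∈ P.R φ, chi (q y ρ) := by
  refine finprod_mem_eq_prod_of_inter_mulSupport_eq _ ?_
  ext ρ
  simp only [mem_inter_iff, Finset.coe_filter, mem_ofPred_eq, Function.mem_mulSupport]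
  refine ⟨fun ⟨h1, h2⟩ => ⟨⟨?_, h1⟩, h2⟩, fun ⟨h1, h2⟩ => ⟨h1.2, h2⟩⟩
  by_contra hc
  exact h2 (chi_of_ge (h φ ρ h1 hc))

theorem prod_smooth (F : Finset (Col S → ℝ)) :
    ContDiff ℝ ∞ fun y : Col S → ℝ => ∏ ρ ∈ F, chi (q y ρ) :=
  contDiff_prod fun ρ _ => chi_smooth.comp (cont_q ρ)

theorem tt_smooth {y0} (h0 : y0 ∈ Yt P) (φ) : ContDiffAt ℝ ∞ (tt P φ) y0 := by
  obtain ⟨F, hF⟩ := near h0
  exact (prod_smooth _).contDiffAt.congr_of_eventuallyEq (hF.mono fun y hy => tt_eq hy φ)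

theorem tt_contOn (φ) : ContinuousOn (tt P φ) (Yt P) := fun _ hy =>
  (tt_smooth hy φ).continuousAt.continuousWithinAt

theorem tt_nonneg {y} (hy : y ∈ Yt P) (φ) : 0 ≤ tt P φ y := by
  obtain ⟨F, hF⟩ := near hy
  rw [tt_eq hF.self_of_nhds]
  exact Finset.prod_nonneg fun ρ h => chi_nonneg_iff.2 (hy.2 φ ρ (Finset.mem_filter.1 h).2)

theorem tt_le_one {y} (hy : y ∈ Yt P) (φ) : tt P φ y ≤ 1 := by
  obtain ⟨F, hF⟩ := near hy
  rw [tt_eq hF.self_of_nhds]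
  exact Finset.prod_le_one (fun ρ h => chi_nonneg_iff.2 (hy.2 φ ρ (Finset.mem_filter.1 h).2))
    fun ρ _ => chi_le_one _

theorem tt_eq_zero {y} (hy : y ∈ Yt P) {φ} : tt P φ y = 0 ↔ Van P y φ := by
  obtain ⟨F, hF⟩ := near hy
  rw [tt_eq hF.self_of_nhds, Finset.prod_eq_zero_iff]
  refine ⟨fun ⟨ρ, h, h0⟩ => ⟨ρ, (Finset.mem_filter.1 h).2, chi_eq_zero.1 h0⟩,
    fun ⟨ρ, h, h0⟩ => ⟨ρ, Finset.mem_filter.2 ⟨?_, h⟩, chi_eq_zero.2 h0⟩⟩
  by_contra hc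
  have := hF.self_of_nhds φ ρ h hc
  linarith

theorem tt_pos {y} (hy : y ∈ Yt P) {φ} : 0 < tt P φ y ↔ ¬ Van P y φ := by
  rw [← tt_eq_zero hy]
  exact ⟨fun h => h.ne', fun h => (tt_nonneg hy φ).lt_of_ne' h⟩

theorem isClosed_HH : IsClosed (HH S) := by
  have : HH S = {y | q y y = -1} ∩ {y | TT y ≤ 0} := by
    ext y
    refine ⟨fun h => ⟨h.1, h.2.le⟩, fun h => ⟨h.1, lt_of_le_of_ne h.2 (TT_ne ?_)⟩⟩
    rw [show q y y = -1 from h.1]; norm_num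
  rw [this]
  exact (isClosed_eq cont_qq.continuous continuous_const).inter
    (isClosed_le cont_TT.continuous continuous_const)

theorem isClosed_Yt : IsClosed (Yt P) := by
  have : Yt P = HH S ∩ ⋂ φ, ⋂ ρ ∈ P.R φ, {y | 0 ≤ q y ρ} := by
    ext y; simp only [Yt, mem_inter_iff, mem_iInter, mem_ofPred_eq]
  rw [this]
  exact isClosed_HH.inter (isClosed_iInter fun φ => isClosed_biInter fun ρ _ =>
    isClosed_le continuous_const (cont_q ρ).continuous)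

end Pool.Agent.Lib.MP_c2693b_gt.Sm
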