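import Pool.Agent.Lib.MP_c2693b_gt.SmAbs
import Pool.Agent.Lib.MP_c2693b_gt.SmT

/-! The quotient of a `G`-invariant set of pairs is a smooth manifold. -/

set_option autoImplicit false

open scoped Manifold ContDiff Topology
open Set Filter Function Module

namespace Pool.Agent.Lib.MP_c2693b_gt.Sm

open Ar Tri

theorem localHomeo_of {X Y : Type} [TopologicalSpace X] [TopologicalSpace Y] {f : X → Y}
    (hc : Continuous f) (ho : IsOpenMap f) (hi : ∀ x, ∃ U, IsOpen U ∧ x ∈ U ∧ InjOn f U) :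
    IsLocalHomeomorph f := by
  rw [isLocalHomeomorph_iff_isOpenEmbedding_restrict]
  intro x
  obtain ⟨U, h1, h2, h3⟩ := hi x
  exact ⟨U, h1.mem_nhds h2, .of_continuous_injective_isOpenMap (hc.comp continuous_subtype_val)
    h3.injective (ho.comp h1.isOpenMap_subtype_val)⟩

theorem emb_h {W E : Type} [Fintype W] {T : SimpleGraph W} [NormedAddCommGroup E] [NormedSpace ℝ E]
    [FiniteDimensional ℝ E] (H : SM T E) : Topology.IsClosedEmbedding H.h := by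
  have hc : Continuous H.h := continuous_pi fun w => (H.smooth w).continuous
  refine .of_continuous_injective_isClosedMap hc H.inj (IsProperMap.isClosedMap ?_)
  refine isProperMap_iff_isCompact_preimage.2 ⟨hc, fun K hK => ?_⟩
  obtain ⟨R, hR⟩ := hK.isBounded.exists_norm_le
  obtain ⟨R', hR'⟩ := H.proper R
  refine Metric.isCompact_of_isClosed_isBounded (hK.isClosed.preimage hc)
    (isBounded_iff_forall_norm_le.2 ⟨R', fun x hx => hR' x fun w => ?_⟩)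
  exact (le_abs_self _).trans ((norm_le_pi_norm (H.h x) w).trans (hR _ hx))

variable {S : Type} [Fintype S] [DecidableEq S]

/-- small neighbourhoods are disjoint from their translates. -/
theorem exists_sep (P : Piece S) {y₀ : Col S → ℝ} (hy : y₀ ∈ HH S) :
    ∃ N : Set (Col S → ℝ), IsOpen N ∧ y₀ ∈ N ∧
      ∀ g ∈ P.G, ∀ y ∈ HH S, y ∈ N → g y ∈ N → g = 1 := by
  have h1 : ∀ g : (Col S → ℝ) ≃ₗ[ℝ] (Col S → ℝ), g ∈ P.G → g ≠ 1 →
      ∀ᶠ N in (𝓝 y₀).smallSets, ∀ y ∈ N, g y ∉ N := fun g hg h1 => by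
    have hne : g y₀ ≠ y₀ := fun h => h1 (P.free g hg y₀ hy h)
    obtain ⟨A, B, hA, hB, ha, hb, hd⟩ := t2_separation hne
    have hc : Continuous g := g.toLinearMap.continuous_of_finiteDimensional
    refine eventually_smallSets.2 ⟨g ⁻¹' A ∩ B,
      ((hA.preimage hc).inter hB).mem_nhds ⟨ha, hb⟩, fun N hN y hy1 hy2 => ?_⟩
    exact disjoint_left.1 hd (hN hy1).1 (hN hy2).2
  have hfin : {g | (g ∈ P.G ∧ ∃ y ∈ HH S, ‖y‖ ≤ ‖y₀‖ + 1 ∧ ‖g y‖ ≤ ‖y₀‖ + 1) ∧ g ≠ 1}.Finite :=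
    (P.proper (‖y₀‖ + 1)).subset fun g hg => hg.1
  have h2 := (eventually_all_finite hfin).2 fun g hg => h1 g hg.1.1 hg.2
  obtain ⟨A, hA, hA'⟩ := eventually_smallSets.1 h2
  obtain ⟨B, hB1, hB2, hB3⟩ := mem_nhds_iff.1 hA
  have h3 : ∀ y ∈ Metric.ball y₀ 1, ‖y‖ ≤ ‖y₀‖ + 1 := fun y hy => by
    have := norm_sub_norm_le y y₀
    rw [mem_ball_iff_norm] at hy
    linarith
  refine ⟨B ∩ Metric.ball y₀ 1, hB2.inter Metric.isOpen_ball, ⟨hB3, Metric.mem_ball_self one_pos⟩,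
    fun g hg y hy h4 h5 => ?_⟩
  by_contra hne
  exact hA' B hB1 g ⟨⟨hg, y, hy, h3 _ h4.2, h3 _ h5.2⟩, hne⟩ y h4.1 h5.1

/-- `O` is a `G`-invariant set of pairs (point of the cone, point of hyperbolic space) whose
pull back by the smooth chart is locally the zero set of a submersion. -/
theorem smooth_of_sub {W V : Type} [Fintype W] [Fintype V] [Nonempty V] {T : SimpleGraph W}
    (H : SM T (V → ℝ)) (P : Piece S) (O : Set ((W → ℝ) × (Col S → ℝ)))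
    (hO : ∀ p ∈ O, p.1 ∈ cone T ∧ p.2 ∈ HH S) (hinv : ∀ g ∈ P.G, ∀ p ∈ O, (p.1, g p.2) ∈ O)
    (hsub : ∀ p : (V → ℝ) × (Col S → ℝ), (H.h p.1, p.2) ∈ O →
      ∃ (U : Set ((V → ℝ) × (Col S → ℝ))) (f : (V → ℝ) × (Col S → ℝ) → ℝ × (Col S → ℝ)),
        IsOpen U ∧ p ∈ U ∧ ContDiffOn ℝ ∞ f U ∧ Surjective (fderiv ℝ f p) ∧
        ∀ x ∈ U, (H.h x.1, x.2) ∈ O ↔ f x = 0)
    {M : Type} [TopologicalSpace M] (π : O → M) (hc : Continuous π) (ho : IsOpenMap π)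
    (hs : Surjective π)
    (hf : ∀ p p' : O, π p = π p' ↔ p'.1.1 = p.1.1 ∧ ∃ g ∈ P.G, p'.1.2 = g p.1.2) :
    ∃ _ : ChartedSpace (EuclideanSpace ℝ (Fin (Fintype.card V - 1))) M,
      IsManifold (𝓡 (Fintype.card V - 1)) ∞ M := by
  let Z : Set ((V → ℝ) × (Col S → ℝ)) := {p | (H.h p.1, p.2) ∈ O}
  let j : Z → O := fun p => ⟨(H.h p.1.1, p.1.2), p.2⟩
  have hj : Topology.IsEmbedding j := by
    refine Topology.IsEmbedding.of_comp ?_ continuous_subtype_val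
      (((emb_h H).isEmbedding.prodMap .id).comp .subtypeVal)
    exact (((emb_h H).continuous.prodMap continuous_id).comp continuous_subtype_val).subtype_mk _
  have hjs : Surjective j := fun p => by
    obtain ⟨x, hx⟩ := H.surj _ (hO _ p.2).1
    exact ⟨⟨(x, p.1.2), by change (H.h x, p.1.2) ∈ O; rw [hx]; exact p.2⟩,
      Subtype.ext (Prod.ext hx rfl)⟩
  have hπ : IsLocalHomeomorph π := localHomeo_of hc ho fun p => by
    obtain ⟨N, h1, h2, h3⟩ := exists_sep P (hO _ p.2).2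
    refine ⟨{a | a.1.2 ∈ N}, h1.preimage (by fun_prop), h2, fun a ha b hb hab => ?_⟩
    obtain ⟨h4, g, hg, h5⟩ := (hf a b).1 hab
    have h6 : g = 1 := h3 g hg _ (hO _ a.2).2 ha (h5 ▸ hb)
    rw [h6] at h5
    exact Subtype.ext (Prod.ext h4.symm h5.symm)
  refine smooth_quot (F := ℝ × (Col S → ℝ)) ?_ Z hsub (π ∘ j)
    (hπ.comp (hj.toHomeomorphOfSurjective hjs).isLocalHomeomorph) (hs.comp hjs) fun p p' h => ?_
  · have := Fintype.card_pos (α := V)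
    simp only [finrank_prod, finrank_pi, finrank_self, finrank_euclideanSpace, Fintype.card_fin]
    omega
  · obtain ⟨h1, g, hg, h2⟩ := (hf _ _).1 h
    refine ⟨fun x => (x.1, g x.2), ?_, Prod.ext (H.inj h1).symm h2.symm,
      Eventually.of_forall fun x => ⟨hinv g hg _ x.2, 
        ((hf (j x) (j ⟨(x.1.1, g x.1.2), hinv g hg _ x.2⟩)).2 ⟨rfl, g, hg, rfl⟩).symm⟩⟩
    exact contDiffAt_fst.prodMk
      (g.toContinuousLinearEquiv.contDiff.contDiffAt.comp _ contDiffAt_snd)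

/-- the same for a relatively open invariant part `O` of `Mh`. -/
theorem smooth_M_of_sub {W V : Type} [Fintype W] [Fintype V] [Nonempty V] {T : SimpleGraph W}
    (H : SM T (V → ℝ)) (P : Piece S) (col : W → Col S)
    (hsub : ∀ p : (V → ℝ) × (Col S → ℝ), (H.h p.1, p.2) ∈ Mh P T col →
      ∃ (U : Set ((V → ℝ) × (Col S → ℝ))) (f : (V → ℝ) × (Col S → ℝ) → ℝ × (Col S → ℝ)),
        IsOpen U ∧ p ∈ U ∧ ContDiffOn ℝ ∞ f U ∧ Surjective (fderiv ℝ f p) ∧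
        ∀ x ∈ U, (H.h x.1, x.2) ∈ Mh P T col ↔ f x = 0)
    (O : Set ((W → ℝ) × (Col S → ℝ))) (hO : O ⊆ Mh P T col)
    (hop : ∀ p ∈ O, ∀ᶠ x in 𝓝 p, x ∈ Mh P T col → x ∈ O)
    (hinv : ∀ g ∈ P.G, ∀ p ∈ O, (p.1, g p.2) ∈ O)
    {M : Type} [TopologicalSpace M] (π : O → M) (hc : Continuous π) (ho : IsOpenMap π)
    (hs : Surjective π)
    (hf : ∀ p p' : O, π p = π p' ↔ p'.1.1 = p.1.1 ∧ ∃ g ∈ P.G, p'.1.2 = g p.1.2) :
    ∃ _ : ChartedSpace (EuclideanSpace ℝ (Fin (Fintype.card V - 1))) M,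
      IsManifold (𝓡 (Fintype.card V - 1)) ∞ M := by
  refine smooth_of_sub H P O (fun p hp => ⟨(hO hp).1, (hO hp).2.1.1⟩) hinv (fun p hp => ?_)
    π hc ho hs hf
  obtain ⟨U, f, h1, h2, h3, h4, h5⟩ := hsub p (hO hp)
  obtain ⟨A, hA1, hA2, hA3⟩ := eventually_nhds_iff.1 (hop _ hp)
  have hj : Continuous fun x : (V → ℝ) × (Col S → ℝ) => (H.h x.1, x.2) :=
    (emb_h H).continuous.prodMap continuous_id
  exact ⟨U ∩ _ ⁻¹' A, f, h1.inter (hA2.preimage hj), ⟨h2, hA3⟩, h3.mono inter_subset_left, h4,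
    fun x hx => ⟨fun h => (h5 x hx.1).1 (hO h), fun h => hA1 _ hx.2 ((h5 x hx.1).2 h)⟩⟩

end Pool.Agent.Lib.MP_c2693b_gt.Sm
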