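import Pool.Agent.Lib.MP_c2693b_gt.SmSub
import Pool.Agent.Lib.MP_c2693b_gt.SmQ

/-! Section 4: cells of `Mh`, closedness, compactness modulo `G`, smooth structure. -/

set_option linter.unusedSectionVars false

open scoped BigOperators ContDiff Topology Classical Manifold
open Set Filter

namespace Pool.Agent.Lib.MP_c2693b_gt.Sm

open Ar Tri

variable {S : Type} [Fintype S] [DecidableEq S] {P : Piece S}
variable {W : Type} [Fintype W] {T : SimpleGraph W} {col : W → Col S}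
variable {p p' : (W → ℝ) × (Col S → ℝ)}

theorem Mh_map {g} (hg : g ∈ P.G) (hp : p ∈ Mh P T col) : (p.1, g p.2) ∈ Mh P T col :=
  ⟨hp.1, Yt_map hg hp.2.1, fun φ => by rw [tt_map hg]; exact hp.2.2 φ⟩

theorem Mh_val (hcol : ∀ w w', T.Adj w w' → col w ≠ col w') (hp : p ∈ Mh P T col) {w}
    (h : p.1 w ≠ 0) : p.1 w = tt P (col w) p.2 := by
  rw [← hp.2.2, sum_col hcol hp.1 h _ fun _ h => h]

theorem Mh_not_van (hp : p ∈ Mh P T col) {w} (h : p.1 w ≠ 0) : ¬ Van P p.2 (col w) := fun hv => by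
  have h1 := hp.2.2 (col w)
  rw [(tt_eq_zero hp.2.1).2 hv, Finset.sum_eq_zero_iff_of_nonneg fun w _ => hp.1.1 w] at h1
  exact h (h1 w (by simp))

theorem Mh_exists (hp : p ∈ Mh P T col) {φ} (h : ¬ Van P p.2 φ) : ∃ w, col w = φ ∧ p.1 w ≠ 0 := by
  have h2 := ((tt_pos hp.2.1).2 h).ne'
  rw [← hp.2.2] at h2
  obtain ⟨w, hw0, hw⟩ := Finset.exists_ne_zero_of_sum_ne_zero h2
  exact ⟨w, (Finset.mem_filter.1 hw0).2, hw⟩

theorem cone_inj (hcol : ∀ w w', T.Adj w w' → col w ≠ col w') {z} (hz : z ∈ cone T) {w w'}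
    (h : z w ≠ 0) (h' : z w' ≠ 0) (e : col w = col w') : w = w' := by
  by_contra hc
  exact hcol _ _ (hz.2 w w' hc h h') e

theorem Mh_le_one (hcol : ∀ w w', T.Adj w w' → col w ≠ col w') (hp : p ∈ Mh P T col) (w) :
    p.1 w ≤ 1 := by
  by_cases h : p.1 w = 0
  · rw [h]; norm_num
  · rw [Mh_val hcol hp h]; exact tt_le_one hp.2.1 _

variable (P col) in
/-- the point of the cell of the clique `σ` over `y`. -/
noncomputable def mk (σ : Set W) (y : Col S → ℝ) : (W → ℝ) × (Col S → ℝ) :=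
  (fun w => if w ∈ σ then tt P (col w) y else 0, y)

theorem mk_ne_zero {σ : Set W} {y} (hy : y ∈ Yt P) {w} :
    (mk P col σ y).1 w ≠ 0 ↔ w ∈ σ ∧ ¬ Van P y (col w) := by
  simp only [mk, ← tt_eq_zero hy]
  by_cases h : w ∈ σ <;> simp [h]

theorem mk_mem (hcol : ∀ w w', T.Adj w w' → col w ≠ col w') {σ : Set W} (hσ : T.IsClique σ) {y}
    (hy : y ∈ Yt P) (h : ∀ φ, ¬ Van P y φ → ∃ w ∈ σ, col w = φ) : mk P col σ y ∈ Mh P T col := by
  have hc : (mk P col σ y).1 ∈ cone T := by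
    refine ⟨fun w => ?_, fun w w' hne h1 h2 => hσ ((mk_ne_zero hy).1 h1).1 ((mk_ne_zero hy).1 h2).1 hne⟩
    simp only [mk]
    split_ifs
    exacts [tt_nonneg hy _, le_rfl]
  refine ⟨hc, hy, fun φ => ?_⟩
  by_cases hv : Van P y φ
  · refine (Finset.sum_eq_zero fun w hw => ?_).trans ((tt_eq_zero hy).2 hv).symm
    by_contra h1
    exact ((mk_ne_zero hy).1 h1).2 ((Finset.mem_filter.1 hw).2 ▸ hv)
  · obtain ⟨w, hw, rfl⟩ := h φ hv
    rw [sum_col hcol hc ((mk_ne_zero hy).2 ⟨hw, hv⟩) _ fun _ h => h]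
    simp only [mk, if_pos hw]

theorem eq_mk (hcol : ∀ w w', T.Adj w w' → col w ≠ col w') (hp : p ∈ Mh P T col) {σ : Set W}
    (hσ : T.IsClique σ) (h : ∀ w, p.1 w ≠ 0 → w ∈ σ) : p = mk P col σ p.2 := by
  refine Prod.ext (funext fun w => ?_) rfl
  simp only [mk]
  by_cases h0 : p.1 w = 0
  · split_ifs with hw
    · by_contra hc
      rw [h0] at hc
      obtain ⟨w', e, h1⟩ := Mh_exists hp fun hv => hc ((tt_eq_zero hp.2.1).2 hv).symm
      by_cases hne : w' = w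
      · exact h1 (hne ▸ h0)
      · exact hcol _ _ (hσ (h w' h1) hw hne) e
    · exact h0
  · rw [if_pos (h w h0), Mh_val hcol hp h0]

theorem supp_clique {z} (hz : z ∈ cone T) : T.IsClique {w | z w ≠ 0} :=
  fun w h w' h' hne => hz.2 w w' hne h h'

/-- two points over the same `y` in a common cell are equal. -/
theorem Mh_ext (hcol : ∀ w w', T.Adj w w' → col w ≠ col w') (hp : p ∈ Mh P T col)
    (hp' : p' ∈ Mh P T col) {σ : Set W} (hσ : T.IsClique σ) (h : ∀ w, p.1 w ≠ 0 → w ∈ σ)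
    (h' : ∀ w, p'.1 w ≠ 0 → w ∈ σ) (e : p.2 = p'.2) : p = p' := by
  rw [eq_mk hcol hp hσ h, eq_mk hcol hp' hσ h', e]

theorem continuousOn_mk (σ : Set W) : ContinuousOn (mk P col σ) (Yt P) := by
  refine ContinuousOn.prodMk (continuousOn_pi.2 fun w => ?_) continuousOn_id
  by_cases h : w ∈ σ
  · simp only [if_pos h]; exact tt_contOn _
  · simp only [if_neg h]; exact continuousOn_const

theorem closed_cone : IsClosed (cone T) := by
  have : cone T = (⋂ w, {z | 0 ≤ z w}) ∩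
      ⋂ w, ⋂ w', ⋂ (_ : w ≠ w' ∧ ¬ T.Adj w w'), ({z | z w = 0} ∪ {z | z w' = 0}) := by
    ext z
    simp only [cone, mem_inter_iff, mem_iInter, mem_ofPred_eq, mem_union]
    refine and_congr_right fun _ => forall₂_congr fun w w' => ?_
    tauto
  rw [this]
  exact (isClosed_iInter fun w => isClosed_le continuous_const (continuous_apply w)).inter
    (isClosed_iInter fun w => isClosed_iInter fun w' => isClosed_iInter fun _ =>
      (isClosed_eq (continuous_apply w) continuous_const).union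
        (isClosed_eq (continuous_apply w') continuous_const))

theorem isClosed_Mh : IsClosed (Mh P T col) := by
  have h1 : IsClosed {p : (W → ℝ) × (Col S → ℝ) | p.2 ∈ Yt P} := isClosed_Yt.preimage continuous_snd
  have : Mh P T col = Prod.fst ⁻¹' cone T ∩ ({p | p.2 ∈ Yt P} ∩ ⋂ φ, ({p | p.2 ∈ Yt P} ∩
      (fun p => ∑ w with col w = φ, p.1 w - tt P φ p.2) ⁻¹' {0})) := by
    ext p
    simp only [Mh, mem_inter_iff, mem_iInter, mem_ofPred_eq, mem_preimage, mem_singleton_iff,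
      sub_eq_zero]
    exact and_congr_right fun _ => and_congr_right fun h => forall_congr' fun φ => by simp only [h, true_and]
  rw [this]
  refine (closed_cone.preimage continuous_fst).inter (h1.inter (isClosed_iInter fun φ => ?_))
  refine ContinuousOn.preimage_isClosed_of_isClosed (ContinuousOn.sub ?_ ?_) h1 isClosed_singleton
  · fun_prop
  · exact (tt_contOn φ).comp continuousOn_snd fun _ h => h

theorem isCompact_Mh (hcol : ∀ w w', T.Adj w w' → col w ≠ col w') (C : ℝ) :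
    IsCompact {p | p ∈ Mh P T col ∧ ‖p.2‖ ≤ C} := by
  refine Metric.isCompact_of_isClosed_isBounded
    (isClosed_Mh.inter (isClosed_le continuous_snd.norm continuous_const))
    (isBounded_iff_forall_norm_le.2 ⟨max 1 C, fun p hp => ?_⟩)
  refine max_le_max ((pi_norm_le_iff_of_nonneg zero_le_one).2 fun w => ?_) hp.2
  rw [Real.norm_eq_abs, abs_of_nonneg (hp.1.1.1 w)]
  exact Mh_le_one hcol hp.1 w

/-- `Mh` is compact modulo `G`. -/
theorem exists_compact (hcol : ∀ w w', T.Adj w w' → col w ≠ col w') :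
    ∃ K, IsCompact K ∧ K ⊆ Mh P T col ∧ ∀ p ∈ Mh P T col, ∃ g ∈ P.G, (p.1, g p.2) ∈ K := by
  obtain ⟨C, hC⟩ := P.cocompact
  refine ⟨_, isCompact_Mh (P := P) hcol C, fun p hp => hp.1, fun p hp => ?_⟩
  obtain ⟨g, hg, h⟩ := hC p.2 hp.2.1.1 hp.2.1.2
  exact ⟨g, hg, Mh_map hg hp, h⟩

theorem supp_nhds (p : (W → ℝ) × (Col S → ℝ)) : ∀ᶠ x in 𝓝 p, ∀ w, p.1 w ≠ 0 → x.1 w ≠ 0 := by
  refine eventually_all.2 fun w => ?_
  by_cases h : p.1 w = 0
  · exact Eventually.of_forall fun _ h' => absurd h h'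
  · have : ContinuousAt (fun x : (W → ℝ) × (Col S → ℝ) => x.1 w) p := by fun_prop
    exact (this.eventually_ne h).mono fun _ h _ => h

/-- near `y0` only the roots that vanish at `y0` can fail to be positive. -/
theorem van_nhds {y0} (h0 : y0 ∈ Yt P) :
    ∀ᶠ y in 𝓝 y0, ∀ φ, ∀ ρ ∈ P.R φ, q y ρ ≤ 0 → Van P y0 φ ∧ ρ = rt P y0 φ := by
  obtain ⟨F, hF⟩ := near h0
  have e2 : ∀ᶠ y in 𝓝 y0, ∀ ρ ∈ F, 0 < q y0 ρ → 0 < q y ρ := by
    refine (Finset.eventually_all F).2 fun ρ _ => ?_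
    by_cases h : 0 < q y0 ρ
    · exact (continuousAt_const.eventually_lt (cont_q ρ).continuous.continuousAt h).mono
        fun _ h _ => h
    · exact Eventually.of_forall fun _ h' => absurd h' h
  filter_upwards [hF, e2] with y h1 h2 φ ρ hρ h
  have hm : ρ ∈ F := by
    by_contra hc
    linarith [h1 φ ρ hρ hc]
  have e : q y0 ρ = 0 := by
    by_contra hc
    exact absurd (h2 ρ hm ((h0.2 φ ρ hρ).lt_of_ne' hc)) (not_lt.2 h)
  exact ⟨⟨ρ, hρ, e⟩, (rt_eq h0.1 hρ e).symm⟩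

theorem rt_map {g} (hg : g ∈ P.G) {y φ} (hy : y ∈ HH S) (h : Van P y φ) :
    rt P (g y) φ = g (rt P y φ) :=
  rt_eq (P.mapH g hg y hy) (P.mapR g hg φ _ (rt_mem h)) (by rw [P.iso g hg, rt_van])

theorem van_beta {y} (hy : y ∈ beta S) {φ} : Van P y φ ↔ q y (nu φ) = 0 :=
  ⟨fun ⟨ρ, h, e⟩ => by rw [← (P.onb y hy φ ρ h).2 e]; exact e, fun e => ⟨_, P.nu_mem φ, e⟩⟩

theorem rt_beta {y} (hy : y ∈ beta S) {φ} (h : Van P y φ) : rt P y φ = nu φ :=
  rt_eq hy.1 (P.nu_mem φ) ((van_beta hy).1 h)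

/-- quotients of open invariant parts of `Mh` are smooth manifolds. -/
theorem smooth_M {V : Type} [Fintype V] [Nonempty V]
    (hcol : ∀ w w', T.Adj w w' → col w ≠ col w') (H : SM T (V → ℝ))
    (O : Set ((W → ℝ) × (Col S → ℝ))) (hO : O ⊆ Mh P T col)
    (hop : ∀ p ∈ O, ∀ᶠ x in 𝓝 p, x ∈ Mh P T col → x ∈ O)
    (hinv : ∀ g ∈ P.G, ∀ p ∈ O, (p.1, g p.2) ∈ O)
    {M : Type} [TopologicalSpace M] (π : O → M) (hc : Continuous π) (ho : IsOpenMap π)
    (hs : Function.Surjective π)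
    (hf : ∀ p p' : O, π p = π p' ↔ p'.1.1 = p.1.1 ∧ ∃ g ∈ P.G, p'.1.2 = g p.1.2) :
    ∃ _ : ChartedSpace (EuclideanSpace ℝ (Fin (Fintype.card V - 1))) M,
      IsManifold (𝓡 (Fintype.card V - 1)) ∞ M :=
  smooth_M_of_sub H P col (sub hcol H) O hO hop hinv π hc ho hs hf

end Pool.Agent.Lib.MP_c2693b_gt.Sm
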