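import Pool.Agent.Lib.MP_c2693b_gt.Cm0
import Pool.Agent.Lib.MP_c2693b_gt.SmMh

/-! Hyperbolic space as a metric space; the steps on `Mh`. -/

set_option autoImplicit false
set_option linter.unusedSectionVars false

open scoped BigOperators Topology Classical
open Set Filter Real

namespace Pool.Agent.Lib.MP_c2693b_gt.Cm

open Ar Tri Sm

variable {S : Type} [Fintype S] [DecidableEq S]

lemma perp_cs {w u v : Col S → ℝ} (hw : q w w < 0) (hu : q u w = 0) (hv : q v w = 0) :
    q u v ^ 2 ≤ q u u * q v v := by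
  have h : ∀ t : ℝ, 0 ≤ q u u * (t * t) + 2 * q u v * t + q v v := fun t => by
    have := perp_nonneg (u := t • u + v) hw (by simp [hu, hv])
    simp only [map_add, map_smul, LinearMap.add_apply, LinearMap.smul_apply, smul_eq_mul,
      q_comm v u] at this
    linarith
  have := discrim_le_zero h
  rw [discrim] at this
  linarith

lemma perp_of (y0 : Col S → ℝ) (h0 : q y0 y0 = -1) (y : Col S → ℝ) : q (y + q y y0 • y0) y0 = 0 := by
  simp [h0]

lemma perp_q {y0 : Col S → ℝ} (h0 : q y0 y0 = -1) (y z : Col S → ℝ) :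
    q (y + q y y0 • y0) (z + q z y0 • y0) = q y z + q y y0 * q z y0 := by
  simp only [map_add, map_smul, LinearMap.add_apply, LinearMap.smul_apply, smul_eq_mul, h0,
    q_comm y0 z]
  ring

variable (S) in
/-- Hyperbolic space with its metric. -/
@[ext] structure HP where
  val : Col S → ℝ
  mem : val ∈ HH S

lemma one_le (a b : HP S) : 1 ≤ -q a.val b.val := by linarith [q_le_neg_one a.mem b.mem]

noncomputable instance : MetricSpace (HP S) where
  dist a b := arcosh (-q a.val b.val)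
  dist_self a := by rw [a.mem.1, neg_neg, arcosh_zero]
  dist_comm a b := by rw [q_comm]
  dist_triangle a x b := by
    have hα := arcosh_nonneg (one_le a x)
    have hβ := arcosh_nonneg (one_le x b)
    have e1 := cosh_arcosh (one_le a x)
    have e2 := cosh_arcosh (one_le x b)
    have e3 := cosh_arcosh (one_le a b)
    have h := perp_cs (by rw [x.mem.1]; norm_num) (perp_of _ x.mem.1 a.val) (perp_of _ x.mem.1 b.val)
    rw [perp_q x.mem.1, perp_q x.mem.1, perp_q x.mem.1, a.mem.1, b.mem.1, q_comm b.val] at h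
    generalize arcosh (-q a.val x.val) = α at *
    generalize arcosh (-q x.val b.val) = β at *
    generalize arcosh (-q a.val b.val) = D at *
    have h1 : cosh D ≤ cosh (α + β) := by
      have s1 := sinh_sq α
      have s2 := sinh_sq β
      have h2 : (cosh D - cosh α * cosh β) ^ 2 ≤ (sinh α * sinh β) ^ 2 := by
        rw [mul_pow, s1, s2, e1, e2, e3]
        nlinarith
      have := abs_le_of_sq_le_sq' h2 (mul_nonneg (sinh_nonneg_iff.2 hα) (sinh_nonneg_iff.2 hβ))
      rw [cosh_add]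
      linarith [this.2]
    exact (le_abs_self D).trans ((cosh_le_cosh.1 h1).trans (abs_of_nonneg (add_nonneg hα hβ)).le)
  eq_of_dist_eq_zero {a b} h := by
    have h1 := (arcosh_eq_zero_iff (one_le a b)).1 h
    have h2 : q a.val b.val = -1 := by linarith
    have := perp_eq_zero (by rw [b.mem.1]; norm_num) (perp_of _ b.mem.1 a.val)
      (by rw [perp_q b.mem.1, a.mem.1, h2]; norm_num)
    rw [h2, neg_one_smul, add_neg_eq_zero] at this
    exact HP.ext this

lemma dist_def (a b : HP S) : dist a b = arcosh (-q a.val b.val) := rfl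

lemma cosh_dist (a b : HP S) : cosh (dist a b) = -q a.val b.val := cosh_arcosh (one_le a b)

lemma continuous_val : Continuous (HP.val : HP S → Col S → ℝ) := by
  refine continuous_iff_continuousAt.2 fun b => tendsto_iff_norm_sub_tendsto_zero.2 ?_
  have h : ∀ a : HP S, ‖a.val - b.val‖ ≤ √(2 * (2 * (cosh (dist a b) - 1)) +
      60 * (‖b.val‖ ^ 2 / 1) * (2 * (cosh (dist a b) - 1) + 2 * (1 - cosh (dist a b)) ^ 2 / 1)) := by
    intro a
    refine le_sqrt_of_sq_le ((norm_sq_le one_pos b.mem.1).trans (le_of_eq ?_))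
    simp only [map_sub, LinearMap.sub_apply, a.mem.1, b.mem.1, cosh_dist, q_comm b.val a.val]
    ring
  refine squeeze_zero (fun _ => norm_nonneg _) h ?_
  have : Continuous fun a : HP S => √(2 * (2 * (cosh (dist a b) - 1)) +
      60 * (‖b.val‖ ^ 2 / 1) * (2 * (cosh (dist a b) - 1) + 2 * (1 - cosh (dist a b)) ^ 2 / 1)) := by
    fun_prop
  simpa using this.tendsto b

lemma continuous_of_val {X : Type} [TopologicalSpace X] {f : X → HP S}
    (hf : Continuous fun x => (f x).val) : Continuous f := by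
  refine continuous_iff_continuousAt.2 fun b => tendsto_iff_dist_tendsto_zero.2 ?_
  have h1 : Continuous fun x => -q (f x).val (f b).val := ((cont_q _).continuous.comp hf).neg
  have h2 := (continuousOn_arcosh.comp_continuous h1 fun x => one_le _ _).tendsto b
  rwa [show (arcosh ∘ fun x => -q (f x).val (f b).val) b = 0 from dist_self (f b)] at h2

lemma exists_ball (a : HP S) {p : (Col S → ℝ) → Prop} (h : ∀ᶠ y in 𝓝 a.val, p y) :
    ∃ ε, 0 < ε ∧ ∀ b : HP S, dist a b < ε → p b.val := by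
  obtain ⟨ε, hε, he⟩ := Metric.eventually_nhds_iff.1 (continuous_val.tendsto a h)
  exact ⟨ε, hε, fun b hb => he (dist_comm a b ▸ hb)⟩

variable {W : Type} [Fintype W] (P : Piece S) (T : SimpleGraph W) (col : W → Col S)

/-- The steps on `Mh`. -/
noncomputable def steps : Steps (Mh P T col) (HP S) where
  p x := ⟨x.1.2, x.2.2.1.1⟩
  St x y := x.1.1 + y.1.1 ∈ cone T ∧
    ∀ φ, Van P x.1.2 φ → Van P y.1.2 φ → rt P x.1.2 φ = rt P y.1.2 φ
  E x y := y.1.1 = x.1.1 ∧ ∃ g ∈ P.G, y.1.2 = g x.1.2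
  refl x := ⟨⟨fun w => add_nonneg (x.2.1.1 w) (x.2.1.1 w), fun w w' h a b =>
    x.2.1.2 w w' h (fun e => a (by simp [e])) fun e => b (by simp [e])⟩, fun _ _ _ => rfl⟩
  symm h := ⟨add_comm (_ : W → ℝ) _ ▸ h.1, fun φ a b => (h.2 φ b a).symm⟩
  eqv := ⟨fun _ => ⟨rfl, 1, P.G.one_mem, rfl⟩,
    fun ⟨h, g, hg, e⟩ => ⟨h.symm, g⁻¹, P.G.inv_mem hg, by rw [e]; simp⟩,
    fun ⟨h, g, hg, e⟩ ⟨h', g', hg', e'⟩ => ⟨h'.trans h, g' * g, P.G.mul_mem hg' hg, by
      rw [e', e]; rfl⟩⟩
  lift := by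
    rintro x x1 y ⟨h, g, hg, e⟩ ⟨h1, h2⟩
    refine ⟨⟨(y.1.1, g y.1.2), Mh_map hg y.2⟩, ⟨rfl, g, hg, rfl⟩, ⟨h ▸ h1, fun φ a b => ?_⟩, ?_⟩
    · simp only [e] at a b ⊢
      rw [Van_map hg] at a b
      rw [rt_map hg x.2.2.1.1 a, rt_map hg y.2.2.1.1 b, h2 φ a b]
    · simp only [dist_def, e, P.iso g hg]

variable {P T col}

lemma add_ne {z y : W → ℝ} (hz : z ∈ cone T) (hy : y ∈ cone T) {w : W} :
    (z + y) w ≠ 0 ↔ z w ≠ 0 ∨ y w ≠ 0 := by
  have := hz.1 w
  have := hy.1 w
  rw [← not_and_or, Pi.add_apply, Ne, add_eq_zero_iff_of_nonneg] <;> assumption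

lemma add_mem {σ : Set W} (hσ : T.IsClique σ) {z y : W → ℝ} (hz : z ∈ cone T) (hy : y ∈ cone T)
    (h1 : ∀ w, z w ≠ 0 → w ∈ σ) (h2 : ∀ w, y w ≠ 0 → w ∈ σ) : z + y ∈ cone T :=
  ⟨fun w => add_nonneg (hz.1 w) (hy.1 w), fun w w' h a b =>
    hσ (((add_ne hz hy).1 a).elim (h1 w) (h2 w)) (((add_ne hz hy).1 b).elim (h1 w') (h2 w')) h⟩

/-- a step does not lose a vertex whose colour is still visible. -/
lemma supp_of_add (hcol : ∀ w w', T.Adj w w' → col w ≠ col w') {x y : Mh P T col}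
    (h : x.1.1 + y.1.1 ∈ cone T) {w : W} (hw : x.1.1 w ≠ 0) (hv : ¬ Van P y.1.2 (col w)) :
    y.1.1 w ≠ 0 := by
  obtain ⟨w', e, h'⟩ := Mh_exists y.2 hv
  rwa [cone_inj hcol h ((add_ne x.2.1 y.2.1).2 (Or.inl hw)) ((add_ne x.2.1 y.2.1).2 (Or.inr h'))
    e.symm]

theorem top (hcol : ∀ w w', T.Adj w w' → col w ≠ col w') : (steps P T col).Top where
  cont := continuous_of_val (continuous_snd.comp continuous_subtype_val)
  star x0 := by
    have c1 : Tendsto (fun x : Mh P T col => x.1) (𝓝 x0) (𝓝 x0.1) := continuous_subtype_val.tendsto _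
    have c2 : Tendsto (fun x : Mh P T col => x.1.2) (𝓝 x0) (𝓝 x0.1.2) :=
      (continuous_snd.comp continuous_subtype_val).tendsto _
    filter_upwards [c1.eventually (supp_nhds x0.1), c2.eventually (van_nhds x0.2.2.1)] with x h1 h2
    exact ⟨add_mem (supp_clique x.2.1) x0.2.1 x.2.1 h1 fun _ h => h,
      fun φ _ b => (h2 φ _ (rt_mem b) (rt_van _ _).le).2.symm⟩
  small x0 N hN := by
    obtain ⟨N', hN', hs⟩ := (mem_nhds_subtype _ _ _).1 hN
    have key : ∀ σ : Set W, ∀ᶠ y in 𝓝 x0.1.2, T.IsClique σ → (∀ w, x0.1.1 w ≠ 0 → w ∈ σ) →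
        y ∈ Yt P → mk P col σ y ∈ N' := fun σ => by
      by_cases h : T.IsClique σ ∧ ∀ w, x0.1.1 w ≠ 0 → w ∈ σ
      · have := continuousOn_mk (P := P) (col := col) σ _ x0.2.2.1
        rw [ContinuousWithinAt, ← eq_mk hcol x0.2 h.1 h.2] at this
        filter_upwards [eventually_nhdsWithin_iff.1 (this hN')] with y hy _ _ h3
        exact hy h3
      · exact Eventually.of_forall fun y a b => absurd ⟨a, b⟩ h
    obtain ⟨ε, hε, he⟩ := exists_ball ((steps P T col).p x0) (eventually_all.2 key)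
    refine ⟨ε, hε, fun x hx => hs ?_⟩
    have h1 := supp_clique hx.1.1
    have := he _ hx.2 _ h1 (fun w h => (add_ne x0.2.1 x.2.1).2 (Or.inl h)) x.2.2.1
    rwa [show ((steps P T col).p x).val = x.1.2 from rfl,
      ← eq_mk hcol x.2 h1 fun w h => (add_ne x0.2.1 x.2.1).2 (Or.inr h)] at this

theorem compact (hcol : ∀ w w', T.Adj w w' → col w ≠ col w') (hA : (steps P T col).HasModels)
    (b : Mh P T col) : CompactSpace ((steps P T col).M b) := by
  obtain ⟨K, hK, hs, hc⟩ := exists_compact (P := P) hcol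
  refine Steps.compactSpace hA (top hcol) (K := Subtype.val ⁻¹' K)
    (isClosed_Mh.isClosedEmbedding_subtypeVal.isCompact_preimage hK) (fun x => ?_) b
  obtain ⟨g, hg, h⟩ := hc x.1 x.2
  exact ⟨⟨_, hs h⟩, h, rfl, g, hg, rfl⟩

open scoped Manifold ContDiff in
theorem smooth {V : Type} [Fintype V] [Nonempty V] (hcol : ∀ w w', T.Adj w w' → col w ≠ col w')
    (H : SM T (V → ℝ)) (hA : (steps P T col).HasModels) (b : Mh P T col) :
    ∃ _ : ChartedSpace (Euc (Fintype.card V - 1)) ((steps P T col).M b),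
      IsManifold (𝓡 (Fintype.card V - 1)) ∞ ((steps P T col).M b) := by
  let O : Set ((W → ℝ) × (Col S → ℝ)) := {p | ∃ h : p ∈ Mh P T col, ⟨p, h⟩ ∈ (steps P T col).O b}
  let e : O ≃ₜ (steps P T col).O b :=
    { toFun := fun p => ⟨⟨p.1, p.2.1⟩, p.2.2⟩
      invFun := fun x => ⟨x.1.1, x.1.2, x.2⟩
      left_inv := fun _ => rfl
      right_inv := fun _ => rfl
      continuous_toFun := by fun_prop
      continuous_invFun := by fun_prop }
  refine smooth_M hcol H O (fun p hp => hp.1) (fun p hp => ?_) (fun g hg p hp => ?_)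
    (fun p => (steps P T col).π b (e p)) ((Steps.continuous_π hA (top hcol) b).comp e.continuous)
    ((Steps.isOpenMap_π hA (top hcol) b).comp e.isOpenMap)
    ((Steps.surjective_π b).comp e.surjective) fun p p' => Steps.π_eq_iff hA (e p).2 (e p').2
  · obtain ⟨N, hN, hs⟩ := (mem_nhds_subtype _ _ _).1
      ((Steps.isClopen_O hA (top hcol) b).isOpen.mem_nhds hp.2)
    filter_upwards [hN] with x hx h
    exact ⟨h, hs (a := ⟨x, h⟩) hx⟩
  · exact ⟨Mh_map hg hp.1, Steps.mem_O_of_E hp.2 ⟨rfl, g, hg, rfl⟩⟩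

end Pool.Agent.Lib.MP_c2693b_gt.Cm
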