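import Pool.Agent.Lib.MP_c2693b_gt.LkCell

/-! Link cones: adding the normal vertices one at a time by gluing half products. -/

namespace Pool.Agent.Lib.MP_c2693b_gt.Lk

open Set ConeAlg Tri Sum

/-- The gluing theorem in the form used here. -/
def GlueStmt : Prop :=
  ∀ (C : Type) [ConeAlg C] [ProperSpace C] (Y : Set C), IsClosed Y → o ∈ Y →
    (∀ l : ℝ, 0 ≤ l → ∀ y ∈ Y, sm l y ∈ Y) → (∀ y ∈ Y, ∀ y' ∈ Y, ad y y' ∈ Y) →
    ∃ (D : Type) (_ : ConeAlg D) (p : D → C) (h : D → ℝ),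
      (∀ a b, p a = p b → h a = h b → a = b) ∧ (∀ a, 0 ≤ h a ∧ (h a ≠ 0 → p a ∈ Y)) ∧
      (∀ x r, 0 ≤ r → (r ≠ 0 → x ∈ Y) → ∃ a, p a = x ∧ h a = r) ∧
      (∀ l : ℝ, 0 ≤ l → ∀ a, p (sm l a) = sm l (p a) ∧ h (sm l a) = l * h a) ∧
      ∀ a b, (h a = 0 ∧ h b = 0) ∨ (p a ∈ Y ∧ p b ∈ Y) → ip a b = ip (p a) (p b) + h a * h b

variable {V S : Type}

/-- The normal vertices are orthonormal and orthogonal to the other vertices. -/
def Orth (g : V ⊕ S → V ⊕ S → ℝ) : Prop :=
  ∀ s, g (inr s) (inr s) = 1 ∧ ∀ w, w ≠ inr s → g (inr s) w = 0 ∧ g w (inr s) = 0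

open Classical in
/-- Unit vectors, orthogonal except for the product `c` between vertices of `V`. -/
noncomputable def gram (c : ℝ) : V ⊕ S → V ⊕ S → ℝ
  | inl x, inl y => if x = y then 1 else c
  | inr s, inr t => if s = t then 1 else 0
  | _, _ => 0

lemma orth_gram (c : ℝ) : Orth (gram (V := V) (S := S) c) := by
  refine fun s => ⟨by simp [gram], ?_⟩
  rintro (x | t) h
  · simp [gram]
  · have h' : t ≠ s := fun e => h (by rw [e])
    simp [gram, h', h'.symm]

/-- The part of `z` on `V`. -/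
def vp (z : V ⊕ S → ℝ) : V ⊕ S → ℝ := Sum.elim (fun x => z (inl x)) 0

@[simp] lemma vp_inl (z : V ⊕ S → ℝ) (x : V) : vp z (inl x) = z (inl x) := rfl

@[simp] lemma vp_inr (z : V ⊕ S → ℝ) (s : S) : vp z (inr s) = 0 := rfl

lemma vp_ne {z : V ⊕ S → ℝ} {w : V ⊕ S} (h : vp z w ≠ 0) : z w ≠ 0 ∧ ∃ x, w = inl x := by
  rcases w with x | s
  · exact ⟨h, x, rfl⟩
  · exact absurd rfl h

lemma vp_nonneg {z : V ⊕ S → ℝ} (h : ∀ w, 0 ≤ z w) (w : V ⊕ S) : 0 ≤ vp z w := by
  rcases w with x | s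
  · exact h _
  · exact le_rfl

lemma vp_sub (z y : V ⊕ S → ℝ) : vp (z - y) = vp z - vp y := by
  funext w
  rcases w with x | s <;> simp

/-- The properties (T2), (T3) of the triangulation. -/
structure Nest (T : SimpleGraph (V ⊕ S)) : Prop where
  t2 : ∀ s x y, x ≠ y → T.Adj (inr s) (inl x) → T.Adj (inr s) (inl y) → T.Adj (inl x) (inl y)
  t3 : ∀ s t, T.Adj (inr s) (inr t) →
    (∀ x, T.Adj (inr s) (inl x) → T.Adj (inr t) (inl x)) ∨
    (∀ x, T.Adj (inr t) (inl x) → T.Adj (inr s) (inl x))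

variable [Fintype V] [Fintype S] {g : V ⊕ S → V ⊕ S → ℝ}

lemma nest_of_sphere {K : SimpleGraph V} (P : Sphere K S) : Nest P.T :=
  ⟨fun s x y h a b => (P.t1 x y).2 (P.t2 s x y h a b), P.t3⟩

lemma bf_split (hg : Orth g) (z y : V ⊕ S → ℝ) :
    bf g z y = bf g (vp z) (vp y) + ∑ s, z (inr s) * y (inr s) := by
  have h1 : ∀ x s, g (inl x) (inr s) = 0 := fun x s => ((hg s).2 _ inl_ne_inr).2
  have h2 : ∀ x s, g (inr s) (inl x) = 0 := fun x s => ((hg s).2 _ inl_ne_inr).1
  have h3 : ∀ s, ∑ t, z (inr s) * y (inr t) * g (inr s) (inr t) = z (inr s) * y (inr s) := by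
    intro s
    rw [Finset.sum_eq_single s, (hg s).1, mul_one]
    · intro t _ ht
      rw [((hg s).2 _ fun e => ht (inr_injective e)).1, mul_zero]
    · simp
  simp [bf, Fintype.sum_sum_type, h1, h2, h3]

variable {T : SimpleGraph (V ⊕ S)} {U U0 : Set (V ⊕ S)} {C C0 : Type} [ConeAlg C] [ConeAlg C0]

lemma exists_del (X : Cells T U g C) (X0 : Cells T U0 g C0)
    (hU : ∀ w, w ∈ U0 ↔ w ∈ U ∧ ∃ x, w = inl x) : ∃ del : C → C0, ∀ a, X0.co (del a) = vp (X.co a) := by
  have : ∀ a, ∃ b, X0.co b = vp (X.co a) := fun a =>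
    X0.surj _ (cone_mono (X.mem a) (vp_nonneg (X.nonneg a)) fun w h => (vp_ne h).1)
      fun w h => (hU w).2 ⟨X.supp a w (vp_ne h).1, (vp_ne h).2⟩
  exact ⟨_, fun a => (this a).choose_spec⟩

lemma del_cell (X : Cells T U g C) (X0 : Cells T U0 g C0) {del : C → C0}
    (hd : ∀ a, X0.co (del a) = vp (X.co a)) {a b : C} (h : X.co a + X.co b ∈ cone T) :
    dist (del a) (del b) ^ 2 = bf g (vp (X.co a - X.co b)) (vp (X.co a - X.co b)) := by
  rw [X0.dist_cell, hd, hd, vp_sub]
  rw [hd, hd]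
  exact add_mem_cone (clique_of_cone h) (vp_nonneg (X.nonneg a)) (vp_nonneg (X.nonneg b))
    (fun w hw => add_ne_left (X.nonneg a) (X.nonneg b) (vp_ne hw).1)
    fun w hw => add_ne_right (X.nonneg a) (X.nonneg b) (vp_ne hw).1

/-- The cone over the vertices in `V` is isometrically embedded. -/
lemma ip_incl (hg : Orth g) (X : Cells T U g C) (X0 : Cells T U0 g C0)
    (hU : ∀ w, w ∈ U0 ↔ w ∈ U ∧ ∃ x, w = inl x) {a b : C} {a0 b0 : C0} (ha : X.co a = X0.co a0)
    (hb : X.co b = X0.co b0) : ip a b = ip a0 b0 := by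
  obtain ⟨del, hd⟩ := exists_del X X0 hU
  choose i hi using fun c : C0 => X.surj _ (X0.mem c) fun w h => ((hU w).1 (X0.supp c w h)).1
  have h1 : ∀ c e, dist (i c) (i e) ≤ 1 * dist c e := X0.chain i zero_le_one fun c e h => by
    refine (sq_le_sq₀ dist_nonneg (by positivity)).1 ?_
    rw [one_mul, X0.dist_cell h, X.dist_cell (by rwa [hi, hi]), hi, hi]
  have h2 : ∀ c e, dist (del c) (del e) ≤ 1 * dist c e := X.chain del zero_le_one fun c e h => by
    refine (sq_le_sq₀ dist_nonneg (by positivity)).1 ?_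
    rw [one_mul, del_cell X X0 hd h, X.dist_cell h, bf_split hg (X.co c - X.co e)]
    exact le_add_of_nonneg_right (Finset.sum_nonneg fun s _ => mul_self_nonneg _)
  have h3 : ∀ c, del (i c) = c := fun c => X0.inj (by
    rw [hd, hi]
    funext w
    rcases w with x | s
    · rfl
    · by_contra h
      obtain ⟨-, x, hx⟩ := (hU _).1 (X0.supp c (inr s) fun e => h e.symm)
      exact inr_ne_inl hx)
  have h4 : dist (i a0) (i b0) = dist a0 b0 := by
    have := h2 (i a0) (i b0)
    rw [h3, h3] at this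
    linarith [h1 a0 b0]
  obtain rfl : a = i a0 := X.inj (by rw [ha, hi])
  obtain rfl : b = i b0 := X.inj (by rw [hb, hi])
  have h5 := dist_sq (i a0) (i b0)
  rw [h4, dist_sq, X.ip_self, X.ip_self, X0.ip_self, X0.ip_self, hi, hi] at h5
  linarith

/-- The cone over the link of a normal vertex is convex. -/
lemma ad_mem_link (hT : Nest T) (hg : Orth g) (X : Cells T U g C) (X0 : Cells T U0 g C0)
    (hU : ∀ w, w ∈ U0 ↔ w ∈ U ∧ ∃ x, w = inl x) (s : S) {y y' : C}
    (hy : y ∈ X.cell {w | T.Adj (inr s) w}) (hy' : y' ∈ X.cell {w | T.Adj (inr s) w}) :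
    ad y y' ∈ X.cell {w | T.Adj (inr s) w} := by
  classical
  obtain ⟨del, hd⟩ := exists_del X X0 hU
  have := X0.proper
  let N : Set (V ⊕ S) := {w | T.Adj (inr s) w ∧ ∃ x, w = inl x}
  have hN : T.IsClique N := by
    rintro _ ⟨h1, x, rfl⟩ _ ⟨h2, x', rfl⟩ h
    exact hT.t2 s x x' (fun e => h (by rw [e])) h1 h2
  obtain ⟨π, π1, π2, π3⟩ := exists_proj (X0.isClosed_cell hN) ⟨o, X0.o_mem_cell N⟩
    fun a ha b hb t ht => X0.ad_mem_cell hN (X0.sm_mem_cell (sub_nonneg.2 ht.2) ha)
      (X0.sm_mem_cell ht.1 hb)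
  let r : C → V ⊕ S → ℝ := fun a => Sum.elim (fun x => X0.co (π (del a)) (inl x))
    fun t => if T.Adj (inr s) (inr t) then X.co a (inr t) else 0
  have r0 : ∀ a w, 0 ≤ r a w := by
    rintro a (x | t)
    · exact X0.nonneg _ _
    · simp only [r, Sum.elim_inr]
      split_ifs
      exacts [X.nonneg _ _, le_rfl]
  have rS : ∀ a t, r a (inr t) ≠ 0 → T.Adj (inr s) (inr t) ∧ X.co a (inr t) ≠ 0 := by
    intro a t h
    simp only [r, Sum.elim_inr] at h
    split_ifs at h with h'
    exacts [⟨h', h⟩, absurd rfl h]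
  have key : ∀ τ, T.IsClique τ → ∃ τ', T.IsClique τ' ∧ ∀ a ∈ X.cell τ, ∀ w, r a w ≠ 0 → w ∈ τ' := by
    intro τ hτ
    by_cases hc : ∃ t, inr t ∈ τ ∧ ∀ x, T.Adj (inr t) (inl x) → T.Adj (inr s) (inl x)
    · obtain ⟨t, ht, hts⟩ := hc
      refine ⟨τ, hτ, fun a ha => ?_⟩
      have e : π (del a) = del a := π2 _ fun w hw => by
        rw [hd] at hw
        obtain ⟨h1, x, rfl⟩ := vp_ne hw
        exact ⟨hts x (hτ ht (ha _ h1) inr_ne_inl), x, rfl⟩
      rintro (x | t') h
      · simp only [r, Sum.elim_inl, e, hd] at h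
        exact ha _ h
      · exact ha _ (rS a t' h).2
    · refine ⟨N ∪ {w | w ∈ τ ∧ T.Adj (inr s) w ∧ ∃ t, w = inr t}, ?_, fun a ha => ?_⟩
      · have mix : ∀ w ∈ N, ∀ t, inr t ∈ τ → T.Adj (inr s) (inr t) → T.Adj (inr t) w := by
          rintro _ ⟨h1, x, rfl⟩ t ht hst
          exact ((hT.t3 s t hst).resolve_right fun h => hc ⟨t, ht, h⟩) x h1
        rintro w (h1 | ⟨h1, h2, t, rfl⟩) w' (h3 | ⟨h3, h4, t', rfl⟩) h
        exacts [hN h1 h3 h, (mix w h1 t' h3 h4).symm, mix w' h3 t h1 h2, hτ h1 h3 h]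
      · rintro (x | t) h
        · exact Or.inl (π1 (del a) _ h)
        · exact Or.inr ⟨ha _ (rS a t h).2, (rS a t h).1, t, rfl⟩
  have hR : ∀ a, ∃ b, X.co b = r a := fun a => by
    obtain ⟨τ', h1, h2⟩ := key _ (clique_of_cone (X.mem a))
    refine X.surj _ (cone_of_clique h1 (r0 a) (h2 a fun _ h => h)) ?_
    rintro (x | t) h
    · exact ((hU _).1 (X0.supp _ _ h)).1
    · exact X.supp a _ (rS a t h).2
  choose R hR using hR
  have vr : ∀ a, vp (r a) = X0.co (π (del a)) := fun a => by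
    funext w
    rcases w with x | t
    · rfl
    · by_contra h
      obtain ⟨-, x, hx⟩ := π1 (del a) (inr t) fun e => h e.symm
      exact inr_ne_inl hx
  have lip : ∀ a b, dist (R a) (R b) ≤ 1 * dist a b := X.chain R zero_le_one fun a b h => by
    obtain ⟨τ', h1, h2⟩ := key _ (clique_of_cone h)
    have ha := h2 a fun w hw => add_ne_left (X.nonneg a) (X.nonneg b) hw
    have hb := h2 b fun w hw => add_ne_right (X.nonneg a) (X.nonneg b) hw
    have c1 : X.co (R a) + X.co (R b) ∈ cone T := by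
      rw [hR, hR]
      exact add_mem_cone h1 (r0 a) (r0 b) ha hb
    have c2 : X0.co (π (del a)) + X0.co (π (del b)) ∈ cone T := by
      rw [← vr, ← vr]
      exact add_mem_cone h1 (vp_nonneg (r0 a)) (vp_nonneg (r0 b))
        (fun w hw => ha w (vp_ne hw).1) fun w hw => hb w (vp_ne hw).1
    refine (sq_le_sq₀ dist_nonneg (by positivity)).1 ?_
    rw [one_mul, X.dist_cell c1, X.dist_cell h, bf_split hg, bf_split hg (X.co a - X.co b),
      ← del_cell X X0 hd h, hR, hR, vp_sub, vr, vr, ← X0.dist_cell c2]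
    refine add_le_add (pow_le_pow_left₀ dist_nonneg (π3 _ _) 2) (Finset.sum_le_sum fun t _ => ?_)
    simp only [r, Pi.sub_apply, Sum.elim_inr]
    split_ifs
    · exact le_rfl
    · simpa using mul_self_nonneg _
  have fix : ∀ a ∈ X.cell {w | T.Adj (inr s) w}, R a = a := fun a ha => X.inj (by
    have e : π (del a) = del a := π2 _ fun w hw => by
      rw [hd] at hw
      exact ⟨ha _ (vp_ne hw).1, (vp_ne hw).2⟩
    rw [hR]
    funext w
    rcases w with x | t
    · simp only [r, Sum.elim_inl, e, hd, vp_inl]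
    · simp only [r, Sum.elim_inr]
      split_ifs with h
      · rfl
      · exact (not_not.1 fun h' => h (ha _ h')).symm)
  have hI : (1 / 2 : ℝ) ∈ Icc (0 : ℝ) 1 := ⟨by norm_num, by norm_num⟩
  have hm : R (geo y y' (1 / 2)) = geo y y' (1 / 2) := by
    refine eq_geo hI ?_ ?_
    · have h1 := lip (geo y y' (1 / 2)) y
      have h2 := dist_geo y y' hI (left_mem_Icc.2 zero_le_one)
      rw [fix y hy] at h1
      rw [geo_zero] at h2
      norm_num at h2 ⊢
      linarith
    · have h1 := lip (geo y y' (1 / 2)) y'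
      have h2 := dist_geo y y' hI (right_mem_Icc.2 zero_le_one)
      rw [fix y' hy'] at h1
      rw [geo_one] at h2
      norm_num at h2 ⊢
      linarith
  have hm' : geo y y' (1 / 2) ∈ X.cell {w | T.Adj (inr s) w} := by
    rw [← hm]
    intro w hw
    rw [hR] at hw
    rcases w with x | t
    exacts [(π1 _ _ hw).1, (rS _ t hw).1]
  have e : ad y y' = sm 2 (geo y y' (1 / 2)) := by
    rw [geo, sm_ad zero_le_two, sm_sm zero_le_two (by norm_num), sm_sm zero_le_two (by norm_num)]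
    norm_num
  rw [e]
  exact X.sm_mem_cell zero_le_two hm'

lemma step (hG : GlueStmt) (hT : Nest T) (hg : Orth g) (X : Cells T U g C) (X0 : Cells T U0 g C0)
    (hU : ∀ w, w ∈ U0 ↔ w ∈ U ∧ ∃ x, w = inl x) {s : S} (hs : inr s ∉ U) :
    ∃ (D : Type) (_ : ConeAlg D), Nonempty (Cells T (insert (inr s) U) g D) := by
  classical
  have := X.proper
  have hcl : IsClosed (X.cell {w | T.Adj (inr s) w}) := by
    simp only [Cells.cell, ofPred_forall]
    refine isClosed_iInter fun w => ?_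
    by_cases h : T.Adj (inr s) w
    · simp [h]
    · simp only [mem_ofPred_eq, h, imp_false, not_not]
      exact isClosed_eq ((continuous_apply w).comp X.continuous_co) continuous_const
  obtain ⟨D, _, p, h, h1, h2, h3, h4, h5⟩ := hG C _ hcl (X.o_mem_cell _)
    (fun l hl y hy => X.sm_mem_cell hl hy) fun y hy y' hy' => ad_mem_link hT hg X X0 hU s hy hy'
  have z : ∀ a, X.co a (inr s) = 0 := fun a => not_not.1 fun e => hs (X.supp a _ e)
  let co : D → V ⊕ S → ℝ := fun a => Function.update (X.co (p a)) (inr s) (h a)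
  have c1 : ∀ a, co a (inr s) = h a := fun a => Function.update_self ..
  have c2 : ∀ a w, w ≠ inr s → co a w = X.co (p a) w := fun a w hw => Function.update_of_ne hw ..
  have c0 : ∀ a w, 0 ≤ co a w := fun a w => by
    by_cases e : w = inr s
    · rw [e, c1]
      exact (h2 a).1
    · rw [c2 a w e]
      exact X.nonneg _ _
  have c3 : ∀ a w, X.co (p a) w ≠ 0 → co a w ≠ 0 ∧ w ≠ inr s := fun a w hw => by
    have e : w ≠ inr s := fun e => hw (by rw [e, z])
    exact ⟨by rwa [c2 a w e], e⟩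
  refine ⟨D, inferInstance, ⟨⟨co, fun a b e => h1 a b (X.inj ?_) ?_, fun a => ⟨c0 a, ?_⟩,
    fun a w hw => ?_, fun y hy hU' => ?_, fun {l} hl a => ?_, fun a b hab => ?_⟩⟩⟩
  · funext w
    by_cases e' : w = inr s
    · rw [e', z, z]
    · rw [← c2 a w e', ← c2 b w e', e]
  · rw [← c1, ← c1, e]
  · intro w w' hw k k'
    by_cases e : w = inr s
    · subst e
      rw [c2 a w' hw.symm] at k'
      exact (h2 a).2 (by rwa [c1] at k) w' k'
    · rw [c2 a w e] at k
      by_cases e' : w' = inr s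
      · subst e'
        exact ((h2 a).2 (by rwa [c1] at k') w k).symm
      · rw [c2 a w' e'] at k'
        exact (X.mem _).2 w w' hw k k'
  · by_cases e : w = inr s
    · exact Or.inl e
    · exact Or.inr (X.supp (p a) w (by rwa [c2 a w e] at hw))
  · have u : ∀ w, Function.update y (inr s) 0 w ≠ 0 → y w ≠ 0 ∧ w ≠ inr s := fun w hw => by
      have e : w ≠ inr s := fun e => hw (by rw [e, Function.update_self])
      exact ⟨by rwa [Function.update_of_ne e] at hw, e⟩
    obtain ⟨x, hx⟩ := X.surj (Function.update y (inr s) 0) (cone_mono hy (fun w => by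
      by_cases e : w = inr s
      · rw [e, Function.update_self]
      · rw [Function.update_of_ne e]
        exact hy.1 w) fun w hw => (u w hw).1)
      fun w hw => (hU' w (u w hw).1).resolve_left (u w hw).2
    obtain ⟨a, ha, ha'⟩ := h3 x (y (inr s)) (hy.1 _) fun k w hw => by
      rw [hx] at hw
      exact hy.2 _ _ (u w hw).2.symm k (u w hw).1
    refine ⟨a, ?_⟩
    simp only [co, ha, ha', hx, Function.update_idem, Function.update_eq_self]
  · funext w
    by_cases e : w = inr s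
    · rw [e, Pi.smul_apply, c1, c1, (h4 l hl a).2, smul_eq_mul]
    · rw [Pi.smul_apply, c2 _ w e, c2 _ w e, (h4 l hl a).1, X.co_sm hl, Pi.smul_apply]
  · have la : ∀ w, X.co (p a) w ≠ 0 → (co a + co b) w ≠ 0 := fun w hw =>
      add_ne_left (c0 a) (c0 b) (c3 a w hw).1
    have lb : ∀ w, X.co (p b) w ≠ 0 → (co a + co b) w ≠ 0 := fun w hw =>
      add_ne_right (c0 a) (c0 b) (c3 b w hw).1
    have hc : X.co (p a) + X.co (p b) ∈ cone T :=
      add_mem_cone (clique_of_cone hab) (X.nonneg _) (X.nonneg _) la lb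
    have e1 : ip a b = ip (p a) (p b) + h a * h b := by
      refine h5 a b ?_
      by_cases k : (co a + co b) (inr s) = 0
      · rw [Pi.add_apply, c1, c1] at k
        exact Or.inl ⟨by linarith [(h2 a).1, (h2 b).1], by linarith [(h2 a).1, (h2 b).1]⟩
      · exact Or.inr ⟨fun w hw => hab.2 _ _ (c3 a w hw).2.symm k (la w hw),
          fun w hw => hab.2 _ _ (c3 b w hw).2.symm k (lb w hw)⟩
    have v : ∀ c, vp (co c) = vp (X.co (p c)) := fun c => by
      funext w
      rcases w with x | t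
      exacts [c2 c _ inl_ne_inr, rfl]
    rw [e1, X.ip_cell _ _ hc, bf_split hg, bf_split hg (co a), v, v, add_assoc,
      ← Finset.add_sum_erase _ _ (Finset.mem_univ s),
      ← Finset.add_sum_erase _ (fun t => co a (inr t) * co b (inr t)) (Finset.mem_univ s),
      z, zero_mul, zero_add, c1, c1, add_comm _ (h a * h b)]
    congr 2
    refine Finset.sum_congr rfl fun t ht => ?_
    have e : (inr t : V ⊕ S) ≠ inr s := fun e => (Finset.mem_erase.1 ht).1 (inr_injective e)
    rw [c2 a _ e, c2 b _ e]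

/-- Link cones from the gluing theorem. -/
theorem link_cone_of (hG : GlueStmt) (hT : Nest T) (hg : Orth g) (X0 : Cells T U0 g C0)
    (hU : ∀ w, w ∈ U0 ↔ w ∈ U ∧ ∃ x, w = inl x) :
    ∃ (D : Type) (_ : ConeAlg D), Nonempty (Cells T U g D) := by
  classical
  have key : ∀ A : Finset S, ∃ (D : Type) (_ : ConeAlg D),
      Nonempty (Cells T (U0 ∪ inr '' (A : Set S)) g D) := by
    intro A
    induction A using Finset.induction_on with
    | empty => exact ⟨C0, inferInstance, by simpa using ⟨X0⟩⟩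
    | insert s A hs ih =>
      obtain ⟨D, _, ⟨X⟩⟩ := ih
      have := step hG hT hg X X0 (s := s) (fun w => ?_) ?_
      · rwa [Finset.coe_insert, image_insert_eq, union_insert]
      · constructor
        · exact fun h => ⟨Or.inl h, ((hU w).1 h).2⟩
        · rintro ⟨h | ⟨t, -, rfl⟩, x, hx⟩
          exacts [h, absurd hx inr_ne_inl]
      · rintro (h | ⟨t, ht, e⟩)
        · obtain ⟨-, x, hx⟩ := (hU _).1 h
          exact inr_ne_inl hx
        · exact hs (inr_injective e ▸ ht)
  have := key (Finset.univ.filter fun s => inr s ∈ U)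
  convert this using 6
  all_goals
    ext w
    rcases w with x | s <;> simp [hU]

end Pool.Agent.Lib.MP_c2693b_gt.Lk
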