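import Pool.Agent.Lib.MP_c2693b_gt.Cm1
import Pool.Agent.Lib.MP_c2693b_gt.LkStep
import Pool.Agent.Lib.MP_c2693b_gt.ConeHyp

/-! The local model of the step metric on `Mh`. -/

set_option autoImplicit false
set_option linter.unusedSectionVars false

open scoped BigOperators Topology Classical
open Set Filter Real Sum Metric

namespace Pool.Agent.Lib.MP_c2693b_gt.Cm

open Ar Tri Sm Lk ConeAlg

variable {S : Type} [Fintype S] [DecidableEq S]

/-- Coordinates adapted to the roots that vanish at `y0`. -/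
structure Split (P : Piece S) (y0 : Col S → ℝ) {k : ℕ} (c : ℝ) (κ : Col S → ℝ)
    (e : (Col S → ℝ) →ₗ[ℝ] Euc k) : Prop where
  pos : ∀ φ, 0 < κ φ
  form : ∀ y y', q y y' = -(q y y0 * q y' y0) + inner ℝ (e y) (e y') +
    bf (gram c) (fun φ => κ φ * q y (rt P y0 φ)) fun φ => κ φ * q y' (rt P y0 φ)
  onto : ∀ (t : ℝ) (a : Euc k) (b : Col S → ℝ),
    ∃ y, q y y0 = t ∧ e y = a ∧ ∀ φ, Van P y0 φ → q y (rt P y0 φ) = b φ

section Push

variable {W : Type} [Fintype W]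

/-- Sums over the colour classes. -/
noncomputable def push (col : W → Col S) (z : W → ℝ) (φ : Col S) : ℝ := ∑ w with col w = φ, z w

lemma sum_push (col : W → Col S) (z : W → ℝ) (F : Col S → ℝ) :
    ∑ φ, push col z φ * F φ = ∑ w, z w * F (col w) := by
  rw [← Finset.sum_fiberwise Finset.univ col fun w => z w * F (col w)]
  refine Finset.sum_congr rfl fun φ _ => ?_
  rw [push, Finset.sum_mul]
  exact Finset.sum_congr rfl fun w hw => by rw [(Finset.mem_filter.1 hw).2]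

lemma bf_push' (col : W → Col S) (g : Col S → Col S → ℝ) (z y : W → ℝ) :
    bf g (push col z) (push col y) = ∑ w, ∑ w', z w * y w' * g (col w) (col w') := by
  have h : ∀ φ, ∑ ψ, push col z φ * push col y ψ * g φ ψ =
      push col z φ * ∑ w', y w' * g φ (col w') := fun φ => by
    rw [← sum_push col y (g φ), Finset.mul_sum]
    simp only [mul_assoc]
  simp only [bf, h]
  rw [sum_push col z fun φ => ∑ w', y w' * g φ (col w')]
  simp only [Finset.mul_sum, mul_assoc]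

end Push

variable {V : Type} [Fintype V] {cV : V → ZMod 3} {T : SimpleGraph (V ⊕ S)}

lemma bf_push (hcol : ∀ w w', T.Adj w w' → Sum.map cV id w ≠ Sum.map cV id w') (c : ℝ)
    {z y : V ⊕ S → ℝ} (hz : z ∈ cone T) (hy : y ∈ cone T) (h : z + y ∈ cone T) :
    bf (gram c) (push (Sum.map cV id) z) (push (Sum.map cV id) y) = bf (gram c) z y := by
  rw [bf_push', bf]
  refine Finset.sum_congr rfl fun w _ => Finset.sum_congr rfl fun w' _ => ?_
  by_cases h1 : z w = 0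
  · simp [h1]
  by_cases h2 : y w' = 0
  · simp [h2]
  have := cone_inj hcol h ((add_ne hz hy).2 (Or.inl h1)) ((add_ne hz hy).2 (Or.inr h2))
  congr 1
  rcases w with x | s <;> rcases w' with x' | s'
  · by_cases e : x = x'
    · simp [gram, e]
    · have e' : cV x ≠ cV x' := fun k => e (inl_injective (this (by simp [k])))
      simp [gram, e, e']
  all_goals simp [gram]

lemma mem_HH {y y0 : Col S → ℝ} (h0 : y0 ∈ HH S) (h1 : q y y = -1) (h2 : q y y0 < 0) :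
    y ∈ HH S := by
  refine ⟨h1, lt_of_le_of_ne (not_lt.1 fun h => ?_) (TT_ne (by linarith))⟩
  have := q_le_neg_one (y := -y) ⟨by simp [h1], by rw [TT_neg]; linarith⟩ h0
  simp only [map_neg, LinearMap.neg_apply] at this
  linarith

variable {P : Piece S}

/-- The data of a local model at `x0`. -/
structure Data (P : Piece S) (T : SimpleGraph (V ⊕ S)) (cV : V → ZMod 3)
    (x0 : Mh P T (Sum.map cV id)) (k : ℕ) (c : ℝ) (U : Set (V ⊕ S)) (C : Type) [ConeAlg C] where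
  κ : Col S → ℝ
  e : (Col S → ℝ) →ₗ[ℝ] Euc k
  r : ℝ
  X : Cells T U (gram c) C
  hcol : ∀ w w', T.Adj w w' → Sum.map cV id w ≠ Sum.map cV id w'
  hU : ∀ w, w ∈ U ↔ ∀ s, x0.1.1 s ≠ 0 → T.Adj s w
  sp : Split P x0.1.2 c κ e
  pos : 0 < r
  van : ∀ y : HP S, dist ((steps P T _).p x0) y < 3 * r →
    ∀ φ, ∀ ρ ∈ P.R φ, q y.val ρ ≤ 0 → Van P x0.1.2 φ ∧ ρ = rt P x0.1.2 φ
  sep : ∀ y y' : HP S, dist ((steps P T _).p x0) y < 3 * r → dist ((steps P T _).p x0) y' < 3 * r →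
    ∀ g ∈ P.G, y'.val = g y.val → g = 1

namespace Data

variable {x0 : Mh P T (Sum.map cV id)} {k : ℕ} {c : ℝ} {U : Set (V ⊕ S)} {C : Type} [ConeAlg C]
  (D : Data P T cV x0 k c U C)


/-- the normal coordinates of `y`. -/
noncomputable def uy (y : Col S → ℝ) (φ : Col S) : ℝ := D.κ φ * q y (rt P x0.1.2 φ)

/-- the cone coordinates of `x`. -/
noncomputable def uu (x : Mh P T (Sum.map cV id : V ⊕ S → Col S)) (w : V ⊕ S) : ℝ := if x.1.1 w ≠ 0 then D.uy x.1.2 ((Sum.map cV id : V ⊕ S → Col S) w) else 0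

lemma uy_ne {y φ} (h : D.uy y φ ≠ 0) : Van P x0.1.2 φ := by
  by_contra hn
  exact h (by rw [uy, rt, dif_neg hn, map_zero, mul_zero])

lemma uy_nonneg {y} (hy : y ∈ Yt P) (φ) : 0 ≤ D.uy y φ := by
  by_cases h : Van P x0.1.2 φ
  · exact mul_nonneg (D.sp.pos φ).le (hy.2 φ _ (rt_mem h))
  · exact (not_not.1 fun k => h (D.uy_ne k)).ge

lemma uu_ne {x : Mh P T (Sum.map cV id : V ⊕ S → Col S)} {w} (h : D.uu x w ≠ 0) : x.1.1 w ≠ 0 ∧ Van P x0.1.2 ((Sum.map cV id : V ⊕ S → Col S) w) := by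
  have h1 : x.1.1 w ≠ 0 := fun k => h (by simp [uu, k])
  exact ⟨h1, D.uy_ne (by rwa [uu, if_pos h1] at h)⟩

lemma uu_nonneg (x : Mh P T (Sum.map cV id : V ⊕ S → Col S)) (w) : 0 ≤ D.uu x w := by
  unfold uu
  split_ifs
  exacts [D.uy_nonneg x.2.2.1 _, le_rfl]

lemma uu_mem (x : Mh P T (Sum.map cV id : V ⊕ S → Col S)) : D.uu x ∈ cone T :=
  cone_mono x.2.1 (D.uu_nonneg x) fun _ h => (D.uu_ne h).1

lemma van' {y : HP S} (hy : dist ((steps P T (Sum.map cV id)).p x0) y < 3 * D.r) {φ} (h : Van P y.val φ) :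
    Van P x0.1.2 φ ∧ rt P y.val φ = rt P x0.1.2 φ := D.van y hy φ _ (rt_mem h) (rt_van _ _).le

lemma st_of {x y : Mh P T (Sum.map cV id : V ⊕ S → Col S)} (hx : dist ((steps P T (Sum.map cV id)).p x0) ((steps P T (Sum.map cV id)).p x) < 3 * D.r)
    (hy : dist ((steps P T (Sum.map cV id)).p x0) ((steps P T (Sum.map cV id)).p y) < 3 * D.r) (h : x.1.1 + y.1.1 ∈ cone T) : (steps P T (Sum.map cV id)).St x y :=
  ⟨h, fun _ a b => (D.van' hx a).2.trans (D.van' hy b).2.symm⟩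

lemma supp_sub {x : Mh P T (Sum.map cV id : V ⊕ S → Col S)} (hx : x ∈ (steps P T (Sum.map cV id)).U x0 (3 * D.r)) {w} (h : x0.1.1 w ≠ 0) :
    x.1.1 w ≠ 0 := supp_of_add D.hcol hx.1.1 h fun k => Mh_not_van x0.2 h (D.van' hx.2 k).1

lemma mem_U {x : Mh P T (Sum.map cV id : V ⊕ S → Col S)} (hx : dist ((steps P T (Sum.map cV id)).p x0) ((steps P T (Sum.map cV id)).p x) < 3 * D.r)
    (h : ∀ w, x0.1.1 w ≠ 0 → x.1.1 w ≠ 0) : x ∈ (steps P T (Sum.map cV id)).U x0 (3 * D.r) :=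
  ⟨D.st_of (by rw [dist_self]; linarith [D.pos]) hx
    (add_mem (supp_clique x.2.1) x0.2.1 x.2.1 h fun _ h => h), hx⟩

lemma push_uu {x : Mh P T (Sum.map cV id : V ⊕ S → Col S)} (hx : dist ((steps P T (Sum.map cV id)).p x0) ((steps P T (Sum.map cV id)).p x) < 3 * D.r) :
    push (Sum.map cV id : V ⊕ S → Col S) (D.uu x) = D.uy x.1.2 := by
  funext φ
  by_cases h : Van P x.1.2 φ
  · rw [uy, ← (D.van' hx h).2, show ((steps P T (Sum.map cV id)).p x).val = x.1.2 from rfl, rt_van, mul_zero]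
    refine Finset.sum_eq_zero fun w hw => ?_
    by_contra k
    exact Mh_not_van x.2 (D.uu_ne k).1 ((Finset.mem_filter.1 hw).2 ▸ h)
  · obtain ⟨w, rfl, hw⟩ := Mh_exists x.2 h
    rw [push, sum_col D.hcol x.2.1 hw _ fun w h => by simp [uu, h], uu, if_pos hw]

/-- the chart. -/
noncomputable def φ (x : Mh P T (Sum.map cV id : V ⊕ S → Col S)) : Hyp (CProd (Euc k) C) :=
  ⟨⟨D.e x.1.2, @Function.invFun _ _ ⟨o⟩ D.X.co (D.uu x)⟩⟩

lemma co_φ {x : Mh P T (Sum.map cV id : V ⊕ S → Col S)} (hx : x ∈ (steps P T (Sum.map cV id)).U x0 (3 * D.r)) : D.X.co (D.φ x).val.2 = D.uu x := by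
  refine @Function.invFun_eq _ _ ⟨o⟩ _ _ (D.X.surj _ (D.uu_mem x) fun w hw => ?_)
  refine (D.hU w).2 fun s hs => x.2.1.2 s w ?_ (D.supp_sub hx hs) (D.uu_ne hw).1
  rintro rfl
  exact Mh_not_van x0.2 hs (D.uu_ne hw).2

lemma ip_φ {x y : Mh P T (Sum.map cV id : V ⊕ S → Col S)} (hx : x ∈ (steps P T (Sum.map cV id)).U x0 (3 * D.r)) (hy : y ∈ (steps P T (Sum.map cV id)).U x0 (3 * D.r))
    (h : (steps P T (Sum.map cV id)).St x y) :
    ip (D.φ x).val (D.φ y).val = q x.1.2 y.1.2 + q x.1.2 x0.1.2 * q y.1.2 x0.1.2 := by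
  have h1 : D.uu x + D.uu y ∈ cone T := add_mem (supp_clique h.1) (D.uu_mem x) (D.uu_mem y)
    (fun w k => (add_ne x.2.1 y.2.1).2 (Or.inl (D.uu_ne k).1))
    fun w k => (add_ne x.2.1 y.2.1).2 (Or.inr (D.uu_ne k).1)
  rw [CProd.ip_def, D.X.ip_cell _ _ (by rwa [D.co_φ hx, D.co_φ hy]), D.co_φ hx, D.co_φ hy,
    ← bf_push D.hcol c (D.uu_mem x) (D.uu_mem y) h1, D.push_uu hx.2, D.push_uu hy.2,
    D.sp.form x.1.2 y.1.2]
  show inner ℝ (D.e x.1.2) (D.e y.1.2) + bf (gram c) (D.uy x.1.2) (D.uy y.1.2) =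
    _ + _ + bf (gram c) (D.uy x.1.2) (D.uy y.1.2) + _
  ring

lemma tm_φ {x : Mh P T (Sum.map cV id : V ⊕ S → Col S)} (hx : x ∈ (steps P T (Sum.map cV id)).U x0 (3 * D.r)) :
    tm (D.φ x).val = -q x.1.2 x0.1.2 := by
  have := q_le_neg_one x.2.2.1.1 x0.2.2.1.1
  refine (sq_eq_sq₀ (tm_pos _).le (by linarith)).1 ?_
  rw [tm_sq, D.ip_φ hx hx ((steps P T (Sum.map cV id)).refl x), x.2.2.1.1.1]
  ring

lemma iso {x y : Mh P T (Sum.map cV id : V ⊕ S → Col S)} (hx : x ∈ (steps P T (Sum.map cV id)).U x0 (3 * D.r)) (hy : y ∈ (steps P T (Sum.map cV id)).U x0 (3 * D.r))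
    (h : (steps P T (Sum.map cV id)).St x y) : dist (D.φ x) (D.φ y) = dist ((steps P T (Sum.map cV id)).p x) ((steps P T (Sum.map cV id)).p y) := by
  rw [Hyp.dist_def, Lk, D.ip_φ hx hy h, D.tm_φ hx, D.tm_φ hy, dist_def]
  congr 1
  show _ = -q x.1.2 y.1.2
  ring

lemma φ_base : D.φ x0 = ⟨o⟩ := by
  have h0 := Steps.self_mem_U (A := (steps P T (Sum.map cV id))) x0 (by linarith [D.pos] : 0 < 3 * D.r)
  have := D.ip_φ h0 h0 ((steps P T (Sum.map cV id)).refl x0)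
  rw [x0.2.2.1.1.1, ← nm_sq] at this
  exact Hyp.ext (nm_eq_zero.1 (pow_eq_zero_iff two_ne_zero |>.1 (by linarith)))

/-- the point of hyperbolic space below `z`. -/
noncomputable def yy (z : Hyp (CProd (Euc k) C)) : Col S → ℝ :=
  (D.sp.onto (-tm z.val) z.val.1 fun φ => push (Sum.map cV id : V ⊕ S → Col S) (D.X.co z.val.2) φ / D.κ φ).choose

lemma yy_spec (z : Hyp (CProd (Euc k) C)) : q (D.yy z) x0.1.2 = -tm z.val ∧ D.e (D.yy z) = z.val.1 ∧
    D.uy (D.yy z) = push (Sum.map cV id : V ⊕ S → Col S) (D.X.co z.val.2) := by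
  obtain ⟨h1, h2, h3⟩ :=
    (D.sp.onto (-tm z.val) z.val.1 fun φ => push (Sum.map cV id : V ⊕ S → Col S) (D.X.co z.val.2) φ / D.κ φ).choose_spec
  refine ⟨h1, h2, funext fun φ => ?_⟩
  by_cases h : Van P x0.1.2 φ
  · rw [uy, yy, h3 φ h, mul_div_cancel₀ _ (D.sp.pos φ).ne']
  · rw [not_not.1 fun k => h (D.uy_ne k)]
    obtain ⟨s, rfl, hs⟩ := Mh_exists x0.2 h
    refine (Finset.sum_eq_zero fun w hw => ?_).symm
    by_contra k
    exact D.hcol _ _ ((D.hU w).1 (D.X.supp _ w k) s hs) (Finset.mem_filter.1 hw).2.symm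

lemma yy_HH (z : Hyp (CProd (Euc k) C)) : D.yy z ∈ HH S := by
  obtain ⟨h1, h2, h3⟩ := D.yy_spec z
  refine mem_HH x0.2.2.1.1 ?_ (by linarith [tm_pos z.val])
  have h4 := D.sp.form (D.yy z) (D.yy z)
  change _ = _ + _ + bf (gram c) (D.uy (D.yy z)) (D.uy (D.yy z)) at h4
  rw [h1, h2, h3, bf_push D.hcol c (D.X.mem _) (D.X.mem _) (D.X.self_cell _), ← D.X.ip_self] at h4
  have h5 := tm_sq z.val
  rw [CProd.ip_def, inner_ip] at h5
  linarith

lemma yy_dist (z : Hyp (CProd (Euc k) C)) :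
    dist ((steps P T (Sum.map cV id)).p x0) ⟨D.yy z, D.yy_HH z⟩ = dist z ⟨o⟩ := by
  rw [dist_def, Hyp.dist_def, Lk, ip_o', tm_o, q_comm]
  show arcosh (-q (D.yy z) x0.1.2) = _
  rw [(D.yy_spec z).1]
  simp

lemma yy_lt {z : Hyp (CProd (Euc k) C)} (hz : z ∈ ball (D.φ x0) (3 * D.r)) :
    dist ((steps P T (Sum.map cV id)).p x0) ⟨D.yy z, D.yy_HH z⟩ < 3 * D.r := by
  rw [D.yy_dist, ← D.φ_base]
  exact hz

lemma yy_Yt {z : Hyp (CProd (Euc k) C)} (hz : z ∈ ball (D.φ x0) (3 * D.r)) : D.yy z ∈ Yt P := by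
  refine ⟨D.yy_HH z, fun φ ρ hρ => not_lt.1 fun h => ?_⟩
  obtain ⟨-, rfl⟩ := D.van _ (D.yy_lt hz) φ ρ hρ h.le
  have h1 : 0 ≤ D.uy (D.yy z) φ := by
    rw [(D.yy_spec z).2.2]
    exact Finset.sum_nonneg fun w _ => D.X.nonneg _ w
  exact absurd (mul_neg_of_pos_of_neg (D.sp.pos φ) h) (not_lt.2 h1)

/-- the cell of `z`. -/
def σ (z : Hyp (CProd (Euc k) C)) : Set (V ⊕ S) := {w | x0.1.1 w ≠ 0 ∨ D.X.co z.val.2 w ≠ 0}

lemma σ_clique (z : Hyp (CProd (Euc k) C)) : T.IsClique (D.σ z) := by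
  rintro w (h | h) w' (h' | h') hne
  · exact x0.2.1.2 w w' hne h h'
  · exact (D.hU w').1 (D.X.supp _ _ h') w h
  · exact ((D.hU w).1 (D.X.supp _ _ h) w' h').symm
  · exact (D.X.mem _).2 w w' hne h h'

lemma pt_mem {z : Hyp (CProd (Euc k) C)} (hz : z ∈ ball (D.φ x0) (3 * D.r)) :
    Sm.mk P (Sum.map cV id : V ⊕ S → Col S) (D.σ z) (D.yy z) ∈ Mh P T (Sum.map cV id : V ⊕ S → Col S) := by
  refine Sm.mk_mem D.hcol (D.σ_clique z) (D.yy_Yt hz) fun φ hφ => ?_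
  by_cases h : Van P x0.1.2 φ
  · have h1 : D.uy (D.yy z) φ ≠ 0 :=
      mul_ne_zero (D.sp.pos φ).ne' fun k => hφ ⟨_, rt_mem h, k⟩
    rw [(D.yy_spec z).2.2] at h1
    obtain ⟨w, hw, k⟩ := Finset.exists_ne_zero_of_sum_ne_zero h1
    exact ⟨w, Or.inr k, (Finset.mem_filter.1 hw).2⟩
  · obtain ⟨w, e, hw⟩ := Mh_exists x0.2 h
    exact ⟨w, Or.inl hw, e⟩

/-- the inverse chart. -/
noncomputable def ψ (z : Hyp (CProd (Euc k) C)) : Mh P T (Sum.map cV id : V ⊕ S → Col S) :=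
  if h : Sm.mk P (Sum.map cV id : V ⊕ S → Col S) (D.σ z) (D.yy z) ∈ Mh P T (Sum.map cV id : V ⊕ S → Col S) then ⟨_, h⟩ else x0

lemma ψ_eq {z : Hyp (CProd (Euc k) C)} (hz : z ∈ ball (D.φ x0) (3 * D.r)) :
    D.ψ z = ⟨_, D.pt_mem hz⟩ := dif_pos _

lemma ψ_mem {z : Hyp (CProd (Euc k) C)} (hz : z ∈ ball (D.φ x0) (3 * D.r)) :
    D.ψ z ∈ (steps P T (Sum.map cV id)).U x0 (3 * D.r) := by
  rw [D.ψ_eq hz]
  exact D.mem_U (D.yy_lt hz) fun w hw => (mk_ne_zero (D.yy_Yt hz)).2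
    ⟨Or.inl hw, fun k => Mh_not_van x0.2 hw (D.van' (D.yy_lt hz) k).1⟩

lemma right {z : Hyp (CProd (Euc k) C)} (hz : z ∈ ball (D.φ x0) (3 * D.r)) : D.φ (D.ψ z) = z := by
  obtain ⟨-, h2, h3⟩ := D.yy_spec z
  refine Hyp.ext (CProd.ext ?_ (D.X.inj ?_))
  · rw [D.ψ_eq hz]
    exact h2
  rw [D.co_φ (D.ψ_mem hz), D.ψ_eq hz]
  funext w
  by_cases h : D.X.co z.val.2 w = 0
  · rw [h]
    by_contra k
    obtain ⟨k1, k2⟩ := D.uu_ne k
    exact Mh_not_van x0.2 (((mk_ne_zero (D.yy_Yt hz)).1 k1).1.resolve_right fun k => k h) k2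
  · have h4 : D.uy (D.yy z) ((Sum.map cV id : V ⊕ S → Col S) w) = D.X.co z.val.2 w := by
      rw [h3, push, sum_col D.hcol (D.X.mem _) h _ fun _ h => h]
    have h5 : (Sm.mk P (Sum.map cV id : V ⊕ S → Col S) (D.σ z) (D.yy z)).1 w ≠ 0 := by
      refine (mk_ne_zero (D.yy_Yt hz)).2 ⟨Or.inr h, fun k => h ?_⟩
      rw [← h4, uy, ← (D.van' (D.yy_lt hz) k).2]
      exact mul_eq_zero_of_right _ (rt_van _ _)
    exact (if_pos h5).trans h4

lemma left {x : Mh P T (Sum.map cV id : V ⊕ S → Col S)} (hx : x ∈ (steps P T (Sum.map cV id)).U x0 (3 * D.r)) : D.ψ (D.φ x) = x := by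
  have hz : D.φ x ∈ ball (D.φ x0) (3 * D.r) := by
    rw [mem_ball', D.iso (Steps.self_mem_U _ (by linarith [D.pos])) hx hx.1]
    exact hx.2
  obtain ⟨h1, h2, h3⟩ := D.yy_spec (D.φ x)
  rw [D.tm_φ hx, neg_neg] at h1
  rw [D.co_φ hx, D.push_uu hx.2] at h3
  have h4 := D.sp.form (D.yy (D.φ x)) x.1.2
  have h5 := D.sp.form x.1.2 x.1.2
  change _ = _ + _ + bf (gram c) (D.uy (D.yy (D.φ x))) (D.uy x.1.2) at h4
  change _ = _ + inner ℝ (D.φ x).val.1 _ + bf (gram c) (D.uy x.1.2) (D.uy x.1.2) at h5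
  rw [h1, h2, h3, ← h5, x.2.2.1.1.1] at h4
  have h6 : (⟨_, D.yy_HH (D.φ x)⟩ : HP S) = (steps P T (Sum.map cV id)).p x := by
    refine dist_eq_zero.1 ?_
    rw [dist_def]
    show arcosh (-q (D.yy (D.φ x)) x.1.2) = 0
    rw [h4, neg_neg, arcosh_zero]
  rw [D.ψ_eq hz]
  refine Subtype.ext (Mh_ext D.hcol (D.pt_mem hz) x.2 (supp_clique x.2.1) (fun w hw => ?_)
    (fun _ h => h) (congrArg HP.val h6))
  rcases ((mk_ne_zero (D.yy_Yt hz)).1 hw).1 with h | h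
  · exact D.supp_sub hx h
  · rw [D.co_φ hx] at h
    exact (D.uu_ne h).1

theorem model : (steps P T (Sum.map cV id)).Model x0 D.r D.φ D.ψ where
  pos := D.pos
  clos x hx y h hy := (D.mem_U hy fun w hw => supp_of_add D.hcol h.1 (D.supp_sub hx hw)
    fun k => Mh_not_van x0.2 hw (D.van' hy k).1).1
  iso x hx y hy h := D.iso hx hy h
  mem z hz := D.ψ_mem hz
  right z hz := D.right hz
  left x hx := D.left hx
  sep x hx y hy := fun ⟨h, g, hg, e⟩ => by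
    obtain rfl := D.sep _ _ hx.2 hy.2 g hg e
    exact Subtype.ext (Prod.ext h.symm e.symm)
  cell z hz := by
    have hc : Continuous fun z : Hyp (CProd (Euc k) C) => D.X.co z.val.2 :=
      D.X.continuous_co.comp (CProd.continuous_snd.comp Hyp.continuous_val)
    have h1 : ∀ᶠ z' in 𝓝 z, ∀ w, D.X.co z.val.2 w ≠ 0 → D.X.co z'.val.2 w ≠ 0 := by
      refine eventually_all.2 fun w => ?_
      by_cases h : D.X.co z.val.2 w = 0
      · exact Eventually.of_forall fun _ h' => absurd h h'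
      · exact ((((continuous_apply w).comp hc).continuousAt).eventually_ne h).mono fun _ h _ => h
    filter_upwards [h1, isOpen_ball.mem_nhds hz] with z' h2 hz'
    refine D.st_of (D.ψ_mem hz).2 (D.ψ_mem hz').2
      (add_mem (D.σ_clique z') (D.ψ z).2.1 (D.ψ z').2.1 (fun w hw => ?_) fun w hw => ?_)
    · rw [D.ψ_eq hz] at hw
      exact ((mk_ne_zero (D.yy_Yt hz)).1 hw).1.imp_right (h2 w)
    · rw [D.ψ_eq hz'] at hw
      exact ((mk_ne_zero (D.yy_Yt hz')).1 hw).1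
  geo a ha b hb := ⟨Hyp.geo a b, ⟨Hyp.geo_zero a b, Hyp.geo_one a b,
    fun _ hs _ ht => Hyp.dist_geo_geo a b hs ht⟩, fun _ ht => Hyp.geo_mem_ball ha hb ht⟩

end Data

/-- a radius for the local model. -/
theorem exists_data (hcol : ∀ w w', T.Adj w w' → Sum.map cV id w ≠ Sum.map cV id w')
    (x0 : Mh P T (Sum.map cV id)) {k : ℕ} {c : ℝ} {κ : Col S → ℝ} {e : (Col S → ℝ) →ₗ[ℝ] Euc k}
    (sp : Split P x0.1.2 c κ e) {U : Set (V ⊕ S)} (hU : ∀ w, w ∈ U ↔ ∀ s, x0.1.1 s ≠ 0 → T.Adj s w)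
    {C : Type} [ConeAlg C] (X : Cells T U (gram c) C) :
    ∃ D : Data P T cV x0 k c U C, D.X = X := by
  obtain ⟨N, h1, h2, h3⟩ := exists_sep P x0.2.2.1.1
  obtain ⟨ε, hε, he⟩ := exists_ball ((steps P T (Sum.map cV id)).p x0)
    ((van_nhds x0.2.2.1).and (h1.mem_nhds h2))
  refine ⟨⟨κ, e, ε / 3, X, hcol, hU, sp, by positivity, fun y hy => (he y (by linarith)).1,
    fun y y' hy hy' g hg k => h3 g hg _ y.mem (he y (by linarith)).2 ?_⟩, rfl⟩
  rw [← k]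
  exact (he y' (by linarith)).2

end Pool.Agent.Lib.MP_c2693b_gt.Cm
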