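import Pool.Agent.Lib.MP_c2693b_gt.CH0
import Pool.Agent.Lib.MP_c2693b_gt.Ob.FourCore
import Pool.Agent.Lib.MP_c2693b_gt.TriDefs

/-! Local geodesics in one homotopy class agree; edge paths of a clique complex. -/

open Set

namespace Pool.Agent.Lib.MP_c2693b_gt

theorem CHCover.locGeo_unique {Y X : Type} [MetricSpace Y] [MetricSpace X] {p : Y → X} {ρ : ℝ}
    {geo : Y → Y → ℝ → Y} (h : CHCover p ρ geo) {x y : X} {γ γ' : Path x y} {L L' : ℝ}
    (g : LocGeo γ.extend L) (g' : LocGeo γ'.extend L') (hh : γ.Homotopic γ') : γ = γ' := by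
  have cov := h.univ.1
  obtain ⟨a, ha⟩ := h.univ.2.1 x
  obtain ⟨b, hb⟩ := Lifts.ex cov γ ha
  obtain ⟨b', hb'⟩ := Lifts.ex cov γ' ha
  obtain rfl := Lifts.uniq cov hh hb hb'
  have key : ∀ (δ : Path x y) (K : ℝ), LocGeo δ.extend K → Lifts p δ a b →
      ∀ t, δ t = p (geo a b t) := by
    rintro δ K k ⟨Γ, e⟩ t
    have e' : p ∘ Γ.extend = δ.extend := funext fun s => e _
    have := (h.loc _ K (h.lift _ K Γ.continuous_extend.continuousOn (e' ▸ k))).2 t t.2
    rw [Path.extend_zero, Path.extend_one, Path.extend_extends'] at this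
    rw [← e, this]
  ext t
  rw [key γ L g hb, key γ' L' g' hb']

/-- two local geodesics with a straight corner -/
theorem locGeo_trans {X : Type} [MetricSpace X] {x y z : X} {γ : Path x y} {δ : Path y z} {L : ℝ}
    (g : LocGeo γ.extend L) (d : LocGeo δ.extend L)
    (c : ∃ η, 0 < η ∧ ∀ s ∈ Icc (0 : ℝ) η, ∀ t ∈ Icc (0 : ℝ) η,
      dist (γ.extend (1 - s)) (δ.extend t) = L * (s + t)) :
    LocGeo (γ.trans δ).extend (2 * L) := by
  have e1 : ∀ s, s ≤ 1 / 2 → (γ.trans δ).extend s = γ.extend (2 * s) := fun s hs =>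
    Path.extend_trans_of_le_half _ _ hs
  have e2 : ∀ s, 1 / 2 ≤ s → (γ.trans δ).extend s = δ.extend (2 * s - 1) := fun s hs =>
    Path.extend_trans_of_half_le _ _ hs
  have ab : ∀ a b : ℝ, |2 * a - 2 * b| = 2 * |a - b| := fun a b => by
    rw [← mul_sub, abs_mul, abs_two]
  intro t ht
  rcases lt_trichotomy t (1 / 2) with h | h | h
  · obtain ⟨η, hη, k⟩ := g (2 * t) ⟨by linarith [ht.1], by linarith⟩
    refine ⟨min (η / 2) (1 / 2 - t), lt_min (by linarith) (by linarith), ?_⟩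
    intro s hs s' hs' a b
    rw [le_min_iff] at a b
    have a' := (abs_le.1 a.2).2
    have b' := (abs_le.1 b.2).2
    rw [e1 s (by linarith), e1 s' (by linarith), k _ ⟨by linarith [hs.1], by linarith⟩ _
      ⟨by linarith [hs'.1], by linarith⟩ (by rw [ab]; linarith [a.1]) (by rw [ab]; linarith [b.1]),
      ab]
    ring
  · subst h
    obtain ⟨η1, h1, k1⟩ := g 1 ⟨zero_le_one, le_rfl⟩
    obtain ⟨η2, h2, k2⟩ := d 0 ⟨le_rfl, zero_le_one⟩
    obtain ⟨η3, h3, k3⟩ := c
    refine ⟨min (η1 / 2) (min (η2 / 2) (η3 / 2)), by positivity, ?_⟩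
    have cross : ∀ s s' : ℝ, s ≤ 1 / 2 → 1 / 2 ≤ s' → 1 / 2 - s ≤ η3 / 2 → s' - 1 / 2 ≤ η3 / 2 →
        dist ((γ.trans δ).extend s) ((γ.trans δ).extend s') = 2 * L * |s - s'| := by
      intro s s' a b a' b'
      rw [e1 s a, e2 s' b, show 2 * s = 1 - (1 - 2 * s) by ring,
        k3 _ ⟨by linarith, by linarith⟩ _ ⟨by linarith, by linarith⟩, abs_of_nonpos (by linarith)]
      ring
    intro s hs s' hs' a b
    simp only [le_min_iff, abs_le] at a b
    rcases le_total s (1 / 2) with u | u <;> rcases le_total s' (1 / 2) with v | v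
    · rw [e1 s u, e1 s' v, k1 _ ⟨by linarith [hs.1], by linarith⟩ _
        ⟨by linarith [hs'.1], by linarith⟩ (abs_le.2 ⟨by linarith [a.1.1], by linarith⟩)
        (abs_le.2 ⟨by linarith [b.1.1], by linarith⟩), ab]
      ring
    · exact cross s s' u v (by linarith [a.2.2.1]) b.2.2.2
    · rw [dist_comm, abs_sub_comm]
      exact cross s' s v u (by linarith [b.2.2.1]) a.2.2.2
    · rw [e2 s u, e2 s' v, k2 _ ⟨by linarith, by linarith [hs.2]⟩ _
        ⟨by linarith, by linarith [hs'.2]⟩ (abs_le.2 ⟨by linarith, by linarith [a.2.1.2]⟩)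
        (abs_le.2 ⟨by linarith, by linarith [b.2.1.2]⟩), sub_sub_sub_cancel_right, ab]
      ring
  · obtain ⟨η, hη, k⟩ := d (2 * t - 1) ⟨by linarith, by linarith [ht.2]⟩
    refine ⟨min (η / 2) (t - 1 / 2), lt_min (by linarith) (by linarith), ?_⟩
    intro s hs s' hs' a b
    rw [le_min_iff] at a b
    have a' := (abs_le.1 a.2).1
    have b' := (abs_le.1 b.2).1
    rw [e2 s (by linarith), e2 s' (by linarith), k _ ⟨by linarith, by linarith [hs.2]⟩ _
      ⟨by linarith, by linarith [hs'.2]⟩ (by rw [sub_sub_sub_cancel_right, ab]; linarith [a.1])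
      (by rw [sub_sub_sub_cancel_right, ab]; linarith [b.1]), sub_sub_sub_cancel_right, ab]
    ring

section Edge

variable {V M : Type} [DecidableEq V] [TopologicalSpace M]

/-- the point of the edge `u v` with parameter `t` -/
def edgePt (α : ℝ → ℝ) (u v : V) (t : ℝ) : V → ℝ := Pi.single u (α (1 - t)) + Pi.single v (α t)

/-- the punctured cone over a set of vertices -/
def face (σ : Set V) : Set (V → ℝ) := {z | (∀ w, 0 ≤ z w) ∧ (∀ w, z w ≠ 0 → w ∈ σ) ∧ z ≠ 0}

omit [DecidableEq V] in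
theorem face_convex (σ : Set V) : Convex ℝ (face σ) := by
  rintro x ⟨x1, x2, x3⟩ y ⟨y1, y2, y3⟩ a b ha hb hab
  refine ⟨fun w => add_nonneg (mul_nonneg ha (x1 w)) (mul_nonneg hb (y1 w)), fun w hw => ?_,
    fun h => ?_⟩
  · by_contra hn
    have e1 : x w = 0 := by_contra fun h => hn (x2 w h)
    have e2 : y w = 0 := by_contra fun h => hn (y2 w h)
    exact hw (by simp [e1, e2])
  · have k : ∀ w, a * x w + b * y w = 0 := fun w => congrFun h w
    rcases ha.eq_or_lt with h0 | h0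
    · subst h0
      exact y3 (funext fun w => by have := k w; rw [zero_add] at hab; subst hab; simpa using this)
    · refine x3 (funext fun w => ?_)
      have := k w
      have t1 := mul_nonneg ha (x1 w)
      have t2 := mul_nonneg hb (y1 w)
      exact (mul_eq_zero.1 (by linarith : a * x w = 0)).resolve_left h0.ne'

omit [DecidableEq V] in
theorem face_sub {A : SimpleGraph V} {σ : Set V} (h : A.IsClique σ) :
    face σ ⊆ {z | z ∈ Tri.cone A ∧ z ≠ 0} := fun _ hz =>
  ⟨⟨hz.1, fun w w' hw a b => h (hz.2.1 w a) (hz.2.1 w' b) hw⟩, hz.2.2⟩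

theorem edgePt_mem {α : ℝ → ℝ} (h0 : α 0 = 0) (hp : ∀ t ∈ Ioc (0 : ℝ) 1, 0 < α t) {σ : Set V}
    {u v : V} (hu : u ∈ σ) (hv : v ∈ σ) {t : ℝ} (ht : t ∈ Icc (0 : ℝ) 1) :
    edgePt α u v t ∈ face σ := by
  have nn : ∀ s ∈ Icc (0 : ℝ) 1, 0 ≤ α s := fun s hs => by
    rcases hs.1.eq_or_lt with e | e
    · rw [← e, h0]
    · exact (hp s ⟨e, hs.2⟩).le
  have a := nn (1 - t) ⟨by linarith [ht.2], by linarith [ht.1]⟩
  have b := nn t ht
  have p1 : ∀ w, 0 ≤ (Pi.single u (α (1 - t)) : V → ℝ) w := fun w => by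
    rw [Pi.single_apply]; split_ifs <;> simp [a]
  have p2 : ∀ w, 0 ≤ (Pi.single v (α t) : V → ℝ) w := fun w => by
    rw [Pi.single_apply]; split_ifs <;> simp [b]
  refine ⟨fun w => add_nonneg (p1 w) (p2 w), fun w hw => ?_, fun h => ?_⟩
  · by_contra hn
    have e1 : w ≠ u := fun e => hn (e ▸ hu)
    have e2 : w ≠ v := fun e => hn (e ▸ hv)
    exact hw (by simp [edgePt, e1, e2])
  · rcases ht.1.eq_or_lt with e | e
    · have := congrFun h u
      have q := p2 u
      have r := hp (1 - t) ⟨by linarith, by linarith⟩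
      simp only [edgePt, Pi.add_apply, Pi.single_eq_same, Pi.zero_apply] at this
      linarith
    · have := congrFun h v
      have q := p1 v
      have r := hp t ⟨e, ht.2⟩
      simp only [edgePt, Pi.add_apply, Pi.single_eq_same, Pi.zero_apply] at this
      linarith

theorem edgePt_cont {α : ℝ → ℝ} (hc : Continuous α) (u v : V) : Continuous (edgePt α u v) := by
  refine continuous_pi fun w => ?_
  simp only [edgePt, Pi.add_apply, Pi.single_apply]
  split_ifs <;> fun_prop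

omit [DecidableEq V] in
/-- paths that factor through one face are homotopic -/
theorem face_homotopic {Φ : (V → ℝ) → M} {σ : Set V} (hΦ : ContinuousOn Φ (face σ)) {x y : M}
    {γ γ' : Path x y} (c c' : unitInterval → V → ℝ) (hc : Continuous c) (hc' : Continuous c')
    (m : ∀ t, c t ∈ face σ) (m' : ∀ t, c' t ∈ face σ) (e : ∀ t, γ t = Φ (c t))
    (e' : ∀ t, γ' t = Φ (c' t)) (e0 : c 0 = c' 0) (e1 : c 1 = c' 1) : γ.Homotopic γ' := by
  refine ⟨⟨⟨⟨fun p => Φ ((1 - (p.1 : ℝ)) • c p.2 + (p.1 : ℝ) • c' p.2), ?_⟩, ?_, ?_⟩, ?_⟩⟩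
  · refine hΦ.comp_continuous (by fun_prop) fun p => ?_
    exact face_convex σ (m _) (m' _) (by linarith [p.1.2.2]) p.1.2.1 (by ring)
  · intro t; simp [e]
  · intro t; simp [e']
  · intro s t ht
    rcases ht with rfl | rfl
    · simp [e, ← e0, ← add_smul]
    · simp [e, ← e1, ← add_smul]

end Edge

end Pool.Agent.Lib.MP_c2693b_gt
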