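import Pool.Agent.Lib.MP_c2693b_gt.SmMh
import Pool.Agent.Lib.MP_c2693b_gt.NoSmA

/-! The map of the cone over a 3-coloured clique complex `K` into `Mh`. -/

set_option linter.unusedSectionVars false

open scoped BigOperators Topology Classical
open Set Filter Real

namespace Pool.Agent.Lib.MP_c2693b_gt.KMap

open Ar Tri Sm

variable {S : Type} [Fintype S] [DecidableEq S]

theorem c_sq : √2 * √2 = (2 : ℝ) := Real.mul_self_sqrt (by norm_num)

theorem c_gt : (1 : ℝ) < √2 := Real.lt_sqrt_of_sq_lt (by norm_num)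

theorem c_lt : √2 < (2 : ℝ) := (Real.sqrt_lt' (by norm_num)).2 (by norm_num)

/-- the vertices of the triangle, not normalised. -/
noncomputable def oo (i : ZMod 3) : Col S → ℝ :=
  Sum.elim (fun j => if j = i then √2 - 2 else -√2) fun _ => 0

theorem TT_oo (i : ZMod 3) : TT (oo i : Col S → ℝ) = -(2 + √2) := by
  have h : ∀ j : ZMod 3, (oo i : Col S → ℝ) (.inl j) = -√2 + if j = i then 2 * √2 - 2 else 0 :=
    fun j => by
      simp only [oo, Sum.elim_inl]
      split_ifs <;> ring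
  simp only [TT, h, Finset.sum_add_distrib, Finset.sum_const, Finset.card_univ, ZMod.card,
    Finset.sum_ite_eq', Finset.mem_univ, if_true, nsmul_eq_mul]
  push_cast
  ring

theorem q_oo_nu (i j : ZMod 3) :
    q (oo i : Col S → ℝ) (nu (.inl j)) = if j = i then 2 * √2 else 0 := by
  rw [q_inl, TT_oo]
  simp only [oo, Sum.elim_inl]
  split_ifs
  · linear_combination 2 * c_sq
  · ring

theorem oo_eq (j : ZMod 3) :
    (oo j : Col S → ℝ) = ∑ k : ZMod 3, (if k = j then √2 - 2 else -√2) • nu (.inl k) := by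
  funext φ
  simp only [Finset.sum_apply, Pi.smul_apply, smul_eq_mul]
  rcases φ with k | s <;> simp [oo, nu, Pi.single_apply]

theorem q_oo_oo (i j : ZMod 3) :
    q (oo i : Col S → ℝ) (oo j) = if i = j then -(4 * (√2 - 1)) else -4 := by
  rw [oo_eq j, map_sum]
  simp only [map_smul, q_oo_nu, smul_eq_mul, mul_ite, mul_zero, Finset.sum_ite_eq',
    Finset.mem_univ, if_true]
  split_ifs
  · linear_combination 2 * c_sq
  · linear_combination -2 * c_sq

theorem q_oo_le (i j : ZMod 3) : q (oo i : Col S → ℝ) (oo j) ≤ -(4 * (√2 - 1)) := by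
  rw [q_oo_oo]
  split_ifs
  · exact le_rfl
  · linarith [c_lt]

variable {V : Type} [Fintype V] (κ : V → ZMod 3)

variable (S) in
/-- the linear map to Minkowski space. -/
noncomputable def YY (z : V → ℝ) : Col S → ℝ := ∑ w, z w • oo (κ w)

variable (S) in
/-- the map to the triangle. -/
noncomputable def yy (z : V → ℝ) : Col S → ℝ := (√(-q (YY S κ z) (YY S κ z)))⁻¹ • YY S κ z

variable {κ} {z : V → ℝ}

theorem sum_pos (h : ∀ w, 0 ≤ z w) (h0 : z ≠ 0) : 0 < ∑ w, z w := by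
  obtain ⟨w, hw⟩ := Function.ne_iff.1 h0
  exact Finset.sum_pos' (fun w _ => h w) ⟨w, Finset.mem_univ w, (h w).lt_of_ne' hw⟩

theorem q_YY_neg (h : ∀ w, 0 ≤ z w) (h0 : z ≠ 0) : 0 < -q (YY S κ z) (YY S κ z) := by
  have h1 : ∀ j, q (YY S κ z) (oo j) ≤ -(4 * (√2 - 1)) * ∑ w, z w := fun j => by
    simp only [YY, map_sum, map_smul, LinearMap.sum_apply, LinearMap.smul_apply, smul_eq_mul,
      Finset.mul_sum]
    exact Finset.sum_le_sum fun w _ => by nlinarith [q_oo_le (S := S) (κ w) j, h w]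
  have h2 : q (YY S κ z) (YY S κ z) ≤ (∑ w, z w) * (-(4 * (√2 - 1)) * ∑ w, z w) := by
    nth_rewrite 2 [YY]
    simp only [map_sum, map_smul, smul_eq_mul]
    rw [Finset.sum_mul]
    exact Finset.sum_le_sum fun w _ => mul_le_mul_of_nonneg_left (h1 _) (h w)
  have h3 := sum_pos h h0
  nlinarith [mul_pos (mul_pos h3 h3) (sub_pos.2 c_gt)]

theorem q_YY_nu (i : ZMod 3) :
    q (YY S κ z) (nu (.inl i)) = 2 * √2 * ∑ w with κ w = i, z w := by
  simp only [YY, map_sum, map_smul, LinearMap.sum_apply, LinearMap.smul_apply, smul_eq_mul,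
    q_oo_nu, Finset.mul_sum, Finset.sum_filter]
  refine Finset.sum_congr rfl fun w _ => ?_
  by_cases e : κ w = i
  · rw [if_pos e, if_pos e.symm, mul_comm]
  · rw [if_neg e, if_neg (Ne.symm e), mul_zero, mul_zero]

theorem q_yy_nu (i : ZMod 3) : q (yy S κ z) (nu (.inl i)) =
    (√(-q (YY S κ z) (YY S κ z)))⁻¹ * (2 * √2 * ∑ w with κ w = i, z w) := by
  rw [yy, map_smul, LinearMap.smul_apply, smul_eq_mul, q_YY_nu]

theorem yy_mem (h : ∀ w, 0 ≤ z w) (h0 : z ≠ 0) : yy S κ z ∈ beta S := by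
  have h1 := q_YY_neg (S := S) (κ := κ) h h0
  have h2 := Real.sqrt_pos.2 h1
  have h3 := Real.mul_self_sqrt h1.le
  refine ⟨⟨?_, ?_⟩, fun s => ?_, fun i => ?_⟩
  · simp only [yy, map_smul, LinearMap.smul_apply, smul_eq_mul]
    field_simp
    linarith
  · have e : TT (YY S κ z) = -(2 + √2) * ∑ w, z w := by
      rw [YY, Finset.mul_sum, TT]
      simp only [Finset.sum_apply, Pi.smul_apply, smul_eq_mul]
      rw [Finset.sum_comm]
      refine Finset.sum_congr rfl fun w _ => ?_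
      rw [← Finset.mul_sum, mul_comm, ← TT_oo (S := S) (κ w), TT]
    rw [yy, TT_smul, e]
    have := sum_pos h h0
    exact mul_neg_of_pos_of_neg (inv_pos.2 h2)
      (mul_neg_of_neg_of_pos (by linarith [c_gt]) this)
  · simp [yy, YY, oo, Finset.sum_apply]
  · rw [q_yy_nu]
    have := Finset.sum_nonneg (s := Finset.univ.filter fun w => κ w = i) fun w _ => h w
    positivity

theorem van_yy (P : Piece S) (h : ∀ w, 0 ≤ z w) (h0 : z ≠ 0) (i : ZMod 3) :
    Van P (yy S κ z) (.inl i) ↔ ∀ w, κ w = i → z w = 0 := by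
  have h2 := Real.sqrt_pos.2 (q_YY_neg (S := S) (κ := κ) h h0)
  rw [van_beta (yy_mem h h0), q_yy_nu, mul_eq_zero, mul_eq_zero, or_iff_right (inv_pos.2 h2).ne',
    or_iff_right (by linarith [c_gt]), Finset.sum_eq_zero_iff_of_nonneg fun w _ => h w]
  simp

theorem van_yy_inr (P : Piece S) (h : ∀ w, 0 ≤ z w) (h0 : z ≠ 0) (s : S) :
    Van P (yy S κ z) (.inr s) := by
  rw [van_beta (yy_mem h h0), q_inr, (yy_mem h h0).2.1, mul_zero]

theorem cont_YY : Continuous (YY S κ) := by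
  unfold YY
  fun_prop

theorem contOn_yy : ContinuousOn (yy S κ) {z | (∀ w, 0 ≤ z w) ∧ z ≠ 0} := by
  refine ContinuousOn.smul (f := fun z => (√(-q (YY S κ z) (YY S κ z)))⁻¹)
    (ContinuousOn.inv₀ ?_ fun z hz => ?_) (cont_YY (S := S) (κ := κ)).continuousOn
  · exact (((cont_qq (S := S)).continuous.comp cont_YY).neg.sqrt).continuousOn
  · exact (Real.sqrt_pos.2 (q_YY_neg (S := S) (κ := κ) hz.1 hz.2)).ne'

variable (κ) in
/-- the colouring of the vertices of the sphere. -/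
def kcol : V ⊕ S → Col S := Sum.map κ id

variable (κ) in
/-- the map to `Mh`. -/
noncomputable def Ψ (P : Piece S) (z : V → ℝ) : (V ⊕ S → ℝ) × (Col S → ℝ) :=
  mk P (kcol κ) (Sum.inl '' {w | z w ≠ 0}) (yy S κ z)

variable {P : Piece S} {K : SimpleGraph V}

theorem Ψ_snd : (Ψ κ P z).2 = yy S κ z := rfl

theorem kcol_adj (hκ : ∀ x y, K.Adj x y → κ x ≠ κ y) (X : Sphere K S) (w w' : V ⊕ S)
    (h : X.T.Adj w w') : kcol κ w ≠ kcol κ w' := by
  rcases w with x | s <;> rcases w' with y | t <;> simp only [kcol, Sum.map_inl, Sum.map_inr, id]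
  · exact fun e => hκ x y ((X.t1 x y).1 h) (Sum.inl_injective e)
  · exact Sum.inl_ne_inr
  · exact Sum.inr_ne_inl
  · exact h.ne.imp fun e => congrArg _ (Sum.inr_injective e)

theorem clique_inl (X : Sphere K S) {σ : Set V} (h : K.IsClique σ) :
    X.T.IsClique (Sum.inl '' σ) := by
  rintro _ ⟨x, hx, rfl⟩ _ ⟨y, hy, rfl⟩ hne
  exact (X.t1 x y).2 (h hx hy fun e => hne (congrArg _ e))

theorem Ψ_ne_zero (h : ∀ w, 0 ≤ z w) (h0 : z ≠ 0) {w : V ⊕ S} :
    (Ψ κ P z).1 w ≠ 0 ↔ ∃ x, z x ≠ 0 ∧ Sum.inl x = w := by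
  rw [Ψ, mk_ne_zero (beta_sub (yy_mem h h0))]
  refine ⟨fun h => h.1, fun ⟨x, hx, e⟩ => ⟨⟨x, hx, e⟩, ?_⟩⟩
  subst e
  exact fun hv => hx ((van_yy P h h0 _).1 hv x rfl)

theorem Ψ_mem (hκ : ∀ x y, K.Adj x y → κ x ≠ κ y) (X : Sphere K S) (hz : z ∈ cone K)
    (h0 : z ≠ 0) : Ψ κ P z ∈ Mh P X.T (kcol κ) := by
  refine mk_mem (kcol_adj hκ X) (clique_inl X (supp_clique hz)) (beta_sub (yy_mem hz.1 h0))
    fun φ hφ => ?_
  rcases φ with i | s
  · rw [van_yy P hz.1 h0] at hφ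
    push Not at hφ
    obtain ⟨w, e, hw⟩ := hφ
    exact ⟨.inl w, ⟨w, hw, rfl⟩, congrArg _ e⟩
  · exact absurd (van_yy_inr P hz.1 h0 s) hφ

theorem Ψ_cont (hκ : ∀ x y, K.Adj x y → κ x ≠ κ y) :
    ContinuousOn (Ψ κ P) {z | z ∈ cone K ∧ z ≠ 0} := by
  have hy : ContinuousOn (yy S κ) {z | z ∈ cone K ∧ z ≠ 0} :=
    contOn_yy.mono fun z hz => ⟨hz.1.1, hz.2⟩
  refine ContinuousOn.prodMk (continuousOn_pi.2 fun w => ?_) hy
  rcases w with x | s
  swap
  · simp only [mem_image, reduceCtorEq, and_false, exists_false, if_false]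
    exact continuousOn_const
  have hg : ContinuousOn (fun z => tt P (.inl (κ x)) (yy S κ z)) {z | z ∈ cone K ∧ z ≠ 0} :=
    (tt_contOn _).comp hy fun z hz => beta_sub (yy_mem hz.1.1 hz.2)
  simp only [mem_image, Sum.inl.injEq, exists_eq_right, mem_ofPred_eq, kcol, Sum.map_inl]
  intro z0 hz0
  have ev : ∀ x', z0 x' ≠ 0 → ∀ᶠ z in 𝓝[{z | z ∈ cone K ∧ z ≠ 0}] z0, z x' ≠ 0 := fun x' h =>
    ((continuous_apply x').continuousAt.eventually_ne h).filter_mono nhdsWithin_le_nhds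
  by_cases h1 : z0 x = 0
  · by_cases h2 : Van P (yy S κ z0) (.inl (κ x))
    · have h3 := hg z0 hz0
      rw [ContinuousWithinAt, (tt_eq_zero (beta_sub (yy_mem hz0.1.1 hz0.2))).2 h2] at h3
      rw [ContinuousWithinAt, if_neg (not_not.2 h1)]
      refine squeeze_zero' ?_ ?_ h3 <;> filter_upwards [self_mem_nhdsWithin] with z hz <;>
        split_ifs <;> first | exact tt_nonneg (beta_sub (yy_mem hz.1.1 hz.2)) _ | exact le_rfl
    · rw [van_yy P hz0.1.1 hz0.2] at h2
      push Not at h2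
      obtain ⟨x', e, h3⟩ := h2
      refine (continuousWithinAt_const (b := (0 : ℝ))).congr_of_eventuallyEq ?_
        (if_neg (not_not.2 h1))
      filter_upwards [ev x' h3, self_mem_nhdsWithin] with z h4 hz
      refine if_neg fun h5 => ?_
      have : x' ≠ x := fun e => h3 (e ▸ h1)
      exact hκ _ _ (hz.1.2 x' x this h4 h5) e
  · refine (hg z0 hz0).congr_of_eventuallyEq ?_ (if_pos h1)
    filter_upwards [ev x h1] with z h4
    exact if_pos h4

/-- the length of an edge. -/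
noncomputable def LL : ℝ := arcosh (√2 + 1)

theorem cosh_LL : cosh LL = √2 + 1 := cosh_arcosh (by linarith [c_gt])

theorem LL_pos : 0 < LL := arcosh_pos (by linarith [c_gt])

/-- the barycentric coefficient along an edge. -/
noncomputable def al (t : ℝ) : ℝ := sinh (LL * t)

theorem al_cont : Continuous al := by
  unfold al
  fun_prop

theorem al_zero : al 0 = 0 := by simp [al]

theorem al_pos (t : ℝ) (ht : t ∈ Ioc (0 : ℝ) 1) : 0 < al t := sinh_pos_iff.2 (mul_pos LL_pos ht.1)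

variable [DecidableEq V]

theorem YY_edge (u v : V) (t : ℝ) :
    YY S κ (edgePt al u v t) = al (1 - t) • oo (κ u) + al t • oo (κ v) := by
  simp [YY, edgePt, add_smul, Finset.sum_add_distrib, Pi.single_apply]

theorem q_YY_edge {u v : V} (h : κ u ≠ κ v) (s t : ℝ) :
    -q (YY S κ (edgePt al u v s)) (YY S κ (edgePt al u v t)) =
      4 * (√2 - 1) * sinh LL ^ 2 * cosh (LL * (s - t)) := by
  simp only [YY_edge, map_add, map_smul, LinearMap.add_apply, LinearMap.smul_apply, smul_eq_mul,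
    q_oo_oo, if_true, if_neg h, if_neg h.symm, al, mul_sub, mul_one, sinh_sub, cosh_sub]
  have e : (√2 - 1) * cosh LL = 1 := by rw [cosh_LL]; linear_combination c_sq
  have e2 := cosh_sq LL
  linear_combination (-4 * ((sinh LL * cosh (LL * s) - cosh LL * sinh (LL * s)) * sinh (LL * t) +
    sinh (LL * s) * (sinh LL * cosh (LL * t) - cosh LL * sinh (LL * t)))) * e +
    (-4 * (√2 - 1) * sinh (LL * s) * sinh (LL * t)) * e2

theorem yy_edge {u v : V} (h : κ u ≠ κ v) (t : ℝ) : yy S κ (edgePt al u v t) =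
    (√(4 * (√2 - 1)) * sinh LL)⁻¹ • (al (1 - t) • oo (κ u) + al t • oo (κ v)) := by
  rw [yy, q_YY_edge h, sub_self, mul_zero, cosh_zero, mul_one, YY_edge,
    Real.sqrt_mul (by linarith [c_gt]), Real.sqrt_sq (sinh_pos_iff.2 LL_pos).le]

/-- an edge is a hyperbolic segment of constant speed. -/
theorem q_yy_edge {u v : V} (h : κ u ≠ κ v) (s t : ℝ) :
    -q (yy S κ (edgePt al u v s)) (yy S κ (edgePt al u v t)) = cosh (LL * (s - t)) := by
  have e := q_YY_edge (S := S) h s t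
  have h1 : (0 : ℝ) < 4 * (√2 - 1) := by linarith [c_gt]
  have h2 := Real.mul_self_sqrt h1.le
  have h3 := Real.sqrt_pos.2 h1
  have h4 := sinh_pos_iff.2 LL_pos
  rw [yy_edge h, yy_edge h, ← YY_edge, ← YY_edge]
  simp only [map_smul, LinearMap.smul_apply, smul_eq_mul]
  rw [neg_eq_iff_eq_neg] at e
  rw [e]
  nth_rewrite 3 [← h2]
  field_simp

end Pool.Agent.Lib.MP_c2693b_gt.KMap
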