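import Pool.Agent.Lib.MP_c2693b_gt.ConeResh

namespace Pool.Agent.Lib.MP_c2693b_gt

open Set ConeAlg

universe u

/-- A closed convex subcone. -/
structure SubCone (C : Type u) [ConeAlg C] where
  /-- The carrier. -/
  Y : Set C
  closed : IsClosed Y
  o_mem : o ∈ Y
  sm_mem : ∀ l, 0 ≤ l → ∀ a, a ∈ Y → sm l a ∈ Y
  ad_mem : ∀ a b, a ∈ Y → b ∈ Y → ad a b ∈ Y

variable {C : Type u} [ConeAlg C]

/-- The cone `C` with the half cylinder over `Y` attached. -/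
@[ext] structure Gl (K : SubCone C) where
  /-- The point of the ambient product. -/
  v : CProd C ℝ
  nn : 0 ≤ v.2
  mem : v.2 ≠ 0 → v.1 ∈ K.Y

namespace Gl

variable {K : SubCone C}

lemma dist_lvl (a b : C) : dist (⟨a, 0⟩ : CProd C ℝ) ⟨b, 0⟩ = dist a b :=
  (sq_eq_sq₀ dist_nonneg dist_nonneg).1 (by rw [CProd.dist_sq']; simp)

/-- Inclusion of the subcone in the cylinder. -/
def inB (K : SubCone C) (y : K.Y) : {e : CProd C ℝ // e.1 ∈ K.Y} := ⟨⟨y.1, 0⟩, y.2⟩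

lemma inB_isometry : Isometry (inB K) := Isometry.of_dist_eq fun a b => dist_lvl a.1 b.1

instance : Nonempty K.Y := ⟨⟨o, K.o_mem⟩⟩

open Classical in
/-- The piece of a point. -/
noncomputable def side (a : Gl K) : C ⊕ {e : CProd C ℝ // e.1 ∈ K.Y} :=
  if h : a.v.2 = 0 then .inl a.v.1 else .inr ⟨a.v, a.mem h⟩

/-- The glued distance. -/
noncomputable def gd (a b : Gl K) : ℝ :=
  Metric.glueDist (Subtype.val : K.Y → C) (inB K) 0 (side a) (side b)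

lemma gd_comm (a b : Gl K) : gd a b = gd b a :=
  (Metric.gluePremetric isometry_subtype_coe (inB_isometry (K := K))).dist_comm _ _

lemma gd_triangle (a b c : Gl K) : gd a c ≤ gd a b + gd b c :=
  (Metric.gluePremetric isometry_subtype_coe (inB_isometry (K := K))).dist_triangle _ _ _

lemma v_eq {a : Gl K} (h : a.v.2 = 0) : a.v = ⟨a.v.1, 0⟩ := CProd.ext rfl h

lemma gd_cross {a b : Gl K} (ha : a.v.2 = 0) (hb : b.v.2 ≠ 0) :
    gd a b = ⨅ p : K.Y, dist a.v ⟨p.1, 0⟩ + dist ⟨p.1, 0⟩ b.v := by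
  rw [gd, side, side, dif_pos ha, dif_neg hb, Metric.glueDist, add_zero]
  refine iInf_congr fun p => ?_
  rw [dist_comm _ b.v, v_eq ha, dist_lvl]
  rfl

lemma gd_left {a b : Gl K} (ha : a.v.2 = 0) (hb : b.v.2 = 0) : gd a b = dist a.v b.v := by
  rw [gd, side, side, dif_pos ha, dif_pos hb, Metric.glueDist, v_eq ha, v_eq hb, dist_lvl]

lemma gd_right {a b : Gl K} (ha : a.v.2 ≠ 0) (hb : b.v.2 ≠ 0) : gd a b = dist a.v b.v := by
  rw [gd, side, side, dif_neg ha, dif_neg hb, Metric.glueDist]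
  rfl

lemma le_gd (a b : Gl K) : dist a.v b.v ≤ gd a b := by
  have key : ∀ a b : Gl K, a.v.2 = 0 → b.v.2 ≠ 0 → dist a.v b.v ≤ gd a b := fun a b ha hb => by
    rw [gd_cross ha hb]
    exact le_ciInf fun p => dist_triangle _ _ _
  by_cases ha : a.v.2 = 0 <;> by_cases hb : b.v.2 = 0
  · exact (gd_left ha hb).ge
  · exact key a b ha hb
  · rw [gd_comm, dist_comm]
    exact key b a hb ha
  · exact (gd_right ha hb).ge

lemma gd_le {a b : Gl K} (ha : a.v.2 = 0) (hb : b.v.2 ≠ 0) {p : C} (hp : p ∈ K.Y) :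
    gd a b ≤ dist a.v ⟨p, 0⟩ + dist ⟨p, 0⟩ b.v := by
  rw [gd_cross ha hb]
  exact ciInf_le (f := fun p : K.Y => dist a.v ⟨p.1, 0⟩ + dist ⟨p.1, 0⟩ b.v)
    ⟨0, by rintro _ ⟨q, rfl⟩; positivity⟩ ⟨p, hp⟩

/-- Two points in one piece. -/
def Same (a b : Gl K) : Prop := (a.v.2 = 0 ∧ b.v.2 = 0) ∨ (a.v.1 ∈ K.Y ∧ b.v.1 ∈ K.Y)

lemma gd_same {a b : Gl K} (h : Same a b) : gd a b = dist a.v b.v := by
  have key : ∀ a b : Gl K, a.v.2 = 0 → b.v.2 ≠ 0 → a.v.1 ∈ K.Y → gd a b = dist a.v b.v := by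
    intro a b ha hb hy
    refine le_antisymm ((gd_le ha hb hy).trans_eq ?_) (le_gd a b)
    rw [← v_eq ha, dist_self, zero_add]
  by_cases ha : a.v.2 = 0 <;> by_cases hb : b.v.2 = 0
  · exact gd_left ha hb
  · exact key a b ha hb (h.resolve_left fun h => hb h.2).1
  · rw [gd_comm, dist_comm]
    exact key b a hb ha (h.resolve_left fun h => ha h.1).2
  · exact gd_right ha hb

lemma piece (a : Gl K) : a.v.2 = 0 ∨ a.v.1 ∈ K.Y := (em _).imp id a.mem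

noncomputable instance : MetricSpace (Gl K) where
  dist := gd
  dist_self a := by rw [gd_same ((piece a).imp (fun h => ⟨h, h⟩) fun h => ⟨h, h⟩), dist_self]
  dist_comm := gd_comm
  dist_triangle := gd_triangle
  eq_of_dist_eq_zero h := Gl.ext (dist_le_zero.1 ((le_gd _ _).trans_eq h))

lemma dist_same {a b : Gl K} (h : Same a b) : dist a b = dist a.v b.v := gd_same h

/-- The apex. -/
noncomputable def zero (K : SubCone C) : Gl K := ⟨o, le_rfl, fun _ => K.o_mem⟩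

lemma same_zero (a : Gl K) : Same a (zero K) :=
  (piece a).imp (fun h => ⟨h, rfl⟩) fun h => ⟨h, K.o_mem⟩

open Classical in
/-- Dilations. -/
noncomputable def dil (l : ℝ) (a : Gl K) : Gl K :=
  if h : 0 ≤ l then ⟨sm l a.v, mul_nonneg h a.nn, fun h' =>
    K.sm_mem l h _ (a.mem (right_ne_zero_of_mul h'))⟩ else a

lemma dil_v {l : ℝ} (hl : 0 ≤ l) (a : Gl K) : (dil l a).v = sm l a.v := by rw [dil, dif_pos hl]

lemma Same.dil {a b : Gl K} (h : Same a b) {l m : ℝ} (hl : 0 ≤ l) (hm : 0 ≤ m) :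
    Same (dil l a) (dil m b) := by
  rw [Same, dil_v hl, dil_v hm]
  exact h.imp (fun h => ⟨by simp [h.1], by simp [h.2]⟩)
    fun h => ⟨K.sm_mem l hl _ h.1, K.sm_mem m hm _ h.2⟩

lemma exists_geo {a b : Gl K} (h : Same a b) {t : ℝ} (ht : t ∈ Icc (0 : ℝ) 1) :
    ∃ p : Gl K, p.v = geo a.v b.v t ∧ (a.v.2 = 0 → b.v.2 = 0 → p.v.2 = 0) ∧
      (a.v.1 ∈ K.Y → b.v.1 ∈ K.Y → p.v.1 ∈ K.Y) := by
  have h1 : a.v.2 = 0 → b.v.2 = 0 → (geo a.v b.v t).2 = 0 := fun ha hb => by simp [geo, ha, hb]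
  have h2 : a.v.1 ∈ K.Y → b.v.1 ∈ K.Y → (geo a.v b.v t).1 ∈ K.Y := fun ha hb =>
    K.ad_mem _ _ (K.sm_mem _ (sub_nonneg.2 ht.2) _ ha) (K.sm_mem _ ht.1 _ hb)
  refine ⟨⟨geo a.v b.v t, add_nonneg (mul_nonneg (sub_nonneg.2 ht.2) a.nn) (mul_nonneg ht.1 b.nn),
    fun h' => ?_⟩, rfl, h1, h2⟩
  exact h.elim (fun h => (h' (h1 h.1 h.2)).elim) fun h => h2 h.1 h.2

variable [ProperSpace C]

lemma cross (a b : Gl K) (ha : a.v.2 = 0) (hb : b.v.1 ∈ K.Y) :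
    ∃ p : Gl K, p.v.2 = 0 ∧ p.v.1 ∈ K.Y ∧ dist a p + dist p b ≤ dist a b := by
  by_cases hb' : b.v.2 = 0
  · exact ⟨b, hb', hb, by simp⟩
  let F : C → ℝ := fun p => dist a.v ⟨p, 0⟩ + dist ⟨p, 0⟩ b.v
  have hm : Continuous fun p : C => (⟨p, 0⟩ : CProd C ℝ) :=
    CProd.continuous_mk.comp (continuous_id.prodMk continuous_const)
  have hF : Continuous F := (continuous_const.dist hm).add (hm.dist continuous_const)
  have hle : ∀ p, dist p a.v.1 ≤ F p := fun p => by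
    rw [dist_comm]
    exact (CProd.dist_fst_le a.v ⟨p, 0⟩).trans (le_add_of_nonneg_right dist_nonneg)
  obtain ⟨p, hp, hmin⟩ := ((isCompact_closedBall a.v.1 (F o)).inter_left K.closed).exists_isMinOn
    ⟨o, K.o_mem, hle o⟩ hF.continuousOn
  refine ⟨⟨⟨p, 0⟩, le_rfl, fun _ => hp.1⟩, rfl, hp.1, ?_⟩
  rw [dist_same (Or.inl ⟨ha, rfl⟩), dist_same (Or.inr ⟨hp.1, hb⟩)]
  refine le_trans ?_ (gd_cross ha hb').ge
  refine le_ciInf fun q => ?_
  by_cases hq : dist q.1 a.v.1 ≤ F o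
  · exact hmin ⟨q.2, hq⟩
  · exact (hmin ⟨K.o_mem, hle o⟩).trans ((not_le.1 hq).le.trans (hle q.1))

lemma toCN : CN (Gl K) := by
  refine cn_glue (A := {a | a.v.2 = 0}) (B := {a | a.v.1 ∈ K.Y}) piece ?_ ?_ ?_ ?_
  · intro a ha b hb t ht
    obtain ⟨p, e, h1, -⟩ := exists_geo (Or.inl ⟨ha, hb⟩ : Same a b) ht
    refine ⟨p, h1 ha hb, fun x hx => ?_⟩
    rw [dist_same (Or.inl ⟨hx, h1 ha hb⟩), dist_same (Or.inl ⟨hx, ha⟩), dist_same (Or.inl ⟨hx, hb⟩),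
      dist_same (Or.inl ⟨ha, hb⟩), e]
    exact cn _ _ _ ht
  · intro a ha b hb t ht
    obtain ⟨p, e, -, h1⟩ := exists_geo (Or.inr ⟨ha, hb⟩ : Same a b) ht
    refine ⟨p, h1 ha hb, fun x hx => ?_⟩
    rw [dist_same (Or.inr ⟨hx, h1 ha hb⟩), dist_same (Or.inr ⟨hx, ha⟩), dist_same (Or.inr ⟨hx, hb⟩),
      dist_same (Or.inr ⟨ha, hb⟩), e]
    exact cn _ _ _ ht
  · intro a ha b hb t ht
    obtain ⟨p, e, h1, h2⟩ := exists_geo (Or.inl ⟨ha.1, hb.1⟩ : Same a b) ht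
    refine ⟨p, ⟨h1 ha.1 hb.1, h2 ha.2 hb.2⟩, ?_⟩
    rw [dist_same (Or.inl ⟨ha.1, h1 ha.1 hb.1⟩), dist_same (Or.inl ⟨h1 ha.1 hb.1, hb.1⟩),
      dist_same (Or.inl ⟨ha.1, hb.1⟩), e]
    exact ⟨(dist_geo_left _ _ ht).le, (dist_geo_right _ _ ht).le⟩
  · intro a ha b hb
    obtain ⟨p, h1, h2, h3⟩ := cross a b ha hb
    exact ⟨p, ⟨h1, h2⟩, h3⟩

omit [ProperSpace C] in
lemma dist_dil_same {a b : Gl K} (h : Same a b) {l : ℝ} (hl : 0 ≤ l) :
    dist (dil l a) (dil l b) = l * dist a b := by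
  rw [dist_same (h.dil hl hl), dil_v hl, dil_v hl, dist_sm hl, dist_same h]

lemma dist_dil_le {l : ℝ} (hl : 0 ≤ l) (a b : Gl K) : dist (dil l a) (dil l b) ≤ l * dist a b := by
  have key : ∀ a b : Gl K, a.v.2 = 0 → b.v.1 ∈ K.Y → dist (dil l a) (dil l b) ≤ l * dist a b := by
    intro a b ha hb
    obtain ⟨p, h1, h2, h3⟩ := cross a b ha hb
    refine (dist_triangle _ (dil l p) _).trans ?_
    rw [dist_dil_same (Or.inl ⟨ha, h1⟩) hl, dist_dil_same (Or.inr ⟨h2, hb⟩) hl, ← mul_add]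
    exact mul_le_mul_of_nonneg_left h3 hl
  rcases piece a with ha | ha <;> rcases piece b with hb | hb
  · exact (dist_dil_same (Or.inl ⟨ha, hb⟩) hl).le
  · exact key a b ha hb
  · rw [dist_comm, dist_comm a b]
    exact key b a hb ha
  · exact (dist_dil_same (Or.inr ⟨ha, hb⟩) hl).le

omit [ProperSpace C] in
lemma dil_dil {l m : ℝ} (hl : 0 ≤ l) (hm : 0 ≤ m) (a : Gl K) : dil l (dil m a) = dil (l * m) a :=
  Gl.ext (by rw [dil_v hl, dil_v hm, dil_v (mul_nonneg hl hm), sm_sm hl hm])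

omit [ProperSpace C] in
lemma dil_one (a : Gl K) : dil 1 a = a := Gl.ext (by rw [dil_v zero_le_one, sm_one])

lemma dist_dil {l : ℝ} (hl : 0 ≤ l) (a b : Gl K) : dist (dil l a) (dil l b) = l * dist a b := by
  refine le_antisymm (dist_dil_le hl a b) ?_
  rcases hl.eq_or_lt with rfl | h
  · simp
  have := dist_dil_le (inv_nonneg.2 hl) (dil l a) (dil l b)
  rwa [dil_dil (inv_nonneg.2 hl) hl, dil_dil (inv_nonneg.2 hl) hl, inv_mul_cancel₀ h.ne', dil_one,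
    dil_one, le_inv_mul_iff₀ h] at this

noncomputable instance : ConeAlg (Gl K) :=
  ofCN (zero K) dil toCN (fun a => Gl.ext (by rw [dil_v le_rfl, sm_zero]; rfl)) dil_one dil_dil
    dist_dil fun hl hm a => by
      have h : Same a a := (piece a).imp (fun h => ⟨h, h⟩) fun h => ⟨h, h⟩
      rw [dist_same (h.dil hl hm), dil_v hl, dil_v hm, dist_sm_sm hl hm, dist_same (same_zero a)]
      rfl

lemma sm_v {l : ℝ} (hl : 0 ≤ l) (a : Gl K) : (sm l a).v = sm l a.v := dil_v hl a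

lemma ip_same {a b : Gl K} (h : Same a b) : ip a b = ip a.v.1 b.v.1 + a.v.2 * b.v.2 := by
  have e : ip a b = (dist a (zero K) ^ 2 + dist b (zero K) ^ 2 - dist a b ^ 2) / 2 := rfl
  rw [e, dist_same (same_zero a), dist_same (same_zero b), dist_same h]
  refine (ip_eq a.v b.v).symm.trans ?_
  rw [CProd.ip_def, inner_ip, real_inner_comm]
  simp

end Gl

/-- Attaching a half cylinder along a closed convex subcone gives a cone algebra. -/
theorem glue [ProperSpace C] (Y : Set C) (hc : IsClosed Y) (ho : o ∈ Y)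
    (hs : ∀ l, 0 ≤ l → ∀ a, a ∈ Y → sm l a ∈ Y) (ha : ∀ a b, a ∈ Y → b ∈ Y → ad a b ∈ Y) :
    ∃ (D : Type u) (_ : ConeAlg D) (p : D → C) (h : D → ℝ),
      (∀ a b, p a = p b → h a = h b → a = b) ∧ (∀ a, 0 ≤ h a ∧ (h a ≠ 0 → p a ∈ Y)) ∧
      (∀ x t, 0 ≤ t → (t ≠ 0 → x ∈ Y) → ∃ a, p a = x ∧ h a = t) ∧
      (∀ l a, 0 ≤ l → p (sm l a) = sm l (p a) ∧ h (sm l a) = l * h a) ∧
      ∀ a b, ((h a = 0 ∧ h b = 0) ∨ (p a ∈ Y ∧ p b ∈ Y)) → ip a b = ip (p a) (p b) + h a * h b :=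
  ⟨Gl ⟨Y, hc, ho, hs, ha⟩, inferInstance, fun a => a.v.1, fun a => a.v.2,
    fun _ _ h1 h2 => Gl.ext (CProd.ext h1 h2), fun a => ⟨a.nn, a.mem⟩,
    fun x t h1 h2 => ⟨⟨⟨x, t⟩, h1, h2⟩, rfl, rfl⟩,
    fun _ a hl => ⟨congrArg CProd.fst (Gl.sm_v hl a), congrArg CProd.snd (Gl.sm_v hl a)⟩,
    fun _ _ h => Gl.ip_same h⟩

end Pool.Agent.Lib.MP_c2693b_gt
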