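import Pool.Agent.Lib.MP_c2693b_gt.GcB

/-! The cone over a graph of girth at least eight carries a cone algebra kernel. -/

set_option autoImplicit false

open Real Filter Topology Set

namespace Pool.Agent.Lib.MP_c2693b_gt.Gc

variable {V : Type} [Fintype V] [DecidableEq V] {G : SimpleGraph V} {A : Set V} {θ : ℝ}

/-- A path of length at most `l` from `x` to `y` among the unit vectors. -/
def Pth (G : SimpleGraph V) (A : Set V) (θ : ℝ) (x y : V → ℝ) (l : ℝ) : Prop :=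
  0 ≤ l ∧ ∃ c : ℝ → V → ℝ, (∀ s, U G A θ (c s)) ∧ c 0 = x ∧ c l = y ∧
    ∀ s t, dd G θ (c s) (c t) ≤ |s - t|

lemma Pth.const (H : Hy G A θ) {x : V → ℝ} (hx : U G A θ x) : Pth G A θ x x 0 :=
  ⟨le_rfl, fun _ => x, fun _ => hx, rfl, rfl, fun _ _ => (dd_self H hx).le.trans (abs_nonneg _)⟩

lemma Pth.symm {x y : V → ℝ} {l : ℝ} (h : Pth G A θ x y l) : Pth G A θ y x l := by
  obtain ⟨l0, c, hc, c0, c1, lip⟩ := h
  refine ⟨l0, fun s => c (l - s), fun _ => hc _, by simpa using c1, by simpa using c0,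
    fun s t => (lip _ _).trans_eq ?_⟩
  rw [abs_sub_comm]
  congr 1
  ring

lemma Pth.trans (H : Hy G A θ) {x y z : V → ℝ} {l m : ℝ} (h : Pth G A θ x y l)
    (k : Pth G A θ y z m) : Pth G A θ x z (l + m) := by
  obtain ⟨l0, c, hc, c0, c1, lip⟩ := h
  obtain ⟨m0, e, he, e0, e1, lip'⟩ := k
  have mix : ∀ s t, s ≤ l → ¬ t ≤ l → dd G θ (c s) (e (t - l)) ≤ |s - t| := fun s t hs ht => by
    have h1 := dd_tri H (hc s) (hc l) (he (t - l))
    have h2 := lip s l
    have h3 := lip' 0 (t - l)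
    rw [e0, ← c1] at h3
    rw [not_le] at ht
    rw [abs_of_nonpos (by linarith)] at h2 h3 ⊢
    linarith
  refine ⟨by linarith, fun s => if s ≤ l then c s else e (s - l), fun s => ?_, by simp [l0, c0],
    ?_, fun s t => ?_⟩
  · by_cases hs : s ≤ l <;> simp only [hs, if_true, if_false]
    exacts [hc _, he _]
  · by_cases h : l + m ≤ l
    · obtain rfl : m = 0 := by linarith
      simp [c1, ← e1, e0]
    · simp [h, e1]
  · by_cases hs : s ≤ l <;> by_cases ht : t ≤ l <;> simp only [hs, ht, if_true, if_false]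
    · exact lip s t
    · exact mix s t hs ht
    · rw [dd_comm, abs_sub_comm]
      exact mix t s ht hs
    · exact (lip' _ _).trans_eq (by congr 1; ring)

lemma Pth.edge (H : Hy G A θ) {a b : V} (h : G.Adj a b) {s t : ℝ} (s0 : 0 ≤ s) (st : s ≤ t)
    (t1 : t ≤ θ) : Pth G A θ (E θ a b s) (E θ a b t) (t - s) := by
  have b0 : ∀ u : ℝ, 0 ≤ max 0 (min θ u) := fun u => le_max_left _ _
  have b1 : ∀ u : ℝ, max 0 (min θ u) ≤ θ := fun u => max_le H.pos.le (min_le_left _ _)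
  refine ⟨by linarith, fun u => E θ a b (max 0 (min θ (s + u))), fun u => U_E H h (b0 _) (b1 _),
    ?_, ?_, fun u v => ?_⟩
  · simp only [add_zero]
    rw [min_eq_right (by linarith), max_eq_right s0]
  · simp only [add_sub_cancel]
    rw [min_eq_right t1, max_eq_right (by linarith)]
  · rw [dd_E H h (b0 _) (b1 _) (b0 _) (b1 _)]
    refine (abs_max_sub_max_le_max _ _ _ _).trans (max_le (by simp) ?_)
    refine (abs_min_sub_min_le_max _ _ _ _).trans (max_le (by simp) ?_)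
    simp

lemma Pth.toVert (H : Hy G A θ) {x : V → ℝ} (hx : U G A θ x) {a : V} (ha : x a ≠ 0) :
    Pth G A θ (ev a) x (ang G θ x a) := by
  rcases hx.nf ha with rfl | ⟨q, t, hq, t0, t1, rfl⟩
  · rw [ang_ev]
    exact Pth.const H hx
  · rw [ang_left H hq t0.le t1.le]
    simpa [E_zero H] using Pth.edge H hq le_rfl t0.le t1.le

lemma Pth.walk (H : Hy G A θ) {a : V} (ha : a ∈ A) :
    ∀ {n : ℕ} {b : V}, W G n a b → Pth G A θ (ev a) (ev b) (θ * n)
  | 0, _, h => by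
    cases h
    simpa using Pth.const H (U_ev ha)
  | n + 1, b, ⟨m, h1, h2⟩ => by
    have h3 := Pth.edge H h2 le_rfl H.pos.le le_rfl
    rw [E_zero H, E_symm, sub_self, E_zero H, sub_zero] at h3
    have := (Pth.walk H ha h1).trans H h3
    rwa [Nat.cast_succ, mul_add, mul_one]

lemma geo (H : Hy G A θ) {x u : V → ℝ} (hx : U G A θ x) (hu : U G A θ u) (hl : dd G θ x u < π) :
    Pth G A θ x u (dd G θ x u) := by
  rcases dd_mem (G := G) (θ := θ) x u with k | ⟨a, b, ha, hb, k⟩ | ⟨hs, k⟩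
  · exact absurd k hl.ne
  · have : (D G a b : ℝ) < 4 := by
      by_contra h4
      nlinarith [H.pos, H.h4, ang_nonneg (G := G) (θ := θ) x a, ang_nonneg (G := G) (θ := θ) u b,
        not_lt.1 h4]
    rw [k]
    exact ((Pth.toVert H hx ha).symm.trans H
      (Pth.walk H (hx.mem H ha) (D_spec (by exact_mod_cast this)))).trans H (Pth.toVert H hu hb)
  · obtain ⟨a, ha⟩ := hx.ex H
    rcases hx.nf ha with rfl | ⟨q, t, hq, t0, t1, rfl⟩
    · rcases hu.nf ((hs a).1 ha) with rfl | ⟨q, t, hq, t0, t1, rfl⟩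
      · rw [dd_self H hx]
        exact Pth.const H hx
      · exact absurd (ev_ne.1 ((hs q).2 (E_right_ne H hq t0 t1.le))) hq.ne'
    · obtain ⟨-, s, s0, s1, rfl⟩ :=
        hu.nf2 ((hs a).1 ha) ((hs q).1 (E_right_ne H hq t0 t1.le)) hq.ne
      rw [dd_E H hq t0.le t1.le s0.le s1.le]
      rcases le_total s t with l | l
      · rw [abs_of_nonneg (by linarith)]
        exact (Pth.edge H hq s0.le l t1.le).symm
      · rw [abs_sub_comm, abs_of_nonneg (by linarith)]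
        exact Pth.edge H hq t0.le l s1.le

/-- Maximum principle for supersolutions of `f'' + f = 0` on an interval shorter than `π`. -/
lemma max_prin {F : ℝ → ℝ} {l : ℝ} (hF : Continuous F) (hl : l < π) (h0 : 0 ≤ F 0) (h1 : 0 ≤ F l)
    (h : ∀ t ∈ Ioo 0 l, ∃ r, 0 < r ∧ r ≤ t ∧ r ≤ l - t ∧ F (t - r) + F (t + r) ≤ 2 * cos r * F t)
    {t : ℝ} (ht : t ∈ Icc 0 l) : 0 ≤ F t := by
  have wp : ∀ s ∈ Icc 0 l, 0 < cos (s - l / 2) := fun s hs =>
    cos_pos_of_mem_Ioo ⟨by linarith [hs.1], by linarith [hs.2]⟩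
  let g : ℝ → ℝ := fun s => F s / cos (s - l / 2)
  have hg : ContinuousOn g (Icc 0 l) :=
    hF.continuousOn.div (by fun_prop) fun s hs => (wp s hs).ne'
  obtain ⟨m, hm, hmin⟩ := isCompact_Icc.exists_isMinOn ⟨t, ht⟩ hg
  by_contra hlt
  have hneg : g m < 0 := lt_of_le_of_lt (hmin ht) (div_neg_of_neg_of_pos (not_le.1 hlt) (wp t ht))
  have hK : IsCompact (Icc (0 : ℝ) l ∩ g ⁻¹' {g m}) :=
    isCompact_Icc.of_isClosed_subset
      (hg.preimage_isClosed_of_isClosed isClosed_Icc isClosed_singleton) inter_subset_left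
  obtain ⟨s, hs, hleast⟩ := hK.exists_isLeast ⟨m, hm, rfl⟩
  have hgs : g s = g m := hs.2
  have s0 : s ≠ 0 := by
    rintro rfl
    exact absurd (hgs ▸ hneg : g 0 < 0) (not_lt.2 (div_nonneg h0 (wp _ hs.1).le))
  have s1 : s ≠ l := by
    rintro rfl
    exact absurd (hgs ▸ hneg : g s < 0) (not_lt.2 (div_nonneg h1 (wp _ hs.1).le))
  obtain ⟨r, r0, r1, r2, hr⟩ := h s ⟨lt_of_le_of_ne hs.1.1 s0.symm, lt_of_le_of_ne hs.1.2 s1⟩
  have m1 : s - r ∈ Icc (0 : ℝ) l := ⟨by linarith, by linarith [hs.1.2]⟩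
  have m2 : s + r ∈ Icc (0 : ℝ) l := ⟨by linarith [hs.1.1], by linarith⟩
  have a1 : g m < g (s - r) := lt_of_le_of_ne (hmin m1) fun e => by
    linarith [hleast (⟨m1, e.symm⟩ : s - r ∈ Icc (0 : ℝ) l ∩ g ⁻¹' {g m})]
  have a2 : g m ≤ g (s + r) := hmin m2
  have b1 := (lt_div_iff₀ (wp _ m1)).1 a1
  have b2 := (le_div_iff₀ (wp _ m2)).1 a2
  have b3 : F s = g m * cos (s - l / 2) := (div_eq_iff (wp _ hs.1).ne').1 hgs
  have b4 : cos (s - r - l / 2) + cos (s + r - l / 2) = 2 * cos r * cos (s - l / 2) := by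
    rw [show s - r - l / 2 = (s - l / 2) - r by ring, show s + r - l / 2 = (s - l / 2) + r by ring,
      cos_sub (s - l / 2), cos_add (s - l / 2)]
    ring
  have b5 : g m * cos (s - r - l / 2) + g m * cos (s + r - l / 2) = 2 * cos r * F s := by
    rw [← mul_add, b4, b3]
    ring
  linarith

lemma trig (H : Hy G A θ) {x : V → ℝ} (hx : U G A θ x) {c : ℝ → V → ℝ} {l : ℝ}
    (hc : ∀ s, U G A θ (c s)) (lip : ∀ s t, dd G θ (c s) (c t) ≤ |s - t|) (l0 : 0 < l) (hl : l < π)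
    (hd : dd G θ (c 0) (c l) = l) {s : ℝ} (hs : s ∈ Icc 0 l) :
    sin (l - s) * cos (dd G θ x (c 0)) + sin s * cos (dd G θ x (c l)) ≤
      sin l * cos (dd G θ x (c s)) := by
  have iso : ∀ u v, 0 ≤ u → u ≤ v → v ≤ l → dd G θ (c u) (c v) = v - u := fun u v u0 uv v1 => by
    have h1 := lip u v
    have h2 := lip 0 u
    have h3 := lip v l
    rw [abs_of_nonpos (by linarith)] at h1 h2 h3
    linarith [dd_tri H (hc 0) (hc u) (hc l), dd_tri H (hc u) (hc v) (hc l)]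
  have cg : Continuous fun s => dd G θ x (c s) := by
    refine (LipschitzWith.of_le_add fun s t => ?_).continuous
    have := dd_tri H hx (hc t) (hc s)
    rw [Real.dist_eq, abs_sub_comm]
    linarith [lip t s]
  have sl := sin_pos_of_pos_of_lt_pi l0 hl
  refine sub_nonneg.1 (max_prin (F := fun s => sin l * cos (dd G θ x (c s)) -
    (sin (l - s) * cos (dd G θ x (c 0)) + sin s * cos (dd G θ x (c l)))) (by fun_prop) hl
    (by simp) (by simp) (fun t ht => ?_) hs)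
  have key : ∃ r, 0 < r ∧ r ≤ t ∧ r ≤ l - t ∧ cos (dd G θ x (c (t - r))) +
      cos (dd G θ x (c (t + r))) ≤ 2 * cos r * cos (dd G θ x (c t)) := by
    have ev : ∀ᶠ r in 𝓝[>] (0 : ℝ), 0 < r ∧ r < t ∧ r < l - t :=
      (eventually_mem_nhdsWithin.and ((ev_small ht.1).and (ev_small (sub_pos.2 ht.2))))
    have mono : ∀ {y : V → ℝ} {a : ℝ}, |a| ≤ dd G θ x y → cos (dd G θ x y) ≤ cos a :=
      fun {y a} h => (cos_le_cos_of_nonneg_of_le_pi (abs_nonneg a) (dd_le_pi _ _) h).trans_eq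
        (cos_abs a)
    rcases (dd_le_pi (G := G) (θ := θ) x (c t)).eq_or_lt with e | e
    · obtain ⟨r, r0, r1, r2⟩ := ev.exists
      refine ⟨r, r0, r1.le, r2.le, ?_⟩
      have rp : |π - r| = π - r := abs_of_nonneg (by linarith [ht.2])
      have d1 := iso (t - r) t (by linarith) (by linarith) ht.2.le
      have d2 := iso t (t + r) ht.1.le (by linarith) (by linarith)
      rw [dd_comm] at d2
      have k1 := mono (y := c (t - r)) (a := π - r) (by linarith [dd_tri H hx (hc (t - r)) (hc t)])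
      have k2 := mono (y := c (t + r)) (a := π - r) (by linarith [dd_tri H hx (hc (t + r)) (hc t)])
      rw [cos_pi_sub] at k1 k2
      rw [e, cos_pi]
      linarith
    · obtain ⟨r, ⟨r0, r1, r2⟩, hr⟩ := (ev.and (loc_tree H hx (hc t) e)).exists
      refine ⟨r, r0, r1.le, r2.le, ?_⟩
      have d1 := iso (t - r) t (by linarith) (by linarith) ht.2.le
      have d2 := iso t (t + r) ht.1.le (by linarith) (by linarith)
      have d3 := iso (t - r) (t + r) (by linarith) (by linarith) (by linarith)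
      have sum : cos (dd G θ x (c t) - r) + cos (dd G θ x (c t) + r) =
          2 * cos r * cos (dd G θ x (c t)) := by
        rw [cos_sub, cos_add]
        ring
      have t1 := dd_tri H hx (hc (t - r)) (hc t)
      have t2 := dd_tri H hx (hc (t + r)) (hc t)
      have t3 := dd_tri H (hc (t - r)) hx (hc (t + r))
      rw [dd_comm (c (t - r)) x] at t3
      rw [dd_comm (c (t + r))] at t2
      rcases hr _ _ (hc (t - r)) (hc (t + r)) (by rw [dd_comm, d1]; ring) (by rw [d2]; ring)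
        (by rw [d3]; ring) with k | k
      · have := mono (y := c (t + r)) (a := dd G θ x (c t) - r)
          (abs_le.2 ⟨by linarith, by linarith⟩)
        rw [k]
        linarith
      · have := mono (y := c (t - r)) (a := dd G θ x (c t) - r)
          (abs_le.2 ⟨by linarith, by linarith⟩)
        rw [k]
        linarith
  obtain ⟨r, r0, r1, r2, hr⟩ := key
  refine ⟨r, r0, r1, r2, ?_⟩
  have e1 : sin (l - (t - r)) + sin (l - (t + r)) = 2 * cos r * sin (l - t) := by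
    rw [show l - (t - r) = (l - t) + r by ring, show l - (t + r) = (l - t) - r by ring,
      sin_add (l - t), sin_sub (l - t)]
    ring
  have e2 : sin (t - r) + sin (t + r) = 2 * cos r * sin t := by
    rw [sin_add, sin_sub]
    ring
  have e3 := mul_le_mul_of_nonneg_left hr sl.le
  linear_combination e3 - cos (dd G θ x (c 0)) * e1 - cos (dd G θ x (c l)) * e2

lemma pol {l r ρ : ℝ} (l0 : 0 < l) (hl : l < π) (hr : 0 < r) (hρ : 0 < ρ) :
    ∃ R s, 0 < R ∧ 0 < s ∧ s < l ∧ R * sin s = ρ * sin l ∧ R * sin (l - s) = r * sin l ∧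
      R * R = r * r + ρ * ρ + 2 * (r * ρ * cos l) := by
  have sl := sin_pos_of_pos_of_lt_pi l0 hl
  have hc : ContinuousOn (fun s => r * sin s - ρ * sin (l - s)) (Icc 0 l) := by fun_prop
  obtain ⟨s, hs, he⟩ := intermediate_value_Ioo l0.le hc
    (show (0 : ℝ) ∈ Ioo _ _ from ⟨by simpa using mul_pos hρ sl, by simpa using mul_pos hr sl⟩)
  have ss := sin_pos_of_pos_of_lt_pi hs.1 (hs.2.trans hl)
  have he : r * sin s - ρ * sin (l - s) = 0 := he
  have e1 : ρ * sin l / sin s * sin s = ρ * sin l := by field_simp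
  have e2 : ρ * sin l / sin s * sin (l - s) = r * sin l := by
    field_simp
    linarith
  refine ⟨ρ * sin l / sin s, s, by positivity, hs.1, hs.2, e1, e2, ?_⟩
  generalize ρ * sin l / sin s = R at e1 e2
  rw [sin_sub] at e2
  have e3 : R * cos s = r + ρ * cos l :=
    mul_left_cancel₀ sl.ne' (by linear_combination e2 + cos l * e1)
  linear_combination (R * cos s + (r + ρ * cos l)) * e3 + (R * sin s + ρ * sin l) * e1 -
    R * R * sin_sq_add_cos_sq s + ρ * ρ * sin_sq_add_cos_sq l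

omit [Fintype V] in
lemma comb (H : Hy G A θ) {a b : V} (_h : G.Adj a b) {α β : ℝ} (h1 : 0 ≤ α) (h2 : 0 ≤ β) :
    ∃ r t : ℝ, 0 ≤ r ∧ 0 ≤ t ∧ t ≤ θ ∧ α • ev a + β • ev b = r • E θ a b t := by
  rcases h2.eq_or_lt with rfl | h2
  · exact ⟨α, 0, h1, le_rfl, H.pos.le, by simp [E_zero H]⟩
  rcases h1.eq_or_lt with rfl | h1
  · exact ⟨β, θ, h2.le, H.pos.le, le_rfl, by rw [E_symm, sub_self, E_zero H]; simp⟩
  obtain ⟨R, s, R0, s0, s1, e1, e2, -⟩ := pol H.pos H.hπ h1 h2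
  refine ⟨R, s, R0.le, s0.le, s1.le, ?_⟩
  have := H.sin_pos.ne'
  rw [E, smul_add, smul_smul, smul_smul, ← mul_div_assoc, ← mul_div_assoc, e1, e2,
    mul_div_cancel_right₀ _ this, mul_div_cancel_right₀ _ this]

omit [Fintype V] in
lemma cell (H : Hy G A θ) {s : V → ℝ} (hs : InCone G A s) :
    (∀ v, s v = 0) ∨ (∃ a ∈ A, ∀ v, s v ≠ 0 → v = a) ∨
      ∃ a b, G.Adj a b ∧ ∀ v, s v ≠ 0 → v = a ∨ v = b := by
  by_cases h0 : ∀ v, s v = 0
  · exact Or.inl h0
  obtain ⟨a, ha⟩ := not_forall.1 h0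
  by_cases h1 : ∀ v, s v ≠ 0 → v = a
  · exact Or.inr (Or.inl ⟨a, hs.2.1 a ha, h1⟩)
  push Not at h1
  obtain ⟨b, hb, hba⟩ := h1
  have hab := hs.2.2 a b ha hb hba.symm
  refine Or.inr (Or.inr ⟨a, b, hab, fun v hv => ?_⟩)
  by_contra hn
  rw [not_or] at hn
  exact H.hG.no3 hab (hs.2.2 b v hb hv (Ne.symm hn.2)) (hs.2.2 a v ha hv (Ne.symm hn.1))

omit [Fintype V] in
lemma eq_one {z : V → ℝ} {a : V} (h : ∀ v, z v ≠ 0 → v = a) : z = z a • ev a := by
  funext v
  by_cases hv : v = a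
  · simp [ev, hv]
  · simp [ev, hv, not_not.1 fun k => hv (h v k)]

omit [Fintype V] in
lemma eq_two {z : V → ℝ} {a b : V} (hab : a ≠ b) (h : ∀ v, z v ≠ 0 → v = a ∨ v = b) :
    z = z a • ev a + z b • ev b := by
  funext v
  by_cases hv : v = a
  · simp [ev, hv, hab]
  · by_cases hw : v = b
    · simp [ev, hw, hab.symm]
    · simp [ev, hv, hw, not_not.1 fun k => (h v k).elim hv hw]

omit [Fintype V] in
lemma polar (H : Hy G A θ) {z : V → ℝ} (hz : InCone G A z) :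
    z = 0 ∨ ∃ (r : ℝ) (x : V → ℝ), 0 < r ∧ U G A θ x ∧ z = r • x := by
  have key : z = 0 ∨ ∃ (r : ℝ) (x : V → ℝ), 0 ≤ r ∧ U G A θ x ∧ z = r • x := by
    rcases cell H hz with h | ⟨a, ha, h⟩ | ⟨a, b, hab, h⟩
    · exact Or.inl (funext h)
    · exact Or.inr ⟨z a, ev a, hz.1 a, U_ev ha, eq_one h⟩
    · obtain ⟨r, t, r0, t0, t1, e⟩ := comb H hab (hz.1 a) (hz.1 b)
      exact Or.inr ⟨r, _, r0, U_E H hab t0 t1, (eq_two hab.ne h).trans e⟩
  rcases key with h | ⟨r, x, r0, hx, e⟩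
  · exact Or.inl h
  · rcases r0.eq_or_lt with rfl | r0
    · exact Or.inl (by simpa using e)
    · exact Or.inr ⟨r, x, r0, hx, e⟩

omit [Fintype V] in
lemma U.inCone (H : Hy G A θ) {x : V → ℝ} (hx : U G A θ x) {r : ℝ} (r0 : 0 ≤ r) :
    InCone G A (r • x) := by
  have ne : ∀ v, (r • x) v ≠ 0 → x v ≠ 0 := fun v hv => right_ne_zero_of_mul hv
  refine ⟨fun v => mul_nonneg r0 ?_, fun v hv => hx.mem H (ne v hv),
    fun a b ha hb h => (hx.nf2 (ne a ha) (ne b hb) h).1⟩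
  have e0 : ∀ a, 0 ≤ ev a v := fun a => by by_cases h : v = a <;> simp [ev, h]
  rcases hx with ⟨a, -, rfl⟩ | ⟨a, b, t, h, t0, t1, rfl⟩
  · exact e0 a
  · have s1 := sin_pos_of_pos_of_lt_pi t0 (t1.trans H.hπ)
    have s2 := sin_pos_of_pos_of_lt_pi (sub_pos.2 t1) (by linarith [H.hπ])
    have s3 := H.sin_pos
    exact add_nonneg (mul_nonneg (by positivity) (e0 a)) (mul_nonneg (by positivity) (e0 b))

lemma U.unit (H : Hy G A θ) {x : V → ℝ} (hx : U G A θ x) : Bf G (cos θ) x x = 1 := by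
  rcases hx with ⟨a, -, rfl⟩ | ⟨a, b, t, h, -, -, rfl⟩
  · exact Bf_self a
  · rw [Bf_E H h, sub_self, cos_zero]

/-- The length of a vector. -/
noncomputable def nrm (G : SimpleGraph V) (θ : ℝ) (z : V → ℝ) : ℝ := √(Bf G (cos θ) z z)

/-- The kernel. -/
noncomputable def ker (G : SimpleGraph V) (θ : ℝ) (z w : V → ℝ) : ℝ :=
  nrm G θ z * nrm G θ w * cos (dd G θ ((nrm G θ z)⁻¹ • z) ((nrm G θ w)⁻¹ • w))

omit [DecidableEq V] in
lemma nrm_smul {l : ℝ} (hl : 0 ≤ l) (z : V → ℝ) : nrm G θ (l • z) = l * nrm G θ z := by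
  rw [nrm, nrm, Bf_smul, Bf_smul', ← mul_assoc, sqrt_mul (mul_self_nonneg l), sqrt_mul_self hl]

lemma ker_comm (z w : V → ℝ) : ker G θ z w = ker G θ w z := by
  rw [ker, ker, dd_comm, mul_comm (nrm G θ z)]

lemma ker_smul {l : ℝ} (hl : 0 ≤ l) (z w : V → ℝ) : ker G θ (l • z) w = l * ker G θ z w := by
  rcases hl.eq_or_lt with rfl | hl
  · rw [ker, nrm_smul le_rfl]
    simp
  · rw [ker, ker, nrm_smul hl.le, smul_smul, mul_inv, mul_comm l⁻¹, mul_assoc _ l⁻¹,
      inv_mul_cancel₀ hl.ne', mul_one]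
    ring

lemma ker_zero (w : V → ℝ) : ker G θ 0 w = 0 := by
  simpa using ker_smul (G := G) (θ := θ) le_rfl 0 w

lemma ker_zero' (w : V → ℝ) : ker G θ w 0 = 0 := by rw [ker_comm, ker_zero]

lemma ker_U (H : Hy G A θ) {x u : V → ℝ} (hx : U G A θ x) (hu : U G A θ u) {r ρ : ℝ} (hr : 0 ≤ r)
    (hρ : 0 ≤ ρ) : ker G θ (r • x) (ρ • u) = r * ρ * cos (dd G θ x u) := by
  rw [ker_smul hr, ker_comm, ker_smul hρ, ker_comm, ker, nrm, nrm, hx.unit H, hu.unit H]
  simp [mul_assoc]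

lemma ker_self (H : Hy G A θ) {x : V → ℝ} (hx : U G A θ x) {r ρ : ℝ} (hr : 0 ≤ r) (hρ : 0 ≤ ρ) :
    ker G θ (r • x) (ρ • x) = r * ρ := by
  rw [ker_U H hx hx hr hρ, dd_self H hx, cos_zero, mul_one]

lemma eq_of_dd (H : Hy G A θ) {x u : V → ℝ} (hx : U G A θ x) (hu : U G A θ u)
    (h : dd G θ x u = 0) : x = u := by
  obtain ⟨-, c, -, c0, c1, -⟩ := geo H hx hu (h ▸ pi_pos)
  rw [← c0, ← c1, h]

lemma ker_ad (H : Hy G A θ) {a b : V → ℝ} (ha : InCone G A a) (hb : InCone G A b) :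
    ∃ p, InCone G A p ∧ (∀ x, InCone G A x → ker G θ x a + ker G θ x b ≤ ker G θ x p) ∧
      ker G θ p p = ker G θ a a + ker G θ b b + 2 * ker G θ a b := by
  rcases polar H ha with rfl | ⟨r, y, r0, hy, rfl⟩
  · exact ⟨b, hb, fun x _ => by simp [ker_zero'], by simp [ker_zero]⟩
  rcases polar H hb with rfl | ⟨ρ, z, ρ0, hz, rfl⟩
  · exact ⟨_, ha, fun x _ => by simp [ker_zero'], by simp [ker_zero']⟩
  suffices h : ∃ R p, 0 ≤ R ∧ U G A θ p ∧ (∀ x, U G A θ x →
      r * cos (dd G θ x y) + ρ * cos (dd G θ x z) ≤ R * cos (dd G θ x p)) ∧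
      R * R = r * r + ρ * ρ + 2 * (r * ρ * cos (dd G θ y z)) by
    obtain ⟨R, p, R0, hp, h1, h2⟩ := h
    refine ⟨R • p, hp.inCone H R0, fun x hx => ?_, ?_⟩
    · rcases polar H hx with rfl | ⟨l, x, l0, hx', rfl⟩
      · simp [ker_zero]
      · rw [ker_U H hx' hy l0.le r0.le, ker_U H hx' hz l0.le ρ0.le, ker_U H hx' hp l0.le R0]
        nlinarith [mul_le_mul_of_nonneg_left (h1 x hx') l0.le]
    · rw [ker_self H hp R0 R0, ker_self H hy r0.le r0.le, ker_self H hz ρ0.le ρ0.le,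
        ker_U H hy hz r0.le ρ0.le, h2]
  rcases (dd_le_pi (G := G) (θ := θ) y z).eq_or_lt with e | e
  · have opp : ∀ x, U G A θ x → cos (dd G θ x y) + cos (dd G θ x z) ≤ 0 := fun x hx => by
      have t := dd_tri H hy hx hz
      rw [dd_comm y x] at t
      have := cos_le_cos_of_nonneg_of_le_pi (sub_nonneg.2 (dd_le_pi (G := G) (θ := θ) x y))
        (dd_le_pi (G := G) (θ := θ) x z) (by linarith)
      rw [cos_pi_sub] at this
      linarith
    rw [e, cos_pi]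
    rcases le_total ρ r with k | k
    · exact ⟨r - ρ, y, by linarith, hy, fun x hx => by nlinarith [opp x hx], by ring⟩
    · exact ⟨ρ - r, z, by linarith, hz, fun x hx => by nlinarith [opp x hx], by ring⟩
  rcases (dd_nonneg H y z).eq_or_lt with e0 | e0
  · obtain rfl := eq_of_dd H hy hz e0.symm
    exact ⟨r + ρ, y, by linarith, hy, fun x _ => by linarith, by rw [← e0, cos_zero]; ring⟩
  obtain ⟨-, c, hc, c0, c1, lip⟩ := geo H hy hz e
  obtain ⟨R, s, R0, s0, s1, e1, e2, e3⟩ := pol e0 e r0 ρ0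
  refine ⟨R, c s, R0.le, hc s, fun x hx => ?_, e3⟩
  have t := trig H hx hc lip e0 e (by rw [c0, c1]) ⟨s0.le, s1.le⟩
  rw [c0, c1] at t
  refine le_of_mul_le_mul_left ?_ (sin_pos_of_pos_of_lt_pi e0 e)
  have := mul_le_mul_of_nonneg_left t R0.le
  linear_combination this - cos (dd G θ x y) * e2 - cos (dd G θ x z) * e1

lemma ker_cell (H : Hy G A θ) {z w : V → ℝ} (hz : InCone G A z) (hw : InCone G A w)
    (h : InCone G A (z + w)) : ker G θ z w = Bf G (cos θ) z w := by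
  have n1 : ∀ v, z v ≠ 0 → (z + w) v ≠ 0 := fun v hv =>
    (add_pos_of_pos_of_nonneg (lt_of_le_of_ne (hz.1 v) hv.symm) (hw.1 v)).ne'
  have n2 : ∀ v, w v ≠ 0 → (z + w) v ≠ 0 := fun v hv =>
    (add_pos_of_nonneg_of_pos (hz.1 v) (lt_of_le_of_ne (hw.1 v) hv.symm)).ne'
  rcases cell H h with k | ⟨a, ha, k⟩ | ⟨a, b, hab, k⟩
  · obtain rfl : z = 0 := funext fun v => not_not.1 fun hv => n1 v hv (k v)
    simp [ker_zero, Bf]
  · rw [eq_one fun v hv => k v (n1 v hv), eq_one fun v hv => k v (n2 v hv),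
      ker_self H (U_ev ha) (hz.1 a) (hw.1 a), Bf_smul, Bf_smul', Bf_self, mul_one]
  · obtain ⟨r, s, r0, s0, s1, e⟩ := comb H hab (hz.1 a) (hz.1 b)
    obtain ⟨ρ, t, ρ0, t0, t1, e'⟩ := comb H hab (hw.1 a) (hw.1 b)
    rw [(eq_two hab.ne fun v hv => k v (n1 v hv)).trans e,
      (eq_two hab.ne fun v hv => k v (n2 v hv)).trans e',
      ker_U H (U_E H hab s0 s1) (U_E H hab t0 t1) r0 ρ0, dd_E H hab s0 s1 t0 t1, cos_abs, Bf_smul,
      Bf_smul', Bf_E H hab, mul_assoc]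

lemma ker_far (H : Hy G A θ) {a b : V} (ha : a ∈ A) (hb : b ∈ A) (h0 : a ≠ b) (h1 : ¬ G.Adj a b)
    (h2 : ∀ m, G.Adj a m → ¬ G.Adj m b) (h3 : ∀ m n, G.Adj a m → G.Adj m n → ¬ G.Adj n b) :
    ker G θ (ev a) (ev b) = -1 := by
  have := ker_U H (U_ev ha) (U_ev hb) zero_le_one zero_le_one
  rw [one_smul, one_smul] at this
  rw [this]
  rcases (dd_le_pi (G := G) (θ := θ) (ev a) (ev b)).eq_or_lt with e | e
  · simp [e]
  obtain ⟨a', ha', -, h4⟩ := vert H (U_ev ha) e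
  obtain rfl := ev_ne.1 ha'
  have w := D_spec h4
  obtain k | k | k | k : D G a' b = 0 ∨ D G a' b = 1 ∨ D G a' b = 2 ∨ D G a' b = 3 := by omega
  all_goals rw [k] at w
  · exact absurd w h0
  · obtain ⟨_, rfl, w⟩ := w
    exact absurd w h1
  · obtain ⟨m, ⟨_, rfl, u⟩, w⟩ := w
    exact absurd w (h2 m u)
  · obtain ⟨n, ⟨m, ⟨_, rfl, v⟩, u⟩, w⟩ := w
    exact absurd w (h3 m n v u)

/-- The cone over a graph of girth at least eight with edges of angle `θ ∈ [π/4, π)`. -/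
theorem graph_kernel (G : SimpleGraph V) (A : Set V)
    (hA : ∀ a b, G.Adj a b → a ∈ A) (hG : Girth8 G) (θ : ℝ) (h4 : π / 4 ≤ θ) (hπ : θ < π) :
    ∃ ip : (V → ℝ) → (V → ℝ) → ℝ,
      (∀ z w, ip z w = ip w z) ∧ (∀ w, ip 0 w = 0) ∧
      (∀ l, 0 ≤ l → ∀ z w, ip (l • z) w = l * ip z w) ∧
      (∀ z w, InCone G A z → InCone G A w → 2 * ip z w ≤ ip z z + ip w w) ∧
      (∀ z w, InCone G A z → InCone G A w → ip z z + ip w w ≤ 2 * ip z w → z = w) ∧
      (∀ a b, InCone G A a → InCone G A b → ∃ p, InCone G A p ∧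
        (∀ x, InCone G A x → ip x a + ip x b ≤ ip x p) ∧
        ip p p = ip a a + ip b b + 2 * ip a b) ∧
      (∀ z w, InCone G A z → InCone G A w → InCone G A (z + w) → ip z w = Bf G (cos θ) z w) ∧
      (∀ a ∈ A, ∀ b ∈ A, a ≠ b → ¬ G.Adj a b → (∀ m, G.Adj a m → ¬ G.Adj m b) →
        (∀ m n, G.Adj a m → G.Adj m n → ¬ G.Adj n b) →
        ip (Pi.single a 1) (Pi.single b 1) = -1) := by
  have H : Hy G A θ := ⟨hA, hG, by linarith, hπ⟩
  refine ⟨ker G θ, ker_comm, ker_zero, fun l hl => ker_smul hl, fun z w hz hw => ?_,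
    fun z w hz hw h => ?_, fun a b => ker_ad H, fun z w => ker_cell H,
    fun a ha b hb => ker_far H ha hb⟩
  · rcases polar H hz with rfl | ⟨r, x, r0, hx, rfl⟩ <;>
      rcases polar H hw with rfl | ⟨ρ, u, ρ0, hu, rfl⟩
    · simp [ker_zero]
    · rw [ker_zero, ker_zero, ker_self H hu ρ0.le ρ0.le]
      nlinarith
    · rw [ker_zero', ker_zero, ker_self H hx r0.le r0.le]
      nlinarith
    · rw [ker_self H hx r0.le r0.le, ker_self H hu ρ0.le ρ0.le, ker_U H hx hu r0.le ρ0.le]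
      nlinarith [mul_le_mul_of_nonneg_left (cos_le_one (dd G θ x u)) (mul_pos r0 ρ0).le,
        sq_nonneg (r - ρ)]
  · rcases polar H hz with rfl | ⟨r, x, r0, hx, rfl⟩ <;>
      rcases polar H hw with rfl | ⟨ρ, u, ρ0, hu, rfl⟩
    · rfl
    · rw [ker_zero, ker_zero, ker_self H hu ρ0.le ρ0.le] at h
      nlinarith
    · rw [ker_zero, ker_zero', ker_self H hx r0.le r0.le] at h
      nlinarith
    · rw [ker_self H hx r0.le r0.le, ker_self H hu ρ0.le ρ0.le, ker_U H hx hu r0.le ρ0.le] at h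
      have c1 := mul_le_mul_of_nonneg_left (cos_le_one (dd G θ x u)) (mul_pos r0 ρ0).le
      obtain rfl : r = ρ := by nlinarith [sq_nonneg (r - ρ)]
      have c2 : cos (dd G θ x u) = 1 :=
        le_antisymm (cos_le_one _) (le_of_mul_le_mul_left (by linarith) (mul_pos r0 r0))
      have c3 : dd G θ x u = 0 := by
        have := arccos_cos (dd_nonneg H x u) (dd_le_pi x u)
        rw [c2, arccos_one] at this
        exact this.symm
      rw [eq_of_dd H hx hu c3]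

end Pool.Agent.Lib.MP_c2693b_gt.Gc
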