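import Pool.Agent.Lib.MP_c2693b_gt.LkBase
import Pool.Agent.Lib.MP_c2693b_gt.Gc
import Pool.Agent.Lib.MP_c2693b_gt.ConeGlue

/-! Link cones are cone algebras. -/

namespace Pool.Agent.Lib.MP_c2693b_gt.Lk

open Set ConeAlg Tri Sum Real

theorem glueStmt : GlueStmt := fun C _ _ Y hc ho hs ha => by
  obtain ⟨D, i, p, h, h1, h2, h3, h4, h5⟩ := glue Y hc ho hs fun a b x y => ha a x b y
  exact ⟨D, i, p, h, h1, h2, h3, fun l hl a => h4 l a hl, h5⟩

theorem kerStmt : KerStmt := fun _ _ _ G A hA hG θ h4 hπ => Gc.graph_kernel G A hA hG θ h4 hπ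

variable {S : Type} [Fintype S] [DecidableEq S]

/-- The link cone of a set `s0` of vertices that contains a vertex `x` of `kG`. -/
theorem link_cone_kG (P : Sphere kG S) (s0 : Finset (KV ⊕ S))
    {x : KV} (hx : inl x ∈ s0) {θ : ℝ} (h4 : π / 4 ≤ θ) (hπ : θ < π) :
    ∃ (C : Type) (_ : ConeAlg C) (X : Cells P.T {w | ∀ s ∈ s0, P.T.Adj s w} (gram (cos θ)) C),
      ∀ (a b : KV) (u w : C), X.co u = Pi.single (inl a) 1 → X.co w = Pi.single (inl b) 1 →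
        a ≠ b → a.1 = b.1 → (∀ m, kG.Adj x m → kG.Adj a m → kG.Adj b m → False) →
        ip u w = -1 := link_cone_kG_of glueStmt kerStmt P s0 hx h4 hπ

lemma exists_angle {c : ℝ} (hc : c ^ 2 = 1 / 2) : ∃ θ, π / 4 ≤ θ ∧ θ < π ∧ cos θ = c := by
  have h2 : (√2 / 2) ^ 2 = (1 / 2 : ℝ) := by
    rw [div_pow, sq_sqrt zero_le_two]
    norm_num
  rcases sq_eq_sq_iff_eq_or_eq_neg.1 (hc.trans h2.symm) with h | h
  · exact ⟨π / 4, le_rfl, by linarith [pi_pos], by rw [cos_pi_div_four, h]⟩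
  · exact ⟨π - π / 4, by linarith [pi_pos], by linarith [pi_pos], by
      rw [cos_pi_sub, cos_pi_div_four, h]⟩

/-- The link cone for the product `c` with `c ^ 2 = 1 / 2`. -/
theorem exists_cells (P : Sphere kG S) (s0 : Finset (KV ⊕ S)) {x : KV} (hx : inl x ∈ s0) {c : ℝ}
    (hc : c ^ 2 = 1 / 2) : ∃ (C : Type) (_ : ConeAlg C),
      Nonempty (Cells P.T {w | ∀ s ∈ s0, P.T.Adj s w} (gram c) C) := by
  obtain ⟨θ, h4, hπ, rfl⟩ := exists_angle hc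
  obtain ⟨C, _, X, -⟩ := link_cone_kG P s0 hx h4 hπ
  exact ⟨C, inferInstance, ⟨X⟩⟩

/-- Far vertices of the link are opposite, in every link cone. -/
theorem Cells.far (P : Sphere kG S) (s0 : Finset (KV ⊕ S)) {x : KV} (hx : inl x ∈ s0) {c : ℝ}
    (hc : c ^ 2 = 1 / 2) {C : Type} [ConeAlg C]
    (X : Cells P.T {w | ∀ s ∈ s0, P.T.Adj s w} (gram c) C) {a b : KV} {u w : C} {l m : ℝ}
    (hl : 0 ≤ l) (hm : 0 ≤ m) (hu : X.co u = Pi.single (inl a) l)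
    (hw : X.co w = Pi.single (inl b) m) (hab : a ≠ b) (hcol : a.1 = b.1)
    (h : ∀ y, kG.Adj x y → kG.Adj a y → kG.Adj b y → False) : ip u w = -(l * m) := by
  obtain ⟨θ, h4, hπ, rfl⟩ := exists_angle hc
  obtain ⟨D, _, Y, hY⟩ := link_cone_kG P s0 hx h4 hπ
  have one : ∀ {a : KV} {u : C} {l : ℝ}, 0 < l → X.co u = Pi.single (inl a) l →
      ∃ u' : D, Y.co u' = Pi.single (inl a) 1 ∧ X.co u = Y.co (sm l u') := by
    intro a u l hl hu
    obtain ⟨u', e⟩ := Y.surj _ (X.mem (sm l⁻¹ u)) (X.supp _)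
    rw [X.co_sm (inv_nonneg.2 hl.le), hu, ← Pi.single_smul, smul_eq_mul,
      inv_mul_cancel₀ hl.ne'] at e
    exact ⟨u', e, by rw [Y.co_sm hl.le, e, hu, ← Pi.single_smul, smul_eq_mul, mul_one]⟩
  rcases hl.eq_or_lt with rfl | hl'
  · rw [X.inj (hu.trans ((Pi.single_zero _).trans X.co_o.symm)), ip_o]
    simp
  rcases hm.eq_or_lt with rfl | hm'
  · rw [X.inj (hw.trans ((Pi.single_zero _).trans X.co_o.symm)), ip_o']
    simp
  obtain ⟨u', e1, e2⟩ := one hl' hu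
  obtain ⟨w', e3, e4⟩ := one hm' hw
  rw [X.ip_unique Y e2 e4, ip_sm hl, ip_sm' hm, hY a b u' w' e1 e3 hab hcol h]
  ring

end Pool.Agent.Lib.MP_c2693b_gt.Lk
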