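import Pool.Agent.Lib.MP_c2693b_gt.LmCo

/-! Helper lemmas for the local model. -/

set_option linter.unusedSectionVars false

open scoped BigOperators Classical
open Set

namespace Pool.Agent.Lib.MP_c2693b_gt.Sm

open Ar Lk Tri

variable {S : Type} [Fintype S] [DecidableEq S] {P : Piece S}
variable {V : Type} [Fintype V] {T : SimpleGraph (V ⊕ S)} {cv : V → ZMod 3}

theorem hcol_of {K : SimpleGraph V} (X : Sphere K S) (h : ∀ x y, K.Adj x y → cv x ≠ cv y) :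
    ∀ w w', X.T.Adj w w' → (Sum.map cv id w : Col S) ≠ Sum.map cv id w' := by
  rintro (x | s) (y | t) ha
  · simpa using h x y ((X.t1 x y).1 ha)
  · simp
  · simp
  · simpa using ha.ne

theorem gram_col (hcol : ∀ w w', T.Adj w w' → (Sum.map cv id w : Col S) ≠ Sum.map cv id w')
    {σ : Set (V ⊕ S)} (hσ : T.IsClique σ) (c : ℝ) {w w'} (h : w ∈ σ) (h' : w' ∈ σ) :
    gram c w w' = gram c (Sum.map cv id w : Col S) (Sum.map cv id w') := by
  rcases w with x | s <;> rcases w' with y | t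
  · by_cases e : x = y
    · simp [gram, e]
    · have : cv x ≠ cv y := by simpa using hcol _ _ (hσ h h' (by simpa using e))
      simp [gram, e, this]
  all_goals simp [gram]

theorem sum_fib {W : Type} [Fintype W] (col : W → Col S) (u : W → ℝ) (f : Col S → ℝ) :
    ∑ w, u w * f (col w) = ∑ φ, (∑ w with col w = φ, u w) * f φ := by
  rw [← Finset.sum_fiberwise Finset.univ col]
  refine Finset.sum_congr rfl fun φ _ => ?_
  rw [Finset.sum_mul]
  exact Finset.sum_congr rfl fun w hw => by rw [(Finset.mem_filter.1 hw).2]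

/-- on one cell the form only depends on the colour sums. -/
theorem bf_sum (hcol : ∀ w w', T.Adj w w' → (Sum.map cv id w : Col S) ≠ Sum.map cv id w')
    {σ : Set (V ⊕ S)} (hσ : T.IsClique σ) (c : ℝ) {u u' : V ⊕ S → ℝ} (h : ∀ w, u w ≠ 0 → w ∈ σ)
    (h' : ∀ w, u' w ≠ 0 → w ∈ σ) :
    bf (gram c) u u' = bf (gram c) (fun φ : Col S => ∑ w with Sum.map cv id w = φ, u w)
      fun φ => ∑ w with Sum.map cv id w = φ, u' w := by
  have e : bf (gram c) u u' = ∑ w, u w * ∑ w', u' w' *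
      gram c (Sum.map cv id w : Col S) (Sum.map cv id w') := by
    simp only [bf, Finset.mul_sum]
    refine Finset.sum_congr rfl fun w _ => Finset.sum_congr rfl fun w' _ => ?_
    by_cases a : u w = 0
    · simp [a]
    by_cases b : u' w' = 0
    · simp [b]
    rw [gram_col hcol hσ c (h w a) (h' w' b), mul_assoc]
  rw [e, sum_fib (Sum.map cv id) u fun φ => ∑ w', u' w' * gram c φ (Sum.map cv id w'), bf]
  refine Finset.sum_congr rfl fun φ _ => ?_
  rw [sum_fib (Sum.map cv id) u' fun ψ => gram c φ ψ, Finset.mul_sum]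
  exact Finset.sum_congr rfl fun ψ _ => by ring

theorem sum_eq_of {W : Type} [Fintype W] {T : SimpleGraph W} {col : W → Col S}
    (hcol : ∀ w w', T.Adj w w' → col w ≠ col w') {σ : Set W} (hσ : T.IsClique σ) {u : W → ℝ}
    {a : Col S → ℝ} (h : ∀ w, u w ≠ 0 → w ∈ σ ∧ u w = a (col w))
    (ha : ∀ φ, a φ ≠ 0 → ∃ w, col w = φ ∧ u w ≠ 0) (φ) : ∑ w with col w = φ, u w = a φ := by
  by_cases h0 : a φ = 0
  · rw [h0]
    refine Finset.sum_eq_zero fun w hw => ?_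
    by_contra hc
    exact hc (by rw [(h w hc).2, (Finset.mem_filter.1 hw).2, h0])
  · obtain ⟨w0, rfl, h1⟩ := ha φ h0
    rw [← (h w0 h1).2]
    refine Finset.sum_eq_single_of_mem w0 (by simp) fun w hw hne => ?_
    by_contra hc
    exact hcol _ _ (hσ (h w hc).1 (h w0 h1).1 hne) (Finset.mem_filter.1 hw).2

theorem bf_col (hcol : ∀ w w', T.Adj w w' → (Sum.map cv id w : Col S) ≠ Sum.map cv id w')
    {σ : Set (V ⊕ S)} (hσ : T.IsClique σ) (c : ℝ) {u u' : V ⊕ S → ℝ} {a a' : Col S → ℝ}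
    (h : ∀ w, u w ≠ 0 → w ∈ σ ∧ u w = a (Sum.map cv id w))
    (ha : ∀ φ, a φ ≠ 0 → ∃ w, Sum.map cv id w = φ ∧ u w ≠ 0)
    (h' : ∀ w, u' w ≠ 0 → w ∈ σ ∧ u' w = a' (Sum.map cv id w))
    (ha' : ∀ φ, a' φ ≠ 0 → ∃ w, Sum.map cv id w = φ ∧ u' w ≠ 0) :
    bf (gram c) u u' = bf (gram c) a a' := by
  rw [bf_sum hcol hσ c (fun w hw => (h w hw).1) fun w hw => (h' w hw).1,
    funext (sum_eq_of hcol hσ h ha), funext (sum_eq_of hcol hσ h' ha')]

theorem card_supp {W : Type} [Fintype W] {T : SimpleGraph W} {col : W → Col S}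
    (hcol : ∀ w w', T.Adj w w' → col w ≠ col w') {p} (hp : p ∈ Mh P T col) :
    Set.ncard {φ | ¬ Van P p.2 φ} = (Finset.univ.filter fun w => p.1 w ≠ 0).card := by
  have e : {φ | ¬ Van P p.2 φ} = col '' {w | p.1 w ≠ 0} := by
    ext φ
    exact ⟨fun h => let ⟨w, h1, h2⟩ := Mh_exists hp h; ⟨w, h2, h1⟩,
      fun ⟨w, h1, h2⟩ => h2 ▸ Mh_not_van hp h1⟩
  have hi : InjOn col {w | p.1 w ≠ 0} := fun w h w' h' e => cone_inj hcol hp.1 h h' e
  rw [e, hi.ncard_image, ← Set.ncard_coe_finset]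
  congr 1
  ext w
  simp

theorem supp_meets {p} (hp : p ∈ Mh P T (Sum.map cv id)) : ∃ x, p.1 (.inl x) ≠ 0 := by
  obtain ⟨i, hi⟩ := P.not3 p.2 hp.2.1.1
  obtain ⟨w, h1, h2⟩ := Mh_exists hp (φ := .inl i) fun ⟨ρ, h, h0⟩ => hi ρ h h0
  rcases w with x | s
  · exact ⟨x, h2⟩
  · simp at h1

theorem exists_theta {c : ℝ} (h : c ^ 2 = 1 / 2) :
    ∃ θ, Real.pi / 4 ≤ θ ∧ θ < Real.pi ∧ Real.cos θ = c ∧ (0 < c → θ = Real.pi / 4) := by
  have s2 : √2 ^ 2 = 2 := Real.sq_sqrt (by norm_num)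
  have sp : 0 < √2 := Real.sqrt_pos.2 (by norm_num)
  have hp := Real.pi_pos
  rcases sq_eq_sq_iff_eq_or_eq_neg.1 (show c ^ 2 = (√2 / 2) ^ 2 by rw [h, div_pow, s2]; norm_num)
    with rfl | rfl
  · exact ⟨_, le_rfl, by linarith, Real.cos_pi_div_four, fun _ => rfl⟩
  · refine ⟨Real.pi - Real.pi / 4, by linarith, by linarith, ?_, fun h => by linarith⟩
    rw [Real.cos_pi_sub, Real.cos_pi_div_four]

theorem abs_lt_one_of {c : ℝ} (h : c ^ 2 = 1 / 2) : |c| < 1 :=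
  (sq_lt_one_iff_abs_lt_one c).1 (by rw [h]; norm_num)

end Pool.Agent.Lib.MP_c2693b_gt.Sm
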