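import Pool.Agent.Lib.MP_c2693b_gt.Cm2
import Pool.Agent.Lib.MP_c2693b_gt.LmAux
import Pool.Agent.Lib.MP_c2693b_gt.Lk
import Pool.Agent.Lib.MP_c2693b_gt.KMap

/-! Every point of `Mh` has a local model over a link cone. -/

set_option autoImplicit false

open scoped Classical
open Set Real Sum

namespace Pool.Agent.Lib.MP_c2693b_gt.Cm

open Ar Tri Sm Lk ConeAlg KMap

variable {S : Type} [Fintype S] [DecidableEq S] (P : Piece S) (X : Sphere kG S)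

lemma hcol : ∀ w w', X.T.Adj w w' → (kcol Prod.fst w : Col S) ≠ kcol Prod.fst w' :=
  kcol_adj (fun _ _ => kG_col) X

/-- The local model, indexed by the finite set `s0` of vertices of the cell of `x0`. -/
theorem model (x0 : Mh P X.T (kcol Prod.fst)) : ∃ (s0 : Finset (KV ⊕ S)) (k : ℕ) (c : ℝ) (C : Type)
    (_ : ConeAlg C) (Y : Cells X.T {w | ∀ s ∈ s0, X.T.Adj s w} (gram c) C) (r : ℝ)
    (φ : Mh P X.T (kcol Prod.fst) → Hyp (CProd (Euc k) C))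
    (ψ : Hyp (CProd (Euc k) C) → Mh P X.T (kcol Prod.fst)),
    (steps P X.T (kcol Prod.fst)).Model x0 r φ ψ ∧ φ x0 = ⟨o⟩ ∧ (∀ w, w ∈ s0 ↔ x0.1.1 w ≠ 0) ∧
      X.T.IsClique s0 ∧ (∃ v, inl v ∈ s0) ∧ k + 1 = s0.card ∧ c ^ 2 = 1 / 2 ∧
      ∀ x ∈ (steps P X.T (kcol Prod.fst)).U x0 r, ∀ w, Y.co (φ x).val.2 w ≠ 0 →
        x.1.1 w ≠ 0 ∧ w ∉ s0 := by
  obtain ⟨k, c, κ, e, h1, h2, -, h3, h4, h5, -⟩ := split (P := P) x0.2.2.1.1
  obtain ⟨v, hv⟩ := supp_meets (cv := Prod.fst) x0.2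
  have hs : ∀ w, w ∈ (Finset.univ.filter fun w => x0.1.1 w ≠ 0) ↔ x0.1.1 w ≠ 0 :=
    fun w => Finset.mem_filter_univ w
  have h6 := h1.trans (card_supp (hcol X) x0.2)
  generalize (Finset.univ.filter fun w => x0.1.1 w ≠ 0) = s0 at hs h6
  obtain ⟨C, _, ⟨Y⟩⟩ := exists_cells X s0 ((hs _).2 hv) h2
  obtain ⟨D, rfl⟩ := exists_data (cV := Prod.fst) (hcol X) x0 ⟨h3, h4, h5⟩
    (fun w => forall_congr' fun s => imp_congr_left (hs s)) Y
  refine ⟨_, k, c, C, inferInstance, D.X, D.r, D.φ, D.ψ, D.model, D.φ_base, hs,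
    fun w a w' b => supp_clique x0.2.1 ((hs w).1 a) ((hs w').1 b), ⟨v, (hs _).2 hv⟩,
    h6, h2, fun x hx w hw => ⟨?_, fun k => ?_⟩⟩
  · rw [D.co_φ (Steps.U_mono (by linarith [D.pos]) hx)] at hw
    exact (D.uu_ne hw).1
  · exact (D.X.supp _ w hw w k).ne rfl

/-- The local model in the form used for the map of the complex `K`. -/
theorem hmod (x0 : Mh P X.T (kcol Prod.fst)) : ∃ (k : ℕ) (θ : ℝ) (C : Type) (_ : ConeAlg C)
    (Y : Cells X.T {w | ∀ s, x0.1.1 s ≠ 0 → X.T.Adj s w} (gram (cos θ)) C) (r : ℝ)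
    (φ : Mh P X.T (kcol Prod.fst) → Hyp (CProd (Euc k) C))
    (ψ : Hyp (CProd (Euc k) C) → Mh P X.T (kcol Prod.fst)),
    (steps P X.T (kcol Prod.fst)).Model x0 r φ ψ ∧ φ x0 = ⟨o⟩ ∧
      k + 1 = Set.ncard {w | x0.1.1 w ≠ 0} ∧ π / 4 ≤ θ ∧ θ < π ∧
      ∀ x ∈ (steps P X.T (kcol Prod.fst)).U x0 r, ∀ w, Y.co (φ x).val.2 w ≠ 0 → x.1.1 w ≠ 0 := by
  obtain ⟨s0, k, c, C, _, Y, r, φ, ψ, h1, h2, h3, -, -, h4, h5, h6⟩ := model P X x0
  obtain ⟨θ, t1, t2, rfl, -⟩ := exists_theta h5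
  refine ⟨k, θ, C, inferInstance, ⟨Y.co, Y.inj, Y.mem, fun a w h s hs => Y.supp a w h s ((h3 s).2 hs),
    fun z hz h => Y.surj z hz fun w hw s hs => h w hw s ((h3 s).1 hs), Y.co_sm, Y.ip_cell⟩,
    r, φ, ψ, h1, h2, ?_, t1, t2, fun x hx w hw => (h6 x hx w hw).1⟩
  rw [h4, ← Set.ncard_coe_finset]
  exact congrArg _ (Set.ext h3)

theorem hasModels : (steps P X.T (kcol Prod.fst)).HasModels := fun x0 => by
  obtain ⟨_, _, _, _, _, _, r, φ, ψ, h, -⟩ := model P X x0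
  exact ⟨_, inferInstance, r, φ, ψ, h⟩

variable (b : Mh P X.T (kcol Prod.fst))

instance : CompactSpace ((steps P X.T (kcol Prod.fst)).M b) := compact (hcol X) (hasModels P X) b

theorem geodesic_M : GeodesicIn (univ : Set ((steps P X.T (kcol Prod.fst)).M b)) :=
  Steps.geodesic (hasModels P X)

open scoped Manifold ContDiff in
theorem smooth_M : ∃ _ : ChartedSpace (Euc (Fintype.card KV - 1)) ((steps P X.T (kcol Prod.fst)).M b),
    IsManifold (𝓡 (Fintype.card KV - 1)) ∞ ((steps P X.T (kcol Prod.fst)).M b) :=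
  smooth (hcol X) X.sm (hasModels P X) b

/-- Small balls of `M` are balls of hyperbolic models over link cones. -/
theorem ball_M (m : (steps P X.T (kcol Prod.fst)).M b) :
    ∃ (s0 : Finset (KV ⊕ S)) (k : ℕ) (c : ℝ) (C : Type) (_ : ConeAlg C)
      (_ : Cells X.T {w | ∀ s ∈ s0, X.T.Adj s w} (gram c) C) (r : ℝ)
      (j : Hyp (CProd (Euc k) C) → (steps P X.T (kcol Prod.fst)).M b),
      BallModel m ⟨o⟩ r j ∧ X.T.IsClique s0 ∧ (∃ v, inl v ∈ s0) ∧ k + 1 = s0.card ∧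
        c ^ 2 = 1 / 2 := by
  obtain ⟨x, hx, rfl⟩ := Steps.π_surj m
  obtain ⟨s0, k, c, C, _, Y, r, φ, ψ, h1, h2, -, h3, h4, h5, h6, -⟩ := model P X x
  exact ⟨s0, k, c, C, inferInstance, Y, r, _, h2 ▸ h1.ballModel hx, h3, h4, h5, h6⟩

end Pool.Agent.Lib.MP_c2693b_gt.Cm

namespace Pool.Agent.Lib.MP_c2693b_gt

theorem GeodesicIn.connectedSpace {M : Type} [MetricSpace M] [Nonempty M]
    (h : GeodesicIn (univ : Set M)) : ConnectedSpace M := by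
  refine { isPreconnected_univ := isPreconnected_of_forall_pair fun x _ y _ => ?_
           toNonempty := inferInstance }
  obtain ⟨γ, ⟨h0, h1, h2⟩, -⟩ := h x trivial y trivial
  refine ⟨γ '' Icc 0 1, subset_univ _, ⟨0, by simp, h0⟩, ⟨1, by simp, h1⟩,
    isPreconnected_Icc.image _ (LipschitzOnWith.of_dist_le_mul (K := nndist x y)
      fun s hs t ht => ?_).continuousOn⟩
  rw [h2 s hs t ht, mul_comm]
  rfl

end Pool.Agent.Lib.MP_c2693b_gt
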