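import Pool.Agent.Lib.MP_c2693b_gt.ConeCN

namespace Pool.Agent.Lib.MP_c2693b_gt

open Set

variable {X : Type*} [MetricSpace X]

/-- `S` is a geodesic CAT(0) subspace. -/
def CNIn (S : Set X) : Prop := ∀ a ∈ S, ∀ b ∈ S, ∀ t ∈ Icc (0 : ℝ) 1, ∃ p ∈ S, CNPt S a b t p

variable {A B : Set X}

lemma CNIn.cnPt (h : CNIn A) {a b q : X} {t : ℝ} (ha : a ∈ A) (hb : b ∈ A) (ht : t ∈ Icc (0 : ℝ) 1)
    (hq : q ∈ A) (h1 : dist a q ≤ t * dist a b) (h2 : dist q b ≤ (1 - t) * dist a b) :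
    CNPt A a b t q := by
  obtain ⟨p, -, hp⟩ := h a ha b hb t ht
  rwa [hp.unique ht hq h1 h2]

lemma CNIn.quad (h : CNIn B) {a b c e : X} (ha : a ∈ B) (hb : b ∈ B) (hc : c ∈ B) (he : e ∈ B)
    {s t : ℝ} (hs : s ∈ Icc (0 : ℝ) 1) (ht : t ∈ Icc (0 : ℝ) 1) :
    s * (1 - s) * dist a b ^ 2 + t * (1 - t) * dist c e ^ 2 ≤
      (1 - s) * (1 - t) * dist a c ^ 2 + (1 - s) * t * dist a e ^ 2 +
        s * (1 - t) * dist b c ^ 2 + s * t * dist b e ^ 2 := by
  obtain ⟨p, -, hp⟩ := h a ha b hb s hs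
  obtain ⟨q, hqB, hq⟩ := h c hc e he t ht
  have h1 := hp q hqB
  have h2 := mul_le_mul_of_nonneg_left (hq a ha) (sub_nonneg.2 hs.2)
  have h3 := mul_le_mul_of_nonneg_left (hq b hb) hs.1
  rw [dist_comm q a, dist_comm q b] at h1
  linarith [sq_nonneg (dist q p)]

lemma CNIn.star (h : CNIn B) {p q y z : X} (hp : p ∈ B) (hq : q ∈ B) (hy : y ∈ B) (hz : z ∈ B)
    {u v : ℝ} (hu : 0 < u) (hv : 0 < v) :
    (v + 1) * dist q y ^ 2 + (u + 1) * dist p z ^ 2 ≤
      (u + 1) * (v + 1) * dist p q ^ 2 + dist y z ^ 2 + (u + 1) * v * (dist p y ^ 2 / u) +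
        (v + 1) * u * (dist q z ^ 2 / v) := by
  have hW : 0 < u * v + u + v := by positivity
  have huv := mul_pos hu hv
  have h1 := h.quad hq hy hp hz (s := v / (u * v + u + v)) (t := u / (u * v + u + v))
    ⟨by positivity, (div_le_one hW).2 (by linarith)⟩ ⟨by positivity, (div_le_one hW).2 (by linarith)⟩
  have e1 : 1 - v / (u * v + u + v) = u * (v + 1) / (u * v + u + v) := by
    field_simp
    ring
  have e2 : 1 - u / (u * v + u + v) = v * (u + 1) / (u * v + u + v) := by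
    field_simp
    ring
  rw [e1, e2, dist_comm q p, dist_comm y p] at h1
  simp only [div_eq_mul_inv] at h1
  have hw : 0 < (u * v + u + v)⁻¹ := by positivity
  generalize (u * v + u + v)⁻¹ = w at *
  have f1 : dist p y ^ 2 = u * (dist p y ^ 2 / u) := by field_simp
  have f2 : dist q z ^ 2 = v * (dist q z ^ 2 / v) := by field_simp
  generalize dist p y ^ 2 / u = P at *
  generalize dist q z ^ 2 / v = Q at *
  rw [f1, f2] at h1
  refine le_of_mul_le_mul_left ?_ (by positivity : 0 < w ^ 2 * (u * v))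
  linarith

lemma exists_weight {a b e : ℝ} (ha : 0 ≤ a) (hb : 0 ≤ b) (he : 0 < e) :
    ∃ u, 0 < u ∧ (u + 1) * (a ^ 2 + b ^ 2 / u) ≤ (a + b) ^ 2 + e * (a + b) := by
  refine ⟨(b + e) / (a + e), by positivity, ?_⟩
  have h1 : (b + e) / (a + e) * a ^ 2 ≤ (b + e) * a := by
    rw [div_mul_eq_mul_div, div_le_iff₀ (by positivity)]
    nlinarith [mul_nonneg (mul_nonneg (add_nonneg hb he.le) ha) he.le]
  have h2 : b ^ 2 / ((b + e) / (a + e)) ≤ b * (a + e) := by
    rw [div_div_eq_mul_div, div_le_iff₀ (by positivity)]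
    nlinarith [mul_nonneg (mul_nonneg (add_nonneg ha he.le) hb) he.le]
  have h3 : (b + e) / (a + e) * (b ^ 2 / ((b + e) / (a + e))) = b ^ 2 :=
    mul_div_cancel₀ _ (by positivity)
  nlinarith

/-- A segment in one piece and a test point in the other piece. -/
lemma cn_mixed (hA : CNIn A) (hB : CNIn B)
    (hY : ∀ a ∈ A ∩ B, ∀ b ∈ A ∩ B, ∀ t ∈ Icc (0 : ℝ) 1, ∃ p ∈ A ∩ B,
      dist a p ≤ t * dist a b ∧ dist p b ≤ (1 - t) * dist a b)
    (hX : ∀ x ∈ A, ∀ y ∈ B, ∃ p ∈ A ∩ B, dist x p + dist p y ≤ dist x y)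
    {y z m : X} {t : ℝ} (hy : y ∈ B) (hz : z ∈ B) (ht : t ∈ Icc (0 : ℝ) 1)
    (hm : CNPt B y z t m) : CNPt A y z t m := by
  intro x hx
  obtain ⟨p, hp, ep⟩ := hX x hx y hy
  obtain ⟨q, hq, eq⟩ := hX x hx z hz
  have ht1 := sub_nonneg.2 ht.2
  have ht0 := ht.1
  have key : ∀ u v : ℝ, 0 < u → 0 < v → dist x m ^ 2 ≤
      (1 - t) * ((u + 1) * (dist x p ^ 2 + dist p y ^ 2 / u)) +
        t * ((v + 1) * (dist x q ^ 2 + dist q z ^ 2 / v)) - t * (1 - t) * dist y z ^ 2 := by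
    intro u v hu hv
    obtain ⟨T, hT⟩ : ∃ T, T = (1 - t) * u + t * v := ⟨_, rfl⟩
    have T0 : 0 < T := by
      rw [hT]
      rcases ht0.eq_or_lt with h | h
      · rw [← h]
        linarith
      · positivity
    have hl : t * (v + 1) / (T + 1) ∈ Icc (0 : ℝ) 1 :=
      ⟨by positivity, (div_le_one (by positivity)).2 (by nlinarith [mul_nonneg ht1 hu.le])⟩
    have el : 1 - t * (v + 1) / (T + 1) = (1 - t) * (u + 1) / (T + 1) := by
      field_simp
      rw [hT]
      ring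
    obtain ⟨r, hr, r1, r2⟩ := hY p hp q hq _ hl
    have c1 := hA.cnPt hp.1 hq.1 hl hr.1 r1 r2 x hx
    have c2 := hB.cnPt hp.2 hq.2 hl hr.2 r1 r2 y hy
    have c3 := hB.cnPt hp.2 hq.2 hl hr.2 r1 r2 z hz
    have c4 := hm r hr.2
    have c5 := hB.star hp.2 hq.2 hy hz hu hv
    have c6 : T * dist x m ^ 2 ≤ (T + 1) * (T * dist x r ^ 2 + dist r m ^ 2) := by
      have := pow_le_pow_left₀ dist_nonneg (dist_triangle x r m) 2
      nlinarith [mul_le_mul_of_nonneg_left this T0.le, sq_nonneg (T * dist x r - dist r m)]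
    rw [el] at c1 c2 c3
    rw [dist_comm y r, dist_comm y p, dist_comm y q] at c2
    rw [dist_comm z r, dist_comm z p, dist_comm z q] at c3
    have f1 : dist p y ^ 2 = u * (dist p y ^ 2 / u) := by field_simp
    have f2 : dist q z ^ 2 = v * (dist q z ^ 2 / v) := by field_simp
    generalize dist p y ^ 2 / u = P at *
    generalize dist q z ^ 2 / v = Q at *
    rw [f1] at c2
    rw [f2] at c3
    have hw : (T + 1) * (T + 1)⁻¹ = 1 := mul_inv_cancel₀ (by positivity)
    simp only [div_eq_mul_inv] at c1 c2 c3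
    generalize (T + 1)⁻¹ = w at *
    have g : ∀ {a b c d : ℝ}, a ≤ (1 - t) * (u + 1) * w * b + t * (v + 1) * w * c -
        t * (v + 1) * w * ((1 - t) * (u + 1) * w) * d → (T + 1) * a ≤
        (1 - t) * (u + 1) * b + t * (v + 1) * c - t * (v + 1) * ((1 - t) * (u + 1) * w) * d := by
      intro a b c d h
      refine (mul_le_mul_of_nonneg_left h (by positivity)).trans_eq ?_
      linear_combination ((1 - t) * (u + 1) * b + t * (v + 1) * c -
        t * (v + 1) * ((1 - t) * (u + 1) * w) * d) * hw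
    have d1 := mul_le_mul_of_nonneg_left (g c1) T0.le
    have d2 := mul_le_mul_of_nonneg_left (g c2) ht1
    have d3 := mul_le_mul_of_nonneg_left (g c3) ht0
    have d4 := mul_le_mul_of_nonneg_left c4 (by positivity : 0 ≤ T + 1)
    have d5 := mul_le_mul_of_nonneg_left c5 (mul_nonneg ht0 ht1)
    refine le_of_mul_le_mul_left ?_ T0
    have d6 : (T + 1) * w * (t * (1 - t) * (u + 1) * (v + 1) * dist p q ^ 2) =
        t * (1 - t) * (u + 1) * (v + 1) * dist p q ^ 2 := by rw [hw, one_mul]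
    have d7 : T * ((1 - t) * (u + 1) * P + t * (v + 1) * Q) =
        ((1 - t) * u + t * v) * ((1 - t) * (u + 1) * P + t * (v + 1) * Q) := by rw [hT]
    linarith
  refine le_of_forall_pos_le_add fun e he => ?_
  have hs : 0 < dist x y + dist x z + 1 := by positivity
  obtain ⟨u, hu, h1⟩ := exists_weight (dist_nonneg (x := x) (y := p)) (dist_nonneg (x := p) (y := y))
    (div_pos he hs)
  obtain ⟨v, hv, h2⟩ := exists_weight (dist_nonneg (x := x) (y := q)) (dist_nonneg (x := q) (y := z))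
    (div_pos he hs)
  rw [le_antisymm ep (dist_triangle _ _ _)] at h1
  rw [le_antisymm eq (dist_triangle _ _ _)] at h2
  have h3 : e / (dist x y + dist x z + 1) * dist x y ≤ e := by
    rw [div_mul_eq_mul_div, div_le_iff₀ hs]
    nlinarith [mul_nonneg he.le (dist_nonneg (x := x) (y := z))]
  have h4 : e / (dist x y + dist x z + 1) * dist x z ≤ e := by
    rw [div_mul_eq_mul_div, div_le_iff₀ hs]
    nlinarith [mul_nonneg he.le (dist_nonneg (x := x) (y := y))]
  have h5 := mul_le_mul_of_nonneg_left (h1.trans (add_le_add le_rfl h3)) ht1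
  have h6 := mul_le_mul_of_nonneg_left (h2.trans (add_le_add le_rfl h4)) ht0
  linarith [key u v hu hv]

/-- A point from which all segments are good is good on every segment through it. -/
lemma cnPt_of_from {a b c : X} {t : ℝ} (ht : t ∈ Icc (0 : ℝ) 1) (h1 : dist a c ≤ t * dist a b)
    (h2 : dist c b ≤ (1 - t) * dist a b)
    (h : ∀ x, ∀ l ∈ Icc (0 : ℝ) 1, ∃ p, CNPt univ c x l p) : CNPt univ a b t c := by
  intro x _
  have ht1 := sub_nonneg.2 ht.2
  have e1 : dist a c = t * dist a b := by linarith [dist_triangle a c b]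
  have e2 : dist b c = (1 - t) * dist a b := by linarith [dist_triangle a c b, dist_comm b c]
  have key : ∀ l ∈ Ioc (0 : ℝ) 1, (1 - l) * dist x c ^ 2 ≤
      (1 - t) * dist x a ^ 2 + t * dist x b ^ 2 - t * (1 - t) * dist a b ^ 2 := by
    intro l hl
    obtain ⟨p, hp⟩ := h x l ⟨hl.1.le, hl.2⟩
    have c1 := mul_le_mul_of_nonneg_left (hp a trivial) ht1
    have c2 := mul_le_mul_of_nonneg_left (hp b trivial) ht.1
    have c3 := mul_le_mul_of_nonneg_left
      (pow_le_pow_left₀ dist_nonneg (dist_triangle_right a b p) 2) (mul_nonneg ht.1 ht1)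
    rw [e1, dist_comm a x, dist_comm c x] at c1
    rw [e2, dist_comm b x, dist_comm c x] at c2
    refine le_of_mul_le_mul_left ?_ hl.1
    nlinarith [sq_nonneg ((1 - t) * dist a p - t * dist b p)]
  refine le_of_forall_pos_le_add fun e he => ?_
  have hs : 0 < dist x c ^ 2 + e := by positivity
  have h3 := key (e / (dist x c ^ 2 + e)) ⟨by positivity, (div_le_one hs).2 (by nlinarith)⟩
  have h4 : e / (dist x c ^ 2 + e) * dist x c ^ 2 ≤ e := by
    rw [div_mul_eq_mul_div, div_le_iff₀ hs]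
    nlinarith
  linarith

/-- Concatenation. -/
lemma CNPt.concat {a b c m : X} {t s : ℝ} (h0 : 0 ≤ t) (hts : t < s) (h1 : s ≤ 1)
    (e1 : dist a c = s * dist a b) (e2 : dist m b = (1 - t) * dist a b)
    (hm : CNPt univ a c (t / s) m) (hc : CNPt univ m b ((s - t) / (1 - t)) c) :
    CNPt univ a b t m := by
  intro x _
  have s0 : 0 < s := by linarith
  have t1 : 0 < 1 - t := by linarith
  have c1 := mul_le_mul_of_nonneg_left (hm x trivial) s0.le
  have c2 := mul_le_mul_of_nonneg_left (hc x trivial) t1.le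
  have f1 : s * ((1 - t / s) * dist x a ^ 2 + t / s * dist x c ^ 2 -
      t / s * (1 - t / s) * dist a c ^ 2) =
      (s - t) * dist x a ^ 2 + t * dist x c ^ 2 - t * (s - t) * s * dist a b ^ 2 := by
    rw [e1]
    field_simp
  have f2 : (1 - t) * ((1 - (s - t) / (1 - t)) * dist x m ^ 2 + (s - t) / (1 - t) * dist x b ^ 2 -
      (s - t) / (1 - t) * (1 - (s - t) / (1 - t)) * dist m b ^ 2) =
      (1 - s) * dist x m ^ 2 + (s - t) * dist x b ^ 2 -
        (s - t) * (1 - s) * (1 - t) * dist a b ^ 2 := by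
    rw [e2]
    field_simp
    ring
  rw [f1] at c1
  rw [f2] at c2
  refine le_of_mul_le_mul_left ?_ (sub_pos.2 hts)
  linarith [mul_le_mul_of_nonneg_left c1 t1.le, mul_le_mul_of_nonneg_left c2 h0]

/-- Gluing of two CAT(0) spaces along a convex subspace. -/
theorem cn_glue (hU : ∀ x, x ∈ A ∨ x ∈ B) (hA : CNIn A) (hB : CNIn B)
    (hY : ∀ a ∈ A ∩ B, ∀ b ∈ A ∩ B, ∀ t ∈ Icc (0 : ℝ) 1, ∃ p ∈ A ∩ B,
      dist a p ≤ t * dist a b ∧ dist p b ≤ (1 - t) * dist a b)
    (hX : ∀ x ∈ A, ∀ y ∈ B, ∃ p ∈ A ∩ B, dist x p + dist p y ≤ dist x y) : CN X := by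
  have inB : ∀ a ∈ B, ∀ b ∈ B, ∀ t ∈ Icc (0 : ℝ) 1, ∃ p, CNPt univ a b t p := by
    intro a ha b hb t ht
    obtain ⟨p, -, hp⟩ := hB a ha b hb t ht
    exact ⟨p, fun x _ => (hU x).elim (cn_mixed hA hB hY hX ha hb ht hp x) (hp x)⟩
  have inA : ∀ a ∈ A, ∀ b ∈ A, ∀ t ∈ Icc (0 : ℝ) 1, ∃ p, CNPt univ a b t p := by
    intro a ha b hb t ht
    obtain ⟨p, -, hp⟩ := hA a ha b hb t ht
    refine ⟨p, fun x _ => (hU x).elim (hp x) (cn_mixed hB hA (inter_comm A B ▸ hY)
      (fun x hx y hy => ?_) ha hb ht hp x)⟩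
    obtain ⟨q, hq, e⟩ := hX y hy x hx
    exact ⟨q, hq.symm, by rwa [dist_comm x q, dist_comm q y, dist_comm x y, add_comm]⟩
  have atY : ∀ c ∈ A ∩ B, ∀ x, ∀ l ∈ Icc (0 : ℝ) 1, ∃ p, CNPt univ c x l p :=
    fun c hc x l hl => (hU x).elim (fun h => inA c hc.1 x h l hl) fun h => inB c hc.2 x h l hl
  have half : ∀ c ∈ A ∩ B, ∀ a b : X, dist a c + dist c b ≤ dist a b → ∀ t ∈ Icc (0 : ℝ) 1,
      t * dist a b ≤ dist a c → ∃ p, CNPt univ a b t p := by
    intro c hc a b e t ht hle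
    rcases hle.eq_or_lt with h | h
    · exact ⟨c, cnPt_of_from ht h.ge (by linarith) (atY c hc)⟩
    have c0 : 0 < dist a c := (mul_nonneg ht.1 dist_nonneg).trans_lt h
    have D0 : 0 < dist a b := by linarith [dist_nonneg (x := c) (y := b)]
    obtain ⟨s, hs⟩ : ∃ s, dist a c = s * dist a b := ⟨_, (div_mul_cancel₀ _ D0.ne').symm⟩
    have hts : t < s := lt_of_mul_lt_mul_right (hs ▸ h) D0.le
    have s1 : s ≤ 1 := le_of_mul_le_mul_right (by linarith [dist_nonneg (x := c) (y := b)]) D0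
    have s0 : 0 < s := ht.1.trans_lt hts
    have t1 : 0 < 1 - t := by linarith
    have hl : t / s ∈ Icc (0 : ℝ) 1 := ⟨div_nonneg ht.1 s0.le, (div_le_one s0).2 hts.le⟩
    obtain ⟨m, hm⟩ := atY c hc a (1 - t / s) ⟨by linarith [hl.2], by linarith [hl.1]⟩
    have hm' := hm.symm
    rw [sub_sub_cancel] at hm'
    have m1 := hm'.left trivial trivial hl
    have m2 := hm'.right trivial trivial hl
    rw [hs, ← mul_assoc, div_mul_cancel₀ _ s0.ne'] at m1
    rw [hs, ← mul_assoc, sub_mul, div_mul_cancel₀ _ s0.ne', one_mul] at m2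
    have m3 : dist m b = (1 - t) * dist a b := by
      linarith [dist_triangle a m b, dist_triangle m c b]
    refine ⟨m, CNPt.concat ht.1 hts s1 hs m3 hm' (cnPt_of_from
      ⟨div_nonneg (by linarith) t1.le, (div_le_one t1).2 (by linarith)⟩ ?_ ?_ (atY c hc))⟩
    · rw [m3, ← mul_assoc, div_mul_cancel₀ _ t1.ne', m2]
    · rw [m3, ← mul_assoc, sub_mul, div_mul_cancel₀ _ t1.ne']
      linarith
  have cross : ∀ a ∈ A, ∀ b ∈ B, ∀ t ∈ Icc (0 : ℝ) 1, ∃ p, CNPt univ a b t p := by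
    intro a ha b hb t ht
    obtain ⟨c, hc, e⟩ := hX a ha b hb
    rcases le_total (t * dist a b) (dist a c) with h | h
    · exact half c hc a b e t ht h
    · obtain ⟨p, hp⟩ := half c hc b a
        (by rwa [dist_comm b c, dist_comm c a, dist_comm b a, add_comm]) (1 - t)
        ⟨by linarith [ht.2], by linarith [ht.1]⟩
        (by rw [dist_comm b a, dist_comm b c]; linarith [dist_triangle a c b])
      exact ⟨p, by simpa using hp.symm⟩
  intro a b t ht
  rcases hU a with ha | ha <;> rcases hU b with hb | hb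
  · exact inA a ha b hb t ht
  · exact cross a ha b hb t ht
  · obtain ⟨p, hp⟩ := cross b hb a ha (1 - t) ⟨by linarith [ht.2], by linarith [ht.1]⟩
    exact ⟨p, by simpa using hp.symm⟩
  · exact inB a ha b hb t ht

end Pool.Agent.Lib.MP_c2693b_gt
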