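import Pool.Agent.Lib.MP_c2693b_gt.GcDefs

/-! The metric graph of unit vectors in the cone over a graph, and its angle metric. -/

set_option autoImplicit false

open Real

namespace Pool.Agent.Lib.MP_c2693b_gt.Gc

variable {V : Type} [Fintype V] [DecidableEq V] {G : SimpleGraph V} {A : Set V} {θ c : ℝ}

structure Hy (G : SimpleGraph V) (A : Set V) (θ : ℝ) : Prop where
  hA : ∀ a b, G.Adj a b → a ∈ A
  hG : Girth8 G
  h4 : π ≤ 4 * θ
  hπ : θ < π

omit [Fintype V] [DecidableEq V] in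
lemma Hy.pos (H : Hy G A θ) : 0 < θ := by linarith [H.h4, pi_pos]

omit [Fintype V] [DecidableEq V] in
lemma Hy.sin_pos (H : Hy G A θ) : 0 < sin θ := sin_pos_of_pos_of_lt_pi H.pos H.hπ

/-- Basis vector. -/
def ev (a : V) : V → ℝ := Pi.single a 1

/-- The unit vector at angle `t` from `ev a` in the sector over the edge `a b`. -/
noncomputable def E (θ : ℝ) (a b : V) (t : ℝ) : V → ℝ :=
  (sin (θ - t) / sin θ) • ev a + (sin t / sin θ) • ev b

omit [DecidableEq V] in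
lemma Bf_add (z z' w : V → ℝ) : Bf G c (z + z') w = Bf G c z w + Bf G c z' w := by
  simp only [Bf, Pi.add_apply, add_mul, Finset.sum_add_distrib]

omit [DecidableEq V] in
lemma Bf_smul (l : ℝ) (z w : V → ℝ) : Bf G c (l • z) w = l * Bf G c z w := by
  simp only [Bf, Pi.smul_apply, smul_eq_mul, Finset.mul_sum, mul_assoc]

omit [DecidableEq V] in
lemma Bf_comm (z w : V → ℝ) : Bf G c z w = Bf G c w z := by
  unfold Bf
  rw [Finset.sum_comm]
  refine Finset.sum_congr rfl fun a _ => Finset.sum_congr rfl fun b _ => ?_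
  by_cases h : a = b
  · subst h; simp [mul_comm]
  · by_cases k : G.Adj a b
    · simp only [h, Ne.symm h, k, k.symm, if_false, if_true]; ring
    · simp [h, Ne.symm h, k, G.adj_comm b a]

omit [DecidableEq V] in
lemma Bf_add' (z w w' : V → ℝ) : Bf G c z (w + w') = Bf G c z w + Bf G c z w' := by
  rw [Bf_comm, Bf_add, Bf_comm w, Bf_comm w']

omit [DecidableEq V] in
lemma Bf_smul' (l : ℝ) (z w : V → ℝ) : Bf G c z (l • w) = l * Bf G c z w := by
  rw [Bf_comm, Bf_smul, Bf_comm]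

lemma Bf_self (a : V) : Bf G c (ev a) (ev a) = 1 := by
  unfold Bf
  rw [Finset.sum_eq_single a, Finset.sum_eq_single a] <;> simp +contextual [ev, Pi.single_apply]

lemma Bf_adj {a b : V} (h : G.Adj a b) : Bf G c (ev a) (ev b) = c := by
  unfold Bf
  rw [Finset.sum_eq_single a, Finset.sum_eq_single b] <;>
    simp +contextual [ev, Pi.single_apply, h, h.ne]

omit [Fintype V] in
lemma ev_ne {a b : V} : ev a b ≠ 0 ↔ b = a := by
  by_cases h : b = a <;> simp [ev, h]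

omit [Fintype V] in
lemma E_symm (a b : V) (t : ℝ) : E θ a b t = E θ b a (θ - t) := by
  simp only [E, sub_sub_cancel, add_comm]

omit [Fintype V] in
lemma E_zero (H : Hy G A θ) (a b : V) : E θ a b 0 = ev a := by
  simp [E, div_self H.sin_pos.ne']

omit [Fintype V] in
lemma E_left {a b : V} (h : a ≠ b) (t : ℝ) : E θ a b t a = sin (θ - t) / sin θ := by
  simp [E, ev, h]

omit [Fintype V] in
lemma E_other {a b v : V} {t : ℝ} (h : E θ a b t v ≠ 0) : v = a ∨ v = b := by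
  by_contra hv
  rw [not_or] at hv
  simp [E, ev, hv.1, hv.2] at h

omit [Fintype V] in
lemma E_left_ne (H : Hy G A θ) {a b : V} (h : G.Adj a b) {t : ℝ} (h0 : 0 ≤ t) (h1 : t < θ) :
    E θ a b t a ≠ 0 := by
  rw [E_left h.ne]
  exact (div_pos (sin_pos_of_pos_of_lt_pi (by linarith) (by linarith [H.hπ])) H.sin_pos).ne'

omit [Fintype V] in
lemma E_right_ne (H : Hy G A θ) {a b : V} (h : G.Adj a b) {t : ℝ} (h0 : 0 < t) (h1 : t ≤ θ) :
    E θ a b t b ≠ 0 := by
  rw [E_symm]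
  exact E_left_ne H h.symm (by linarith) (by linarith)

lemma Bf_E (H : Hy G A θ) {a b : V} (h : G.Adj a b) (s t : ℝ) :
    Bf G (cos θ) (E θ a b s) (E θ a b t) = cos (s - t) := by
  have := H.sin_pos.ne'
  simp only [E, Bf_add, Bf_add', Bf_smul, Bf_smul', Bf_self, Bf_adj h, Bf_adj h.symm, sin_sub,
    cos_sub]
  field_simp
  have h1 := sin_sq_add_cos_sq θ
  linear_combination (sin s * sin t) * (-h1)

/-- Unit vectors of the cone. -/
def U (G : SimpleGraph V) (A : Set V) (θ : ℝ) (x : V → ℝ) : Prop :=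
  (∃ a ∈ A, x = ev a) ∨ ∃ a b t, G.Adj a b ∧ 0 < t ∧ t < θ ∧ x = E θ a b t

omit [Fintype V] in
lemma U_E (H : Hy G A θ) {a b : V} (h : G.Adj a b) {t : ℝ} (h0 : 0 ≤ t) (h1 : t ≤ θ) :
    U G A θ (E θ a b t) := by
  rcases h0.eq_or_lt with rfl | h0
  · exact Or.inl ⟨a, H.hA _ _ h, E_zero H a b⟩
  rcases h1.eq_or_lt with rfl | h1
  · exact Or.inl ⟨b, H.hA _ _ h.symm, by rw [E_symm, sub_self, E_zero H]⟩
  exact Or.inr ⟨a, b, t, h, h0, h1, rfl⟩

omit [Fintype V] in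
lemma U.nf {x : V → ℝ} (hx : U G A θ x) {p : V} (hp : x p ≠ 0) :
    x = ev p ∨ ∃ q t, G.Adj p q ∧ 0 < t ∧ t < θ ∧ x = E θ p q t := by
  rcases hx with ⟨a, -, rfl⟩ | ⟨a, b, t, h, h0, h1, rfl⟩
  · exact Or.inl (by rw [ev_ne.1 hp])
  · rcases E_other hp with rfl | rfl
    · exact Or.inr ⟨b, t, h, h0, h1, rfl⟩
    · exact Or.inr ⟨a, θ - t, h.symm, by linarith, by linarith, E_symm _ _ _⟩

omit [Fintype V] in
lemma U.nf2 {x : V → ℝ} (hx : U G A θ x) {p q : V} (hp : x p ≠ 0) (hq : x q ≠ 0) (h : p ≠ q) :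
    G.Adj p q ∧ ∃ t, 0 < t ∧ t < θ ∧ x = E θ p q t := by
  rcases hx.nf hp with rfl | ⟨b, t, hb, h0, h1, rfl⟩
  · exact absurd (ev_ne.1 hq).symm h
  · rcases E_other hq with rfl | rfl
    · exact absurd rfl h
    · exact ⟨hb, t, h0, h1, rfl⟩

omit [Fintype V] in
lemma U.mem (H : Hy G A θ) {x : V → ℝ} (hx : U G A θ x) {p : V} (hp : x p ≠ 0) : p ∈ A := by
  rcases hx with ⟨a, ha, rfl⟩ | ⟨a, b, t, h, -, -, rfl⟩
  · exact ev_ne.1 hp ▸ ha
  · rcases E_other hp with rfl | rfl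
    · exact H.hA _ _ h
    · exact H.hA _ _ h.symm

omit [Fintype V] in
lemma U.ex (H : Hy G A θ) {x : V → ℝ} (hx : U G A θ x) : ∃ p, x p ≠ 0 := by
  rcases hx with ⟨a, -, rfl⟩ | ⟨a, b, t, h, h0, h1, rfl⟩
  · exact ⟨a, ev_ne.2 rfl⟩
  · exact ⟨a, E_left_ne H h h0.le h1⟩

/-- The angle between a unit vector and a vertex of its cell. -/
noncomputable def ang (G : SimpleGraph V) (θ : ℝ) (x : V → ℝ) (a : V) : ℝ :=
  arccos (Bf G (cos θ) x (ev a))

lemma ang_nonneg (x : V → ℝ) (a : V) : 0 ≤ ang G θ x a := arccos_nonneg _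

lemma ang_ev (a : V) : ang G θ (ev a) a = 0 := by simp [ang, Bf_self]

lemma ang_left (H : Hy G A θ) {a b : V} (h : G.Adj a b) {t : ℝ} (h0 : 0 ≤ t) (h1 : t ≤ θ) :
    ang G θ (E θ a b t) a = t := by
  rw [ang, ← E_zero H a b, Bf_E H h, sub_zero, arccos_cos h0 (by linarith [H.hπ])]

lemma ang_right (H : Hy G A θ) {a b : V} (h : G.Adj a b) {t : ℝ} (h0 : 0 ≤ t) (h1 : t ≤ θ) :
    ang G θ (E θ a b t) b = θ - t := by
  rw [E_symm, ang_left H h.symm (by linarith) (by linarith)]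

lemma arccos_E (H : Hy G A θ) {a b : V} (h : G.Adj a b) {s t : ℝ} (s0 : 0 ≤ s) (s1 : s ≤ θ)
    (t0 : 0 ≤ t) (t1 : t ≤ θ) : arccos (Bf G (cos θ) (E θ a b s) (E θ a b t)) = |s - t| := by
  rw [Bf_E H h, ← cos_abs, arccos_cos (abs_nonneg _)]
  exact abs_le.2 ⟨by linarith [H.hπ], by linarith [H.hπ]⟩

/-- The candidates for the angle between two unit vectors. -/
def cand (G : SimpleGraph V) (θ : ℝ) (x u : V → ℝ) : Set ℝ :=
  {r | r = π ∨ (∃ a b, x a ≠ 0 ∧ u b ≠ 0 ∧ r = ang G θ x a + θ * D G a b + ang G θ u b) ∨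
    ((∀ a, x a ≠ 0 ↔ u a ≠ 0) ∧ r = arccos (Bf G (cos θ) x u))}

/-- The angle between two unit vectors. -/
noncomputable def dd (G : SimpleGraph V) (θ : ℝ) (x u : V → ℝ) : ℝ := sInf (cand G θ x u)

lemma cand_fin (x u : V → ℝ) : (cand G θ x u).Finite := by
  refine ((Set.finite_range fun p : V × V =>
    ang G θ x p.1 + θ * D G p.1 p.2 + ang G θ u p.2).insert π |>.insert
      (arccos (Bf G (cos θ) x u))).subset ?_
  rintro r (h | ⟨a, b, -, -, h⟩ | ⟨-, h⟩)
  · exact Or.inr (Or.inl h)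
  · exact Or.inr (Or.inr ⟨(a, b), h.symm⟩)
  · exact Or.inl h

lemma dd_mem (x u : V → ℝ) : dd G θ x u ∈ cand G θ x u :=
  Set.Nonempty.csInf_mem ⟨π, Or.inl rfl⟩ (cand_fin x u)

lemma dd_le_pi (x u : V → ℝ) : dd G θ x u ≤ π := csInf_le (cand_fin x u).bddBelow (Or.inl rfl)

lemma dd_le_way {x u : V → ℝ} {a b : V} (ha : x a ≠ 0) (hb : u b ≠ 0) :
    dd G θ x u ≤ ang G θ x a + θ * D G a b + ang G θ u b :=
  csInf_le (cand_fin x u).bddBelow (Or.inr (Or.inl ⟨a, b, ha, hb, rfl⟩))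

lemma dd_le_same {x u : V → ℝ} (h : ∀ a, x a ≠ 0 ↔ u a ≠ 0) :
    dd G θ x u ≤ arccos (Bf G (cos θ) x u) :=
  csInf_le (cand_fin x u).bddBelow (Or.inr (Or.inr ⟨h, rfl⟩))

lemma dd_comm (x u : V → ℝ) : dd G θ x u = dd G θ u x := by
  have key : ∀ x u : V → ℝ, cand G θ x u ⊆ cand G θ u x := by
    rintro x u r (h | ⟨a, b, ha, hb, h⟩ | ⟨h, h'⟩)
    · exact Or.inl h
    · exact Or.inr (Or.inl ⟨b, a, hb, ha, by rw [h, D_comm]; ring⟩)
    · exact Or.inr (Or.inr ⟨fun a => (h a).symm, by rw [h', Bf_comm]⟩)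
  rw [dd, dd, (key x u).antisymm (key u x)]

lemma dd_nonneg (H : Hy G A θ) (x u : V → ℝ) : 0 ≤ dd G θ x u := by
  rcases dd_mem (G := G) (θ := θ) x u with h | ⟨a, b, -, -, h⟩ | ⟨-, h⟩ <;> rw [h]
  · exact pi_pos.le
  · have := H.pos
    have := ang_nonneg (G := G) (θ := θ) x a
    have := ang_nonneg (G := G) (θ := θ) u b
    positivity
  · exact arccos_nonneg _

lemma same_ang (H : Hy G A θ) {x u : V → ℝ} (hx : U G A θ x) (hu : U G A θ u)
    (h : ∀ a, x a ≠ 0 ↔ u a ≠ 0) {a : V} (ha : x a ≠ 0) :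
    arccos (Bf G (cos θ) x u) = |ang G θ x a - ang G θ u a| := by
  rcases hx.nf ha with rfl | ⟨q, t, hq, h0, h1, rfl⟩
  · rcases hu.nf ((h a).1 ha) with rfl | ⟨q, t, hq, h0, h1, rfl⟩
    · simp [Bf_self]
    · exact absurd (ev_ne.1 ((h q).2 (E_right_ne H hq h0 h1.le))) hq.ne'
  · obtain ⟨-, s, s0, s1, rfl⟩ := hu.nf2 ((h a).1 ha) ((h q).1 (E_right_ne H hq h0 h1.le)) hq.ne
    rw [arccos_E H hq h0.le h1.le s0.le s1.le, ang_left H hq h0.le h1.le, ang_left H hq s0.le s1.le]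

lemma ang_add (H : Hy G A θ) {x : V → ℝ} (hx : U G A θ x) {a b : V} (ha : x a ≠ 0) (hb : x b ≠ 0) :
    θ * D G a b ≤ ang G θ x a + ang G θ x b := by
  by_cases h : a = b
  · subst h
    rw [D_self]
    simpa using ang_nonneg x a
  · obtain ⟨hq, t, h0, h1, rfl⟩ := hx.nf2 ha hb h
    rw [ang_left H hq h0.le h1.le, ang_right H hq h0.le h1.le]
    have : (D G a b : ℝ) ≤ 1 := by exact_mod_cast D_adj hq
    nlinarith [H.pos]

lemma dd_tri (H : Hy G A θ) {x u w : V → ℝ} (hx : U G A θ x) (hu : U G A θ u) (hw : U G A θ w) :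
    dd G θ x w ≤ dd G θ x u + dd G θ u w := by
  have n1 := dd_nonneg H x u
  have n2 := dd_nonneg H u w
  have p := dd_le_pi (G := G) (θ := θ) x w
  rcases dd_mem (G := G) (θ := θ) x u with h | ⟨a, b, ha, hb, h⟩ | ⟨hs, h⟩
  · linarith
  · rcases dd_mem (G := G) (θ := θ) u w with k | ⟨a', b', ha', hb', k⟩ | ⟨ks, k⟩
    · linarith
    · have t : (D G a b' : ℝ) ≤ D G a b + D G b a' + D G a' b' := by
        have := D_tri (G := G) a b b'
        have := D_tri (G := G) b a' b'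
        exact_mod_cast (by omega)
      have := mul_le_mul_of_nonneg_left t H.pos.le
      linarith [dd_le_way (G := G) (θ := θ) ha hb', ang_add H hu hb ha']
    · rw [same_ang H hu hw ks hb] at k
      linarith [dd_le_way (G := G) (θ := θ) ha ((ks b).1 hb), neg_abs_le (ang G θ u b - ang G θ w b)]
  · rcases dd_mem (G := G) (θ := θ) u w with k | ⟨a', b', ha', hb', k⟩ | ⟨ks, k⟩
    · linarith
    · rw [same_ang H hx hu hs ((hs a').2 ha')] at h
      linarith [dd_le_way (G := G) (θ := θ) ((hs a').2 ha') hb',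
        le_abs_self (ang G θ x a' - ang G θ u a')]
    · obtain ⟨a, ha⟩ := hx.ex H
      have h3 := dd_le_same (G := G) (θ := θ) fun a => (hs a).trans (ks a)
      rw [same_ang H hx hw (fun a => (hs a).trans (ks a)) ha] at h3
      rw [same_ang H hx hu hs ha] at h
      rw [same_ang H hu hw ks ((hs a).1 ha)] at k
      linarith [abs_sub_le (ang G θ x a) (ang G θ u a) (ang G θ w a)]

lemma dd_self (H : Hy G A θ) {x : V → ℝ} (hx : U G A θ x) : dd G θ x x = 0 := by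
  obtain ⟨a, ha⟩ := hx.ex H
  have := dd_le_same (G := G) (θ := θ) (x := x) (u := x) fun _ => Iff.rfl
  rw [same_ang H hx hx (fun _ => Iff.rfl) ha] at this
  exact le_antisymm (by simpa using this) (dd_nonneg H x x)

lemma dd_E_ev_le (H : Hy G A θ) {a b : V} (h : G.Adj a b) {t : ℝ} (t0 : 0 ≤ t) (t1 : t ≤ θ) :
    dd G θ (E θ a b t) (ev a) ≤ t := by
  rcases t1.eq_or_lt with rfl | t1
  · have := dd_le_way (G := G) (θ := t) (E_right_ne H h H.pos le_rfl) (ev_ne.2 rfl : ev a a ≠ 0)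
    rw [ang_right H h t0 le_rfl, ang_ev] at this
    have h2 : (D G b a : ℝ) ≤ 1 := by exact_mod_cast D_adj h.symm
    nlinarith [H.pos]
  · have := dd_le_way (G := G) (θ := θ) (E_left_ne H h t0 t1) (ev_ne.2 rfl : ev a a ≠ 0)
    rw [ang_left H h t0 t1.le, ang_ev, D_self] at this
    simpa using this

lemma dd_E (H : Hy G A θ) {a b : V} (h : G.Adj a b) {s t : ℝ} (s0 : 0 ≤ s) (s1 : s ≤ θ)
    (t0 : 0 ≤ t) (t1 : t ≤ θ) : dd G θ (E θ a b s) (E θ a b t) = |s - t| := by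
  apply le_antisymm
  · rcases t0.eq_or_lt with rfl | t0
    · rw [E_zero H, sub_zero, abs_of_nonneg s0]
      exact dd_E_ev_le H h s0 s1
    rcases s0.eq_or_lt with rfl | s0
    · rw [E_zero H, zero_sub, abs_neg, abs_of_nonneg t0.le, dd_comm]
      exact dd_E_ev_le H h t0.le t1
    rcases t1.eq_or_lt with rfl | t1
    · rw [E_symm a b s, E_symm a b t, sub_self, E_zero H, abs_sub_comm,
        abs_of_nonneg (by linarith)]
      exact dd_E_ev_le H h.symm (by linarith) (by linarith)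
    rcases s1.eq_or_lt with rfl | s1
    · rw [E_symm a b s, E_symm a b t, sub_self, E_zero H, abs_of_nonneg (by linarith), dd_comm]
      exact dd_E_ev_le H h.symm (by linarith) (by linarith)
    rw [← arccos_E H h s0.le s1.le t0.le t1.le]
    refine dd_le_same fun v => ⟨fun hv => ?_, fun hv => ?_⟩ <;> rcases E_other hv with rfl | rfl
    exacts [E_left_ne H h t0.le t1, E_right_ne H h t0 t1.le, E_left_ne H h s0.le s1,
      E_right_ne H h s0 s1.le]
  · have d1 : ∀ {a b : V}, G.Adj a b → θ ≤ θ * D G a b := fun {a b} h => by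
      have : D G a b ≠ 0 := fun h0 => h.ne (D_zero h0)
      have : (1 : ℝ) ≤ D G a b := by exact_mod_cast (by omega)
      nlinarith [H.pos]
    rcases dd_mem (G := G) (θ := θ) (E θ a b s) (E θ a b t) with k | ⟨p, q, hp, hq, k⟩ | ⟨-, k⟩
    · rw [k]
      exact abs_le.2 ⟨by linarith [H.hπ], by linarith [H.hπ]⟩
    · rw [k, abs_le]
      rcases E_other hp with rfl | rfl <;> rcases E_other hq with rfl | rfl
      · rw [ang_left H h s0 s1, ang_left H h t0 t1, D_self]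
        constructor <;> simp <;> linarith
      · rw [ang_left H h s0 s1, ang_right H h t0 t1]
        constructor <;> linarith [d1 h]
      · rw [ang_right H h s0 s1, ang_left H h t0 t1]
        constructor <;> linarith [d1 h.symm]
      · rw [ang_right H h s0 s1, ang_right H h t0 t1, D_self]
        constructor <;> simp <;> linarith
    · rw [k, arccos_E H h s0 s1 t0 t1]

end Pool.Agent.Lib.MP_c2693b_gt.Gc
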