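import Pool.Agent.Lib.MP_c2693b_gt.GcA

/-! The local tree property of the angle metric on a graph of girth at least eight. -/

set_option autoImplicit false

open Real Filter Topology

namespace Pool.Agent.Lib.MP_c2693b_gt.Gc

variable {V : Type} [Fintype V] [DecidableEq V] {G : SimpleGraph V} {A : Set V} {θ : ℝ}

omit [Fintype V] in
lemma U_ev {a : V} (ha : a ∈ A) : U G A θ (ev a) := Or.inl ⟨a, ha, rfl⟩

lemma dd_le_ev {x : V → ℝ} {a : V} (ha : x a ≠ 0) (p : V) :
    dd G θ x (ev p) ≤ ang G θ x a + θ * D G a p := by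
  simpa [ang_ev] using dd_le_way (G := G) (θ := θ) ha (ev_ne.2 rfl : ev p p ≠ 0)

lemma vert (H : Hy G A θ) {x : V → ℝ} (_hx : U G A θ x) {p : V} (h : dd G θ x (ev p) < π) :
    ∃ a, x a ≠ 0 ∧ dd G θ x (ev p) = ang G θ x a + θ * D G a p ∧ D G a p < 4 := by
  have key : ∃ a, x a ≠ 0 ∧ dd G θ x (ev p) = ang G θ x a + θ * D G a p := by
    rcases dd_mem (G := G) (θ := θ) x (ev p) with k | ⟨a, b, ha, hb, k⟩ | ⟨hs, k⟩
    · exact absurd k h.ne
    · obtain rfl := ev_ne.1 hb
      exact ⟨a, ha, by rw [k, ang_ev, add_zero]⟩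
    · exact ⟨p, (hs p).2 (ev_ne.2 rfl), by rw [k, D_self]; simp [ang]⟩
  obtain ⟨a, ha, k⟩ := key
  refine ⟨a, ha, k, ?_⟩
  have : (D G a p : ℝ) < 4 := by
    by_contra h4
    nlinarith [H.pos, H.h4, ang_nonneg (G := G) (θ := θ) x a, not_lt.1 h4]
  exact_mod_cast this

lemma far (H : Hy G A θ) {x : V → ℝ} (hx : U G A θ x) {a a' p : V} (ha : x a ≠ 0) (ha' : x a' ≠ 0)
    (hne : a ≠ a') (h : dd G θ x (ev p) = ang G θ x a + θ * D G a p) (h4 : D G a p < 4) :
    D G a p + 1 ≤ D G a' p := by
  have k := dd_le_ev (G := G) (θ := θ) ha' p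
  obtain ⟨hq, t, h0, h1, rfl⟩ := hx.nf2 ha ha' hne
  rw [h, ang_left H hq h0.le h1.le, ang_right H hq h0.le h1.le] at k
  have h2 : (D G a p : ℝ) < D G a' p + 1 := by
    by_contra h3
    nlinarith [H.pos, not_lt.1 h3]
  have h3 : D G a p < D G a' p + 1 := by exact_mod_cast h2
  have := D_par H.hG hq h4
  omega

lemma dd_out (H : Hy G A θ) {x : V → ℝ} (hx : U G A θ x) {p q : V} (h : G.Adj p q) {t : ℝ}
    (t0 : 0 < t) (t1 : t < θ) (hn : ¬ (x p ≠ 0 ∧ x q ≠ 0)) :
    dd G θ x (E θ p q t) = min π (min (dd G θ x (ev p) + t) (dd G θ x (ev q) + (θ - t))) := by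
  have u := U_E H h t0.le t1.le
  apply le_antisymm
  · refine le_min (dd_le_pi _ _) (le_min ?_ ?_)
    · have := dd_tri H hx (U_ev (H.hA _ _ h)) u
      rw [dd_comm (ev p)] at this
      linarith [dd_E_ev_le H h t0.le t1.le]
    · have := dd_tri H hx (U_ev (H.hA _ _ h.symm)) u
      rw [dd_comm (ev q), E_symm] at this
      rw [E_symm]
      linarith [dd_E_ev_le H h.symm (t := θ - t) (by linarith) (by linarith)]
  · rcases dd_mem (G := G) (θ := θ) x (E θ p q t) with k | ⟨a, b, ha, hb, k⟩ | ⟨hs, k⟩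
    · rw [k]; exact min_le_left _ _
    · rw [k]
      rcases E_other hb with rfl | rfl
      · rw [ang_left H h t0.le t1.le]
        exact (min_le_right _ _).trans ((min_le_left _ _).trans (by linarith [dd_le_ev (G := G) (θ := θ) ha b]))
      · rw [ang_right H h t0.le t1.le]
        exact (min_le_right _ _).trans ((min_le_right _ _).trans (by linarith [dd_le_ev (G := G) (θ := θ) ha b]))
    · exact absurd ⟨(hs p).2 (E_left_ne H h t0.le t1), (hs q).2 (E_right_ne H h t0 t1.le)⟩ hn

/-- No fold of the distance function inside an edge below the level `π`. -/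
lemma no_fold (H : Hy G A θ) {x : V → ℝ} (hx : U G A θ x) {p q : V} (h : G.Adj p q) {t : ℝ}
    (t0 : 0 < t) (t1 : t < θ) (hn : ¬ (x p ≠ 0 ∧ x q ≠ 0))
    (he : dd G θ x (ev p) + t = dd G θ x (ev q) + (θ - t)) (hl : dd G θ x (ev p) + t < π) :
    False := by
  obtain ⟨a, ha, ka, a4⟩ := vert H hx (p := p) (by linarith)
  obtain ⟨a', ha', ka', a4'⟩ := vert H hx (p := q) (by linarith)
  by_cases hne : a = a'
  · subst hne
    have l1 : (D G a p : ℝ) < D G a q + 1 := by
      by_contra h3
      nlinarith [H.pos, not_lt.1 h3]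
    have l2 : (D G a q : ℝ) < D G a p + 1 := by
      by_contra h3
      nlinarith [H.pos, not_lt.1 h3]
    have l3 : D G a p < D G a q + 1 := by exact_mod_cast l1
    have l4 : D G a q < D G a p + 1 := by exact_mod_cast l2
    have := D_par H.hG h (p := a) (by rwa [D_comm])
    rw [D_comm p, D_comm q] at this
    omega
  · have f1 := far H hx ha ha' hne ka a4
    have f2 := far H hx ha' ha (Ne.symm hne) ka' a4'
    have t1' := D_tri (G := G) a' q p
    have t2' := D_tri (G := G) a p q
    have d1 := D_adj h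
    have d2 := D_adj h.symm
    obtain ⟨hq, s, s0, s1, rfl⟩ := hx.nf2 ha ha' hne
    rw [ang_left H hq s0.le s1.le] at ka
    rw [ang_right H hq s0.le s1.le] at ka'
    have e : D G a' q = D G a p := by omega
    rw [e] at ka'
    have l1 : (D G a p : ℝ) < 3 := by
      by_contra h3
      nlinarith [H.pos, H.h4, not_lt.1 h3]
    have l2 : D G a p < 3 := by exact_mod_cast l1
    have w := D_spec a4
    rcases hk : D G a p with _ | k
    · obtain rfl := D_zero hk
      obtain rfl := D_zero (e.trans hk)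
      exact hn ⟨ha, ha'⟩
    · rw [hk] at w
      obtain ⟨m, w, hm⟩ := w
      have w1 := D_le w
      have w2 := D_tri (G := G) a' a m
      have w3 := D_adj hq.symm
      obtain rfl := D_uniq H.hG (r := a') hm h.symm (by omega) (by omega) (by omega)
      omega

/-- At most one edge at a vertex leads towards a point at angle less than `π`. -/
lemma one_way (H : Hy G A θ) {x : V → ℝ} (hx : U G A θ x) {p q₁ q₂ : V} (h1 : G.Adj p q₁)
    (h2 : G.Adj p q₂) (hl : dd G θ x (ev p) < π)
    (k1 : (x p ≠ 0 ∧ x q₁ ≠ 0) ∨ dd G θ x (ev q₁) + θ ≤ dd G θ x (ev p))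
    (k2 : (x p ≠ 0 ∧ x q₂ ≠ 0) ∨ dd G θ x (ev q₂) + θ ≤ dd G θ x (ev p)) : q₁ = q₂ := by
  have in1 : ∀ {q q' : V}, G.Adj p q → x p ≠ 0 ∧ x q ≠ 0 →
      ¬ dd G θ x (ev q') + θ ≤ dd G θ x (ev p) := fun {q q'} h k hk => by
    obtain ⟨-, s, s0, s1, rfl⟩ := hx.nf2 k.1 k.2 h.ne
    linarith [dd_E_ev_le H h s0.le s1.le, dd_nonneg H (E θ p q s) (ev q')]
  rcases k1 with k1 | k1
  · rcases k2 with k2 | k2
    · obtain ⟨-, s, s0, s1, rfl⟩ := hx.nf2 k1.1 k1.2 h1.ne
      exact ((E_other k2.2).resolve_left h2.ne').symm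
    · exact absurd k2 (in1 h1 k1)
  rcases k2 with k2 | k2
  · exact absurd k1 (in1 h2 k2)
  obtain ⟨a, ha, ka, a4⟩ := vert H hx hl
  have key : ∀ {q : V}, G.Adj p q → dd G θ x (ev q) + θ ≤ dd G θ x (ev p) →
      D G a q < D G a p := fun {q} h k => by
    obtain ⟨a', ha', ka', a4'⟩ := vert H hx (p := q) (by linarith [H.pos])
    by_cases hne : a = a'
    · subst hne
      have : (D G a q : ℝ) < D G a p := by
        by_contra h3
        nlinarith [H.pos, not_lt.1 h3]
      exact_mod_cast this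
    · have f1 := far H hx ha ha' hne ka a4
      have t1' := D_tri (G := G) a' q p
      have d2 := D_adj h.symm
      have l : (D G a p : ℝ) ≤ D G a' q := by exact_mod_cast (by omega)
      obtain ⟨hq, s, s0, s1, rfl⟩ := hx.nf2 ha ha' hne
      rw [ang_left H hq s0.le s1.le] at ka
      rw [ang_right H hq s0.le s1.le] at ka'
      nlinarith [H.pos]
  exact D_uniq H.hG h1.symm h2.symm a4 (key h1 k1) (key h2 k2)

lemma near_edge (H : Hy G A θ) {y : V → ℝ} (hy : U G A θ y) {p q : V} (h : G.Adj p q) {t r : ℝ}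
    (r0 : 0 < r) (r1 : r < t) (r2 : r < θ - t) (hd : dd G θ (E θ p q t) y = r) :
    y = E θ p q (t + r) ∨ y = E θ p q (t - r) := by
  have t0 : 0 < t := by linarith
  have t1 : t < θ := by linarith
  rcases dd_mem (G := G) (θ := θ) (E θ p q t) y with k | ⟨a, b, ha, hb, k⟩ | ⟨hs, k⟩
  · linarith [H.hπ]
  · have n1 := ang_nonneg (G := G) (θ := θ) y b
    have n2 : 0 ≤ θ * D G a b := mul_nonneg H.pos.le (Nat.cast_nonneg _)
    rcases E_other ha with rfl | rfl
    · rw [ang_left H h t0.le t1.le] at k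
      linarith
    · rw [ang_right H h t0.le t1.le] at k
      linarith
  · obtain ⟨-, s, s0, s1, rfl⟩ := hy.nf2 ((hs p).1 (E_left_ne H h t0.le t1))
      ((hs q).1 (E_right_ne H h t0 t1.le)) h.ne
    rw [dd_E H h t0.le t1.le s0.le s1.le] at hd
    rcases (abs_eq r0.le).1 hd with k | k
    · exact Or.inr (by rw [← k]; ring_nf)
    · exact Or.inl (by rw [show s = t + r by linarith])

lemma near_vert (H : Hy G A θ) {y : V → ℝ} (hy : U G A θ y) {p : V} {r : ℝ} (r0 : 0 < r)
    (r1 : r < θ) (hd : dd G θ (ev p) y = r) : ∃ q, G.Adj p q ∧ y = E θ p q r := by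
  rw [dd_comm] at hd
  obtain ⟨a, ha, ka, -⟩ := vert H hy (p := p) (by linarith [H.hπ])
  have l : (D G a p : ℝ) < 1 := by
    by_contra h3
    nlinarith [H.pos, not_lt.1 h3, ang_nonneg (G := G) (θ := θ) y a]
  have l' : D G a p < 1 := by exact_mod_cast l
  obtain rfl := D_zero (G := G) (a := a) (b := p) (by omega)
  rw [D_self, hd] at ka
  rcases hy.nf ha with rfl | ⟨q, t, hq, t0, t1, rfl⟩
  · rw [ang_ev] at ka
    simp at ka
    exact absurd ka r0.ne'
  · rw [ang_left H hq t0.le t1.le] at ka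
    exact ⟨q, hq, by rw [ka]; simp⟩

lemma ev_small {c : ℝ} (hc : 0 < c) : ∀ᶠ r in 𝓝[>] (0 : ℝ), r < c :=
  nhdsWithin_le_nhds (Iio_mem_nhds hc)

/-- Along a short geodesic through `m`, one of the two sides moves away from `x`. -/
lemma loc_tree (H : Hy G A θ) {x m : V → ℝ} (hx : U G A θ x) (hm : U G A θ m)
    (hl : dd G θ x m < π) : ∀ᶠ r in 𝓝[>] (0 : ℝ), ∀ y z, U G A θ y → U G A θ z →
      dd G θ m y = r → dd G θ m z = r → dd G θ y z = 2 * r →
      dd G θ x y = dd G θ x m + r ∨ dd G θ x z = dd G θ x m + r := by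
  rcases hm with ⟨p, -, rfl⟩ | ⟨p, q, t, h, t0, t1, rfl⟩
  · have e1 : ∀ᶠ r in 𝓝[>] (0 : ℝ), ∀ q, dd G θ x (ev p) < dd G θ x (ev q) + θ →
        r < (dd G θ x (ev q) + θ - dd G θ x (ev p)) / 2 := by
      refine eventually_all.2 fun q => ?_
      by_cases hq : dd G θ x (ev p) < dd G θ x (ev q) + θ
      · exact (ev_small (by linarith)).mono fun r hr _ => hr
      · exact Eventually.of_forall fun r h => absurd h hq
    filter_upwards [e1, ev_small H.pos, ev_small (sub_pos.2 hl), self_mem_nhdsWithin]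
      with r e1 e2 e3 r0 y z hy hz dy dz dyz
    have r0 : 0 < r := r0
    obtain ⟨q₁, h1, rfl⟩ := near_vert H hy r0 e2 dy
    obtain ⟨q₂, h2, rfl⟩ := near_vert H hz r0 e2 dz
    have away : ∀ {q : V}, G.Adj p q →
        ¬ ((x p ≠ 0 ∧ x q ≠ 0) ∨ dd G θ x (ev q) + θ ≤ dd G θ x (ev p)) →
        dd G θ x (E θ p q r) = dd G θ x (ev p) + r := fun {q} h k => by
      rw [not_or, not_le] at k
      have := e1 q k.2
      rw [dd_out H hx h r0 e2 k.1, min_eq_left (by linarith : _ + r ≤ _), min_eq_right (by linarith)]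
    by_contra hc
    rw [not_or] at hc
    obtain rfl := one_way H hx h1 h2 hl (by_contra fun k => hc.1 (away h1 k))
      (by_contra fun k => hc.2 (away h2 k))
    rw [dd_self H hy] at dyz
    linarith
  · have main : ∀ᶠ r in 𝓝[>] (0 : ℝ), r < t → r < θ - t →
        (dd G θ x (E θ p q (t + r)) = dd G θ x (E θ p q t) + r ∨
          dd G θ x (E θ p q (t - r)) = dd G θ x (E θ p q t) + r) := by
      by_cases hn : x p ≠ 0 ∧ x q ≠ 0
      · obtain ⟨-, s, s0, s1, rfl⟩ := hx.nf2 hn.1 hn.2 h.ne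
        filter_upwards [self_mem_nhdsWithin] with r r0 r1 r2
        have r0 : 0 < r := r0
        rw [dd_E H h s0.le s1.le t0.le t1.le, dd_E H h s0.le s1.le (by linarith) (by linarith),
          dd_E H h s0.le s1.le (by linarith) (by linarith)]
        rcases le_total s t with k | k
        · left
          rw [abs_of_nonpos (by linarith), abs_of_nonpos (by linarith)]
          ring
        · right
          rw [abs_of_nonneg (by linarith), abs_of_nonneg (by linarith)]
          ring
      · rw [dd_out H hx h t0 t1 hn] at hl ⊢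
        have hl' := (min_lt_iff.1 hl).resolve_left (lt_irrefl _)
        rcases lt_trichotomy (dd G θ x (ev p) + t) (dd G θ x (ev q) + (θ - t)) with k | k | k
        · rw [min_eq_left k.le] at hl' ⊢
          filter_upwards [ev_small (half_pos (sub_pos.2 k)), ev_small (sub_pos.2 hl'),
            self_mem_nhdsWithin] with r e1 e2 r0 r1 r2
          have r0 : 0 < r := r0
          left
          rw [dd_out H hx h (by linarith) (by linarith) hn,
            min_eq_left (by linarith : _ + (t + r) ≤ _), min_eq_right (by linarith),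
            min_eq_right hl'.le]
          ring
        · rw [← k, min_self] at hl'
          exact (no_fold H hx h t0 t1 hn k hl').elim
        · rw [min_eq_right k.le] at hl' ⊢
          filter_upwards [ev_small (half_pos (sub_pos.2 k)), ev_small (sub_pos.2 hl'),
            self_mem_nhdsWithin] with r e1 e2 r0 r1 r2
          have r0 : 0 < r := r0
          right
          rw [dd_out H hx h (by linarith) (by linarith) hn,
            min_eq_right (by linarith : _ ≤ _ + (t - r)), min_eq_right (by linarith),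
            min_eq_right hl'.le]
          ring
    filter_upwards [main, ev_small t0, ev_small (sub_pos.2 t1), self_mem_nhdsWithin]
      with r e1 r1 r2 r0 y z hy hz dy dz dyz
    have r0 : 0 < r := r0
    have ne : y ≠ z := by
      rintro rfl
      rw [dd_self H hy] at dyz
      linarith
    rcases near_edge H hy h r0 r1 r2 dy with rfl | rfl <;>
      rcases near_edge H hz h r0 r1 r2 dz with rfl | rfl
    · exact absurd rfl ne
    · exact e1 r1 r2
    · exact (e1 r1 r2).symm
    · exact absurd rfl ne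

end Pool.Agent.Lib.MP_c2693b_gt.Gc
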