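import Mathlib

/-! The cone over a graph of girth at least eight: definitions and graph distance. -/

set_option autoImplicit false

namespace Pool.Agent.Lib.MP_c2693b_gt.Gc

variable {V : Type}

/-- Bipartite, and no closed walk of length four or six without backtracking. -/
structure Girth8 (G : SimpleGraph V) : Prop where
  bip : ∃ col : V → Bool, ∀ a b, G.Adj a b → col a ≠ col b
  no4 : ∀ a b c d, G.Adj a b → G.Adj b c → G.Adj c d → G.Adj d a → a = c ∨ b = d
  no6 : ∀ a b c d e f, G.Adj a b → G.Adj b c → G.Adj c d → G.Adj d e → G.Adj e f → G.Adj f a →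
    a = c ∨ b = d ∨ c = e ∨ d = f ∨ e = a ∨ f = b

/-- Points of the cone over the clique complex of `G` with support in `A`. -/
def InCone (G : SimpleGraph V) (A : Set V) (z : V → ℝ) : Prop :=
  (∀ v, 0 ≤ z v) ∧ (∀ v, z v ≠ 0 → v ∈ A) ∧ ∀ a b, z a ≠ 0 → z b ≠ 0 → a ≠ b → G.Adj a b

open Classical in
/-- The bilinear form with unit basis vectors, adjacent ones having product `c`. -/
noncomputable def Bf [Fintype V] (G : SimpleGraph V) (c : ℝ) (z w : V → ℝ) : ℝ :=
  ∑ a, ∑ b, z a * (if a = b then 1 else if G.Adj a b then c else 0) * w b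

/-- Walks of length `n`. -/
def W (G : SimpleGraph V) : ℕ → V → V → Prop
  | 0, a, b => a = b
  | n + 1, a, b => ∃ m, W G n a m ∧ G.Adj m b

variable {G : SimpleGraph V}

lemma W_trans {n : ℕ} {a b : V} (h : W G n a b) : ∀ {m : ℕ} {c : V}, W G m b c → W G (n + m) a c
  | 0, _, h' => by cases h'; exact h
  | _ + 1, _, ⟨x, h1, h2⟩ => ⟨x, W_trans h h1, h2⟩

lemma W_one {a b : V} (h : G.Adj a b) : W G 1 a b := ⟨a, rfl, h⟩

lemma W_symm : ∀ {n : ℕ} {a b : V}, W G n a b → W G n b a
  | 0, _, _, h => Eq.symm h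
  | n + 1, _, _, ⟨_, h1, h2⟩ => by
    rw [add_comm]; exact W_trans (W_one h2.symm) (W_symm h1)

lemma W_par {col : V → Bool} (hc : ∀ a b, G.Adj a b → col a ≠ col b) :
    ∀ {n : ℕ} {a b : V}, W G n a b → (col a = col b ↔ Even n)
  | 0, _, _, h => by cases h; simp
  | n + 1, a, b, ⟨m, h1, h2⟩ => by
    have h3 := W_par hc h1
    have h4 := hc _ _ h2
    rw [Nat.even_add_one, ← h3]
    revert h4
    cases col a <;> cases col m <;> cases col b <;> simp

/-- Graph distance, cut off at four. -/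
noncomputable def D (G : SimpleGraph V) (a b : V) : ℕ := sInf {n | W G n a b ∨ n = 4}

lemma D_le_four (a b : V) : D G a b ≤ 4 := Nat.sInf_le (Or.inr rfl)

lemma D_le {n : ℕ} {a b : V} (h : W G n a b) : D G a b ≤ n := Nat.sInf_le (Or.inl h)

lemma D_spec {a b : V} (h : D G a b < 4) : W G (D G a b) a b := by
  have : D G a b ∈ {n | W G n a b ∨ n = 4} := Nat.sInf_mem ⟨4, Or.inr rfl⟩
  exact this.resolve_right h.ne

lemma D_self (a : V) : D G a a = 0 := Nat.le_zero.1 (D_le (n := 0) rfl)

lemma D_adj {a b : V} (h : G.Adj a b) : D G a b ≤ 1 := D_le (W_one h)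

lemma D_zero {a b : V} (h : D G a b = 0) : a = b := by
  have := D_spec (G := G) (a := a) (b := b) (by omega)
  rw [h] at this
  exact this

lemma D_comm (a b : V) : D G a b = D G b a := by
  unfold D
  congr 1
  ext n
  exact or_congr_left ⟨W_symm, W_symm⟩

lemma D_tri (a b c : V) : D G a c ≤ D G a b + D G b c := by
  by_cases h1 : D G a b < 4
  · by_cases h2 : D G b c < 4
    · exact D_le (W_trans (D_spec h1) (D_spec h2))
    · have := D_le_four (G := G) a c
      omega
  · have := D_le_four (G := G) a c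
    omega

lemma D_par (hG : Girth8 G) {a a' p : V} (h : G.Adj a a') (h4 : D G a p < 4) :
    D G a p ≠ D G a' p := by
  intro he
  obtain ⟨col, hc⟩ := hG.bip
  have h1 := W_par hc (D_spec h4)
  have h2 := W_par hc (D_spec (he ▸ h4 : D G a' p < 4))
  rw [← he, ← h1] at h2
  have h3 := hc _ _ h
  revert h2 h3
  cases col a <;> cases col a' <;> cases col p <;> simp

/-- Uniqueness of the last step of a shortest walk of length at most three. -/
lemma D_uniq (hG : Girth8 G) {r p q₁ q₂ : V} (h1 : G.Adj q₁ p) (h2 : G.Adj q₂ p)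
    (h4 : D G r p < 4) (l1 : D G r q₁ < D G r p) (l2 : D G r q₂ < D G r p) : q₁ = q₂ := by
  have t1 := D_tri (G := G) r q₁ p
  have t2 := D_tri (G := G) r q₂ p
  have a1 := D_adj h1
  have a2 := D_adj h2
  have w1 := D_spec (G := G) (a := r) (b := q₁) (by omega)
  have w2 := D_spec (G := G) (a := r) (b := q₂) (by omega)
  have hrp : r ≠ p := by
    rintro rfl
    rw [D_self] at l1
    omega
  have e : D G r q₂ = D G r q₁ := by omega
  rw [e] at w2
  obtain h | h | h : D G r q₁ = 0 ∨ D G r q₁ = 1 ∨ D G r q₁ = 2 := by omega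
  · rw [h] at w1 w2
    exact Eq.trans (Eq.symm w1) w2
  · rw [h] at w1 w2
    obtain ⟨_, rfl, w1⟩ := w1
    obtain ⟨_, rfl, w2⟩ := w2
    exact (hG.no4 _ _ _ _ w1 h1 h2.symm w2.symm).resolve_left hrp
  · rw [h] at w1 w2
    obtain ⟨m₁, ⟨_, rfl, u1⟩, w1⟩ := w1
    obtain ⟨m₂, ⟨_, rfl, u2⟩, w2⟩ := w2
    have n1 : m₁ ≠ p := by
      rintro rfl
      have := D_adj u1
      omega
    have n2 : m₂ ≠ p := by
      rintro rfl
      have := D_adj u2
      omega
    rcases hG.no6 _ _ _ _ _ _ u1 w1 h1 h2.symm w2.symm u2.symm with k | k | k | k | k | k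
    · rw [← k, D_self] at h
      omega
    · exact absurd k n1
    · exact k
    · exact absurd k.symm n2
    · rw [k, D_self] at e
      omega
    · subst k
      exact (hG.no4 _ _ _ _ w1 h1 h2.symm w2.symm).resolve_left n1

lemma Girth8.no3 (hG : Girth8 G) {a b c : V} (h1 : G.Adj a b) (h2 : G.Adj b c) (h3 : G.Adj a c) :
    False := by
  obtain ⟨col, hc⟩ := hG.bip
  have k1 := hc _ _ h1
  have k2 := hc _ _ h2
  have k3 := hc _ _ h3
  revert k1 k2 k3
  cases col a <;> cases col b <;> cases col c <;> simp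

end Pool.Agent.Lib.MP_c2693b_gt.Gc
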