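import Mathlib

namespace Pool.Agent.Lib.MP_c2693b_gt

abbrev KF := ZMod 11
abbrev KP := KF × KF × KF
abbrev KV := ZMod 3 × KF × (KF × KF) × (KF × KF)

instance : Fact (Nat.Prime 11) := ⟨by norm_num⟩

def kM (a : KF) : KF × KF := (a, a ^ 2)

/-- the oriented edge relation: `y` has the next colour -/
def kR (x y : KV) : Prop := y.1 = x.1 + 1 ∧ x.2.2.2 + y.2.1 • kM x.2.1 = y.2.2.1

theorem z3_a : ∀ i : ZMod 3, i ≠ i + 1 := by decide
theorem z3_b : ∀ i : ZMod 3, i + 1 + 1 = i + 2 := by decide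
theorem z3_c : ∀ i : ZMod 3, i + 2 + 1 = i := by decide
theorem z3_d : ∀ i : ZMod 3, i + 1 ≠ i + 2 + 1 := by decide
theorem z3_e : ∀ i j : ZMod 3, i = j + 1 → j = i + 2 := by decide
theorem z3_f : ∀ i : ZMod 3, i + 1 ≠ i + 2 := by decide

/-- the 1-skeleton of the complex `K` -/
def kG : SimpleGraph KV where
  Adj x y := kR x y ∨ kR y x
  symm := ⟨fun _ _ h => h.symm⟩
  loopless := ⟨fun x h => by
    rcases h with h | h <;> exact z3_a _ h.1⟩

/-- the neighbours of the next colour (lines of the link) -/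
def kUp (x : KV) (l : KP) : KV := (x.1 + 1, l.1, x.2.2.2 + l.1 • kM x.2.1, l.2)
/-- the neighbours of the previous colour (points of the link) -/
def kDn (x : KV) (p : KP) : KV := (x.1 + 2, p.1, p.2, x.2.2.1 - x.2.1 • kM p.1)

/-- incidence of a line and a point -/
def kInc (l p : KP) : Prop := l.2 + p.1 • kM l.1 = p.2

theorem kG_col {x y : KV} (h : kG.Adj x y) : x.1 ≠ y.1 := by
  rcases h with h | h
  · rw [h.1]; exact z3_a _
  · rw [h.1]; exact (z3_a _).symm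

theorem kR_iff_up (x y : KV) : kR x y ↔ ∃ l, y = kUp x l := by
  constructor
  · rintro ⟨h1, h2⟩
    refine ⟨(y.2.1, y.2.2.2), ?_⟩
    obtain ⟨i, b, u, v⟩ := y
    simp only [kUp] at *
    rw [h1, h2]
  · rintro ⟨l, rfl⟩
    exact ⟨rfl, rfl⟩

theorem kR_iff_dn (x y : KV) : kR y x ↔ ∃ p, y = kDn x p := by
  constructor
  · rintro ⟨h1, h2⟩
    refine ⟨(y.2.1, y.2.2.1), ?_⟩
    obtain ⟨i, b, u, v⟩ := y
    simp only [kDn] at *
    rw [z3_e _ _ h1, ← h2, add_sub_cancel_right]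
  · rintro ⟨p, rfl⟩
    exact ⟨(z3_c _).symm, sub_add_cancel _ _⟩

theorem kG_adj_iff (x y : KV) : kG.Adj x y ↔ (∃ l, y = kUp x l) ∨ ∃ p, y = kDn x p := by
  rw [← kR_iff_up, ← kR_iff_dn]; rfl

theorem kUp_adj (x : KV) (l : KP) : kG.Adj x (kUp x l) := (kG_adj_iff _ _).2 (Or.inl ⟨l, rfl⟩)
theorem kDn_adj (x : KV) (p : KP) : kG.Adj x (kDn x p) := (kG_adj_iff _ _).2 (Or.inr ⟨p, rfl⟩)

theorem kUp_inj (x : KV) : Function.Injective (kUp x) := by
  intro l l' h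
  simp only [kUp, Prod.mk.injEq] at h
  exact Prod.ext h.2.1 h.2.2.2

theorem kDn_inj (x : KV) : Function.Injective (kDn x) := by
  intro l l' h
  simp only [kDn, Prod.mk.injEq] at h
  exact Prod.ext h.2.1 h.2.2.1

theorem kUp_ne_kDn (x : KV) (l p : KP) : kUp x l ≠ kDn x p := fun h =>
  z3_f x.1 (congrArg Prod.fst h)

theorem not_adj_up_up (x : KV) (l l' : KP) : ¬ kG.Adj (kUp x l) (kUp x l') := fun h => kG_col h rfl
theorem not_adj_dn_dn (x : KV) (p p' : KP) : ¬ kG.Adj (kDn x p) (kDn x p') := fun h => kG_col h rfl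

theorem adj_up_dn (x : KV) (l p : KP) : kG.Adj (kUp x l) (kDn x p) ↔ kInc l p := by
  constructor
  · rintro (h | h)
    · exact h.2
    · exact absurd h.1 (z3_d _)
  · intro h
    exact Or.inl ⟨(z3_b _).symm, h⟩

theorem adj_dn_up (x : KV) (l p : KP) : kG.Adj (kDn x p) (kUp x l) ↔ kInc l p := by
  rw [kG.adj_comm, adj_up_dn]

/-- two points on a line differ by a multiple of the direction -/
theorem kInc_sub {l p p' : KP} (h : kInc l p) (h' : kInc l p') :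
    p.2.1 - p'.2.1 = (p.1 - p'.1) * l.1 ∧ p.2.2 - p'.2.2 = (p.1 - p'.1) * l.1 ^ 2 := by
  have a1 := congrArg Prod.fst h
  have a2 := congrArg Prod.snd h
  have b1 := congrArg Prod.fst h'
  have b2 := congrArg Prod.snd h'
  simp only [kM, Prod.fst_add, Prod.snd_add, Prod.smul_fst, Prod.smul_snd, smul_eq_mul] at a1 a2 b1 b2
  constructor
  · linear_combination b1 - a1
  · linear_combination b2 - a2

theorem kInc_pt {l p p' : KP} (h : kInc l p) (h' : kInc l p') (e : p.1 = p'.1) : p = p' := by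
  refine Prod.ext e ?_
  rw [← h, ← h', e]

theorem kInc_ln {l l' p : KP} (h : kInc l p) (h' : kInc l' p) (e : l.1 = l'.1) : l = l' := by
  refine Prod.ext e ?_
  have : l.2 + p.1 • kM l.1 = l'.2 + p.1 • kM l.1 := by rw [h, e, h']
  exact add_right_cancel this

theorem kInc_four {l l' p p' : KP} (a : kInc l p) (b : kInc l p') (c : kInc l' p) (d : kInc l' p') :
    l = l' ∨ p = p' := by
  by_cases e : p.1 = p'.1
  · exact Or.inr (kInc_pt a b e)
  · left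
    have h1 := (kInc_sub a b).1
    have h2 := (kInc_sub c d).1
    exact kInc_ln a c (mul_left_cancel₀ (sub_ne_zero.2 e) (h1.symm.trans h2))

theorem kInc_six {l1 l2 l3 p1 p2 p3 : KP} (a : kInc l1 p1) (b : kInc l1 p2) (c : kInc l2 p2)
    (d : kInc l2 p3) (e : kInc l3 p3) (f : kInc l3 p1) :
    l1 = l2 ∨ l2 = l3 ∨ l3 = l1 ∨ p1 = p2 ∨ p2 = p3 ∨ p3 = p1 := by
  by_contra hne
  push Not at hne
  obtain ⟨n1, n2, n3, m1, -, -⟩ := hne
  have k1 : l1.1 - l2.1 ≠ 0 := sub_ne_zero.2 fun h => n1 (kInc_ln b c h)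
  have k3 : l3.1 - l1.1 ≠ 0 := sub_ne_zero.2 fun h => n3 (kInc_ln f a h)
  have j1 : p1.1 - p2.1 ≠ 0 := sub_ne_zero.2 fun h => m1 (kInc_pt a b h)
  obtain ⟨s1, t1⟩ := kInc_sub a b
  obtain ⟨s2, t2⟩ := kInc_sub c d
  obtain ⟨s3, t3⟩ := kInc_sub e f
  have : (p1.1 - p2.1) * ((l1.1 - l2.1) * (l3.1 - l1.1)) = 0 := by
    linear_combination (t1 + t2 + t3) - (l2.1 + l3.1) * (s1 + s2 + s3)
  exact mul_ne_zero j1 (mul_ne_zero k1 k3) this

/-- (K1) no 4-cycle in a link -/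
theorem k1_four {x y1 y2 y3 y4 : KV} (h1 : kG.Adj x y1) (h2 : kG.Adj x y2) (h3 : kG.Adj x y3)
    (h4 : kG.Adj x y4) (a : kG.Adj y1 y2) (b : kG.Adj y2 y3) (c : kG.Adj y3 y4) (d : kG.Adj y4 y1) :
    y1 = y3 ∨ y2 = y4 := by
  rw [kG_adj_iff] at h1 h2 h3 h4
  rcases h1 with ⟨u1, rfl⟩ | ⟨u1, rfl⟩ <;> rcases h2 with ⟨u2, rfl⟩ | ⟨u2, rfl⟩ <;>
    rcases h3 with ⟨u3, rfl⟩ | ⟨u3, rfl⟩ <;> rcases h4 with ⟨u4, rfl⟩ | ⟨u4, rfl⟩ <;>
    simp only [not_adj_up_up, not_adj_dn_dn, adj_up_dn, adj_dn_up] at a b c d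
  · rcases kInc_four a d b c with h | h <;> simp [h]
  · rcases kInc_four a b d c with h | h <;> simp [h]

/-- (K1) no 6-cycle in a link -/
theorem k1_six {x y1 y2 y3 y4 y5 y6 : KV} (h1 : kG.Adj x y1) (h2 : kG.Adj x y2) (h3 : kG.Adj x y3)
    (h4 : kG.Adj x y4) (h5 : kG.Adj x y5) (h6 : kG.Adj x y6) (a : kG.Adj y1 y2) (b : kG.Adj y2 y3)
    (c : kG.Adj y3 y4) (d : kG.Adj y4 y5) (e : kG.Adj y5 y6) (f : kG.Adj y6 y1) :
    y1 = y3 ∨ y3 = y5 ∨ y5 = y1 ∨ y2 = y4 ∨ y4 = y6 ∨ y6 = y2 := by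
  rw [kG_adj_iff] at h1 h2 h3 h4 h5 h6
  rcases h1 with ⟨u1, rfl⟩ | ⟨u1, rfl⟩ <;> rcases h2 with ⟨u2, rfl⟩ | ⟨u2, rfl⟩ <;>
    simp only [not_adj_up_up, not_adj_dn_dn, adj_up_dn, adj_dn_up] at a <;>
    rcases h3 with ⟨u3, rfl⟩ | ⟨u3, rfl⟩ <;>
    simp only [not_adj_up_up, not_adj_dn_dn, adj_up_dn, adj_dn_up] at b <;>
    rcases h4 with ⟨u4, rfl⟩ | ⟨u4, rfl⟩ <;>
    simp only [not_adj_up_up, not_adj_dn_dn, adj_up_dn, adj_dn_up] at c <;>
    rcases h5 with ⟨u5, rfl⟩ | ⟨u5, rfl⟩ <;>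
    simp only [not_adj_up_up, not_adj_dn_dn, adj_up_dn, adj_dn_up] at d <;>
    rcases h6 with ⟨u6, rfl⟩ | ⟨u6, rfl⟩ <;>
    simp only [not_adj_up_up, not_adj_dn_dn, adj_up_dn, adj_dn_up] at e f
  · rcases kInc_six f a b c d e with h | h | h | h | h | h <;> simp [h]
  · rcases kInc_six a b c d e f with h | h | h | h | h | h <;> simp [h]

/-- two neighbours of `x` at even distance have the same colour -/
theorem k_col_two {x y z w : KV} (h1 : kG.Adj x y) (h2 : kG.Adj x z) (h3 : kG.Adj x w)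
    (a : kG.Adj y z) (b : kG.Adj z w) : y.1 = w.1 := by
  have key : ∀ i j k l : ZMod 3, i ≠ j → i ≠ k → i ≠ l → j ≠ k → k ≠ l → j = l := by decide
  exact key _ _ _ _ (kG_col h1) (kG_col h2) (kG_col h3) (kG_col a) (kG_col b)

/-- the corners of the 4-cycle (K3) -/
def kA (j : KF) : KV := (0, 0, (j, 0), 0)
def kB (j : KF) : KV := (1, 0, 0, (j, 0))

theorem kAB_adj (i j : KF) : kG.Adj (kA i) (kB j) :=
  Or.inl ⟨by simp [kA, kB], by simp [kA, kB]⟩

theorem kA_inj : Function.Injective kA := fun i j h => by simpa [kA] using h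
theorem kB_inj : Function.Injective kB := fun i j h => by simpa [kB] using h

/-- (K3) at a corner `kA i`: `kB j`, `kB k` have no common neighbour in the link -/
theorem k3_A (i : KF) {j k : KF} (hjk : j ≠ k) (z : KV) (h : kG.Adj (kA i) z)
    (h1 : kG.Adj (kB j) z) (h2 : kG.Adj (kB k) z) : False := by
  have e : ∀ m, kB m = kUp (kA i) (0, m, 0) := fun m => by simp [kA, kB, kUp]
  rw [e] at h1 h2
  rcases (kG_adj_iff _ _).1 h with ⟨l, rfl⟩ | ⟨p, rfl⟩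
  · exact not_adj_up_up _ _ _ h1
  · rw [adj_up_dn] at h1 h2
    have := kInc_ln h1 h2 rfl
    simp only [Prod.mk.injEq] at this
    exact hjk this.2.1

/-- (K3) at a corner `kB i`: `kA j`, `kA k` have no common neighbour in the link -/
theorem k3_B (i : KF) {j k : KF} (hjk : j ≠ k) (z : KV) (h : kG.Adj (kB i) z)
    (h1 : kG.Adj (kA j) z) (h2 : kG.Adj (kA k) z) : False := by
  have e : ∀ m, kA m = kDn (kB i) (0, m, 0) := fun m => by
    simp only [kA, kB, kDn, zero_smul, sub_zero]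
    rfl
  rw [e] at h1 h2
  rcases (kG_adj_iff _ _).1 h with ⟨l, rfl⟩ | ⟨p, rfl⟩
  · rw [adj_dn_up] at h1 h2
    have := kInc_pt h1 h2 rfl
    simp only [Prod.mk.injEq] at this
    exact hjk this.2.1
  · exact not_adj_dn_dn _ _ _ h1

theorem k_two_step (x y : KV) (h : y.1 = x.1 + 2) : ∃ z, kG.Adj x z ∧ kG.Adj z y := by
  refine ⟨kUp x (0, y.2.2.1 - y.2.1 • kM 0), kUp_adj _ _, Or.inl ⟨?_, ?_⟩⟩
  · rw [h]; exact (z3_b _).symm
  · exact sub_add_cancel _ _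

theorem kG_connected : kG.Connected := by
  have two : ∀ x y : KV, y.1 = x.1 + 2 → kG.Reachable x y := fun x y h => by
    obtain ⟨z, a, b⟩ := k_two_step x y h
    exact a.reachable.trans b.reachable
  have tri : ∀ i j : ZMod 3, j = i + 2 ∨ i = j + 2 ∨ (j = i + 1 + 2) := by decide
  refine ⟨fun x y => ?_⟩
  rcases tri x.1 y.1 with h | h | h
  · exact two x y h
  · exact (two y x h).symm
  · exact (kUp_adj x 0).reachable.trans (two _ y h)

end Pool.Agent.Lib.MP_c2693b_gt
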