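import Pool.Agent.Lib.MP_c2693b_gt.KMap
import Pool.Agent.Lib.MP_c2693b_gt.Cm1
import Pool.Agent.Lib.MP_c2693b_gt.Lk
import Pool.Agent.Lib.MP_c2693b_gt.ConeHyp

/-! The 4-cycle of `K` is a closed local geodesic of `M`. -/

set_option linter.unusedSectionVars false

open scoped BigOperators Topology Classical
open Set Filter Real

namespace Pool.Agent.Lib.MP_c2693b_gt.KMap

open Ar Tri Sm Cm Lk ConeAlg Sum

variable {S : Type} [Fintype S] [DecidableEq S] {P : Piece S}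

theorem dist_opp {C : Type} [ConeAlg C] {a b : C} (h : ip a b = -(nm a * nm b)) :
    dist (⟨a⟩ : Hyp C) ⟨b⟩ = dist (⟨o⟩ : Hyp C) ⟨a⟩ + dist (⟨o⟩ : Hyp C) ⟨b⟩ := by
  have e : cosh (dist (⟨a⟩ : Hyp C) ⟨b⟩) =
      cosh (dist (⟨o⟩ : Hyp C) ⟨a⟩ + dist (⟨o⟩ : Hyp C) ⟨b⟩) := by
    rw [cosh_add, dist_comm (⟨o⟩ : Hyp C), dist_comm (⟨o⟩ : Hyp C), Hyp.cosh_dist_o,
      Hyp.cosh_dist_o, Hyp.sinh_dist_o, Hyp.sinh_dist_o, Hyp.cosh_dist, Lk, h, sub_neg_eq_add]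
  exact le_antisymm (le_of_cosh_le (by positivity) e.le) (le_of_cosh_le dist_nonneg e.ge)

/-- The angle `π` condition at a vertex of `K`. -/
def Corner (X : Sphere kG S) (x0 : Mh P X.T (kcol Prod.fst)) {Z : Type} [MetricSpace Z] (r : ℝ)
    (φ : Mh P X.T (kcol Prod.fst) → Z) : Prop :=
  ∀ b a a2 : KV, (∀ w, x0.1.1 w ≠ 0 ↔ w = inl b) → a ≠ a2 → a.1 = a2.1 →
    (∀ m, kG.Adj b m → kG.Adj a m → kG.Adj a2 m → False) →
    ∀ x ∈ (steps P X.T (kcol Prod.fst)).U x0 r, ∀ y ∈ (steps P X.T (kcol Prod.fst)).U x0 r,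
      (∀ w, x.1.1 w ≠ 0 → w = inl b ∨ w = inl a) → (∀ w, y.1.1 w ≠ 0 → w = inl b ∨ w = inl a2) →
      dist (φ x) (φ y) = dist ((steps P X.T (kcol Prod.fst)).p x0) ((steps P X.T (kcol Prod.fst)).p x) +
        dist ((steps P X.T (kcol Prod.fst)).p x0) ((steps P X.T (kcol Prod.fst)).p y)

theorem corner_of (X : Sphere kG S) {x0 : Mh P X.T (kcol Prod.fst)} {s0 : Finset (KV ⊕ S)} {k : ℕ}
    {c : ℝ} {C : Type} [ConeAlg C] (Y : Cells X.T {w | ∀ s ∈ s0, X.T.Adj s w} (gram c) C) {r : ℝ}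
    {φ : Mh P X.T (kcol Prod.fst) → Hyp (CProd (Euc k) C)} {ψ}
    (hm : (steps P X.T (kcol Prod.fst)).Model x0 r φ ψ) (h0 : φ x0 = ⟨o⟩) (hk : k + 1 = s0.card)
    (hs : ∀ w, w ∈ s0 ↔ x0.1.1 w ≠ 0)
    (hsupp : ∀ x ∈ (steps P X.T (kcol Prod.fst)).U x0 r, ∀ w, Y.co (φ x).val.2 w ≠ 0 → x.1.1 w ≠ 0)
    (hfar : ∀ b, inl b ∈ s0 → ∀ (a a2 : KV) (u w : C), Y.co u = Pi.single (inl a) 1 →
      Y.co w = Pi.single (inl a2) 1 → a ≠ a2 → a.1 = a2.1 →
      (∀ m, kG.Adj b m → kG.Adj a m → kG.Adj a2 m → False) → ip u w = -1) :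
    Corner X x0 r φ := by
  intro b a a2 hb hne hcol hno x hx y hy h1 h2
  have hb0 : inl b ∈ s0 := (hs _).2 ((hb _).2 rfl)
  have e0 : s0 = {inl b} := by
    ext w
    rw [hs, hb, Finset.mem_singleton]
  obtain rfl : k = 0 := by
    rw [e0, Finset.card_singleton] at hk
    omega
  have key : ∀ (a : KV) (v : C), (∀ w, Y.co v w ≠ 0 → w = inl b ∨ w = inl a) →
      v = o ∨ ∃ l u, 0 ≤ l ∧ Y.co u = Pi.single (inl a) 1 ∧ v = sm l u ∧ nm u = 1 := by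
    intro a v hv
    have h3 : ∀ w, w ≠ inl a → Y.co v w = 0 := fun w hw => by
      by_contra h
      rcases hv w h with e | e
      · exact (Y.supp v w h _ hb0).ne e.symm
      · exact hw e
    by_cases h4 : Y.co v (inl a) = 0
    · refine Or.inl (Y.inj ?_)
      rw [Y.co_o]
      funext w
      by_cases e : w = inl a
      · rw [e, h4]; rfl
      · exact h3 w e
    · have h5 : ∀ w, (Pi.single (inl a) 1 : KV ⊕ S → ℝ) w ≠ 0 → Y.co v w ≠ 0 := fun w hw => by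
        rwa [(not_not.1 fun e => hw (Pi.single_eq_of_ne e 1) : w = inl a)]
      obtain ⟨u, hu⟩ := Y.surj (Pi.single (inl a) 1) (cone_mono (Y.mem v)
        (fun w => by rw [Pi.single_apply]; split_ifs <;> norm_num) h5) fun w hw =>
          Y.supp v w (h5 w hw)
      refine Or.inr ⟨_, u, Y.nonneg v (inl a), hu, Y.inj ?_, ?_⟩
      · rw [Y.co_sm (Y.nonneg v _), hu]
        funext w
        by_cases e : w = inl a
        · rw [e, Pi.smul_apply, Pi.single_eq_same, smul_eq_mul, mul_one]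
        · rw [h3 w e, Pi.smul_apply, Pi.single_eq_of_ne e, smul_zero]
      · have h6 : nm u ^ 2 = 1 := by
          rw [nm_sq, Y.ip_self, hu, bf, Finset.sum_eq_single (inl a), Finset.sum_eq_single (inl a)]
          · simp only [Pi.single_eq_same, gram, if_true, mul_one]
          · intro w _ e
            rw [Pi.single_eq_of_ne e, mul_zero, zero_mul]
          · exact fun h => absurd (Finset.mem_univ _) h
          · intro w _ e
            simp only [Pi.single_eq_of_ne e, zero_mul, Finset.sum_const_zero]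
          · exact fun h => absurd (Finset.mem_univ _) h
        exact (pow_eq_one_iff_of_nonneg (nm_nonneg u) two_ne_zero).1 h6
  have hr := hm.pos
  rw [← hm.rad (Steps.U_mono (by linarith) hx), ← hm.rad (Steps.U_mono (by linarith) hy), h0]
  refine dist_opp (a := (φ x).val) (b := (φ y).val) ?_
  have z1 : ∀ v : CProd (Euc 0) C, v.1 = o := fun v => Subsingleton.elim _ _
  have n1 : ∀ v : CProd (Euc 0) C, nm v = nm v.2 := fun v => by
    have := CProd.nm_sq' v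
    rw [z1, nm_o, zero_pow two_ne_zero, zero_add] at this
    exact (pow_left_inj₀ (nm_nonneg _) (nm_nonneg _) two_ne_zero).1 this
  rw [CProd.ip_def, z1 (φ x).val, ip_o, zero_add, n1, n1]
  rcases key a _ fun w h => h1 w (hsupp x hx w h) with e | ⟨l, u, hl, hu, e, n⟩
  · rw [e, ip_o, nm_o, zero_mul, neg_zero]
  rcases key a2 _ fun w h => h2 w (hsupp y hy w h) with e' | ⟨l', u', hl', hu', e', n'⟩
  · rw [e', ip_o', nm_o, mul_zero, neg_zero]
  rw [e, e', ip_sm hl, ip_sm' hl', nm_sm hl, nm_sm hl', n, n', hfar b hb0 a a2 u u' hu hu' hne hcol hno]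
  ring

/-- The corner condition for the models over link cones. -/
theorem corner (X : Sphere kG S) {x0 : Mh P X.T (kcol Prod.fst)} {U : Set (KV ⊕ S)} {k : ℕ}
    {c : ℝ} {C : Type} [ConeAlg C] (Y : Cells X.T U (gram c) C) {r : ℝ}
    {φ : Mh P X.T (kcol Prod.fst) → Hyp (CProd (Euc k) C)} {ψ}
    (hU : ∀ w, w ∈ U ↔ ∀ s, x0.1.1 s ≠ 0 → X.T.Adj s w)
    (hm : (steps P X.T (kcol Prod.fst)).Model x0 r φ ψ) (h0 : φ x0 = ⟨o⟩)
    (hk : k + 1 = Set.ncard {w | x0.1.1 w ≠ 0}) (hc : c ^ 2 = 1 / 2)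
    (hsupp : ∀ x ∈ (steps P X.T (kcol Prod.fst)).U x0 r, ∀ w, Y.co (φ x).val.2 w ≠ 0 → x.1.1 w ≠ 0) :
    Corner X x0 r φ := by
  obtain ⟨s0, hs⟩ : ∃ s0 : Finset (KV ⊕ S), ∀ w, w ∈ s0 ↔ x0.1.1 w ≠ 0 :=
    ⟨(Set.toFinite {w | x0.1.1 w ≠ 0}).toFinset, fun w => Set.Finite.mem_toFinset _⟩
  obtain rfl : U = {w | ∀ s ∈ s0, X.T.Adj s w} := Set.ext fun w => by
    simp only [hU, hs, mem_ofPred_eq]
  refine corner_of X Y hm h0 ?_ hs hsupp fun b hb a a2 u w hu hw h1 h2 h3 => ?_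
  · rw [hk, ← Set.ncard_coe_finset]
    exact congrArg _ (Set.ext fun w => (hs w).symm)
  · rw [Cells.far X s0 hb hc Y zero_le_one zero_le_one hu hw h1 h2 h3, mul_one]

theorem hκ : ∀ x y : KV, kG.Adj x y → x.1 ≠ y.1 := fun _ _ => kG_col

variable (P) in
/-- The map to `Mh`, with a junk value off the cone. -/
noncomputable def Ψm (X : Sphere kG S) (b : Mh P X.T (kcol Prod.fst)) (z : KV → ℝ) :
    Mh P X.T (kcol Prod.fst) :=
  if h : z ∈ cone kG ∧ z ≠ 0 then ⟨Ψ Prod.fst P z, Ψ_mem hκ X h.1 h.2⟩ else b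

variable {X : Sphere kG S} {b : Mh P X.T (kcol Prod.fst)}

theorem Ψm_val {z : KV → ℝ} (h : z ∈ cone kG ∧ z ≠ 0) : (Ψm P X b z).1 = Ψ Prod.fst P z := by
  rw [Ψm, dif_pos h]

theorem Ψm_cont : ContinuousOn (Ψm P X b) {z | z ∈ cone kG ∧ z ≠ 0} :=
  Topology.IsInducing.subtypeVal.continuousOn_iff.2 ((Ψ_cont hκ).congr fun _ h => Ψm_val h)

theorem Ψm_supp {σ : Set KV} (hσ : kG.IsClique σ) {z : KV → ℝ} (hz : z ∈ face σ) {w : KV ⊕ S} :
    (Ψm P X b z).1.1 w ≠ 0 ↔ ∃ x, z x ≠ 0 ∧ inl x = w := by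
  rw [Ψm_val (face_sub hσ hz), Ψ_ne_zero hz.1 hz.2.2]

theorem Ψm_step {σ : Set KV} (hσ : kG.IsClique σ) {z z' : KV → ℝ} (hz : z ∈ face σ)
    (hz' : z' ∈ face σ) : (steps P X.T (kcol Prod.fst)).St (Ψm P X b z) (Ψm P X b z') := by
  refine ⟨add_mem (clique_inl X hσ) (Ψm P X b z).2.1 (Ψm P X b z').2.1 (fun w h => ?_)
    fun w h => ?_, ?_⟩
  · obtain ⟨x, hx, e⟩ := (Ψm_supp hσ hz).1 h
    exact ⟨x, hz.2.1 x hx, e⟩
  · obtain ⟨x, hx, e⟩ := (Ψm_supp hσ hz').1 h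
    exact ⟨x, hz'.2.1 x hx, e⟩
  · rw [Ψm_val (face_sub hσ hz), Ψm_val (face_sub hσ hz'), Ψ_snd, Ψ_snd]
    intro φ h h'
    rw [rt_beta (yy_mem hz.1 hz.2.2) h, rt_beta (yy_mem hz'.1 hz'.2.2) h']

theorem cl2 {u v : KV} (h : kG.Adj u v) : kG.IsClique {u, v} :=
  SimpleGraph.isClique_pair.2 fun _ => h

theorem edge_face (u v : KV) {t : ℝ} (ht : t ∈ Icc (0 : ℝ) 1) : edgePt al u v t ∈ face {u, v} :=
  edgePt_mem al_zero al_pos (by simp) (by simp) ht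

theorem dist_edge {u v : KV} (h : kG.Adj u v) {s t : ℝ} (hs : s ∈ Icc (0 : ℝ) 1)
    (ht : t ∈ Icc (0 : ℝ) 1) :
    dist ((steps P X.T (kcol Prod.fst)).p (Ψm P X b (edgePt al u v s)))
      ((steps P X.T (kcol Prod.fst)).p (Ψm P X b (edgePt al u v t))) = LL * |s - t| := by
  change arcosh (-q (Ψm P X b (edgePt al u v s)).1.2 (Ψm P X b (edgePt al u v t)).1.2) = _
  rw [Ψm_val (face_sub (cl2 h) (edge_face u v hs)), Ψm_val (face_sub (cl2 h) (edge_face u v ht)),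
    Ψ_snd, Ψ_snd, q_yy_edge (kG_col h), ← cosh_abs, arcosh_cosh (abs_nonneg _), abs_mul,
    abs_of_pos LL_pos]

theorem edge_U {u v : KV} (h : kG.Adj u v) {s t r : ℝ} (hs : s ∈ Icc (0 : ℝ) 1)
    (ht : t ∈ Icc (0 : ℝ) 1) (hr : 0 < r) (hst : |s - t| ≤ r / (2 * LL)) :
    Ψm P X b (edgePt al u v s) ∈
      (steps P X.T (kcol Prod.fst)).U (Ψm P X b (edgePt al u v t)) r := by
  refine ⟨Ψm_step (cl2 h) (edge_face u v ht) (edge_face u v hs), ?_⟩
  rw [dist_edge h ht hs, abs_sub_comm]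
  have := LL_pos
  rw [le_div_iff₀ (by positivity)] at hst
  linarith

theorem edge_O (hA : (steps P X.T (kcol Prod.fst)).HasModels) {b0} {u v : KV} (h : kG.Adj u v)
    {s t : ℝ} (hs : s ∈ Icc (0 : ℝ) 1) (ht : t ∈ Icc (0 : ℝ) 1)
    (h0 : Ψm P X b (edgePt al u v s) ∈ (steps P X.T (kcol Prod.fst)).O b0) :
    Ψm P X b (edgePt al u v t) ∈ (steps P X.T (kcol Prod.fst)).O b0 := by
  have hc : ContinuousOn (fun t => Ψm P X b (edgePt al u v t)) (Icc 0 1) :=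
    Ψm_cont.comp (edgePt_cont al_cont u v).continuousOn fun t ht =>
      face_sub (cl2 h) (edge_face u v ht)
  exact (isPreconnected_Icc.image _ hc).subset_isClopen
    (Steps.isClopen_O hA (top (kcol_adj hκ X)) b0) ⟨_, ⟨s, hs, rfl⟩, h0⟩ ⟨t, ht, rfl⟩

theorem cont_π {X H : Type} [MetricSpace H] {A : Steps X H} [TopologicalSpace X] (hA : A.HasModels)
    (hT : A.Top) (b : X) : Continuous (A.π b) := by
  refine continuous_iff_continuousAt.2 fun x => ?_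
  by_cases hx : x ∈ A.O b
  · exact Steps.continuousAt_π hA hT hx
  · refine (continuousAt_const (y := A.π b x)).congr ?_
    filter_upwards [(Steps.isClopen_O hA hT b).compl.isOpen.mem_nhds hx] with y hy
    have e : ∀ x, x ∉ A.O b → A.π b x = SeparationQuotient.mk (X := A.Pre b) ⟨b, Steps.self_mem_O b⟩ :=
      fun x hx => congrArg (SeparationQuotient.mk (X := A.Pre b)) (dif_neg hx)
    exact (e x hx).trans (e y hy).symm

theorem edge_zero (u v : KV) : edgePt al u v 0 = Pi.single u (al 1) := by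
  simp [edgePt, al_zero]

theorem edge_one (u v : KV) : edgePt al u v 1 = Pi.single v (al 1) := by
  simp [edgePt, al_zero]

theorem supp_vertex {u v : KV} (h : kG.Adj u v) (w : KV ⊕ S) :
    (Ψm P X b (edgePt al u v 0)).1.1 w ≠ 0 ↔ w = inl u := by
  rw [Ψm_supp (cl2 h) (edge_face u v ⟨le_rfl, zero_le_one⟩), edge_zero]
  refine ⟨fun ⟨x, hx, e⟩ => ?_, fun e => ⟨u, ?_, e.symm⟩⟩
  · rw [← e, (not_not.1 fun e => hx (Pi.single_eq_of_ne e _) : x = u)]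
  · rw [Pi.single_eq_same]
    exact (al_pos 1 ⟨one_pos, le_rfl⟩).ne'

/-- The inputs of the obstruction theorem. -/
theorem exists_data (X : Sphere kG S)
    (hC : ∀ x0, ∃ (Z : Type) (_ : MetricSpace Z) (r : ℝ) (φ : Mh P X.T (kcol Prod.fst) → Z)
      (ψ : Z → Mh P X.T (kcol Prod.fst)),
      (steps P X.T (kcol Prod.fst)).Model x0 r φ ψ ∧ Corner X x0 r φ) :
    ∃ (b : Mh P X.T (kcol Prod.fst)) (Φ : (KV → ℝ) → (steps P X.T (kcol Prod.fst)).M b),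
      ContinuousOn Φ {z | z ∈ cone kG ∧ z ≠ 0} ∧
      (∀ i j, LocGeo (fun t => Φ (edgePt al (kB j) (kA i) t)) LL) ∧
      (∀ j, ∃ η, 0 < η ∧ ∀ s ∈ Icc (0 : ℝ) η, ∀ t ∈ Icc (0 : ℝ) η,
        dist (Φ (edgePt al (kB j) (kA 0) s)) (Φ (edgePt al (kB j) (kA 1) t)) = LL * (s + t)) ∧
      Φ (Pi.single (kB 0) (al 1)) ≠ Φ (Pi.single (kB 1) (al 1)) := by
  have hA : (steps P X.T (kcol Prod.fst)).HasModels := fun x0 => by
    obtain ⟨Z, _, r, φ, ψ, h, -⟩ := hC x0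
    exact ⟨Z, _, r, φ, ψ, h⟩
  have ad : ∀ i j, kG.Adj (kB j) (kA i) := fun i j => (kAB_adj i j).symm
  have i0 : (0 : ℝ) ∈ Icc (0 : ℝ) 1 := ⟨le_rfl, zero_le_one⟩
  have i1 : (1 : ℝ) ∈ Icc (0 : ℝ) 1 := ⟨zero_le_one, le_rfl⟩
  have hL := LL_pos
  have hz := face_sub (cl2 (ad 0 0)) (edge_face _ _ i1)
  let b : Mh P X.T (kcol Prod.fst) := ⟨_, Ψ_mem hκ X hz.1 hz.2⟩
  have hO : ∀ i j, ∀ t ∈ Icc (0 : ℝ) 1,
      Ψm P X b (edgePt al (kB j) (kA i) t) ∈ (steps P X.T (kcol Prod.fst)).O b := by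
    intro i j t ht
    refine edge_O hA (ad i j) i0 ht ?_
    rw [edge_zero, ← edge_zero _ (kA 0)]
    refine edge_O hA (ad 0 j) i1 i0 ?_
    rw [edge_one, ← edge_one (kB 0), show Ψm P X b _ = b from Subtype.ext (Ψm_val hz)]
    exact Steps.self_mem_O b
  refine ⟨b, fun z => (steps P X.T (kcol Prod.fst)).π b (Ψm P X b z),
    (cont_π hA (top (kcol_adj hκ X)) b).comp_continuousOn Ψm_cont, fun i j t ht => ?_,
    fun j => ?_, fun h => ?_⟩
  · obtain ⟨Z, _, r, φ, ψ, hm⟩ := hA (Ψm P X b (edgePt al (kB j) (kA i) t))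
    have hr := hm.pos
    refine ⟨r / (2 * LL), by positivity, fun s hs s' hs' h h' => ?_⟩
    have u1 := edge_U (b := b) (ad i j) hs ht hr h
    have u2 := edge_U (b := b) (ad i j) hs' ht hr h'
    rw [hm.dist_π (hO i j t ht) u1 u2, hm.iso _ (Steps.U_mono (by linarith) u1) _
      (Steps.U_mono (by linarith) u2) (Ψm_step (cl2 (ad i j)) (edge_face _ _ hs) (edge_face _ _ hs')),
      dist_edge (ad i j) hs hs']
  · obtain ⟨Z, _, r, φ, ψ, hm, hc⟩ := hC (Ψm P X b (edgePt al (kB j) (kA 0) 0))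
    have hr := hm.pos
    refine ⟨min 1 (r / (2 * LL)), by positivity, fun s hs t ht => ?_⟩
    have hs1 : s ∈ Icc (0 : ℝ) 1 := ⟨hs.1, hs.2.trans (min_le_left _ _)⟩
    have ht1 : t ∈ Icc (0 : ℝ) 1 := ⟨ht.1, ht.2.trans (min_le_left _ _)⟩
    have e : edgePt al (kB j) (kA 1) 0 = edgePt al (kB j) (kA 0) 0 := by rw [edge_zero, edge_zero]
    have u1 := edge_U (b := b) (ad 0 j) hs1 i0 hr
      (by rw [sub_zero, abs_of_nonneg hs.1]; exact hs.2.trans (min_le_right _ _))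
    have u2 := edge_U (b := b) (ad 1 j) ht1 i0 hr
      (by rw [sub_zero, abs_of_nonneg ht.1]; exact ht.2.trans (min_le_right _ _))
    have d2 := dist_edge (b := b) (ad 1 j) i0 ht1
    rw [e] at u2 d2
    have sp : ∀ i, ∀ t ∈ Icc (0 : ℝ) 1, ∀ w, (Ψm P X b (edgePt al (kB j) (kA i) t)).1.1 w ≠ 0 →
        w = inl (kB j) ∨ w = inl (kA i) := fun i t ht w h => by
      obtain ⟨x, hx, rfl⟩ := (Ψm_supp (cl2 (ad i j)) (edge_face _ _ ht)).1 h
      exact ((edge_face _ _ ht).2.1 x hx).imp (congrArg _) (congrArg _)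
    rw [hm.dist_π (hO 0 j 0 i0) u1 u2, hc (kB j) (kA 0) (kA 1) (supp_vertex (ad 0 j))
      (fun e => zero_ne_one (kA_inj e)) rfl (k3_B j zero_ne_one) _ u1 _ u2 (sp 0 s hs1) (sp 1 t ht1),
      dist_edge (ad 0 j) i0 hs1, d2, zero_sub, zero_sub, abs_neg, abs_neg, abs_of_nonneg hs.1,
      abs_of_nonneg ht.1, mul_add]
  · simp only [← edge_zero _ (kA 0)] at h
    have e := ((Steps.π_eq_iff hA (hO 0 0 0 i0) (hO 0 1 0 i0)).1 h).1
    have h1 := (supp_vertex (b := b) (ad 0 1) _).2 rfl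
    rw [e, supp_vertex (ad 0 0)] at h1
    exact one_ne_zero (kB_inj (inl_injective h1))

end Pool.Agent.Lib.MP_c2693b_gt.KMap
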