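import Pool.Agent.Lib.MP_c2693b_gt.KDef

namespace Pool.Agent.Lib.MP_c2693b_gt

open Finset

/-- commuting symmetric multiples of projections whose triple products kill `g` -/
theorem comm_proj_bound {X ι : Type} [Fintype X] [Fintype ι] [DecidableEq ι] (q : ℝ) (hq : 0 < q)
    (A : ι → (X → ℝ) →ₗ[ℝ] (X → ℝ)) (hs : ∀ a x y, A a x ⬝ᵥ y = x ⬝ᵥ A a y)
    (hi : ∀ a x, A a (A a x) = q • A a x) (hc : ∀ a b x, A a (A b x) = A b (A a x)) (g : X → ℝ)
    (h3 : ∀ a b c, a ≠ b → a ≠ c → b ≠ c → A a (A b (A c g)) = 0) :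
    (∑ a, A a g) ⬝ᵥ g ≤ 2 * q * (g ⬝ᵥ g) := by
  set S : (X → ℝ) →ₗ[ℝ] (X → ℝ) := ∑ a, A a with hS
  have hSa : ∀ x, S x = ∑ a, A a x := fun x => by rw [hS, LinearMap.sum_apply]
  have hSs : ∀ x y, S x ⬝ᵥ y = x ⬝ᵥ S y := fun x y => by
    rw [hSa, hSa, sum_dotProduct, dotProduct_sum]
    exact sum_congr rfl fun a _ => hs a x y
  set w : X → ℝ := ∑ a, ∑ b ∈ univ.erase a, A b (A a g) with hw
  have h1 : S (S g) = q • S g + w := by
    rw [hSa g, map_sum, smul_sum, hw, ← sum_add_distrib]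
    refine sum_congr rfl fun a _ => ?_
    rw [hSa, ← add_sum_erase _ _ (mem_univ a), hi]
  have h2 : S w = (2 * q) • w := by
    rw [hw, map_sum, smul_sum]
    refine sum_congr rfl fun a _ => ?_
    rw [map_sum, smul_sum]
    refine sum_congr rfl fun b hb => ?_
    have hba : b ≠ a := ne_of_mem_erase hb
    rw [hSa, ← add_sum_erase _ _ (mem_univ a), ← add_sum_erase _ _ hb, sum_eq_zero, hi, hc a b,
      hi, map_smul, add_zero, ← add_smul, two_mul]
    intro c hc'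
    exact h3 c b a (ne_of_mem_erase hc') (ne_of_mem_erase (mem_of_mem_erase hc')) hba
  have e1 : S g ⬝ᵥ S g = q * (S g ⬝ᵥ g) + w ⬝ᵥ g := by
    rw [← hSs, h1, add_dotProduct, smul_dotProduct, smul_eq_mul]
  have e2 : w ⬝ᵥ w = 2 * q ^ 2 * (w ⬝ᵥ g) := by
    have a1 : w ⬝ᵥ S (S g) = 4 * q ^ 2 * (w ⬝ᵥ g) := by
      rw [← hSs, ← hSs, h2, map_smul, h2, smul_dotProduct, smul_dotProduct, smul_eq_mul, smul_eq_mul]
      ring
    have a2 : w ⬝ᵥ S g = 2 * q * (w ⬝ᵥ g) := by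
      rw [← hSs, h2, smul_dotProduct, smul_eq_mul]
    rw [h1, dotProduct_add, dotProduct_smul, smul_eq_mul, a2] at a1
    linarith
  have nn : ∀ x : X → ℝ, 0 ≤ x ⬝ᵥ x := fun x => sum_nonneg fun i _ => mul_self_nonneg _
  have ex : ∀ (x : X → ℝ) (t : ℝ), 0 ≤ x ⬝ᵥ x - 2 * t * (x ⬝ᵥ g) + t ^ 2 * (g ⬝ᵥ g) := fun x t => by
    have := nn (x - t • g)
    rw [sub_dotProduct, dotProduct_sub, dotProduct_sub, smul_dotProduct, smul_dotProduct,
      dotProduct_smul, dotProduct_smul, dotProduct_comm g x] at this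
    simp only [smul_eq_mul] at this
    linarith
  have b1 := ex w (2 * q ^ 2)
  have b2 := ex (S g) (2 * q)
  have hq2 : 0 < 2 * q ^ 2 := by positivity
  have c1 : w ⬝ᵥ g ≤ 2 * q ^ 2 * (g ⬝ᵥ g) := by
    refine le_of_mul_le_mul_left ?_ hq2
    rw [e2] at b1
    linarith
  rw [← hSa]
  refine le_of_mul_le_mul_left ?_ (show 0 < 3 * q by positivity)
  rw [e1] at b2
  linarith

def kD (b : KF) : KP := (1, kM b)

/-- sum along the lines of direction `b` -/
def kT (b : KF) : (KP → ℝ) →ₗ[ℝ] (KP → ℝ) where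
  toFun g x := ∑ t : KF, g (x + t • kD b)
  map_add' g h := by ext x; simp [sum_add_distrib]
  map_smul' c g := by ext x; simp [mul_sum]

theorem kT_apply (b : KF) (g : KP → ℝ) (x : KP) : kT b g x = ∑ t : KF, g (x + t • kD b) := rfl

theorem kT_symm (b : KF) (g h : KP → ℝ) : kT b g ⬝ᵥ h = g ⬝ᵥ kT b h := by
  simp only [dotProduct, kT_apply, sum_mul, mul_sum]
  rw [sum_comm, sum_comm (s := (univ : Finset KP))]
  refine Fintype.sum_equiv (Equiv.neg KF) _ _ fun t => ?_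
  refine Fintype.sum_equiv (Equiv.addRight (t • kD b)) _ _ fun x => ?_
  simp

theorem kT_idem (b : KF) (g : KP → ℝ) : kT b (kT b g) = (11 : ℝ) • kT b g := by
  ext x
  have : ∀ t : KF, ∑ s : KF, g (x + t • kD b + s • kD b) = ∑ s : KF, g (x + s • kD b) := fun t =>
    Fintype.sum_equiv (Equiv.addLeft t) _ _ fun s => by simp [add_smul, add_assoc]
  simp only [kT_apply, this, sum_const, card_univ, ZMod.card, Pi.smul_apply, smul_eq_mul,
    nsmul_eq_mul]
  norm_num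

theorem kT_comm (a b : KF) (g : KP → ℝ) : kT a (kT b g) = kT b (kT a g) := by
  ext x
  simp only [kT_apply]
  rw [sum_comm]
  simp only [add_right_comm]

theorem kT_three (g : KP → ℝ) (hg : ∑ x, g x = 0) (a b c : KF) (hab : a ≠ b) (hac : a ≠ c)
    (hbc : b ≠ c) : kT a (kT b (kT c g)) = 0 := by
  ext x
  have inj : Function.Injective
      fun u : KP => x + u.1 • kD a + u.2.1 • kD b + u.2.2 • kD c := by
    rintro ⟨u1, u2, u3⟩ ⟨v1, v2, v3⟩ h
    have e1 := congrArg Prod.fst h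
    have e2 := congrArg (fun z : KP => z.2.1) h
    have e3 := congrArg (fun z : KP => z.2.2) h
    simp only [kD, kM, Prod.fst_add, Prod.snd_add, Prod.smul_fst, Prod.smul_snd, smul_eq_mul]
      at e1 e2 e3
    have f1 : (u1 - v1) * ((a - b) * (a - c)) = 0 := by
      linear_combination e3 - (b + c) * e2 + b * c * e1
    have g1 : u1 = v1 := sub_eq_zero.1 ((mul_eq_zero.1 f1).resolve_right
      (mul_ne_zero (sub_ne_zero.2 hab) (sub_ne_zero.2 hac)))
    have f2 : (u2 - v2) * (b - c) = 0 := by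
      linear_combination e2 - c * e1 - (a - c) * g1
    have g2 : u2 = v2 := sub_eq_zero.1 ((mul_eq_zero.1 f2).resolve_right (sub_ne_zero.2 hbc))
    have g3 : u3 = v3 := by linear_combination e1 - g1 - g2
    rw [g1, g2, g3]
  have := (Finite.injective_iff_bijective.1 inj).sum_comp g
  rw [hg, Fintype.sum_prod_type] at this
  simp only [Fintype.sum_prod_type] at this
  simpa only [kT_apply, Pi.zero_apply] using this

/-- the point of the line `l` with first coordinate `c` -/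
def kLn (l : KP) (c : KF) : KP := (c, l.2 + c • kM l.1)

theorem sum_kLn (b : KF) (F : KP → ℝ) : ∑ w : KF × KF, ∑ c, F (kLn (b, w) c) = ∑ p, F p := by
  rw [sum_comm, Fintype.sum_prod_type]
  exact sum_congr rfl fun c _ =>
    Fintype.sum_equiv (Equiv.addRight (c • kM b)) _ _ fun w => rfl

theorem sum_sum_kLn (F : KP → ℝ) : ∑ l : KP, ∑ c, F (kLn l c) = 11 * ∑ p, F p := by
  rw [Fintype.sum_prod_type]
  simp only [sum_kLn, sum_const, card_univ, ZMod.card, nsmul_eq_mul]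
  norm_num

theorem line_sq_bound (g : KP → ℝ) (hg : ∑ x, g x = 0) :
    ∑ l : KP, (∑ c, g (kLn l c)) ^ 2 ≤ 22 * ∑ p, g p ^ 2 := by
  have h := comm_proj_bound (11 : ℝ) (by norm_num) kT kT_symm kT_idem kT_comm g (kT_three g hg)
  have e : (∑ b, kT b g) ⬝ᵥ g = ∑ l : KP, (∑ c, g (kLn l c)) ^ 2 := by
    rw [sum_dotProduct, Fintype.sum_prod_type]
    refine sum_congr rfl fun b _ => ?_
    rw [dotProduct, ← sum_kLn b]
    refine sum_congr rfl fun w _ => ?_
    rw [sq, mul_sum]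
    refine sum_congr rfl fun c _ => ?_
    congr 1
    rw [kT_apply]
    refine Fintype.sum_equiv (Equiv.addLeft c) _ _ fun t => ?_
    simp [kLn, kD, add_smul, add_assoc]
  have e2 : g ⬝ᵥ g = ∑ p, g p ^ 2 := by simp [dotProduct, sq]
  rw [e, e2] at h
  linarith

theorem card_KP : (Fintype.card KP : ℝ) = 1331 := by
  simp only [Fintype.card_prod, ZMod.card]
  norm_num

theorem inc_gap (g f : KP → ℝ) (h : ∑ l, g l + ∑ p, f p = 0) :
    44 / 7 * (∑ l, g l ^ 2 + ∑ p, f p ^ 2) ≤ ∑ l : KP, ∑ c, (g l - f (kLn l c)) ^ 2 := by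
  set α : ℝ := (∑ p, f p) / 1331 with hα
  have hsum : ∑ p, f p = 1331 * α := by rw [hα]; ring
  have h0 : ∑ p, (f p - α) = 0 := by
    rw [sum_sub_distrib, sum_const, card_univ, nsmul_eq_mul, card_KP, hsum, sub_self]
  have hb := line_sq_bound (fun p => f p - α) h0
  have hn : ∑ p, (f p - α) ^ 2 = ∑ p, f p ^ 2 - 1331 * α ^ 2 := by
    have : ∀ p, (f p - α) ^ 2 = f p ^ 2 - 2 * α * f p + α ^ 2 := fun p => by ring
    simp only [this, sum_add_distrib, sum_sub_distrib, ← mul_sum, sum_const, card_univ,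
      nsmul_eq_mul, card_KP, hsum]
    ring
  have pt : ∀ l : KP, 44 / 7 * g l ^ 2 - 22 * α * g l + ∑ c, f (kLn l c) ^ 2
      - 7 / 33 * (∑ c, (f (kLn l c) - α)) ^ 2 ≤ ∑ c, (g l - f (kLn l c)) ^ 2 := fun l => by
    have : ∀ c, (g l - f (kLn l c)) ^ 2
        = (g l ^ 2 - 2 * α * g l) - 2 * g l * (f (kLn l c) - α) + f (kLn l c) ^ 2 := fun c => by ring
    have e : ∑ c, (g l - f (kLn l c)) ^ 2 = 11 * (g l ^ 2 - 2 * α * g l)
        - 2 * g l * ∑ c, (f (kLn l c) - α) + ∑ c, f (kLn l c) ^ 2 := by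
      rw [sum_congr rfl fun c _ => this c, sum_add_distrib, sum_sub_distrib, ← mul_sum, sum_const,
        card_univ, ZMod.card, nsmul_eq_mul]
      norm_num
    rw [e]
    nlinarith [sq_nonneg (33 * g l - 7 * ∑ c, (f (kLn l c) - α))]
  have tot := sum_le_sum fun l (_ : l ∈ (univ : Finset KP)) => pt l
  rw [sum_sub_distrib, sum_add_distrib, sum_sub_distrib, ← mul_sum, ← mul_sum, ← mul_sum,
    sum_sum_kLn fun p => f p ^ 2] at tot
  have hg : ∑ l, g l = -(1331 * α) := by linarith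
  have hf : 0 ≤ ∑ p, f p ^ 2 := sum_nonneg fun p _ => sq_nonneg _
  rw [hg] at tot
  rw [hn] at hb
  nlinarith [sq_nonneg α]

open Classical in
theorem sum_nbr (x : KV) (F : KV → ℝ) :
    ∑ y ∈ univ.filter (kG.Adj x), F y = ∑ l, F (kUp x l) + ∑ p, F (kDn x p) := by
  have e : univ.filter (kG.Adj x) = univ.image (kUp x) ∪ univ.image (kDn x) := by
    ext y
    simp only [mem_filter, mem_univ, true_and, mem_union, mem_image, kG_adj_iff, eq_comm]
  rw [e, sum_union, sum_image fun a _ b _ h => kUp_inj x h, sum_image fun a _ b _ h => kDn_inj x h]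
  rw [disjoint_left]
  intro y h1 h2
  obtain ⟨l, -, rfl⟩ := mem_image.1 h1
  obtain ⟨p, -, hp⟩ := mem_image.1 h2
  exact kUp_ne_kDn x l p hp.symm

open Classical in
theorem filter_up (x : KV) (l : KP) :
    univ.filter (fun z => kG.Adj x z ∧ kG.Adj (kUp x l) z) = univ.image fun c => kDn x (kLn l c) := by
  ext z
  simp only [mem_filter, mem_univ, true_and, mem_image]
  constructor
  · rintro ⟨h1, h2⟩
    rcases (kG_adj_iff _ _).1 h1 with ⟨u, rfl⟩ | ⟨p, rfl⟩
    · exact absurd h2 (not_adj_up_up _ _ _)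
    · exact ⟨p.1, congrArg _ (Prod.ext rfl ((adj_up_dn _ _ _).1 h2))⟩
  · rintro ⟨c, rfl⟩
    exact ⟨kDn_adj _ _, (adj_up_dn _ _ _).2 rfl⟩

/-- the line through the point `p` with direction `b` -/
def kPt (p : KP) (b : KF) : KP := (b, p.2 - p.1 • kM b)

open Classical in
theorem filter_dn (x : KV) (p : KP) :
    univ.filter (fun z => kG.Adj x z ∧ kG.Adj (kDn x p) z) = univ.image fun b => kUp x (kPt p b) := by
  ext z
  simp only [mem_filter, mem_univ, true_and, mem_image]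
  constructor
  · rintro ⟨h1, h2⟩
    rcases (kG_adj_iff _ _).1 h1 with ⟨u, rfl⟩ | ⟨p', rfl⟩
    · exact ⟨u.1, congrArg _ (Prod.ext rfl (eq_sub_of_add_eq ((adj_dn_up _ _ _).1 h2)).symm)⟩
    · exact absurd h2 (not_adj_dn_dn _ _ _)
  · rintro ⟨c, rfl⟩
    exact ⟨kUp_adj _ _, (adj_dn_up _ _ _).2 (sub_add_cancel _ _)⟩

theorem kLn_inj (x : KV) (l : KP) : Function.Injective fun c => kDn x (kLn l c) :=
  fun _ _ h => congrArg Prod.fst (kDn_inj x h)

theorem kPt_inj (x : KV) (p : KP) : Function.Injective fun b => kUp x (kPt p b) :=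
  fun _ _ h => congrArg Prod.fst (kUp_inj x h)

open Classical in
/-- every edge lies in exactly eleven triangles -/
theorem k_tri {x y : KV} (h : kG.Adj x y) :
    (univ.filter fun z => kG.Adj x z ∧ kG.Adj y z).card = 11 := by
  rcases (kG_adj_iff _ _).1 h with ⟨l, rfl⟩ | ⟨p, rfl⟩
  · rw [filter_up, card_image_of_injective _ (kLn_inj x l), card_univ, ZMod.card]
  · rw [filter_dn, card_image_of_injective _ (kPt_inj x p), card_univ, ZMod.card]

theorem sum_flags (F : KP → KP → ℝ) :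
    ∑ p : KP, ∑ b, F (kPt p b) p = ∑ l : KP, ∑ c, F l (kLn l c) := by
  rw [← Fintype.sum_prod_type', ← Fintype.sum_prod_type']
  refine Fintype.sum_equiv
    ⟨fun u => (kPt u.1 u.2, u.1.1), fun u => (kLn u.1 u.2, u.1.1), ?_, ?_⟩ _ _ fun u => ?_
  · rintro ⟨⟨c, p⟩, b⟩; simp [kPt, kLn]
  · rintro ⟨⟨b, w⟩, c⟩; simp [kPt, kLn]
  · obtain ⟨⟨c, p⟩, b⟩ := u; simp [kPt, kLn]

open Classical in
/-- (K2) the spectral gap of the links -/
theorem k2_gap (x : KV) (f : KV → ℝ) (h : ∑ y ∈ univ.filter (kG.Adj x), f y = 0) :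
    2 * (4 / 7) * 11 * ∑ y ∈ univ.filter (kG.Adj x), f y ^ 2 ≤
      ∑ y ∈ univ.filter (kG.Adj x),
        ∑ z ∈ univ.filter (fun z => kG.Adj x z ∧ kG.Adj y z), (f y - f z) ^ 2 := by
  rw [sum_nbr] at h
  rw [sum_nbr, sum_nbr]
  have key := inc_gap (fun l => f (kUp x l)) (fun p => f (kDn x p)) h
  have e1 : ∀ l, ∑ z ∈ univ.filter (fun z => kG.Adj x z ∧ kG.Adj (kUp x l) z),
      (f (kUp x l) - f z) ^ 2 = ∑ c, (f (kUp x l) - f (kDn x (kLn l c))) ^ 2 := fun l => by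
    rw [filter_up, sum_image fun a _ b _ h => kLn_inj x l h]
  have e2 : ∀ p, ∑ z ∈ univ.filter (fun z => kG.Adj x z ∧ kG.Adj (kDn x p) z),
      (f (kDn x p) - f z) ^ 2 = ∑ b, (f (kUp x (kPt p b)) - f (kDn x p)) ^ 2 := fun p => by
    rw [filter_dn, sum_image fun a _ b _ h => kPt_inj x p h]
    exact sum_congr rfl fun b _ => by ring
  simp only [e1, e2]
  rw [sum_flags fun l p => (f (kUp x l) - f (kDn x p)) ^ 2]
  linarith

end Pool.Agent.Lib.MP_c2693b_gt
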