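import Pool.Agent.Lib.MP_c2693b_gt.KGap
import Pool.Agent.Lib.MP_c2693b_gt.Ob.Defs

namespace Pool.Agent.Lib.MP_c2693b_gt

theorem kG_linkGap [DecidableRel kG.Adj] : LinkGap kG 11 (4 / 7) where
  pos := by norm_num
  half := by norm_num
  deg := fun x y h => by convert k_tri h
  gap := fun x f h => by
    have := k2_gap x f (by convert h)
    push_cast
    convert this

end Pool.Agent.Lib.MP_c2693b_gt
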