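import Pool.Agent.Lib.MP_c2693b_gt.NoSm
import Pool.Agent.Lib.MP_c2693b_gt.KFin
import Pool.Agent.Lib.MP_c2693b_gt.Cm3

/-! The manifold has no nonpositively curved smoothing. -/

open Set Real

namespace Pool.Agent.Lib.MP_c2693b_gt.KMap

open Ar Tri Sm Cm Lk ConeAlg

variable {S : Type} [Fintype S] [DecidableEq S] {P : Piece S}

theorem not_npc' (X : Sphere kG S)
    (hC : ∀ x0, ∃ (Z : Type) (_ : MetricSpace Z) (r : ℝ) (φ : Mh P X.T (kcol Prod.fst) → Z)
      (ψ : Z → Mh P X.T (kcol Prod.fst)),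
      (steps P X.T (kcol Prod.fst)).Model x0 r φ ψ ∧ Corner X x0 r φ) :
    ∃ b : Mh P X.T (kcol Prod.fst), ∀ r, LocBus ((steps P X.T (kcol Prod.fst)).M b) r →
      ¬ HasNPCSmoothing ((steps P X.T (kcol Prod.fst)).M b) := by
  have hA : (steps P X.T (kcol Prod.fst)).HasModels := fun x0 => by
    obtain ⟨Z, _, r, φ, ψ, h, -⟩ := hC x0
    exact ⟨Z, _, r, φ, ψ, h⟩
  obtain ⟨b, Φ, h1, h2, h3, h4⟩ := exists_data X hC
  refine ⟨b, fun r hr => ?_⟩
  have := compact (kcol_adj hκ X) hA b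
  have : PathConnectedSpace ((steps P X.T (kcol Prod.fst)).M b) := ⟨inferInstance, fun x y => by
    obtain ⟨γ, ⟨g0, g1, g⟩, -⟩ := Steps.geodesic hA x trivial y trivial
    have hc : Continuous fun t : unitInterval => γ t :=
      (LipschitzWith.of_dist_le_mul (K := nndist x y) fun s t => by
        rw [g s s.2 t t.2, mul_comm]
        exact le_rfl).continuous
    exact ⟨⟨⟨_, hc⟩, g0, g1⟩⟩⟩
  exact no_smoothing hr Φ h1 al al_cont al_zero al_pos LL h2 h3 h4

/-- The manifold has no nonpositively curved smoothing. -/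
theorem not_npc (P : Piece S) (X : Sphere kG S) :
    ∃ b : Mh P X.T (kcol Prod.fst), ∀ r, LocBus ((steps P X.T (kcol Prod.fst)).M b) r →
      ¬ HasNPCSmoothing ((steps P X.T (kcol Prod.fst)).M b) :=
  not_npc' X fun x0 => by
    obtain ⟨s0, k, c, C, _, Y, r, φ, ψ, h1, h2, h3, -, -, h4, h5, h6⟩ := model P X x0
    refine ⟨_, _, r, φ, ψ, h1, corner_of X Y h1 h2 h4 h3 (fun x hx w h => (h6 x hx w h).1)
      fun b hb a a2 u w hu hw e1 e2 e3 => ?_⟩
    rw [Cells.far X s0 hb h5 Y zero_le_one zero_le_one hu hw e1 e2 e3, mul_one]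

end Pool.Agent.Lib.MP_c2693b_gt.KMap
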