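import Pool.Agent.Lib.MP_c2693b_gt.LkCell
import Pool.Agent.Lib.MP_c2693b_gt.ConeCN

/-! Angular cones in a cone algebra. -/

namespace Pool.Agent.Lib.MP_c2693b_gt.Lk

open Set ConeAlg Tri

/-- The angular cone round `u`. -/
def ang {C : Type*} [ConeAlg C] (u : C) (k : ℝ) : Set C := {a | k * nm u * nm a ≤ ip u a}

section Ang

variable {C D : Type*} [ConeAlg C] [ConeAlg D] {u : C} {k : ℝ}

lemma ang_closed (u : C) (k : ℝ) : IsClosed (ang u k) :=
  isClosed_le (continuous_const.mul continuous_nm)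
    (continuous_ip.comp (continuous_const.prodMk continuous_id))

lemma o_mem_ang (u : C) (k : ℝ) : o ∈ ang u k := by simp [ang, ip_o']

lemma self_mem_ang (u : C) (hk : k ≤ 1) : u ∈ ang u k := by
  show k * nm u * nm u ≤ ip u u
  rw [← nm_sq]
  nlinarith [sq_nonneg (nm u)]

lemma ang_sm {a : C} (ha : a ∈ ang u k) {l : ℝ} (hl : 0 ≤ l) : sm l a ∈ ang u k := by
  show k * nm u * nm (sm l a) ≤ ip u (sm l a)
  rw [nm_sm hl, ip_sm' hl]
  have : k * nm u * nm a ≤ ip u a := ha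
  nlinarith [mul_le_mul_of_nonneg_left this hl]

lemma ang_ad (hk : 0 ≤ k) {a b : C} (ha : a ∈ ang u k) (hb : b ∈ ang u k) : ad a b ∈ ang u k := by
  show k * nm u * nm (ad a b) ≤ ip u (ad a b)
  have h1 : k * nm u * nm a ≤ ip u a := ha
  have h2 : k * nm u * nm b ≤ ip u b := hb
  have h3 := mul_le_mul_of_nonneg_left (nm_ad_le a b) (mul_nonneg hk (nm_nonneg u))
  linarith [ip_ad u a b]

lemma ang_geo (hk : 0 ≤ k) {a b : C} (ha : a ∈ ang u k) (hb : b ∈ ang u k) {t : ℝ}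
    (ht : t ∈ Icc (0 : ℝ) 1) : geo a b t ∈ ang u k :=
  ang_ad hk (ang_sm ha (sub_nonneg.2 ht.2)) (ang_sm hb ht.1)

lemma ang_mono (u : C) {k k' : ℝ} (h : k ≤ k') : ang u k' ⊆ ang u k := fun a ha =>
  le_trans (mul_le_mul_of_nonneg_right (mul_le_mul_of_nonneg_right h (nm_nonneg u))
    (nm_nonneg a)) ha

lemma nm_pos' (hu : u ≠ o) : 0 < nm u :=
  lt_of_le_of_ne (nm_nonneg u) fun h => hu (nm_eq_zero.1 h.symm)

lemma ang_small (hu : u ≠ o) {d : ℝ} (hd : 0 < d) : ∃ k : ℝ, 0 < k ∧ k < 1 ∧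
    ∀ a ∈ ang u k, a ≠ o → ∃ l : ℝ, 0 < l ∧ dist (sm l a) u < d := by
  have h0 := nm_pos' hu
  have he : 0 < d ^ 2 / (4 * nm u ^ 2) := by positivity
  refine ⟨max (1 / 2) (1 - d ^ 2 / (4 * nm u ^ 2)), lt_max_of_lt_left one_half_pos,
    max_lt (by norm_num) (by linarith), fun a ha ha0 => ?_⟩
  have h1 := nm_pos' ha0
  have hl : 0 < nm u / nm a := by positivity
  refine ⟨nm u / nm a, hl, ?_⟩
  have h2 : (1 - d ^ 2 / (4 * nm u ^ 2)) * nm u * nm (sm (nm u / nm a) a) ≤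
      ip u (sm (nm u / nm a) a) := ang_mono u (le_max_right _ _) (ang_sm ha hl.le)
  have h3 : nm (sm (nm u / nm a) a) = nm u := by rw [nm_sm hl.le]; field_simp
  have h4 := dist_sq (sm (nm u / nm a) a) u
  rw [← nm_sq, ← nm_sq, h3, ip_comm] at h4
  rw [h3] at h2
  have h5 : (1 - d ^ 2 / (4 * nm u ^ 2)) * nm u * nm u = nm u ^ 2 - d ^ 2 / 4 := by
    field_simp
  refine lt_of_pow_lt_pow_left₀ 2 hd.le ?_
  nlinarith [pow_pos hd 2]

lemma ball_sub_ang (hu : u ≠ o) (hk : k < 1) : ∃ r : ℝ, 0 < r ∧ Metric.ball u r ⊆ ang u k := by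
  have h0 := nm_pos' hu
  have hO : IsOpen {a : C | k * nm u * nm a < ip u a} :=
    isOpen_lt (continuous_const.mul continuous_nm)
      (continuous_ip.comp (continuous_const.prodMk continuous_id))
  obtain ⟨r, hr, h⟩ := Metric.isOpen_iff.1 hO u (by
    show k * nm u * nm u < ip u u
    rw [← nm_sq]
    nlinarith [pow_pos h0 2])
  exact ⟨r, hr, fun a ha => le_of_lt (α := ℝ) (h ha)⟩

/-- A homogeneous map that is an isometry between angular cones. -/
structure StarMap (u : C) (k : ℝ) (j : C → D) : Prop where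
  pos : 0 < k
  lt : k < 1
  hom : ∀ l, 0 ≤ l → ∀ a, j (sm l a) = sm l (j a)
  bij : BijOn j (ang u k) (ang (j u) k)
  iso : ∀ a ∈ ang u k, ∀ b ∈ ang u k, dist (j a) (j b) = dist a b

lemma StarMap.map_o {j : C → D} (h : StarMap u k j) : j o = o := by
  rw [← sm_zero u, h.hom 0 le_rfl, sm_zero]

lemma StarMap.nm_eq {j : C → D} (h : StarMap u k j) {a : C} (ha : a ∈ ang u k) :
    nm (j a) = nm a := by
  rw [nm, nm, ← h.map_o, h.iso a ha o (o_mem_ang u k)]

lemma StarMap.ip_eq {j : C → D} (h : StarMap u k j) {a b : C} (ha : a ∈ ang u k)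
    (hb : b ∈ ang u k) : ip (j a) (j b) = ip a b := by
  rw [ConeAlg.ip_eq, ConeAlg.ip_eq a, h.nm_eq ha, h.nm_eq hb, h.iso a ha b hb]

lemma StarMap.mono {j : C → D} (h : StarMap u k j) {k' : ℝ} (hk : k ≤ k') (hk' : k' < 1) :
    StarMap u k' j := by
  have hu := self_mem_ang u h.lt.le
  have key : ∀ a ∈ ang u k, (j a ∈ ang (j u) k' ↔ a ∈ ang u k') := fun a ha => by
    show k' * nm (j u) * nm (j a) ≤ ip (j u) (j a) ↔ k' * nm u * nm a ≤ ip u a
    rw [h.nm_eq hu, h.nm_eq ha, h.ip_eq hu ha]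
  refine ⟨h.pos.trans_le hk, hk', h.hom, ⟨fun a ha => (key a (ang_mono u hk ha)).2 ha,
    h.bij.injOn.mono (ang_mono u hk), fun y hy => ?_⟩,
    fun a ha b hb => h.iso a (ang_mono u hk ha) b (ang_mono u hk hb)⟩
  obtain ⟨a, ha, rfl⟩ := h.bij.surjOn (ang_mono (j u) hk hy)
  exact ⟨a, (key a ha).1 hy, rfl⟩

lemma StarMap.map_ad {j : C → D} (h : StarMap u k j) {a b : C} (ha : a ∈ ang u k)
    (hb : b ∈ ang u k) : j (ad a b) = ad (j a) (j b) := by
  have hab := ang_ad h.pos.le ha hb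
  refine eq_of_ip ?_
  have h1 := ip_ad (j (ad a b)) (j a) (j b)
  rw [h.ip_eq hab ha, h.ip_eq hab hb, ip_comm _ a, ip_comm _ b, ip_ad_left, ip_ad_right] at h1
  rw [h.ip_eq hab hab, ad_sq, ad_sq, h.ip_eq ha ha, h.ip_eq hb hb, h.ip_eq ha hb]
  linarith

end Ang

variable {W : Type} [Fintype W] {T : SimpleGraph W} {U : Set W} {g : W → W → ℝ} {C : Type}
  [ConeAlg C]

/-- A narrow angular cone round `u` lies in the star of the support of `u`. -/
lemma Cells.ang_star (X : Cells T U g C) {u : C} (hu : u ≠ o) : ∃ k : ℝ, 0 < k ∧ k < 1 ∧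
    ∀ a ∈ ang u k, X.co u + X.co a ∈ cone T ∧ (a ≠ o → ∀ w, X.co u w ≠ 0 → X.co a w ≠ 0) := by
  have hO : IsOpen {a : C | ∀ w, X.co u w ≠ 0 → X.co a w ≠ 0} := by
    simp only [ofPred_forall]
    exact isOpen_iInter_of_finite fun w => isOpen_iInter_of_finite fun _ =>
      isOpen_ne_fun ((continuous_apply w).comp X.continuous_co) continuous_const
  obtain ⟨d, hd, h⟩ := Metric.isOpen_iff.1 hO u fun _ h => h
  obtain ⟨k, k0, k1, hk⟩ := ang_small hu hd
  have key : ∀ a ∈ ang u k, a ≠ o → ∀ w, X.co u w ≠ 0 → X.co a w ≠ 0 := by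
    intro a ha ha0 w hw
    obtain ⟨l, hl, hla⟩ := hk a ha ha0
    have := h hla w hw
    rw [X.co_sm hl.le] at this
    exact right_ne_zero_of_mul this
  refine ⟨k, k0, k1, fun a ha => ⟨?_, key a ha⟩⟩
  by_cases h0 : a = o
  · rw [h0, X.co_o, add_zero]; exact X.mem u
  · exact add_mem_cone (clique_of_cone (X.mem a)) (X.nonneg u) (X.nonneg a) (key a ha h0)
      fun _ h => h

/-- A positive definite symmetric form is Euclidean. -/
lemma exists_iso {M : Type} [AddCommGroup M] [Module ℝ M] [FiniteDimensional ℝ M]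
    (B : LinearMap.BilinForm ℝ M) (hs : ∀ x y, B x y = B y x) (hp : ∀ x, x ≠ 0 → 0 < B x x) :
    ∃ A : M ≃ₗ[ℝ] EuclideanSpace ℝ (Fin (Module.finrank ℝ M)),
      ∀ x y, Inner.inner ℝ (A x) (A y) = B x y := by
  let core : InnerProductSpace.Core ℝ M :=
    { inner := fun x y => B x y
      conj_inner_symm := fun x y => by simpa using hs y x
      re_inner_nonneg := fun x => by
        by_cases h : x = 0
        · simp [h]
        · simpa using (hp x h).le
      add_left := fun x y z => by simp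
      smul_left := fun x y r => by simp
      definite := fun x h => by
        by_contra k
        exact (hp x k).ne' h }
  let _ : NormedAddCommGroup M := core.toNormedAddCommGroup
  let _ : InnerProductSpace ℝ M := InnerProductSpace.ofCore _
  exact ⟨(stdOrthonormalBasis ℝ M).repr.toLinearEquiv, fun x y =>
    (stdOrthonormalBasis ℝ M).repr.inner_map_map x y⟩

end Pool.Agent.Lib.MP_c2693b_gt.Lk
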