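import Pool.Agent.Lib.MP_c2693b_gt.LkStep
import Pool.Agent.Lib.MP_c2693b_gt.GcDefs
import Pool.Agent.Lib.MP_c2693b_gt.KDef

/-! Link cones from the graph cone and the gluing theorem. -/

namespace Pool.Agent.Lib.MP_c2693b_gt.Lk

open Set ConeAlg Tri Sum Real Gc

/-- The kernel is determined by the cell structure. -/
lemma Cells.ip_unique {W : Type} [Fintype W] {T : SimpleGraph W} {U : Set W} {g : W → W → ℝ}
    {C D : Type} [ConeAlg C] [ConeAlg D] (X : Cells T U g C) (Y : Cells T U g D) {a b : C}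
    {a' b' : D} (ha : X.co a = Y.co a') (hb : X.co b = Y.co b') : ip a b = ip a' b' := by
  choose i hi using fun c : C => Y.surj _ (X.mem c) (X.supp c)
  choose j hj using fun c : D => X.surj _ (Y.mem c) (Y.supp c)
  have h1 : ∀ c e, dist (i c) (i e) ≤ 1 * dist c e := X.chain i zero_le_one fun c e h => by
    refine (sq_le_sq₀ dist_nonneg (by positivity)).1 ?_
    rw [one_mul, X.dist_cell h, Y.dist_cell (by rwa [hi, hi]), hi, hi]
  have h2 : ∀ c e, dist (j c) (j e) ≤ 1 * dist c e := Y.chain j zero_le_one fun c e h => by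
    refine (sq_le_sq₀ dist_nonneg (by positivity)).1 ?_
    rw [one_mul, Y.dist_cell h, X.dist_cell (by rwa [hj, hj]), hj, hj]
  obtain rfl : a' = i a := Y.inj (by rw [← ha, hi])
  obtain rfl : b' = i b := Y.inj (by rw [← hb, hi])
  have h3 : ∀ c, j (i c) = c := fun c => X.inj (by rw [hj, hi])
  have h4 : dist (i a) (i b) = dist a b := by
    have := h2 (i a) (i b)
    rw [h3, h3] at this
    linarith [h1 a b]
  have h5 := dist_sq (i a) (i b)
  rw [h4, dist_sq, X.ip_self, X.ip_self, Y.ip_self, Y.ip_self, hi, hi] at h5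
  linarith

/-- The graph cone theorem in the form used here. -/
def KerStmt : Prop :=
  ∀ (V : Type) [Fintype V] [DecidableEq V] (G : SimpleGraph V) (A : Set V),
    (∀ a b, G.Adj a b → a ∈ A) → Girth8 G → ∀ θ : ℝ, π / 4 ≤ θ → θ < π →
    ∃ ip : (V → ℝ) → (V → ℝ) → ℝ,
      (∀ z w, ip z w = ip w z) ∧ (∀ w, ip 0 w = 0) ∧
      (∀ l, 0 ≤ l → ∀ z w, ip (l • z) w = l * ip z w) ∧
      (∀ z w, InCone G A z → InCone G A w → 2 * ip z w ≤ ip z z + ip w w) ∧
      (∀ z w, InCone G A z → InCone G A w → ip z z + ip w w ≤ 2 * ip z w → z = w) ∧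
      (∀ a b, InCone G A a → InCone G A b → ∃ p, InCone G A p ∧
        (∀ x, InCone G A x → ip x a + ip x b ≤ ip x p) ∧
        ip p p = ip a a + ip b b + 2 * ip a b) ∧
      (∀ z w, InCone G A z → InCone G A w → InCone G A (z + w) → ip z w = Bf G (cos θ) z w) ∧
      (∀ a ∈ A, ∀ b ∈ A, a ≠ b → ¬ G.Adj a b → (∀ m, G.Adj a m → ¬ G.Adj m b) →
        (∀ m n, G.Adj a m → G.Adj m n → ¬ G.Adj n b) →
        ip (Pi.single a 1) (Pi.single b 1) = -1)

variable {V S : Type}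

/-- The subgraph induced on `A`, on the same vertex type. -/
def ind (K : SimpleGraph V) (A : Set V) : SimpleGraph V where
  Adj a b := a ∈ A ∧ b ∈ A ∧ K.Adj a b
  symm := ⟨fun _ _ h => ⟨h.2.1, h.1, h.2.2.symm⟩⟩
  loopless := ⟨fun _ h => h.2.2.ne rfl⟩

variable [Fintype V] [Fintype S] [DecidableEq V] [DecidableEq S] {K : SimpleGraph V}

lemma base_of (hK : KerStmt) {T : SimpleGraph (V ⊕ S)}
    (t1 : ∀ x y, T.Adj (inl x) (inl y) ↔ K.Adj x y) (A : Set V) (hA : Girth8 (ind K A)) {θ : ℝ}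
    (h4 : π / 4 ≤ θ) (hπ : θ < π) :
    ∃ (C : Type) (_ : ConeAlg C) (X : Cells T (inl '' A) (gram (cos θ)) C),
      ∀ a ∈ A, ∀ b ∈ A, a ≠ b → ¬ K.Adj a b → (∀ m ∈ A, K.Adj a m → ¬ K.Adj m b) →
        (∀ m ∈ A, ∀ n ∈ A, K.Adj a m → K.Adj m n → ¬ K.Adj n b) →
        ∃ u w : C, X.co u = Pi.single (inl a) 1 ∧ X.co w = Pi.single (inl b) 1 ∧ ip u w = -1 := by
  obtain ⟨k, k1, k2, k3, k4, k5, k6, k7, k8⟩ := hK V (ind K A) A (fun a b h => h.1) hA θ h4 hπ
  choose p p1 p2 p3 using k6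
  have hsm : ∀ (l : ℝ) (z : V → ℝ), InCone (ind K A) A z → InCone (ind K A) A (max l 0 • z) :=
    fun l z hz => ⟨fun v => mul_nonneg (le_max_right _ _) (hz.1 v),
      fun v h => hz.2.1 v (right_ne_zero_of_mul h),
      fun a b ha hb => hz.2.2 a b (right_ne_zero_of_mul ha) (right_ne_zero_of_mul hb)⟩
  let C := {z : V → ℝ // InCone (ind K A) A z}
  letI : ConeAlg C := ofKernel ⟨0, fun _ => le_rfl, fun _ h => absurd rfl h,
      fun _ _ h => absurd rfl h⟩ (fun l z => ⟨max l 0 • z.1, hsm l _ z.2⟩)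
    (fun a b => ⟨p a.1 b.1 a.2 b.2, p1 _ _ _ _⟩) (fun a b => k a.1 b.1) (fun a b => k1 _ _)
    (fun a => k2 _) (fun {l} hl a b => by
      show k (max l 0 • a.1) b.1 = _
      rw [max_eq_left hl, k3 l hl]) (fun a b => k4 _ _ a.2 b.2)
    (fun a b h => Subtype.ext (k5 _ _ a.2 b.2 h)) (fun x a b => p2 _ _ a.2 b.2 _ x.2)
    fun a b => p3 _ _ a.2 b.2
  have back : ∀ z ∈ cone T, (∀ x, z (inl x) ≠ 0 → x ∈ A) →
      InCone (ind K A) A fun x => z (inl x) := fun z hz h =>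
    ⟨fun v => hz.1 _, h, fun a b ha hb hab => ⟨h a ha, h b hb,
      (t1 a b).1 (hz.2 _ _ (fun e => hab (inl_injective e)) ha hb)⟩⟩
  refine ⟨C, inferInstance, ⟨fun z => Sum.elim z.1 0, fun a b h => ?_, fun a => ⟨?_, ?_⟩, ?_,
    fun z hz h => ?_, fun {l} hl a => ?_, fun a b h => ?_⟩, fun a ha b hb h1 h2 h3 h4 => ?_⟩
  · exact Subtype.ext (funext fun x => congrFun h (inl x))
  · rintro (x | s)
    exacts [a.2.1 x, le_rfl]
  · rintro (x | s) (y | t) h h1 h2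
    exacts [(t1 x y).2 (a.2.2.2 x y h1 h2 fun e => h (by rw [e])).2.2, absurd rfl h2,
      absurd rfl h1, absurd rfl h1]
  · rintro a (x | s) h
    exacts [⟨x, a.2.2.1 x h, rfl⟩, absurd rfl h]
  · refine ⟨⟨_, back z hz fun x hx => ?_⟩, ?_⟩
    · obtain ⟨y, hy, e⟩ := h _ hx
      exact inl_injective e ▸ hy
    · funext w
      rcases w with x | s
      · rfl
      · by_contra e
        obtain ⟨y, -, e'⟩ := h (inr s) fun e'' => e e''.symm
        exact inl_ne_inr e'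
  · funext w
    rcases w with x | s
    · show (max l 0 • a.1) x = _
      rw [max_eq_left hl]
      rfl
    · simp
  · have hs : ∀ x, (a.1 + b.1) x ≠ 0 → x ∈ A := fun x hx => by
      by_cases e : a.1 x = 0
      · exact b.2.2.1 x fun e' => hx (by simp [e, e'])
      · exact a.2.2.1 x e
    have hc : InCone (ind K A) A (a.1 + b.1) := back _ h hs
    show k a.1 b.1 = _
    rw [k7 _ _ a.2 b.2 hc]
    simp only [Bf, bf, Fintype.sum_sum_type, Sum.elim_inl, Sum.elim_inr, Pi.zero_apply, zero_mul,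
      mul_zero, Finset.sum_const_zero, add_zero, gram]
    refine Finset.sum_congr rfl fun x _ => Finset.sum_congr rfl fun y _ => ?_
    by_cases e : x = y
    · simp [e]
    by_cases ea : a.1 x = 0
    · simp [ea]
    by_cases eb : b.1 y = 0
    · simp [eb]
    have := hc.2.2 x y (add_ne_left a.2.1 b.2.1 ea) (add_ne_right a.2.1 b.2.1 eb) e
    simp only [e, this, if_true, if_false]
    ring
  · have one : ∀ c ∈ A, InCone (ind K A) A (Pi.single c 1) := fun c hc =>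
      ⟨fun v => by rw [Pi.single_apply]; split_ifs <;> norm_num,
        fun v h => (not_not.1 fun e => h (Pi.single_eq_of_ne e 1) : v = c) ▸ hc,
        fun v v' h h' e => absurd ((not_not.1 fun e => h (Pi.single_eq_of_ne e 1) : v = c).trans
          (not_not.1 fun e => h' (Pi.single_eq_of_ne e 1) : v' = c).symm) e⟩
    have co : ∀ c : V, Sum.elim (Pi.single c (1 : ℝ)) 0 = (Pi.single (inl c) 1 : V ⊕ S → ℝ) :=
      fun c => by
        funext w
        rcases w with x | s <;> simp [Pi.single_apply]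
    exact ⟨⟨_, one a ha⟩, ⟨_, one b hb⟩, co a, co b, k8 a ha b hb h1 (fun h => h2 h.2.2)
      (fun m h h' => h3 m h.2.1 h.2.2 h'.2.2)
      fun m n h h' h'' => h4 m h.2.1 n h'.2.1 h.2.2 h'.2.2 h''.2.2⟩

theorem link_cone_gen (hG : GlueStmt) (hK : KerStmt) (P : Sphere K S) (U : Set (V ⊕ S))
    (hU : Girth8 (ind K {x | inl x ∈ U})) {θ : ℝ} (h4 : π / 4 ≤ θ) (hπ : θ < π) :
    ∃ (C : Type) (_ : ConeAlg C) (X : Cells P.T U (gram (cos θ)) C),
      ∀ (a b : V) (u w : C), X.co u = Pi.single (inl a) 1 → X.co w = Pi.single (inl b) 1 →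
        a ≠ b → ¬ K.Adj a b → (∀ m, inl m ∈ U → K.Adj a m → ¬ K.Adj m b) →
        (∀ m n, inl m ∈ U → inl n ∈ U → K.Adj a m → K.Adj m n → ¬ K.Adj n b) → ip u w = -1 := by
  obtain ⟨C0, _, X0, h0⟩ := base_of hK P.t1 _ hU h4 hπ
  have hU0 : ∀ w, w ∈ (inl '' {x | inl x ∈ U} : Set (V ⊕ S)) ↔ w ∈ U ∧ ∃ x, w = inl x := by
    intro w
    constructor
    · rintro ⟨x, hx, rfl⟩
      exact ⟨hx, x, rfl⟩
    · rintro ⟨hx, x, rfl⟩
      exact ⟨x, hx, rfl⟩
  obtain ⟨C, _, ⟨X⟩⟩ := link_cone_of hG (nest_of_sphere P) (orth_gram _) X0 hU0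
  refine ⟨C, inferInstance, X, fun a b u w hu hw h1 h2 h3 h4 => ?_⟩
  obtain ⟨u0, w0, e1, e2, e⟩ := h0 a (X.supp u _ (by simp [hu])) b (X.supp w _ (by simp [hw])) h1 h2
    h3 fun m hm n hn => h4 m n hm hn
  rw [← e]
  exact ip_incl (orth_gram _) X X0 hU0 (hu.trans e1.symm) (hw.trans e2.symm)

omit [Fintype V] [Fintype S] [DecidableEq V] [DecidableEq S] in
/-- Induced subgraphs of the links of `kG` have girth at least eight. -/
lemma girth_kG {x : KV} {A : Set KV} (hA : ∀ y ∈ A, kG.Adj x y) : Girth8 (ind kG A) := by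
  refine ⟨⟨fun y => decide (y.1 = x.1 + 1), fun a b h => ?_⟩, fun a b c d h1 h2 h3 h4 =>
    k1_four (hA _ h1.1) (hA _ h2.1) (hA _ h3.1) (hA _ h4.1) h1.2.2 h2.2.2 h3.2.2 h4.2.2,
    fun a b c d e f h1 h2 h3 h4 h5 h6 => ?_⟩
  · have key : ∀ i j k : ZMod 3, i ≠ j → i ≠ k → j ≠ k →
        decide (j = i + 1) ≠ decide (k = i + 1) := by decide
    exact key _ _ _ (kG_col (hA _ h.1)) (kG_col (hA _ h.2.1)) (kG_col h.2.2)
  · have := k1_six (hA _ h1.1) (hA _ h2.1) (hA _ h3.1) (hA _ h4.1) (hA _ h5.1) (hA _ h6.1)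
      h1.2.2 h2.2.2 h3.2.2 h4.2.2 h5.2.2 h6.2.2
    tauto

omit [Fintype V] [DecidableEq V] in
/-- The link cone of a set `s0` of vertices that contains a vertex `x` of `kG`. -/
theorem link_cone_kG_of (hG : GlueStmt) (hK : KerStmt) (P : Sphere kG S) (s0 : Finset (KV ⊕ S))
    {x : KV} (hx : inl x ∈ s0) {θ : ℝ} (h4 : π / 4 ≤ θ) (hπ : θ < π) :
    ∃ (C : Type) (_ : ConeAlg C) (X : Cells P.T {w | ∀ s ∈ s0, P.T.Adj s w} (gram (cos θ)) C),
      ∀ (a b : KV) (u w : C), X.co u = Pi.single (inl a) 1 → X.co w = Pi.single (inl b) 1 →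
        a ≠ b → a.1 = b.1 → (∀ m, kG.Adj x m → kG.Adj a m → kG.Adj b m → False) →
        ip u w = -1 := by
  have hA : ∀ y, inl y ∈ {w | ∀ s ∈ s0, P.T.Adj s w} → kG.Adj x y := fun y hy =>
    (P.t1 x y).1 (hy _ hx)
  obtain ⟨C, _, X, h⟩ := link_cone_gen hG hK P {w | ∀ s ∈ s0, P.T.Adj s w} (girth_kG hA) h4 hπ
  refine ⟨C, inferInstance, X, fun a b u w hu hw h1 h2 h3 => h a b u w hu hw h1
    (fun e => kG_col e h2) (fun m hm e e' => h3 m (hA m hm) e e'.symm)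
    fun m n hm hn e1 e2 e3 => kG_col e3 ?_⟩
  rw [← h2]
  exact (k_col_two (hA a (X.supp u _ (by simp [hu]))) (hA m hm) (hA n hn) e1 e2).symm

end Pool.Agent.Lib.MP_c2693b_gt.Lk
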