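import Pool.Agent.Lib.MP_c2693b_gt.Cone
import Pool.Agent.Lib.MP_c2693b_gt.TriDefs

/-! Cone algebras that are Euclidean on the cells of the cone over a clique complex. -/

namespace Pool.Agent.Lib.MP_c2693b_gt.Lk

open Set ConeAlg Tri

variable {W : Type} [Fintype W]

/-- The bilinear form with Gram matrix `g`. -/
def bf (g : W → W → ℝ) (z y : W → ℝ) : ℝ := ∑ w, ∑ w', z w * y w' * g w w'

/-- The cone algebra `C` is the cone over the cliques of `T` inside `U`, and on every cell the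
kernel is the bilinear form with Gram matrix `g`. -/
structure Cells (T : SimpleGraph W) (U : Set W) (g : W → W → ℝ) (C : Type) [ConeAlg C] where
  co : C → W → ℝ
  inj : Function.Injective co
  mem : ∀ a, co a ∈ cone T
  supp : ∀ a w, co a w ≠ 0 → w ∈ U
  surj : ∀ z ∈ cone T, (∀ w, z w ≠ 0 → w ∈ U) → ∃ a, co a = z
  co_sm : ∀ {l : ℝ}, 0 ≤ l → ∀ a, co (sm l a) = l • co a
  ip_cell : ∀ a b, co a + co b ∈ cone T → ip a b = bf g (co a) (co b)

variable {g : W → W → ℝ}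

lemma bf_add_left (z z' y : W → ℝ) : bf g (z + z') y = bf g z y + bf g z' y := by
  simp only [bf, Pi.add_apply, add_mul, Finset.sum_add_distrib]

lemma bf_add_right (z y y' : W → ℝ) : bf g z (y + y') = bf g z y + bf g z y' := by
  simp only [bf, Pi.add_apply, add_mul, mul_add, Finset.sum_add_distrib]

lemma bf_sub_left (z z' y : W → ℝ) : bf g (z - z') y = bf g z y - bf g z' y := by
  simp only [bf, Pi.sub_apply, sub_mul, Finset.sum_sub_distrib]

lemma bf_sub_right (z y y' : W → ℝ) : bf g z (y - y') = bf g z y - bf g z y' := by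
  simp only [bf, Pi.sub_apply, sub_mul, mul_sub, Finset.sum_sub_distrib]

lemma bf_smul_left (l : ℝ) (z y : W → ℝ) : bf g (l • z) y = l * bf g z y := by
  simp only [bf, Pi.smul_apply, smul_eq_mul, Finset.mul_sum, mul_assoc]

lemma bf_smul_right (l : ℝ) (z y : W → ℝ) : bf g z (l • y) = l * bf g z y := by
  simp only [bf, Pi.smul_apply, smul_eq_mul, Finset.mul_sum]
  exact Finset.sum_congr rfl fun _ _ => Finset.sum_congr rfl fun _ _ => by ring

lemma continuous_bf : Continuous fun z : W → ℝ => bf g z z := by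
  unfold bf
  fun_prop

lemma bf_le (g : W → W → ℝ) : ∃ L : ℝ, 0 < L ∧ ∀ z : W → ℝ, bf g z z ≤ (L * ‖z‖) ^ 2 := by
  have h0 : 0 ≤ ∑ w, ∑ w', |g w w'| := by positivity
  refine ⟨√(∑ w, ∑ w', |g w w'|) + 1, by positivity, fun z => ?_⟩
  have h1 : bf g z z ≤ (∑ w, ∑ w', |g w w'|) * ‖z‖ ^ 2 := by
    simp only [bf, Finset.sum_mul]
    refine Finset.sum_le_sum fun w _ => Finset.sum_le_sum fun w' _ => (le_abs_self _).trans ?_
    have a1 : |z w| ≤ ‖z‖ := norm_le_pi_norm z w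
    have a2 : |z w'| ≤ ‖z‖ := norm_le_pi_norm z w'
    rw [abs_mul, abs_mul, mul_comm, sq]
    gcongr
  refine h1.trans ?_
  rw [mul_pow]
  refine mul_le_mul_of_nonneg_right ?_ (sq_nonneg _)
  nlinarith [Real.sq_sqrt h0, Real.sqrt_nonneg (∑ w, ∑ w', |g w w'|)]

omit [Fintype W] in
lemma cone_mono {T : SimpleGraph W} {z y : W → ℝ} (hz : z ∈ cone T) (h0 : ∀ w, 0 ≤ y w)
    (h : ∀ w, y w ≠ 0 → z w ≠ 0) : y ∈ cone T :=
  ⟨h0, fun w w' hw a b => hz.2 w w' hw (h w a) (h w' b)⟩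

omit [Fintype W] in
lemma cone_of_clique {T : SimpleGraph W} {τ : Set W} (hτ : T.IsClique τ) {z : W → ℝ}
    (h0 : ∀ w, 0 ≤ z w) (h : ∀ w, z w ≠ 0 → w ∈ τ) : z ∈ cone T :=
  ⟨h0, fun w w' hw a b => hτ (h w a) (h w' b) hw⟩

omit [Fintype W] in
lemma clique_of_cone {T : SimpleGraph W} {z : W → ℝ} (hz : z ∈ cone T) :
    T.IsClique {w | z w ≠ 0} := fun w a w' b hw => hz.2 w w' hw a b

omit [Fintype W] in
lemma add_mem_cone {T : SimpleGraph W} {τ : Set W} (hτ : T.IsClique τ) {z y : W → ℝ}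
    (z0 : ∀ w, 0 ≤ z w) (y0 : ∀ w, 0 ≤ y w) (hz : ∀ w, z w ≠ 0 → w ∈ τ)
    (hy : ∀ w, y w ≠ 0 → w ∈ τ) : z + y ∈ cone T := by
  refine cone_of_clique hτ (fun w => add_nonneg (z0 w) (y0 w)) fun w hw => ?_
  by_cases h : z w = 0
  · exact hy w fun h' => hw (by simp [h, h'])
  · exact hz w h

omit [Fintype W] in
lemma add_ne_left {z y : W → ℝ} (z0 : ∀ w, 0 ≤ z w) (y0 : ∀ w, 0 ≤ y w) {w : W} (h : z w ≠ 0) :
    (z + y) w ≠ 0 := (add_pos_of_pos_of_nonneg (lt_of_le_of_ne (z0 w) h.symm) (y0 w)).ne'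

omit [Fintype W] in
lemma add_ne_right {z y : W → ℝ} (z0 : ∀ w, 0 ≤ z w) (y0 : ∀ w, 0 ≤ y w) {w : W} (h : y w ≠ 0) :
    (z + y) w ≠ 0 := (add_pos_of_nonneg_of_pos (z0 w) (lt_of_le_of_ne (y0 w) h.symm)).ne'

lemma dist_geo {C : Type*} [ConeAlg C] (a b : C) {s t : ℝ} (hs : s ∈ Icc (0 : ℝ) 1)
    (ht : t ∈ Icc (0 : ℝ) 1) : dist (geo a b s) (geo a b t) ≤ |s - t| * dist a b := by
  have h1 := cn (geo a b s) a b ht
  have h2 := cn a a b hs
  have h3 := cn b a b hs
  rw [dist_self, dist_comm a (geo a b s)] at h2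
  rw [dist_self, dist_comm b (geo a b s), dist_comm b a] at h3
  refine (sq_le_sq₀ dist_nonneg (by positivity)).1 (h1.trans ?_)
  rw [mul_pow, sq_abs]
  nlinarith [mul_le_mul_of_nonneg_left h2 (sub_nonneg.2 ht.2), mul_le_mul_of_nonneg_left h3 ht.1]

/-- A point with the distances of a point of the geodesic is that point. -/
lemma eq_geo {C : Type*} [ConeAlg C] {a b m : C} {t : ℝ} (ht : t ∈ Icc (0 : ℝ) 1)
    (h1 : dist m a ≤ t * dist a b) (h2 : dist m b ≤ (1 - t) * dist a b) : m = geo a b t := by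
  have h := cn m a b ht
  have a1 := pow_le_pow_left₀ dist_nonneg h1 2
  have a2 := pow_le_pow_left₀ dist_nonneg h2 2
  refine dist_eq_zero.1 (pow_eq_zero_iff two_ne_zero |>.1 (le_antisymm (h.trans ?_) (sq_nonneg _)))
  nlinarith [mul_le_mul_of_nonneg_left a1 (sub_nonneg.2 ht.2), mul_le_mul_of_nonneg_left a2 ht.1]

namespace Cells

variable {T : SimpleGraph W} {U : Set W} {C : Type} [ConeAlg C] (X : Cells T U g C)

lemma nonneg (a : C) (w : W) : 0 ≤ X.co a w := (X.mem a).1 w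

lemma co_o : X.co o = 0 := by
  rw [← sm_zero (o : C), X.co_sm le_rfl, zero_smul]

lemma self_cell (a : C) : X.co a + X.co a ∈ cone T :=
  add_mem_cone (clique_of_cone (X.mem a)) (X.nonneg a) (X.nonneg a) (fun _ h => h) fun _ h => h

lemma ip_self (a : C) : ip a a = bf g (X.co a) (X.co a) := X.ip_cell a a (X.self_cell a)

lemma dist_cell {a b : C} (h : X.co a + X.co b ∈ cone T) :
    dist a b ^ 2 = bf g (X.co a - X.co b) (X.co a - X.co b) := by
  have h1 := X.ip_cell a b h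
  have h2 := X.ip_cell b a (by rwa [add_comm])
  rw [ip_comm] at h2
  rw [dist_sq, bf_sub_left, bf_sub_right, bf_sub_right, X.ip_self, X.ip_self]
  linarith

lemma co_ad {a b : C} (h : X.co a + X.co b ∈ cone T) : X.co (ad a b) = X.co a + X.co b := by
  obtain ⟨c, hc⟩ := X.surj _ h fun w hw => by
    by_cases h' : X.co a w = 0
    · exact X.supp b w fun h'' => hw (by simp [h', h''])
    · exact X.supp a w h'
  have k := clique_of_cone h
  have h0 := h.1
  have ha : X.co c + X.co a ∈ cone T := add_mem_cone k (X.nonneg c) (X.nonneg a)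
    (fun w hw => by rwa [hc] at hw) fun w hw => add_ne_left (X.nonneg a) (X.nonneg b) hw
  have hb : X.co c + X.co b ∈ cone T := add_mem_cone k (X.nonneg c) (X.nonneg b)
    (fun w hw => by rwa [hc] at hw) fun w hw => add_ne_right (X.nonneg a) (X.nonneg b) hw
  have h1 := ip_ad c a b
  have h2 := X.ip_cell b a (by rwa [add_comm])
  have h3 := X.ip_cell a b h
  have h4 := ip_comm a b
  rw [← hc]
  congr 1
  refine (eq_of_ip ?_).symm
  rw [X.ip_cell c a ha, X.ip_cell c b hb, hc] at h1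
  rw [ad_sq, X.ip_self c, X.ip_self a, X.ip_self b, hc]
  simp only [bf_add_left, bf_add_right] at h1 ⊢
  linarith

/-- The cell of a clique. -/
def cell (τ : Set W) : Set C := {a | ∀ w, X.co a w ≠ 0 → w ∈ τ}

lemma cell_add {τ : Set W} (hτ : T.IsClique τ) {a b : C} (ha : a ∈ X.cell τ) (hb : b ∈ X.cell τ) :
    X.co a + X.co b ∈ cone T := add_mem_cone hτ (X.nonneg a) (X.nonneg b) ha hb

lemma sm_mem_cell {τ : Set W} {l : ℝ} (hl : 0 ≤ l) {a : C} (ha : a ∈ X.cell τ) :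
    sm l a ∈ X.cell τ := fun w hw => ha w fun h => hw (by rw [X.co_sm hl]; simp [h])

lemma ad_mem_cell {τ : Set W} (hτ : T.IsClique τ) {a b : C} (ha : a ∈ X.cell τ)
    (hb : b ∈ X.cell τ) : ad a b ∈ X.cell τ := fun w hw => by
  rw [X.co_ad (X.cell_add hτ ha hb)] at hw
  by_cases h' : X.co a w = 0
  · exact hb w fun h'' => hw (by simp [h', h''])
  · exact ha w h'

lemma o_mem_cell (τ : Set W) : o ∈ X.cell τ := fun w hw => absurd (by rw [X.co_o]; rfl) hw

include X in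
lemma bf_pos {τ : Set W} (hτ : T.IsClique τ) (hU : τ ⊆ U) {z : W → ℝ} (hz : ∀ w, z w ≠ 0 → w ∈ τ)
    (h0 : z ≠ 0) : 0 < bf g z z := by
  have p1 : ∀ w, max (z w) 0 ≠ 0 → w ∈ τ := fun w hw => hz w fun h => hw (by simp [h])
  have p2 : ∀ w, max (-z w) 0 ≠ 0 → w ∈ τ := fun w hw => hz w fun h => hw (by simp [h])
  obtain ⟨a, ha⟩ := X.surj (fun w => max (z w) 0)
    (cone_of_clique hτ (fun w => le_max_right _ _) p1) fun w hw => hU (p1 w hw)
  obtain ⟨b, hb⟩ := X.surj (fun w => max (-z w) 0)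
    (cone_of_clique hτ (fun w => le_max_right _ _) p2) fun w hw => hU (p2 w hw)
  have e : X.co a - X.co b = z := by
    rw [ha, hb]
    funext w
    exact max_zero_sub_max_neg_zero_eq_self (z w)
  have hc : X.co a + X.co b ∈ cone T :=
    X.cell_add hτ (fun w hw => p1 w (by rwa [ha] at hw)) fun w hw => p2 w (by rwa [hb] at hw)
  rw [← e, ← X.dist_cell hc]
  refine pow_pos (dist_pos.2 fun h => h0 ?_) 2
  rw [← e, h, sub_self]

include X in
lemma le_bf : ∃ c : ℝ, 0 < c ∧ ∀ τ : Set W, T.IsClique τ → τ ⊆ U → ∀ z : W → ℝ,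
    (∀ w, z w ≠ 0 → w ∈ τ) → (c * ‖z‖) ^ 2 ≤ bf g z z := by
  have hcl : ∀ τ : Set W, IsClosed {z : W → ℝ | ∀ w, z w ≠ 0 → w ∈ τ} := fun τ => by
    simp only [ofPred_forall]
    refine isClosed_iInter fun w => ?_
    by_cases h : w ∈ τ
    · simp [h]
    · simp only [h, imp_false, not_not]
      exact isClosed_eq (continuous_apply w) continuous_const
  let K : Set (W → ℝ) := Metric.sphere 0 1 ∩
    ⋃ τ : {τ : Set W // T.IsClique τ ∧ τ ⊆ U}, {z | ∀ w, z w ≠ 0 → w ∈ τ.1}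
  have hK : IsCompact K := (isCompact_sphere 0 1).inter_right
    (isClosed_iUnion_of_finite fun τ => hcl τ.1)
  have hpos : ∀ z ∈ K, 0 < bf g z z := by
    rintro z ⟨h1, h2⟩
    obtain ⟨τ, hτ⟩ := mem_iUnion.1 h2
    refine X.bf_pos τ.2.1 τ.2.2 hτ ?_
    rintro rfl
    simp at h1
  obtain ⟨c, c0, hc⟩ := hK.exists_forall_le' (continuous_bf (g := g)).continuousOn hpos
  refine ⟨√c, Real.sqrt_pos.2 c0, fun τ h1 h2 z hz => ?_⟩
  by_cases h0 : z = 0
  · simp [h0, bf]
  have n0 : 0 < ‖z‖ := norm_pos_iff.2 h0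
  have := hc (‖z‖⁻¹ • z) ⟨by simp [norm_smul, n0.ne'], mem_iUnion.2 ⟨⟨τ, h1, h2⟩, fun w hw =>
    hz w fun h => hw (by simp [h])⟩⟩
  rw [bf_smul_left, bf_smul_right] at this
  rw [mul_pow, Real.sq_sqrt c0.le]
  calc c * ‖z‖ ^ 2 ≤ ‖z‖⁻¹ * (‖z‖⁻¹ * bf g z z) * ‖z‖ ^ 2 := by gcongr
    _ = bf g z z := by field_simp

lemma sub_supp {a b : C} {w : W} (h : (X.co a - X.co b) w ≠ 0) : (X.co a + X.co b) w ≠ 0 := by
  by_cases h' : X.co a w = 0
  · exact add_ne_right (X.nonneg a) (X.nonneg b) fun h'' => h (by simp [h', h''])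
  · exact add_ne_left (X.nonneg a) (X.nonneg b) h'

lemma add_supp {a b : C} : {w | (X.co a + X.co b) w ≠ 0} ⊆ U := fun w hw => by
  by_cases h' : X.co a w = 0
  · exact X.supp b w fun h'' => hw (by simp [h', h''])
  · exact X.supp a w h'

lemma lip_cell : ∃ c L : ℝ, 0 < c ∧ 0 < L ∧ ∀ a b : C, X.co a + X.co b ∈ cone T →
    c * ‖X.co a - X.co b‖ ≤ dist a b ∧ dist a b ≤ L * ‖X.co a - X.co b‖ := by
  obtain ⟨c, c0, hc⟩ := X.le_bf
  obtain ⟨L, L0, hL⟩ := bf_le g
  refine ⟨c, L, c0, L0, fun a b h => ⟨?_, ?_⟩⟩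
  · refine (sq_le_sq₀ (by positivity) dist_nonneg).1 ?_
    rw [X.dist_cell h]
    exact hc _ (clique_of_cone h) X.add_supp _ fun w hw => X.sub_supp hw
  · refine (sq_le_sq₀ dist_nonneg (by positivity)).1 ?_
    rw [X.dist_cell h]
    exact hL _

/-- The inverse of the coordinate map is Lipschitz. -/
lemma dist_le_co : ∃ L : ℝ, 0 < L ∧ ∀ a b : C, dist a b ≤ L * ‖X.co a - X.co b‖ := by
  obtain ⟨c, L, -, L0, h⟩ := X.lip_cell
  refine ⟨2 * L, by positivity, fun a b => ?_⟩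
  have m0 : ∀ w, 0 ≤ min (X.co a w) (X.co b w) := fun w => le_min (X.nonneg a w) (X.nonneg b w)
  have ma : ∀ w, min (X.co a w) (X.co b w) ≠ 0 → X.co a w ≠ 0 := fun w hw h =>
    hw (by rw [h]; exact min_eq_left (X.nonneg b w))
  have mb : ∀ w, min (X.co a w) (X.co b w) ≠ 0 → X.co b w ≠ 0 := fun w hw h =>
    hw (by rw [h]; exact min_eq_right (X.nonneg a w))
  obtain ⟨m, hm⟩ := X.surj (fun w => min (X.co a w) (X.co b w)) (cone_mono (X.mem a) m0 ma)
    fun w hw => X.supp a w (ma w hw)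
  have h1 := (h a m (X.cell_add (clique_of_cone (X.mem a)) (fun _ h => h)
    fun w hw => ma w (by rwa [hm] at hw))).2
  have h2 := (h m b (X.cell_add (clique_of_cone (X.mem b))
    (fun w hw => mb w (by rwa [hm] at hw)) fun _ h => h)).2
  have n : ∀ w, |X.co a w - X.co b w| ≤ ‖X.co a - X.co b‖ := fun w =>
    norm_le_pi_norm (X.co a - X.co b) w
  have h3 : ‖X.co a - X.co m‖ ≤ ‖X.co a - X.co b‖ := by
    refine (pi_norm_le_iff_of_nonneg (norm_nonneg _)).2 fun w => le_trans ?_ (n w)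
    rw [hm, Real.norm_eq_abs, Pi.sub_apply]
    rcases le_total (X.co a w) (X.co b w) with k | k
    · simp [min_eq_left k]
    · simp [min_eq_right k]
  have h4 : ‖X.co m - X.co b‖ ≤ ‖X.co a - X.co b‖ := by
    refine (pi_norm_le_iff_of_nonneg (norm_nonneg _)).2 fun w => le_trans ?_ (n w)
    rw [hm, Real.norm_eq_abs, Pi.sub_apply]
    rcases le_total (X.co a w) (X.co b w) with k | k
    · simp [min_eq_left k]
    · simp [min_eq_right k]
  nlinarith [dist_triangle a m b, mul_le_mul_of_nonneg_left h3 L0.le,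
    mul_le_mul_of_nonneg_left h4 L0.le]

lemma isCompact_cell {τ : Set W} (hτ : T.IsClique τ) (R : ℝ) :
    IsCompact (X.cell τ ∩ {a | ‖X.co a‖ ≤ R}) := by
  obtain ⟨L, L0, hL⟩ := X.dist_le_co
  let K : Set (W → ℝ) := Metric.closedBall 0 R ∩
    ({z | ∀ w, 0 ≤ z w} ∩ {z | ∀ w, w ∉ τ ∩ U → z w = 0})
  have hK : IsCompact K := by
    refine (isCompact_closedBall 0 R).inter_right (IsClosed.inter ?_ ?_)
    · simp only [ofPred_forall]
      exact isClosed_iInter fun w => isClosed_le continuous_const (continuous_apply w)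
    · simp only [ofPred_forall]
      exact isClosed_iInter fun w => isClosed_iInter fun _ =>
        isClosed_eq (continuous_apply w) continuous_const
  have hs : ∀ z : K, ∃ a, X.co a = z := fun z =>
    X.surj z (cone_of_clique hτ z.2.2.1 fun w hw => (not_not.1 fun h => hw (z.2.2.2 w h)).1)
      fun w hw => (not_not.1 fun h => hw (z.2.2.2 w h)).2
  choose f hf using hs
  have hc : Continuous f := by
    refine (LipschitzWith.of_dist_le_mul (K := ⟨L, L0.le⟩) fun z y => ?_).continuous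
    have := hL (f z) (f y)
    rwa [hf, hf, ← dist_eq_norm] at this
  have : CompactSpace K := isCompact_iff_compactSpace.1 hK
  convert isCompact_range hc
  ext a
  constructor
  · rintro ⟨h1, h2⟩
    refine ⟨⟨X.co a, by simpa using h2, X.nonneg a, fun w hw => not_not.1 fun h =>
      hw ⟨h1 w h, X.supp a w h⟩⟩, X.inj (hf _)⟩
  · rintro ⟨z, rfl⟩
    refine ⟨fun w hw => ?_, ?_⟩
    · rw [hf] at hw
      exact (not_not.1 fun h => hw (z.2.2.2 w h)).1
    · show ‖X.co (f z)‖ ≤ R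
      rw [hf]
      simpa using z.2.1

lemma norm_co_le : ∃ c : ℝ, 0 < c ∧ ∀ a : C, c * ‖X.co a‖ ≤ nm a := by
  obtain ⟨c, L, c0, -, h⟩ := X.lip_cell
  refine ⟨c, c0, fun a => ?_⟩
  have := (h a o (by rw [X.co_o, add_zero]; exact X.mem a)).1
  rwa [X.co_o, sub_zero] at this

lemma isClosed_cell {τ : Set W} (hτ : T.IsClique τ) : IsClosed (X.cell τ) := by
  obtain ⟨c, c0, hc⟩ := X.norm_co_le
  refine isClosed_of_closure_subset fun a ha => ?_
  have h1 : a ∈ closure (X.cell τ ∩ {b | ‖X.co b‖ ≤ (nm a + 1) / c}) := by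
    have hO : IsOpen {b : C | nm b < nm a + 1} := isOpen_lt continuous_nm continuous_const
    refine closure_mono ?_ (hO.closure_inter ⟨ha, by simp⟩)
    rintro b ⟨b1, b2⟩
    refine ⟨b1, (le_div_iff₀ c0).2 ?_⟩
    have : nm b < nm a + 1 := b2
    linarith [hc b]
  exact ((X.isCompact_cell hτ _).isClosed.closure_subset h1).1

include X in
lemma proper : ProperSpace C := by
  obtain ⟨c, c0, hc⟩ := X.norm_co_le
  refine ⟨fun x r => ?_⟩
  refine (isCompact_iUnion fun τ : {τ : Set W // T.IsClique τ} =>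
    X.isCompact_cell τ.2 ((r + nm x) / c)).of_isClosed_subset Metric.isClosed_closedBall
      fun a ha => mem_iUnion.2 ⟨⟨_, clique_of_cone (X.mem a)⟩, fun _ h => h, ?_⟩
  refine (le_div_iff₀ c0).2 ?_
  have h1 : dist a x ≤ r := ha
  have h2 : nm a ≤ dist a x + nm x := dist_triangle a x o
  linarith [hc a]

/-- Chain lemma on a convex set `A`. -/
lemma chain_on {Y : Type*} [PseudoMetricSpace Y] (f : C → Y) {K : ℝ} (hK : 0 ≤ K) {A : Set C}
    (hA : IsClosed A) (hf : ∀ a ∈ A, ∀ b ∈ A, X.co a + X.co b ∈ cone T →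
      dist (f a) (f b) ≤ K * dist a b) {a b : C} (hab : ∀ t ∈ Icc (0 : ℝ) 1, geo a b t ∈ A) :
    dist (f a) (f b) ≤ K * dist a b := by
  have := chain_path (fun τ : {τ : Set W // T.IsClique τ} => X.cell τ.1 ∩ A)
    (fun τ => (X.isClosed_cell τ.2).inter hA) f hK
    (fun τ x hx y hy => hf x hx.2 y hy.2 (X.cell_add τ.2 hx.1 hy.1)) (geo a b)
    (fun s hs t ht => dist_geo a b hs ht)
    fun t ht => ⟨⟨_, clique_of_cone (X.mem _)⟩, fun _ h => h, hab t ht⟩
  simpa using this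

/-- Chain lemma. -/
lemma chain {Y : Type*} [PseudoMetricSpace Y] (f : C → Y) {K : ℝ} (hK : 0 ≤ K)
    (hf : ∀ a b, X.co a + X.co b ∈ cone T → dist (f a) (f b) ≤ K * dist a b) (a b : C) :
    dist (f a) (f b) ≤ K * dist a b :=
  X.chain_on f hK isClosed_univ (fun a _ b _ => hf a b) fun _ _ => mem_univ _

/-- The coordinate map is Lipschitz. -/
lemma co_le_dist : ∃ L : ℝ, 0 < L ∧ ∀ a b : C, ‖X.co a - X.co b‖ ≤ L * dist a b := by
  obtain ⟨c, L, c0, -, h⟩ := X.lip_cell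
  refine ⟨c⁻¹, by positivity, fun a b => ?_⟩
  rw [← dist_eq_norm]
  refine X.chain X.co (by positivity) (fun a b hab => ?_) a b
  rw [dist_eq_norm, inv_mul_eq_div, le_div_iff₀ c0, mul_comm]
  exact (h a b hab).1

lemma continuous_co : Continuous X.co := by
  obtain ⟨L, L0, hL⟩ := X.co_le_dist
  refine (LipschitzWith.of_dist_le_mul (K := ⟨L, L0.le⟩) fun a b => ?_).continuous
  rw [dist_eq_norm]
  exact hL a b

end Cells

/-- Nearest point projection onto a closed convex set. -/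
lemma exists_proj {C : Type*} [ConeAlg C] [ProperSpace C] {A : Set C} (hA : IsClosed A)
    (hne : A.Nonempty) (hc : ∀ a ∈ A, ∀ b ∈ A, ∀ t ∈ Icc (0 : ℝ) 1, geo a b t ∈ A) :
    ∃ p : C → C, (∀ x, p x ∈ A) ∧ (∀ a ∈ A, p a = a) ∧ ∀ x y, dist (p x) (p y) ≤ dist x y := by
  choose p hp hd using fun x => hA.exists_infDist_eq_dist hne x
  have hmin : ∀ x, ∀ q ∈ A, dist x (p x) ≤ dist x q := fun x q hq =>
    hd x ▸ Metric.infDist_le_dist_of_mem hq
  have var : ∀ x, ∀ q ∈ A, dist x (p x) ^ 2 + dist (p x) q ^ 2 ≤ dist x q ^ 2 := by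
    intro x q hq
    have key : ∀ t ∈ Ioo (0 : ℝ) 1,
        dist x (p x) ^ 2 + (1 - t) * dist (p x) q ^ 2 ≤ dist x q ^ 2 := by
      intro t ht
      have ht' : t ∈ Icc (0 : ℝ) 1 := Ioo_subset_Icc_self ht
      have h1 := pow_le_pow_left₀ dist_nonneg (hmin x _ (hc _ (hp x) q hq t ht')) 2
      have h2 := cn x (p x) q ht'
      exact le_of_mul_le_mul_left (by nlinarith) ht.1
    have hcont : Continuous fun t : ℝ => dist x (p x) ^ 2 + (1 - t) * dist (p x) q ^ 2 := by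
      fun_prop
    have := le_of_tendsto ((hcont.tendsto 0).mono_left (nhdsWithin_le_nhds (s := Ioi 0)))
      (Filter.mem_of_superset (Ioo_mem_nhdsGT zero_lt_one) key)
    simpa using this
  refine ⟨p, hp, fun a ha => ?_, fun x y => ?_⟩
  · have := hmin a a ha
    rw [dist_self] at this
    exact (dist_le_zero.1 this).symm
  · have h1 := var x _ (hp y)
    have h2 := var y _ (hp x)
    have h3 := bn_le x y (p x) (p y)
    rw [dist_comm (p y) (p x)] at h2
    have h4 : dist (p x) (p y) * dist (p x) (p y) ≤ dist x y * dist (p x) (p y) := by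
      rw [dist_sq x (p x), dist_sq x (p y)] at h1
      rw [dist_sq y (p y), dist_sq y (p x)] at h2
      nlinarith
    rcases (dist_nonneg (x := p x) (y := p y)).eq_or_lt with h | h
    · rw [← h]
      exact dist_nonneg
    · exact le_of_mul_le_mul_right h4 h

end Pool.Agent.Lib.MP_c2693b_gt.Lk
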