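import Pool.Agent.Lib.MP_c2693b_gt.LkAng
import Pool.Agent.Lib.MP_c2693b_gt.LkStep

/-! Stars: near a point a cell cone is a product of a Euclidean space and the link cone. -/

namespace Pool.Agent.Lib.MP_c2693b_gt.Lk

open Set ConeAlg Tri Sum

variable {W : Type} [Fintype W]

/-- `bf` as a bilinear map. -/
def bfL (g : W → W → ℝ) : LinearMap.BilinForm ℝ (W → ℝ) :=
  LinearMap.mk₂ ℝ (bf g) bf_add_left bf_smul_left bf_add_right bf_smul_right

lemma bfL_apply (g : W → W → ℝ) (z y : W → ℝ) : bfL g z y = bf g z y := rfl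

lemma bf_comm {g : W → W → ℝ} (h : ∀ w w', g w w' = g w' w) (z y : W → ℝ) :
    bf g z y = bf g y z := by
  unfold bf
  rw [Finset.sum_comm]
  exact Finset.sum_congr rfl fun w _ => Finset.sum_congr rfl fun w' _ => by rw [h w' w]; ring

/-- Functions supported in `τ`. -/
def onSet (τ : Set W) : Submodule ℝ (W → ℝ) where
  carrier := {z | ∀ w, w ∉ τ → z w = 0}
  zero_mem' := fun _ _ => rfl
  add_mem' := fun ha hb w hw => by simp [ha w hw, hb w hw]
  smul_mem' := fun l z hz w hw => by simp [hz w hw]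

open Classical in
/-- Restriction to `τ`. -/
noncomputable def res (τ : Set W) : (W → ℝ) →ₗ[ℝ] (W → ℝ) where
  toFun z w := if w ∈ τ then z w else 0
  map_add' z y := by funext w; by_cases h : w ∈ τ <;> simp [h]
  map_smul' l z := by funext w; by_cases h : w ∈ τ <;> simp [h]

omit [Fintype W] in
lemma res_in {τ : Set W} {w : W} (h : w ∈ τ) (z : W → ℝ) : res τ z w = z w := if_pos h

omit [Fintype W] in
lemma res_out {τ : Set W} {w : W} (h : w ∉ τ) (z : W → ℝ) : res τ z w = 0 := if_neg h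

omit [Fintype W] in
lemma res_mem (τ : Set W) (z : W → ℝ) : res τ z ∈ onSet τ := fun _ h => res_out h z

omit [Fintype W] in
lemma res_self {τ : Set W} {z : W → ℝ} (h : z ∈ onSet τ) : res τ z = z := by
  funext w
  by_cases k : w ∈ τ
  · exact res_in k z
  · rw [res_out k, h w k]

omit [Fintype W] in
lemma res_disj {τ σ : Set W} (hd : ∀ w ∈ τ, w ∉ σ) {z : W → ℝ} (h : z ∈ onSet σ) :
    res τ z = 0 := by
  funext w
  by_cases k : w ∈ τ
  · rw [res_in k, h w (hd w k)]; rfl
  · exact res_out k z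

omit [Fintype W] in
lemma res_ne {τ : Set W} {z : W → ℝ} {w : W} (h : res τ z w ≠ 0) : w ∈ τ ∧ z w ≠ 0 := by
  by_cases k : w ∈ τ
  · exact ⟨k, by rwa [res_in k] at h⟩
  · exact absurd (res_out k z) h

variable {T : SimpleGraph W} {U U1 : Set W} {g g1 : W → W → ℝ}

theorem star_of {C C1 : Type} [ConeAlg C] [ConeAlg C1] (X : Cells T U g C) (X1 : Cells T U1 g1 C1)
    {u : C} (hu : u ≠ o) (hU1 : ∀ w, w ∈ U1 ↔ w ∈ U ∧ ∀ s, X.co u s ≠ 0 → T.Adj s w)
    (hsym : ∀ w w', g w w' = g w' w) (p : W → W → ℝ) (c : W → ℝ)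
    (hp0 : ∀ w s, p w s ≠ 0 → X.co u s ≠ 0) (hc : ∀ w, 0 < c w)
    (hp1 : ∀ w ∈ U1, ∀ s, X.co u s ≠ 0 → ∑ s', p w s' * g s' s = g w s)
    (hp2 : ∀ w ∈ U1, ∀ w' ∈ U1, (w = w' ∨ T.Adj w w') →
      g w w' = bf g (p w) (p w') + c w * c w' * g1 w w') :
    ∃ (m : ℕ) (k : ℝ) (j : C → CProd (EuclideanSpace ℝ (Fin m)) C1),
      StarMap u k j ∧ (j u).2 = o := by
  classical
  set τ : Set W := {w | X.co u w ≠ 0} with hτ
  have τc : T.IsClique τ := clique_of_cone (X.mem u)
  have τU : τ ⊆ U := fun w hw => X.supp u w hw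
  have disj : ∀ w ∈ U1, w ∉ τ := fun w hw k => T.irrefl (((hU1 w).1 hw).2 w k)
  have disj' : ∀ w ∈ τ, w ∉ U1 := fun w hw k => disj w k hw
  obtain ⟨A, hA⟩ := exists_iso ((bfL g).restrict (onSet τ)) (fun x y => bf_comm hsym x.1 y.1)
    fun x hx => X.bf_pos τc τU (fun w hw => not_not.1 fun k => hw (x.2 w k))
      fun k => hx (Subtype.ext k)
  have hA' : ∀ x y : onSet τ, Inner.inner ℝ (A x) (A y) = bf g x.1 y.1 := hA
  let P : (W → ℝ) →ₗ[ℝ] (W → ℝ) := Fintype.linearCombination ℝ p
  have hP : ∀ r, P r = ∑ w, r w • p w := fun r => rfl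
  have Pm : ∀ r, P r ∈ onSet τ := fun r => by
    rw [hP]
    exact Submodule.sum_mem _ fun w _ => Submodule.smul_mem _ _ fun s hs =>
      not_not.1 fun k => hs (hp0 w s k)
  have L1 : ∀ r ∈ onSet U1, ∀ t ∈ onSet τ, bf g (P r) t = bf g r t := by
    intro r hr t ht
    rw [← bfL_apply, hP, map_sum, LinearMap.sum_apply]
    refine Finset.sum_congr rfl fun w _ => ?_
    rw [map_smul, LinearMap.smul_apply, bfL_apply, smul_eq_mul]
    by_cases hw : w ∈ U1
    · unfold bf
      rw [Finset.sum_comm, Finset.mul_sum]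
      refine Finset.sum_congr rfl fun s _ => ?_
      by_cases hs : s ∈ τ
      · rw [← hp1 w hw s hs, Finset.mul_sum, Finset.mul_sum]
        exact Finset.sum_congr rfl fun s' _ => by ring
      · simp [ht s hs]
    · simp [hr w hw]
  have L2 : ∀ r ∈ onSet U1, ∀ r' ∈ onSet U1,
      (∀ w w', w ≠ w' → r w ≠ 0 → r' w' ≠ 0 → T.Adj w w') →
      bf g r r' = bf g (P r) (P r') + bf g1 (c * r) (c * r') := by
    intro r hr r' hr' hadj
    have e : bf g (P r) (P r') = ∑ w, ∑ w', r w * r' w' * bf g (p w) (p w') := by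
      rw [← bfL_apply, hP, hP, map_sum, map_sum]
      simp only [LinearMap.sum_apply, map_smul, LinearMap.smul_apply, bfL_apply, smul_eq_mul]
      rw [Finset.sum_comm]
      simp only [Finset.mul_sum]
      exact Finset.sum_congr rfl fun w _ => Finset.sum_congr rfl fun w' _ => by ring
    rw [e]
    conv_lhs => unfold bf
    conv_rhs => rhs; unfold bf
    rw [← Finset.sum_add_distrib]
    refine Finset.sum_congr rfl fun w _ => ?_
    rw [← Finset.sum_add_distrib]
    refine Finset.sum_congr rfl fun w' _ => ?_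
    by_cases h1 : r w = 0
    · simp [h1]
    by_cases h2 : r' w' = 0
    · simp [h2]
    have k1 : w ∈ U1 := not_not.1 fun k => h1 (hr w k)
    have k2 : w' ∈ U1 := not_not.1 fun k => h2 (hr' w' k)
    rw [hp2 w k1 w' k2 (or_iff_not_imp_left.2 fun k => hadj w w' k h1 h2)]
    simp only [Pi.mul_apply]
    ring
  let Pr : (W → ℝ) →ₗ[ℝ] onSet τ := (res τ + P ∘ₗ res U1).codRestrict (onSet τ) fun z =>
    Submodule.add_mem _ (res_mem τ z) (Pm _)
  have hPr : ∀ z, (Pr z).1 = res τ z + P (res U1 z) := fun z => rfl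
  have hr : ∀ a : C, ∃ y : C1, X1.co y = c * res U1 (X.co a) := fun a =>
    X1.surj _ (cone_mono (X.mem a) (fun w => mul_nonneg (hc w).le (by
      by_cases k : w ∈ U1
      · rw [res_in k]; exact X.nonneg a w
      · rw [res_out k])) fun w hw => (res_ne (right_ne_zero_of_mul hw)).2)
      fun w hw => (res_ne (right_ne_zero_of_mul hw)).1
  choose r hr using hr
  let j : C → CProd (EuclideanSpace ℝ (Fin (Module.finrank ℝ (onSet τ)))) C1 :=
    fun a => ⟨A (Pr (X.co a)), r a⟩
  let St : Set C := {a | ∀ w, X.co a w ≠ 0 → w ∈ τ ∨ w ∈ U1}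
  have split : ∀ a ∈ St, X.co a = res τ (X.co a) + res U1 (X.co a) := by
    intro a ha
    funext w
    rw [Pi.add_apply]
    by_cases k : w ∈ τ
    · rw [res_in k, res_out (disj' w k), add_zero]
    by_cases k' : w ∈ U1
    · rw [res_out k, res_in k', zero_add]
    · rw [res_out k, res_out k', add_zero]
      exact not_not.1 fun h => (ha w h).elim k k'
  have jip : ∀ a ∈ St, ∀ b ∈ St, X.co a + X.co b ∈ cone T → ip (j a) (j b) = ip a b := by
    intro a ha b hb hab
    have hcl := clique_of_cone hab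
    have n1 : ∀ a : C, ∀ w, X1.co (r a) w ≠ 0 → X.co a w ≠ 0 := fun a w hw => by
      rw [hr] at hw
      exact (res_ne (right_ne_zero_of_mul hw)).2
    have h1 : X1.co (r a) + X1.co (r b) ∈ cone T :=
      add_mem_cone hcl (X1.nonneg _) (X1.nonneg _)
        (fun w hw => add_ne_left (X.nonneg a) (X.nonneg b) (n1 a w hw))
        fun w hw => add_ne_right (X.nonneg a) (X.nonneg b) (n1 b w hw)
    rw [CProd.ip_def, X.ip_cell a b hab]
    show Inner.inner ℝ (A (Pr (X.co a))) (A (Pr (X.co b))) + ip (r a) (r b) = _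
    rw [hA', X1.ip_cell _ _ h1, hr, hr, hPr, hPr]
    conv_rhs => rw [split a ha, split b hb]
    simp only [bf_add_left, bf_add_right]
    rw [L1 _ (res_mem _ _) _ (res_mem _ _), bf_comm hsym (res τ (X.co a)) (P _),
      L1 _ (res_mem _ _) _ (res_mem _ _), bf_comm hsym (res U1 (X.co b)),
      L2 _ (res_mem U1 (X.co a)) _ (res_mem U1 (X.co b)) fun w w' hne h1 h2 =>
        hcl (add_ne_left (X.nonneg a) (X.nonneg b) (res_ne h1).2)
          (add_ne_right (X.nonneg a) (X.nonneg b) (res_ne h2).2) hne]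
    ring
  have stc : ∀ {σ : Set W}, T.IsClique σ → T.IsClique (τ ∪ (σ ∩ U1)) := by
    intro σ hσ
    rintro w (h | h) w' (h' | h') hne
    · exact τc h h' hne
    · exact ((hU1 w').1 h'.2).2 w h
    · exact (((hU1 w).1 h.2).2 w' h').symm
    · exact hσ h.1 h'.1 hne
  have uSt : u ∈ St := fun w hw => Or.inl hw
  have ucell : ∀ a ∈ St, X.co u + X.co a ∈ cone T := fun a ha =>
    add_mem_cone (stc (clique_of_cone (X.mem a))) (X.nonneg u) (X.nonneg a)
      (fun w hw => Or.inl hw) fun w hw => (ha w hw).imp id fun k => ⟨hw, k⟩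
  have jnm : ∀ a ∈ St, nm (j a) = nm a := fun a ha =>
    (sq_eq_sq₀ (nm_nonneg _) (nm_nonneg _)).1 (by
      rw [nm_sq, nm_sq, jip a ha a ha (X.self_cell a)])
  have jdist : ∀ a ∈ St, ∀ b ∈ St, X.co a + X.co b ∈ cone T → dist (j a) (j b) = dist a b :=
    fun a ha b hb hab => (sq_eq_sq₀ dist_nonneg dist_nonneg).1 (by
      rw [dist_sq, dist_sq, jip a ha a ha (X.self_cell a), jip b hb b hb (X.self_cell b),
        jip a ha b hb hab])
  have jang : ∀ a ∈ St, ∀ k, (j a ∈ ang (j u) k ↔ a ∈ ang u k) := fun a ha k => by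
    show k * nm (j u) * nm (j a) ≤ ip (j u) (j a) ↔ k * nm u * nm a ≤ ip u a
    rw [jnm u uSt, jnm a ha, jip u uSt a ha (ucell a ha)]
  -- the inverse map
  let q : C1 → W → ℝ := fun y => X1.co y / c
  have qm : ∀ y, q y ∈ onSet U1 := fun y w hw => by
    have : X1.co y w = 0 := not_not.1 fun k => hw (X1.supp y w k)
    simp [q, this]
  have qne : ∀ y w, q y w ≠ 0 → X1.co y w ≠ 0 := fun y w h k => h (by simp [q, k])
  let z : CProd (EuclideanSpace ℝ (Fin (Module.finrank ℝ (onSet τ)))) C1 → W → ℝ :=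
    fun x => ((A.symm x.1).1 - P (q x.2)) + q x.2
  have zt : ∀ x : CProd (EuclideanSpace ℝ (Fin (Module.finrank ℝ (onSet τ)))) C1,
      (A.symm x.1).1 - P (q x.2) ∈ onSet τ := fun x =>
    Submodule.sub_mem _ (A.symm x.1).2 (Pm _)
  have zs : ∀ x w, z x w ≠ 0 → w ∈ τ ∨ (X1.co x.2 w ≠ 0 ∧ w ∈ U1) := fun x w hw => by
    by_cases k : w ∈ τ
    · exact Or.inl k
    · have : q x.2 w ≠ 0 := by
        simpa only [z, Pi.add_apply, zt x w k, zero_add] using hw
      exact Or.inr ⟨qne _ _ this, X1.supp _ _ (qne _ _ this)⟩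
  let Om := {x | ∀ w ∈ τ, 0 ≤ z x w}
  have hk : ∀ x, ∃ a : C, x ∈ Om → X.co a = z x := by
    intro x
    by_cases hx : x ∈ Om
    · obtain ⟨a, ha⟩ := X.surj (z x) (cone_of_clique (stc (clique_of_cone (X1.mem x.2)))
        (fun w => by
          by_cases k : w ∈ τ
          · exact hx w k
          · simp only [z, Pi.add_apply, zt x w k, zero_add]
            exact div_nonneg (X1.nonneg _ w) (hc w).le) (zs x))
        fun w hw => (zs x w hw).elim (fun k => τU k) fun k => ((hU1 w).1 k.2).1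
      exact ⟨a, fun _ => ha⟩
    · exact ⟨o, fun h => absurd h hx⟩
  choose kk hkk using hk
  have kSt : ∀ x ∈ Om, kk x ∈ St := fun x hx w hw => by
    rw [hkk x hx] at hw
    exact (zs x w hw).imp id fun k => k.2
  have jk : ∀ x ∈ Om, j (kk x) = x := by
    intro x hx
    have e1 : res τ (z x) = (A.symm x.1).1 - P (q x.2) := by
      simp only [z]
      rw [map_add, res_self (zt x), res_disj disj' (qm _), add_zero]
    have e2 : res U1 (z x) = q x.2 := by
      simp only [z]
      rw [map_add, res_disj disj (zt x), res_self (qm _), zero_add]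
    refine CProd.ext ?_ (X1.inj ?_)
    · show A (Pr (X.co (kk x))) = x.1
      rw [← LinearEquiv.eq_symm_apply]
      refine Subtype.ext ?_
      rw [hPr, hkk x hx, e1, e2, sub_add_cancel]
    · show X1.co (r (kk x)) = X1.co x.2
      rw [hr, hkk x hx, e2]
      funext w
      simp only [q, Pi.mul_apply, Pi.div_apply]
      exact mul_div_cancel₀ _ (hc w).ne'
  have zj : ∀ a ∈ St, z (j a) = X.co a := by
    intro a ha
    have e : q (r a) = res U1 (X.co a) := by
      funext w
      simp only [q, hr, Pi.mul_apply, Pi.div_apply]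
      exact mul_div_cancel_left₀ _ (hc w).ne'
    show ((A.symm (A (Pr (X.co a)))).1 - P (q (r a))) + q (r a) = _
    rw [A.symm_apply_apply, hPr, e, add_sub_cancel_right, ← split a ha]
  have jOm : ∀ a ∈ St, j a ∈ Om := fun a ha w _ => by rw [zj a ha]; exact X.nonneg a w
  have kj : ∀ a ∈ St, kk (j a) = a := fun a ha => X.inj (by rw [hkk _ (jOm a ha), zj a ha])
  have zsm : ∀ l, 0 ≤ l → ∀ x, z (sm l x) = l • z x := by
    intro l hl x
    have e : q (sm l x.2) = l • q x.2 := by
      funext w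
      simp only [q, X1.co_sm hl, Pi.div_apply, Pi.smul_apply, smul_eq_mul, mul_div_assoc]
    show ((A.symm (l • x.1)).1 - P (q (sm l x.2))) + q (sm l x.2) = _
    rw [e, map_smul, map_smul, Submodule.coe_smul, ← smul_sub, ← smul_add]
  have zc : Continuous z := by
    have c1 : Continuous q := continuous_pi fun w =>
      ((continuous_apply w).comp X1.continuous_co).div_const (c w)
    have c2 : Continuous P := P.continuous_of_finiteDimensional
    have c3 : Continuous ((onSet τ).subtype ∘ₗ A.symm.toLinearMap) :=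
      LinearMap.continuous_of_finiteDimensional _
    exact ((c3.comp CProd.continuous_fst).sub (c2.comp (c1.comp CProd.continuous_snd))).add
      (c1.comp CProd.continuous_snd)
  have ju : j u ≠ o := fun h => (nm_pos' hu).ne' (by rw [← jnm u uSt, h, nm_o])
  obtain ⟨k1, k10, k11, hk1⟩ := X.ang_star hu
  obtain ⟨k2, k20, k21, hk2⟩ : ∃ k : ℝ, 0 < k ∧ k < 1 ∧ ang (j u) k ⊆ Om := by
    have hO : IsOpen {x | ∀ w ∈ τ, 0 < z x w} := by
      simp only [ofPred_forall]
      exact isOpen_iInter_of_finite fun w => isOpen_iInter_of_finite fun _ =>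
        isOpen_lt continuous_const ((continuous_apply w).comp zc)
    obtain ⟨d, hd, h⟩ := Metric.isOpen_iff.1 hO (j u) fun w hw => by
      rw [zj u uSt]; exact lt_of_le_of_ne (X.nonneg u w) (Ne.symm hw)
    obtain ⟨k, k0, k1, hk⟩ := ang_small ju hd
    refine ⟨k, k0, k1, fun x hx w hw => ?_⟩
    by_cases h0 : x = o
    · rw [h0, ← sm_zero x, zsm 0 le_rfl]; simp
    · obtain ⟨l, hl, hla⟩ := hk x hx h0
      have := h hla w hw
      rw [zsm l hl.le] at this
      exact ((mul_pos_iff_of_pos_left hl).1 this).le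
  have aSt : ∀ a ∈ ang u (max k1 k2), a ∈ St := by
    intro a ha w hw
    by_cases k : w ∈ τ
    · exact Or.inl k
    refine Or.inr ((hU1 w).2 ⟨X.supp a w hw, fun s hs => ?_⟩)
    have h0 : a ≠ o := fun h => hw (by rw [h, X.co_o]; rfl)
    exact (X.mem a).2 s w (fun e => k (e ▸ hs))
      ((hk1 a (ang_mono u (le_max_left _ _) ha)).2 h0 s hs) hw
  have aOm : ∀ x ∈ ang (j u) (max k1 k2), x ∈ Om := fun x hx =>
    hk2 (ang_mono _ (le_max_right _ _) hx)
  have k0 : 0 < max k1 k2 := lt_max_of_lt_left k10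
  have le1 : ∀ a ∈ ang u (max k1 k2), ∀ b ∈ ang u (max k1 k2), dist (j a) (j b) ≤ dist a b := by
    intro a ha b hb
    have := X.chain_on j zero_le_one (ang_closed u (max k1 k2))
      (fun a ha b hb hab => by rw [one_mul, jdist a (aSt a ha) b (aSt b hb) hab])
      (a := a) (b := b) fun t ht => ang_geo k0.le ha hb ht
    rwa [one_mul] at this
  have le2 : ∀ x ∈ ang (j u) (max k1 k2), ∀ y ∈ ang (j u) (max k1 k2),
      dist (kk x) (kk y) ≤ dist x y := by
    intro x hx y hy
    have := ConeAlg.chain (U := ang (j u) (max k1 k2))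
      (fun a ha b hb t ht => ang_geo k0.le ha hb ht)
      (fun σ : {σ : Set W // T.IsClique σ} => CProd.snd ⁻¹' X1.cell σ.1)
      (fun σ => (X1.isClosed_cell σ.2).preimage CProd.continuous_snd)
      (fun a _ => ⟨⟨_, clique_of_cone (X1.mem a.2)⟩, fun _ h => h⟩) kk zero_le_one
      (fun σ x hx hx' y hy hy' => by
        have m1 := aOm x hx'
        have m2 := aOm y hy'
        rw [one_mul, ← jdist _ (kSt x m1) _ (kSt y m2) (add_mem_cone (stc σ.2) (X.nonneg _)
          (X.nonneg _) (fun w hw => by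
            rw [hkk x m1] at hw
            exact (zs x w hw).imp id fun k => ⟨hx w k.1, k.2⟩) fun w hw => by
            rw [hkk y m2] at hw
            exact (zs y w hw).imp id fun k => ⟨hy w k.1, k.2⟩), jk x m1, jk y m2]) hx hy
    rwa [one_mul] at this
  have iso : ∀ a ∈ ang u (max k1 k2), ∀ b ∈ ang u (max k1 k2), dist (j a) (j b) = dist a b := by
    intro a ha b hb
    refine le_antisymm (le1 a ha b hb) ?_
    have := le2 _ ((jang a (aSt a ha) _).2 ha) _ ((jang b (aSt b hb) _).2 hb)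
    rwa [kj a (aSt a ha), kj b (aSt b hb)] at this
  refine ⟨_, max k1 k2, j, ⟨k0, max_lt k11 k21, fun l hl a => ?_,
    ⟨fun a ha => (jang a (aSt a ha) _).2 ha, fun a ha b hb h => ?_, fun x hx => ?_⟩, iso⟩, ?_⟩
  · refine CProd.ext ?_ (X1.inj ?_)
    · show A (Pr (X.co (sm l a))) = l • A (Pr (X.co a))
      rw [X.co_sm hl, map_smul, map_smul]
    · show X1.co (r (sm l a)) = X1.co (sm l (r a))
      rw [X1.co_sm hl, hr, hr, X.co_sm hl, map_smul, mul_smul_comm]
  · rw [← kj a (aSt a ha), h, kj b (aSt b hb)]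
  · refine ⟨kk x, (jang _ (kSt x (aOm x hx)) _).1 ?_, jk x (aOm x hx)⟩
    rwa [jk x (aOm x hx)]
  · refine X1.inj ?_
    show X1.co (r u) = _
    rw [hr, X1.co_o, res_disj disj (fun w hw => not_not.1 hw), mul_zero]

lemma gram_symm {V S : Type} (c : ℝ) (w w' : V ⊕ S) : gram c w w' = gram c w' w := by
  rcases w with x | s <;> rcases w' with y | t
  · by_cases h : x = y
    · rw [h]
    · simp [gram, h, Ne.symm h]
  · simp [gram]
  · simp [gram]
  · by_cases h : s = t
    · rw [h]
    · simp [gram, h, Ne.symm h]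

/-- (S) for the link cones. -/
theorem star_gram {V S : Type} [Fintype V] [Fintype S] {T : SimpleGraph (V ⊕ S)}
    {U U1 : Set (V ⊕ S)} {c : ℝ} (hc : |c| < 1)
    (h3 : ∀ x y z, inl x ∈ U → inl y ∈ U → inl z ∈ U → T.Adj (inl x) (inl y) →
      T.Adj (inl x) (inl z) → ¬ T.Adj (inl y) (inl z))
    {C C1 : Type} [ConeAlg C] [ConeAlg C1] (X : Cells T U (gram c) C) (X1 : Cells T U1 (gram c) C1)
    {u : C} (hu : u ≠ o) (hU1 : ∀ w, w ∈ U1 ↔ w ∈ U ∧ ∀ s, X.co u s ≠ 0 → T.Adj s w) :
    ∃ (m : ℕ) (k : ℝ) (j : C → CProd (EuclideanSpace ℝ (Fin m)) C1),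
      StarMap u k j ∧ (j u).2 = o := by
  classical
  have bf0 : ∀ z : V ⊕ S → ℝ, bf (gram c) 0 z = 0 ∧ bf (gram c) z 0 = 0 := fun z => by simp [bf]
  have ne : ∀ w ∈ U1, ∀ s, X.co u s ≠ 0 → w ≠ s := fun w hw s hs =>
    (((hU1 w).1 hw).2 s hs).ne.symm
  by_cases hV : ∃ a, X.co u (inl a) ≠ 0
  · obtain ⟨a, ha⟩ := hV
    have h1 : 0 < 1 - c ^ 2 := by
      have := (sq_lt_one_iff_abs_lt_one c).2 hc
      linarith
    refine star_of X X1 hu hU1 (gram_symm c)
      (Sum.elim (fun _ => Pi.single (inl a) c) fun _ => 0)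
      (Sum.elim (fun _ => √(1 - c ^ 2)) fun _ => 1) ?_ ?_ ?_ ?_
    · rintro (x | t) s h
      · by_cases k : s = inl a
        · rwa [k]
        · exact absurd (by simp [k]) h
      · exact absurd rfl h
    · rintro (x | t)
      · exact Real.sqrt_pos.2 h1
      · exact one_pos
    · rintro (x | t) hw s hs
      · simp only [Sum.elim_inl]
        rw [Finset.sum_eq_single (inl a) (fun w _ k => by rw [Pi.single_eq_of_ne k, zero_mul])
          (by simp), Pi.single_eq_same]
        rcases s with y | s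
        · have k1 : x ≠ y := fun k => ne _ hw _ hs (by rw [k])
          by_cases k : a = y
          · simp [gram, k, k1]
          · exact absurd (((hU1 _).1 hw).2 _ hs) (h3 a y x (X.supp u _ ha) (X.supp u _ hs)
              ((hU1 _).1 hw).1 ((X.mem u).2 _ _ (by simpa using k) ha hs) (((hU1 _).1 hw).2 _ ha))
        · simp [gram]
      · simp only [Sum.elim_inr, Pi.zero_apply, zero_mul, Finset.sum_const_zero]
        exact (((orth_gram c) t).2 s (ne _ hw s hs).symm).1.symm
    · rintro (x | t) hw (y | s) hw' h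
      · rcases h with h | h
        · obtain rfl : x = y := inl_injective h
          have e : bf (gram c) (Pi.single (inl a) c : V ⊕ S → ℝ) (Pi.single (inl a) c) = c ^ 2 := by
            simp [bf, Pi.single_apply, gram, sq]
          simp only [Sum.elim_inl, e, Real.mul_self_sqrt h1.le]
          simp [gram]
        · exact absurd h (h3 a x y (X.supp u _ ha) ((hU1 _).1 hw).1 ((hU1 _).1 hw').1
            (((hU1 _).1 hw).2 _ ha) (((hU1 _).1 hw').2 _ ha))
      · simp [gram, (bf0 _).2]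
      · simp [gram, (bf0 _).1]
      · simp [(bf0 _).1]
  · push Not at hV
    refine star_of X X1 hu hU1 (gram_symm c) (fun _ => 0) (fun _ => 1)
      (fun _ _ h => absurd rfl h) (fun _ => one_pos) ?_ fun w _ w' _ _ => by simp [(bf0 _).1]
    rintro w hw (y | s) hs
    · exact absurd (hV y) hs
    · simp only [Pi.zero_apply, zero_mul, Finset.sum_const_zero]
      exact (((orth_gram c) s).2 w (ne w hw _ hs)).2.symm

end Pool.Agent.Lib.MP_c2693b_gt.Lk
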