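import Pool.Agent.Lib.MP_c2693b_gt.SmMh
import Pool.Agent.Lib.MP_c2693b_gt.LkStep

/-! Linear coordinates adapted to the roots that vanish at a point. -/

set_option linter.unusedSectionVars false

open scoped BigOperators Classical RealInnerProductSpace
open Set

namespace Pool.Agent.Lib.MP_c2693b_gt.Sm

open Ar Lk

theorem exists_frame {F : Type} [AddCommGroup F] [Module ℝ F] [FiniteDimensional ℝ F]
    (B : LinearMap.BilinForm ℝ F) (hs : ∀ x y, B x y = B y x) (hp : ∀ x, x ≠ 0 → 0 < B x x) :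
    ∃ e : F ≃ₗ[ℝ] EuclideanSpace ℝ (Fin (Module.finrank ℝ F)), ∀ x y, ⟪e x, e y⟫ = B x y := by
  let core : InnerProductSpace.Core ℝ F :=
    { inner := fun x y => B x y
      conj_inner_symm := fun x y => by simp [hs x y]
      re_inner_nonneg := fun x => by
        by_cases h : x = 0
        · simp [h]
        · exact (hp x h).le
      add_left := fun x y z => by simp
      smul_left := fun x y r => by simp
      definite := fun x h => by
        by_contra hc
        exact (hp x hc).ne' h }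
  let : NormedAddCommGroup F := core.toNormedAddCommGroup
  let : InnerProductSpace ℝ F := InnerProductSpace.ofCore core.toCore
  exact ⟨(stdOrthonormalBasis ℝ F).repr.toLinearEquiv, fun x y =>
    (stdOrthonormalBasis ℝ F).repr.inner_map_map x y⟩

theorem z3_sum (i : ZMod 3) (f : ZMod 3 → ℝ) : ∑ k, f k = f i + f (i + 1) + f (i + 2) := by
  have h : (Finset.univ : Finset (ZMod 3)) = {i, i + 1, i + 2} := by revert i; decide
  have h1 : ∀ i : ZMod 3, i ≠ i + 1 ∧ i ≠ i + 2 ∧ i + 1 ≠ i + 2 := by decide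
  rw [h, Finset.sum_insert (by simp [(h1 i).1, (h1 i).2.1]), Finset.sum_pair (h1 i).2.2, add_assoc]

theorem z3_cases : ∀ i a : ZMod 3, a ≠ i → a = i + 1 ∨ a = i + 2 := by decide

theorem z3_ne : ∀ i : ZMod 3, i + 1 ≠ i + 2 := by decide

variable {S : Type} [Fintype S] [DecidableEq S] {P : Piece S}

theorem rt_not {y φ} (h : ¬ Van P y φ) : rt P y φ = 0 := by rw [rt, dif_neg h]

theorem rt_inr {y} (hy : y ∈ HH S) {φ s} (h : φ ≠ .inr s) :
    q (rt P y φ) (rt P y (.inr s)) = 0 := by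
  by_cases h1 : Van P y φ
  · by_cases h2 : Van P y (.inr s)
    · rw [← abs_eq_zero, abs_gram hy h1 h2, q_nu_inr h, abs_zero]
    · rw [rt_not h2, map_zero]
  · rw [rt_not h1, map_zero, LinearMap.zero_apply]

/-- the inverse of the Gram matrix of the vanishing roots. -/
theorem exists_inv {y} (hy : y ∈ HH S) : ∃ (c : ℝ) (κ : Col S → ℝ),
    ((c = √2 / 2 ∨ c = -(√2 / 2)) ∧ (y ∈ beta S → 0 < c)) ∧ (∀ φ, 0 < κ φ) ∧
      ∀ φ χ, Van P y φ → Van P y χ →
      ∑ ψ, gram c φ ψ * κ ψ * q (rt P y ψ) (rt P y χ) * κ χ = if φ = χ then 1 else 0 := by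
  obtain ⟨i0, hi0⟩ := P.not3 y hy
  have hi : ¬ Van P y (.inl i0) := fun ⟨ρ, h, h0⟩ => hi0 ρ h h0
  have s2 : √2 * √2 = 2 := Real.mul_self_sqrt (by norm_num)
  have sp : 0 < √2 := Real.sqrt_pos.2 (by norm_num)
  have hne := z3_ne i0
  obtain ⟨c, k, hc, hk, H⟩ : ∃ c k : ℝ,
      ((c = √2 / 2 ∨ c = -(√2 / 2)) ∧ (y ∈ beta S → 0 < c)) ∧ 0 < k ∧
      ∀ a b, Van P y (.inl a) → Van P y (.inl b) →
      ∑ j, gram (S := S) c (.inl a) (.inl j) * k * q (rt P y (.inl j)) (rt P y (.inl b)) * k =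
        if a = b then 1 else 0 := by
    by_cases hb : Van P y (.inl (i0 + 1)) ∧ Van P y (.inl (i0 + 2))
    · have h1 := abs_gram hy hb.1 hb.2
      rw [q_nu_inl hne, abs_neg, abs_of_pos sp] at h1
      have h2 := P.sq _ _ (rt_mem hb.1)
      have h3 := P.sq _ _ (rt_mem hb.2)
      have h4 := q_comm (rt P y (.inl (i0 + 2))) (rt P y (.inl (i0 + 1)))
      have h5 : q (rt P y (.inl (i0 + 1))) (rt P y (.inl (i0 + 2))) ^ 2 = 2 := by
        rw [← sq_abs, h1, sq, s2]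
      refine ⟨-q (rt P y (.inl (i0 + 1))) (rt P y (.inl (i0 + 2))) / 2, 1, ⟨?_, fun hβ => ?_⟩,
        one_pos, fun a b ha hb' => ?_⟩
      · rcases (abs_eq sp.le).1 h1 with e | e <;> rw [e]
        · right; ring
        · left; ring
      · rw [rt_beta hβ hb.1, rt_beta hβ hb.2, q_nu_inl hne, neg_neg]
        positivity
      · rw [z3_sum i0, rt_not hi]
        rcases z3_cases i0 a (fun e => hi (e ▸ ha)) with rfl | rfl <;>
        rcases z3_cases i0 b (fun e => hi (e ▸ hb')) with rfl | rfl <;>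
        simp only [gram, hne, hne.symm, if_true, if_false, h2, h3, h4, map_zero,
          LinearMap.zero_apply] <;> nlinarith
    · refine ⟨√2 / 2, √2 / 2, ⟨.inl rfl, fun _ => by positivity⟩, by positivity, fun a b ha hb' => ?_⟩
      rw [z3_sum i0, rt_not hi]
      rcases z3_cases i0 a (fun e => hi (e ▸ ha)) with rfl | rfl <;>
      rcases z3_cases i0 b (fun e => hi (e ▸ hb')) with rfl | rfl
      · rw [rt_not fun h => hb ⟨ha, h⟩, P.sq _ _ (rt_mem ha)]
        simp only [gram, if_true, map_zero, LinearMap.zero_apply]; nlinarith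
      · exact absurd ⟨ha, hb'⟩ hb
      · exact absurd ⟨hb', ha⟩ hb
      · rw [rt_not fun h => hb ⟨h, ha⟩, P.sq _ _ (rt_mem ha)]
        simp only [gram, if_true, map_zero, LinearMap.zero_apply]; nlinarith
  refine ⟨c, Sum.elim (fun _ => k) fun _ => √2 / 2, hc, ?_, ?_⟩
  · rintro (a | s)
    exacts [hk, by simp only [Sum.elim_inr]; positivity]
  rintro (a | s) χ h1 h2
  · rw [Fintype.sum_sum_type, Finset.sum_eq_zero (f := fun s : S => _) fun s _ => by simp [gram], add_zero]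
    rcases χ with b | t
    · simpa using H a b h1 h2
    · rw [if_neg (by simp)]
      exact Finset.sum_eq_zero fun j _ => by rw [rt_inr hy (by simp)]; ring
  · rw [Finset.sum_eq_single (.inr s)]
    · split_ifs with e
      · subst e
        rw [P.sq _ _ (rt_mem h1)]
        simp only [gram, if_true, Sum.elim_inr]; nlinarith
      · rw [q_comm, rt_inr hy (Ne.symm e)]; ring
    · rintro (j | t) - hj
      · simp [gram]
      · have : s ≠ t := fun e => hj (by rw [e])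
        simp [gram, this]
    · simp

variable (P) in
/-- Coordinates at `y0`: time, a Euclidean part `pe`, and the rescaled values of the roots. -/
structure Coord (y0 : Col S → ℝ) (m : ℕ) (c : ℝ) where
  κ : Col S → ℝ
  pe : (Col S → ℝ) →ₗ[ℝ] EuclideanSpace ℝ (Fin m)
  pos : ∀ φ, 0 < κ φ
  form : ∀ y y', q y y' = -(q y y0 * q y' y0) + ⟪pe y, pe y'⟫ +
    bf (gram c) (fun φ => κ φ * q y (rt P y0 φ)) fun φ => κ φ * q y' (rt P y0 φ)
  onto : ∀ (τ : ℝ) (e) (u : Col S → ℝ), ∃ y, q y y0 = τ ∧ pe y = e ∧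
    ∀ φ, Van P y0 φ → κ φ * q y (rt P y0 φ) = u φ
  inj : ∀ y y', q y y0 = q y' y0 → pe y = pe y' →
    (∀ φ, Van P y0 φ → q y (rt P y0 φ) = q y' (rt P y0 φ)) → y = y'
  base : pe y0 = 0
  dim : m + 1 = Set.ncard {φ | ¬ Van P y0 φ}

theorem exists_coord {y0} (h0 : y0 ∈ HH S) :
    ∃ (m : ℕ) (c : ℝ), ((c = √2 / 2 ∨ c = -(√2 / 2)) ∧ (y0 ∈ beta S → 0 < c)) ∧
      Nonempty (Coord P y0 m c) := by
  obtain ⟨c, κ, hc, hκ, H⟩ := exists_inv (P := P) h0
  let d : Col S → Col S → ℝ := fun φ => ∑ ψ, (gram c φ ψ * κ ψ) • rt P y0 ψ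
  have d0 : ∀ φ y, q (d φ) y = ∑ ψ, gram c φ ψ * κ ψ * q y (rt P y0 ψ) := fun φ y => by
    simp only [d, map_sum, map_smul, LinearMap.sum_apply, LinearMap.smul_apply, smul_eq_mul,
      q_comm _ y]
  have d1 : ∀ φ, q (d φ) y0 = 0 := fun φ => by simp [d0, rt_van]
  have d2 : ∀ φ χ, Van P y0 φ → Van P y0 χ → q (d φ) (rt P y0 χ) * κ χ = if φ = χ then 1 else 0 :=
    fun φ χ h1 h2 => by
      rw [d0, Finset.sum_mul, ← H φ χ h1 h2]
      exact Finset.sum_congr rfl fun ψ _ => by rw [q_comm]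
  have d3 : ∀ u : Col S → ℝ, (∀ φ, ¬ Van P y0 φ → u φ = 0) → ∀ χ, Van P y0 χ →
      κ χ * q (∑ φ, u φ • d φ) (rt P y0 χ) = u χ := fun u hu χ hχ => by
    simp only [map_sum, map_smul, LinearMap.sum_apply, LinearMap.smul_apply, smul_eq_mul,
      Finset.mul_sum]
    rw [Finset.sum_eq_single χ]
    · have := d2 χ χ hχ hχ
      rw [if_pos rfl] at this
      linear_combination u χ * this
    · intro φ _ hne
      by_cases h : Van P y0 φ
      · have := d2 φ χ h hχ
        rw [if_neg hne] at this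
        linear_combination u φ * this
      · rw [hu φ h]; ring
    · simp
  let n : (Col S → ℝ) →ₗ[ℝ] Col S → ℝ := ∑ φ, (κ φ • q.flip (rt P y0 φ)).smulRight (d φ)
  have n0 : ∀ y, n y = ∑ φ, (κ φ * q y (rt P y0 φ)) • d φ := fun y => by simp [n]
  have n1 : ∀ y, q (n y) y0 = 0 := fun y => by simp [n0, d1]
  have n2 : ∀ y χ, q (n y) (rt P y0 χ) = q y (rt P y0 χ) := fun y χ => by
    by_cases h : Van P y0 χ
    · refine mul_left_cancel₀ (hκ χ).ne' ?_
      rw [n0, d3 _ (fun φ hφ => by simp [rt_not hφ]) χ h]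
    · simp [rt_not h]
  let E0 : Submodule ℝ (Col S → ℝ) :=
    LinearMap.ker (q.flip y0) ⊓ ⨅ φ, LinearMap.ker (q.flip (rt P y0 φ))
  have hE : ∀ v, v ∈ E0 ↔ q v y0 = 0 ∧ ∀ φ, q v (rt P y0 φ) = 0 := fun v => by
    simp only [E0, Submodule.mem_inf, Submodule.mem_iInf, LinearMap.mem_ker]; rfl
  let pr0 : (Col S → ℝ) →ₗ[ℝ] Col S → ℝ := LinearMap.id + (q.flip y0).smulRight y0 - n
  have p0 : ∀ y, pr0 y = y + q y y0 • y0 - n y := fun y => rfl
  have p1 : ∀ y, pr0 y ∈ E0 := fun y => (hE _).2 ⟨by simp [p0, n1, h0.1], fun φ => by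
    simp [p0, n2, rt_van]⟩
  have p2 : ∀ v ∈ E0, ∀ φ, q (d φ) v = 0 := fun v hv φ => by simp [d0, ((hE v).1 hv).2]
  have p3 : ∀ v ∈ E0, ∀ y, q v (pr0 y) = q v y := fun v hv y => by
    rw [p0, map_sub, map_add, map_smul, ((hE v).1 hv).1, q_comm v (n y), n0]
    simp [p2 v hv]
  obtain ⟨e, he⟩ := exists_frame (q.restrict E0) (fun x y => q_comm _ _) fun x hx => by
    by_contra hcon
    exact hx (Subtype.ext (perp_eq_zero (by rw [h0.1]; norm_num) ((hE _).1 x.2).1 (not_lt.1 hcon)))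
  let pe := e.toLinearMap ∘ₗ pr0.codRestrict E0 p1
  have hinj : ∀ y, q y y0 = 0 → pe y = 0 → (∀ φ, Van P y0 φ → q y (rt P y0 φ) = 0) → y = 0 := by
    intro y h1 h2 h3
    have h4 : pr0 y = 0 := congrArg Subtype.val (e.map_eq_zero_iff.1 h2)
    have h5 : n y = 0 := by
      rw [n0]
      refine Finset.sum_eq_zero fun φ _ => ?_
      by_cases h : Van P y0 φ
      · simp [h3 φ h]
      · simp [rt_not h]
    simpa [p0, h1, h5] using h4
  have honto : ∀ (τ : ℝ) (x) (u : Col S → ℝ), ∃ y, q y y0 = τ ∧ pe y = x ∧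
      ∀ φ, Van P y0 φ → κ φ * q y (rt P y0 φ) = u φ := by
    intro τ x u
    let u' : Col S → ℝ := fun φ => if Van P y0 φ then u φ else 0
    have a1 : q (∑ φ, u' φ • d φ) y0 = 0 := by simp [d1]
    have a2 := d3 u' fun φ h => if_neg h
    have a3 := (hE _).1 (e.symm x).2
    have a4 : ∀ φ, κ φ * q ((e.symm x).1 - τ • y0 + ∑ φ, u' φ • d φ) (rt P y0 φ) = u' φ := by
      intro φ
      by_cases h : Van P y0 φ
      · rw [map_add, map_sub, map_smul, LinearMap.add_apply, LinearMap.sub_apply,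
          LinearMap.smul_apply, rt_van, a3.2, smul_zero, sub_zero, zero_add, a2 φ h]
      · simp [rt_not h, u', h]
    have a5 : q ((e.symm x).1 - τ • y0 + ∑ φ, u' φ • d φ) y0 = τ := by
      rw [map_add, map_sub, map_smul, LinearMap.add_apply, LinearMap.sub_apply,
        LinearMap.smul_apply, a1, a3.1, h0.1]; simp
    refine ⟨_, a5, ?_, fun φ h => by rw [a4]; exact if_pos h⟩
    refine (e.eq_symm_apply.1 (Subtype.ext ?_))
    change pr0 _ = _
    rw [p0, a5, n0]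
    simp only [a4]
    abel
  refine ⟨_, c, hc, ⟨⟨κ, pe, hκ, fun y y' => ?_, honto, fun y y' h1 h2 h3 => ?_, ?_, ?_⟩⟩⟩
  · have a1 : ⟪pe y, pe y'⟫ = q (pr0 y) y' := (he _ _).trans (p3 _ (p1 y) y')
    have a2 : q (n y) y' = bf (gram c) (fun φ => κ φ * q y (rt P y0 φ))
        fun φ => κ φ * q y' (rt P y0 φ) := by
      simp only [n0, map_sum, map_smul, LinearMap.sum_apply, LinearMap.smul_apply, smul_eq_mul, d0,
        bf, Finset.mul_sum]
      exact Finset.sum_congr rfl fun φ _ => Finset.sum_congr rfl fun ψ _ => by ring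
    rw [a1, ← a2, p0, map_sub, map_add, map_smul, LinearMap.sub_apply, LinearMap.add_apply,
      LinearMap.smul_apply, q_comm y0 y', smul_eq_mul]
    ring
  · refine sub_eq_zero.1 (hinj _ ?_ ?_ fun φ h => ?_)
    · rw [map_sub, LinearMap.sub_apply, h1, sub_self]
    · rw [map_sub, h2, sub_self]
    · rw [map_sub, LinearMap.sub_apply, h3 φ h, sub_self]
  · refine e.map_eq_zero_iff.2 (Subtype.ext ?_)
    change pr0 _ = 0
    simp [p0, n0, rt_van, h0.1]
  · let L : (Col S → ℝ) →ₗ[ℝ] ℝ × EuclideanSpace ℝ (Fin (Module.finrank ℝ E0)) ×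
        ({φ // Van P y0 φ} → ℝ) := (q.flip y0).prod (pe.prod (LinearMap.pi fun φ =>
          κ φ.1 • q.flip (rt P y0 φ.1)))
    have hL : Function.Bijective L := by
      refine ⟨(injective_iff_map_eq_zero L).2 fun y hy => hinj y (congrArg Prod.fst hy)
        (congrArg (fun x => x.2.1) hy) fun φ h => ?_, fun ⟨τ, x, u⟩ => ?_⟩
      · exact (mul_eq_zero.1 (congrFun (congrArg (fun x => x.2.2) hy) ⟨φ, h⟩)).resolve_left (hκ φ).ne'
      · obtain ⟨y, h1, h2, h3⟩ := honto τ x fun φ => if h : Van P y0 φ then u ⟨φ, h⟩ else 0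
        exact ⟨y, Prod.ext h1 (Prod.ext h2 (funext fun φ => (h3 φ.1 φ.2).trans (dif_pos φ.2)))⟩
    have := (LinearEquiv.ofBijective L hL).finrank_eq
    simp only [Module.finrank_prod, Module.finrank_pi, Module.finrank_self, finrank_euclideanSpace,
      Fintype.card_fin] at this
    have h2 := Fintype.card_subtype_compl (Van P y0)
    have h3 : Set.ncard {φ | ¬ Van P y0 φ} = Fintype.card {φ // ¬ Van P y0 φ} :=
      (Nat.card_coe_set_eq _).symm.trans Nat.card_eq_fintype_card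
    omega

/-- the splitting of the Lorentz form at `y0`. -/
theorem split {y0} (hy : y0 ∈ HH S) : ∃ (k : ℕ) (c : ℝ) (κ : Col S → ℝ)
    (e : (Col S → ℝ) →ₗ[ℝ] EuclideanSpace ℝ (Fin k)),
    k + 1 = Set.ncard {φ | ¬ Van P y0 φ} ∧ c ^ 2 = 1 / 2 ∧ (y0 ∈ beta S → 0 < c) ∧ (∀ φ, 0 < κ φ) ∧
    (∀ y y', q y y' = -(q y y0 * q y' y0) + ⟪e y, e y'⟫ +
      bf (gram c) (fun φ => κ φ * q y (rt P y0 φ)) fun φ => κ φ * q y' (rt P y0 φ)) ∧
    (∀ t a (b : Col S → ℝ), ∃ y, q y y0 = t ∧ e y = a ∧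
      ∀ φ, Van P y0 φ → q y (rt P y0 φ) = b φ) ∧
    (∀ y y', q y y0 = q y' y0 → e y = e y' →
      (∀ φ, Van P y0 φ → q y (rt P y0 φ) = q y' (rt P y0 φ)) → y = y') ∧ e y0 = 0 := by
  obtain ⟨k, c, ⟨h1, h2⟩, ⟨X⟩⟩ := exists_coord (P := P) hy
  refine ⟨k, c, X.κ, X.pe, X.dim, ?_, h2, X.pos, X.form, fun t a b => ?_, X.inj, X.base⟩
  · have s2 : √2 ^ 2 = 2 := Real.sq_sqrt (by norm_num)
    rcases h1 with rfl | rfl <;> nlinarith
  · obtain ⟨y, a1, a2, a3⟩ := X.onto t a fun φ => X.κ φ * b φ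
    exact ⟨y, a1, a2, fun φ h => mul_left_cancel₀ (X.pos φ).ne' (a3 φ h)⟩

end Pool.Agent.Lib.MP_c2693b_gt.Sm
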