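import Pool.Agent.Lib.MP_c2693b_gt.LkStep
import Pool.Agent.Lib.MP_c2693b_gt.ConeHyp

/-! Straight corners in the local model. -/

open scoped BigOperators Classical
open Set

namespace Pool.Agent.Lib.MP_c2693b_gt

open ConeAlg Lk Real

theorem Hyp.dist_of_opp {C : Type*} [ConeAlg C] (A B : Hyp C)
    (h : ip A.val B.val = -(nm A.val * nm B.val)) : dist A B = dist ⟨o⟩ A + dist ⟨o⟩ B := by
  have h1 : cosh (dist A B) = cosh (dist A ⟨o⟩ + dist B ⟨o⟩) := by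
    rw [cosh_add, Hyp.cosh_dist_o, Hyp.cosh_dist_o, Hyp.sinh_dist_o, Hyp.sinh_dist_o, Hyp.cosh_dist,
      ConeAlg.Lk, h]
    ring
  rw [dist_comm ⟨o⟩ A, dist_comm ⟨o⟩ B]
  exact le_antisymm (le_of_cosh_le (by positivity) h1.le) (le_of_cosh_le dist_nonneg h1.ge)

variable {V S : Type} [Fintype V] [Fintype S] {T : SimpleGraph (V ⊕ S)} {U : Set (V ⊕ S)} {c : ℝ}
  {C : Type} [ConeAlg C]

theorem Lk.Cells.ray (X : Cells T U (gram c) C) {a : V} {z : C}
    (h : ∀ w, X.co z w ≠ 0 → w = .inl a) (hz : z ≠ o) :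
    ∃ u, X.co u = Pi.single (.inl a) 1 ∧ z = sm (nm z) u := by
  have e : X.co z = X.co z (.inl a) • Pi.single (.inl a) 1 := by
    funext w
    by_cases hw : w = .inl a
    · simp [hw]
    · have : X.co z w = 0 := by
        by_contra hc
        exact hw (h w hc)
      simp [hw, this]
  have h0 := X.nonneg z (.inl a)
  have h1 : nm z = X.co z (.inl a) := by
    refine (sq_eq_sq₀ (nm_nonneg z) h0).1 ?_
    rw [nm_sq, X.ip_self, e, bf_smul_left, bf_smul_right]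
    simp [bf, Pi.single_apply, gram, sq]
  have h2 : 0 < nm z := (nm_nonneg z).lt_of_ne' fun e => hz (nm_eq_zero.1 e)
  refine ⟨sm (nm z)⁻¹ z, ?_, ?_⟩
  · rw [X.co_sm (by positivity), e, smul_smul, ← h1, inv_mul_cancel₀ h2.ne', one_smul]
  · rw [sm_sm h2.le (by positivity), mul_inv_cancel₀ h2.ne', sm_one]

/-- two points on opposite rays. -/
theorem corner (X : Cells T U (gram c) C) {k : ℕ} (hk : k = 0) {a a' : V}
    (A B : Hyp (CProd (EuclideanSpace ℝ (Fin k)) C)) (hA : ∀ w, X.co A.val.2 w ≠ 0 → w = .inl a)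
    (hB : ∀ w, X.co B.val.2 w ≠ 0 → w = .inl a')
    (hn : ∀ u w, X.co u = Pi.single (.inl a) 1 → X.co w = Pi.single (.inl a') 1 → ip u w = -1) :
    dist A B = dist ⟨o⟩ A + dist ⟨o⟩ B := by
  subst hk
  refine Hyp.dist_of_opp A B ?_
  have e : ∀ Z : CProd (EuclideanSpace ℝ (Fin 0)) C, nm Z = nm Z.2 := fun Z => by
    refine (sq_eq_sq₀ (nm_nonneg _) (nm_nonneg _)).1 ?_
    rw [CProd.nm_sq', Subsingleton.elim Z.1 o, nm_o]
    ring
  rw [CProd.ip_def, Subsingleton.elim A.val.1 o, ip_o, zero_add, e, e]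
  by_cases h1 : A.val.2 = o
  · rw [h1, ip_o, nm_o]; ring
  by_cases h2 : B.val.2 = o
  · rw [h2, ip_o', nm_o]; ring
  obtain ⟨u, hu, eu⟩ := X.ray hA h1
  obtain ⟨w, hw, ew⟩ := X.ray hB h2
  conv_lhs => rw [eu, ew, ip_sm (nm_nonneg _), ip_sm' (nm_nonneg _), hn u w hu hw]
  ring

end Pool.Agent.Lib.MP_c2693b_gt
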