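import Pool.Agent.Lib.MP_c2693b_gt.NoSmA
import Pool.Agent.Lib.MP_c2693b_gt.KLink
import Pool.Agent.Lib.MP_c2693b_gt.Ob.Four

open Set

namespace Pool.Agent.Lib.MP_c2693b_gt

open Classical in
/-- the obstruction: a map of the complex `K` with a straight 4-cycle -/
theorem no_smoothing {M : Type} [MetricSpace M] [CompactSpace M] [ConnectedSpace M] {r : ℝ}
    (hM : LocBus M r) (Φ : (KV → ℝ) → M) (hΦ : ContinuousOn Φ {z | z ∈ Tri.cone kG ∧ z ≠ 0})
    (α : ℝ → ℝ) (hc : Continuous α) (h0 : α 0 = 0) (hp : ∀ t ∈ Ioc (0 : ℝ) 1, 0 < α t) (L : ℝ)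
    (hgeo : ∀ i j, LocGeo (fun t => Φ (edgePt α (kB j) (kA i) t)) L)
    (hcor : ∀ j, ∃ η, 0 < η ∧ ∀ s ∈ Icc (0 : ℝ) η, ∀ t ∈ Icc (0 : ℝ) η,
      dist (Φ (edgePt α (kB j) (kA 0) s)) (Φ (edgePt α (kB j) (kA 1) t)) = L * (s + t))
    (hne : Φ (Pi.single (kB 0) (α 1)) ≠ Φ (Pi.single (kB 1) (α 1))) : ¬ HasNPCSmoothing M := by
  intro hN
  have cl : ∀ u v, kG.Adj u v → kG.IsClique {u, v} := fun u v h =>
    SimpleGraph.isClique_pair.2 fun _ => h
  have rev : ∀ (u v : KV) t, edgePt α u v (1 - t) = edgePt α v u t := fun u v t => by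
    simp [edgePt, add_comm]
  let γ : ∀ u v, kG.Adj u v → Path (Φ (Pi.single u (α 1))) (Φ (Pi.single v (α 1))) :=
    fun u v h =>
      { toFun := fun t => Φ (edgePt α u v t)
        continuous_toFun := hΦ.comp_continuous ((edgePt_cont hc u v).comp continuous_subtype_val)
          fun t => face_sub (cl u v h) (edgePt_mem h0 hp (by simp) (by simp) t.2)
        source' := by simp [edgePt, h0]
        target' := by simp [edgePt, h0] }
  have hγ : ∀ u v h t, t ∈ Icc (0 : ℝ) 1 → (γ u v h).extend t = Φ (edgePt α u v t) :=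
    fun u v h t ht => Path.extend_apply _ ht
  have hinv : ∀ u v (h : kG.Adj u v), γ v u h.symm = (γ u v h).symm := fun u v h => by
    ext t
    exact congrArg Φ (rev u v t).symm
  have htri : ∀ u v w (h1 : kG.Adj u v) (h2 : kG.Adj v w) (h3 : kG.Adj u w),
      ((γ u v h1).trans (γ v w h2)).Homotopic (γ u w h3) := by
    intro u v w h1 h2 h3
    have cl3 : kG.IsClique {u, v, w} :=
      (SimpleGraph.is3Clique_triple_iff.2 ⟨h1, h3, h2⟩).isClique.subset (by simp)
    let pa : ∀ a b : KV, Path (Pi.single a (α 1) : KV → ℝ) (Pi.single b (α 1)) := fun a b =>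
      { toFun := fun t => edgePt α a b t
        continuous_toFun := (edgePt_cont hc a b).comp continuous_subtype_val
        source' := by simp [edgePt, h0]
        target' := by simp [edgePt, h0] }
    refine face_homotopic (σ := {u, v, w}) (hΦ.mono (face_sub cl3)) ((pa u v).trans (pa v w))
      (pa u w) (Path.continuous _) (Path.continuous _) (fun t => ?_)
      (fun t => edgePt_mem h0 hp (by simp) (by simp) t.2) (fun t => ?_) (fun _ => rfl)
      (by simp) (by simp)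
    · rw [Path.trans_apply]
      split_ifs
      · exact edgePt_mem h0 hp (by simp) (by simp) (Subtype.property _)
      · exact edgePt_mem h0 hp (by simp) (by simp) (Subtype.property _)
    · rw [Path.trans_apply, Path.trans_apply]
      split_ifs <;> rfl
  have hh := four_cycle hN kG kG_linkGap (fun u => Φ (Pi.single u (α 1))) γ
    (fun u v h => hinv u v h ▸ Path.Homotopic.refl _) htri (kAB_adj 0 0) (kAB_adj 1 0).symm
    (kAB_adj 0 1) (kAB_adj 1 1).symm
  have g2 : ∀ i j, LocGeo (γ _ _ (kAB_adj i j).symm).extend L := fun i j t ht => by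
    obtain ⟨η, hη, k⟩ := hgeo i j t ht
    exact ⟨η, hη, fun s hs s' hs' a b => by
      rw [hγ _ _ (kAB_adj i j).symm _ hs, hγ _ _ (kAB_adj i j).symm _ hs']
      exact k s hs s' hs' a b⟩
  have fl : ∀ s ∈ Icc (0 : ℝ) 1, 1 - s ∈ Icc (0 : ℝ) 1 := fun s hs =>
    ⟨by linarith [hs.2], by linarith [hs.1]⟩
  have ab : ∀ a b : ℝ, |1 - a - (1 - b)| = |a - b| := fun a b => by
    rw [sub_sub_sub_cancel_left, abs_sub_comm]
  have g1 : ∀ i j, LocGeo (γ _ _ (kAB_adj i j)).extend L := fun i j t ht => by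
    obtain ⟨η, hη, k⟩ := hgeo i j (1 - t) (fl t ht)
    refine ⟨η, hη, fun s hs s' hs' a b => ?_⟩
    have := k _ (fl s hs) _ (fl s' hs') (by rwa [ab]) (by rwa [ab])
    rw [hγ _ _ (kAB_adj i j) _ hs, hγ _ _ (kAB_adj i j) _ hs', ← rev _ _ s, ← rev _ _ s', this, ab]
  have g3 : ∀ j, LocGeo ((γ _ _ (kAB_adj 0 j)).trans (γ _ _ (kAB_adj 1 j).symm)).extend (2 * L) :=
    fun j => by
    obtain ⟨η, hη, k⟩ := hcor j
    refine locGeo_trans (g1 0 j) (g2 1 j) ⟨min η 1, lt_min hη one_pos, fun s hs t ht => ?_⟩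
    have s1 := le_min_iff.1 hs.2
    have t1 := le_min_iff.1 ht.2
    rw [hγ _ _ (kAB_adj 0 j) _ (fl s ⟨hs.1, s1.2⟩), hγ _ _ (kAB_adj 1 j).symm _ ⟨ht.1, t1.2⟩, rev]
    exact k s ⟨hs.1, s1.1⟩ t ⟨ht.1, t1.1⟩
  obtain ⟨Y, _, p, ρ, geo, hp⟩ := cartan_hadamard hM
  have e := congrArg (fun δ => Path.extend δ (1 / 2)) (hp.locGeo_unique (g3 0) (g3 1) hh)
  simp only [Path.extend_trans_of_le_half _ _ (le_refl (1 / 2 : ℝ))] at e
  norm_num at e
  exact hne e

end Pool.Agent.Lib.MP_c2693b_gt
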