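import Mathlib

/-! Zero sets of submersions and their quotients are smooth manifolds. -/

set_option autoImplicit false

open scoped Manifold ContDiff Topology
open Set Filter Function Module

namespace Pool.Agent.Lib.MP_c2693b_gt.Sm

variable {E F H : Type} [NormedAddCommGroup E] [NormedSpace ℝ E] [FiniteDimensional ℝ E]
  [NormedAddCommGroup F] [NormedSpace ℝ F] [FiniteDimensional ℝ F]
  [NormedAddCommGroup H] [NormedSpace ℝ H] [FiniteDimensional ℝ H]

/-- an onto linear map is completed to an isomorphism. -/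
theorem exists_compl (hn : finrank ℝ E = finrank ℝ H + finrank ℝ F) (A : E →L[ℝ] F)
    (hA : Surjective A) : ∃ (L : E →L[ℝ] H) (B : E ≃L[ℝ] F × H), (B : E →L[ℝ] F × H) = A.prod L := by
  obtain ⟨K, hK⟩ := Submodule.exists_isCompl (LinearMap.ker (A : E →ₗ[ℝ] F))
  have h1 : finrank ℝ (LinearMap.ker (A : E →ₗ[ℝ] F)) = finrank ℝ H := by
    have h := LinearMap.finrank_range_add_finrank_ker (A : E →ₗ[ℝ] F)
    rw [LinearMap.range_eq_top.2 hA, finrank_top] at h
    omega
  obtain ⟨e⟩ := FiniteDimensional.nonempty_linearEquiv_of_finrank_eq h1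
  let P : E →ₗ[ℝ] LinearMap.ker (A : E →ₗ[ℝ] F) := Submodule.projectionOnto _ _ hK
  let L : E →L[ℝ] H := LinearMap.toContinuousLinearMap (e.toLinearMap ∘ₗ P)
  have hinj : Injective ((A.prod L : E →L[ℝ] F × H) : E →ₗ[ℝ] F × H) := by
    rw [injective_iff_map_eq_zero]
    intro x hx
    have hx1 : A x = 0 := congrArg Prod.fst hx
    have hx2 : e (P x) = 0 := congrArg Prod.snd hx
    have hx3 : P x = 0 := by simpa using hx2
    have hx4 : P x = ⟨x, hx1⟩ := Submodule.projectionOnto_apply_left hK ⟨x, hx1⟩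
    exact congrArg Subtype.val (hx4.symm.trans hx3)
  have hdim : finrank ℝ E = finrank ℝ (F × H) := by rw [finrank_prod]; omega
  refine ⟨L, (LinearMap.linearEquivOfInjective _ hinj hdim).toContinuousLinearEquiv, ?_⟩
  ext x <;> rfl

/-- charts of the zero set of a submersion. -/
theorem exists_chart (hn : finrank ℝ E = finrank ℝ H + finrank ℝ F) {Z U : Set E} (hU : IsOpen U)
    {f : E → F} (hf : ContDiffOn ℝ ∞ f U) (p : Z) (hp : p.1 ∈ U) (hs : Surjective (fderiv ℝ f p))
    (hZ : ∀ x ∈ U, x ∈ Z ↔ f x = 0) :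
    ∃ (e : OpenPartialHomeomorph Z H) (L : E →L[ℝ] H) (ψ : H → E), p ∈ e.source ∧
      (∀ x, e x = L x.1) ∧ ∀ u ∈ e.target, ContDiffAt ℝ ∞ ψ u ∧ (e.symm u).1 = ψ u := by
  classical
  obtain ⟨L, B, hB⟩ := exists_compl hn (fderiv ℝ f p) hs
  let Φ : E → F × H := fun x => (f x, L x)
  have hΦ : ∀ x ∈ U, ContDiffAt ℝ ∞ Φ x := fun x hx =>
    (hf.contDiffAt (hU.mem_nhds hx)).prodMk L.contDiff.contDiffAt
  have hd : HasFDerivAt Φ (B : E →L[ℝ] F × H) p := by
    rw [hB]
    exact ((hf.contDiffAt (hU.mem_nhds hp)).differentiableAt (by simp)).hasFDerivAt.prodMk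
      L.hasFDerivAt
  have hc : ContinuousOn (fderiv ℝ Φ) U :=
    (ContDiffOn.continuousOn_fderiv_of_isOpen (n := ∞)
      (fun x hx => (hΦ x hx).contDiffWithinAt) hU (by simp))
  let V : Set E := U ∩ fderiv ℝ Φ ⁻¹' range ((↑) : (E ≃L[ℝ] F × H) → E →L[ℝ] F × H)
  have hV : IsOpen V := hc.isOpen_inter_preimage hU ContinuousLinearEquiv.isOpen
  have hpV : p.1 ∈ V := ⟨hp, B, hd.fderiv.symm⟩
  let R0 := (hΦ p hp).toOpenPartialHomeomorph Φ hd (by simp)
  let R := R0.restrOpen V hV
  have hR : (R : E → F × H) = Φ := rfl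
  have hpR : p.1 ∈ R.source := ⟨(hΦ p hp).mem_toOpenPartialHomeomorph_source hd _, hpV⟩
  have hsub : ∀ x ∈ R.source, x ∈ V := fun x hx => hx.2
  have hsm : ∀ a ∈ R.target, ContDiffAt ℝ ∞ R.symm a := fun a ha => by
    obtain ⟨h1, C, hC⟩ := hsub _ (R.map_target ha)
    refine R.contDiffAt_symm (f₀' := C) ha ?_ (hΦ _ h1)
    rw [hC]
    exact ((hΦ _ h1).differentiableAt (by simp)).hasFDerivAt
  have hmem : ∀ u : H, ((0 : F), u) ∈ R.target → R.symm (0, u) ∈ Z := fun u hu =>
    (hZ _ (hsub _ (R.map_target hu)).1).2 (congrArg Prod.fst (R.right_inv hu))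
  have hΦZ : ∀ x : Z, x.1 ∈ R.source → R x.1 = (0, L x.1) := fun x hx =>
    Prod.ext ((hZ _ (hsub _ hx).1).1 x.2) rfl
  have hi : Continuous fun u : H => ((0 : F), u) := by fun_prop
  let g : H → Z := fun u => if h : ((0 : F), u) ∈ R.target then ⟨_, hmem u h⟩ else p
  have hg : ∀ u, ((0 : F), u) ∈ R.target → (g u).1 = R.symm (0, u) := fun u hu => by
    simp only [g, dif_pos hu]
  refine ⟨{ toFun := fun x => L x.1
            invFun := g
            source := Subtype.val ⁻¹' R.source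
            target := (fun u : H => ((0 : F), u)) ⁻¹' R.target
            map_source' := fun x hx => ?_
            map_target' := fun u hu => ?_
            left_inv' := fun x hx => ?_
            right_inv' := fun u hu => ?_
            open_source := R.open_source.preimage continuous_subtype_val
            open_target := R.open_target.preimage hi
            continuousOn_toFun := (L.continuous.comp continuous_subtype_val).continuousOn
            continuousOn_invFun := ?_ }, L, fun u => R.symm (0, u), hpR, fun _ => rfl,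
    fun u hu => ⟨?_, hg u hu⟩⟩
  · have := R.map_source hx
    rwa [hΦZ x hx] at this
  · change (g u).1 ∈ R.source
    rw [hg u hu]; exact R.map_target hu
  · have h1 := R.map_source hx
    have h2 := R.left_inv hx
    rw [hΦZ x hx] at h1 h2
    exact Subtype.ext ((hg _ h1).trans h2)
  · rw [hg u hu]
    exact congrArg Prod.snd (R.right_inv hu)
  · rw [Topology.IsInducing.subtypeVal.continuousOn_iff]
    exact (R.continuousOn_symm.comp hi.continuousOn fun u hu => hu).congr fun u hu => hg u hu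
  · exact (hsm _ hu).comp u (f := fun u : H => ((0 : F), u)) (by fun_prop)

/-- A space that is locally homeomorphic to the zero set of a submersion, with smooth changes of
sheet, is a smooth manifold. -/
theorem smooth_quot (hn : finrank ℝ E = finrank ℝ H + finrank ℝ F) (Z : Set E)
    (hZ : ∀ p ∈ Z, ∃ (U : Set E) (f : E → F), IsOpen U ∧ p ∈ U ∧ ContDiffOn ℝ ∞ f U ∧
      Surjective (fderiv ℝ f p) ∧ ∀ x ∈ U, x ∈ Z ↔ f x = 0)
    {M : Type} [TopologicalSpace M] (π : Z → M) (hπ : IsLocalHomeomorph π) (hs : Surjective π)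
    (hG : ∀ p p' : Z, π p = π p' → ∃ g : E → E, ContDiffAt ℝ ∞ g p ∧ g p = p' ∧
      ∀ᶠ x in 𝓝 p, ∃ h : g x.1 ∈ Z, π ⟨g x.1, h⟩ = π x) :
    ∃ _ : ChartedSpace H M, IsManifold 𝓘(ℝ, H) ∞ M := by
  have h1 : ∀ p : Z, ∃ (e : OpenPartialHomeomorph Z H) (L : E →L[ℝ] H) (ψ : H → E), p ∈ e.source ∧
      (∀ x, e x = L x.1) ∧ ∀ u ∈ e.target, ContDiffAt ℝ ∞ ψ u ∧ (e.symm u).1 = ψ u := fun p => by
    obtain ⟨U, f, hU, hp, hf, hs, hZ⟩ := hZ p p.2
    exact exists_chart hn hU hf p hp hs hZ
  choose e L ψ he hL hψ using h1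
  choose s hs1 hs2 using hπ
  choose σ hσ using hs
  let c : Z → OpenPartialHomeomorph M H := fun p => (s p).symm.trans (e p)
  let inst : ChartedSpace H M :=
    { atlas := range c
      chartAt := fun m => c (σ m)
      mem_chart_source := fun m => by
        have h : s (σ m) (σ m) = m := by rw [← hs2 (σ m)]; exact hσ m
        have h2 : m ∈ (s (σ m)).target := by
          have := (s _).map_source (hs1 (σ m))
          rwa [h] at this
        have h3 : (s (σ m)).symm m = σ m := by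
          have := (s _).left_inv (hs1 (σ m))
          rwa [h] at this
        refine ⟨h2, ?_⟩
        change (s (σ m)).symm m ∈ (e (σ m)).source
        rw [h3]; exact he _
      chart_mem_atlas := fun m => ⟨_, rfl⟩ }
  refine ⟨inst, isManifold_of_contDiffOn _ _ _ ?_⟩
  rintro _ _ ⟨p, rfl⟩ ⟨p', rfl⟩ u hu
  refine ContDiffAt.contDiffWithinAt ?_
  obtain ⟨⟨⟨hu1, hu2⟩, hu3, hu4⟩, -⟩ := hu
  set x : Z := (e p).symm u with hx
  have hu1 : u ∈ (e p).target := hu1
  have hu3 : s p x ∈ (s p').target := hu3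
  set x' : Z := (s p').symm (s p x) with hx'
  have hπx : π x = π x' := by
    rw [hs2 p', (s p').right_inv hu3, ← hs2 p', hs2 p]
  obtain ⟨g, hg1, hg2, hg3⟩ := hG x x' hπx
  have hxu : x.1 = ψ p u := (hψ p u hu1).2
  have hcs : ContinuousAt (e p).symm u := (e p).continuousAt_symm hu1
  have h4 : ∀ᶠ y in 𝓝 x, ∀ h : g y.1 ∈ Z, (⟨g y.1, h⟩ : Z) ∈ (s p').source := by
    obtain ⟨O, hO, hO'⟩ := isOpen_induced_iff.1 (s p').open_source
    have h5 : g x.1 ∈ O := by
      rw [hg2]
      have : x' ∈ (s p').source := (s p').map_target hu3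
      rwa [← hO'] at this
    filter_upwards [(hg1.continuousAt.comp continuous_subtype_val.continuousAt)
      (hO.mem_nhds h5)] with y hy h
    rw [← hO']; exact hy
  have h6 : ContDiffAt ℝ ∞ (fun v => L p' (g (ψ p v))) u :=
    (L p').contDiff.contDiffAt.comp u ((hxu ▸ hg1).comp u (hψ p u hu1).1)
  refine h6.congr_of_eventuallyEq ?_
  filter_upwards [hcs hg3, hcs h4, (e p).open_target.mem_nhds hu1] with v ⟨h, hv1⟩ hv2 hv3
  change e p' ((s p').symm (s p ((e p).symm v))) = _
  rw [← hs2 p, ← hv1, hs2 p', (s p').left_inv (hv2 h), hL, ← (hψ p v hv3).2]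

end Pool.Agent.Lib.MP_c2693b_gt.Sm
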