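import Pool.Agent.Lib.MP_c2693b_gt.SmT

/-! Section 4: the set `Mh` is locally a regular level set. -/

set_option linter.unusedSectionVars false

open scoped BigOperators ContDiff Topology Classical
open Set Filter

namespace Pool.Agent.Lib.MP_c2693b_gt.Sm

open Ar Tri

variable {S : Type} [Fintype S] [DecidableEq S] (P : Piece S)

/-- the root of colour `φ` that vanishes at `y`. -/
noncomputable def rt (y : Col S → ℝ) (φ : Col S) : Col S → ℝ :=
  if h : Van P y φ then h.choose else 0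

variable {P}

theorem rt_mem {y φ} (h : Van P y φ) : rt P y φ ∈ P.R φ := by
  rw [rt, dif_pos h]; exact h.choose_spec.1

theorem rt_van (y φ) : q y (rt P y φ) = 0 := by
  by_cases h : Van P y φ
  · rw [rt, dif_pos h]; exact h.choose_spec.2
  · rw [rt, dif_neg h, map_zero]

theorem rt_eq {y φ ρ} (hy : y ∈ HH S) (hρ : ρ ∈ P.R φ) (h0 : q y ρ = 0) : rt P y φ = ρ :=
  P.uniq φ _ (rt_mem ⟨ρ, hρ, h0⟩) ρ hρ y hy (rt_van y φ) h0

theorem abs_gram {y φ ψ} (hy : y ∈ HH S) (h : Van P y φ) (h' : Van P y ψ) :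
    |q (rt P y φ) (rt P y ψ)| = |q (nu φ) (nu ψ)| := by
  rcases P.gram φ ψ _ (rt_mem h) _ (rt_mem h') y hy (rt_van y φ) (rt_van y ψ) with e | e
  · rw [e]
  · rw [e, abs_neg]

theorem z3_third : ∀ i j : ZMod 3, ∃ k : ZMod 3, ∀ l, l ≠ i → l ≠ j → i ≠ j → l = k := by decide

/-- vectors dual to the vanishing roots. -/
theorem dual {y} (hy : y ∈ HH S) (a : Col S → ℝ) :
    ∃ η, q η y = 0 ∧ ∀ φ, Van P y φ → q η (rt P y φ) = a φ := by
  let M : Matrix {φ // Van P y φ} {φ // Van P y φ} ℝ :=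
    Matrix.of fun b c => q (rt P y b.1) (rt P y c.1)
  obtain ⟨i0, hi0⟩ := P.not3 y hy
  have hi : ¬ Van P y (.inl i0) := fun ⟨ρ, h, h0⟩ => hi0 ρ h h0
  have hs : Real.sqrt 2 < 2 := (Real.sqrt_lt' two_pos).2 (by norm_num)
  have hd : M.det ≠ 0 := by
    refine det_ne_zero_of_sum_row_lt_diag fun b => ?_
    have h2 : ‖M b b‖ = 2 := by
      simp only [M, Matrix.of_apply, P.sq _ _ (rt_mem b.2)]; simp
    rw [h2]
    obtain ⟨φ, hφ⟩ := b
    rcases φ with i | s
    · obtain ⟨k, hk⟩ := z3_third i i0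
      refine lt_of_le_of_lt (Finset.sum_le_sum (g := fun c => if c.1 = .inl k then Real.sqrt 2 else 0)
        fun c hc => ?_) (lt_of_le_of_lt ?_ hs)
      · have hne := (Finset.mem_erase.1 hc).1
        obtain ⟨ψ, hψ⟩ := c
        simp only [M, Matrix.of_apply, Real.norm_eq_abs, abs_gram hy hφ hψ]
        rcases ψ with j | s
        · have h1 : j ≠ i := fun h => hne (by subst h; rfl)
          have h3 : j = k := hk j h1 (fun h => hi (h ▸ hψ)) (fun h => hi (h ▸ hφ))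
          rw [q_nu_inl h1.symm, abs_neg, abs_of_nonneg (Real.sqrt_nonneg _), if_pos (by rw [h3])]
        · rw [q_nu_inr (by simp), if_neg (by simp)]; simp
      · rw [← Finset.sum_filter, Finset.sum_const, nsmul_eq_mul]
        refine mul_le_of_le_one_left (Real.sqrt_nonneg _) ?_
        refine Nat.cast_le_one.2 (Finset.card_le_one.2 fun b hb c hc => Subtype.ext ?_)
        rw [(Finset.mem_filter.1 hb).2, (Finset.mem_filter.1 hc).2]
    · rw [Finset.sum_eq_zero]
      · norm_num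
      · intro c hc
        have hne := (Finset.mem_erase.1 hc).1
        simp only [M, Matrix.of_apply, Real.norm_eq_abs, abs_gram hy hφ c.2]
        rw [q_comm, q_nu_inr (fun h => hne (Subtype.ext h)), abs_zero]
  have hM : M.mulVec (M⁻¹.mulVec fun b => a b.1) = fun b => a b.1 := by
    rw [Matrix.mulVec_mulVec, Matrix.mul_nonsing_inv _ (Ne.isUnit hd), Matrix.one_mulVec]
  refine ⟨∑ c, (M⁻¹.mulVec fun b => a b.1) c • rt P y c.1, ?_, fun φ hφ => ?_⟩
  · rw [q_comm, map_sum]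
    exact Finset.sum_eq_zero fun c _ => by rw [map_smul, rt_van, smul_zero]
  · rw [q_comm, map_sum, ← congrFun hM ⟨φ, hφ⟩, Matrix.mulVec, dotProduct]
    exact Finset.sum_congr rfl fun c _ => by rw [map_smul, smul_eq_mul, mul_comm]; rfl

variable {W : Type} [Fintype W] {T : SimpleGraph W} {col : W → Col S}

theorem sum_col (hcol : ∀ w w', T.Adj w w' → col w ≠ col w') {z} (hz : z ∈ cone T) {w0}
    (h0 : z w0 ≠ 0) (f : W → ℝ) (hf : ∀ w, z w = 0 → f w = 0) :
    ∑ w with col w = col w0, f w = f w0 := by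
  refine Finset.sum_eq_single_of_mem w0 (by simp) fun w hw hne => hf w ?_
  by_contra hc
  exact hcol _ _ (hz.2 w w0 hne hc h0) (Finset.mem_filter.1 hw).2

theorem fderiv_van {y0 φ} (h0 : y0 ∈ Yt P) {F : Finset (Col S → ℝ)}
    (hF : ∀ φ, ∀ ρ ∈ P.R φ, ρ ∉ F → 1 ≤ q y0 ρ) (h : Van P y0 φ) : ∃ κ : ℝ, 0 < κ ∧ ∀ η,
      fderiv ℝ (fun y => ∏ ρ ∈ F with ρ ∈ P.R φ, chi (q y ρ)) y0 η = κ * q η (rt P y0 φ) := by
  have hm : rt P y0 φ ∈ F.filter (· ∈ P.R φ) := by
    refine Finset.mem_filter.2 ⟨?_, rt_mem h⟩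
    by_contra hc
    have := hF φ _ (rt_mem h) hc
    rw [rt_van] at this
    linarith
  set G := (F.filter (· ∈ P.R φ)).erase (rt P y0 φ) with hG
  refine ⟨∏ ρ ∈ G, chi (q y0 ρ), Finset.prod_pos fun ρ hρ => chi_pos ?_, fun η => ?_⟩
  · obtain ⟨h1, h2⟩ := Finset.mem_erase.1 hρ
    have h3 := (Finset.mem_filter.1 h2).2
    exact (h0.2 φ ρ h3).lt_of_ne fun e => h1 (rt_eq h0.1 h3 e.symm).symm
  · have e : (fun y => ∏ ρ ∈ F with ρ ∈ P.R φ, chi (q y ρ)) =ᶠ[𝓝 y0]
        fun y => q y (rt P y0 φ) * ∏ ρ ∈ G, chi (q y ρ) := by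
      have : ∀ᶠ y in 𝓝 y0, q y (rt P y0 φ) < 1 / 2 :=
        (cont_q _).continuous.continuousAt.eventually_lt continuousAt_const
          (by rw [rt_van]; norm_num)
      filter_upwards [this] with y hy
      rw [← Finset.mul_prod_erase _ _ hm, chi_of_le hy.le]
    have d1 : HasFDerivAt (fun y : Col S → ℝ => q y (rt P y0 φ))
        (LinearMap.toContinuousLinearMap (q.flip (rt P y0 φ))) y0 :=
      (LinearMap.toContinuousLinearMap (q.flip (rt P y0 φ))).hasFDerivAt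
    have d2 := ((prod_smooth G).differentiable (by simp) y0).hasFDerivAt
    rw [e.fderiv_eq, (d1.fun_mul d2).fderiv]
    simp [rt_van]

theorem hasFDerivAt_qq (y : Col S → ℝ) : HasFDerivAt (fun y : Col S → ℝ => q y y)
    ((2 : ℝ) • LinearMap.toContinuousLinearMap (q.flip y)) y := by
  let f : (Col S → ℝ) →ₗ[ℝ] (Col S → ℝ) →L[ℝ] ℝ :=
    (LinearMap.toContinuousLinearMap (𝕜 := ℝ) (E := Col S → ℝ) (F' := ℝ)).toLinearMap ∘ₗ q
  have := (LinearMap.toContinuousLinearMap f).hasFDerivAt.clm_apply (hasFDerivAt_id y) (x := y)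
  refine HasFDerivAt.congr_fderiv this ?_
  ext η
  simp [f, q_comm η y, two_mul]

/-- the pull back of `Mh` by the smooth chart is locally a regular level set. -/
theorem sub {E : Type} [NormedAddCommGroup E] [NormedSpace ℝ E]
    (hcol : ∀ w w', T.Adj w w' → col w ≠ col w') (sm : SM T E) :
    ∀ p ∈ {p : E × (Col S → ℝ) | (sm.h p.1, p.2) ∈ Mh P T col},
      ∃ (U : Set (E × (Col S → ℝ))) (f : E × (Col S → ℝ) → ℝ × (Col S → ℝ)), IsOpen U ∧ p ∈ U ∧
        ContDiffOn ℝ ∞ f U ∧ Function.Surjective (fderiv ℝ f p) ∧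
        ∀ x ∈ U, x ∈ {p : E × (Col S → ℝ) | (sm.h p.1, p.2) ∈ Mh P T col} ↔ f x = 0 := by
  rintro ⟨x0, y0⟩ ⟨-, h0, hs⟩
  obtain ⟨F, hF⟩ := near h0
  have e1 : ∀ᶠ y in 𝓝 y0, TT y < 0 :=
    cont_TT.continuous.continuousAt.eventually_lt continuousAt_const h0.1.2
  have e2 : ∀ᶠ y in 𝓝 y0, ∀ ρ ∈ F, 0 < q y0 ρ → 0 < q y ρ := by
    refine (Finset.eventually_all F).2 fun ρ _ => ?_
    by_cases h : 0 < q y0 ρ
    · exact (continuousAt_const.eventually_lt (cont_q ρ).continuous.continuousAt h).mono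
        fun _ h _ => h
    · exact Eventually.of_forall fun _ h' => absurd h' h
  obtain ⟨U, hU, hUo, hU0⟩ := eventually_nhds_iff.1 (hF.and (e1.and e2))
  let Tf : Col S → (Col S → ℝ) → ℝ := fun φ y => ∏ ρ ∈ F with ρ ∈ P.R φ, chi (q y ρ)
  have hT : ∀ φ, ContDiff ℝ ∞ (Tf φ) := fun φ => prod_smooth _
  refine ⟨Prod.snd ⁻¹' U, fun x => (q x.2 x.2 + 1, fun φ => ∑ w with col w = φ, sm.h x.1 w - Tf φ x.2),
    hUo.preimage continuous_snd, hU0, ContDiff.contDiffOn ?_, ?_, ?_⟩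
  · exact ((cont_qq.comp contDiff_snd).add contDiff_const).prodMk (contDiff_pi.2 fun φ =>
      (ContDiff.sum fun w _ => (sm.smooth w).comp contDiff_fst).sub ((hT φ).comp contDiff_snd))
  · have d1 := ((hasFDerivAt_qq y0).comp (x0, y0) (hasFDerivAt_snd (𝕜 := ℝ))).add_const 1
    have d2 : ∀ φ, HasFDerivAt (fun x : E × (Col S → ℝ) => ∑ w with col w = φ, sm.h x.1 w - Tf φ x.2)
        (∑ w with col w = φ, (fderiv ℝ (fun y => sm.h y w) x0).comp (.fst ℝ _ _) -
          (fderiv ℝ (Tf φ) y0).comp (.snd ℝ _ _)) (x0, y0) := fun φ =>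
      HasFDerivAt.fun_sub (HasFDerivAt.fun_sum fun w _ => HasFDerivAt.comp (g := fun y => sm.h y w)
        (x0, y0) ((sm.smooth w).differentiable (by simp) x0).hasFDerivAt hasFDerivAt_fst)
        (HasFDerivAt.comp (g := Tf φ) (x0, y0) ((hT φ).differentiable (by simp) y0).hasFDerivAt
          hasFDerivAt_snd)
    have d3 := d1.prodMk (hasFDerivAt_pi.2 d2)
    rintro ⟨c0, c⟩
    have hk := fun φ => fderiv_van (φ := φ) h0 hF.self_of_nhds
    choose! κ hκ hκ' using hk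
    obtain ⟨η1, hη, hη'⟩ := dual (P := P) h0.1 fun φ => -c φ / κ φ
    obtain ⟨ξ, hξ⟩ := sm.onto x0 fun w => c (col w) + fderiv ℝ (Tf (col w)) y0 (η1 - (c0 / 2) • y0)
    have hz : ∀ w, sm.h x0 w = 0 → fderiv ℝ (fun y => sm.h y w) x0 ξ = 0 := fun w hw => by
      have : IsLocalMin (fun y => sm.h y w) x0 :=
        Eventually.of_forall fun y => hw.le.trans ((sm.mem y).1 w)
      rw [this.fderiv_eq_zero]; rfl
    refine ⟨(ξ, η1 - (c0 / 2) • y0), ?_⟩
    erw [d3.fderiv]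
    refine Prod.ext ?_ (funext fun φ => ?_)
    · simp [hη, h0.1.1]; ring
    · simp only [ContinuousLinearMap.prod_apply, ContinuousLinearMap.pi_apply,
        sub_apply, sum_apply, ContinuousLinearMap.comp_apply,
        ContinuousLinearMap.coe_fst', ContinuousLinearMap.coe_snd']
      by_cases hv : Van P y0 φ
      · have h1 := hs φ
        rw [(tt_eq_zero h0).2 hv, Finset.sum_eq_zero_iff_of_nonneg fun w _ => (sm.mem x0).1 w] at h1
        rw [Finset.sum_eq_zero fun w hw => hz w (h1 w hw), hκ' φ hv, map_sub, LinearMap.sub_apply,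
          hη' φ hv, map_smul, LinearMap.smul_apply, rt_van]
        have := (hκ φ hv).ne'
        simp only [smul_zero, sub_zero]
        field_simp
        ring
      · have h1 := hs φ
        have h2 := ((tt_pos h0).2 hv).ne'
        rw [← h1] at h2
        obtain ⟨w0, hw0, hw⟩ := Finset.exists_ne_zero_of_sum_ne_zero h2
        obtain rfl := (Finset.mem_filter.1 hw0).2
        rw [sum_col hcol (sm.mem x0) hw _ hz, hξ w0 hw]
        ring
  · rintro ⟨x, y⟩ hx
    obtain ⟨h1, h2, h3⟩ := hU y hx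
    refine ⟨fun h => Prod.ext ?_ (funext fun φ => ?_), fun h => ?_⟩
    · simp [show q y y = -1 from h.2.1.1.1]
    · have := h.2.2 φ
      rw [tt_eq h1] at this
      exact sub_eq_zero.2 this
    · have h4 : q y y = -1 := by have := congrArg Prod.fst h; simp at this; linarith
      have h5 : ∀ φ, ∑ w with col w = φ, sm.h x w = Tf φ y := fun φ =>
        sub_eq_zero.1 (congrFun (congrArg Prod.snd h) φ)
      refine ⟨sm.mem x, ⟨⟨h4, h2⟩, fun φ ρ hρ => ?_⟩, fun φ => by rw [tt_eq h1]; exact h5 φ⟩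
      by_cases hm : ρ ∈ F
      swap
      · exact zero_le_one.trans (h1 φ ρ hρ hm)
      rcases (h0.2 φ ρ hρ).eq_or_lt with e | e
      swap
      · exact (h3 ρ hm e).le
      have h6 : 0 ≤ Tf φ y := by rw [← h5]; exact Finset.sum_nonneg fun w _ => (sm.mem x).1 w
      have hm' : ρ ∈ F.filter (· ∈ P.R φ) := Finset.mem_filter.2 ⟨hm, hρ⟩
      simp only [Tf] at h6
      rw [← Finset.mul_prod_erase _ _ hm'] at h6
      refine chi_nonneg_iff.1 (nonneg_of_mul_nonneg_left h6 (Finset.prod_pos fun ρ' h' => chi_pos ?_))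
      obtain ⟨a1, a2⟩ := Finset.mem_erase.1 h'
      obtain ⟨a3, a4⟩ := Finset.mem_filter.1 a2
      exact h3 ρ' a3 ((h0.2 φ ρ' a4).lt_of_ne fun e' =>
        a1 (P.uniq φ _ a4 _ hρ y0 h0.1 e'.symm e.symm))

end Pool.Agent.Lib.MP_c2693b_gt.Sm
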