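import Pool.Agent.Lib.MP_c2693b_gt.TeChart
import Pool.Agent.Lib.MP_c2693b_gt.Cone

namespace Pool.Agent.Lib.MP_c2693b_gt.Tf

open Set ConeAlg

variable {F : Type*} [NormedAddCommGroup F] [NormedSpace ℝ F]

/-- The sum norm on the half space. -/
def mm (x : ℝ × F) : ℝ := x.1 + ‖x.2‖

/-- The distance of the direction of `x` from the axis. -/
noncomputable def ph (x : ℝ × F) : ℝ := ‖x.2‖ / mm x

/-- The new radius. -/
noncomputable def NN (k : ℝ) (x : ℝ × F) : ℝ := mm x * Real.exp (-(k * ph x))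

omit [NormedSpace ℝ F] in
theorem norm_le_mm {x : ℝ × F} (hx : x ∈ Hf F) : ‖x‖ ≤ mm x := by
  have h : 0 ≤ x.1 := hx
  rw [Prod.norm_def, Real.norm_eq_abs, abs_of_nonneg h, mm]
  exact max_le (by linarith [norm_nonneg x.2]) (by linarith)

omit [NormedSpace ℝ F] in
theorem mm_le (x : ℝ × F) : mm x ≤ 2 * ‖x‖ := by
  have h1 := norm_fst_le x
  have h2 := norm_snd_le x
  rw [Real.norm_eq_abs] at h1
  have := le_abs_self x.1
  rw [mm]; linarith

omit [NormedSpace ℝ F] in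
theorem mm_nonneg {x : ℝ × F} (hx : x ∈ Hf F) : 0 ≤ mm x := (norm_nonneg x).trans (norm_le_mm hx)

omit [NormedSpace ℝ F] in
theorem snd_lip (x y : ℝ × F) : |‖x.2‖ - ‖y.2‖| ≤ dist x y :=
  (abs_norm_sub_norm_le _ _).trans (by rw [← dist_eq_norm]; exact le_max_right _ _)

omit [NormedSpace ℝ F] in
theorem mm_lip (x y : ℝ × F) : |mm x - mm y| ≤ 2 * dist x y := by
  have h1 : |x.1 - y.1| ≤ dist x y := by rw [← Real.dist_eq]; exact le_max_left _ _
  have h2 := snd_lip x y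
  have := abs_add_le (x.1 - y.1) (‖x.2‖ - ‖y.2‖)
  rw [mm, mm, show x.1 + ‖x.2‖ - (y.1 + ‖y.2‖) = x.1 - y.1 + (‖x.2‖ - ‖y.2‖) by ring]
  linarith

theorem mm_smul {l : ℝ} (hl : 0 ≤ l) (x : ℝ × F) : mm (l • x) = l * mm x := by
  simp [mm, norm_smul, abs_of_nonneg hl, mul_add]

omit [NormedSpace ℝ F] in
theorem ph_mem {x : ℝ × F} (hx : x ∈ Hf F) : 0 ≤ ph x ∧ ph x ≤ 1 ∧ ph x * mm x = ‖x.2‖ := by
  have h : 0 ≤ x.1 := hx
  have h1 : ‖x.2‖ ≤ mm x := by rw [mm]; linarith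
  refine ⟨div_nonneg (norm_nonneg _) (mm_nonneg hx), div_le_one_of_le₀ h1 (mm_nonneg hx), ?_⟩
  rcases (mm_nonneg hx).eq_or_lt with e | e
  · rw [← e] at h1 ⊢
    rw [mul_zero]; exact le_antisymm (norm_nonneg _) h1
  · rw [ph]; field_simp

theorem ph_smul {l : ℝ} (hl : 0 < l) (x : ℝ × F) : ph (l • x) = ph x := by
  rw [ph, ph, mm_smul hl.le, Prod.smul_snd, norm_smul, Real.norm_eq_abs, abs_of_pos hl,
    mul_div_mul_left _ _ hl.ne']

theorem NN_smul (k : ℝ) {l : ℝ} (hl : 0 < l) (x : ℝ × F) : NN k (l • x) = l * NN k x := by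
  rw [NN, NN, mm_smul hl.le, ph_smul hl, mul_assoc]

theorem exp_neg_lip {a c : ℝ} (ha : 0 ≤ a) (hc : 0 ≤ c) :
    |Real.exp (-a) - Real.exp (-c)| ≤ |a - c| := by
  have key : ∀ a c : ℝ, 0 ≤ a → a ≤ c → |Real.exp (-a) - Real.exp (-c)| ≤ |a - c| := by
    intro a c ha hc
    have h1 : Real.exp (-c) = Real.exp (-a) * Real.exp (-(c - a)) := by
      rw [← Real.exp_add]; congr 1; ring
    have h2 := Real.add_one_le_exp (-(c - a))
    have h3 : Real.exp (-a) ≤ 1 := Real.exp_le_one_iff.2 (by linarith)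
    have h4 := Real.exp_pos (-a)
    have h5 : Real.exp (-c) ≤ Real.exp (-a) := Real.exp_le_exp.2 (by linarith)
    rw [abs_of_nonneg (by linarith), abs_of_nonpos (by linarith), h1]
    nlinarith
  rcases le_total a c with h | h
  · exact key a c ha h
  · rw [abs_sub_comm, abs_sub_comm a]; exact key c a hc h

omit [NormedSpace ℝ F] in
theorem NN_bd {k : ℝ} (hk : 0 ≤ k) {x : ℝ × F} (hx : x ∈ Hf F) :
    0 ≤ NN k x ∧ NN k x ≤ mm x ∧ mm x ≤ Real.exp k * NN k x := by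
  obtain ⟨a, c, -⟩ := ph_mem hx
  have m := mm_nonneg hx
  have h1 : Real.exp (-(k * ph x)) ≤ 1 := Real.exp_le_one_iff.2 (by nlinarith)
  have h2 : 1 ≤ Real.exp k * Real.exp (-(k * ph x)) := by
    rw [← Real.exp_add]; exact Real.one_le_exp (by nlinarith)
  have h3 := Real.exp_pos (-(k * ph x))
  rw [NN]
  exact ⟨by positivity, by nlinarith, by nlinarith⟩

omit [NormedSpace ℝ F] in
theorem NN_lip {k : ℝ} (hk : 0 ≤ k) {x y : ℝ × F} (hx : x ∈ Hf F) (hy : y ∈ Hf F) :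
    |NN k x - NN k y| ≤ (2 + 3 * k) * dist x y := by
  obtain ⟨a, c, e⟩ := ph_mem hx
  obtain ⟨a', c', e'⟩ := ph_mem hy
  have m := mm_nonneg hy
  have h1 : Real.exp (-(k * ph x)) ≤ 1 := Real.exp_le_one_iff.2 (by nlinarith)
  have h3 := Real.exp_pos (-(k * ph x))
  have h4 := exp_neg_lip (mul_nonneg hk a) (mul_nonneg hk a')
  have h5 : mm y * |ph x - ph y| ≤ 3 * dist x y := by
    rw [← abs_of_nonneg m, ← abs_mul,
      show mm y * (ph x - ph y) = ph x * (mm y - mm x) + (‖x.2‖ - ‖y.2‖) by linarith]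
    refine (abs_add_le _ _).trans ?_
    rw [abs_mul, abs_of_nonneg a, abs_sub_comm]
    have := mm_lip x y
    have := snd_lip x y
    have := abs_nonneg (mm x - mm y)
    nlinarith
  rw [← mul_sub, abs_mul, abs_of_nonneg hk] at h4
  rw [NN, NN, show mm x * Real.exp (-(k * ph x)) - mm y * Real.exp (-(k * ph y)) =
    (mm x - mm y) * Real.exp (-(k * ph x)) +
      mm y * (Real.exp (-(k * ph x)) - Real.exp (-(k * ph y))) by ring]
  refine (abs_add_le _ _).trans ?_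
  rw [abs_mul, abs_mul, abs_of_pos h3, abs_of_nonneg m]
  have h6 := mm_lip x y
  have h7 := abs_nonneg (mm x - mm y)
  have h8 := mul_le_mul_of_nonneg_left h4 m
  have h9 := mul_le_mul_of_nonneg_left h5 hk
  nlinarith

/-- Rescaling by two comparable homogeneous functions. -/
theorem bl_rescale {α β : ℝ × F → ℝ} {A : ℝ} (hA : 0 ≤ A)
    (a0 : ∀ x ∈ Hf F, 0 ≤ α x) (b0 : ∀ x ∈ Hf F, 0 ≤ β x)
    (a1 : ∀ x ∈ Hf F, α x ≤ A * β x) (b1 : ∀ x ∈ Hf F, β x ≤ A * α x)
    (a2 : ∀ x ∈ Hf F, ‖x‖ ≤ A * α x) (b2 : ∀ x ∈ Hf F, ‖x‖ ≤ A * β x)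
    (hα : ∀ x ∈ Hf F, ∀ y ∈ Hf F, |α x - α y| ≤ A * dist x y)
    (hβ : ∀ x ∈ Hf F, ∀ y ∈ Hf F, |β x - β y| ≤ A * dist x y)
    (sα : ∀ l, 0 < l → ∀ x ∈ Hf F, α (l • x) = l * α x)
    (sβ : ∀ l, 0 < l → ∀ x ∈ Hf F, β (l • x) = l * β x) :
    BL (Hf F) (Hf F) (fun x => (α x / β x) • x) (fun x => (β x / α x) • x) := by
  have key : ∀ α β : ℝ × F → ℝ, (∀ x ∈ Hf F, 0 ≤ α x) → (∀ x ∈ Hf F, 0 ≤ β x) →
      (∀ x ∈ Hf F, ‖x‖ ≤ A * α x) → (∀ x ∈ Hf F, ‖x‖ ≤ A * β x) →
      (∀ l, 0 < l → ∀ x ∈ Hf F, α (l • x) = l * α x) →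
      (∀ l, 0 < l → ∀ x ∈ Hf F, β (l • x) = l * β x) →
      ∀ x ∈ Hf F, (β ((α x / β x) • x) / α ((α x / β x) • x)) • (α x / β x) • x = x := by
    intro α β a0 b0 a2 b2 sα sβ x hx
    by_cases h : x = 0
    · rw [h]; simp
    have n := norm_pos_iff.2 h
    have pa : 0 < α x := (a0 x hx).lt_of_ne fun e => by
      have := a2 x hx; rw [← e] at this; linarith
    have pb : 0 < β x := (b0 x hx).lt_of_ne fun e => by
      have := b2 x hx; rw [← e] at this; linarith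
    have r := div_pos pa pb
    rw [sα _ r x hx, sβ _ r x hx, smul_smul, mul_div_mul_left _ _ r.ne',
      show β x / α x * (α x / β x) = 1 by field_simp, one_smul]
  exact
    { mf := fun x hx => smul_mem_Hf (div_nonneg (a0 x hx) (b0 x hx)) hx
      mg := fun x hx => smul_mem_Hf (div_nonneg (b0 x hx) (a0 x hx)) hx
      gf := key α β a0 b0 a2 b2 sα sβ
      fg := key β α b0 a0 b2 a2 sβ sα
      lf := ratio_lip hA a0 a1 b2 b0 hα hβ
      lg := ratio_lip hA b0 b1 a2 a0 hβ hα }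

/-- A bi-Lipschitz homogeneous chart of the cap gives almost radial tracks. -/
theorem cap {C : Type*} [ConeAlg C] {b : C → ℝ} (hb : Lp 1 b)
    (hbs : ∀ l, 0 ≤ l → ∀ z, b (sm l z) = l * b z) {c κ : ℝ} (hκ : 0 < κ) (h1 : 1 < κ * c)
    {J : ℝ × F → C} {I : C → ℝ × F} (h : BL (Hf F) {z | c * nm z ≤ b z} J I)
    (hom : ∀ l, 0 < l → ∀ x ∈ Hf F, sm l (J x) = J (l • x))
    (hB : ∀ x ∈ Hf F, b (J x) = c * nm (J x) ↔ x.1 = 0) :
    ∃ R, Trk b (fun l : {l : ℝ // 0 < l} => sm l.1) κ {z | c * nm z ≤ b z} {z | b z = c * nm z} ∅ R ∧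
      Reach R {z | c * nm z ≤ b z} {z | b z = c * nm z} := by
  obtain ⟨K, k0, hK⟩ := h.lf
  obtain ⟨L, l0, hL⟩ := h.lg
  have z0 : (0 : ℝ × F) ∈ Hf F := le_refl (0 : ℝ)
  have J0 : J 0 = o := by
    have e := hom 2 two_pos 0 z0
    rw [smul_zero] at e
    have := nm_sm (zero_le_two (α := ℝ)) (J 0)
    rw [e] at this
    exact nm_eq_zero.1 (by linarith)
  set ν : ℝ × F → ℝ := fun x => nm (J x) with hν
  have n0 : ∀ x ∈ Hf F, 0 ≤ ν x := fun x _ => nm_nonneg _
  have n1 : ∀ x ∈ Hf F, ν x ≤ K * ‖x‖ := fun x hx => by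
    have := hK x hx 0 z0
    rwa [J0, dist_zero_right] at this
  have n2 : ∀ x ∈ Hf F, ‖x‖ ≤ L * ν x := fun x hx => by
    have := hL _ (h.mf x hx) _ (h.mf 0 z0)
    rwa [h.gf x hx, h.gf 0 z0, J0, dist_zero_right] at this
  have n3 : ∀ x ∈ Hf F, ∀ y ∈ Hf F, |ν x - ν y| ≤ K * dist x y := fun x hx y hy =>
    (abs_dist_sub_le _ _ _).trans (hK x hx y hy)
  have n4 : ∀ l, 0 < l → ∀ x ∈ Hf F, ν (l • x) = l * ν x := fun l hl x hx => by
    simp only [hν]; rw [← hom l hl x hx, nm_sm hl.le]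
  have up : ∀ {a a' t t' : ℝ}, t ≤ a * t' → a ≤ a' → 0 ≤ t' → t ≤ a' * t' := fun e1 e2 e3 =>
    e1.trans (mul_le_mul_of_nonneg_right e2 e3)
  obtain ⟨M, m0, hM⟩ := ratio_lip (S := Hf F) (α := mm) (β := ν) (A := 2 * L + K + 2)
    (by positivity) (fun x hx => mm_nonneg hx)
    (fun x hx => up (a := 2 * L) (by linarith [mm_le x, n2 x hx]) (by linarith) (n0 x hx))
    (fun x hx => up (n2 x hx) (by linarith) (n0 x hx)) n0
    (fun x _ y _ => up (mm_lip x y) (by linarith) dist_nonneg)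
    (fun x hx y hy => up (n3 x hx y hy) (by linarith) dist_nonneg)
  have c0 : 0 < c := by by_contra e; nlinarith
  set η := (κ * c - 1) / (1 + κ) with hη
  have η0 : 0 < η := div_pos (by linarith) (by linarith)
  have η1 : η * (1 + κ) = κ * c - 1 := by rw [hη]; field_simp
  set k := K * M / η with hk
  have kk : 0 ≤ k := by positivity
  have k1 : η * k = K * M := by rw [hk]; field_simp
  have ek := Real.exp_pos k
  have hG := bl_rescale (α := NN k) (β := ν)
    (A := 2 * L + K + 2 + 3 * k + Real.exp k + K * Real.exp k) (by positivity)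
    (fun x hx => (NN_bd kk hx).1) n0
    (fun x hx => up (a := 2 * L) (by linarith [mm_le x, n2 x hx, (NN_bd kk hx).2.1])
      (by nlinarith) (n0 x hx))
    (fun x hx => up (a := K * Real.exp k) (by
      have := mul_le_mul_of_nonneg_left ((norm_le_mm hx).trans (NN_bd kk hx).2.2) k0
      linarith [n1 x hx]) (by nlinarith) (NN_bd kk hx).1)
    (fun x hx => up ((norm_le_mm hx).trans (NN_bd kk hx).2.2) (by nlinarith) (NN_bd kk hx).1)
    (fun x hx => up (n2 x hx) (by nlinarith) (n0 x hx))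
    (fun x hx y hy => up (NN_lip kk hx hy) (by nlinarith) dist_nonneg)
    (fun x hx y hy => up (n3 x hx y hy) (by nlinarith) dist_nonneg)
    (fun l hl x _ => NN_smul k hl x) n4
  have pos : ∀ x ∈ Hf F, x ≠ 0 → 0 < mm x ∧ 0 < ν x ∧ 0 < NN k x := by
    intro x hx h0
    have n := norm_pos_iff.2 h0
    have a := n.trans_le (norm_le_mm hx)
    refine ⟨a, (n0 x hx).lt_of_ne fun e => ?_, by rw [NN]; positivity⟩
    have := n2 x hx
    rw [← e] at this; linarith
  refine trk_of_chart (w := fun l : {l : ℝ // 0 < l} => l.1) (hG.trans h) hκ hb (fun l => l.2)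
    ?_ (fun z hz => le_of_eq (Eq.symm hz)) ?_ ?_
  · intro l x hx
    rw [hom l l.2 _ (hG.mf x hx), NN_smul k l.2, n4 l l.2 x hx, mul_div_mul_left _ _ l.2.ne',
      smul_comm]
  · intro x hx
    refine (hB _ (hG.mf x hx)).trans ?_
    by_cases h0 : x = 0
    · rw [h0]; simp
    · obtain ⟨-, a, c⟩ := pos x hx h0
      rw [Prod.smul_fst, smul_eq_mul, mul_eq_zero, or_iff_right (div_pos c a).ne']
  · intro u s s' hs hss
    have hx : (s, u) ∈ Hf F := hs
    have hy : (s', u) ∈ Hf F := hs.trans hss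
    by_cases h0 : (s, u) = 0
    · have h2 : c * nm _ ≤ b _ := h.mf _ (hG.mf _ hy)
      have h3 : b o = 0 := by have := hbs 0 le_rfl o; rwa [sm_zero, zero_mul] at this
      rw [h0, smul_zero, J0, h3, dist_comm, sub_zero]
      have h4 := nm_nonneg (J ((NN k (s', u) / ν (s', u)) • (s', u)))
      change nm _ ≤ _
      nlinarith
    have h0' : (s', u) ≠ 0 := fun e => h0 (by
      rw [Prod.mk_eq_zero] at e ⊢
      exact ⟨le_antisymm (e.1 ▸ hss) hs, e.2⟩)
    set x := (s, u) with ex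
    set y := (s', u) with ey
    obtain ⟨a1, a2, a3⟩ := pos x hx h0
    obtain ⟨b1, b2, b3⟩ := pos y hy h0'
    have unit : ∀ x ∈ Hf F, 0 < mm x → 0 < ν x → 0 < NN k x →
        J ((NN k x / ν x) • x) = sm (NN k x) (J ((1 / ν x) • x)) ∧ nm (J ((1 / ν x) • x)) = 1 ∧
          c ≤ b (J ((1 / ν x) • x)) ∧
          (mm ((1 / mm x) • x) / ν ((1 / mm x) • x)) • (1 / mm x) • x = (1 / ν x) • x := by
      intro x hx a1 a2 a3
      have m := smul_mem_Hf (one_div_pos.2 a2).le hx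
      have e : nm (J ((1 / ν x) • x)) = 1 := (n4 _ (one_div_pos.2 a2) x hx).trans (by field_simp)
      have m2 : c * nm _ ≤ b _ := h.mf _ m
      refine ⟨by rw [hom _ a3 _ m, smul_smul, mul_one_div], e, by rwa [e, mul_one] at m2, ?_⟩
      rw [mm_smul (one_div_pos.2 a1).le, n4 _ (one_div_pos.2 a1) x hx, smul_smul]
      congr 1; field_simp
    obtain ⟨x1, x2, x3, x4⟩ := unit x hx a1 a2 a3
    obtain ⟨y1, y2, y3, y4⟩ := unit y hy b1 b2 b3
    have mxy : mm x ≤ mm y := by simp only [mm, ex, ey]; linarith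
    have dph : ph x - ph y = ‖u‖ * (1 / mm x - 1 / mm y) := by simp only [ph, ex, ey]; ring
    have inv : 0 ≤ 1 / mm x - 1 / mm y := sub_nonneg.2 (one_div_le_one_div_of_le a1 mxy)
    have dp0 : 0 ≤ ph x - ph y := by rw [dph]; positivity
    have dd : dist ((1 / mm x) • x) ((1 / mm y) • y) ≤ ph x - ph y := by
      rw [Prod.dist_eq]
      refine max_le ?_ ?_
      · have e1 : ((1 / mm x) • x).1 = 1 - ph x := by
          rw [Prod.smul_fst, smul_eq_mul, ph]; field_simp; simp [mm]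
        have e2 : ((1 / mm y) • y).1 = 1 - ph y := by
          rw [Prod.smul_fst, smul_eq_mul, ph]; field_simp; simp [mm]
        rw [e1, e2, Real.dist_eq, abs_of_nonpos (by linarith)]
        linarith
      · change dist ((1 / mm x) • u) ((1 / mm y) • u) ≤ _
        rw [dist_eq_norm, ← sub_smul, norm_smul, Real.norm_eq_abs, abs_of_nonneg inv, dph, mul_comm]
    have d1 := hM _ (smul_mem_Hf (one_div_pos.2 a1).le hx) _ (smul_mem_Hf (one_div_pos.2 b1).le hy)
    rw [x4, y4] at d1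
    have d2 := hK _ (smul_mem_Hf (one_div_pos.2 a2).le hx) _ (smul_mem_Hf (one_div_pos.2 b2).le hy)
    rw [x1, y1]
    set ω := J ((1 / ν x) • x)
    set ω' := J ((1 / ν y) • y)
    have d3 : dist ω ω' ≤ η * k * (ph x - ph y) := by
      rw [k1, mul_assoc]
      exact d2.trans (mul_le_mul_of_nonneg_left (d1.trans (mul_le_mul_of_nonneg_left dd m0)) k0)
    have g1 : NN k x * (k * (ph x - ph y)) ≤ NN k y - NN k x := by
      have e1 : Real.exp (-(k * ph y)) = Real.exp (-(k * ph x)) * Real.exp (k * (ph x - ph y)) := by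
        rw [← Real.exp_add]; congr 1; ring
      have e2 := Real.add_one_le_exp (k * (ph x - ph y))
      have e3 := mul_le_mul_of_nonneg_right mxy (Real.exp_pos (-(k * ph y))).le
      have e4 := mul_le_mul_of_nonneg_left e2 a3.le
      have e5 : NN k x * Real.exp (k * (ph x - ph y)) = mm x * Real.exp (-(k * ph y)) := by
        rw [e1, NN]; ring
      have e6 : NN k y = mm y * Real.exp (-(k * ph y)) := rfl
      linarith
    have g0 : 0 ≤ NN k y - NN k x := le_trans (by positivity) g1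
    have g2 : NN k x * dist ω ω' ≤ η * (NN k y - NN k x) := by
      have := mul_le_mul_of_nonneg_left d3 a3.le
      have := mul_le_mul_of_nonneg_left g1 η0.le
      nlinarith
    have t1 := dist_triangle (sm (NN k x) ω) (sm (NN k x) ω') (sm (NN k y) ω')
    rw [dist_sm a3.le, dist_sm_sm a3.le b3.le, y2, abs_of_nonpos (by linarith)] at t1
    rw [hbs _ a3.le, hbs _ b3.le]
    have t2 := mul_le_mul_of_nonneg_left (hb ω ω') a3.le
    have t3 := mul_le_mul_of_nonneg_left y3 g0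
    have t4 : (c - η) * (NN k y - NN k x) ≤ NN k y * b ω' - NN k x * b ω := by nlinarith
    have t5 := mul_le_mul_of_nonneg_left t4 hκ.le
    have t6 : κ * ((c - η) * (NN k y - NN k x)) = (1 + η) * (NN k y - NN k x) := by
      rw [← mul_assoc]; congr 1; linarith
    nlinarith

end Pool.Agent.Lib.MP_c2693b_gt.Tf
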