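import Pool.Agent.Lib.MP_c2693b_gt.TrDefs

namespace Pool.Agent.Lib.MP_c2693b_gt.Tf

open Set

/-- `f` and `g` are mutually inverse Lipschitz maps between `A` and `B`. -/
structure BL {X Y : Type*} [PseudoMetricSpace X] [PseudoMetricSpace Y] (A : Set X) (B : Set Y)
    (f : X → Y) (g : Y → X) : Prop where
  mf : ∀ x ∈ A, f x ∈ B
  mg : ∀ y ∈ B, g y ∈ A
  gf : ∀ x ∈ A, g (f x) = x
  fg : ∀ y ∈ B, f (g y) = y
  lf : ∃ K, 0 ≤ K ∧ ∀ x ∈ A, ∀ x' ∈ A, dist (f x) (f x') ≤ K * dist x x'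
  lg : ∃ K, 0 ≤ K ∧ ∀ y ∈ B, ∀ y' ∈ B, dist (g y) (g y') ≤ K * dist y y'

theorem BL.trans {X Y Z : Type*} [PseudoMetricSpace X] [PseudoMetricSpace Y] [PseudoMetricSpace Z]
    {A : Set X} {B : Set Y} {C : Set Z} {f : X → Y} {g : Y → X} {f' : Y → Z} {g' : Z → Y}
    (h : BL A B f g) (h' : BL B C f' g') : BL A C (fun x => f' (f x)) (fun z => g (g' z)) where
  mf := fun x hx => h'.mf _ (h.mf x hx)
  mg := fun z hz => h.mg _ (h'.mg z hz)
  gf := fun x hx => by rw [h'.gf _ (h.mf x hx), h.gf x hx]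
  fg := fun z hz => by rw [h.fg _ (h'.mg z hz), h'.fg z hz]
  lf := by
    obtain ⟨K, k0, hK⟩ := h.lf
    obtain ⟨L, l0, hL⟩ := h'.lf
    refine ⟨L * K, mul_nonneg l0 k0, fun x hx x' hx' => ?_⟩
    refine (hL _ (h.mf x hx) _ (h.mf x' hx')).trans ?_
    rw [mul_assoc]
    exact mul_le_mul_of_nonneg_left (hK x hx x' hx') l0
  lg := by
    obtain ⟨K, k0, hK⟩ := h.lg
    obtain ⟨L, l0, hL⟩ := h'.lg
    refine ⟨K * L, mul_nonneg k0 l0, fun x hx x' hx' => ?_⟩
    refine (hK _ (h'.mg x hx) _ (h'.mg x' hx')).trans ?_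
    rw [mul_assoc]
    exact mul_le_mul_of_nonneg_left (hL x hx x' hx') k0

theorem BL.restrict {X Y : Type*} [PseudoMetricSpace X] [PseudoMetricSpace Y]
    {f : X → Y} {g : Y → X} (h : BL univ univ f g) {A : Set X} {B : Set Y}
    (hA : ∀ x, x ∈ A ↔ f x ∈ B) : BL A B f g where
  mf := fun x hx => (hA x).1 hx
  mg := fun y hy => (hA _).2 (by rwa [h.fg y trivial])
  gf := fun x _ => h.gf x trivial
  fg := fun y _ => h.fg y trivial
  lf := by
    obtain ⟨K, k0, hK⟩ := h.lf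
    exact ⟨K, k0, fun x _ x' _ => hK x trivial x' trivial⟩
  lg := by
    obtain ⟨K, k0, hK⟩ := h.lg
    exact ⟨K, k0, fun x _ x' _ => hK x trivial x' trivial⟩

/-- The closed half space. -/
def Hf (F : Type*) : Set (ℝ × F) := {x | 0 ≤ x.1}

theorem zero_mem_Hf {F : Type*} (u : F) : ((0 : ℝ), u) ∈ Hf F := le_refl (0 : ℝ)

variable {X ι F : Type*} [MetricSpace X] [NormedAddCommGroup F] [NormedSpace ℝ F]
  {b : X → ℝ} {D : ι → X → X} {w : ι → ℝ} {κ : ℝ}

theorem smul_mem_Hf {l : ℝ} (hl : 0 ≤ l) {x : ℝ × F} (hx : x ∈ Hf F) : l • x ∈ Hf F :=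
  mul_nonneg hl hx

/-- The images of the vertical half lines are tracks. -/
theorem trk_of_chart {W B : Set X} {J : ℝ × F → X} {I : X → ℝ × F} (h : BL (Hf F) W J I)
    (hκ : 0 < κ) (hb : Lp 1 b) (hw : ∀ i, 0 < w i)
    (hom : ∀ i, ∀ x ∈ Hf F, D i (J x) = J (w i • x)) (hBW : B ⊆ W)
    (hB : ∀ x ∈ Hf F, J x ∈ B ↔ x.1 = 0)
    (good : ∀ (u : F) (s s' : ℝ), 0 ≤ s → s ≤ s' →
      dist (J (s, u)) (J (s', u)) ≤ κ * (b (J (s', u)) - b (J (s, u)))) :
    ∃ R, Trk b D κ W B ∅ R ∧ Reach R W B := by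
  obtain ⟨K, k0, hK⟩ := h.lf
  obtain ⟨L, l0, hL⟩ := h.lg
  have mono : ∀ (u : F) (s s' : ℝ), 0 ≤ s → s ≤ s' → b (J (s, u)) ≤ b (J (s', u)) := by
    intro u s s' a c
    have := dist_nonneg.trans (good u s s' a c)
    have := nonneg_of_mul_nonneg_right this hκ
    linarith
  have eJ : ∀ p ∈ W, J ((I p).1, (I p).2) = p := fun p hp => h.fg p hp
  have vert : ∀ (u : F) (s s' : ℝ), 0 ≤ s → 0 ≤ s' →
      dist (J (s, u)) (J (s', u)) ≤ κ * |b (J (s, u)) - b (J (s', u))| := by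
    intro u s s' a c
    rcases le_total s s' with e | e
    · refine (good u s s' a e).trans (mul_le_mul_of_nonneg_left ?_ hκ.le)
      rw [abs_sub_comm]; exact le_abs_self _
    · rw [dist_comm]
      exact (good u s' s c e).trans (mul_le_mul_of_nonneg_left (le_abs_self _) hκ.le)
  have side : ∀ (u u' : F) (s : ℝ), 0 ≤ s → dist (J (s, u)) (J (s, u')) ≤ K * dist u u' := by
    intro u u' s a
    have := hK (s, u) a (s, u') a
    simpa using this
  have ly : ∀ p ∈ W, ∀ q ∈ W, dist (I p).2 (I q).2 ≤ L * dist p q := fun p hp q hq =>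
    (le_max_right _ _).trans (hL p hp q hq)
  have cont : ∀ u : F, ContinuousOn (fun s => b (J (s, u))) (Ici 0) := by
    intro u
    refine hb.continuous.comp_continuousOn ?_
    have : LipschitzOnWith (Real.toNNReal K) (fun s : ℝ => J (s, u)) (Ici 0) := by
      refine LipschitzOnWith.of_dist_le' fun s a s' c => ?_
      have := hK (s, u) a (s', u) c
      simpa using this
    exact this.continuousOn
  have onl : ∀ p ∈ W, ∀ s, 0 ≤ s → p ∈ W ∧ J (s, (I p).2) ∈ W ∧ (I p).2 = (I (J (s, (I p).2))).2 :=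
    fun p hp s hs => ⟨hp, h.mf (s, _) hs, by rw [h.gf (s, _) hs]⟩
  have homI : ∀ i, ∀ p ∈ W, D i p ∈ W ∧ I (D i p) = w i • I p := by
    intro i p hp
    have e : D i p = J (w i • I p) := by rw [← hom i _ (h.mg p hp), h.fg p hp]
    have m := smul_mem_Hf (hw i).le (h.mg p hp)
    exact ⟨e ▸ h.mf _ m, by rw [e, h.gf _ m]⟩
  have bot : ∀ a ∈ B, J (0, (I a).2) = a := by
    intro a ha
    have h1 := (hB _ (h.mg a (hBW ha))).1 (by rwa [h.fg a (hBW ha)])
    rw [← h1]; exact eJ a (hBW ha)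
  refine ⟨fun p q => p ∈ W ∧ q ∈ W ∧ (I p).2 = (I q).2,
    { symm := fun ⟨a, c, e⟩ => ⟨c, a, e.symm⟩
      trans := fun ⟨a, _, e⟩ ⟨_, c, e'⟩ => ⟨a, c, e.trans e'⟩
      vert := ?_, lip := ?_, inv := ?_
      refl := fun p hp => ⟨hp, hp, rfl⟩
      mem := fun a => a.1
      subB := hBW
      subT := empty_subset _
      down := ?_, up := ?_, monoB := ?_
      monoT := fun _ a => a.elim
      lipB := ?_
      lipT := ⟨0, le_rfl, fun _ _ _ _ _ _ a => a.elim⟩
      invB := ?_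
      invT := fun _ _ a => a.elim }, ?_⟩
  · rintro p q ⟨a, c, e⟩
    have := vert (I p).2 (I p).1 (I q).1 (h.mg p a) (h.mg q c)
    rw [eJ p a, e, eJ q c] at this
    exact this
  · refine ⟨K * L + κ * (K * L) + κ, by positivity, ?_⟩
    rintro p p' q q' ⟨a, a', e⟩ ⟨c, c', e'⟩
    have h1 := side (I p').2 (I q').2 (I p').1 (h.mg p' a')
    have h2 := vert (I q').2 (I p').1 (I q').1 (h.mg p' a') (h.mg q' c')
    rw [eJ p' a'] at h1
    rw [eJ q' c'] at h2
    have h3 := ly p a q c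
    rw [e, e'] at h3
    set m := J ((I p').1, (I q').2)
    have h4 : dist p' m ≤ K * L * dist p q := by
      rw [mul_assoc]; exact h1.trans (mul_le_mul_of_nonneg_left h3 k0)
    have h5 : |b m - b q'| ≤ K * L * dist p q + |b p' - b q'| := by
      have := hb.abs m p'
      rw [dist_comm] at this
      have := abs_sub_le (b m) (b p') (b q')
      linarith
    have h6 := mul_le_mul_of_nonneg_left h5 hκ.le
    have h7 := dist_triangle p' m q'
    have h8 : 0 ≤ κ * dist p q := by positivity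
    have h9 : 0 ≤ (K * L + κ * (K * L)) * |b p' - b q'| := by positivity
    nlinarith
  · rintro i p q ⟨a, c, e⟩
    refine ⟨(homI i p a).1, (homI i q c).1, ?_⟩
    rw [(homI i p a).2, (homI i q c).2, Prod.smul_snd, Prod.smul_snd, e]
  · intro p hp s hs
    rcases le_total s (b (J (0, (I p).2))) with e | e
    · exact ⟨_, onl p hp 0 le_rfl, Or.inr ⟨(hB (0, _) (zero_mem_Hf _)).2 rfl, e⟩⟩
    · have := intermediate_value_Icc (h.mg p hp) ((cont (I p).2).mono Icc_subset_Ici_self)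
      obtain ⟨t, ht, e'⟩ := this (show s ∈ Icc _ _ from ⟨e, by rwa [eJ p hp]⟩)
      exact ⟨_, onl p hp t ht.1, Or.inl e'⟩
  · intro p hp s hs
    have a : 0 ≤ (I p).1 := h.mg p hp
    have a1 : 0 ≤ (L + 1) * κ * (s - b p) := by
      have : 0 ≤ s - b p := by linarith
      positivity
    have a2 : (I p).1 ≤ (I p).1 + (L + 1) * κ * (s - b p) := by linarith
    set s1 := (I p).1 + (L + 1) * κ * (s - b p) with hs1
    have h1 := good (I p).2 _ _ a a2
    have h2 := hL _ (h.mf ((I p).1, (I p).2) a) _ (h.mf (s1, (I p).2) (a.trans a2))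
    rw [h.gf ((I p).1, (I p).2) a, h.gf (s1, (I p).2) (a.trans a2)] at h2
    have h3 : dist ((I p).1, (I p).2) (s1, (I p).2) = (L + 1) * κ * (s - b p) := by
      rw [Prod.dist_eq, dist_self, Real.dist_eq, hs1, abs_of_nonpos (by linarith),
        max_eq_left (by linarith)]
      ring
    rw [h3] at h2
    have h4 : s ≤ b (J (s1, (I p).2)) := by
      rw [eJ p hp] at h1 h2
      have h5 : (L + 1) * κ * (s - b p) ≤ (L + 1) * κ * (b (J (s1, (I p).2)) - b p) := by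
        have := mul_le_mul_of_nonneg_left h1 (show 0 ≤ L + 1 by linarith)
        have := dist_nonneg (x := p) (y := J (s1, (I p).2))
        nlinarith
      have := le_of_mul_le_mul_left h5 (by positivity)
      linarith
    have := intermediate_value_Icc a2 ((cont (I p).2).mono fun t ht => a.trans ht.1)
    obtain ⟨t, ht, e'⟩ := this (show s ∈ Icc _ _ from ⟨by rwa [eJ p hp], h4⟩)
    exact ⟨_, onl p hp t (a.trans ht.1), Or.inl e'⟩
  · rintro p a ⟨hp, -, e⟩ ha
    have := mono (I p).2 0 (I p).1 le_rfl (h.mg p hp)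
    rwa [eJ p hp, e, bot a ha] at this
  · refine ⟨K * L, by positivity, ?_⟩
    rintro p a q a' ⟨hp, -, e⟩ ⟨hq, -, e'⟩ ha ha'
    have h1 := side (I a).2 (I a').2 0 le_rfl
    rw [bot a ha, bot a' ha', ← e, ← e'] at h1
    rw [mul_assoc]
    exact h1.trans (mul_le_mul_of_nonneg_left (ly p hp q hq) k0)
  · intro i p hp
    rw [← bot p hp, hom i (0, _) (zero_mem_Hf _)]
    exact (hB _ (smul_mem_Hf (hw i).le (zero_mem_Hf _))).2 (by simp)
  · intro p hp
    exact ⟨_, (hB (0, _) (zero_mem_Hf _)).2 rfl, onl p hp 0 le_rfl⟩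

/-- Radial rescaling by a quotient of two comparable Lipschitz functions is Lipschitz. -/
theorem ratio_lip {V : Type*} [NormedAddCommGroup V] [NormedSpace ℝ V] {S : Set V} {α β : V → ℝ}
    {A : ℝ} (hA : 0 ≤ A) (h0 : ∀ x ∈ S, 0 ≤ α x) (h1 : ∀ x ∈ S, α x ≤ A * β x)
    (h2 : ∀ x ∈ S, ‖x‖ ≤ A * β x) (h3 : ∀ x ∈ S, 0 ≤ β x)
    (hα : ∀ x ∈ S, ∀ y ∈ S, |α x - α y| ≤ A * dist x y)
    (hβ : ∀ x ∈ S, ∀ y ∈ S, |β x - β y| ≤ A * dist x y) :
    ∃ K, 0 ≤ K ∧ ∀ x ∈ S, ∀ y ∈ S, dist ((α x / β x) • x) ((α y / β y) • y) ≤ K * dist x y := by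
  have r1 : ∀ x ∈ S, α x / β x * β x = α x := by
    intro x hx
    rcases (h3 x hx).eq_or_lt with e | e
    · have := h1 x hx
      have := h0 x hx
      rw [← e] at *
      simp; linarith
    · field_simp
  have r2 : ∀ x ∈ S, 0 ≤ α x / β x ∧ α x / β x ≤ A := fun x hx =>
    ⟨div_nonneg (h0 x hx) (h3 x hx), div_le_of_le_mul₀ (h3 x hx) hA (h1 x hx)⟩
  refine ⟨A + A * (A + A * A), by positivity, fun x hx y hy => ?_⟩
  have e1 := r1 x hx
  have e2 := r1 y hy
  obtain ⟨a1, a2⟩ := r2 y hy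
  set r := α x / β x
  set r' := α y / β y
  have d0 := dist_nonneg (x := x) (y := y)
  have e : r • x - r' • y = r' • (x - y) + (r - r') • x := by module
  rw [dist_eq_norm, e]
  refine (norm_add_le _ _).trans ?_
  rw [norm_smul, norm_smul, Real.norm_eq_abs, Real.norm_eq_abs, abs_of_nonneg a1, ← dist_eq_norm]
  have b1 : |r - r'| * β x ≤ A * dist x y + A * (A * dist x y) := by
    rw [← abs_of_nonneg (h3 x hx), ← abs_mul]
    have : (r - r') * β x = (α x - α y) + r' * (β y - β x) := by linarith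
    rw [this]
    refine (abs_add_le _ _).trans (add_le_add (hα x hx y hy) ?_)
    rw [abs_mul, abs_of_nonneg a1, abs_sub_comm]
    exact mul_le_mul a2 (hβ x hx y hy) (abs_nonneg _) hA
  have b2 : |r - r'| * ‖x‖ ≤ A * (|r - r'| * β x) := by
    have := mul_le_mul_of_nonneg_left (h2 x hx) (abs_nonneg (r - r'))
    linarith
  have b3 := mul_le_mul_of_nonneg_left b1 hA
  have b4 := mul_le_mul_of_nonneg_right a2 d0
  nlinarith

end Pool.Agent.Lib.MP_c2693b_gt.Tf
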