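import Pool.Agent.Lib.MP_c2693b_gt.TeChart

namespace Pool.Agent.Lib.MP_c2693b_gt.Tf

open Set

variable {X ι : Type*} [MetricSpace X] {b n : X → ℝ} {D : ι → X → X} {w : ι → ℝ} {κ : ℝ}
  {W B T : Set X} {R : X → X → Prop}

open Classical in
/-- The point of height `h` on the track of `p`. -/
noncomputable def pt (b : X → ℝ) (R : X → X → Prop) (p : X) (h : ℝ) : X :=
  if e : ∃ m, R p m ∧ b m = h then e.choose else p

omit [MetricSpace X] in
theorem pt_spec {p : X} {h : ℝ} (e : ∃ m, R p m ∧ b m = h) :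
    R p (pt b R p h) ∧ b (pt b R p h) = h := by
  rw [pt, dif_pos e]; exact e.choose_spec

theorem pt_eq (H : Loc b D κ R) {p m : X} {h : ℝ} (a : R p m) (e : b m = h) : pt b R p h = m :=
  H.eq_of (H.trans (H.symm (pt_spec ⟨m, a, e⟩).1) a) ((pt_spec ⟨m, a, e⟩).2.trans e.symm)

/-- `lam p` is the height at which the track of `p` crosses the graph of `c * n`. -/
structure Lev (b n : X → ℝ) (D : ι → X → X) (w : ι → ℝ) (W : Set X) (R : X → X → Prop) (c : ℝ)
    (lam : X → ℝ) : Prop where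
  ex : ∀ p ∈ W, ∃ m, R p m ∧ b m = lam p ∧ b m = c * n m
  const : ∀ {p q}, R p q → lam p = lam q
  le : ∀ {p q}, R p q → (c * n q ≤ b q ↔ lam p ≤ b q)
  ge : ∀ {p q}, R p q → (b q ≤ c * n q ↔ b q ≤ lam p)
  lip : ∃ K, 0 ≤ K ∧ ∀ p ∈ W, ∀ q ∈ W, |lam p - lam q| ≤ K * dist p q
  hom : ∀ i, ∀ p ∈ W, lam (D i p) = w i * lam p

theorem grow (H : Loc b D κ R) (hn : Lp 1 n) {c : ℝ} {p q : X} (a : R p q) (e : b p ≤ b q) :
    (1 - κ * |c|) * (b q - b p) ≤ (b q - c * n q) - (b p - c * n p) := by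
  have h1 := H.vert a
  rw [abs_sub_comm, abs_of_nonneg (sub_nonneg.2 e)] at h1
  have h2 := hn.abs q p
  rw [dist_comm, one_mul] at h2
  have h3 : c * (n q - n p) ≤ |c| * (κ * (b q - b p)) :=
    (le_abs_self _).trans (by
      rw [abs_mul]; exact mul_le_mul_of_nonneg_left (h2.trans h1) (abs_nonneg c))
  linarith

theorem exists_lev (H : Trk b D κ W B T R) (rB : Reach R W B) (rT : Reach R W T)
    (hb : Lp 1 b) (hn : Lp 1 n) (hDb : Hmg D w b) (hDn : Hmg D w n) {c : ℝ} (hc : κ * |c| < 1)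
    (hB : ∀ a ∈ B, b a ≤ c * n a) (hT : ∀ a ∈ T, c * n a ≤ b a) :
    ∃ lam, Lev b n D w W R c lam := by
  have ex : ∀ p ∈ W, ∃ m, R p m ∧ b m = c * n m := by
    intro p hp
    obtain ⟨a, ha, pa⟩ := rB p hp
    obtain ⟨t, ht, pt'⟩ := rT p hp
    have at' : R a t := H.trans (H.symm pa) pt'
    have le : b a ≤ b t := H.monoT at' ht
    have sp : ∀ s ∈ Icc (b a) (b t), R a (pt b R a s) ∧ b (pt b R a s) = s := fun s hs =>
      pt_spec (H.ivt at' hs.1 hs.2)
    have c1 : ContinuousOn (pt b R a) (Icc (b a) (b t)) := by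
      have : LipschitzOnWith (Real.toNNReal κ) (pt b R a) (Icc (b a) (b t)) := by
        refine LipschitzOnWith.of_dist_le' fun s hs s' hs' => ?_
        have := H.vert (H.trans (H.symm (sp s hs).1) (sp s' hs').1)
        rwa [(sp s hs).2, (sp s' hs').2] at this
      exact this.continuousOn
    have c2 : Continuous fun z => b z - c * n z :=
      hb.continuous.sub (continuous_const.mul hn.continuous)
    have := intermediate_value_Icc le (c2.comp_continuousOn c1)
    obtain ⟨s, hs, e⟩ := this (show (0 : ℝ) ∈ Icc _ _ from ⟨by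
      have := hB a ha
      simp only [Function.comp, pt_eq H.toLoc (H.refl a (H.subB ha)) rfl]; linarith, by
      have := hT t ht
      simp only [Function.comp, pt_eq H.toLoc at' rfl]; linarith⟩)
    exact ⟨_, H.trans pa (sp s hs).1, sub_eq_zero.1 e⟩
  choose! m hm1 hm2 using ex
  have c0 : 0 < 1 - κ * |c| := by linarith
  have le : ∀ {p q}, R p q → (c * n q ≤ b q ↔ b (m p) ≤ b q) := by
    intro p q a
    have hp := H.mem a
    have r := H.trans (H.symm a) (hm1 p hp)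
    refine ⟨fun e => not_lt.1 fun e' => ?_, fun e => ?_⟩
    · have := grow H.toLoc hn (c := c) r e'.le
      have := hm2 p hp
      have := mul_pos c0 (sub_pos.2 e')
      linarith
    · have := grow H.toLoc hn (c := c) (H.symm r) e
      have := hm2 p hp
      have := mul_nonneg c0.le (sub_nonneg.2 e)
      linarith
  have ge : ∀ {p q}, R p q → (b q ≤ c * n q ↔ b q ≤ b (m p)) := by
    intro p q a
    have hp := H.mem a
    have r := H.trans (H.symm a) (hm1 p hp)
    refine ⟨fun e => not_lt.1 fun e' => ?_, fun e => ?_⟩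
    · have := grow H.toLoc hn (c := c) (H.symm r) e'.le
      have := hm2 p hp
      have := mul_pos c0 (sub_pos.2 e')
      linarith
    · have := grow H.toLoc hn (c := c) r e
      have := hm2 p hp
      have := mul_nonneg c0.le (sub_nonneg.2 e)
      linarith
  have uq : ∀ {p q}, R p q → b q = c * n q → b (m p) = b q := fun a e =>
    le_antisymm ((le a).1 e.ge) ((ge a).1 e.le)
  refine ⟨fun p => b (m p), fun p hp => ⟨m p, hm1 p hp, rfl, hm2 p hp⟩,
    fun {p q} a => uq (H.trans a (hm1 q (H.mem' a))) (hm2 q (H.mem' a)), le, ge, ?_, ?_⟩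
  · obtain ⟨K, k0, hK⟩ := H.lip
    obtain ⟨KB, kb, hKB⟩ := H.lipB
    have ac := abs_nonneg c
    have key : ∀ p ∈ W, ∀ q ∈ W, b (m p) ≤ b (m q) → b (m q) - b (m p) ≤
        (KB + (1 + |c|) * (K * (1 + KB)) / (1 - κ * |c|)) * dist p q := by
      intro p hp q hq e
      have d0 := dist_nonneg (x := p) (y := q)
      obtain ⟨r, r1, r2⟩ := H.down (m q) (H.mem' (hm1 q hq)) _ e
      have r3 : b (m p) ≤ b r ∧ b r - b (m p) ≤ KB * dist p q ∧ b r ≤ b (m q) := by
        rcases r2 with r2 | ⟨r2, r3⟩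
        · exact ⟨r2.ge, by rw [r2, sub_self]; positivity, r2.le.trans e⟩
        · refine ⟨r3, ?_, H.monoB r1 r2⟩
          obtain ⟨a, ha, pa⟩ := rB p hp
          have h1 := hKB p a q r pa (H.trans (hm1 q hq) r1) ha r2
          have h2 := H.monoB (H.trans (H.symm (hm1 p hp)) pa) ha
          have h3 := hb r a
          rw [dist_comm] at h3
          linarith
      have h1 := hK p (m p) q r (hm1 p hp) (H.trans (hm1 q hq) r1)
      rw [abs_sub_comm, abs_of_nonneg (sub_nonneg.2 r3.1)] at h1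
      have h2 : dist (m p) r ≤ K * (1 + KB) * dist p q := by
        have := mul_le_mul_of_nonneg_left r3.2.1 k0
        nlinarith
      have h3 := grow H.toLoc hn (c := c) (H.symm r1) r3.2.2
      have h4 := hb (m p) r
      have h5 : c * (n r - n (m p)) ≤ |c| * dist (m p) r :=
        (le_abs_self _).trans (by
          have := hn.abs r (m p)
          rw [dist_comm, one_mul] at this
          rw [abs_mul]; exact mul_le_mul_of_nonneg_left this ac)
      have h6 := hm2 p hp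
      have h7 := hm2 q hq
      have h8 := mul_le_mul_of_nonneg_left h2 (show 0 ≤ 1 + |c| by linarith)
      have h9 : b (m q) - b r ≤ (1 + |c|) * (K * (1 + KB)) / (1 - κ * |c|) * dist p q := by
        rw [div_mul_eq_mul_div, le_div_iff₀ c0]
        linarith
      linarith [r3.2.1]
    refine ⟨KB + (1 + |c|) * (K * (1 + KB)) / (1 - κ * |c|), by positivity, fun p hp q hq => ?_⟩
    rcases le_total (b (m p)) (b (m q)) with e | e
    · rw [abs_sub_comm, abs_of_nonneg (sub_nonneg.2 e)]; exact key p hp q hq e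
    · rw [abs_of_nonneg (sub_nonneg.2 e), dist_comm]; exact key q hq p hp e
  · intro i p hp
    refine (uq (H.inv i (hm1 p hp)) ?_).trans (hDb i _)
    rw [hDb, hDn, hm2 p hp]; ring

/-- The part of a system below an intermediate level. -/
theorem between_low {c₀ c₁ : ℝ} {μ : X → ℝ} (H : Trk b D κ W {p | b p = c₀ * n p} T R)
    (rB : Reach R W {p | b p = c₀ * n p}) (hw : ∀ i, 0 < w i) (hDb : Hmg D w b) (hDn : Hmg D w n)
    (n0 : ∀ p, 0 ≤ n p) (h01 : c₀ ≤ c₁) (hW : ∀ p, c₀ * n p ≤ b p → b p ≤ c₁ * n p → p ∈ W)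
    (hW' : ∀ p ∈ W, c₀ * n p ≤ b p) (L : Lev b n D w W R c₁ μ) :
    Between b D κ (fun p => c₀ * n p) (fun p => c₁ * n p) := by
  have c01 : ∀ p, c₀ * n p ≤ c₁ * n p := fun p => mul_le_mul_of_nonneg_right h01 (n0 p)
  have inv : ∀ i p, b p ≤ c₁ * n p → b (D i p) ≤ c₁ * n (D i p) := fun i p a => by
    rw [hDb, hDn]; nlinarith [hw i]
  obtain ⟨K, k0, hK⟩ := H.lip
  refine ⟨fun p q => R p q ∧ b p ≤ c₁ * n p ∧ b q ≤ c₁ * n q,
    { symm := fun ⟨a, c, e⟩ => ⟨H.symm a, e, c⟩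
      trans := fun ⟨a, c, _⟩ ⟨a', _, e⟩ => ⟨H.trans a a', c, e⟩
      vert := fun a => H.vert a.1
      lip := ⟨K, k0, fun p p' q q' a c => hK p p' q q' a.1 c.1⟩
      inv := fun i _ _ ⟨a, c, e⟩ => ⟨H.inv i a, inv i _ c, inv i _ e⟩
      refl := fun p hp => ⟨H.refl p (hW p hp.1 hp.2), hp.2, hp.2⟩
      mem := fun a => ⟨hW' _ (H.mem a.1), a.2.1⟩
      subB := fun p hp => ⟨le_of_eq (Eq.symm hp), (le_of_eq hp).trans (c01 p)⟩
      subT := fun p hp => ⟨(c01 p).trans (le_of_eq (Eq.symm hp)), le_of_eq hp⟩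
      down := ?_, up := ?_
      monoB := fun a c => H.monoB a.1 c
      monoT := ?_, lipB := ?_, lipT := ?_
      invB := H.invB
      invT := ?_ }, ?_, ?_⟩
  · intro p hp s hs
    have m := hW p hp.1 hp.2
    obtain ⟨q, a, c⟩ := H.down p m s hs
    refine ⟨q, ⟨a, hp.2, (L.ge a).2 (le_trans ?_ ((L.ge (H.refl p m)).1 hp.2))⟩, c⟩
    rcases c with c | c
    · exact c.le.trans hs
    · exact H.monoB a c.1
  · intro p hp s hs
    obtain ⟨m, a, c, e⟩ := L.ex p (hW p hp.1 hp.2)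
    rcases le_total s (b m) with h | h
    · obtain ⟨q, a', c'⟩ := H.ivt a hs h
      exact ⟨q, ⟨a', hp.2, (L.ge a').2 (by linarith)⟩, Or.inl c'⟩
    · exact ⟨m, ⟨a, hp.2, e.le⟩, Or.inr ⟨e, h⟩⟩
  · rintro p a ⟨r, c, -⟩ ha
    exact ((L.ge (H.refl p (H.mem r))).1 c).trans ((L.le r).1 (le_of_eq (Eq.symm ha)))
  · obtain ⟨KB, kb, hKB⟩ := H.lipB
    exact ⟨KB, kb, fun p a q a' r r' => hKB p a q a' r.1 r'.1⟩
  · obtain ⟨M, m0, hM⟩ := L.lip
    refine ⟨K * (1 + M), by positivity, fun p a q a' r r' ha ha' => ?_⟩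
    have e : b a = μ p := le_antisymm ((L.ge r.1).1 (le_of_eq ha)) ((L.le r.1).1 (ge_of_eq ha))
    have e' : b a' = μ q :=
      le_antisymm ((L.ge r'.1).1 (le_of_eq ha')) ((L.le r'.1).1 (ge_of_eq ha'))
    have h1 := hK p a q a' r.1 r'.1
    rw [e, e'] at h1
    have := mul_le_mul_of_nonneg_left (hM p (H.mem r.1) q (H.mem r'.1)) k0
    nlinarith
  · intro i p hp
    have : b p = c₁ * n p := hp
    change b (D i p) = c₁ * n (D i p)
    rw [hDb, hDn, this]; ring
  · intro p hp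
    obtain ⟨a, ha, r⟩ := rB p (hW p hp.1 hp.2)
    exact ⟨a, ha, r, hp.2, (le_of_eq ha).trans (c01 a)⟩
  · intro p hp
    obtain ⟨m, a, -, e⟩ := L.ex p (hW p hp.1 hp.2)
    exact ⟨m, e, a, hp.2, e.le⟩

open Classical in
/-- Slide the points below the graph of `g` to the height `η`. -/
noncomputable def slide (b g : X → ℝ) (R : X → X → Prop) (η : X → ℝ) (p : X) : X :=
  if b p ≤ g p then pt b R p (η p) else p

theorem slide_lip (hX : Btw X) (H : Loc b D κ R) (hb : Continuous b) {g η : X → ℝ}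
    (hg : Continuous g) {V : Set X} (hV : ∀ p, b p = g p → p ∈ V)
    (ex : ∀ p ∈ V, b p ≤ g p → ∃ m, R p m ∧ b m = η p) (top : ∀ p, b p = g p → slide b g R η p = p)
    {L : ℝ} (l0 : 0 ≤ L)
    (lip : ∀ p ∈ V, b p ≤ g p → ∀ q ∈ V, b q ≤ g q → |η p - η q| ≤ L * dist p q) :
    ∃ K, 0 ≤ K ∧ ∀ p ∈ V, ∀ q ∈ V, dist (slide b g R η p) (slide b g R η q) ≤ K * dist p q := by
  obtain ⟨K, k0, hK⟩ := H.lip
  have lo : ∀ p ∈ V, b p ≤ g p → ∀ q ∈ V, b q ≤ g q →
      dist (slide b g R η p) (slide b g R η q) ≤ (K * (1 + L) + 1) * dist p q := by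
    intro p hp a q hq c
    rw [slide, slide, if_pos a, if_pos c]
    have h1 := hK _ _ _ _ (pt_spec (ex p hp a)).1 (pt_spec (ex q hq c)).1
    rw [(pt_spec (ex p hp a)).2, (pt_spec (ex q hq c)).2] at h1
    have := mul_le_mul_of_nonneg_left (lip p hp a q hq c) k0
    have := dist_nonneg (x := p) (y := q)
    nlinarith
  have k1 : 0 ≤ K * (1 + L) := by positivity
  have mix : ∀ p ∈ V, b p ≤ g p → ∀ q, ¬ b q ≤ g q →
      dist (slide b g R η p) (slide b g R η q) ≤ (K * (1 + L) + 1) * dist p q := by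
    intro p hp a q c
    obtain ⟨m, e, d⟩ := hX.cross (hb.sub hg) (p := p) (q := q) (sub_nonpos.2 a)
      (sub_nonneg.2 (not_le.1 c).le)
    have e' : b m = g m := sub_eq_zero.1 e
    have h1 := lo p hp a m (hV m e') e'.le
    rw [top m e'] at h1
    have h2 : slide b g R η q = q := by rw [slide, if_neg c]
    have h3 := dist_triangle (slide b g R η p) m q
    have h4 := mul_nonneg k1 (dist_nonneg (x := m) (y := q))
    rw [h2, ← d]
    nlinarith
  refine ⟨K * (1 + L) + 1, by positivity, fun p hp q hq => ?_⟩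
  by_cases a : b p ≤ g p <;> by_cases c : b q ≤ g q
  · exact lo p hp a q hq c
  · exact mix p hp a q c
  · rw [dist_comm, dist_comm p]; exact mix q hq c p a
  · rw [slide, slide, if_neg a, if_neg c]
    have := mul_nonneg k1 (dist_nonneg (x := p) (y := q))
    linarith

theorem slide_hom (H : Loc b D κ R) (hw : ∀ i, 0 < w i) (hDb : Hmg D w b) {g η : X → ℝ}
    (hDg : Hmg D w g) (i : ι) {p : X} (ex : b p ≤ g p → ∃ m, R p m ∧ b m = η p)
    (hη : b p ≤ g p → η (D i p) = w i * η p) :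
    D i (slide b g R η p) = slide b g R η (D i p) := by
  have e : b (D i p) ≤ g (D i p) ↔ b p ≤ g p := by
    rw [hDb, hDg]; exact mul_le_mul_iff_right₀ (hw i)
  by_cases a : b p ≤ g p
  · rw [slide, slide, if_pos a, if_pos (e.2 a)]
    refine (pt_eq H (H.inv i (pt_spec (ex a)).1) ?_).symm
    rw [hDb, (pt_spec (ex a)).2, hη a]
  · rw [slide, slide, if_neg a, if_neg (e.not.2 a)]

/-- A system between the levels `c₀` and `c₂` squeezes the region above `c₀` onto the region above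
`c₁`. -/
theorem squeeze (hX : Btw X) (hb : Lp 1 b) (hn : Lp 1 n) (n0 : ∀ p, 0 ≤ n p) (hw : ∀ i, 0 < w i)
    (hDb : Hmg D w b) (hDn : Hmg D w n) {c₀ c₁ c₂ : ℝ} (h01 : c₀ < c₁) (h12 : c₁ < c₂)
    (k0 : κ * |c₀| < 1) (k1 : κ * |c₁| < 1) (k2 : κ * |c₂| < 1)
    (H : Between b D κ (fun p => c₀ * n p) (fun p => c₂ * n p)) :
    Between b D κ (fun p => c₀ * n p) (fun p => c₁ * n p) ∧ ∃ S S' : X → X,
      BL {p | c₀ * n p ≤ b p} {p | c₁ * n p ≤ b p} S S' ∧
      (∀ i p, c₀ * n p ≤ b p → D i (S p) = S (D i p)) ∧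
      ∀ p, c₀ * n p ≤ b p → (b (S p) = c₁ * n (S p) ↔ b p = c₀ * n p) := by
  obtain ⟨R, H, rB, rT⟩ := H
  have c01 : ∀ p, c₀ * n p ≤ c₁ * n p := fun p => mul_le_mul_of_nonneg_right h01.le (n0 p)
  have c12 : ∀ p, c₁ * n p ≤ c₂ * n p := fun p => mul_le_mul_of_nonneg_right h12.le (n0 p)
  obtain ⟨β, Lβ⟩ := exists_lev H rB rT hb hn hDb hDn k0 (fun a ha => le_of_eq ha)
    fun a ha => ((c01 a).trans (c12 a)).trans (ge_of_eq ha)
  obtain ⟨μ, Lμ⟩ := exists_lev H rB rT hb hn hDb hDn k1 (fun a ha => (le_of_eq ha).trans (c01 a))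
    fun a ha => (c12 a).trans (ge_of_eq ha)
  obtain ⟨τ, Lτ⟩ := exists_lev H rB rT hb hn hDb hDn k2
    (fun a ha => (le_of_eq ha).trans ((c01 a).trans (c12 a))) fun a ha => ge_of_eq ha
  refine ⟨between_low H rB hw hDb hDn n0 h01.le (fun p a c => ⟨a, c.trans (c12 p)⟩)
    (fun p hp => hp.1) Lμ, ?_⟩
  set W := {p | c₀ * n p ≤ b p ∧ b p ≤ c₂ * n p} with hW
  set δ := (c₂ - c₁) * (1 - κ * |c₀|) / (2 * (c₂ - c₀)) with hδ
  have d0 : 0 < δ := div_pos (mul_pos (by linarith) (by linarith)) (by linarith)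
  have d1 : δ * (2 * (c₂ - c₀)) = (c₂ - c₁) * (1 - κ * |c₀|) := by
    rw [hδ]; exact div_mul_cancel₀ _ (by linarith)
  have lo : ∀ p ∈ W, β p ≤ b p := fun p hp => (Lβ.le (H.refl p hp)).1 hp.1
  have hi : ∀ p ∈ W, b p ≤ τ p := fun p hp => (Lτ.ge (H.refl p hp)).1 hp.2
  have ord : ∀ p ∈ W, β p ≤ μ p ∧ μ p ≤ τ p ∧ δ * (τ p - β p) ≤ τ p - μ p ∧
      ∀ s, β p ≤ s → s ≤ τ p → ∃ m, R p m ∧ b m = s := by
    intro p hp
    obtain ⟨a, a1, a2, a3⟩ := Lβ.ex p hp
    obtain ⟨m, m1, m2, m3⟩ := Lμ.ex p hp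
    obtain ⟨t, t1, t2, t3⟩ := Lτ.ex p hp
    have e1 : β p ≤ μ p := m2 ▸ (Lβ.le m1).1 (m3 ▸ c01 m)
    have e2 : μ p ≤ τ p := m2 ▸ (Lτ.ge m1).1 (m3 ▸ c12 m)
    refine ⟨e1, e2, ?_, fun s s1 s2 => ?_⟩
    · have g1 := grow H.toLoc hn (c := -c₁) (H.trans (H.symm m1) t1) (by linarith)
      have g0 := grow H.toLoc hn (c := c₀) (H.trans (H.symm a1) t1) (by linarith)
      have v := H.vert (H.trans (H.symm m1) t1)
      rw [abs_sub_comm, abs_of_nonneg (by linarith)] at v
      have h2 := hn.abs t m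
      rw [dist_comm, one_mul] at h2
      have h3 : -(|c₁| * (κ * (b t - b m))) ≤ c₁ * (n t - n m) := by
        refine le_trans (neg_le_neg ?_) (neg_abs_le _)
        rw [abs_mul]; exact mul_le_mul_of_nonneg_left (h2.trans v) (abs_nonneg _)
      have h4 : 0 ≤ (1 - κ * |c₁|) * (b t - b m) := mul_nonneg (by linarith) (by linarith)
      have h5 : (c₂ - c₁) * n t ≤ 2 * (b t - b m) := by linarith
      have h6 : (1 - κ * |c₀|) * (b t - b a) ≤ (c₂ - c₀) * n t := by linarith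
      rw [← a2, ← m2, ← t2]
      refine le_of_mul_le_mul_right ?_ (show 0 < 2 * (c₂ - c₀) by linarith)
      have h7 := mul_le_mul_of_nonneg_left h6 (show 0 ≤ c₂ - c₁ by linarith)
      have h8 := mul_le_mul_of_nonneg_left h5 (show 0 ≤ c₂ - c₀ by linarith)
      calc δ * (b t - b a) * (2 * (c₂ - c₀)) = δ * (2 * (c₂ - c₀)) * (b t - b a) := by ring
        _ ≤ _ := by rw [d1]; linarith
    · obtain ⟨z, z1, z2⟩ := H.ivt (H.trans (H.symm a1) t1) (s := s) (by linarith) (by linarith)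
      exact ⟨z, H.trans a1 z1, z2⟩
  set η : X → ℝ := fun p => max (b p) (μ p + δ * (b p - β p)) with hη
  set η' : X → ℝ := fun p => min (b p) (β p + δ⁻¹ * (b p - μ p)) with hη'
  have di := inv_pos.2 d0
  have ex : ∀ p, c₀ * n p ≤ b p → b p ≤ c₂ * n p → ∃ m, R p m ∧ b m = η p := by
    intro p a c
    obtain ⟨o1, o2, o3, o4⟩ := ord p ⟨a, c⟩
    have := mul_le_mul_of_nonneg_left (hi p ⟨a, c⟩) d0.le
    exact o4 _ ((lo p ⟨a, c⟩).trans (le_max_left _ _)) (max_le (hi p ⟨a, c⟩) (by linarith))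
  have ex' : ∀ p, c₁ * n p ≤ b p → b p ≤ c₂ * n p → ∃ m, R p m ∧ b m = η' p := by
    intro p a c
    have hp : p ∈ W := ⟨(c01 p).trans a, c⟩
    have := mul_nonneg di.le (sub_nonneg.2 ((Lμ.le (H.refl p hp)).1 a))
    exact (ord p hp).2.2.2 _ (le_min (lo p hp) (by linarith)) ((min_le_left _ _).trans (hi p hp))
  have sp : ∀ (θ : X → ℝ) p, b p ≤ c₂ * n p → (∃ m, R p m ∧ b m = θ p) →
      R p (slide b (fun p => c₂ * n p) R θ p) ∧ b (slide b (fun p => c₂ * n p) R θ p) = θ p := by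
    intro θ p a e
    rw [slide, if_pos a]; exact pt_spec e
  have so : ∀ (θ : X → ℝ) p, ¬ b p ≤ c₂ * n p → slide b (fun p => c₂ * n p) R θ p = p := by
    intro θ p a
    rw [slide, if_neg a]
  have se : ∀ (θ : X → ℝ) p q, R p q → b q = θ p → slide b (fun p => c₂ * n p) R θ p = q := by
    intro θ p q a e
    rw [slide, if_pos (H.mem a).2]; exact pt_eq H.toLoc a e
  have top : ∀ p, b p = c₂ * n p → p ∈ W ∧ μ p + δ * (b p - β p) ≤ b p := by
    intro p e
    have hp : p ∈ W := ⟨((c01 p).trans (c12 p)).trans e.ge, e.le⟩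
    have := (ord p hp).2.2.1
    rw [le_antisymm ((Lτ.le (H.refl p hp)).1 e.ge) (hi p hp)] at this
    exact ⟨hp, by linarith⟩
  obtain ⟨Kβ, kβ, lβ⟩ := Lβ.lip
  obtain ⟨Kμ, kμ, lμ⟩ := Lμ.lip
  have aff : ∀ (r : ℝ) (f g : X → ℝ) (Kf Kg : ℝ) p q, 0 ≤ r → 0 ≤ Kf → 0 ≤ Kg →
      |f p - f q| ≤ Kf * dist p q → |g p - g q| ≤ Kg * dist p q →
      max |b p - b q| |f p + r * (b p - g p) - (f q + r * (b q - g q))| ≤
        (1 + Kf + r * (1 + Kg)) * dist p q := by
    intro r f g Kf Kg p q r0 kf kg a c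
    have h1 := hb.abs p q
    have dd := dist_nonneg (x := p) (y := q)
    have h2 : 0 ≤ (Kf + r * (1 + Kg)) * dist p q := by positivity
    refine max_le (by linarith) ?_
    rw [show f p + r * (b p - g p) - (f q + r * (b q - g q)) =
      (f p - f q) + r * ((b p - b q) - (g p - g q)) by ring]
    refine (abs_add_le _ _).trans ?_
    rw [abs_mul, abs_of_nonneg r0]
    have := mul_le_mul_of_nonneg_left ((abs_sub _ _).trans (add_le_add h1 c)) r0
    linarith
  have hg : Continuous fun p => c₂ * n p := continuous_const.mul hn.continuous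
  refine ⟨slide b (fun p => c₂ * n p) R η, slide b (fun p => c₂ * n p) R η',
    ⟨fun p hp => ?_, fun p hp => ?_, fun p hp => ?_, fun p hp => ?_, ?_, ?_⟩, fun i p hp => ?_,
    fun p hp => ?_⟩
  · by_cases a : b p ≤ c₂ * n p
    · obtain ⟨r, e⟩ := sp η p a (ex p hp a)
      have := mul_nonneg d0.le (sub_nonneg.2 (lo p ⟨hp, a⟩))
      exact (Lμ.le r).2 (e ▸ le_trans (by linarith) (le_max_right _ _))
    · rw [so η p a]; exact (c12 p).trans (not_le.1 a).le
  · by_cases a : b p ≤ c₂ * n p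
    · exact (H.mem' (sp η' p a (ex' p hp a)).1).1
    · rw [so η' p a]; exact (c01 p).trans hp
  · by_cases a : b p ≤ c₂ * n p
    · obtain ⟨r, e⟩ := sp η p a (ex p hp a)
      refine se η' _ p (H.symm r) ?_
      simp only [hη']
      rw [e, ← Lβ.const r, ← Lμ.const r]
      simp only [hη]
      rcases le_total (b p) (μ p + δ * (b p - β p)) with h | h
      · rw [max_eq_right h, add_sub_cancel_left, inv_mul_cancel_left₀ d0.ne', add_sub_cancel,
          min_eq_right h]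
      · rw [max_eq_left h, min_eq_left]
        rw [← sub_le_iff_le_add', le_inv_mul_iff₀ d0]; linarith
    · rw [so η p a, so η' p a]
  · by_cases a : b p ≤ c₂ * n p
    · obtain ⟨r, e⟩ := sp η' p a (ex' p hp a)
      refine se η _ p (H.symm r) ?_
      simp only [hη]
      rw [e, ← Lβ.const r, ← Lμ.const r]
      simp only [hη']
      rcases le_total (b p) (β p + δ⁻¹ * (b p - μ p)) with h | h
      · rw [min_eq_left h, max_eq_left]
        rw [← sub_le_iff_le_add', le_inv_mul_iff₀ d0] at h; linarith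
      · rw [min_eq_right h, add_sub_cancel_left, mul_inv_cancel_left₀ d0.ne', add_sub_cancel,
          max_eq_right h]
    · rw [so η' p a, so η p a]
  · refine slide_lip hX H.toLoc hb.continuous hg (fun p e => (top p e).1.1) ex
      (fun p e => se η p p (H.refl p (top p e).1) (max_eq_left (top p e).2).symm)
      (L := 1 + Kμ + δ * (1 + Kβ)) (by positivity) fun p hp a q hq c => ?_
    exact (abs_max_sub_max_le_max _ _ _ _).trans
      (aff δ μ β Kμ Kβ p q d0.le kμ kβ (lμ p ⟨hp, a⟩ q ⟨hq, c⟩) (lβ p ⟨hp, a⟩ q ⟨hq, c⟩))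
  · refine slide_lip hX H.toLoc hb.continuous hg (fun p e => (c12 p).trans (ge_of_eq e)) ex'
      (fun p e => se η' p p (H.refl p (top p e).1) (min_eq_left ?_).symm)
      (L := 1 + Kβ + δ⁻¹ * (1 + Kμ)) (by positivity) fun p hp a q hq c => ?_
    · have := (top p e).2
      rw [← sub_le_iff_le_add', le_inv_mul_iff₀ d0]; linarith
    · have hp' : p ∈ W := ⟨(c01 p).trans hp, a⟩
      have hq' : q ∈ W := ⟨(c01 q).trans hq, c⟩
      exact (abs_min_sub_min_le_max _ _ _ _).trans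
        (aff δ⁻¹ β μ Kβ Kμ p q di.le kβ kμ (lβ p hp' q hq') (lμ p hp' q hq'))
  · refine slide_hom H.toLoc hw hDb (fun i p => by rw [hDn]; ring) i (ex p hp) fun a => ?_
    simp only [hη]
    rw [hDb, Lβ.hom i p ⟨hp, a⟩, Lμ.hom i p ⟨hp, a⟩, mul_max_of_nonneg _ _ (hw i).le]
    congr 1; ring
  · by_cases a : b p ≤ c₂ * n p
    · obtain ⟨r, e⟩ := sp η p a (ex p hp a)
      have hp' : p ∈ W := ⟨hp, a⟩
      have l1 := lo p hp'
      constructor
      · intro h
        have h1 := (Lμ.ge r).1 h.le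
        rw [e] at h1
        have h2 := (le_max_right _ _).trans h1
        have h3 : b p - β p ≤ 0 := nonpos_of_mul_nonpos_right (by linarith) d0
        exact le_antisymm ((Lβ.ge (H.refl p hp')).2 (by linarith)) hp
      · intro h
        have h1 : b p = β p := le_antisymm ((Lβ.ge (H.refl p hp')).1 h.le) l1
        have h2 : η p = μ p := by
          simp only [hη]
          rw [h1, sub_self, mul_zero, add_zero, max_eq_right (ord p hp').1]
        exact le_antisymm ((Lμ.ge r).2 (e.trans h2).le) ((Lμ.le r).2 (e.trans h2).ge)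
    · rw [so η p a]
      have := c01 p
      have := c12 p
      have := not_le.1 a
      constructor <;> intro h <;> linarith

end Pool.Agent.Lib.MP_c2693b_gt.Tf
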