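import Pool.Agent.Lib.MP_c2693b_gt.TrDefs

namespace Pool.Agent.Lib.MP_c2693b_gt

variable {X ι : Type*} [MetricSpace X] {b : X → ℝ} {D : ι → X → X} {w : ι → ℝ} {κ : ℝ}

/-- The relation on a union of two track systems. -/
def GlR (R₁ R₂ : X → X → Prop) (M : Set X) (p q : X) : Prop :=
  ∃ a ∈ M, (R₁ p a ∨ R₂ p a) ∧ (R₁ q a ∨ R₂ q a)

section

variable {W₁ W₂ B M T : Set X} {R₁ R₂ : X → X → Prop}

theorem gl_uniq (h₁ : Trk b D κ W₁ B M R₁) (h₂ : Trk b D κ W₂ M T R₂) (hM : W₁ ∩ W₂ ⊆ M)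
    {p a a' : X} (ha : a ∈ M) (ha' : a' ∈ M) (e : R₁ p a ∨ R₂ p a) (e' : R₁ p a' ∨ R₂ p a') :
    a = a' := by
  rcases e with e | e <;> rcases e' with e' | e'
  · exact h₁.uniqT e e' ha ha'
  · have hp : p ∈ M := hM ⟨h₁.mem e, h₂.mem e'⟩
    rw [h₁.uniqT e (h₁.refl p (h₁.mem e)) ha hp, h₂.uniqB e' (h₂.refl p (h₂.mem e')) ha' hp]
  · have hp : p ∈ M := hM ⟨h₁.mem e', h₂.mem e⟩
    rw [h₁.uniqT e' (h₁.refl p (h₁.mem e')) ha' hp, h₂.uniqB e (h₂.refl p (h₂.mem e)) ha hp]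
  · exact h₂.uniqB e e' ha ha'

theorem gl_lipM (h₁ : Trk b D κ W₁ B M R₁) (h₂ : Trk b D κ W₂ M T R₂)
    (hc : ∀ p ∈ W₁, ∀ q ∈ W₂, ∃ m ∈ M, dist p m + dist m q = dist p q) :
    ∃ K, 0 ≤ K ∧ ∀ p a q a', a ∈ M → a' ∈ M → (R₁ p a ∨ R₂ p a) → (R₁ q a' ∨ R₂ q a') →
      dist a a' ≤ K * dist p q := by
  obtain ⟨K₁, k₁, l₁⟩ := h₁.lipT
  obtain ⟨K₂, k₂, l₂⟩ := h₂.lipB
  have key : ∀ p a q a', a ∈ M → a' ∈ M → R₁ p a → R₂ q a' → dist a a' ≤ (K₁ + K₂) * dist p q := by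
    intro p a q a' ha ha' e e'
    obtain ⟨m, hm, s⟩ := hc p (h₁.mem e) q (h₂.mem e')
    have a1 := l₁ p a m m e (h₁.refl m (h₁.subT hm)) ha hm
    have a2 := l₂ m m q a' (h₂.refl m (h₂.subB hm)) e' hm ha'
    have a3 := dist_triangle a m a'
    have := dist_nonneg (x := p) (y := m)
    have := dist_nonneg (x := m) (y := q)
    rw [← s]; nlinarith
  refine ⟨K₁ + K₂, by positivity, fun p a q a' ha ha' e e' => ?_⟩
  have := dist_nonneg (x := p) (y := q)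
  rcases e with e | e <;> rcases e' with e' | e'
  · have := l₁ p a q a' e e' ha ha'; nlinarith
  · exact key p a q a' ha ha' e e'
  · rw [dist_comm, dist_comm p]; exact key q a' p a ha' ha e' e
  · have := l₂ p a q a' e e' ha ha'; nlinarith

theorem gl_of₁ (h₁ : Trk b D κ W₁ B M R₁) (r₁ : Reach R₁ W₁ M) {p q : X} (e : R₁ p q) :
    GlR R₁ R₂ M p q := by
  obtain ⟨a, ha, s⟩ := r₁ p (h₁.mem e)
  exact ⟨a, ha, Or.inl s, Or.inl (h₁.trans (h₁.symm e) s)⟩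

theorem gl_of₂ (h₂ : Trk b D κ W₂ M T R₂) (r₂ : Reach R₂ W₂ M) {p q : X} (e : R₂ p q) :
    GlR R₁ R₂ M p q := by
  obtain ⟨a, ha, s⟩ := r₂ p (h₂.mem e)
  exact ⟨a, ha, Or.inr s, Or.inr (h₂.trans (h₂.symm e) s)⟩

theorem gl_swap {p q : X} (e : GlR R₁ R₂ M p q) : GlR R₂ R₁ M p q := by
  obtain ⟨a, ha, s, t⟩ := e
  exact ⟨a, ha, s.symm, t.symm⟩

/-- a point of the first system on a glued track is related in the first system -/
theorem gl_in₁ (h₁ : Trk b D κ W₁ B M R₁) (h₂ : Trk b D κ W₂ M T R₂) (hM : W₁ ∩ W₂ ⊆ M)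
    {p a : X} (hp : p ∈ W₁) (ha : a ∈ M) (e : R₁ p a ∨ R₂ p a) : R₁ p a := by
  rcases e with e | e
  · exact e
  · have hp' : p ∈ M := hM ⟨hp, h₂.mem e⟩
    rw [h₂.uniqB e (h₂.refl p (h₂.mem e)) ha hp']; exact h₁.refl p hp

theorem gl_loc (hκ : 0 ≤ κ) (hb : Lp 1 b)
    (h₁ : Trk b D κ W₁ B M R₁) (h₂ : Trk b D κ W₂ M T R₂) (hM : W₁ ∩ W₂ ⊆ M)
    (hc : ∀ p ∈ W₁, ∀ q ∈ W₂, ∃ m ∈ M, dist p m + dist m q = dist p q) :
    Loc b D κ (GlR R₁ R₂ M) where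
  symm := fun ⟨a, ha, s, t⟩ => ⟨a, ha, t, s⟩
  trans := fun ⟨a, ha, s, t⟩ ⟨a', ha', s', t'⟩ => by
    obtain rfl := gl_uniq h₁ h₂ hM ha ha' t s'
    exact ⟨a, ha, s, t'⟩
  vert := by
    have key : ∀ p q a, a ∈ M → R₁ p a → R₂ q a → dist p q ≤ κ * |b p - b q| := by
      intro p q a ha s t
      have a1 := h₁.vert s
      have a2 := h₂.vert t
      have m1 := h₁.monoT s ha
      have m2 := h₂.monoB t ha
      rw [abs_of_nonpos (by linarith)] at a1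
      rw [abs_of_nonneg (by linarith)] at a2
      rw [abs_of_nonpos (by linarith)]
      have := dist_triangle_right p q a
      nlinarith
    rintro p q ⟨a, ha, s | s, t | t⟩
    · exact h₁.vert (h₁.trans s (h₁.symm t))
    · exact key p q a ha s t
    · rw [dist_comm, abs_sub_comm]; exact key q p a ha t s
    · exact h₂.vert (h₂.trans s (h₂.symm t))
  lip := by
    obtain ⟨K, k, l⟩ := gl_lipM h₁ h₂ hc
    obtain ⟨K₁, k₁, l₁⟩ := h₁.lip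
    obtain ⟨K₂, k₂, l₂⟩ := h₂.lip
    have key : ∀ p' q' a a', a ∈ M → a' ∈ M → R₁ p' a → R₂ q' a' →
        dist p' q' ≤ (κ + 1) * dist a a' + κ * |b p' - b q'| := by
      intro p q a a' ha ha' s t
      have a1 := h₁.vert s
      have a2 := h₂.vert t
      have m1 := h₁.monoT s ha
      have m2 := h₂.monoB t ha'
      rw [abs_of_nonpos (by linarith)] at a1
      rw [abs_of_nonneg (by linarith)] at a2
      have t1 := dist_triangle4 p a a' q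
      rw [dist_comm a' q] at t1
      have t2 := hb a a'
      have t3 := neg_le_abs (b p - b q)
      nlinarith [mul_le_mul_of_nonneg_left t2 hκ, mul_le_mul_of_nonneg_left t3 hκ]
    refine ⟨(K₁ + K₂ + κ + 1) * (K + 1), by positivity, ?_⟩
    rintro p p' q q' ⟨a, ha, s, s'⟩ ⟨a', ha', t, t'⟩
    have e := l p a q a' ha ha' s t
    have d0 := dist_nonneg (x := p) (y := q)
    have d1 := dist_nonneg (x := a) (y := a')
    have d2 := abs_nonneg (b p' - b q')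
    have fin : dist p' q' ≤ (K₁ + K₂ + κ + 1) * (dist a a' + |b p' - b q'|) := by
      rcases s' with s' | s' <;> rcases t' with t' | t'
      · have := l₁ a p' a' q' (h₁.symm s') (h₁.symm t'); nlinarith
      · have := key p' q' a a' ha ha' s' t'; nlinarith
      · have := key q' p' a' a ha' ha t' s'
        rw [dist_comm q', dist_comm a', abs_sub_comm] at this; nlinarith
      · have := l₂ a p' a' q' (h₂.symm s') (h₂.symm t'); nlinarith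
    refine fin.trans ?_
    rw [mul_assoc]
    refine mul_le_mul_of_nonneg_left ?_ (by positivity)
    nlinarith
  inv := fun i _ _ ⟨a, ha, s, t⟩ =>
    ⟨D i a, h₁.invT i a ha, s.imp (h₁.inv i) (h₂.inv i), t.imp (h₁.inv i) (h₂.inv i)⟩

theorem gl_down (h₁ : Trk b D κ W₁ B M R₁) (h₂ : Trk b D κ W₂ M T R₂)
    (r₁ : Reach R₁ W₁ M) (r₂ : Reach R₂ W₂ M) :
    ∀ p ∈ W₁ ∪ W₂, ∀ s, s ≤ b p → ∃ q, GlR R₁ R₂ M p q ∧ (b q = s ∨ (q ∈ B ∧ s ≤ b q)) := by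
  rintro p (hp | hp) s hs
  · obtain ⟨q, e, c⟩ := h₁.down p hp s hs
    exact ⟨q, gl_of₁ h₁ r₁ e, c⟩
  · obtain ⟨q, e, c | ⟨c, c'⟩⟩ := h₂.down p hp s hs
    · exact ⟨q, gl_of₂ h₂ r₂ e, Or.inl c⟩
    · obtain ⟨q', e', c''⟩ := h₁.down q (h₁.subT c) s c'
      exact ⟨q', ⟨q, c, Or.inr e, Or.inl (h₁.symm e')⟩, c''⟩

theorem gl_monoB (h₁ : Trk b D κ W₁ B M R₁) (h₂ : Trk b D κ W₂ M T R₂) (hM : W₁ ∩ W₂ ⊆ M)
    {p a : X} (e : GlR R₁ R₂ M p a) (ha : a ∈ B) : b a ≤ b p := by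
  obtain ⟨m, hm, s, t⟩ := e
  have t' := gl_in₁ h₁ h₂ hM (h₁.subB ha) hm t
  rcases s with s | s
  · exact h₁.monoB (h₁.trans s (h₁.symm t')) ha
  · exact (h₁.monoT t' hm).trans (h₂.monoB s hm)

theorem gl_lipB (h₁ : Trk b D κ W₁ B M R₁) (h₂ : Trk b D κ W₂ M T R₂) (hM : W₁ ∩ W₂ ⊆ M)
    (hc : ∀ p ∈ W₁, ∀ q ∈ W₂, ∃ m ∈ M, dist p m + dist m q = dist p q) :
    ∃ K, 0 ≤ K ∧ ∀ p a q a', GlR R₁ R₂ M p a → GlR R₁ R₂ M q a' → a ∈ B → a' ∈ B →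
      dist a a' ≤ K * dist p q := by
  obtain ⟨K, k, l⟩ := gl_lipM h₁ h₂ hc
  obtain ⟨K₁, k₁, l₁⟩ := h₁.lipB
  refine ⟨K₁ * K, by positivity, ?_⟩
  rintro p a q a' ⟨m, hm, s, t⟩ ⟨m', hm', s', t'⟩ ha ha'
  have e := l p m q m' hm hm' s s'
  have e' := l₁ m a m' a' (h₁.symm (gl_in₁ h₁ h₂ hM (h₁.subB ha) hm t))
    (h₁.symm (gl_in₁ h₁ h₂ hM (h₁.subB ha') hm' t')) ha ha'
  rw [mul_assoc]
  exact e'.trans (mul_le_mul_of_nonneg_left e k₁)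

theorem Trk.glue (hκ : 0 ≤ κ) (hb : Lp 1 b)
    (h₁ : Trk b D κ W₁ B M R₁) (h₂ : Trk b D κ W₂ M T R₂) (hM : W₁ ∩ W₂ ⊆ M)
    (r₁ : Reach R₁ W₁ M) (r₂ : Reach R₂ W₂ M)
    (hc : ∀ p ∈ W₁, ∀ q ∈ W₂, ∃ m ∈ M, dist p m + dist m q = dist p q) :
    ∃ R, Trk b D κ (W₁ ∪ W₂) B T R ∧ (∀ p q, R₁ p q → R p q) ∧ ∀ p q, R₂ p q → R p q := by
  have hM' : W₂ ∩ W₁ ⊆ M := by rw [Set.inter_comm]; exact hM
  have hc' : ∀ p ∈ W₂, ∀ q ∈ W₁, ∃ m ∈ M, dist p m + dist m q = dist p q := by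
    intro p hp q hq
    obtain ⟨m, hm, e⟩ := hc q hq p hp
    exact ⟨m, hm, by rw [dist_comm p m, dist_comm m q, dist_comm p q]; linarith⟩
  refine ⟨GlR R₁ R₂ M, ?_, fun _ _ => gl_of₁ h₁ r₁, fun _ _ => gl_of₂ h₂ r₂⟩
  exact
    { toLoc := gl_loc hκ hb h₁ h₂ hM hc
      refl := by
        rintro p (hp | hp)
        · exact gl_of₁ h₁ r₁ (h₁.refl p hp)
        · exact gl_of₂ h₂ r₂ (h₂.refl p hp)
      mem := by
        rintro p q ⟨a, _, s | s, _⟩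
        · exact Or.inl (h₁.mem s)
        · exact Or.inr (h₂.mem s)
      subB := h₁.subB.trans Set.subset_union_left
      subT := h₂.subT.trans Set.subset_union_right
      down := gl_down h₁ h₂ r₁ r₂
      up := by
        intro p hp s hs
        obtain ⟨q, e, c⟩ := gl_down h₂.neg h₁.neg r₂ r₁ p hp.symm (-s) (by linarith)
        refine ⟨q, gl_swap e, ?_⟩
        rcases c with c | ⟨c, c'⟩
        · left; linarith
        · right; exact ⟨c, by linarith⟩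
      monoB := gl_monoB h₁ h₂ hM
      monoT := fun e ha => neg_le_neg_iff.1 (gl_monoB h₂.neg h₁.neg hM' (gl_swap e) ha)
      lipB := gl_lipB h₁ h₂ hM hc
      lipT := by
        obtain ⟨K, k, l⟩ := gl_lipB h₂.neg h₁.neg hM' hc'
        exact ⟨K, k, fun p a q a' e e' => l p a q a' (gl_swap e) (gl_swap e')⟩
      invB := h₁.invB
      invT := h₂.invT }

end

theorem Btw.cross' (hX : Btw X) (hb : Lp 1 b) {g : X → ℝ} (hg : Continuous g) {p q : X}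
    (hp : b p ≤ g p) (hq : g q ≤ b q) : ∃ m, b m = g m ∧ dist p m + dist m q = dist p q := by
  obtain ⟨m, e, s⟩ := hX.cross (f := fun x => b x - g x) (hb.continuous.sub hg)
    (p := p) (q := q) (by linarith) (by linarith)
  exact ⟨m, by linarith, s⟩

theorem Between.trans (hX : Btw X) (hκ : 0 ≤ κ) (hb : Lp 1 b) {f g h : X → ℝ}
    (hg : Continuous g) (hfg : ∀ p, f p ≤ g p) (hgh : ∀ p, g p ≤ h p)
    (h₁ : Between b D κ f g) (h₂ : Between b D κ g h) : Between b D κ f h := by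
  obtain ⟨R₁, t₁, b₁, u₁⟩ := h₁
  obtain ⟨R₂, t₂, b₂, u₂⟩ := h₂
  obtain ⟨R, t, i₁, i₂⟩ := t₁.glue hκ hb t₂ (fun p hp => le_antisymm hp.1.2 hp.2.1) u₁ b₂
    fun p hp q hq => hX.cross' hb hg hp.2 hq.1
  have e : {p | f p ≤ b p ∧ b p ≤ g p} ∪ {p | g p ≤ b p ∧ b p ≤ h p} =
      {p | f p ≤ b p ∧ b p ≤ h p} := by
    ext p
    simp only [Set.mem_union, Set.mem_setOf_eq]
    constructor
    · rintro (⟨a, c⟩ | ⟨a, c⟩)
      · exact ⟨a, c.trans (hgh p)⟩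
      · exact ⟨(hfg p).trans a, c⟩
    · rintro ⟨a, c⟩
      rcases le_total (b p) (g p) with l | l
      · exact Or.inl ⟨a, l⟩
      · exact Or.inr ⟨l, c⟩
  refine ⟨R, e ▸ t, ?_, ?_⟩
  · rw [← e]
    rintro p (hp | hp)
    · obtain ⟨a, ha, s⟩ := b₁ p hp
      exact ⟨a, ha, i₁ _ _ s⟩
    · obtain ⟨m, hm, s⟩ := b₂ p hp
      obtain ⟨a, ha, s'⟩ := b₁ m (t₁.subT hm)
      exact ⟨a, ha, t.trans (i₂ _ _ s) (i₁ _ _ s')⟩
  · rw [← e]
    rintro p (hp | hp)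
    · obtain ⟨m, hm, s⟩ := u₁ p hp
      obtain ⟨a, ha, s'⟩ := u₂ m (t₂.subB hm)
      exact ⟨a, ha, t.trans (i₁ _ _ s) (i₂ _ _ s')⟩
    · obtain ⟨a, ha, s⟩ := u₂ p hp
      exact ⟨a, ha, i₂ _ _ s⟩

end Pool.Agent.Lib.MP_c2693b_gt
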