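import Pool.Agent.Lib.MP_c2693b_gt.TeCap
import Pool.Agent.Lib.MP_c2693b_gt.TeMid
import Pool.Agent.Lib.MP_c2693b_gt.TrGlue
import Pool.Agent.Lib.MP_c2693b_gt.TrFlow
import Pool.Agent.Lib.MP_c2693b_gt.ConeCN

namespace Pool.Agent.Lib.MP_c2693b_gt.Tf

open Set ConeAlg

theorem trk_mono {X ι : Type*} [MetricSpace X] {b : X → ℝ} {D : ι → X → X} {κ κ' : ℝ}
    {W B T : Set X} {R : X → X → Prop} (h : Trk b D κ W B T R) (hκ : κ ≤ κ') :
    Trk b D κ' W B T R :=
  { h with vert := fun a => (h.vert a).trans (mul_le_mul_of_nonneg_right hκ (abs_nonneg _)) }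

variable {C E : Type*} [ConeAlg C] [NormedAddCommGroup E] [NormedSpace ℝ E]

theorem btw_cone : Btw C := fun p q => ⟨geo p q, by
  have : LipschitzOnWith (Real.toNNReal (dist p q)) (geo p q) (Icc 0 1) :=
    LipschitzOnWith.of_dist_le' fun s hs t ht => by
      rw [dist_geo_geo p q hs ht, Real.dist_eq, mul_comm]
  exact this.continuousOn, geo_zero p q, geo_one p q, fun t ht => by
    rw [dist_geo_left p q ht, dist_geo_right p q ht]; ring⟩

theorem lp_ip {v : C} (hv : nm v = 1) : Lp 1 fun z => -ip v z := fun p q => by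
  have := abs_ip_sub_le q p v
  rw [hv, dist_comm, ip_comm q, ip_comm p] at this
  have := le_abs_self (ip v q - ip v p)
  simp only; linarith

theorem lp_nm : Lp 1 (nm : C → ℝ) := fun p q => by
  have := dist_triangle p q o
  simp only [nm]; linarith

theorem ip_ad_sm {v : C} (hv : nm v = 1) (z : C) {s : ℝ} (hs : 0 ≤ s) :
    ip v (ad z (sm s v)) = ip v z + s := by
  rcases hs.eq_or_lt with rfl | h
  · simp
  · have := ip_ad_right z (sm s v)
    rw [ip_sm hs, ip_sm hs, ip_sm' hs, ip_sm' hs, ← nm_sq, hv, ip_comm z v] at this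
    exact mul_left_cancel₀ h.ne' (by linarith)

/-- The height at which a line parallel to `P v` leaves the cone round `v`. -/
theorem exists_height {v : C} (hv : nm v = 1) (P : C ≃ E) {K : ℝ} (hK : 0 ≤ K)
    (hP' : ∀ a b, dist a b ≤ K * ‖P a - P b‖) (hsm : ∀ l, 0 ≤ l → ∀ a, P (sm l a) = l • P a)
    {c : ℝ} (h0 : -1 < c) (h0' : c ≤ 0)
    (had : ∀ z s, 0 ≤ s → -ip v z ≤ c * nm z → P (ad z (sm s v)) = P z + s • P v) :
    ∃ T : E → ℝ, (∀ y t, -ip v (P.symm (y - t • P v)) ≤ c * nm (P.symm (y - t • P v)) ↔ t ≤ T y) ∧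
      (∀ y t, c * nm (P.symm (y - t • P v)) ≤ -ip v (P.symm (y - t • P v)) ↔ T y ≤ t) ∧
      (∃ L, 0 ≤ L ∧ ∀ y y', |T y - T y'| ≤ L * ‖y - y'‖) ∧
      ∀ l, 0 < l → ∀ y, T (l • y) = l * T y := by
  set g : E → ℝ := fun x => c * nm (P.symm x) + ip v (P.symm x) with hg
  have ssm : ∀ l, 0 ≤ l → ∀ x, P.symm (l • x) = sm l (P.symm x) := fun l hl x => by
    rw [P.symm_apply_eq, hsm l hl, P.apply_symm_apply]
  have gs : ∀ l, 0 ≤ l → ∀ x, g (l • x) = l * g x := fun l hl x => by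
    simp only [hg]; rw [ssm l hl, nm_sm hl, ip_sm' hl]; ring
  have gl : ∀ x y, g x - g y ≤ 2 * K * ‖x - y‖ := by
    intro x y
    have h1 := hP' (P.symm x) (P.symm y)
    rw [P.apply_symm_apply, P.apply_symm_apply] at h1
    have h2 := lp_ip hv (P.symm y) (P.symm x)
    have h3 := lp_nm (P.symm y) (P.symm x)
    rw [dist_comm] at h2 h3
    have := dist_nonneg (x := P.symm x) (y := P.symm y)
    simp only [hg] at *
    nlinarith
  have gc : Continuous g := by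
    refine Lp.continuous (L := 2 * K) fun x y => ?_
    rw [dist_eq_norm]; exact gl x y
  have gr : ∀ x s, 0 ≤ s → 0 ≤ g x → g x + (1 + c) * s ≤ g (x + s • P v) := by
    intro x s hs hx
    have e : P.symm (x + s • P v) = ad (P.symm x) (sm s v) := by
      rw [P.symm_apply_eq, had _ s hs (by simp only [hg] at hx; linarith), P.apply_symm_apply]
    have h1 := lp_nm (ad (P.symm x) (sm s v)) (P.symm x)
    rw [dist_comm, dist_ad_left, nm_sm hs, hv] at h1
    simp only [hg]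
    rw [e, ip_ad_sm hv _ hs]
    nlinarith
  have c1 : 0 < 1 + c := by linarith
  have g0 : g 0 = 0 := by have := gs 0 le_rfl 0; rwa [zero_smul, zero_mul] at this
  have gn : g (-P v) < 0 := not_le.1 fun e => by
    have := gr _ 1 zero_le_one e
    rw [one_smul, neg_add_cancel, g0] at this
    linarith
  have ex : ∀ y, ∃ t : ℝ, g (y - t • P v) = 0 := by
    intro y
    have cy : Continuous fun t : ℝ => g (y - t • P v) := gc.comp (by fun_prop)
    have n0 : 0 ≤ 2 * K * ‖y‖ := by positivity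
    have a : 0 ≤ g (y - (-(2 * K * ‖y‖ / (1 + c))) • P v) := by
      have h1 := gr 0 (2 * K * ‖y‖ / (1 + c)) (by positivity) g0.ge
      have h2 := gl (0 + (2 * K * ‖y‖ / (1 + c)) • P v) (y - (-(2 * K * ‖y‖ / (1 + c))) • P v)
      rw [mul_div_cancel₀ _ c1.ne', g0] at h1
      rw [show 0 + (2 * K * ‖y‖ / (1 + c)) • P v - (y - (-(2 * K * ‖y‖ / (1 + c))) • P v) = -y by
        module, norm_neg] at h2
      linarith
    have a' : g (y - (2 * K * ‖y‖ / -g (-P v)) • P v) ≤ 0 := by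
      have p : 0 < -g (-P v) := by linarith
      have h1 := gs (2 * K * ‖y‖ / -g (-P v)) (by positivity) (-P v)
      have h2 := gl (y - (2 * K * ‖y‖ / -g (-P v)) • P v) ((2 * K * ‖y‖ / -g (-P v)) • -P v)
      rw [show y - (2 * K * ‖y‖ / -g (-P v)) • P v - (2 * K * ‖y‖ / -g (-P v)) • -P v = y by
        module, h1] at h2
      have h3 : 2 * K * ‖y‖ / -g (-P v) * -g (-P v) = 2 * K * ‖y‖ := div_mul_cancel₀ _ p.ne'
      linarith
    exact intermediate_value_univ _ _ cy ⟨a', a⟩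
  choose T hT using ex
  have dn : ∀ y t t', t' ≤ t → 0 ≤ g (y - t • P v) →
      g (y - t • P v) + (1 + c) * (t - t') ≤ g (y - t' • P v) := by
    intro y t t' h1 h2
    have := gr _ (t - t') (by linarith) h2
    rwa [show y - t • P v + (t - t') • P v = y - t' • P v by module] at this
  have le : ∀ y t, 0 ≤ g (y - t • P v) ↔ t ≤ T y := by
    refine fun y t => ⟨fun h => not_lt.1 fun e => ?_, fun h => ?_⟩
    · have := dn y t _ e.le h
      have := mul_pos c1 (sub_pos.2 e)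
      linarith [hT y]
    · have := dn y _ t h (hT y).ge
      have := mul_nonneg c1.le (sub_nonneg.2 h)
      linarith [hT y]
  have ge : ∀ y t, g (y - t • P v) ≤ 0 ↔ T y ≤ t := by
    refine fun y t => ⟨fun h => not_lt.1 fun e => ?_, fun h => ?_⟩
    · have := dn y _ t e.le (hT y).ge
      have := mul_pos c1 (sub_pos.2 e)
      linarith [hT y]
    · rcases h.eq_or_lt with rfl | h
      · exact (hT y).le
      · exact (not_le.1 ((le y t).not.2 (not_le.2 h))).le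
  refine ⟨T, fun y t => Iff.trans ?_ (le y t), fun y t => Iff.trans ?_ (ge y t),
    ⟨2 * K / (1 + c), by positivity, ?_⟩, fun l hl y => ?_⟩
  · simp only [hg]; constructor <;> intro h <;> linarith
  · simp only [hg]; constructor <;> intro h <;> linarith
  · have key : ∀ y y', T y' ≤ T y → T y - T y' ≤ 2 * K / (1 + c) * ‖y - y'‖ := by
      intro y y' h
      have h1 := dn y _ _ h (hT y).ge
      have h2 := gl (y - T y' • P v) (y' - T y' • P v)
      rw [sub_sub_sub_cancel_right] at h2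
      rw [div_mul_eq_mul_div, le_div_iff₀ c1]
      linarith [hT y, hT y']
    intro y y'
    rcases le_total (T y') (T y) with h | h
    · rw [abs_of_nonneg (sub_nonneg.2 h)]; exact key y y' h
    · rw [abs_sub_comm, abs_of_nonneg (sub_nonneg.2 h), norm_sub_rev]; exact key y' y h
  · have : g (l • y - (l * T y) • P v) = 0 := by
      rw [mul_smul, ← smul_sub, gs l hl.le, hT, mul_zero]
    exact le_antisymm ((ge _ _).1 this.le) ((le _ _).1 this.ge)

/-- Straightening of the chart: the boundary of the cone round `v` becomes a hyperplane. -/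
theorem low_chart {v : C} (hv : nm v = 1) (P : C ≃ E) {K : ℝ} (hK : 0 ≤ K)
    (hP : ∀ a b, ‖P a - P b‖ ≤ K * dist a b)
    (hP' : ∀ a b, dist a b ≤ K * ‖P a - P b‖) (hsm : ∀ l, 0 ≤ l → ∀ a, P (sm l a) = l • P a)
    {c : ℝ} (h0 : -1 < c) (h0' : c ≤ 0)
    (had : ∀ z s, 0 ≤ s → -ip v z ≤ c * nm z → P (ad z (sm s v)) = P z + s • P v)
    (ℓ : E →L[ℝ] ℝ) (hℓ : ℓ (P v) = -1) :
    ∃ (Φ : ℝ × LinearMap.ker (ℓ : E →ₗ[ℝ] ℝ) → C) (Ψ : C → ℝ × LinearMap.ker (ℓ : E →ₗ[ℝ] ℝ)),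
      BL univ univ Φ Ψ ∧ (∀ l, 0 < l → ∀ x, sm l (Φ x) = Φ (l • x)) ∧
      (∀ x, -ip v (Φ x) ≤ c * nm (Φ x) ↔ x.1 ≤ 0) ∧ (∀ x, c * nm (Φ x) ≤ -ip v (Φ x) ↔ 0 ≤ x.1) ∧
      ∀ u s s', s ≤ 0 → s' ≤ s → Φ (s', u) = ad (Φ (s, u)) (sm (s - s') v) := by
  obtain ⟨T, t1, t2, ⟨L, l0, hL⟩, t3⟩ := exists_height hv P hK hP' hsm h0 h0' had
  have mem : ∀ z : E, z + ℓ z • P v ∈ LinearMap.ker (ℓ : E →ₗ[ℝ] ℝ) := fun z => by
    simp [hℓ]
  have n0 := norm_nonneg (P v)
  have n1 := norm_nonneg ℓ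
  refine ⟨fun x => P.symm (x.2 - (T x.2 + x.1) • P v),
    fun p => (ℓ (P p) - T (P p + ℓ (P p) • P v), ⟨_, mem (P p)⟩),
    ⟨fun _ _ => trivial, fun _ _ => trivial, fun x _ => ?_, fun p _ => ?_,
      ⟨K * (1 + (L + 1) * ‖P v‖), by positivity, fun x _ y _ => ?_⟩,
      ⟨(‖ℓ‖ + (L + 1) * (1 + ‖ℓ‖ * ‖P v‖)) * K, by positivity, fun p _ q _ => ?_⟩⟩,
    fun l hl x => ?_, fun x => (t1 _ _).trans (by simp), fun x => (t2 _ _).trans (by simp),
    fun u s s' a e => ?_⟩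
  · have e0 : ℓ x.2 = 0 := x.2.2
    have e1 : ℓ (x.2 - (T x.2 + x.1) • P v) = T x.2 + x.1 := by simp [hℓ, e0]
    simp only [P.apply_symm_apply, e1, sub_add_cancel, add_sub_cancel_left]
  · simp only [add_sub_cancel, add_sub_cancel_right, P.symm_apply_apply]
  · refine (hP' _ _).trans ?_
    rw [P.apply_symm_apply, P.apply_symm_apply, mul_assoc]
    refine mul_le_mul_of_nonneg_left ?_ hK
    have d1 : |x.1 - y.1| ≤ dist x y := by rw [← Real.dist_eq]; exact le_max_left _ _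
    have d2 : ‖(x.2 : E) - y.2‖ ≤ dist x y := by
      rw [← dist_eq_norm]; exact le_max_right (dist x.1 y.1) (dist x.2 y.2)
    rw [show (x.2 : E) - (T x.2 + x.1) • P v - (y.2 - (T y.2 + y.1) • P v) =
      (x.2 - y.2) - ((T x.2 - T y.2) + (x.1 - y.1)) • P v by module]
    refine (norm_sub_le _ _).trans ?_
    rw [norm_smul, Real.norm_eq_abs]
    have h1 := (abs_add_le _ _).trans
      (add_le_add ((hL _ _).trans (mul_le_mul_of_nonneg_left d2 l0)) d1)
    have := mul_le_mul_of_nonneg_right h1 n0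
    linarith
  · have d0 := norm_nonneg (P p - P q)
    have d1 : |ℓ (P p) - ℓ (P q)| ≤ ‖ℓ‖ * ‖P p - P q‖ := by
      rw [← map_sub, ← Real.norm_eq_abs]; exact ℓ.le_opNorm _
    have d2 : ‖P p + ℓ (P p) • P v - (P q + ℓ (P q) • P v)‖ ≤ (1 + ‖ℓ‖ * ‖P v‖) * ‖P p - P q‖ := by
      rw [show P p + ℓ (P p) • P v - (P q + ℓ (P q) • P v) =
        (P p - P q) + (ℓ (P p) - ℓ (P q)) • P v by module]
      refine (norm_add_le _ _).trans ?_
      rw [norm_smul, Real.norm_eq_abs]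
      have := mul_le_mul_of_nonneg_right d1 n0
      linarith
    rw [mul_assoc]
    refine le_trans ?_ (mul_le_mul_of_nonneg_left (hP p q) (by positivity))
    have p1 : 0 ≤ (1 + ‖ℓ‖ * ‖P v‖) * ‖P p - P q‖ := by positivity
    have p2 := mul_nonneg l0 p1
    have p3 := mul_nonneg n1 d0
    rw [Prod.dist_eq]
    refine max_le ?_ ?_
    · rw [Real.dist_eq, sub_sub_sub_comm]
      have := (abs_sub _ _).trans
        (add_le_add d1 ((hL _ _).trans (mul_le_mul_of_nonneg_left d2 l0)))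
      linarith
    · rw [Subtype.dist_eq, dist_eq_norm]
      linarith
  · rw [eq_comm, P.symm_apply_eq, hsm l hl.le, P.apply_symm_apply, Prod.smul_snd, Prod.smul_fst,
      Submodule.coe_smul, t3 l hl, smul_eq_mul]
    module
  · rw [P.symm_apply_eq, had _ _ (sub_nonneg.2 e) ((t1 _ _).2 (by simpa using a)),
      P.apply_symm_apply]
    module

/-- The flow on a cone algebra with a linear chart, from a track system on the middle region. -/
theorem flow_of_middle (v : C) (hv : nm v = 1) (P : C ≃ E) {K : ℝ}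
    (hP : ∀ a b, ‖P a - P b‖ ≤ K * dist a b) (hP' : ∀ a b, dist a b ≤ K * ‖P a - P b‖)
    (hsm : ∀ l, 0 ≤ l → ∀ a, P (sm l a) = l • P a) {c₀ c₁ c₂ κ₀ κ : ℝ} (h0 : c₀ ≤ 0)
    (h01 : c₀ < c₁) (h12 : c₁ < c₂) (hκ₀ : 1 ≤ κ₀) (k0 : κ₀ * -c₀ < 1) (k2 : κ₀ * c₂ < 1)
    (hκ : κ₀ ≤ κ) (k1 : 1 < κ * c₁)
    (had : ∀ z s, 0 ≤ s → -ip v z ≤ c₀ * nm z → P (ad z (sm s v)) = P z + s • P v)
    (hB : Between (fun z => -ip v z) (fun l : {l : ℝ // 0 < l} => sm l.1) κ₀
      (fun z => c₀ * nm z) (fun z => c₂ * nm z)) :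
    ∃ φ, IsFlow (fun z => -ip v z) (fun l : {l : ℝ // 0 < l} => sm l.1) (fun l => l.1) 1 κ φ := by
  have hK : 0 ≤ K := by
    have := (norm_nonneg _).trans (hP v o)
    rwa [show dist v o = 1 from hv, mul_one] at this
  have hPv : P v ≠ 0 := fun e => by
    have h1 := hsm 0 le_rfl v
    have h2 := hP' v o
    rw [sm_zero, zero_smul] at h1
    rw [e, h1, sub_zero, norm_zero, mul_zero, show dist v o = 1 from hv] at h2
    linarith
  have nv := norm_pos_iff.2 hPv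
  obtain ⟨f, -, hf⟩ := exists_dual_vector ℝ (P v) nv.ne'
  have c1 : 0 < c₁ := by by_contra e; nlinarith
  have κ0 : 0 < κ := by linarith
  obtain ⟨Φ, Ψ, hΦ, hom, lo, hi, tr⟩ := low_chart hv P hK hP hP' hsm (by nlinarith) h0 had
    ((-‖P v‖⁻¹) • f) (by simp [hf, nv.ne'])
  have hb := lp_ip hv
  have hbs : ∀ l, 0 ≤ l → ∀ z, -ip v (sm l z) = l * -ip v z := fun l hl z => by
    rw [ip_sm' hl]; ring
  have hD : Hmg (fun l : {l : ℝ // 0 < l} => sm l.1) (fun l => l.1) fun z => -ip v z :=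
    fun l z => hbs l l.2.le z
  obtain ⟨⟨R₂, t₂, b₂, u₂⟩, S, S', hS, homS, bdS⟩ := squeeze (w := fun l : {l : ℝ // 0 < l} => l.1)
    btw_cone hb lp_nm nm_nonneg (fun l => l.2) hD (fun l z => nm_sm l.2.le z) h01 h12
    (by rwa [abs_of_nonpos h0]) (by rw [abs_of_pos c1]; nlinarith)
    (by rwa [abs_of_pos (c1.trans h12)]) hB
  have bd : ∀ x, -ip v (Φ x) = c₀ * nm (Φ x) ↔ x.1 = 0 := fun x => by
    rw [le_antisymm_iff, lo, hi, ← le_antisymm_iff]
  obtain ⟨R₃, t₃, b₃⟩ := cap hb hbs κ0 k1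
    ((hΦ.restrict (A := Hf _) (B := {z | c₀ * nm z ≤ -ip v z}) fun x => (hi x).symm).trans hS)
    (fun l hl x hx => by rw [← hom l hl]; exact homS ⟨l, hl⟩ _ ((hi x).2 hx))
    fun x hx => (bdS _ ((hi x).2 hx)).trans (bd x)
  have flip : BL (univ : Set (ℝ × LinearMap.ker (((-‖P v‖⁻¹) • f : E →L[ℝ] ℝ) : E →ₗ[ℝ] ℝ))) univ
      (fun x => (-x.1, x.2)) (fun x => (-x.1, x.2)) :=
    ⟨fun _ _ => trivial, fun _ _ => trivial, fun _ _ => by simp, fun _ _ => by simp,
      ⟨1, zero_le_one, fun _ _ _ _ => by simp [Prod.dist_eq]⟩,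
      ⟨1, zero_le_one, fun _ _ _ _ => by simp [Prod.dist_eq]⟩⟩
  obtain ⟨R₁, t₁, u₁⟩ := trk_of_chart (b := fun z => ip v z)
    (D := fun l : {l : ℝ // 0 < l} => sm l.1) (w := fun l => l.1)
    (B := {z | -ip v z = c₀ * nm z})
    ((flip.trans hΦ).restrict (A := Hf _) (B := {z | -ip v z ≤ c₀ * nm z})
      fun x => ((lo (-x.1, x.2)).trans neg_nonpos).symm) κ0 (by simpa using hb.neg) (fun l => l.2)
    (fun l x _ => by rw [hom l l.2]; simp) (fun z hz => le_of_eq hz)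
    (fun x _ => (bd (-x.1, x.2)).trans neg_eq_zero) fun u s s' a e => by
      have p : 0 ≤ -s - -s' := by linarith
      simp only
      rw [tr u (-s) (-s') (by linarith) (by linarith), dist_ad_left, nm_sm p, hv, ip_ad_sm hv _ p]
      nlinarith
  have n0 : ∀ (c : ℝ), Continuous fun z : C => c * nm z := fun c =>
    continuous_const.mul continuous_nm
  have c01 : ∀ z : C, c₀ * nm z ≤ c₁ * nm z := fun z =>
    mul_le_mul_of_nonneg_right h01.le (nm_nonneg z)
  obtain ⟨R₄, t₄, i₁, i₂⟩ := t₁.neg.glue κ0.le hb (trk_mono t₂ hκ)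
    (fun p hp => le_antisymm hp.1 hp.2.1) u₁ b₂ fun p hp q hq => btw_cone.cross' hb (n0 c₀) hp hq.1
  have below : ∀ p ∈ {z : C | -ip v z ≤ c₀ * nm z} ∪ {p | c₀ * nm p ≤ -ip v p ∧ -ip v p ≤ c₁ * nm p},
      -ip v p ≤ c₁ * nm p := by
    rintro p (hp | hp)
    · exact le_trans hp (c01 p)
    · exact hp.2
  obtain ⟨R, t, -⟩ := t₄.glue κ0.le hb t₃ (fun p hp => le_antisymm (below p hp.1) hp.2)
    (by
      rintro p (hp | hp)
      · obtain ⟨a, ha, r⟩ := u₁ p hp
        obtain ⟨a', ha', r'⟩ := u₂ a (t₂.subB ha)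
        exact ⟨a', ha', t₄.trans (i₁ _ _ r) (i₂ _ _ r')⟩
      · obtain ⟨a, ha, r⟩ := u₂ p hp
        exact ⟨a, ha, i₂ _ _ r⟩) b₃
    fun p hp q hq => btw_cone.cross' hb (n0 c₁) (below p hp) hq
  refine Trk.isFlow (R := R) κ0.le hb hD ?_
  convert t using 1
  refine (eq_univ_of_forall fun p => ?_).symm
  rcases le_total (-ip v p) (c₀ * nm p) with h | h
  · exact Or.inl (Or.inl h)
  · rcases le_total (-ip v p) (c₁ * nm p) with h' | h'
    · exact Or.inl (Or.inr ⟨h, h'⟩)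
    · exact Or.inr h'

end Pool.Agent.Lib.MP_c2693b_gt.Tf
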