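import Pool.Agent.Lib.MP_c2693b_gt.TriStage

/-! Section 2: charts of links, topological corollaries. -/

namespace Pool.Agent.Lib.MP_c2693b_gt.Tri

open scoped BigOperators ContDiff

variable {W : Type}

theorem smul_mem_cone {T : SimpleGraph W} {z : W → ℝ} (hz : z ∈ cone T) {l : ℝ} (hl : 0 ≤ l) :
    l • z ∈ cone T :=
  ⟨fun w => mul_nonneg hl (hz.1 w), fun w w' hne h1 h2 =>
    hz.2 w w' hne (right_ne_zero_of_mul h1) (right_ne_zero_of_mul h2)⟩

theorem smul_mem_lkCone {T : SimpleGraph W} {s0 : Finset W} {z : W → ℝ} (hz : z ∈ lkCone T s0)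
    {l : ℝ} (hl : 0 ≤ l) : l • z ∈ lkCone T s0 :=
  ⟨smul_mem_cone hz.1 hl, fun w h => hz.2 w (right_ne_zero_of_mul h)⟩

theorem zero_mem_lkCone (T : SimpleGraph W) (s0 : Finset W) : (0 : W → ℝ) ∈ lkCone T s0 :=
  ⟨⟨fun _ => le_rfl, fun _ _ _ h => absurd rfl h⟩, fun _ h => absurd rfl h⟩

theorem lkCone_empty (T : SimpleGraph W) : lkCone T ∅ = cone T :=
  Set.ext fun _ => ⟨fun h => h.1, fun h => ⟨h, fun _ _ s hs => absurd hs (by simp)⟩⟩

theorem lkCone_zero {T : SimpleGraph W} {s0 : Finset W} {z : W → ℝ} (hz : z ∈ lkCone T s0)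
    {s : W} (hs : s ∈ s0) : z s = 0 := by
  by_contra h
  exact T.irrefl (hz.2 s h s hs)

/-- a point of the link cone plus a point of the cell of `s0` lies in the cone -/
theorem add_mem_cone {T : SimpleGraph W} {s0 : Finset W} (hs : T.IsClique (s0 : Set W))
    {z c : W → ℝ} (hz : z ∈ lkCone T s0) (hc : ∀ w, 0 ≤ c w) (hc' : ∀ w, c w ≠ 0 → w ∈ s0) :
    z + c ∈ cone T := by
  have aux : ∀ w, (z + c) w ≠ 0 → z w ≠ 0 ∨ w ∈ s0 := by
    intro w h
    by_cases k : c w = 0
    · left; simpa [k] using h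
    · exact Or.inr (hc' w k)
  refine ⟨fun w => add_nonneg (hz.1.1 w) (hc w), fun w w' hne h1 h2 => ?_⟩
  rcases aux w h1 with k | k <;> rcases aux w' h2 with k' | k'
  · exact hz.1.2 w w' hne k k'
  · exact (hz.2 w k w' k').symm
  · exact hz.2 w' k' w k
  · exact hs k k' hne

theorem isClosed_cone (T : SimpleGraph W) : IsClosed (cone T) := by
  have : cone T = (⋂ w, {z : W → ℝ | 0 ≤ z w}) ∩
      ⋂ w, ⋂ w', ⋂ (_ : w ≠ w'), ⋂ (_ : ¬ T.Adj w w'), {z : W → ℝ | z w * z w' = 0} := by
    ext z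
    simp only [cone, Set.mem_ofPred_eq, Set.mem_inter_iff, Set.mem_iInter, mul_eq_zero]
    refine and_congr_right fun _ => forall₃_congr fun w w' _ => ?_
    tauto
  rw [this]
  refine (isClosed_iInter fun w => isClosed_le continuous_const (continuous_apply w)).inter ?_
  exact isClosed_iInter fun w => isClosed_iInter fun w' => isClosed_iInter fun _ =>
    isClosed_iInter fun _ => isClosed_eq (by fun_prop) continuous_const

section PL

variable [Fintype W] {F : Type} [NormedAddCommGroup F] [NormedSpace ℝ F]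

/-- the linear map of a chart -/
noncomputable def PL.lin {C : Set (W → ℝ)} (P : PL C F) : (W → ℝ) →ₗ[ℝ] F :=
  Fintype.linearCombination ℝ P.a

theorem PL.lin_apply {C : Set (W → ℝ)} (P : PL C F) (z : W → ℝ) :
    P.lin z = ∑ w, z w • P.a w := rfl

theorem PL.lin_q {C : Set (W → ℝ)} (P : PL C F) (x : F) : P.lin (P.q x) = x := P.right x

theorem PL.q_lin {C : Set (W → ℝ)} (P : PL C F) {z : W → ℝ} (hz : z ∈ C) : P.q (P.lin z) = z :=
  P.left z hz

theorem PL.injOn {C : Set (W → ℝ)} (P : PL C F) {z z' : W → ℝ} (hz : z ∈ C) (hz' : z' ∈ C)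
    (h : P.lin z = P.lin z') : z = z' := by
  rw [← P.q_lin hz, h, P.q_lin hz']

theorem PL.q_smul {C : Set (W → ℝ)} (P : PL C F) (hC : ∀ z ∈ C, ∀ l : ℝ, 0 ≤ l → l • z ∈ C)
    {l : ℝ} (hl : 0 ≤ l) (x : F) : P.q (l • x) = l • P.q x := by
  rw [← P.q_lin (hC _ (P.mem x) l hl), map_smul, P.lin_q]

theorem PL.continuous_q {C : Set (W → ℝ)} (P : PL C F) : Continuous P.q := by
  obtain ⟨L, hL⟩ := P.lip
  exact hL.continuous

theorem PL.continuous_lin {C : Set (W → ℝ)} (P : PL C F) : Continuous P.lin :=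
  P.lin.continuous_of_finiteDimensional

/-- the chart as a homeomorphism -/
noncomputable def PL.homeo {C : Set (W → ℝ)} (P : PL C F) : C ≃ₜ F where
  toFun z := P.lin z.1
  invFun x := ⟨P.q x, P.mem x⟩
  left_inv z := Subtype.ext (P.q_lin z.2)
  right_inv x := P.lin_q x
  continuous_toFun := P.continuous_lin.comp continuous_subtype_val
  continuous_invFun := P.continuous_q.subtype_mk _

theorem PL.link_key {T : SimpleGraph W} (P : PL (cone T) F) {s0 : Finset W}
    (hs : T.IsClique (s0 : Set W)) {z z' c : W → ℝ} (hz : z ∈ lkCone T s0) (hz' : z' ∈ lkCone T s0)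
    (hc : ∀ w, c w ≠ 0 → w ∈ s0) (h : P.lin z - P.lin z' = P.lin c) : z = z' ∧ c = 0 := by
  have m1 := add_mem_cone hs hz (c := fun w => max (-c w) 0) (fun w => le_max_right _ _)
    (fun w hw => hc w fun k => hw (by simp [k]))
  have m2 := add_mem_cone hs hz' (c := fun w => max (c w) 0) (fun w => le_max_right _ _)
    (fun w hw => hc w fun k => hw (by simp [k]))
  have e : c = (fun w => max (c w) 0) - fun w => max (-c w) 0 := by
    funext w
    simp only [Pi.sub_apply]
    rcases le_total (c w) 0 with k | k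
    · rw [max_eq_right k, max_eq_left (by linarith)]; ring
    · rw [max_eq_left k, max_eq_right (by linarith)]; ring
  have h2 := P.injOn m1 m2 (by
    rw [map_add, map_add]
    rw [e, map_sub] at h
    rw [sub_eq_sub_iff_add_eq_add] at h
    rw [h, add_comm])
  have hc0 : ∀ w, c w = 0 := by
    intro w
    by_contra k
    have h3 := congrFun h2 w
    simp only [Pi.add_apply, lkCone_zero hz (hc w k), lkCone_zero hz' (hc w k), zero_add] at h3
    apply k
    rw [e, Pi.sub_apply, h3, sub_self]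
  refine ⟨funext fun w => ?_, funext hc0⟩
  simpa [hc0 w] using congrFun h2 w

theorem PL.linearIndependent {T : SimpleGraph W} (P : PL (cone T) F) {s0 : Finset W}
    (hs : T.IsClique (s0 : Set W)) : LinearIndependent ℝ fun s : s0 => P.a s := by
  classical
  rw [Fintype.linearIndependent_iff]
  intro g hg s
  let c : W → ℝ := fun w => if h : w ∈ s0 then g ⟨w, h⟩ else 0
  have hc : ∀ w, c w ≠ 0 → w ∈ s0 := fun w h => by
    by_contra k
    exact h (by simp [c, k])
  have h1 : P.lin c = 0 := by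
    rw [P.lin_apply, ← Finset.sum_subset (Finset.subset_univ s0) (fun w _ k => by simp [c, k]),
      ← Finset.sum_coe_sort s0, ← hg]
    exact Finset.sum_congr rfl fun w _ => by simp [c]
  have := (P.link_key hs (zero_mem_lkCone T s0) (zero_mem_lkCone T s0) hc (by rw [h1, sub_self])).2
  simpa [c] using congrFun this s

/-- The chart of the link of a clique. -/
theorem PL.link {T : SimpleGraph W} (P : PL (cone T) F) [FiniteDimensional ℝ F] (s0 : Finset W)
    (hs : T.IsClique (s0 : Set W)) : s0.card ≤ Module.finrank ℝ F ∧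
      Nonempty (PL (lkCone T s0) (EuclideanSpace ℝ (Fin (Module.finrank ℝ F - s0.card)))) := by
  classical
  set U : Submodule ℝ F := Submodule.span ℝ (Set.range fun s : s0 => P.a s) with hU
  have hr : Module.finrank ℝ U = s0.card := by
    rw [hU, finrank_span_eq_card (P.linearIndependent hs), Fintype.card_coe]
  have hq := U.finrank_quotient_add_finrank
  refine ⟨by omega, ?_⟩
  set E := EuclideanSpace ℝ (Fin (Module.finrank ℝ F - s0.card))
  let e : (F ⧸ U) ≃ₗ[ℝ] E := LinearEquiv.ofFinrankEq _ _ (by simp [E]; omega)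
  let π : F →ₗ[ℝ] E := e.toLinearMap ∘ₗ U.mkQ
  have hπ : ∀ y, π y = 0 ↔ y ∈ U := fun y => by simp [π]
  have hsurj : LinearMap.range π = ⊤ := by
    rw [LinearMap.range_eq_top]
    exact e.surjective.comp U.mkQ_surjective
  obtain ⟨σ, hσ⟩ := π.exists_rightInverse_of_surjective hsurj
  have hσ' : ∀ x, π (σ x) = x := fun x => LinearMap.congr_fun hσ x
  have hU1 : ∀ c : W → ℝ, (∀ w, c w ≠ 0 → w ∈ s0) → π (P.lin c) = 0 := by
    intro c hc
    rw [hπ, P.lin_apply]
    refine U.sum_mem fun w _ => ?_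
    by_cases k : c w = 0
    · simp [k]
    · exact U.smul_mem _ (Submodule.subset_span ⟨⟨w, hc w k⟩, rfl⟩)
  have hinj : ∀ z ∈ lkCone T s0, ∀ z' ∈ lkCone T s0, π (P.lin z) = π (P.lin z') → z = z' := by
    intro z hz z' hz' h
    have h1 : P.lin z - P.lin z' ∈ U := by rw [← hπ, map_sub, h, sub_self]
    obtain ⟨g, hg⟩ := (Submodule.mem_span_range_iff_exists_fun ℝ).1 h1
    let c : W → ℝ := fun w => if h : w ∈ s0 then g ⟨w, h⟩ else 0
    have hc : ∀ w, c w ≠ 0 → w ∈ s0 := fun w h => by
      by_contra k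
      exact h (by simp [c, k])
    refine (P.link_key hs hz hz' hc ?_).1
    rw [P.lin_apply c, ← Finset.sum_subset (Finset.subset_univ s0) (fun w _ k => by simp [c, k]),
      ← Finset.sum_coe_sort s0, ← hg]
    exact Finset.sum_congr rfl fun w _ => by simp [c]
  obtain ⟨L, hL⟩ := P.lip
  let one : W → ℝ := fun w => if w ∈ s0 then 1 else 0
  have hone : ∀ w, one w ≠ 0 → w ∈ s0 := fun w h => by
    by_contra k
    exact h (by simp [one, k])
  have hone' : one ∈ cone T := by
    have := add_mem_cone hs (zero_mem_lkCone T s0) (c := one)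
      (fun w => by simp only [one]; split_ifs <;> norm_num) hone
    rwa [zero_add] at this
  let cut : (W → ℝ) → W → ℝ := fun z w => if w ∈ s0 then 0 else z w
  let Q : F → ℝ → W → ℝ := fun y R => cut (P.q (y + R • P.lin one))
  have hQ : ∀ y R, L * ‖y‖ < R → Q y R ∈ lkCone T s0 ∧ π (P.lin (Q y R)) = π y := by
    intro y R hR
    have hR0 : 0 ≤ R := le_trans (by positivity) hR.le
    set z := P.q (y + R • P.lin one) with hz
    have hm : z ∈ cone T := P.mem _
    have hpos : ∀ s ∈ s0, z s ≠ 0 := by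
      intro s hs0
      have h1 : P.q (R • P.lin one) s = R := by
        rw [← map_smul, P.q_lin (smul_mem_cone hone' hR0)]
        simp [one, hs0]
      have h2 := (dist_le_pi_dist z (P.q (R • P.lin one)) s).trans
        (hL.dist_le_mul (y + R • P.lin one) (R • P.lin one))
      rw [h1, dist_eq_norm (y + _), add_sub_cancel_right, Real.dist_eq] at h2
      have := (abs_le.1 h2).1
      exact ne_of_gt (by linarith)
    have hcut : ∀ w, cut z w ≠ 0 → w ∉ s0 ∧ z w ≠ 0 := by
      intro w h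
      by_cases k : w ∈ s0
      · exact absurd (by simp [cut, k]) h
      · exact ⟨k, by simpa [cut, k] using h⟩
    refine ⟨⟨⟨fun w => ?_, fun w w' hne h1 h2 => hm.2 w w' hne (hcut w h1).2 (hcut w' h2).2⟩,
      fun w h s hs0 => hm.2 s w (fun k => (hcut w h).1 (k ▸ hs0)) (hpos s hs0) (hcut w h).2⟩, ?_⟩
    · simp only [Q, cut]
      split_ifs
      · exact le_rfl
      · exact hm.1 w
    · have h1 := hU1 (z - cut z) fun w h => by
        by_contra k
        exact h (by simp [cut, k])
      rw [map_sub, map_sub, hz, P.lin_q, map_add, map_smul, hU1 one hone, smul_zero, add_zero,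
        sub_eq_zero] at h1
      exact h1.symm
  have hlin : ∀ z : W → ℝ, ∑ w, z w • π (P.a w) = π (P.lin z) := fun z => by
    rw [P.lin_apply, map_sum]; simp only [map_smul]
  let σ' : E →L[ℝ] F := LinearMap.toContinuousLinearMap σ
  refine ⟨⟨fun w => π (P.a w), fun x => Q (σ x) (L * ‖σ x‖ + 1),
    fun x => (hQ _ _ (lt_add_one _)).1, fun x => ?_, fun z hz => ?_, L * ‖σ'‖₊, ?_⟩⟩
  · rw [hlin, (hQ _ _ (lt_add_one _)).2, hσ']
  · refine hinj _ (hQ _ _ (lt_add_one _)).1 _ hz ?_
    rw [(hQ _ _ (lt_add_one _)).2, hσ', hlin]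
  · refine LipschitzWith.of_dist_le_mul fun x x' => ?_
    set R := L * ‖σ x‖ + L * ‖σ x'‖ + 1 with hR
    have p1 : 0 ≤ L * ‖σ x‖ := by positivity
    have p2 : 0 ≤ L * ‖σ x'‖ := by positivity
    have k1 := hQ (σ x) R (by linarith)
    have k2 := hQ (σ x') R (by linarith)
    rw [hinj _ (hQ (σ x) _ (lt_add_one _)).1 _ k1.1 (by rw [(hQ _ _ (lt_add_one _)).2, k1.2]),
      hinj _ (hQ (σ x') _ (lt_add_one _)).1 _ k2.1 (by rw [(hQ _ _ (lt_add_one _)).2, k2.2])]
    refine (dist_pi_le_iff (by positivity)).2 fun w => ?_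
    simp only [Q, cut]
    split_ifs
    · rw [dist_self]; positivity
    · refine (dist_le_pi_dist _ _ w).trans ((hL.dist_le_mul _ _).trans ?_)
      rw [dist_add_right, NNReal.coe_mul, mul_assoc]
      exact mul_le_mul_of_nonneg_left (σ'.lipschitz.dist_le_mul x x') L.2

end PL

section SM

variable [Fintype W] {T : SimpleGraph W} {E : Type} [NormedAddCommGroup E] [NormedSpace ℝ E]

omit [Fintype W] in
theorem SM.range_eq (H : SM T E) : Set.range H.h = cone T :=
  Set.ext fun z => ⟨fun ⟨x, hx⟩ => hx ▸ H.mem x, H.surj z⟩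

theorem SM.contDiff (H : SM T E) : ContDiff ℝ ∞ H.h := contDiff_pi.2 H.smooth

theorem SM.isProperMap (H : SM T E) [FiniteDimensional ℝ E] : IsProperMap H.h := by
  have := FiniteDimensional.proper_real E
  rw [isProperMap_iff_isCompact_preimage]
  refine ⟨H.contDiff.continuous, fun {K} hK => ?_⟩
  obtain ⟨R, hR⟩ := hK.isBounded.exists_norm_le
  obtain ⟨R', hR'⟩ := H.proper R
  refine Metric.isCompact_of_isClosed_isBounded (hK.isClosed.preimage H.contDiff.continuous) ?_
  refine (isBounded_iff_forall_norm_le.2 ⟨R', fun x hx => hR' x fun w => ?_⟩)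
  exact (le_abs_self _).trans ((norm_le_pi_norm (H.h x) w).trans (hR _ hx))

theorem SM.isClosedEmbedding (H : SM T E) [FiniteDimensional ℝ E] :
    Topology.IsClosedEmbedding H.h :=
  .of_continuous_injective_isClosedMap H.contDiff.continuous H.inj H.isProperMap.isClosedMap

/-- the smooth chart as a homeomorphism onto the cone -/
noncomputable def SM.homeo (H : SM T E) [FiniteDimensional ℝ E] : E ≃ₜ cone T :=
  H.isClosedEmbedding.isEmbedding.toHomeomorph.trans (Homeomorph.setCongr H.range_eq)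

theorem SM.homeo_apply (H : SM T E) [FiniteDimensional ℝ E] (x : E) : (H.homeo x).1 = H.h x := rfl

end SM

/-- The chart of the link of a clique of the sphere. -/
theorem Sphere.link {V S : Type} [Fintype V] [Fintype S] {K : SimpleGraph V} (X : Sphere K S)
    (s0 : Finset (V ⊕ S)) (hs : X.T.IsClique (s0 : Set (V ⊕ S))) : s0.card ≤ Fintype.card V ∧
      Nonempty (PL (lkCone X.T s0) (EuclideanSpace ℝ (Fin (Fintype.card V - s0.card)))) := by
  have := X.pl.link s0 hs
  rwa [Module.finrank_fintype_fun_eq_card] at this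

end Pool.Agent.Lib.MP_c2693b_gt.Tri
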