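import Pool.Agent.Lib.MP_c2693b_gt.LkCell
import Pool.Agent.Lib.MP_c2693b_gt.Tri

/-! Section 8: the piecewise linear chart of a cone algebra with cells. -/

namespace Pool.Agent.Lib.MP_c2693b_gt.Lk.Cells

open Set ConeAlg Tri

variable {W : Type} [Fintype W] {g : W → W → ℝ} {T : SimpleGraph W} {U : Set W} {C : Type}
  [ConeAlg C] (X : Cells T U g C)

/-- Points near `v` have all the coordinates of `v` positive. -/
lemma supp_near (v : C) : ∃ ε, 0 < ε ∧ ∀ a, dist a v < ε → ∀ w, X.co v w ≠ 0 → X.co a w ≠ 0 := by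
  have : ∀ᶠ a in nhds v, ∀ w, X.co v w ≠ 0 → X.co a w ≠ 0 := by
    refine Filter.eventually_all.2 fun w => ?_
    by_cases h : X.co v w = 0
    · exact .of_forall fun a k => absurd h k
    · exact (((continuous_apply w).comp X.continuous_co).continuousAt.eventually_ne h).mono
        fun a k _ => k
  obtain ⟨ε, h0, h⟩ := Metric.eventually_nhds_iff.1 this
  exact ⟨ε, h0, fun a ha => h ha⟩

/-- A narrow cone round `v` lies in the star of the support of `v`. -/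
lemma star_near {v : C} (hv : v ≠ o) : ∃ c0, -nm v < c0 ∧ c0 ≤ 0 ∧
    ∀ z, -ip v z ≤ c0 * nm z → z ≠ o → ∀ w, X.co v w ≠ 0 → X.co z w ≠ 0 := by
  have h0 : 0 < nm v := (nm_nonneg v).lt_of_ne' fun e => hv (nm_eq_zero.1 e)
  obtain ⟨ε, e0, hε⟩ := X.supp_near v
  have hd : 0 < min (nm v) (ε ^ 2 / (4 * nm v)) := lt_min h0 (by positivity)
  refine ⟨-nm v + min (nm v) (ε ^ 2 / (4 * nm v)), by linarith,
    by linarith [min_le_left (nm v) (ε ^ 2 / (4 * nm v))], fun z hz hz0 w hw k => ?_⟩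
  have z0 : 0 < nm z := (nm_nonneg z).lt_of_ne' fun e => hz0 (nm_eq_zero.1 e)
  have hl : 0 ≤ nm v / nm z := by positivity
  refine hε (sm (nm v / nm z) z) ?_ w hw (by rw [X.co_sm hl]; simp [k])
  refine (sq_lt_sq₀ dist_nonneg e0.le).1 ?_
  have h1 : min (nm v) (ε ^ 2 / (4 * nm v)) * (4 * nm v) ≤ ε ^ 2 :=
    (le_div_iff₀ (by positivity)).1 (min_le_right _ _)
  have h2 := mul_le_mul_of_nonneg_left hz hl
  rw [dist_sq, ← nm_sq, ← nm_sq, nm_sm hl, div_mul_cancel₀ _ z0.ne', ip_sm hl, ip_comm z v]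
  rw [mul_left_comm, div_mul_cancel₀ _ z0.ne'] at h2
  nlinarith [sq_pos_of_pos e0]

lemma star_near_add {v : C} (hv : v ≠ o) : ∃ c0, -nm v < c0 ∧ c0 ≤ 0 ∧
    ∀ z s, 0 ≤ s → -ip v z ≤ c0 * nm z → X.co z + X.co (sm s v) ∈ cone T := by
  obtain ⟨c0, h1, h2, h⟩ := X.star_near hv
  refine ⟨c0, h1, h2, fun z s hs hz => ?_⟩
  by_cases hz0 : z = o
  · rw [hz0, X.co_o, zero_add]
    exact X.mem _
  · refine add_mem_cone (clique_of_cone (X.mem z)) (X.nonneg z) (X.nonneg _) (fun _ k => k)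
      fun w hw => h z hz hz0 w fun k => hw ?_
    rw [X.co_sm hs]
    simp [k]

variable {F : Type} [NormedAddCommGroup F] [NormedSpace ℝ F] {A : Set (W → ℝ)}

/-- The piecewise linear chart, bi-Lipschitz, homogeneous and additive on cells. -/
theorem chart (Q : PL A F) (hA : ∀ z, z ∈ A ↔ z ∈ cone T ∧ ∀ w, z w ≠ 0 → w ∈ U) :
    ∃ (P : C ≃ F) (K : ℝ), 0 ≤ K ∧ (∀ a b, ‖P a - P b‖ ≤ K * dist a b) ∧
      (∀ a b, dist a b ≤ K * ‖P a - P b‖) ∧ (∀ l, 0 ≤ l → ∀ a, P (sm l a) = l • P a) ∧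
      (∀ a b, X.co a + X.co b ∈ cone T → P (ad a b) = P a + P b) ∧
      ∀ a, P a = Q.lin (X.co a) := by
  have hm : ∀ a, X.co a ∈ A := fun a => (hA _).2 ⟨X.mem a, X.supp a⟩
  have hb : Function.Bijective fun a => Q.lin (X.co a) := by
    refine ⟨fun a b h => X.inj (Q.injOn (hm a) (hm b) h), fun x => ?_⟩
    obtain ⟨a, ha⟩ := X.surj _ ((hA _).1 (Q.mem x)).1 ((hA _).1 (Q.mem x)).2
    exact ⟨a, by simp only [ha, Q.lin_q]⟩
  obtain ⟨L1, p1, h1⟩ := X.co_le_dist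
  obtain ⟨L2, p2, h2⟩ := X.dist_le_co
  obtain ⟨L3, h3⟩ := Q.lip
  let f := LinearMap.toContinuousLinearMap Q.lin
  have q1 : 0 ≤ ‖f‖ * L1 := by positivity
  have q2 : 0 ≤ L2 * L3 := by positivity
  refine ⟨Equiv.ofBijective _ hb, ‖f‖ * L1 + L2 * L3, by positivity, fun a b => ?_,
    fun a b => ?_, fun l hl a => ?_, fun a b h => ?_, fun a => rfl⟩
  · simp only [Equiv.ofBijective_apply, ← map_sub]
    have a1 := (f.le_opNorm (X.co a - X.co b)).trans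
      (mul_le_mul_of_nonneg_left (h1 a b) (norm_nonneg f))
    have a2 := mul_nonneg q2 (dist_nonneg (x := a) (y := b))
    have a3 : f (X.co a - X.co b) = Q.lin (X.co a - X.co b) := rfl
    rw [a3] at a1
    linarith
  · simp only [Equiv.ofBijective_apply]
    have a1 := h3.dist_le_mul (Q.lin (X.co a)) (Q.lin (X.co b))
    rw [Q.q_lin (hm a), Q.q_lin (hm b), dist_eq_norm, dist_eq_norm] at a1
    have a2 := (h2 a b).trans (mul_le_mul_of_nonneg_left a1 p2.le)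
    have a3 := mul_nonneg q1 (norm_nonneg (Q.lin (X.co a) - Q.lin (X.co b)))
    linarith
  · simp only [Equiv.ofBijective_apply, X.co_sm hl, map_smul]
  · simp only [Equiv.ofBijective_apply, X.co_ad h, map_add]

/-- The data needed for the two ends of the flow theorem. -/
theorem chart_feed (X : Cells T U g C) (Q : PL A F)
    (hA : ∀ z, z ∈ A ↔ z ∈ cone T ∧ ∀ w, z w ≠ 0 → w ∈ U) {v : C} (hv : v ≠ o) :
    ∃ (P : C ≃ F) (K c0 : ℝ), 0 ≤ K ∧ (∀ a b, ‖P a - P b‖ ≤ K * dist a b) ∧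
      (∀ a b, dist a b ≤ K * ‖P a - P b‖) ∧ (∀ l, 0 ≤ l → ∀ a, P (sm l a) = l • P a) ∧
      -nm v < c0 ∧ c0 ≤ 0 ∧
      ∀ z s, 0 ≤ s → -ip v z ≤ c0 * nm z → P (ad z (sm s v)) = P z + s • P v := by
  obtain ⟨P, K, h0, h1, h2, h3, h4, -⟩ := X.chart Q hA
  obtain ⟨c0, a1, a2, a3⟩ := X.star_near_add hv
  exact ⟨P, K, c0, h0, h1, h2, h3, a1, a2, fun z s hs hz => by rw [h4 _ _ (a3 z s hs hz), h3 s hs]⟩

/-- The chart as a homeomorphism. -/
theorem homeo (X : Cells T U g C) (Q : PL A F)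
    (hA : ∀ z, z ∈ A ↔ z ∈ cone T ∧ ∀ w, z w ≠ 0 → w ∈ U) :
    ∃ P : C ≃ₜ F, ∀ l, 0 ≤ l → ∀ a, P (sm l a) = l • P a := by
  obtain ⟨P, K, h0, h1, h2, h3, -⟩ := X.chart Q hA
  refine ⟨⟨P, (LipschitzWith.of_dist_le_mul (K := ⟨K, h0⟩) fun a b => ?_).continuous,
    (LipschitzWith.of_dist_le_mul (K := ⟨K, h0⟩) fun a b => ?_).continuous⟩, h3⟩
  · rw [dist_eq_norm]
    exact h1 a b
  · have := h2 (P.symm a) (P.symm b)
    rw [P.apply_symm_apply, P.apply_symm_apply, ← dist_eq_norm] at this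
    exact this

omit [Fintype W] in
lemma mem_lkCone (T : SimpleGraph W) (s0 : Finset W) (z : W → ℝ) :
    z ∈ lkCone T s0 ↔ z ∈ cone T ∧ ∀ w, z w ≠ 0 → w ∈ {w | ∀ s ∈ s0, T.Adj s w} := Iff.rfl

end Pool.Agent.Lib.MP_c2693b_gt.Lk.Cells
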