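import Pool.Agent.Lib.MP_c2693b_gt.ConeCN

/-! Section 8: comparison of heights. -/

namespace Pool.Agent.Lib.MP_c2693b_gt

open ConeAlg

variable {C : Type*} [ConeAlg C]

/-- The defect between the height for `v` and the height seen from `u`. -/
def dfc (u v : C) (t : ℝ) (a : C) : ℝ := ip (ad u (sm t v)) a - ip u a - t * ip v a

theorem dfc_nonneg (u v a : C) {t : ℝ} (ht : 0 ≤ t) : 0 ≤ dfc u v t a := by
  have := ip_ad' a u (sm t v)
  rw [ip_sm ht] at this
  unfold dfc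
  linarith

theorem dfc_sm (u v a : C) (t : ℝ) {l : ℝ} (hl : 0 ≤ l) :
    dfc u v t (sm l a) = l * dfc u v t a := by
  simp only [dfc, ip_sm' hl]
  ring

theorem dfc_sub_le (u v a b : C) {t : ℝ} (ht : 0 ≤ t) :
    dfc u v t a - dfc u v t b ≤ 2 * dist u a * dist a b := by
  have h1 := ip_ad_left a (sm t v)
  have h2 := ip_ad' b a (sm t v)
  have h3 := bn_le (ad u (sm t v)) (ad a (sm t v)) a b
  have h4 := bn_le a u a b
  have h5 := mul_le_mul_of_nonneg_right (dist_ad_le u a (sm t v)) (dist_nonneg (x := a) (y := b))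
  rw [ip_sm' ht, ip_comm a (ad _ _), ip_comm a v] at h1
  rw [ip_sm ht] at h2
  rw [dist_comm a u] at h4
  unfold dfc
  linarith

/-- The defect is Lipschitz with a small constant on the cone over a small ball round `u`. -/
theorem dfc_cone (u v a b : C) {t η : ℝ} (ht : 0 ≤ t) (hη : 0 ≤ η)
    (ha : a ≠ o → ∃ l, 0 < l ∧ dist (sm l a) u < η) :
    dfc u v t a - dfc u v t b ≤ 2 * η * dist a b := by
  by_cases h : a = o
  · have h1 := dfc_nonneg u v b ht
    have h2 : dfc u v t a = 0 := by simp [dfc, h, ip_o']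
    have h3 : 0 ≤ 2 * η * dist a b := by positivity
    linarith
  obtain ⟨l, l0, hl⟩ := ha h
  have h1 := dfc_sub_le u v (sm l a) (sm l b) ht
  rw [dfc_sm _ _ _ _ l0.le, dfc_sm _ _ _ _ l0.le, dist_sm l0.le, dist_comm u] at h1
  refine le_of_mul_le_mul_left ?_ l0
  nlinarith [mul_le_mul_of_nonneg_right hl.le
    (mul_nonneg l0.le (dist_nonneg (x := a) (y := b)))]

variable {E D : Type*} [NormedAddCommGroup E] [InnerProductSpace ℝ E] [ConeAlg D]

/-- The direction from `p` (on the flat factor) to `q`. -/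
noncomputable def dirTo (p q : CProd E D) (t : ℝ) : CProd E D := sm t⁻¹ ⟨q.1 - p.1, q.2⟩

theorem ip_dirTo {p : CProd E D} (hp : p.2 = o) (q x : CProd E D) {t : ℝ} (ht : 0 ≤ t) :
    ip (dirTo p q t) x = t⁻¹ * (ip q x - ip p x) := by
  rw [dirTo, ip_sm (inv_nonneg.2 ht)]
  simp only [CProd.ip_def, hp, ip_o, inner_ip, inner_sub_left]
  ring

theorem nm_dirTo {p : CProd E D} (hp : p.2 = o) (q : CProd E D) {t : ℝ} (ht : 0 ≤ t) :
    nm (dirTo p q t) = t⁻¹ * dist p q := by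
  rw [dirTo, nm_sm (inv_nonneg.2 ht)]
  congr 1
  refine (sq_eq_sq₀ (nm_nonneg _) dist_nonneg).1 ?_
  rw [CProd.nm_sq', CProd.dist_sq', hp, inner_nm, dist_comm p.1, dist_eq_norm, dist_comm o]
  rfl

/-- Comparison of heights through a map `j` that preserves the kernel on a set `A`. -/
theorem height_cmp (j : C → CProd E D) (A : Set C)
    (hj : ∀ a ∈ A, ∀ b ∈ A, ip (j a) (j b) = ip a b) {u : C} (hu : u ∈ A) (hju : (j u).2 = o)
    (v : C) {t : ℝ} (ht : 0 < t) (hQ : ad u (sm t v) ∈ A) :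
    ∃ v' : CProd E D, nm v' = nm v ∧ ∀ η, 0 ≤ η → ∀ a ∈ A, ∀ b ∈ A,
      (a ≠ o → ∃ l, 0 < l ∧ dist (sm l a) u < η) → (b ≠ o → ∃ l, 0 < l ∧ dist (sm l b) u < η) →
      |(-ip v a - -ip v b) - (-ip v' (j a) - -ip v' (j b))| ≤ 2 * η / t * dist a b := by
  refine ⟨dirTo (j u) (j (ad u (sm t v))) t, ?_, fun η hη a ha b hb h1 h2 => ?_⟩
  · have e : dist (j u) (j (ad u (sm t v))) = dist u (ad u (sm t v)) := by
      refine (sq_eq_sq₀ dist_nonneg dist_nonneg).1 ?_
      rw [dist_sq, dist_sq, hj _ hu _ hu, hj _ hQ _ hQ, hj _ hu _ hQ]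
    rw [nm_dirTo hju _ ht.le, e, dist_ad_left, nm_sm ht.le, inv_mul_cancel_left₀ ht.ne']
  · have a1 := dfc_cone u v a b ht.le hη h1
    have a2 := dfc_cone u v b a ht.le hη h2
    rw [dist_comm b a] at a2
    rw [ip_dirTo hju _ _ ht.le, ip_dirTo hju _ _ ht.le, hj _ hQ _ ha, hj _ hQ _ hb, hj _ hu _ ha,
      hj _ hu _ hb]
    have e : (-ip v a - -ip v b) - (-(t⁻¹ * (ip (ad u (sm t v)) a - ip u a)) -
        -(t⁻¹ * (ip (ad u (sm t v)) b - ip u b))) = t⁻¹ * (dfc u v t a - dfc u v t b) := by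
      unfold dfc
      field_simp
      ring
    rw [e, abs_mul, abs_of_pos (inv_pos.2 ht), div_mul_eq_mul_div, div_eq_inv_mul]
    exact mul_le_mul_of_nonneg_left (abs_le.2 ⟨by linarith, a1⟩) (inv_pos.2 ht).le

end Pool.Agent.Lib.MP_c2693b_gt
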