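import Pool.Agent.Lib.MP_c2693b_gt.TfChart
import Pool.Agent.Lib.MP_c2693b_gt.ConeCN

/-! Section 8: the local model cone is homogeneously homeomorphic to Euclidean space. -/

namespace Pool.Agent.Lib.MP_c2693b_gt

open ConeAlg

/-- The product of cone algebras is the topological product. -/
noncomputable def CProd.homeo (C D : Type*) [ConeAlg C] [ConeAlg D] : CProd C D ≃ₜ C × D where
  toFun a := (a.1, a.2)
  invFun p := ⟨p.1, p.2⟩
  left_inv _ := rfl
  right_inv _ := rfl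
  continuous_toFun := CProd.continuous_fst.prodMk CProd.continuous_snd
  continuous_invFun := CProd.continuous_mk

theorem CProd.homeo_euc {C : Type*} [ConeAlg C] {k m n : ℕ} (hn : k + m = n)
    (P : C ≃ₜ EuclideanSpace ℝ (Fin m)) (hP : ∀ l, 0 ≤ l → ∀ a, P (sm l a) = l • P a) :
    ∃ e : CProd (EuclideanSpace ℝ (Fin k)) C ≃ₜ EuclideanSpace ℝ (Fin n),
      ∀ l, 0 ≤ l → ∀ a, e (sm l a) = l • e a := by
  let L : (EuclideanSpace ℝ (Fin k) × EuclideanSpace ℝ (Fin m)) ≃L[ℝ] EuclideanSpace ℝ (Fin n) :=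
    ContinuousLinearEquiv.ofFinrankEq (by simp [hn])
  refine ⟨(CProd.homeo _ C).trans (((Homeomorph.refl _).prodCongr P).trans L.toHomeomorph),
    fun l hl a => ?_⟩
  change L (l • a.1, P (sm l a.2)) = l • L (a.1, P a.2)
  rw [hP l hl, ← map_smul L]
  rfl

namespace Lk

open Tri

variable {V S : Type} [Fintype V] [Fintype S] {K : SimpleGraph V}

theorem link_homeo (P : Sphere K S) (s0 : Finset (V ⊕ S)) (hs : P.T.IsClique (s0 : Set (V ⊕ S)))
    {g : V ⊕ S → V ⊕ S → ℝ} {C : Type} [ConeAlg C]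
    (X : Cells P.T {w | ∀ s ∈ s0, P.T.Adj s w} g C) :
    ∃ e : C ≃ₜ EuclideanSpace ℝ (Fin (Fintype.card V - s0.card)),
      ∀ l, 0 ≤ l → ∀ a, e (sm l a) = l • e a := by
  obtain ⟨-, ⟨Q⟩⟩ := P.link s0 hs
  exact X.homeo Q (Cells.mem_lkCone P.T s0)

theorem prod_homeo (P : Sphere K S) (s0 : Finset (V ⊕ S)) (hs : P.T.IsClique (s0 : Set (V ⊕ S)))
    {g : V ⊕ S → V ⊕ S → ℝ} {C : Type} [ConeAlg C]
    (X : Cells P.T {w | ∀ s ∈ s0, P.T.Adj s w} g C) {k : ℕ} (hk : k + 1 = s0.card) :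
    ∃ e : CProd (EuclideanSpace ℝ (Fin k)) C ≃ₜ EuclideanSpace ℝ (Fin (Fintype.card V - 1)),
      ∀ l, 0 ≤ l → ∀ a, e (sm l a) = l • e a := by
  obtain ⟨e, he⟩ := link_homeo P s0 hs X
  have := (P.link s0 hs).1
  exact CProd.homeo_euc (by omega) e he

end Lk

end Pool.Agent.Lib.MP_c2693b_gt
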