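import Pool.Agent.Lib.MP_c2693b_gt.TrMid
import Pool.Agent.Lib.MP_c2693b_gt.TeTop
import Pool.Agent.Lib.MP_c2693b_gt.TfChart
import Pool.Agent.Lib.MP_c2693b_gt.LkStar
import Pool.Agent.Lib.MP_c2693b_gt.Lk
import Pool.Agent.Lib.MP_c2693b_gt.Tri

namespace Pool.Agent.Lib.MP_c2693b_gt

open ConeAlg Lk Tri Sum

variable {S : Type} [Fintype S] [DecidableEq S]

theorem thmF_num {κ c₀ : ℝ} (hκ : 1 < κ) (l0 : -1 < c₀) (u0 : c₀ ≤ 0) : ∃ k k₁ c₁ c₂ : ℝ,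
    c₀ < c₁ ∧ c₁ < c₂ ∧ 1 < k₁ ∧ k₁ < k ∧ k * -c₀ < 1 ∧ k * c₂ < 1 ∧ k ≤ κ ∧ 1 < κ * c₁ ∧
      c₀ ≤ c₂ ∧ k * |c₀| < 1 ∧ k * |c₂| < 1 := by
  have κ0 : 0 < κ := by linarith
  obtain ⟨a, a0, a1, a2, a3⟩ : ∃ a : ℝ, 0 < a ∧ a < 1 ∧ 1 ≤ κ * a ∧ -c₀ ≤ a := by
    refine ⟨max (1 / κ) (-c₀), lt_max_of_lt_left (by positivity),
      max_lt ((div_lt_one κ0).2 hκ) (by linarith), ?_, le_max_right _ _⟩
    have := mul_le_mul_of_nonneg_left (le_max_left (1 / κ) (-c₀)) κ0.le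
    rwa [mul_one_div_cancel κ0.ne'] at this
  obtain ⟨k, k1, k2⟩ : ∃ k : ℝ, 1 < k ∧ k * (1 + a) = 2 :=
    ⟨2 / (1 + a), by rw [lt_div_iff₀ (by linarith)]; linarith, by field_simp⟩
  have ka : k * a < 1 := by linarith
  exact ⟨k, (1 + k) / 2, (5 * a + 1) / 6, (2 * a + 1) / 3, by linarith, by linarith, by linarith,
    by linarith, by nlinarith, by nlinarith, by nlinarith, by nlinarith, by linarith,
    by rw [abs_of_nonpos u0]; nlinarith, by rw [abs_of_pos (by linarith)]; nlinarith⟩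

theorem thmF_aux (X : Sphere kG S) {c : ℝ} (hc : c ^ 2 = 1 / 2) (n : ℕ) :
    ∀ s0 : Finset (KV ⊕ S), Fintype.card KV - s0.card = n → X.T.IsClique (s0 : Set (KV ⊕ S)) →
      (∃ v, inl v ∈ s0) → ∀ (C : Type) [ConeAlg C]
      (_ : Cells X.T {w | ∀ s ∈ s0, X.T.Adj s w} (gram c) C) (κ : ℝ), 1 < κ →
      ∀ v : C, FlowAt κ v := by
  induction n using Nat.strong_induction_on with
  | _ n ih =>
  rintro s0 hn hs ⟨x, hx⟩ C _ Y κ hκ
  have hc1 : |c| < 1 := by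
    rw [← sq_lt_one_iff_abs_lt_one, hc]; norm_num
  refine flowAt_of_unit' fun v hv => ?_
  have v0 : v ≠ o := by rintro rfl; simp at hv
  obtain ⟨-, ⟨Q⟩⟩ := X.link s0 hs
  obtain ⟨P, K, c₀, -, hP, hP', hsm, l0, u0, had⟩ :=
    Y.chart_feed Q (Cells.mem_lkCone X.T s0) v0
  rw [hv] at l0
  obtain ⟨k, k₁, c₁, c₂, n1, n2, n3, n4, n5, n6, n7, n8, n9, n10, n11⟩ := thmF_num hκ l0 u0
  have := Y.proper
  refine Tf.flow_of_middle v hv P hP hP' hsm u0 n1 n2 (n3.trans n4).le n5 n6 n7 n8 had ?_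
  refine between_mid hv n3.le n4 n9 n10 n11 fun u hu => ?_
  have u0' : u ≠ o := by rintro rfl; simp at hu
  obtain ⟨t, ht⟩ : ∃ t : Finset (KV ⊕ S), ∀ w, w ∈ t ↔ Y.co u w ≠ 0 :=
    ⟨(Set.toFinite {w | Y.co u w ≠ 0}).toFinset, fun w => Set.Finite.mem_toFinset _⟩
  have cl : X.T.IsClique ((s0 ∪ t : Finset (KV ⊕ S)) : Set (KV ⊕ S)) := by
    intro p hp q hq hpq
    simp only [Finset.coe_union, Set.mem_union, Finset.mem_coe, ht] at hp hq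
    rcases hp with hp | hp <;> rcases hq with hq | hq
    · exact hs hp hq hpq
    · exact Y.supp u q hq p hp
    · exact (Y.supp u p hp q hq).symm
    · exact clique_of_cone (Y.mem u) hp hq hpq
  have lt : s0.card < (s0 ∪ t).card := by
    refine Finset.card_lt_card ⟨Finset.subset_union_left, fun h => u0' ?_⟩
    refine Y.inj (funext fun w => ?_)
    rw [Y.co_o]
    by_contra hw
    exact X.T.irrefl (Y.supp u w hw w (h (Finset.mem_union_right _ ((ht w).2 hw))))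
  have le := (X.link _ cl).1
  obtain ⟨C1, _, ⟨Y1⟩⟩ := exists_cells X (s0 ∪ t) (Finset.mem_union_left _ hx) hc
  obtain ⟨m, k', j, hj, hju⟩ := star_gram hc1 (fun p q r hp hq hr e1 e2 e3 => by
      have f : ∀ y, inl y ∈ {w | ∀ s ∈ s0, X.T.Adj s w} → kG.Adj x y := fun y hy =>
        (X.t1 x y).1 (hy _ hx)
      exact kG_col ((X.t1 _ _).1 e3) (k_col_two (f q hq) (f p hp) (f r hr)
        ((X.t1 _ _).1 e1).symm ((X.t1 _ _).1 e2))) Y Y1 u0' (fun w => by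
      simp only [Set.mem_ofPred_eq, Finset.mem_union, ht]
      exact ⟨fun h => ⟨fun s a => h s (Or.inl a), fun s a => h s (Or.inr a)⟩,
        fun h s a => a.elim (h.1 s) (h.2 s)⟩)
  exact ⟨m, C1, inferInstance, k', j, hj, hju, flowAt_prod_inner n3.le
    (ih _ (by omega) (s0 ∪ t) rfl cl ⟨x, Finset.mem_union_left _ hx⟩ C1 Y1 _ n3)⟩

/-- The flow theorem for link cones. -/
theorem thmF (X : Sphere kG S) (s0 : Finset (KV ⊕ S)) (c : ℝ) (hc : c ^ 2 = 1 / 2)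
    (hs : X.T.IsClique (s0 : Set (KV ⊕ S))) (hx : ∃ v, inl v ∈ s0) (C : Type) [ConeAlg C]
    (Y : Cells X.T {w | ∀ s ∈ s0, X.T.Adj s w} (gram c) C) :
    ∀ κ : ℝ, 1 < κ → ∀ v : C, FlowAt κ v :=
  thmF_aux X hc _ s0 rfl hs hx C Y

end Pool.Agent.Lib.MP_c2693b_gt
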