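import Pool.Agent.Lib.MP_c2693b_gt.TopA
import Pool.Agent.Lib.MP_c2693b_gt.TrTop

/-! The main theorem. -/

open scoped Manifold ContDiff

namespace Pool.Agent.Lib.MP_c2693b_gt

theorem main : ∃ (n : ℕ) (M : Type) (_ : MetricSpace M) (_ : CompactSpace M) (_ : Nonempty M)
    (_ : ChartedSpace (Euc n) M) (_ : IsManifold (𝓡 n) ∞ M),
    LocallyCATneg M ∧ SphereBdry M n ∧ ¬ HasNPCSmoothing M :=
  main_of fun _ _ X s0 c hc hs hx C _ Y => by
    classical
    exact thmF X s0 c hc hs hx C Y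

end Pool.Agent.Lib.MP_c2693b_gt
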