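import Pool.Agent.Lib.MP_c2693b_gt.Brg
import Pool.Agent.Lib.MP_c2693b_gt.KTop
import Pool.Agent.Lib.MP_c2693b_gt.ArTop
import Pool.Agent.Lib.MP_c2693b_gt.TfHom
import Pool.Agent.Lib.MP_c2693b_gt.Tri

/-! The main theorem from the existence of flows on link cones. -/

open scoped Manifold ContDiff

namespace Pool.Agent.Lib.MP_c2693b_gt

open Set Sum Tri Lk

/-- Link cones carry flows in all directions. -/
def FlowStmt : Prop :=
  ∀ (S : Type) [Fintype S] (X : Sphere kG S) (s0 : Finset (KV ⊕ S)) (c : ℝ), c ^ 2 = 1 / 2 →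
    X.T.IsClique (s0 : Set (KV ⊕ S)) → (∃ v, inl v ∈ s0) → ∀ (C : Type) [ConeAlg C],
      Cells X.T {w | ∀ s ∈ s0, X.T.Adj s w} (gram c) C → ∀ κ, 1 < κ → ∀ v : C, FlowAt κ v

theorem main_of (hF : FlowStmt) : ∃ (n : ℕ) (M : Type) (_ : MetricSpace M) (_ : CompactSpace M)
    (_ : Nonempty M) (_ : ChartedSpace (Euc n) M) (_ : IsManifold (𝓡 n) ∞ M),
    LocallyCATneg M ∧ SphereBdry M n ∧ ¬ HasNPCSmoothing M := by
  classical
  obtain ⟨S, _, ⟨X⟩⟩ := exists_sphere kG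
  obtain ⟨P⟩ := Ar.exists_piece (S := S)
  obtain ⟨b, hb⟩ := KMap.not_npc P X
  obtain ⟨i1, i2⟩ := Cm.smooth_M P X b
  have hg := Cm.geodesic_M P X b
  have hM : HMod ((Cm.steps P X.T (KMap.kcol Prod.fst)).M b) (Fintype.card KV - 1) := fun m => by
    obtain ⟨s0, k, c, C, _, Y, r, j, h1, h2, h3, h4, h5⟩ := Cm.ball_M P X b m
    exact ⟨_, inferInstance, r, j, h1,
      fun κ hκ => flowAt_prod_inner hκ.le (hF S X s0 c h5 h2 h3 C Y κ hκ),
      prod_homeo X s0 h2 Y h4⟩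
  obtain ⟨r, hr⟩ := hM.locBus hg
  exact ⟨_, _, inferInstance, inferInstance, inferInstance, i1, i2, hM.locallyCATneg hg,
    hM.sphereBdry hg, hb r hr⟩

end Pool.Agent.Lib.MP_c2693b_gt
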