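import Pool.Agent.Lib.MP_c2693b_gt.Cone
import Pool.Agent.Lib.MP_c2693b_gt.TrDefs

namespace Pool.Agent.Lib.MP_c2693b_gt

open Set ConeAlg

namespace TrCap

variable {C E : Type*} [ConeAlg C] [NormedAddCommGroup E] [NormedSpace ℝ E]

/-- a gauge on the half space: Lipschitz, homogeneous, bounded below. -/
structure Gau (f : ℝ × E → ℝ) : Prop where
  lip : ∃ L, 0 ≤ L ∧ ∀ x y : ℝ × E, 0 ≤ x.1 → 0 ≤ y.1 → |f x - f y| ≤ L * ‖x - y‖
  low : ∃ δ, 0 < δ ∧ ∀ x : ℝ × E, 0 ≤ x.1 → δ * ‖x‖ ≤ f x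
  hom : ∀ l : ℝ, 0 < l → ∀ x : ℝ × E, 0 ≤ x.1 → f (l • x) = l * f x

theorem Gau.zero {f : ℝ × E → ℝ} (h : Gau f) : f 0 = 0 := by
  have := h.hom 2 two_pos 0 le_rfl
  rw [smul_zero] at this
  linarith

theorem Gau.pos {f : ℝ × E → ℝ} (h : Gau f) {x : ℝ × E} (hx : 0 ≤ x.1) (h0 : x ≠ 0) : 0 < f x := by
  obtain ⟨δ, a, e⟩ := h.low
  exact (mul_pos a (norm_pos_iff.2 h0)).trans_le (e x hx)

/-- radial rescaling. -/
noncomputable def rad (f g : ℝ × E → ℝ) (x : ℝ × E) : ℝ × E := (f x / g x) • x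

variable {f g : ℝ × E → ℝ}

theorem rad_zero : rad f g 0 = 0 := smul_zero _

theorem rad_mem (hf : Gau f) (hg : Gau g) {x : ℝ × E} (hx : 0 ≤ x.1) : 0 ≤ (rad f g x).1 := by
  rcases eq_or_ne x 0 with rfl | h0
  · simp [rad]
  · exact mul_nonneg (div_pos (hf.pos hx h0) (hg.pos hx h0)).le hx

theorem rad_fst (hf : Gau f) (hg : Gau g) {x : ℝ × E} (hx : 0 ≤ x.1) :
    (rad f g x).1 = 0 ↔ x.1 = 0 := by
  rcases eq_or_ne x 0 with rfl | h0
  · simp [rad]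
  · exact mul_eq_zero.trans (or_iff_right (div_pos (hf.pos hx h0) (hg.pos hx h0)).ne')

theorem rad_val (hf : Gau f) (hg : Gau g) {x : ℝ × E} (hx : 0 ≤ x.1) : g (rad f g x) = f x := by
  rcases eq_or_ne x 0 with rfl | h0
  · rw [rad_zero, hf.zero, hg.zero]
  · rw [rad, hg.hom _ (div_pos (hf.pos hx h0) (hg.pos hx h0)) x hx,
      div_mul_cancel₀ _ (hg.pos hx h0).ne']

theorem rad_hom (hf : Gau f) (hg : Gau g) {l : ℝ} (hl : 0 < l) {x : ℝ × E} (hx : 0 ≤ x.1) :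
    rad f g (l • x) = l • rad f g x := by
  rw [rad, rad, hf.hom l hl x hx, hg.hom l hl x hx, mul_div_mul_left _ _ hl.ne', smul_comm]

theorem rad_rad (hf : Gau f) (hg : Gau g) {x : ℝ × E} (hx : 0 ≤ x.1) :
    rad g f (rad f g x) = x := by
  rcases eq_or_ne x 0 with rfl | h0
  · rw [rad_zero, rad_zero]
  · have a := hf.pos hx h0
    have e := hg.pos hx h0
    rw [show rad f g x = (f x / g x) • x from rfl, rad_hom hg hf (div_pos a e) hx, rad, smul_smul,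
      show f x / g x * (g x / f x) = 1 by field_simp, one_smul]

theorem rad_lip (hf : Gau f) (hg : Gau g) :
    ∃ K, 0 ≤ K ∧ ∀ x y : ℝ × E, 0 ≤ x.1 → 0 ≤ y.1 → ‖rad f g x - rad f g y‖ ≤ K * ‖x - y‖ := by
  obtain ⟨L, hL, l1⟩ := hf.lip
  obtain ⟨M, hM, l2⟩ := hg.lip
  obtain ⟨δ, hδ, l3⟩ := hg.low
  have q : ∀ x : ℝ × E, 0 ≤ x.1 → |f x / g x| ≤ L / δ := fun x hx => by
    rcases eq_or_ne x 0 with rfl | h0
    · rw [hf.zero, zero_div, abs_zero]; positivity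
    · have a := l1 x 0 hx le_rfl
      rw [hf.zero, sub_zero, sub_zero] at a
      rw [abs_div, abs_of_pos (hg.pos hx h0), div_le_div_iff₀ (hg.pos hx h0) hδ]
      nlinarith [l3 x hx, mul_le_mul_of_nonneg_left (l3 x hx) hL]
  refine ⟨L / δ + L / δ * (M / δ) + L / δ, by positivity, fun x y hx hy => ?_⟩
  have p1 : 0 ≤ L / δ * ‖x - y‖ := by positivity
  have p2 : 0 ≤ L / δ * (M / δ) * ‖x - y‖ := by positivity
  have s1 : ‖(f y / g y) • (x - y)‖ ≤ L / δ * ‖x - y‖ := by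
    rw [norm_smul]; exact mul_le_mul_of_nonneg_right (q y hy) (norm_nonneg _)
  have s0 : rad f g x - rad f g y = (f x / g x - f y / g y) • x + (f y / g y) • (x - y) := by
    rw [rad, rad, sub_smul, smul_sub]; abel
  rcases eq_or_ne x 0 with rfl | h0
  · rw [s0, smul_zero, zero_add]; linarith
  rcases eq_or_ne y 0 with rfl | h1
  · rw [rad_zero, sub_zero, rad, norm_smul]
    rw [sub_zero] at p1 p2 ⊢
    have := mul_le_mul_of_nonneg_right (q x hx) (norm_nonneg x)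
    rw [Real.norm_eq_abs]
    linarith
  have a := hg.pos hx h0
  have e := hg.pos hy h1
  have s2 : f x / g x - f y / g y = (f x - f y + f y / g y * (g y - g x)) / g x := by
    field_simp; ring
  have s3 : |f x - f y + f y / g y * (g y - g x)| ≤ (L + L / δ * M) * ‖x - y‖ := by
    refine (abs_add_le _ _).trans ?_
    rw [abs_mul, abs_sub_comm (g y)]
    have := mul_le_mul (q y hy) (l2 x y hx hy) (abs_nonneg _) (by positivity)
    linarith [l1 x y hx hy]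
  have s4 : ‖x‖ / g x ≤ 1 / δ := by
    rw [div_le_div_iff₀ a hδ]; linarith [l3 x hx]
  have s5 : ‖(f x / g x - f y / g y) • x‖ ≤ (L + L / δ * M) * ‖x - y‖ * (1 / δ) := by
    rw [norm_smul, s2, Real.norm_eq_abs, abs_div, abs_of_pos a, div_mul_eq_mul_div, mul_div_assoc]
    exact mul_le_mul s3 s4 (by positivity) (by positivity)
  rw [s0]
  refine (norm_add_le _ _).trans ((add_le_add s5 s1).trans_eq ?_)
  ring

/-- a homogeneous bi-Lipschitz parametrisation of the cap by the half space. -/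
structure Par (b : C → ℝ) (c : ℝ) (J : ℝ × E → C) : Prop where
  map : ∀ x : ℝ × E, 0 ≤ x.1 → c * nm (J x) ≤ b (J x)
  sur : ∀ z, c * nm z ≤ b z → ∃ x : ℝ × E, 0 ≤ x.1 ∧ J x = z
  lip : ∃ K, 0 < K ∧ ∀ x y : ℝ × E, 0 ≤ x.1 → 0 ≤ y.1 →
    dist (J x) (J y) ≤ K * ‖x - y‖ ∧ ‖x - y‖ ≤ K * dist (J x) (J y)
  hom : ∀ l : ℝ, 0 < l → ∀ x : ℝ × E, 0 ≤ x.1 → J (l • x) = sm l (J x)
  bdr : ∀ x : ℝ × E, 0 ≤ x.1 → (b (J x) = c * nm (J x) ↔ x.1 = 0)

variable {b : C → ℝ} {c κ : ℝ} {J : ℝ × E → C}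

theorem Par.zero (h : Par b c J) : J 0 = o := by
  have := congrArg nm (h.hom 2 two_pos 0 le_rfl)
  rw [smul_zero, nm_sm zero_le_two] at this
  exact nm_eq_zero.1 (by linarith)

theorem Par.gau (h : Par b c J) : Gau fun x => nm (J x) := by
  obtain ⟨K, hK, l⟩ := h.lip
  refine ⟨⟨K, hK.le, fun x y hx hy => (abs_dist_sub_le _ _ _).trans (l x y hx hy).1⟩,
    ⟨1 / K, by positivity, fun x hx => ?_⟩, fun l hl x hx => by rw [h.hom l hl x hx, nm_sm hl.le]⟩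
  have := (l x 0 hx le_rfl).2
  rw [sub_zero, h.zero] at this
  rw [one_div, inv_mul_le_iff₀ hK]
  exact this

theorem Par.comp (h : Par b c J) (hf : Gau f) (hg : Gau g) : Par b c fun x => J (rad f g x) := by
  obtain ⟨K, hK, l⟩ := h.lip
  obtain ⟨K1, k1, l1⟩ := rad_lip hf hg
  obtain ⟨K2, k2, l2⟩ := rad_lip hg hf
  refine ⟨fun x hx => h.map _ (rad_mem hf hg hx), fun z hz => ?_,
    ⟨K * (K1 + K2 + 1), by positivity, fun x y hx hy => ?_⟩,
    fun l hl x hx => by rw [rad_hom hf hg hl hx, h.hom l hl _ (rad_mem hf hg hx)],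
    fun x hx => (h.bdr _ (rad_mem hf hg hx)).trans (rad_fst hf hg hx)⟩
  · obtain ⟨x, hx, rfl⟩ := h.sur z hz
    exact ⟨rad g f x, rad_mem hg hf hx, by rw [rad_rad hg hf hx]⟩
  · obtain ⟨a, e⟩ := l _ _ (rad_mem hf hg hx) (rad_mem hf hg hy)
    have s1 := l1 x y hx hy
    have s2 := l2 _ _ (rad_mem hf hg hx) (rad_mem hf hg hy)
    rw [rad_rad hf hg hx, rad_rad hf hg hy] at s2
    have n1 := norm_nonneg (x - y)
    have n2 : 0 ≤ dist (J (rad f g x)) (J (rad f g y)) := dist_nonneg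
    constructor
    · have := mul_le_mul_of_nonneg_left s1 hK.le
      nlinarith [mul_nonneg (mul_nonneg hK.le k2) n1, mul_nonneg hK.le n1]
    · have := mul_le_mul_of_nonneg_left e k2
      nlinarith [mul_nonneg (mul_nonneg hK.le k1) n2, mul_nonneg hK.le n2]

theorem Par.trk (h : Par b c J) (hb : Lp 1 b) (hh : ∀ l : ℝ, 0 < l → ∀ z, b (sm l z) = l * b z)
    (hc : 0 < c) (hκ : 0 < κ)
    (good : ∀ (y : E) (s t : ℝ), 0 ≤ s → s ≤ t →
      dist (J (s, y)) (J (t, y)) ≤ κ * (b (J (t, y)) - b (J (s, y)))) :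
    ∃ R, Trk b (fun l : {l : ℝ // 0 < l} => sm l.1) κ {z | c * nm z ≤ b z}
      {z | b z = c * nm z} ∅ R ∧ Reach R {z | c * nm z ≤ b z} {z | b z = c * nm z} := by
  obtain ⟨K, hK, l⟩ := h.lip
  have vert : ∀ (y : E) (s t : ℝ), 0 ≤ s → 0 ≤ t →
      dist (J (s, y)) (J (t, y)) ≤ κ * |b (J (s, y)) - b (J (t, y))| := fun y s t hs ht => by
    rcases le_total s t with e | e
    · exact (good y s t hs e).trans (mul_le_mul_of_nonneg_left
        (by rw [abs_sub_comm]; exact le_abs_self _) hκ.le)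
    · rw [dist_comm]
      exact (good y t s ht e).trans (mul_le_mul_of_nonneg_left (le_abs_self _) hκ.le)
  have hor : ∀ (y z : E) (s t r : ℝ), 0 ≤ s → 0 ≤ t → 0 ≤ r →
      dist (J (r, y)) (J (r, z)) ≤ K * K * dist (J (s, y)) (J (t, z)) := fun y z s t r hs ht hr => by
    have a := (l (r, y) (r, z) hr hr).1
    have e := (norm_snd_le ((s, y) - (t, z))).trans (l (s, y) (t, z) hs ht).2
    have u : ‖((r, y) : ℝ × E) - (r, z)‖ = ‖y - z‖ := by simp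
    rw [u] at a
    exact a.trans (by rw [mul_assoc]; exact mul_le_mul_of_nonneg_left e hK.le)
  have cont : ∀ (y : E) (s t : ℝ), 0 ≤ s → ContinuousOn (fun r => b (J (r, y))) (Icc s t) :=
    fun y s t hs => by
      refine (LipschitzOnWith.of_dist_le' (K := K) fun r hr u hu => ?_).continuousOn
      have a := (l (r, y) (u, y) (hs.trans hr.1) (hs.trans hu.1)).1
      have e : ‖((r, y) : ℝ × E) - (u, y)‖ = dist r u := by simp [Real.dist_eq]
      rw [e] at a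
      rw [Real.dist_eq]
      exact (hb.abs _ _).trans (by rw [one_mul]; exact a)
  have bot : ∀ y : E, b (J (0, y)) = c * nm (J (0, y)) := fun y => (h.bdr _ le_rfl).2 rfl
  refine ⟨fun p q => ∃ (y : E) (s t : ℝ), 0 ≤ s ∧ 0 ≤ t ∧ J (s, y) = p ∧ J (t, y) = q,
    ⟨⟨?_, ?_, ?_, ⟨(1 + κ) * (K * K) + κ, by positivity, ?_⟩, ?_⟩, ?_, ?_, ?_, empty_subset _, ?_, ?_,
      ?_, fun _ a => a.elim, ⟨K * K, by positivity, ?_⟩, ⟨0, le_rfl, fun _ _ _ _ _ _ a => a.elim⟩,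
      ?_, fun _ _ a => a.elim⟩, ?_⟩
  · rintro p q ⟨y, s, t, hs, ht, a, e⟩
    exact ⟨y, t, s, ht, hs, e, a⟩
  · rintro p q r ⟨y, s, t, hs, ht, a, e⟩ ⟨y', s', t', hs', ht', a', e'⟩
    have := (norm_snd_le ((t, y) - (s', y'))).trans (l (t, y) (s', y') ht hs').2
    rw [e, a', dist_self, mul_zero] at this
    obtain rfl : y = y' := sub_eq_zero.1 (norm_le_zero_iff.1 this)
    exact ⟨y, s, t', hs, ht', a, e'⟩
  · rintro p q ⟨y, s, t, hs, ht, rfl, rfl⟩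
    exact vert y s t hs ht
  · rintro p p' q q' ⟨y, s, t, hs, ht, rfl, rfl⟩ ⟨z, s', t', hs', ht', rfl, rfl⟩
    have a1 := hor y z s s' t hs hs' ht
    have a2 := vert z t t' ht ht'
    have a3 := hb.abs (J (t, z)) (J (t, y))
    have a4 := abs_sub_le (b (J (t, z))) (b (J (t, y))) (b (J (t', z)))
    have a5 := dist_triangle (J (t, y)) (J (t, z)) (J (t', z))
    rw [one_mul, dist_comm] at a3
    have a6 := mul_le_mul_of_nonneg_left (a4.trans (add_le_add_left (a3.trans a1) _)) hκ.le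
    have n1 : 0 ≤ κ * dist (J (s, y)) (J (s', z)) := by positivity
    have n2 : 0 ≤ (1 + κ) * (K * K) * |b (J (t, y)) - b (J (t', z))| := by positivity
    nlinarith
  · rintro i p q ⟨y, s, t, hs, ht, rfl, rfl⟩
    exact ⟨i.1 • y, i.1 * s, i.1 * t, mul_nonneg i.2.le hs, mul_nonneg i.2.le ht,
      h.hom i.1 i.2 (s, y) hs, h.hom i.1 i.2 (t, y) ht⟩
  · intro p hp
    obtain ⟨x, hx, rfl⟩ := h.sur p hp
    exact ⟨x.2, x.1, x.1, hx, hx, rfl, rfl⟩
  · rintro p q ⟨y, s, t, hs, ht, rfl, rfl⟩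
    exact h.map _ hs
  · exact fun p hp => le_of_eq (Eq.symm hp)
  · intro p hp σ hσ
    obtain ⟨⟨s, y⟩, hx, rfl⟩ := h.sur p hp
    rcases le_total σ (b (J (0, y))) with e | e
    · exact ⟨_, ⟨y, s, 0, hx, le_rfl, rfl, rfl⟩, .inr ⟨bot y, e⟩⟩
    · obtain ⟨r, hr, u⟩ := intermediate_value_Icc hx (cont y 0 s le_rfl) ⟨e, hσ⟩
      exact ⟨_, ⟨y, s, r, hx, hr.1, rfl, rfl⟩, .inl u⟩
  · intro p hp σ hσ
    obtain ⟨⟨s, y⟩, hx, rfl⟩ := h.sur p hp
    have a0 : s ≤ max s (K * σ / c) := le_max_left _ _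
    have a1 := (l (max s (K * σ / c), y) 0 (le_trans hx a0) le_rfl).2
    rw [sub_zero, h.zero] at a1
    have a2 := ((le_max_right s _).trans (le_abs_self _)).trans ((norm_fst_le _).trans a1)
    have a3 := h.map (max s (K * σ / c), y) (le_trans hx a0)
    have a4 : σ ≤ b (J (max s (K * σ / c), y)) := by
      rw [div_le_iff₀ hc, mul_assoc] at a2
      have := le_of_mul_le_mul_left a2 hK
      rw [mul_comm] at this
      exact this.trans a3
    obtain ⟨r, hr, u⟩ := intermediate_value_Icc a0 (cont y s _ hx) ⟨hσ, a4⟩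
    exact ⟨_, ⟨y, s, r, hx, le_trans hx hr.1, rfl, rfl⟩, .inl u⟩
  · rintro p q ⟨y, s, t, hs, ht, rfl, rfl⟩ e
    obtain rfl : t = 0 := (h.bdr _ ht).1 e
    have := dist_nonneg.trans (good y 0 s le_rfl hs)
    linarith [nonneg_of_mul_nonneg_right this hκ, (mul_nonneg_iff_of_pos_left hκ).1 this]
  · rintro p q p' q' ⟨y, s, t, hs, ht, rfl, rfl⟩ ⟨z, s', t', hs', ht', rfl, rfl⟩ e e'
    obtain rfl : t = 0 := (h.bdr _ ht).1 e
    obtain rfl : t' = 0 := (h.bdr _ ht').1 e'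
    exact hor y z s s' 0 hs hs' le_rfl
  · intro i p hp
    change b (sm i.1 p) = c * nm (sm i.1 p)
    rw [hh _ i.2, nm_sm i.2.le, show b p = c * nm p from hp]
    ring
  · intro p hp
    obtain ⟨⟨s, y⟩, hx, rfl⟩ := h.sur p hp
    exact ⟨_, bot y, y, s, 0, hx, le_rfl, rfl, rfl⟩

/-- the basic gauge. -/
def ga (x : ℝ × E) : ℝ := x.1 + ‖x.2‖

/-- the slope. -/
noncomputable def sl (x : ℝ × E) : ℝ := ‖x.2‖ / ga x

omit [NormedSpace ℝ E] in
theorem ga_lip (x y : ℝ × E) : |ga x - ga y| ≤ 2 * ‖x - y‖ := by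
  have a : |x.1 - y.1| ≤ ‖x - y‖ := norm_fst_le (x - y)
  have e := (abs_norm_sub_norm_le x.2 y.2).trans (norm_snd_le (x - y))
  have := abs_add_le (x.1 - y.1) (‖x.2‖ - ‖y.2‖)
  rw [show ga x - ga y = x.1 - y.1 + (‖x.2‖ - ‖y.2‖) by unfold ga; ring]
  linarith

omit [NormedSpace ℝ E] in
theorem ga_low {x : ℝ × E} (hx : 0 ≤ x.1) : ‖x‖ ≤ ga x := by
  rw [Prod.norm_def, Real.norm_of_nonneg hx]
  exact max_le (le_add_of_nonneg_right (norm_nonneg _)) (le_add_of_nonneg_left hx)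

theorem ga_hom {l : ℝ} (hl : 0 < l) (x : ℝ × E) : ga (l • x) = l * ga x := by
  simp [ga, norm_smul, abs_of_pos hl, mul_add]

theorem gau_ga : Gau (ga : ℝ × E → ℝ) :=
  ⟨⟨2, zero_le_two, fun x y _ _ => ga_lip x y⟩, ⟨1, one_pos, fun x hx => by
    rw [one_mul]; exact ga_low hx⟩, fun l hl x _ => ga_hom hl x⟩

theorem sl_mem {x : ℝ × E} (hx : 0 ≤ x.1) : 0 ≤ sl x ∧ sl x ≤ 1 :=
  ⟨div_nonneg (norm_nonneg _) ((norm_nonneg _).trans (ga_low hx)),
    div_le_one_of_le₀ (le_add_of_nonneg_left hx) ((norm_nonneg _).trans (ga_low hx))⟩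

theorem ga_sl {x : ℝ × E} (hx : 0 ≤ x.1) : ga x * sl x = ‖x.2‖ := by
  rcases eq_or_ne x 0 with rfl | h0
  · simp [ga]
  · exact mul_div_cancel₀ _ (gau_ga.pos hx h0).ne'

theorem exp_lip {u v : ℝ} (hu : 0 ≤ u) (hv : 0 ≤ v) :
    |Real.exp (-u) - Real.exp (-v)| ≤ |u - v| := by
  wlog h : u ≤ v generalizing u v
  · rw [abs_sub_comm, abs_sub_comm u]; exact this hv hu (le_of_not_ge h)
  have a : Real.exp (-v) = Real.exp (-u) * Real.exp (u - v) := by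
    rw [← Real.exp_add]; congr 1; ring
  have e := Real.add_one_le_exp (u - v)
  have p := Real.exp_pos (-u)
  have q : Real.exp (-u) ≤ 1 := Real.exp_le_one_iff.2 (by linarith)
  rw [abs_of_nonneg (sub_nonneg.2 (Real.exp_le_exp.2 (by linarith))), abs_sub_comm,
    abs_of_nonneg (sub_nonneg.2 h), a]
  nlinarith

theorem gau_exp {k : ℝ} (hk : 0 ≤ k) :
    Gau fun x : ℝ × E => ga x * Real.exp (-(k * sl x)) := by
  refine ⟨⟨2 + 3 * k, by positivity, fun x y hx hy => ?_⟩,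
    ⟨Real.exp (-k), Real.exp_pos _, fun x hx => ?_⟩, fun l hl x hx => ?_⟩
  · have a1 := ga_lip x y
    have a2 := exp_lip (mul_nonneg hk (sl_mem hx).1) (mul_nonneg hk (sl_mem hy).1)
    have a3 : Real.exp (-(k * sl x)) ≤ 1 :=
      Real.exp_le_one_iff.2 (neg_nonpos.2 (mul_nonneg hk (sl_mem hx).1))
    have a4 : 0 ≤ ga y := (norm_nonneg _).trans (ga_low hy)
    have a5 := (abs_norm_sub_norm_le x.2 y.2).trans (norm_snd_le (x - y))
    have a6 : ga y * |sl x - sl y| ≤ 3 * ‖x - y‖ := by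
      rw [← abs_of_nonneg a4, ← abs_mul, show ga y * (sl x - sl y) =
        (ga y - ga x) * sl x + (‖x.2‖ - ‖y.2‖) by rw [← ga_sl hx, ← ga_sl hy]; ring]
      refine (abs_add_le _ _).trans ?_
      rw [abs_mul, abs_of_nonneg (sl_mem hx).1, abs_sub_comm]
      nlinarith [(sl_mem hx).2, abs_nonneg (ga x - ga y)]
    rw [show ga x * Real.exp (-(k * sl x)) - ga y * Real.exp (-(k * sl y)) =
      (ga x - ga y) * Real.exp (-(k * sl x)) +
        ga y * (Real.exp (-(k * sl x)) - Real.exp (-(k * sl y))) by ring]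
    refine (abs_add_le _ _).trans ?_
    rw [abs_mul, abs_mul, abs_of_pos (Real.exp_pos _), abs_of_nonneg a4]
    rw [← mul_sub, abs_mul, abs_of_nonneg hk] at a2
    have a7 := mul_le_mul_of_nonneg_left a2 a4
    have a8 := mul_le_mul_of_nonneg_left a6 hk
    nlinarith [abs_nonneg (ga x - ga y)]
  · rw [mul_comm]
    refine mul_le_mul (ga_low hx) (Real.exp_le_exp.2 ?_) (Real.exp_pos _).le
      ((norm_nonneg _).trans (ga_low hx))
    nlinarith [(sl_mem hx).2]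
  · have : sl (l • x) = sl x := by
      rw [sl, sl, ga_hom hl, Prod.smul_snd, norm_smul, Real.norm_of_nonneg hl.le,
        mul_div_mul_left _ _ hl.ne']
    rw [this, ga_hom hl, mul_assoc]

theorem Par.cap (h : Par b c J) (hb : Lp 1 b) (hh : ∀ l : ℝ, 0 < l → ∀ z, b (sm l z) = l * b z)
    (hc : 0 < c) (hκ : 1 < κ * c) :
    ∃ R, Trk b (fun l : {l : ℝ // 0 < l} => sm l.1) κ {z | c * nm z ≤ b z}
      {z | b z = c * nm z} ∅ R ∧ Reach R {z | c * nm z ≤ b z} {z | b z = c * nm z} := by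
  have κ0 : 0 < κ := (mul_pos_iff_of_pos_right hc).1 (one_pos.trans hκ)
  have h1 := h.comp gau_ga h.gau
  have v1 : ∀ x : ℝ × E, 0 ≤ x.1 → nm (J (rad ga (fun x => nm (J x)) x)) = ga x :=
    fun x hx => rad_val gau_ga h.gau hx
  generalize hJ : (fun x => J (rad ga (fun x => nm (J x)) x)) = J₁ at h1
  replace v1 : ∀ x : ℝ × E, 0 ≤ x.1 → nm (J₁ x) = ga x := hJ ▸ v1
  obtain ⟨K, hK, l⟩ := h1.lip
  obtain ⟨η, hη, eη⟩ : ∃ η : ℝ, 0 < η ∧ 1 + η = κ * (c - η) :=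
    ⟨(κ * c - 1) / (1 + κ), div_pos (by linarith) (by linarith), by field_simp; ring⟩
  have hk : 0 ≤ K / η := by positivity
  refine (h1.comp (gau_exp hk) gau_ga).trk hb hh hc κ0 fun y s t hs hst => ?_
  have ht := hs.trans hst
  have b0 : b o = 0 := by
    have := hh 2 two_pos o
    rw [sm_o zero_le_two] at this
    linarith
  rcases eq_or_ne ((s, y) : ℝ × E) 0 with e | h0
  · rw [e, rad_zero, h1.zero, b0, sub_zero, dist_comm]
    have a := h1.map _ (rad_mem (gau_exp hk) gau_ga (x := (t, y)) ht)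
    have := mul_le_mul_of_nonneg_left a κ0.le
    change nm _ ≤ _
    nlinarith [nm_nonneg (J₁ (rad (fun x : ℝ × E => ga x * Real.exp (-(K / η * sl x))) ga (t, y)))]
  have n1 : 0 < ga ((s, y) : ℝ × E) := gau_ga.pos hs h0
  have n12 : ga ((s, y) : ℝ × E) ≤ ga ((t, y) : ℝ × E) := add_le_add_left hst _
  have n2 := n1.trans_le n12
  have key : ∀ x : ℝ × E, 0 ≤ x.1 → 0 < ga x →
      J₁ (rad (fun x : ℝ × E => ga x * Real.exp (-(K / η * sl x))) ga x) =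
        sm (ga x * Real.exp (-(K / η * sl x))) (J₁ ((ga x)⁻¹ • x)) := fun x hx p => by
    rw [← h1.hom _ (mul_pos p (Real.exp_pos _)) _ (mul_nonneg (inv_pos.2 p).le hx), smul_smul, rad,
      div_eq_mul_inv]
  rw [key _ hs n1, key _ ht n2]
  have m1 : 0 ≤ ((ga ((s, y) : ℝ × E))⁻¹ • ((s, y) : ℝ × E)).1 := mul_nonneg (inv_pos.2 n1).le hs
  have m2 : 0 ≤ ((ga ((t, y) : ℝ × E))⁻¹ • ((t, y) : ℝ × E)).1 := mul_nonneg (inv_pos.2 n2).le ht
  have u2 := v1 _ m2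
  rw [ga_hom (inv_pos.2 n2), inv_mul_cancel₀ n2.ne'] at u2
  have u3 := h1.map _ m2
  have w12 : sl ((t, y) : ℝ × E) ≤ sl ((s, y) : ℝ × E) :=
    div_le_div_of_nonneg_left (norm_nonneg _) n1 n12
  have d0 : ‖(ga ((s, y) : ℝ × E))⁻¹ • ((s, y) : ℝ × E) - (ga ((t, y) : ℝ × E))⁻¹ • ((t, y) : ℝ × E)‖ ≤
      sl ((s, y) : ℝ × E) - sl ((t, y) : ℝ × E) := by
    rw [Prod.norm_def]
    refine max_le (le_of_eq ?_) (le_of_eq ?_)
    · rw [← abs_of_nonneg (sub_nonneg.2 w12), abs_sub_comm, Real.norm_eq_abs]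
      congr 1
      change (ga ((s, y) : ℝ × E))⁻¹ * s - (ga ((t, y) : ℝ × E))⁻¹ * t = _
      have e1 : s = ga ((s, y) : ℝ × E) - ‖y‖ := by simp [ga]
      have e2 : t = ga ((t, y) : ℝ × E) - ‖y‖ := by simp [ga]
      simp only [sl]
      generalize ga ((s, y) : ℝ × E) = g1 at *
      generalize ga ((t, y) : ℝ × E) = g2 at *
      rw [e1, e2]
      field_simp
      ring
    · change ‖(ga ((s, y) : ℝ × E))⁻¹ • y - (ga ((t, y) : ℝ × E))⁻¹ • y‖ = _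
      rw [← sub_smul, norm_smul, Real.norm_of_nonneg (sub_nonneg.2 (inv_anti₀ n1 n12))]
      simp only [sl]
      ring
  have d1 := (l _ _ m1 m2).1.trans (mul_le_mul_of_nonneg_left d0 hK.le)
  generalize J₁ ((ga ((s, y) : ℝ × E))⁻¹ • ((s, y) : ℝ × E)) = θ₁ at *
  generalize J₁ ((ga ((t, y) : ℝ × E))⁻¹ • ((t, y) : ℝ × E)) = θ₂ at *
  generalize sl ((s, y) : ℝ × E) = w₁ at *
  generalize sl ((t, y) : ℝ × E) = w₂ at *
  generalize ga ((s, y) : ℝ × E) = g₁ at *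
  generalize ga ((t, y) : ℝ × E) = g₂ at *
  have r1 : 0 < g₁ * Real.exp (-(K / η * w₁)) := mul_pos n1 (Real.exp_pos _)
  have r2 : 0 < g₂ * Real.exp (-(K / η * w₂)) := mul_pos n2 (Real.exp_pos _)
  have r3 : g₁ * Real.exp (-(K / η * w₁)) * (K / η * (w₁ - w₂) + 1) ≤
      g₂ * Real.exp (-(K / η * w₂)) := by
    refine (mul_le_mul_of_nonneg_left (Real.add_one_le_exp _) r1.le).trans ?_
    rw [mul_assoc, ← Real.exp_add, show -(K / η * w₁) + K / η * (w₁ - w₂) = -(K / η * w₂) by ring]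
    exact mul_le_mul_of_nonneg_right n12 (Real.exp_pos _).le
  generalize g₁ * Real.exp (-(K / η * w₁)) = ρ₁ at *
  generalize g₂ * Real.exp (-(K / η * w₂)) = ρ₂ at *
  have r4 : ρ₁ * dist θ₁ θ₂ ≤ η * (ρ₂ - ρ₁) := by
    refine (mul_le_mul_of_nonneg_left d1 r1.le).trans ?_
    have : η * (ρ₁ * (K / η * (w₁ - w₂))) = ρ₁ * (K * (w₁ - w₂)) := by field_simp
    rw [← this]
    exact mul_le_mul_of_nonneg_left (by linarith) hη.le
  have r5 : 0 ≤ ρ₂ - ρ₁ :=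
    (mul_nonneg_iff_of_pos_left hη).1 ((mul_nonneg r1.le dist_nonneg).trans r4)
  have t1 := dist_triangle (sm ρ₁ θ₁) (sm ρ₁ θ₂) (sm ρ₂ θ₂)
  rw [dist_sm r1.le, dist_sm_sm r1.le r2.le, u2, abs_sub_comm, abs_of_nonneg r5] at t1
  have t2 := hb θ₁ θ₂
  rw [u2] at u3
  rw [hh _ r1, hh _ r2]
  have t3 : (c - η) * (ρ₂ - ρ₁) ≤ ρ₂ * b θ₂ - ρ₁ * b θ₁ := by
    nlinarith [mul_le_mul_of_nonneg_left u3 r5, mul_le_mul_of_nonneg_left t2 r1.le]
  have t4 := mul_le_mul_of_nonneg_left t3 κ0.le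
  rw [← mul_assoc, ← eη] at t4
  linarith

end TrCap

/-- the cap step: a homogeneous bi-Lipschitz parametrisation of the cap by the region above a
Lipschitz graph gives a track system on the cap. -/
theorem cap {C E : Type*} [ConeAlg C] [NormedAddCommGroup E] [NormedSpace ℝ E] {b : C → ℝ}
    (hb : Lp 1 b) (hh : ∀ l : ℝ, 0 < l → ∀ z, b (sm l z) = l * b z) {c κ : ℝ} (hc : 0 < c)
    (hκ : 1 < κ * c) {a : E → ℝ} {A : ℝ} (ha : Lp A a)
    (hah : ∀ l : ℝ, 0 < l → ∀ y, a (l • y) = l * a y) (J : ℝ × E → C) {K : ℝ}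
    (map : ∀ x : ℝ × E, -a x.2 ≤ x.1 → c * nm (J x) ≤ b (J x))
    (sur : ∀ z, c * nm z ≤ b z → ∃ x : ℝ × E, -a x.2 ≤ x.1 ∧ J x = z)
    (lip : ∀ x y : ℝ × E, -a x.2 ≤ x.1 → -a y.2 ≤ y.1 →
      dist (J x) (J y) ≤ K * ‖x - y‖ ∧ ‖x - y‖ ≤ K * dist (J x) (J y))
    (hom : ∀ l : ℝ, 0 < l → ∀ x : ℝ × E, -a x.2 ≤ x.1 → J (l • x) = sm l (J x))
    (bdr : ∀ x : ℝ × E, -a x.2 ≤ x.1 → (b (J x) = c * nm (J x) ↔ x.1 = -a x.2)) :
    ∃ R, Trk b (fun l : {l : ℝ // 0 < l} => sm l.1) κ {z | c * nm z ≤ b z}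
      {z | b z = c * nm z} ∅ R ∧ Reach R {z | c * nm z ≤ b z} {z | b z = c * nm z} := by
  have sh : ∀ (ε : ℝ), |ε| = 1 → ∀ x y : ℝ × E,
      ‖((x.1 + ε * a x.2, x.2) : ℝ × E) - (y.1 + ε * a y.2, y.2)‖ ≤ (1 + |A|) * ‖x - y‖ :=
    fun ε hε x y => by
      have a1 : |x.1 - y.1| ≤ ‖x - y‖ := norm_fst_le (x - y)
      have a2 : ‖x.2 - y.2‖ ≤ ‖x - y‖ := norm_snd_le (x - y)
      have a3 := ha.abs x.2 y.2
      rw [dist_eq_norm] at a3
      have a4 := a3.trans (mul_le_mul (le_abs_self A) a2 (norm_nonneg _) (abs_nonneg A))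
      have a5 : 0 ≤ |A| * ‖x - y‖ := by positivity
      rw [Prod.norm_def]
      refine max_le ?_ (by change ‖x.2 - y.2‖ ≤ _; linarith)
      change |x.1 + ε * a x.2 - (y.1 + ε * a y.2)| ≤ _
      rw [show x.1 + ε * a x.2 - (y.1 + ε * a y.2) = x.1 - y.1 + ε * (a x.2 - a y.2) by ring]
      refine (abs_add_le _ _).trans ?_
      rw [abs_mul, hε]
      linarith
  have mem : ∀ x : ℝ × E, 0 ≤ x.1 →
      -a ((x.1 + -1 * a x.2, x.2) : ℝ × E).2 ≤ ((x.1 + -1 * a x.2, x.2) : ℝ × E).1 :=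
    fun x hx => by dsimp only; linarith
  refine TrCap.Par.cap (J := fun x : ℝ × E => J (x.1 + -1 * a x.2, x.2))
    ⟨fun x hx => map _ (mem x hx), fun z hz => ?_,
      ⟨(|K| + 1) * (1 + |A|), by positivity, fun x y hx hy => ?_⟩, fun l hl x hx => ?_,
      fun x hx => (bdr _ (mem x hx)).trans ⟨fun e => by dsimp only at e; linarith,
        fun e => by dsimp only; linarith⟩⟩ hb hh hc hκ
  · obtain ⟨x, hx, rfl⟩ := sur z hz
    exact ⟨(x.1 + a x.2, x.2), by dsimp only; linarith, by simp⟩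
  · obtain ⟨e1, e2⟩ := lip _ _ (mem x hx) (mem y hy)
    have s1 := sh (-1) (by simp) x y
    have s2 := sh 1 (by simp) (x.1 + -1 * a x.2, x.2) (y.1 + -1 * a y.2, y.2)
    rw [show (((x.1 + -1 * a x.2, x.2) : ℝ × E).1 + 1 * a ((x.1 + -1 * a x.2, x.2) : ℝ × E).2,
        ((x.1 + -1 * a x.2, x.2) : ℝ × E).2) = x by simp,
      show (((y.1 + -1 * a y.2, y.2) : ℝ × E).1 + 1 * a ((y.1 + -1 * a y.2, y.2) : ℝ × E).2,
        ((y.1 + -1 * a y.2, y.2) : ℝ × E).2) = y by simp] at s2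
    have hK : K ≤ |K| + 1 := (le_abs_self K).trans (by linarith)
    constructor
    · rw [mul_assoc]
      exact e1.trans (mul_le_mul hK s1 (norm_nonneg _) (by positivity))
    · rw [mul_comm (|K| + 1), mul_assoc]
      exact s2.trans (mul_le_mul_of_nonneg_left
        (e2.trans (mul_le_mul_of_nonneg_right hK dist_nonneg)) (by positivity))
  · rw [← hom l hl _ (mem x hx)]
    congr 1
    ext
    · simp only [Prod.smul_fst, Prod.smul_snd, smul_eq_mul, hah l hl]; ring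
    · rfl

end Pool.Agent.Lib.MP_c2693b_gt
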