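import Pool.Agent.Lib.MP_c2693b_gt.TrDefs

namespace Pool.Agent.Lib.MP_c2693b_gt

variable {X Y ι : Type*} [MetricSpace X] [MetricSpace Y] {b : X → ℝ} {D : ι → X → X} {w : ι → ℝ}
  {κ : ℝ} {b' : Y → ℝ} {D' : ι → Y → Y} {κ₀ β η : ℝ} {φ : ℝ → Y → Y} {U : Set X} {j : X → Y}

/-- Two points of `U` whose images under the chart lie on one orbit of the model flow. -/
def ChR (U : Set X) (j : X → Y) (φ : ℝ → Y → Y) (p q : X) : Prop :=
  p ∈ U ∧ q ∈ U ∧ ∃ t, j q = φ t (j p)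

theorem IsFlow.dist_time {n : ℝ} (h : IsFlow b' D' w n κ₀ φ) (s t : ℝ) (y : Y) :
    dist (φ s y) (φ t y) ≤ κ₀ * n * |s - t| := by
  have := h.speed (s - t) (φ t y)
  rwa [← h.add, sub_add_cancel] at this

theorem IsFlow.loc_chart (h : IsFlow b' D' w 1 κ₀ φ) (hκ₀ : 0 ≤ κ₀) (hβ : 0 ≤ β) (hη : 0 ≤ η)
    (h1 : ∀ p ∈ U, ∀ q ∈ U, dist p q ≤ β * dist (j p) (j q))
    (h2 : ∀ p ∈ U, ∀ q ∈ U, dist (j p) (j q) ≤ β * dist p q)
    (hc : ∀ p ∈ U, ∀ q ∈ U, |(b p - b q) - (b' (j p) - b' (j q))| ≤ η * dist p q)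
    (hb' : Lp 1 b') (ha : β * κ₀ * η < 1) (hκ : β * κ₀ ≤ κ * (1 - β * κ₀ * η))
    (hU : ∀ i, ∀ p ∈ U, D i p ∈ U) (hj : ∀ i, ∀ p ∈ U, j (D i p) = D' i (j p)) :
    Loc b D κ (ChR U j φ) where
  symm := fun ⟨a, c, t, e⟩ => ⟨c, a, -t, by rw [e, ← h.add, neg_add_cancel, h.zero]⟩
  trans := fun ⟨a, _, t, e⟩ ⟨_, c, s, e'⟩ => ⟨a, c, s + t, by rw [e', e, h.add]⟩
  vert := by
    rintro p q ⟨a, c, t, e⟩
    have a1 := h1 p a q c
    have a2 := h.speed t (j p)
    rw [← e, dist_comm, mul_one] at a2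
    have a3 := hc p a q c
    rw [e, h.level] at a3
    have a4 : |t| ≤ |b p - b q| + η * dist p q := by
      have : t = (b p - b q - (b' (j p) - (b' (j p) + t * 1 ^ 2))) - (b p - b q) := by ring
      calc |t| = _ := congrArg abs this
        _ ≤ _ := abs_sub _ _
        _ ≤ _ := by linarith
    have a5 : dist p q ≤ β * κ₀ * (|b p - b q| + η * dist p q) := by
      have := mul_le_mul_of_nonneg_left a2 hβ
      have := mul_le_mul_of_nonneg_left a4 (mul_nonneg hβ hκ₀)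
      nlinarith
    have a6 := mul_le_mul_of_nonneg_right hκ (abs_nonneg (b p - b q))
    have hp : 0 < 1 - β * κ₀ * η := by linarith
    refine le_of_mul_le_mul_right ?_ hp
    nlinarith
  lip := by
    obtain ⟨K, k, l⟩ := h.lip
    have hp : 0 < 1 - β * κ₀ * η := by linarith
    refine ⟨(β * K * β + β * κ₀ * β + β * κ₀) / (1 - β * κ₀ * η), by positivity, ?_⟩
    rintro p p' q q' ⟨a, a', t, e⟩ ⟨c, c', s, e'⟩
    have d0 := dist_nonneg (x := p) (y := q)
    have d1 := abs_nonneg (b p' - b q')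
    have a1 := h1 p' a' q' c'
    have a2 := h2 p a q c
    have a3 : dist (j p') (j q') ≤ K * dist (j p) (j q) + κ₀ * |t - s| := by
      rw [e, e']
      have := h.dist_time t s (j q)
      have := l t (j p) (j q)
      have := dist_triangle (φ t (j p)) (φ t (j q)) (φ s (j q))
      linarith
    have a4 := hc p' a' q' c'
    rw [e, e', h.level, h.level] at a4
    have a5 := hb'.abs (j p) (j q)
    have a6 : |t - s| ≤ |b p' - b q'| + η * dist p' q' + β * dist p q := by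
      have a4' := abs_le.1 a4
      have a5' := abs_le.1 a5
      have := le_abs_self (b p' - b q')
      have := neg_abs_le (b p' - b q')
      rw [abs_le]; constructor <;> linarith [a4'.1, a4'.2, a5'.1, a5'.2]
    rw [div_mul_eq_mul_div, le_div_iff₀ hp]
    have b1 := mul_le_mul_of_nonneg_left a3 hβ
    have b2 := mul_le_mul_of_nonneg_left a6 (mul_nonneg hβ hκ₀)
    have b3 := mul_le_mul_of_nonneg_left a2 (mul_nonneg hβ k)
    have z1 : 0 ≤ β * K * β * |b p' - b q'| := by positivity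
    have z2 : 0 ≤ β * κ₀ * β * |b p' - b q'| := by positivity
    have z3 : 0 ≤ β * κ₀ * dist p q := by positivity
    nlinarith
  inv := fun i _ _ ⟨a, c, t, e⟩ =>
    ⟨hU i _ a, hU i _ c, w i * t, by rw [hj i _ a, hj i _ c, h.hom, e]⟩

theorem IsFlow.long_chart (h : IsFlow b' D' w 1 κ₀ φ) (hκ₀ : 0 ≤ κ₀) (hβ : 0 ≤ β) (hη : 0 ≤ η)
    (h1 : ∀ p ∈ U, ∀ q ∈ U, dist p q ≤ β * dist (j p) (j q))
    (hc : ∀ p ∈ U, ∀ q ∈ U, |(b p - b q) - (b' (j p) - b' (j q))| ≤ η * dist p q)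
    (hb : Lp 1 b) {p : X} (hp : p ∈ U) {τ : ℝ} (hτ : 0 ≤ τ)
    (hball : ∀ y, dist y (j p) ≤ κ₀ * τ → y ∈ j '' U) {s : ℝ}
    (hs : |s - b p| ≤ (1 - β * κ₀ * η) * τ) : ∃ q, ChR U j φ p q ∧ b q = s := by
  have ex : ∀ t, ∃ q, t ∈ Set.Icc (-τ) τ → q ∈ U ∧ j q = φ t (j p) := by
    intro t
    by_cases ht : t ∈ Set.Icc (-τ) τ
    · obtain ⟨q, u, v⟩ := hball (φ t (j p)) (by
        have := h.speed t (j p)
        rw [mul_one] at this
        exact this.trans (mul_le_mul_of_nonneg_left (abs_le.2 ht) hκ₀))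
      exact ⟨q, fun _ => ⟨u, v⟩⟩
    · exact ⟨p, fun a => absurd a ht⟩
  choose γ hγ using ex
  have cont : ContinuousOn γ (Set.Icc (-τ) τ) := by
    have : LipschitzOnWith (Real.toNNReal (β * κ₀)) γ (Set.Icc (-τ) τ) :=
      LipschitzOnWith.of_dist_le' fun s hs t ht => by
        have a := h1 _ (hγ s hs).1 _ (hγ t ht).1
        rw [(hγ s hs).2, (hγ t ht).2] at a
        have c := h.dist_time s t (j p)
        rw [mul_one] at c
        rw [Real.dist_eq, mul_assoc]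
        exact a.trans (mul_le_mul_of_nonneg_left c hβ)
    exact this.continuousOn
  have l : -τ ≤ τ := by linarith
  have est : ∀ t ∈ Set.Icc (-τ) τ, |b (γ t) - b p - t| ≤ β * κ₀ * η * |t| := by
    intro t ht
    have a := hc _ (hγ t ht).1 p hp
    have c := h1 _ (hγ t ht).1 p hp
    have e := h.speed t (j p)
    rw [(hγ t ht).2] at a c
    rw [h.level, show b' (j p) + t * 1 ^ 2 - b' (j p) = t by ring] at a
    rw [mul_one] at e
    have := mul_le_mul_of_nonneg_left (c.trans (mul_le_mul_of_nonneg_left e hβ)) hη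
    linarith
  have e1 := abs_le.1 (est τ ⟨l, le_rfl⟩)
  have e2 := abs_le.1 (est (-τ) ⟨le_rfl, l⟩)
  rw [abs_neg] at e2
  rw [abs_of_nonneg hτ] at e1 e2
  have hs' := abs_le.1 hs
  obtain ⟨t, ht, e⟩ := intermediate_value_Icc l (hb.continuous.comp_continuousOn cont)
    (show s ∈ Set.Icc (b (γ (-τ))) (b (γ τ)) from
      ⟨by linarith [e2.2, hs'.1], by linarith [e1.1, hs'.2]⟩)
  exact ⟨γ t, ⟨hp, (hγ t ht).1, t, (hγ t ht).2⟩, e⟩

end Pool.Agent.Lib.MP_c2693b_gt
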