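import Pool.Agent.Lib.MP_c2693b_gt.TrLayer

namespace Pool.Agent.Lib.MP_c2693b_gt

variable {X ι : Type*} [MetricSpace X] {b : X → ℝ} {D : ι → X → X} {w : ι → ℝ} {κ : ℝ}

theorem Lp.min {A B : ℝ} {f g : X → ℝ} (hf : Lp A f) (hg : Lp B g) :
    Lp (|A| + |B|) fun p => min (f p) (g p) := fun p q => by
  have a := hf p q
  have c := hg p q
  have d0 := dist_nonneg (x := p) (y := q)
  have := mul_le_mul_of_nonneg_right (le_abs_self A) d0
  have := mul_le_mul_of_nonneg_right (le_abs_self B) d0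
  have := mul_nonneg (abs_nonneg A) d0
  have := mul_nonneg (abs_nonneg B) d0
  have l1 := min_le_left (f p) (g p)
  have l2 := min_le_right (f p) (g p)
  beta_reduce
  rcases min_choice (f q) (g q) with e | e <;> rw [e] <;> linarith

theorem Lp.sub {A B : ℝ} {f g : X → ℝ} (hf : Lp A f) (hg : Lp B g) :
    Lp (A + B) fun p => f p - g p := fun p q => by
  have a := hf p q
  have c := hg q p
  rw [dist_comm] at c
  linarith

/-- The layering lemma without a partition of unity. -/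
theorem between_of_cover' (hX : Btw X) (hκ : 0 ≤ κ) (hb : Lp 1 b) (hw : ∀ i, 0 < w i)
    (hD : Hmg D w b) {f g : X → ℝ} {L : ℝ} (hL : 0 ≤ L) (hLκ : κ * L < 1)
    (hf : Lp L f) (hg : Lp L g) (hDf : Hmg D w f) (hDg : Hmg D w g) (hfg : ∀ p, f p ≤ g p)
    {J : Type*} [Fintype J] (ψ : J → X → ℝ) (O : J → X → X → Prop) (hO : ∀ j, Loc b D κ (O j))
    (h0 : ∀ j p, 0 ≤ ψ j p) (hψ : ∀ j, ∃ A, Lp A (ψ j)) (hDψ : ∀ j, Hmg D w (ψ j))
    (hge : ∀ p, f p ≤ b p → b p ≤ g p → g p ≤ f p + ∑ j, ψ j p)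
    (long : ∀ j, ∃ ρ, 0 < ρ ∧ ∀ p, f p ≤ b p → b p ≤ g p → 0 < ψ j p →
      ∀ s, |s - b p| ≤ ρ * ψ j p → ∃ q, O j p q ∧ b q = s) :
    Between b D κ f g := by
  classical
  obtain ⟨e⟩ : Nonempty (Fin (Fintype.card J) ≃ J) := ⟨(Fintype.equivFin J).symm⟩
  set n := Fintype.card J
  let χ : ℕ → X → ℝ := fun i p => if h : i < n then ψ (e ⟨i, h⟩) p else 0
  let P : ℕ → X → ℝ := fun k p => min (∑ i ∈ Finset.range k, χ i p) (g p - f p)
  have χe : ∀ i : Fin n, ∀ p, χ i p = ψ (e i) p := fun i p => by simp [χ]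
  have SL : ∀ k, ∃ A, Lp A fun p => ∑ i ∈ Finset.range k, χ i p := by
    intro k
    induction k with
    | zero => exact ⟨0, fun p q => by simp⟩
    | succ k ih =>
      obtain ⟨A, hA⟩ := ih
      obtain ⟨B, hB⟩ : ∃ B, Lp B (χ k) := by
        by_cases h : k < n
        · simpa [χ, h] using hψ (e ⟨k, h⟩)
        · exact ⟨0, fun p q => by simp [χ, h]⟩
      refine ⟨A + B, fun p q => ?_⟩
      have := hA p q
      have := hB p q
      simp only [Finset.sum_range_succ]; linarith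
  have PH : ∀ k, Hmg D w (P k) := by
    intro k i p
    have : ∀ m, χ m (D i p) = w i * χ m p := by
      intro m
      by_cases h : m < n
      · simp only [χ, h, dif_pos]; exact hDψ _ i p
      · simp [χ, h]
    simp only [P, this, hDf i p, hDg i p, ← Finset.mul_sum, ← mul_sub]
    exact (mul_min_of_nonneg _ _ (hw i).le).symm
  have st : ∀ (i : Fin n) p, 0 ≤ P (i + 1) p - P i p ∧ P (i + 1) p - P i p ≤ ψ (e i) p := by
    intro i p
    have := h0 (e i) p
    simp only [P, Finset.sum_range_succ, χe]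
    constructor
    · exact sub_nonneg.2 (min_le_min (by linarith) le_rfl)
    · have l1 := min_le_left (∑ i ∈ Finset.range i, χ i p + ψ (e i) p) (g p - f p)
      have l2 := min_le_right (∑ i ∈ Finset.range i, χ i p + ψ (e i) p) (g p - f p)
      rcases min_choice (∑ i ∈ Finset.range i, χ i p) (g p - f p) with a | a <;> rw [a] <;> linarith
  have tot : ∀ p, ∑ i : Fin n, (P (i + 1) p - P i p) = min (∑ j, ψ j p) (g p - f p) := by
    intro p
    rw [Fin.sum_univ_eq_sum_range (fun i => P (i + 1) p - P i p) n,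
      Finset.sum_range_sub (fun i => P i p)]
    have : ∑ i ∈ Finset.range n, χ i p = ∑ j, ψ j p := by
      rw [← Fin.sum_univ_eq_sum_range (fun i => χ i p) n, ← e.sum_comp]
      exact Finset.sum_congr rfl fun i _ => χe i p
    simp only [P, this, Finset.sum_range_zero]
    rw [min_eq_left (sub_nonneg.2 (hfg p)), sub_zero]
  refine between_of_cover hX hκ hb hw hD hL hLκ hf hg hDf hDg
    (fun (i : Fin n) p => P (i + 1) p - P i p) (fun i => O (e i)) (fun i => hO _)
    (fun i p => (st i p).1) (fun i => ?_) (fun i m p => ?_) (fun p => ?_) (fun p a c => ?_)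
    fun i => ?_
  · obtain ⟨A, hA⟩ := SL (i + 1)
    obtain ⟨B, hB⟩ := SL i
    exact ⟨_, (hA.min (hg.sub hf)).sub (hB.min (hg.sub hf))⟩
  · simp only [PH _ m p]; ring
  · rw [tot]; linarith [min_le_right (∑ j, ψ j p) (g p - f p)]
  · rw [tot, min_eq_right (by linarith [hge p a c])]; ring
  · obtain ⟨ρ, r, l⟩ := long (e i)
    exact ⟨ρ, r, fun p a c u s hs => l p a c (u.trans_le (st i p).2) s
      (hs.trans (mul_le_mul_of_nonneg_left (st i p).2 r.le))⟩

end Pool.Agent.Lib.MP_c2693b_gt
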