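import Pool.Agent.Lib.MP_c2693b_gt.TrCover
import Pool.Agent.Lib.MP_c2693b_gt.TrChart
import Pool.Agent.Lib.MP_c2693b_gt.TfCmp
import Pool.Agent.Lib.MP_c2693b_gt.TfProd
import Pool.Agent.Lib.MP_c2693b_gt.LkAng

namespace Pool.Agent.Lib.MP_c2693b_gt

open ConeAlg Lk

variable {C : Type} [ConeAlg C]

theorem lp_height {v : C} (hv : nm v = 1) : Lp 1 fun z : C => -ip v z := fun p q => by
  have := abs_ip_sub_le q p v
  rw [hv, ip_comm q, ip_comm p, dist_comm] at this
  linarith [(abs_le.1 this).2]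

theorem lp_nm (c : ℝ) : Lp |c| fun z : C => c * nm z := fun p q => by
  have a : |nm p - nm q| ≤ dist p q := abs_dist_sub_le p q o
  have := mul_le_mul_of_nonneg_left a (abs_nonneg c)
  rw [← abs_mul] at this
  have := le_abs_self (c * (nm p - nm q))
  linarith

theorem btw_cone : Btw C := by
  intro p q
  refine ⟨geo p q, ?_, geo_zero p q, geo_one p q, fun t ht => ?_⟩
  · have : LipschitzOnWith (Real.toNNReal (dist p q)) (geo p q) (Set.Icc 0 1) :=
      LipschitzOnWith.of_dist_le' fun s hs t ht => by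
        rw [dist_geo_geo p q hs ht, Real.dist_eq, mul_comm]
    exact this.continuousOn
  · have a := dist_geo_geo p q ⟨le_rfl, zero_le_one⟩ ht
    have c := dist_geo_geo p q ht ⟨zero_le_one, le_rfl⟩
    rw [geo_zero] at a
    rw [geo_one] at c
    rw [a, c, abs_of_nonpos (by linarith [ht.1]), abs_of_nonpos (by linarith [ht.2])]
    ring

theorem loc_at {E D : Type} [NormedAddCommGroup E] [InnerProductSpace ℝ E] [ConeAlg D]
    {u v : C} (hu : nm u = 1) (hv : nm v = 1) {k κ₀ κ : ℝ} {j : C → CProd E D}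
    (hj : StarMap u k j) (hju : (j u).2 = o) (h1 : 1 ≤ κ₀) (h2 : κ₀ < κ)
    (hF : ∀ v' : CProd E D, FlowAt κ₀ v') :
    ∃ (k' : ℝ) (O : C → C → Prop), 0 < k' ∧ k' < 1 ∧
      Loc (fun z : C => -ip v z) (fun l : {l : ℝ // 0 < l} => sm l.1) κ O ∧
      ∃ ρ, 0 < ρ ∧ ∀ p, 0 < ip u p - k' * nm p →
        ∀ s, |s - -ip v p| ≤ ρ * (ip u p - k' * nm p) → ∃ q, O p q ∧ -ip v q = s := by
  have u0 : u ≠ o := by rintro rfl; simp at hu
  obtain ⟨r, r0, hr⟩ := ball_sub_ang u0 hj.lt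
  have t0 : 0 < r / 2 := by linarith
  have hQ : ad u (sm (r / 2) v) ∈ ang u k := hr (by
    rw [Metric.mem_ball, dist_comm, dist_ad_left, nm_sm t0.le, hv]; linarith)
  obtain ⟨v', n', hc⟩ := height_cmp j (ang u k) (fun a ha b hb => hj.ip_eq ha hb)
    (self_mem_ang u hj.lt.le) hju v t0 hQ
  have κ0 : 0 < κ₀ := by linarith
  have κ1 : 0 < κ := by linarith
  set η := (κ - κ₀) / (κ * κ₀) with hη
  have η0 : 0 < η := div_pos (by linarith) (by positivity)
  have e1 : κ * (1 - 1 * κ₀ * η) = κ₀ := by rw [hη]; field_simp; ring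
  have e2 : 1 * κ₀ * η < 1 := by
    by_contra hn
    nlinarith [mul_nonneg κ1.le (sub_nonneg.2 (not_lt.1 hn))]
  obtain ⟨k₁, _, k1, hs⟩ := ang_small u0 (show 0 < η * (r / 2) / 2 by positivity)
  have kl : max k k₁ < 1 := max_lt hj.lt k1
  have hj' := hj.mono (le_max_left k k₁) kl
  obtain ⟨φ, hφ⟩ := hF v'
  rw [n', hv] at hφ
  have m1 := ang_mono u (le_max_left k k₁)
  have m2 := ang_mono u (le_max_right k k₁)
  have cmp : ∀ p ∈ ang u (max k k₁), ∀ q ∈ ang u (max k k₁),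
      |(-ip v p - -ip v q) - (-ip v' (j p) - -ip v' (j q))| ≤ η * dist p q := by
    intro p hp q hq
    have := hc _ (by positivity) p (m1 hp) q (m1 hq) (hs p (m2 hp)) (hs q (m2 hq))
    rwa [show 2 * (η * (r / 2) / 2) / (r / 2) = η by field_simp] at this
  have i1 : ∀ p ∈ ang u (max k k₁), ∀ q ∈ ang u (max k k₁), dist p q ≤ 1 * dist (j p) (j q) :=
    fun p hp q hq => by rw [hj'.iso p hp q hq, one_mul]
  refine ⟨max k k₁, ChR (ang u (max k k₁)) j φ, hj'.pos, kl, ?_, (1 - 1 * κ₀ * η) / (2 * κ₀),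
    div_pos (by linarith) (by positivity), fun p hp s hs => ?_⟩
  · exact hφ.loc_chart κ0.le zero_le_one η0.le i1
      (fun p hp q hq => by rw [hj'.iso p hp q hq, one_mul]) cmp (lp_height (n'.trans hv)) e2
      (by rw [e1, one_mul]) (fun i p hp => ang_sm hp i.2.le) fun i p _ => hj.hom _ i.2.le p
  · have pm : p ∈ ang u (max k k₁) := by
      show max k k₁ * nm u * nm p ≤ ip u p
      rw [hu]; linarith
    refine hφ.long_chart κ0.le zero_le_one η0.le i1 cmp (lp_height hv) pm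
      (τ := (ip u p - max k k₁ * nm p) / (2 * κ₀)) (by positivity) (fun y hy => ?_)
      (hs.trans (le_of_eq (by ring)))
    apply hj'.bij.surjOn
    have nu : nm (j u) = 1 := by rw [hj.nm_eq (self_mem_ang u hj.lt.le), hu]
    have a1 := lp_height nu y (j p)
    have a2 : |nm y - nm (j p)| ≤ dist y (j p) := abs_dist_sub_le y (j p) o
    rw [hj'.nm_eq pm] at a2
    simp only at a1
    rw [hj'.ip_eq (self_mem_ang u kl.le) pm] at a1
    rw [show κ₀ * ((ip u p - max k k₁ * nm p) / (2 * κ₀)) = (ip u p - max k k₁ * nm p) / 2 by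
      field_simp] at hy
    show max k k₁ * nm (j u) * nm y ≤ ip (j u) y
    rw [nu]
    have a3 := (abs_le.1 a2).2
    nlinarith [mul_le_mul_of_nonneg_left a3 hj'.pos.le,
      mul_le_mul_of_nonneg_right kl.le (dist_nonneg (x := y) (y := j p))]

/-- Part (II) of the flow theorem. -/
theorem between_mid [ProperSpace C] {v : C} (hv : nm v = 1) {κ₀ κ c₀ c₂ : ℝ} (h1 : 1 ≤ κ₀)
    (h2 : κ₀ < κ) (hc : c₀ ≤ c₂) (hc0 : κ * |c₀| < 1) (hc2 : κ * |c₂| < 1)
    (hloc : ∀ u : C, nm u = 1 → ∃ (m : ℕ) (D : Type) (_ : ConeAlg D) (k : ℝ)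
      (j : C → CProd (EuclideanSpace ℝ (Fin m)) D), StarMap u k j ∧ (j u).2 = o ∧
        ∀ v' : CProd (EuclideanSpace ℝ (Fin m)) D, FlowAt κ₀ v') :
    Between (fun z : C => -ip v z) (fun l : {l : ℝ // 0 < l} => sm l.1) κ (fun z => c₀ * nm z)
      (fun z => c₂ * nm z) := by
  classical
  have ex : ∀ u : Metric.sphere (o : C) 1, ∃ (k' : ℝ) (O : C → C → Prop), 0 < k' ∧ k' < 1 ∧
      Loc (fun z : C => -ip v z) (fun l : {l : ℝ // 0 < l} => sm l.1) κ O ∧
      ∃ ρ, 0 < ρ ∧ ∀ p, 0 < ip u.1 p - k' * nm p →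
        ∀ s, |s - -ip v p| ≤ ρ * (ip u.1 p - k' * nm p) → ∃ q, O p q ∧ -ip v q = s := by
    intro u
    obtain ⟨m, D, _, k, j, a, c, e⟩ := hloc u.1 u.2
    exact loc_at u.2 hv a c h1 h2 e
  choose k O k0 k1 hO long using ex
  have un : ∀ u : Metric.sphere (o : C) 1, nm u.1 = 1 := fun u => u.2
  let χ : Metric.sphere (o : C) 1 → C → ℝ := fun u p => max (ip u.1 p - k u * nm p) 0
  have χL : ∀ u, Lp 2 (χ u) := by
    intro u p q
    have a1 := lp_height (un u) q p
    have a2 := lp_nm (C := C) (k u) q p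
    rw [abs_of_pos (k0 u)] at a2
    rw [dist_comm] at a1 a2
    have d0 := dist_nonneg (x := p) (y := q)
    have a3 := mul_le_mul_of_nonneg_right (k1 u).le d0
    have l1 := le_max_left (ip u.1 q - k u * nm q) 0
    have l2 := le_max_right (ip u.1 q - k u * nm q) 0
    simp only [χ] at a1 a2 ⊢
    rcases max_choice (ip u.1 p - k u * nm p) 0 with e | e <;> rw [e] <;> linarith
  have χH : ∀ u l, 0 ≤ l → ∀ p, χ u (sm l p) = l * χ u p := by
    intro u l hl p
    simp only [χ, ip_sm' hl, nm_sm hl]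
    rw [mul_max_of_nonneg _ _ hl]
    congr 1 <;> ring
  obtain ⟨t, ht⟩ := (isCompact_sphere (o : C) 1).elim_finite_subcover (fun u => {p | 0 < χ u p})
    (fun u => isOpen_lt continuous_const (χL u).continuous) (fun p hp => Set.mem_iUnion.2
      ⟨⟨p, hp⟩, lt_max_of_lt_left (show 0 < ip p p - k ⟨p, hp⟩ * nm p by
        have : nm p = 1 := hp
        rw [← nm_sq, this]; linarith [k1 ⟨p, hp⟩])⟩)
  obtain ⟨μ, μ0, hμ⟩ : ∃ μ, 0 < μ ∧ ∀ p ∈ Metric.sphere (o : C) 1, μ ≤ ∑ u : t, χ u p := by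
    refine (isCompact_sphere (o : C) 1).exists_forall_le' (f := fun p => ∑ u : t, χ u p)
      (continuous_finsetSum _ fun (u : t) _ => (χL u).continuous).continuousOn fun p hp => ?_
    obtain ⟨u, hu, e⟩ := Set.mem_iUnion₂.1 (ht hp)
    exact Finset.sum_pos' (fun u _ => le_max_right _ _) ⟨⟨u, hu⟩, Finset.mem_univ _, e⟩
  have low : ∀ p, μ * nm p ≤ ∑ u : t, χ u p := by
    intro p
    rcases (nm_nonneg p).eq_or_lt with e | e
    · rw [← e, mul_zero]; exact Finset.sum_nonneg fun u _ => le_max_right _ _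
    · have i := inv_nonneg.2 e.le
      have := hμ (sm (nm p)⁻¹ p) (by
        show nm _ = 1
        rw [nm_sm i, inv_mul_cancel₀ e.ne'])
      simp only [χH _ _ i, ← Finset.mul_sum] at this
      rwa [le_inv_mul_iff₀ e, mul_comm] at this
  set A := (c₂ - c₀ + 1) / μ with hA
  have A0 : 0 < A := div_pos (by linarith) μ0
  refine between_of_cover' (w := fun l => l.1) btw_cone (by linarith) (lp_height hv) (fun l => l.2)
    (fun l p => by simp only [ip_sm' l.2.le]; ring) (L := max |c₀| |c₂|)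
    (le_max_of_le_left (abs_nonneg _)) ?_ ((lp_nm c₀).mono (le_max_left _ _))
    ((lp_nm c₂).mono (le_max_right _ _)) (fun l p => by simp only [nm_sm l.2.le]; ring)
    (fun l p => by simp only [nm_sm l.2.le]; ring)
    (fun p => mul_le_mul_of_nonneg_right hc (nm_nonneg p)) (fun (u : t) p => A * χ u p)
    (fun u => O u) (fun u => hO u) (fun u p => mul_nonneg A0.le (le_max_right _ _))
    (fun u => ⟨A * 2, fun p q => ?_⟩) (fun u l p => by simp only [χH _ _ l.2.le]; ring)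
    (fun p _ _ => ?_) fun u => ?_
  · rcases max_choice |c₀| |c₂| with e | e <;> rwa [e]
  · have := mul_le_mul_of_nonneg_left (χL u p q) A0.le
    linarith
  · have := mul_le_mul_of_nonneg_left (low p) A0.le
    rw [← mul_assoc, hA, div_mul_cancel₀ _ μ0.ne'] at this
    rw [← Finset.mul_sum, hA]
    nlinarith [nm_nonneg p]
  · obtain ⟨ρ, ρ0, l⟩ := long u
    refine ⟨ρ / A, by positivity, fun p _ _ pos s hs => ?_⟩
    have p1 : 0 < χ u p := (mul_pos_iff_of_pos_left A0).1 pos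
    have p2 : 0 < ip u.1.1 p - k u * nm p := by simpa [χ] using p1
    refine l p p2 s (hs.trans (le_of_eq ?_))
    simp only [χ, max_eq_left p2.le]
    field_simp

end Pool.Agent.Lib.MP_c2693b_gt
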