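import Pool.Agent.Lib.MP_c2693b_gt.TriSub

/-! Section 2: the smooth chart. -/

namespace Pool.Agent.Lib.MP_c2693b_gt.Tri

open scoped BigOperators ContDiff

/-- smooth, zero on the negative axis, increasing on the positive axis -/
noncomputable def rr (t : ℝ) : ℝ := t * expNegInvGlue t

theorem rr_smooth : ContDiff ℝ ∞ rr := contDiff_id.mul expNegInvGlue.contDiff

theorem rr_of_nonpos {t : ℝ} (h : t ≤ 0) : rr t = 0 := by
  simp [rr, expNegInvGlue.zero_of_nonpos h]

theorem rr_pos {t : ℝ} (h : 0 < t) : 0 < rr t := mul_pos h (expNegInvGlue.pos_of_pos h)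

theorem rr_nonneg (t : ℝ) : 0 ≤ rr t := by
  rcases le_or_gt t 0 with h | h
  · exact (rr_of_nonpos h).ge
  · exact (rr_pos h).le

theorem rr_ne {t : ℝ} : rr t ≠ 0 ↔ 0 < t :=
  ⟨fun h => lt_of_not_ge fun k => h (rr_of_nonpos k), fun h => (rr_pos h).ne'⟩

theorem rr_lt {s t : ℝ} (ht : 0 < t) (h : s < t) : rr s < rr t := by
  rcases le_or_gt s 0 with k | k
  · rw [rr_of_nonpos k]; exact rr_pos ht
  · have h1 := expNegInvGlue.monotone h.le
    have h2 := expNegInvGlue.pos_of_pos ht
    unfold rr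
    nlinarith

theorem rr_inj {d e : ℝ} (h1 : rr d = rr e) (h2 : rr (-d) = rr (-e)) : d = e := by
  have aux : ∀ d e : ℝ, rr d = rr e → rr (-d) = rr (-e) → ¬ d < e := by
    intro d e h1 h2 h
    rcases le_or_gt e 0 with k | k
    · exact (rr_lt (s := -e) (t := -d) (by linarith) (by linarith)).ne h2.symm
    · exact (rr_lt k h).ne h1
  exact le_antisymm (not_lt.1 (aux e d h1.symm h2.symm)) (not_lt.1 (aux d e h1 h2))

theorem rr_ge {t : ℝ} (h : 1 ≤ t) : t * expNegInvGlue 1 ≤ rr t :=
  mul_le_mul_of_nonneg_left (expNegInvGlue.monotone h) (by linarith)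

theorem rr_bound (R : ℝ) : ∃ R' : ℝ, 0 ≤ R' ∧ ∀ t, rr t ≤ R → t ≤ R' := by
  have hg := expNegInvGlue.pos_of_pos (x := 1) one_pos
  refine ⟨max 1 (R / expNegInvGlue 1), le_max_of_le_left zero_le_one, fun t ht => ?_⟩
  rcases le_total t 1 with k | k
  · exact le_max_of_le_left k
  · refine le_max_of_le_right ?_
    rw [le_div_iff₀ hg]
    exact (rr_ge k).trans ht

theorem rr_surj {p : ℝ} (hp : 0 ≤ p) : ∃ t, 0 ≤ t ∧ rr t = p := by
  have hg := expNegInvGlue.pos_of_pos (x := 1) one_pos
  set b := max 1 (p / expNegInvGlue 1) with hb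
  have h1 : 1 ≤ b := le_max_left _ _
  have h2 : p ≤ rr b := by
    refine le_trans ?_ (rr_ge h1)
    rw [← div_le_iff₀ hg]
    exact le_max_right _ _
  have := intermediate_value_Icc (a := 0) (b := b) (by linarith)
    rr_smooth.continuous.continuousOn
  obtain ⟨t, ht, h⟩ := this (show p ∈ Set.Icc (rr 0) (rr b) from
    ⟨by rw [rr_of_nonpos le_rfl]; exact hp, h2⟩)
  exact ⟨t, ht.1, h⟩

theorem rr_pair {p q : ℝ} (hp : 0 ≤ p) (hq : 0 ≤ q) (h : p = 0 ∨ q = 0) :
    ∃ d, rr d = p ∧ rr (-d) = q := by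
  rcases h with rfl | rfl
  · obtain ⟨t, ht, h⟩ := rr_surj hq
    exact ⟨-t, rr_of_nonpos (by linarith), by rw [neg_neg, h]⟩
  · obtain ⟨t, ht, h⟩ := rr_surj hp
    exact ⟨t, h, rr_of_nonpos (by linarith)⟩

theorem rr_hasDerivAt (t : ℝ) : HasDerivAt rr (deriv rr t) t :=
  ((rr_smooth.differentiable (by simp)) t).hasDerivAt

theorem rr_deriv_ne {t : ℝ} (ht : 0 < t) : deriv rr t ≠ 0 := by
  have h1 : HasDerivAt (fun s : ℝ => s * Real.exp (-s⁻¹))
      (1 * Real.exp (-t⁻¹) + t * (Real.exp (-t⁻¹) * (- -(t ^ 2)⁻¹))) t :=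
    (hasDerivAt_id t).mul ((hasDerivAt_inv ht.ne').neg.exp)
  have h2 : rr =ᶠ[nhds t] fun s : ℝ => s * Real.exp (-s⁻¹) := by
    filter_upwards [lt_mem_nhds ht] with s hs
    simp [rr, expNegInvGlue, not_le.2 hs]
  rw [(h1.congr_of_eventuallyEq h2).deriv]
  have := Real.exp_pos (-t⁻¹)
  rw [neg_neg]
  positivity

variable {W : Type}

theorem fderiv_zero_of_nonneg {E : Type} [NormedAddCommGroup E] [NormedSpace ℝ E] {f : E → ℝ}
    (h : ∀ y, 0 ≤ f y) {x : E} (hx : f x = 0) : fderiv ℝ f x = 0 :=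
  IsLocalMin.fderiv_eq_zero (Filter.Eventually.of_forall fun y => by rw [hx]; exact h y)

theorem SM.fderiv_zero {T : SimpleGraph W} {E : Type} [NormedAddCommGroup E] [NormedSpace ℝ E]
    (H : SM T E) {x : E} {w : W} (hx : H.h x w = 0) : fderiv ℝ (fun y => H.h y w) x = 0 :=
  fderiv_zero_of_nonneg (fun y => (H.mem y).1 w) hx

open Classical in
/-- the smooth map to the subdivided cone -/
noncomputable def sup (u v : W) (z : W → ℝ) : Option W → ℝ
  | none => z u * z v
  | some w => if w = u then rr (z u - z v) else if w = v then rr (-(z u - z v)) else z w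

theorem sup_n (u v : W) (z : W → ℝ) : sup u v z none = z u * z v := rfl

theorem sup_u (u v : W) (z : W → ℝ) : sup u v z (some u) = rr (z u - z v) := by simp [sup]

theorem sup_v {u v : W} (h : u ≠ v) (z : W → ℝ) : sup u v z (some v) = rr (-(z u - z v)) := by
  simp [sup, h.symm]

theorem sup_w {u v w : W} (h1 : w ≠ u) (h2 : w ≠ v) (z : W → ℝ) : sup u v z (some w) = z w := by
  simp [sup, h1, h2]

theorem clq_sup {T : SimpleGraph W} {u v : W} (huv : T.Adj u v) {z : W → ℝ} (h0 : ∀ w, 0 ≤ z w) :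
    clq (sub T u v) (sup u v z) ↔ clq T z := by
  have aux : ∀ a b : ℝ, 0 ≤ a → 0 ≤ b → (a ≠ 0 ↔ rr (a - b) ≠ 0 ∨ a * b ≠ 0) := by
    intro a b ha hb
    rw [rr_ne]
    constructor
    · intro h
      rcases hb.eq_or_lt with rfl | k
      · left; exact sub_pos.2 (lt_of_le_of_ne ha h.symm)
      · right; exact mul_ne_zero h k.ne'
    · rintro (h | h)
      · exact ne_of_gt (by linarith)
      · exact left_ne_zero_of_mul h
  rw [clq_sub (z := z) huv]
  · refine and_iff_left ?_
    rw [sup_u, sup_v huv.ne]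
    rcases le_total (z u) (z v) with k | k
    · left; exact rr_of_nonpos (by linarith)
    · right; exact rr_of_nonpos (by linarith)
  · intro w h1 h2
    rw [sup_w h1 h2]
  · rw [sup_u, sup_n]; exact aux _ _ (h0 u) (h0 v)
  · rw [sup_v huv.ne, sup_n, neg_sub, mul_comm]; exact aux _ _ (h0 v) (h0 u)

theorem sup_mem {T : SimpleGraph W} {u v : W} (huv : T.Adj u v) {z : W → ℝ} (hz : z ∈ cone T) :
    sup u v z ∈ cone (sub T u v) := by
  refine ⟨?_, (clq_sup huv hz.1).2 hz.2⟩
  rintro (_ | w)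
  · exact mul_nonneg (hz.1 u) (hz.1 v)
  · simp only [sup]
    split_ifs
    · exact rr_nonneg _
    · exact rr_nonneg _
    · exact hz.1 w

theorem sup_inj {u v : W} (huv : u ≠ v) {z z' : W → ℝ} (h0 : ∀ w, 0 ≤ z w) (h0' : ∀ w, 0 ≤ z' w)
    (h : sup u v z = sup u v z') : z = z' := by
  have h1 := congrFun h (some u)
  have h2 := congrFun h (some v)
  have h3 := congrFun h none
  rw [sup_u, sup_u] at h1
  rw [sup_v huv, sup_v huv] at h2
  rw [sup_n, sup_n] at h3
  have h4 := rr_inj h1 h2
  have h5 : z u + z v = z' u + z' v := by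
    have : (z u + z v) ^ 2 = (z' u + z' v) ^ 2 := by
      have e1 : (z u + z v) ^ 2 = (z u - z v) ^ 2 + 4 * (z u * z v) := by ring
      have e2 : (z' u + z' v) ^ 2 = (z' u - z' v) ^ 2 + 4 * (z' u * z' v) := by ring
      rw [e1, e2, h4, h3]
    exact (pow_left_inj₀ (add_nonneg (h0 u) (h0 v)) (add_nonneg (h0' u) (h0' v))
      two_ne_zero).1 this
  funext w
  by_cases k1 : w = u
  · subst k1; linarith
  by_cases k2 : w = v
  · subst k2; linarith
  have := congrFun h (some w)
  rwa [sup_w k1 k2, sup_w k1 k2] at this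

theorem sup_surj {T : SimpleGraph W} {u v : W} (huv : T.Adj u v) {z' : Option W → ℝ}
    (hz : z' ∈ cone (sub T u v)) : ∃ z ∈ cone T, sup u v z = z' := by
  classical
  obtain ⟨d, hd1, hd2⟩ := rr_pair (hz.1 (some u)) (hz.1 (some v)) ((clq_dn huv hz.1).1 hz.2).2
  have hm := hz.1 none
  set s := Real.sqrt (d ^ 2 + 4 * z' none) with hs
  have hs2 : s ^ 2 = d ^ 2 + 4 * z' none := Real.sq_sqrt (by positivity)
  have hs0 : |d| ≤ s := Real.abs_le_sqrt (by linarith)
  have hs1 := abs_le.1 hs0
  let z : W → ℝ := fun w => if w = u then (s + d) / 2 else if w = v then (s - d) / 2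
    else z' (some w)
  have zu : z u = (s + d) / 2 := by simp [z]
  have zv : z v = (s - d) / 2 := by simp [z, huv.ne.symm]
  have h0 : ∀ w, 0 ≤ z w := by
    intro w
    simp only [z]
    split_ifs
    · linarith [hs1.1]
    · linarith [hs1.2]
    · exact hz.1 _
  have he : sup u v z = z' := by
    funext p
    rcases p with _ | w
    · rw [sup_n, zu, zv]; nlinarith
    · by_cases k1 : w = u
      · subst k1
        rw [sup_u, zu, zv, ← hd1]; congr 1; ring
      by_cases k2 : w = v
      · subst k2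
        rw [sup_v huv.ne, zu, zv, ← hd2]; congr 1; ring
      rw [sup_w k1 k2]; simp [z, k1, k2]
  exact ⟨z, ⟨h0, (clq_sup huv h0).1 (he ▸ hz.2)⟩, he⟩

theorem sup_bound {u v : W} (huv : u ≠ v) (R : ℝ) : ∃ R' : ℝ, ∀ z : W → ℝ, (∀ w, 0 ≤ z w) →
    (∀ p, sup u v z p ≤ R) → ∀ w, z w ≤ R' := by
  obtain ⟨R1, hR0, hR1⟩ := rr_bound R
  refine ⟨max R (R1 + |R| + 1), fun z h0 h w => ?_⟩
  have h1 := hR1 _ (sup_u u v z ▸ h (some u))
  have h2 := hR1 _ (sup_v huv z ▸ h (some v))
  have h3 : z u * z v ≤ R := h none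
  have h4 := le_abs_self R
  have h5 := abs_nonneg R
  have aux : ∀ a b : ℝ, 0 ≤ a → 0 ≤ b → a - b ≤ R1 → a * b ≤ R → a ≤ R1 + |R| + 1 := by
    intro a b ha hb k1 k2
    by_contra hc
    push Not at hc
    have : 1 ≤ b := by linarith
    nlinarith
  by_cases k1 : w = u
  · subst k1; exact le_max_of_le_right (aux _ _ (h0 _) (h0 v) h1 h3)
  by_cases k2 : w = v
  · subst k2
    exact le_max_of_le_right (aux _ _ (h0 _) (h0 u) (by linarith) (by linarith [mul_comm (z u) (z w)]))
  exact le_max_of_le_left (sup_w k1 k2 z ▸ h (some w))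

/-- the smooth chart after one subdivision -/
noncomputable def SM.subdiv {T : SimpleGraph W} {E : Type} [NormedAddCommGroup E]
    [NormedSpace ℝ E] (H : SM T E) {u v : W} (huv : T.Adj u v) : SM (sub T u v) E where
  h x := sup u v (H.h x)
  smooth := by
    rintro (_ | w)
    · exact (H.smooth u).mul (H.smooth v)
    · by_cases k1 : w = u
      · subst k1
        simp only [sup_u]
        exact rr_smooth.comp ((H.smooth w).sub (H.smooth v))
      by_cases k2 : w = v
      · subst k2
        simp only [sup_v huv.ne]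
        exact rr_smooth.comp ((H.smooth u).sub (H.smooth w)).neg
      simp only [sup_w k1 k2]
      exact H.smooth w
  mem x := sup_mem huv (H.mem x)
  inj x y h := H.inj (sup_inj huv.ne (H.mem x).1 (H.mem y).1 h)
  surj z' hz := by
    obtain ⟨z, hz1, rfl⟩ := sup_surj huv hz
    obtain ⟨x, rfl⟩ := H.surj z hz1
    exact ⟨x, rfl⟩
  proper R := by
    obtain ⟨R1, h1⟩ := sup_bound huv.ne R
    obtain ⟨R2, h2⟩ := H.proper R1
    exact ⟨R2, fun x hx => h2 x (h1 _ (H.mem x).1 hx)⟩
  onto x c := by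
    classical
    set a := H.h x u with ha
    set b := H.h x v with hb
    have ha0 : 0 ≤ a := (H.mem x).1 u
    have hb0 : 0 ≤ b := (H.mem x).1 v
    set δ : ℝ := if b < a then c (some u) / deriv rr (a - b)
      else if a < b then -(c (some v) / deriv rr (-(a - b))) else 0 with hδ
    set m : ℝ := if a * b = 0 then 0 else c none with hm
    set α : ℝ := (m + δ * a) / (a + b) with hα
    set β : ℝ := (m - δ * b) / (a + b) with hβ
    obtain ⟨ξ, hξ⟩ := H.onto x fun w => if w = u then α else if w = v then β else c (some w)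
    have hd : ∀ w, HasFDerivAt (fun y => H.h y w) (fderiv ℝ (fun y => H.h y w) x) x := fun w =>
      (((H.smooth w).differentiable (by simp)) x).hasFDerivAt
    have du : fderiv ℝ (fun y => H.h y u) x ξ = α := by
      by_cases k : a = 0
      · rw [H.fderiv_zero k]
        simp [hα, hm, k]
      · simpa using hξ u k
    have dv : fderiv ℝ (fun y => H.h y v) x ξ = β := by
      by_cases k : b = 0
      · rw [H.fderiv_zero k]
        simp [hβ, hm, k]
      · simpa [huv.ne.symm] using hξ v k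
    have hab : a + b ≠ 0 → α - β = δ := by
      intro k
      rw [hα, hβ]; field_simp; ring
    refine ⟨ξ, ?_⟩
    rintro (_ | w) hw
    · rw [sup_n] at hw
      have h1 := ((hd u).mul (hd v)).fderiv
      have : fderiv ℝ (fun y => sup u v (H.h y) none) x = _ := h1
      rw [this]
      simp only [add_apply, smul_apply, du, dv,
        smul_eq_mul, ← ha, ← hb]
      have k : a + b ≠ 0 := by
        have : a ≠ 0 := left_ne_zero_of_mul hw
        have : 0 < a := lt_of_le_of_ne ha0 this.symm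
        linarith
      have hm' : m = c none := by rw [hm, if_neg hw]
      rw [hα, hβ, ← hm']; field_simp; ring
    · by_cases k1 : w = u
      · subst k1
        simp only [sup_u] at hw ⊢
        have hp : 0 < a - b := rr_ne.1 hw
        have h1 := ((rr_hasDerivAt (a - b)).comp_hasFDerivAt x ((hd w).sub (hd v))).fderiv
        have : fderiv ℝ (fun y => rr (H.h y w - H.h y v)) x = _ := h1
        rw [this]
        simp only [sub_apply, smul_apply, du, dv,
          smul_eq_mul]
        rw [hab (by linarith), hδ, if_pos (by linarith)]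
        field_simp [rr_deriv_ne hp]
      by_cases k2 : w = v
      · subst k2
        simp only [sup_v huv.ne] at hw ⊢
        have hp : 0 < -(a - b) := rr_ne.1 hw
        have h1 := ((rr_hasDerivAt (-(a - b))).comp_hasFDerivAt x ((hd u).sub (hd w)).neg).fderiv
        have : fderiv ℝ (fun y => rr (-(H.h y u - H.h y w))) x = _ := h1
        rw [this]
        simp only [sub_apply, smul_apply,
          neg_apply, du, dv, smul_eq_mul]
        rw [hab (by linarith), hδ, if_neg (by linarith), if_pos (by linarith), neg_neg]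
        exact mul_div_cancel₀ _ (rr_deriv_ne hp)
      simp only [sup_w k1 k2] at hw ⊢
      simpa [k1, k2] using hξ w hw

end Pool.Agent.Lib.MP_c2693b_gt.Tri
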