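import Pool.Agent.Lib.MP_c2693b_gt.TriSm

/-! Section 2: the cross polytope, the three stages, existence of the sphere. -/

namespace Pool.Agent.Lib.MP_c2693b_gt.Tri

open scoped BigOperators ContDiff

/-- the graph of the cross polytope -/
def cross (V : Type) : SimpleGraph (V ⊕ V) where
  Adj p q := Sum.elim id id p ≠ Sum.elim id id q
  symm := ⟨fun _ _ h => h.symm⟩
  loopless := ⟨fun _ h => h rfl⟩

theorem mem_cross {V : Type} {z : V ⊕ V → ℝ} :
    z ∈ cone (cross V) ↔ (∀ p, 0 ≤ z p) ∧ ∀ x, z (.inl x) = 0 ∨ z (.inr x) = 0 := by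
  refine and_congr_right fun _ => ⟨fun h x => ?_, fun h => ?_⟩
  · by_contra hc
    push Not at hc
    exact h (.inl x) (.inr x) (by simp) hc.1 hc.2 rfl
  · rintro (x | x) (y | y) hne h1 h2 (k : x = y) <;> subst k
    · exact hne rfl
    · rcases h x with k | k
      · exact h1 k
      · exact h2 k
    · rcases h x with k | k
      · exact h2 k
      · exact h1 k
    · exact hne rfl

open Classical in
theorem sum_cross {V : Type} [Fintype V] (z : V ⊕ V → ℝ) (x : V) :
    (∑ p, z p • (Sum.elim (fun v => Pi.single v 1) (fun v => -Pi.single v 1) p : V → ℝ)) x =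
      z (.inl x) - z (.inr x) := by
  simp [Fintype.sum_sum_type, Finset.sum_apply, Pi.single_apply, sub_eq_add_neg]

open Classical in
/-- the linear chart of the cross polytope -/
noncomputable def plCross (V : Type) [Fintype V] : PL (cone (cross V)) (V → ℝ) where
  a := Sum.elim (fun v => Pi.single v 1) (fun v => -Pi.single v 1)
  q x := Sum.elim (fun v => max (x v) 0) (fun v => max (-x v) 0)
  mem x := by
    refine mem_cross.2 ⟨?_, fun v => ?_⟩
    · rintro (v | v) <;> exact le_max_right _ _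
    · rcases le_total (x v) 0 with k | k
      · left; exact max_eq_right k
      · right; exact max_eq_right (by linarith)
  right x := by
    funext v
    rw [sum_cross]
    simp only [Sum.elim_inl, Sum.elim_inr]
    rcases le_total (x v) 0 with k | k
    · rw [max_eq_right k, max_eq_left (by linarith)]; ring
    · rw [max_eq_left k, max_eq_right (by linarith)]; ring
  left z hz := by
    obtain ⟨h0, h1⟩ := mem_cross.1 hz
    funext p
    rcases p with v | v
    · simp only [Sum.elim_inl]
      rw [sum_cross]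
      rcases h1 v with k | k
      · rw [k]; exact max_eq_right (by linarith [h0 (.inr v)])
      · rw [k, sub_zero]; exact max_eq_left (h0 _)
    · simp only [Sum.elim_inr]
      rw [sum_cross]
      rcases h1 v with k | k
      · rw [k, zero_sub, neg_neg]; exact max_eq_left (h0 _)
      · rw [k]; exact max_eq_right (by linarith [h0 (.inl v)])
  lip := by
    refine ⟨1, LipschitzWith.of_dist_le_mul fun x y => ?_⟩
    rw [NNReal.coe_one, one_mul]
    refine (dist_pi_le_iff dist_nonneg).2 ?_
    rintro (v | v)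
    · exact (abs_max_sub_max_le_abs _ _ _).trans (dist_le_pi_dist x y v)
    · refine (abs_max_sub_max_le_abs _ _ _).trans ?_
      have : |x v - y v| ≤ dist x y := dist_le_pi_dist x y v
      rwa [neg_sub_neg, abs_sub_comm]

/-- the smooth chart of the cross polytope -/
noncomputable def smCross (V : Type) [Fintype V] : SM (cross V) (V → ℝ) where
  h x := Sum.elim (fun v => rr (x v)) (fun v => rr (-x v))
  smooth := by
    rintro (v | v)
    · exact rr_smooth.comp (contDiff_apply ℝ ℝ v)
    · exact rr_smooth.comp (contDiff_apply ℝ ℝ v).neg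
  mem x := by
    refine mem_cross.2 ⟨?_, fun v => ?_⟩
    · rintro (v | v) <;> exact rr_nonneg _
    · rcases le_total (x v) 0 with k | k
      · left; exact rr_of_nonpos k
      · right; exact rr_of_nonpos (by linarith)
  inj x y h := funext fun v => rr_inj (congrFun h (.inl v)) (congrFun h (.inr v))
  surj z hz := by
    obtain ⟨h0, h1⟩ := mem_cross.1 hz
    choose d hd using fun v => rr_pair (h0 (.inl v)) (h0 (.inr v)) (h1 v)
    refine ⟨d, funext ?_⟩
    rintro (v | v)
    · exact (hd v).1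
    · exact (hd v).2
  proper R := by
    obtain ⟨R1, h0, h1⟩ := rr_bound R
    refine ⟨R1, fun x hx => (pi_norm_le_iff_of_nonneg h0).2 fun v => abs_le.2 ⟨?_, ?_⟩⟩
    · linarith [h1 _ (hx (.inr v))]
    · exact h1 _ (hx (.inl v))
  onto x c := by
    classical
    refine ⟨fun v => if 0 < x v then c (.inl v) / deriv rr (x v)
      else -(c (.inr v) / deriv rr (-x v)), ?_⟩
    rintro (v | v) hw
    · have hp : 0 < x v := rr_ne.1 hw
      have h1 := ((rr_hasDerivAt (x v)).comp_hasFDerivAt x (hasFDerivAt_apply (𝕜 := ℝ) v x)).fderiv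
      have : fderiv ℝ (fun y : V → ℝ => rr (y v)) x = _ := h1
      simp only [Sum.elim_inl]
      rw [this]
      simp only [smul_apply, ContinuousLinearMap.proj_apply, smul_eq_mul, if_pos hp]
      exact mul_div_cancel₀ _ (rr_deriv_ne hp)
    · have hp : 0 < -x v := rr_ne.1 hw
      have h1 := ((rr_hasDerivAt (-x v)).comp_hasFDerivAt x
        (hasFDerivAt_apply (𝕜 := ℝ) v x).neg).fderiv
      have : fderiv ℝ (fun y : V → ℝ => rr (-y v)) x = _ := h1
      simp only [Sum.elim_inr]
      rw [this]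
      simp only [smul_apply, neg_apply, ContinuousLinearMap.proj_apply, smul_eq_mul,
        if_neg (show ¬ 0 < x v by linarith), neg_neg]
      exact mul_div_cancel₀ _ (rr_deriv_ne hp)

/-- a graph containing `V` with both charts -/
structure Dat (V : Type) [Fintype V] where
  W : Type
  [fin : Fintype W]
  i : V → W
  inj : Function.Injective i
  T : SimpleGraph W
  pl : PL (cone T) (V → ℝ)
  sm : SM T (V → ℝ)

instance {V : Type} [Fintype V] (D : Dat V) : Fintype D.W := D.fin

namespace Dat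

variable {V : Type} [Fintype V]

/-- subdivision of an edge -/
noncomputable def subdiv (D : Dat V) {u v : D.W} (h : D.T.Adj u v) : Dat V where
  W := Option D.W
  i x := some (D.i x)
  inj _ _ k := D.inj (Option.some.inj k)
  T := sub D.T u v
  pl := D.pl.subdiv h
  sm := D.sm.subdiv h

/-- vertices outside `V` -/
def nrm (D : Dat V) (w : D.W) : Prop := ∀ x, w ≠ D.i x

/-- neighbours in `V` -/
def N (D : Dat V) (w : D.W) : Set V := {x | D.T.Adj w (D.i x)}

def T0 (K : SimpleGraph V) (D : Dat V) : Prop := ∀ x y, K.Adj x y → D.T.Adj (D.i x) (D.i y)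

def T1 (K : SimpleGraph V) (D : Dat V) : Prop := ∀ x y, D.T.Adj (D.i x) (D.i y) ↔ K.Adj x y

def T2 (K : SimpleGraph V) (D : Dat V) : Prop :=
  ∀ s, D.nrm s → ∀ x y, x ≠ y → x ∈ D.N s → y ∈ D.N s → K.Adj x y

def bad (D : Dat V) (s t : D.W) : Prop :=
  D.nrm s ∧ D.nrm t ∧ D.T.Adj s t ∧ ¬ D.N s ⊆ D.N t ∧ ¬ D.N t ⊆ D.N s

theorem nrm_some (D : Dat V) {u v : D.W} (h : D.T.Adj u v) (w : D.W) :
    (D.subdiv h).nrm (some w) ↔ D.nrm w :=
  forall_congr' fun _ => not_congr Option.some_inj

theorem stage1 (K : SimpleGraph V) : ∃ D : Dat V, D.T1 K := by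
  have key : ∀ (n : ℕ) (D : Dat V), D.T0 K →
      {p : V × V | D.T.Adj (D.i p.1) (D.i p.2) ∧ ¬ K.Adj p.1 p.2}.ncard = n →
      ∃ D : Dat V, D.T1 K := by
    intro n
    induction n using Nat.strong_induction_on with
    | _ n ih =>
      intro D h0 hn
      by_cases h1 : D.T1 K
      · exact ⟨D, h1⟩
      obtain ⟨x, y, hxy, hK⟩ : ∃ x y, D.T.Adj (D.i x) (D.i y) ∧ ¬ K.Adj x y := by
        by_contra hc
        push Not at hc
        exact h1 fun x y => ⟨hc x y, h0 x y⟩
      refine ih _ ?_ (D.subdiv hxy) ?_ rfl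
      · rw [← hn]
        refine Set.ncard_lt_ncard ⟨fun p hp => ⟨hp.1.1, hp.2⟩, fun hs => ?_⟩ (Set.toFinite _)
        exact (hs (show (x, y) ∈ _ from ⟨hxy, hK⟩)).1.2.1 ⟨rfl, rfl⟩
      · intro a b hab
        refine ⟨h0 a b hab, ?_, ?_⟩
        · rintro ⟨k1, k2⟩
          rw [D.inj k1, D.inj k2] at hab
          exact hK hab
        · rintro ⟨k1, k2⟩
          rw [D.inj k1, D.inj k2] at hab
          exact hK hab.symm
  exact key _ ⟨V ⊕ V, Sum.inl, Sum.inl_injective, cross V, plCross V, smCross V⟩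
    (fun x y h => h.ne) rfl

theorem T1.subdiv {K : SimpleGraph V} {D : Dat V} (h1 : D.T1 K) {u v : D.W} (h : D.T.Adj u v)
    (hu : D.nrm u) : (D.subdiv h).T1 K := by
  intro x y
  rw [← h1 x y]
  exact ⟨fun k => k.1, fun k => ⟨k, fun j => hu x j.1.symm, fun j => hu y j.2.symm⟩⟩

open Classical in
/-- the measure of stage 2 -/
noncomputable def mu (D : Dat V) : ℕ := ∑ w, if D.nrm w then 3 ^ (D.N w).ncard else 0

theorem stage2 (K : SimpleGraph V) : ∃ D : Dat V, D.T1 K ∧ D.T2 K := by
  classical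
  have key : ∀ (n : ℕ) (D : Dat V), D.T1 K → D.mu = n → ∃ D : Dat V, D.T1 K ∧ D.T2 K := by
    intro n
    induction n using Nat.strong_induction_on with
    | _ n ih =>
      intro D h1 hn
      by_cases h2 : D.T2 K
      · exact ⟨D, h1, h2⟩
      obtain ⟨s, hs, x, y, hxy, hx, hy, hK⟩ :
          ∃ s, D.nrm s ∧ ∃ x y, x ≠ y ∧ x ∈ D.N s ∧ y ∈ D.N s ∧ ¬ K.Adj x y := by
        by_contra hc
        push Not at hc
        exact h2 hc
      have hsx : D.T.Adj s (D.i x) := hx
      refine ih _ ?_ (D.subdiv hsx) (h1.subdiv hsx hs) rfl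
      rw [← hn]
      have e0 : ((D.subdiv hsx).N none).ncard < (D.N s).ncard := by
        refine Set.ncard_lt_ncard ⟨fun a ha => ?_, fun hsub => ?_⟩ (Set.toFinite _)
        · rcases (ha : D.i a = s ∨ D.i a = D.i x ∨ _) with k | k | k
          · exact absurd k.symm (hs a)
          · rw [D.inj k]; exact hx
          · exact k.1
        · rcases (hsub hy : D.i y = s ∨ D.i y = D.i x ∨ _) with k | k | k
          · exact hs y k.symm
          · exact hxy (D.inj k).symm
          · exact hK ((h1 x y).1 k.2)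
      have e1 : ((D.subdiv hsx).N (some s)).ncard < (D.N s).ncard := by
        refine Set.ncard_lt_ncard ⟨fun a ha => ha.1, fun hsub => ?_⟩ (Set.toFinite _)
        exact (hsub hx).2.1 ⟨rfl, rfl⟩
      have e2 : ∀ w, ((D.subdiv hsx).N (some w)).ncard ≤ (D.N w).ncard := fun w =>
        Set.ncard_le_ncard (fun a ha => ha.1) (Set.toFinite _)
      have hmu : (D.subdiv hsx).mu = (if (D.subdiv hsx).nrm none then
          3 ^ ((D.subdiv hsx).N none).ncard else 0) + ∑ w : D.W, if (D.subdiv hsx).nrm (some w) then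
          3 ^ ((D.subdiv hsx).N (some w)).ncard else 0 := by
        unfold mu
        exact Fintype.sum_option (α := D.W) fun w => if (D.subdiv hsx).nrm w then
          3 ^ ((D.subdiv hsx).N w).ncard else 0
      rw [hmu]
      unfold mu
      rw [← Finset.add_sum_erase _ _ (Finset.mem_univ s),
        ← Finset.add_sum_erase Finset.univ _ (Finset.mem_univ s), ← add_assoc]
      refine add_lt_add_of_lt_of_le ?_ (Finset.sum_le_sum fun w _ => ?_)
      · rw [if_pos hs, if_pos ((D.nrm_some hsx s).2 hs)]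
        obtain ⟨k, hk⟩ : ∃ k, (D.N s).ncard = k + 1 := ⟨(D.N s).ncard - 1, by omega⟩
        have p0 : 3 ^ ((D.subdiv hsx).N none).ncard ≤ 3 ^ k :=
          Nat.pow_le_pow_right (by norm_num) (by omega)
        have p1 : 3 ^ ((D.subdiv hsx).N (some s)).ncard ≤ 3 ^ k :=
          Nat.pow_le_pow_right (by norm_num) (by omega)
        have p2 : 0 < 3 ^ k := by positivity
        rw [hk, pow_succ]
        split_ifs <;> omega
      · by_cases k : D.nrm w
        · rw [if_pos k, if_pos ((D.nrm_some hsx w).2 k)]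
          exact Nat.pow_le_pow_right (by norm_num) (e2 w)
        · rw [if_neg k, if_neg fun j => k ((D.nrm_some hsx w).1 j)]
  obtain ⟨D, hD⟩ := stage1 K
  exact key _ D hD rfl

theorem N_some (D : Dat V) {s t : D.W} (h : D.T.Adj s t) (hs : D.nrm s) (ht : D.nrm t) (w : D.W) :
    (D.subdiv h).N (some w) = D.N w :=
  Set.ext fun x => ⟨fun k => k.1, fun k => ⟨k, fun j => ht x j.2.symm, fun j => hs x j.2.symm⟩⟩

theorem N_none (D : Dat V) {s t : D.W} (h : D.T.Adj s t) (hs : D.nrm s) (ht : D.nrm t) :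
    (D.subdiv h).N none = D.N s ∩ D.N t := by
  ext x
  constructor
  · intro ha
    rcases (ha : D.i x = s ∨ D.i x = t ∨ _) with k | k | k
    · exact absurd k.symm (hs x)
    · exact absurd k.symm (ht x)
    · exact k
  · exact fun k => Or.inr (Or.inr k)

theorem stage3_step (K : SimpleGraph V) (k : ℕ) : ∀ (n : ℕ) (D : Dat V), D.T1 K → D.T2 K →
    (∀ s t, D.bad s t → min (D.N s).ncard (D.N t).ncard ≤ k) →
    {p : D.W × D.W | D.bad p.1 p.2 ∧ min (D.N p.1).ncard (D.N p.2).ncard = k}.ncard = n →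
    ∃ D : Dat V, D.T1 K ∧ D.T2 K ∧ ∀ s t, D.bad s t → min (D.N s).ncard (D.N t).ncard < k := by
  intro n
  induction n using Nat.strong_induction_on with
  | _ n ih =>
    intro D h1 h2 h3 hn
    by_cases h4 : ∀ s t, D.bad s t → min (D.N s).ncard (D.N t).ncard < k
    · exact ⟨D, h1, h2, h4⟩
    push Not at h4
    obtain ⟨s, t, hb, hk⟩ := h4
    have hk' : min (D.N s).ncard (D.N t).ncard = k := le_antisymm (h3 s t hb) hk
    obtain ⟨hs, ht, hst, n1, n2⟩ := id hb
    have small : ((D.subdiv hst).N none).ncard < k := by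
      rw [D.N_none hst hs ht, ← hk']
      refine lt_min ?_ ?_
      · exact Set.ncard_lt_ncard ⟨Set.inter_subset_left, fun j => n1 fun x hx => (j hx).2⟩
          (Set.toFinite _)
      · exact Set.ncard_lt_ncard ⟨Set.inter_subset_right, fun j => n2 fun x hx => (j hx).1⟩
          (Set.toFinite _)
    have bad_ss : ∀ a b, (D.subdiv hst).bad (some a) (some b) → D.bad a b ∧ (a, b) ≠ (s, t) := by
      rintro a b ⟨j1, j2, j3, j4, j5⟩
      rw [D.N_some hst hs ht, D.N_some hst hs ht] at j4 j5
      exact ⟨⟨(D.nrm_some hst a).1 j1, (D.nrm_some hst b).1 j2, j3.1, j4, j5⟩,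
        fun e => j3.2.1 (Prod.mk.inj e)⟩
    refine ih _ ?_ (D.subdiv hst) (h1.subdiv hst hs) ?_ ?_ rfl
    · rw [← hn]
      refine lt_of_le_of_lt (Set.ncard_le_ncard (t := Prod.map some some ''
        ({p : D.W × D.W | D.bad p.1 p.2 ∧ min (D.N p.1).ncard (D.N p.2).ncard = k} \ {(s, t)}))
        ?_ (Set.toFinite _)) (lt_of_le_of_lt (Set.ncard_image_le (Set.toFinite _)) ?_)
      · rintro ⟨_ | a, _ | b⟩ ⟨j1, j2⟩
        · exact absurd j1.2.2.1 (SimpleGraph.irrefl _)
        · exact absurd j2 (min_lt_of_left_lt small).ne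
        · exact absurd j2 (min_lt_of_right_lt small).ne
        · refine ⟨(a, b), ⟨⟨(bad_ss a b j1).1, ?_⟩, (bad_ss a b j1).2⟩, rfl⟩
          simpa only [D.N_some hst hs ht] using j2
      · exact Set.ncard_sdiff_singleton_lt_of_mem ⟨hb, hk'⟩ (Set.toFinite _)
    · rintro (_ | a) ha x y hxy hx hy
      · rw [D.N_none hst hs ht] at hx hy
        exact h2 s hs x y hxy hx.1 hy.1
      · rw [D.N_some hst hs ht] at hx hy
        exact h2 a ((D.nrm_some hst a).1 ha) x y hxy hx hy
    · rintro (_ | a) (_ | b) j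
      · exact (min_lt_of_left_lt small).le
      · exact (min_lt_of_left_lt small).le
      · exact (min_lt_of_right_lt small).le
      · rw [D.N_some hst hs ht, D.N_some hst hs ht]
        exact h3 a b (bad_ss a b j).1

theorem stage3 (K : SimpleGraph V) : ∃ D : Dat V, D.T1 K ∧ D.T2 K ∧ ∀ s t, ¬ D.bad s t := by
  have key : ∀ k : ℕ, (∃ D : Dat V, D.T1 K ∧ D.T2 K ∧
      ∀ s t, D.bad s t → min (D.N s).ncard (D.N t).ncard < k) →
      ∃ D : Dat V, D.T1 K ∧ D.T2 K ∧ ∀ s t, ¬ D.bad s t := by
    intro k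
    induction k with
    | zero => exact fun ⟨D, h1, h2, h3⟩ => ⟨D, h1, h2, fun s t h => absurd (h3 s t h) (by omega)⟩
    | succ k ih =>
      rintro ⟨D, h1, h2, h3⟩
      exact ih (stage3_step K k _ D h1 h2 (fun s t h => Nat.lt_succ_iff.1 (h3 s t h)) rfl)
  obtain ⟨D, h1, h2⟩ := stage2 K
  refine key ((Set.univ : Set V).ncard + 1) ⟨D, h1, h2, fun s t _ => ?_⟩
  exact Nat.lt_succ_of_le (min_le_of_left_le
    (Set.ncard_le_ncard (Set.subset_univ _) (Set.toFinite _)))

end Dat

theorem mem_comap {W W' : Type} (T : SimpleGraph W) (e : W' ≃ W) {z : W → ℝ} (hz : z ∈ cone T) :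
    z ∘ e ∈ cone (T.comap e) :=
  ⟨fun _ => hz.1 _, fun _ _ hne h1 h2 => hz.2 _ _ (fun k => hne (e.injective k)) h1 h2⟩

theorem mem_comap' {W W' : Type} (T : SimpleGraph W) (e : W' ≃ W) {z : W' → ℝ}
    (hz : z ∈ cone (T.comap e)) : z ∘ e.symm ∈ cone T :=
  ⟨fun w => hz.1 _, fun w w' hne h1 h2 => by
    simpa using hz.2 _ _ (fun k => hne (e.symm.injective k)) h1 h2⟩

/-- transport of the linear chart -/
noncomputable def PL.comap {W W' : Type} [Fintype W] [Fintype W'] {T : SimpleGraph W} {F : Type}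
    [NormedAddCommGroup F] [NormedSpace ℝ F] (P : PL (cone T) F) (e : W' ≃ W) :
    PL (cone (T.comap e)) F where
  a w := P.a (e w)
  q x := P.q x ∘ e
  mem x := mem_comap T e (P.mem x)
  right x := (e.sum_comp fun w => P.q x w • P.a w).trans (P.right x)
  left z hz := by
    have : ∑ w, z w • P.a (e w) = ∑ w, (z ∘ e.symm) w • P.a w := by
      rw [← e.sum_comp]; simp
    rw [this, P.left _ (mem_comap' T e hz)]
    funext w; simp
  lip := by
    obtain ⟨L, hL⟩ := P.lip
    refine ⟨L, LipschitzWith.of_dist_le_mul fun x y => ?_⟩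
    refine (dist_pi_le_iff (by positivity)).2 fun w => ?_
    exact (dist_le_pi_dist (P.q x) (P.q y) (e w)).trans (hL.dist_le_mul x y)

/-- transport of the smooth chart -/
noncomputable def SM.comap {W W' : Type} {T : SimpleGraph W} {E : Type}
    [NormedAddCommGroup E] [NormedSpace ℝ E] (H : SM T E) (e : W' ≃ W) : SM (T.comap e) E where
  h x := H.h x ∘ e
  smooth w := H.smooth (e w)
  mem x := mem_comap T e (H.mem x)
  inj x y h := H.inj (funext fun w => by simpa using congrFun h (e.symm w))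
  surj z hz := by
    obtain ⟨x, hx⟩ := H.surj _ (mem_comap' T e hz)
    exact ⟨x, by rw [hx]; funext w; simp⟩
  proper R := by
    obtain ⟨R', h⟩ := H.proper R
    exact ⟨R', fun x hx => h x fun w => by simpa using hx (e.symm w)⟩
  onto x c := by
    obtain ⟨ξ, h⟩ := H.onto x (c ∘ e.symm)
    exact ⟨ξ, fun w hw => by simpa using h (e w) hw⟩

/-- Section 2. -/
theorem exists_sphere {V : Type} [Fintype V] (K : SimpleGraph V) :
    ∃ (S : Type) (_ : Fintype S), Nonempty (Sphere K S) := by
  classical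
  obtain ⟨D, h1, h2, h3⟩ := Dat.stage3 K
  have hb : Function.Bijective (Sum.elim D.i Subtype.val : V ⊕ {w // D.nrm w} → D.W) := by
    constructor
    · rintro (x | s) (y | t) h
      · exact congrArg _ (D.inj h)
      · exact absurd h.symm (t.2 x)
      · exact absurd h (s.2 y)
      · exact congrArg _ (Subtype.ext h)
    · intro w
      by_cases k : D.nrm w
      · exact ⟨.inr ⟨w, k⟩, rfl⟩
      · unfold Dat.nrm at k
        push Not at k
        obtain ⟨x, hx⟩ := k
        exact ⟨.inl x, hx.symm⟩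
  let e := Equiv.ofBijective _ hb
  refine ⟨{w // D.nrm w}, inferInstance, ⟨D.T.comap e, h1, fun s x y => h2 s.1 s.2 x y, ?_,
    D.pl.comap e, D.sm.comap e⟩⟩
  intro s t hst
  by_contra hc
  rw [not_or] at hc
  exact h3 s.1 t.1 ⟨s.2, t.2, hst, hc.1, hc.2⟩

end Pool.Agent.Lib.MP_c2693b_gt.Tri
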