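import Pool.Agent.Lib.MP_c2693b_gt.TriDefs

/-! Section 2: edge subdivision and the piecewise linear chart. -/

namespace Pool.Agent.Lib.MP_c2693b_gt.Tri

open scoped BigOperators ContDiff

variable {W : Type}

/-- adjacency of the subdivided graph -/
def subAdj (T : SimpleGraph W) (u v : W) : Option W → Option W → Prop
  | some w, some w' => T.Adj w w' ∧ ¬(w = u ∧ w' = v) ∧ ¬(w = v ∧ w' = u)
  | none, some w => w = u ∨ w = v ∨ (T.Adj u w ∧ T.Adj v w)
  | some w, none => w = u ∨ w = v ∨ (T.Adj u w ∧ T.Adj v w)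
  | none, none => False

/-- subdivision of the edge `u v`; the new vertex is `none` -/
def sub (T : SimpleGraph W) (u v : W) : SimpleGraph (Option W) where
  Adj := subAdj T u v
  symm := ⟨by
    rintro (_ | w) (_ | w') h
    · exact h
    · exact h
    · exact h
    · exact ⟨h.1.symm, fun k => h.2.2 ⟨k.2, k.1⟩, fun k => h.2.1 ⟨k.2, k.1⟩⟩⟩
  loopless := ⟨by
    rintro (_ | w) h
    · exact h
    · exact T.irrefl h.1⟩

theorem sub_ss (T : SimpleGraph W) (u v w w' : W) :
    (sub T u v).Adj (some w) (some w') ↔ T.Adj w w' ∧ ¬(w = u ∧ w' = v) ∧ ¬(w = v ∧ w' = u) :=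
  Iff.rfl

theorem sub_ns (T : SimpleGraph W) (u v w : W) :
    (sub T u v).Adj none (some w) ↔ w = u ∨ w = v ∨ (T.Adj u w ∧ T.Adj v w) := Iff.rfl

theorem sub_sn (T : SimpleGraph W) (u v w : W) :
    (sub T u v).Adj (some w) none ↔ w = u ∨ w = v ∨ (T.Adj u w ∧ T.Adj v w) := Iff.rfl

/-- the support of `z` is a clique -/
def clq (T : SimpleGraph W) (z : W → ℝ) : Prop :=
  ∀ w w', w ≠ w' → z w ≠ 0 → z w' ≠ 0 → T.Adj w w'

theorem clq_sub {T : SimpleGraph W} {u v : W} (huv : T.Adj u v) {z : W → ℝ} {z' : Option W → ℝ}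
    (h0 : ∀ w, w ≠ u → w ≠ v → (z w ≠ 0 ↔ z' (some w) ≠ 0))
    (hu : z u ≠ 0 ↔ z' (some u) ≠ 0 ∨ z' none ≠ 0)
    (hv : z v ≠ 0 ↔ z' (some v) ≠ 0 ∨ z' none ≠ 0) :
    clq (sub T u v) z' ↔ clq T z ∧ (z' (some u) = 0 ∨ z' (some v) = 0) := by
  have key : ∀ w, z w ≠ 0 → z' (some w) ≠ 0 ∨ ((w = u ∨ w = v) ∧ z' none ≠ 0) := by
    intro w hw
    by_cases h1 : w = u
    · subst h1
      rcases hu.1 hw with k | k
      · exact Or.inl k
      · exact Or.inr ⟨Or.inl rfl, k⟩
    by_cases h2 : w = v
    · subst h2
      rcases hv.1 hw with k | k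
      · exact Or.inl k
      · exact Or.inr ⟨Or.inr rfl, k⟩
    exact Or.inl ((h0 w h1 h2).1 hw)
  have key' : ∀ w, z' (some w) ≠ 0 → z w ≠ 0 := by
    intro w hw
    by_cases h1 : w = u
    · subst h1; exact hu.2 (Or.inl hw)
    by_cases h2 : w = v
    · subst h2; exact hv.2 (Or.inl hw)
    exact (h0 w h1 h2).2 hw
  constructor
  · intro H
    have mix : ∀ w w', w ≠ w' → z' (some w) ≠ 0 → (w' = u ∨ w' = v) → z' none ≠ 0 →
        T.Adj w w' := by
      intro w w' hne h1 h2 h3
      have := (sub_ns T u v w).1 (H none (some w) (by simp) h3 h1)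
      rcases h2 with rfl | rfl
      · rcases this with rfl | rfl | k
        · exact absurd rfl hne
        · exact huv.symm
        · exact k.1.symm
      · rcases this with rfl | rfl | k
        · exact huv
        · exact absurd rfl hne
        · exact k.2.symm
    refine ⟨?_, ?_⟩
    · intro w w' hne hw hw'
      rcases key w hw with k | k <;> rcases key w' hw' with k' | k'
      · exact ((sub_ss T u v w w').1 (H _ _ (by simpa using hne) k k')).1
      · exact mix w w' hne k k'.1 k'.2
      · exact (mix w' w hne.symm k' k.1 k.2).symm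
      · rcases k.1 with rfl | rfl <;> rcases k'.1 with rfl | rfl
        · exact absurd rfl hne
        · exact huv
        · exact huv.symm
        · exact absurd rfl hne
    · by_contra hc
      push Not at hc
      have := (sub_ss T u v u v).1 (H _ _ (by simpa using huv.ne) hc.1 hc.2)
      exact this.2.1 ⟨rfl, rfl⟩
  · rintro ⟨H, H2⟩
    have mix : ∀ w, z' none ≠ 0 → z' (some w) ≠ 0 →
        w = u ∨ w = v ∨ (T.Adj u w ∧ T.Adj v w) := by
      intro w h1 h2
      by_cases k1 : w = u
      · exact Or.inl k1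
      by_cases k2 : w = v
      · exact Or.inr (Or.inl k2)
      exact Or.inr (Or.inr ⟨H _ _ (Ne.symm k1) (hu.2 (Or.inr h1)) (key' w h2),
        H _ _ (Ne.symm k2) (hv.2 (Or.inr h1)) (key' w h2)⟩)
    rintro (_ | w) (_ | w') hne hp hq
    · exact absurd rfl hne
    · exact mix w' hp hq
    · exact mix w hq hp
    · refine ⟨H _ _ (by simpa using hne) (key' _ hp) (key' _ hq), ?_, ?_⟩
      · rintro ⟨rfl, rfl⟩
        rcases H2 with k | k
        · exact hp k
        · exact hq k
      · rintro ⟨rfl, rfl⟩
        rcases H2 with k | k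
        · exact hq k
        · exact hp k

open Classical in
/-- the piecewise linear map to the subdivided cone -/
noncomputable def up (u v : W) (z : W → ℝ) : Option W → ℝ
  | none => min (z u) (z v)
  | some w => z w - if w = u ∨ w = v then min (z u) (z v) else 0

open Classical in
/-- the linear map from the subdivided cone -/
noncomputable def dn (u v : W) (z : Option W → ℝ) : W → ℝ :=
  fun w => z (some w) + if w = u ∨ w = v then z none else 0

theorem dn_up (u v : W) (z : W → ℝ) : dn u v (up u v z) = z := by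
  funext w
  simp only [dn, up]
  ring

theorem up_dn {u v : W} {z : Option W → ℝ} (h0 : ∀ p, 0 ≤ z p)
    (h : z (some u) = 0 ∨ z (some v) = 0) : up u v (dn u v z) = z := by
  have hm : min (dn u v z u) (dn u v z v) = z none := by
    simp only [dn, true_or, or_true, if_true]
    rcases h with k | k
    · rw [k, zero_add]; exact min_eq_left (by linarith [h0 (some v)])
    · rw [k, zero_add]; exact min_eq_right (by linarith [h0 (some u)])
  funext p
  rcases p with _ | w
  · simpa [up] using hm
  · simp only [up, hm]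
    simp only [dn]
    ring

theorem clq_dn {T : SimpleGraph W} {u v : W} (huv : T.Adj u v) {z : Option W → ℝ}
    (h0 : ∀ p, 0 ≤ z p) :
    clq (sub T u v) z ↔ clq T (dn u v z) ∧ (z (some u) = 0 ∨ z (some v) = 0) := by
  have aux : ∀ a b : ℝ, 0 ≤ a → 0 ≤ b → (a + b ≠ 0 ↔ a ≠ 0 ∨ b ≠ 0) := by
    intro a b ha hb
    constructor
    · intro h
      by_contra hc
      push Not at hc
      exact h (by rw [hc.1, hc.2, add_zero])
    · rintro (h | h) k
      · exact h (by linarith)
      · exact h (by linarith)
  apply clq_sub huv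
  · intro w h1 h2
    simp [dn, h1, h2]
  · simpa [dn] using aux _ _ (h0 (some u)) (h0 none)
  · simpa [dn] using aux _ _ (h0 (some v)) (h0 none)

theorem up_mem {T : SimpleGraph W} {u v : W} (huv : T.Adj u v) {z : W → ℝ} (hz : z ∈ cone T) :
    up u v z ∈ cone (sub T u v) := by
  have h0 : ∀ p, 0 ≤ up u v z p := by
    rintro (_ | w)
    · exact le_min (hz.1 u) (hz.1 v)
    · simp only [up]
      split_ifs with h
      · rcases h with rfl | rfl
        · linarith [min_le_left (z w) (z v)]
        · linarith [min_le_right (z u) (z w)]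
      · linarith [hz.1 w]
  refine ⟨h0, (clq_dn huv h0).2 ⟨?_, ?_⟩⟩
  · rw [dn_up]; exact hz.2
  · simp only [up, true_or, or_true, if_true]
    rcases le_total (z u) (z v) with k | k
    · left; rw [min_eq_left k, sub_self]
    · right; rw [min_eq_right k, sub_self]

theorem dn_mem {T : SimpleGraph W} {u v : W} (huv : T.Adj u v) {z : Option W → ℝ}
    (hz : z ∈ cone (sub T u v)) : dn u v z ∈ cone T := by
  refine ⟨fun w => ?_, ((clq_dn huv hz.1).1 hz.2).1⟩
  simp only [dn]
  split_ifs
  · linarith [hz.1 (some w), hz.1 none]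
  · linarith [hz.1 (some w)]

theorem up_lip [Fintype W] (u v : W) : LipschitzWith 2 (up u v) := by
  have hm : ∀ z z' : W → ℝ, |min (z u) (z v) - min (z' u) (z' v)| ≤ dist z z' := by
    intro z z'
    refine (abs_min_sub_min_le_max _ _ _ _).trans (max_le ?_ ?_)
    · exact dist_le_pi_dist z z' u
    · exact dist_le_pi_dist z z' v
  refine LipschitzWith.of_dist_le_mul fun z z' => ?_
  have hd : 0 ≤ dist z z' := dist_nonneg
  refine (dist_pi_le_iff (by positivity)).2 ?_
  rintro (_ | w)
  · simp only [up, Real.dist_eq]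
    have := hm z z'
    push_cast
    linarith
  · simp only [up, Real.dist_eq]
    have h1 := hm z z'
    have h2 : |z w - z' w| ≤ dist z z' := dist_le_pi_dist z z' w
    push_cast
    split_ifs
    · have : z w - min (z u) (z v) - (z' w - min (z' u) (z' v)) =
          (z w - z' w) - (min (z u) (z v) - min (z' u) (z' v)) := by ring
      rw [this]
      linarith [abs_sub (z w - z' w) (min (z u) (z v) - min (z' u) (z' v))]
    · simp only [sub_zero]
      linarith

theorem sum_dn [Fintype W] {F : Type} [AddCommGroup F] [Module ℝ F] {u v : W} (huv : u ≠ v)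
    (a : W → F) (z : Option W → ℝ) :
    ∑ p, z p • (Option.elim p (a u + a v) a) = ∑ w, dn u v z w • a w := by
  classical
  rw [Fintype.sum_option]
  simp only [dn, add_smul, Finset.sum_add_distrib, Option.elim]
  rw [add_comm]
  congr 1
  have : ∀ w, (if w = u ∨ w = v then z none else 0) • a w =
      (if w = u then z none • a u else 0) + (if w = v then z none • a v else 0) := by
    intro w
    by_cases h1 : w = u
    · subst h1; simp [huv]
    · by_cases h2 : w = v
      · subst h2; simp [h1]
      · simp [h1, h2]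
  rw [Finset.sum_congr rfl fun w _ => by convert this w]
  simp [Finset.sum_add_distrib]

/-- the chart after one subdivision -/
noncomputable def PL.subdiv [Fintype W] {T : SimpleGraph W} {F : Type} [NormedAddCommGroup F]
    [NormedSpace ℝ F] (P : PL (cone T) F) {u v : W} (huv : T.Adj u v) :
    PL (cone (sub T u v)) F where
  a p := Option.elim p (P.a u + P.a v) P.a
  q x := up u v (P.q x)
  mem x := up_mem huv (P.mem x)
  right x := by rw [sum_dn huv.ne, dn_up, P.right]
  left z hz := by
    rw [sum_dn huv.ne, P.left _ (dn_mem huv hz), up_dn hz.1 ((clq_dn huv hz.1).1 hz.2).2]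
  lip := by
    obtain ⟨L, hL⟩ := P.lip
    exact ⟨2 * L, (up_lip u v).comp hL⟩

end Pool.Agent.Lib.MP_c2693b_gt.Tri
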